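import Mathlib
import Pool.Agent.H82.IC.Defs

/-! MP_c4c051_pr: this file joins several modules to save build time. -/

section S_H82_IC_CN

/-!
# CN: connectivity basics

`Γ.Conn ω x y` is the reflexive transitive closure of the symmetric relation `Γ.Adj ω` (all for `ω : Set E`).
All proofs: induction on `Relation.ReflTransGen` (or `Relation.ReflTransGen.mono`, `.symmetric`).

* `conn_symm`: `Γ.Adj ω` is symmetric.
* `conn_insert` (→): induction on the path from `x`; the case of the last step using the new edge `e`: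
  combine.  (←): mono + the step through `e` (in either direction) + transitivity.
* `cl_end`: an open edge connects its two ends.
* `cl_agree`: if `ω` and `ω'` agree on all edges touching `C = cl ω o` then `cl ω' o = C`:  (⊆) by induction a path of
  `ω'` from `o` stays in `C` (the edge used touches `C`, so it is in `ω`, so its other end is in `C`);
  (⊇) by induction a path of `ω` from `o` only uses edges touching `C`.
* `conn_off`: if every edge of `ω` has both or no end in `C` and `u ∉ C`, then the vertices reached from `u` are not in `C` and the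
  edges used do not touch `C`.
* `conn_split`: walk along the path from `u` to `v` until the first edge that lies in `K`; if there is none then `u`, `v` are
  connected in `ω \ K`.  (Induction on the path with the statement: `Conn (ω \ K) u x ∨ ∃ e ∈ ω ∩ K, ...`.)
* `conn_exit`: walk along the path from `u ∈ D` to `v ∉ D` until the first vertex outside `D`: all edges before have both ends in `D`.
-/

set_option autoImplicit false

namespace H82.IC

variable {V E : Type*}

theorem CN_adj_symm (Γ : Gr V E) {ω : Set E} {x y : V} (h : Γ.Adj ω x y) : Γ.Adj ω y x := by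
  obtain ⟨e, he, h1 | h1⟩ := h
  · exact ⟨e, he, Or.inr h1⟩
  · exact ⟨e, he, Or.inl h1⟩

theorem conn_refl (Γ : Gr V E) (ω : Set E) (x : V) : Γ.Conn ω x x :=
  Relation.ReflTransGen.refl

theorem conn_symm (Γ : Gr V E) {ω : Set E} {x y : V} (h : Γ.Conn ω x y) : Γ.Conn ω y x := by
  induction h with
  | refl => exact Relation.ReflTransGen.refl
  | tail _ h2 ih => exact Relation.ReflTransGen.head (CN_adj_symm Γ h2) ih

theorem conn_comm (Γ : Gr V E) (ω : Set E) (x y : V) : Γ.Conn ω x y ↔ Γ.Conn ω y x :=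
  ⟨conn_symm Γ, conn_symm Γ⟩

theorem conn_trans (Γ : Gr V E) {ω : Set E} {x y z : V} (h : Γ.Conn ω x y) (h' : Γ.Conn ω y z) :
    Γ.Conn ω x z :=
  Relation.ReflTransGen.trans h h'

theorem conn_mono (Γ : Gr V E) {ω ω' : Set E} (hω : ω ⊆ ω') {x y : V} (h : Γ.Conn ω x y) :
    Γ.Conn ω' x y := by
  induction h with
  | refl => exact Relation.ReflTransGen.refl
  | tail _ h2 ih =>
    obtain ⟨e, he, h1⟩ := h2
    exact Relation.ReflTransGen.tail ih ⟨e, hω he, h1⟩

theorem conn_edge (Γ : Gr V E) {ω : Set E} {e : E} (he : e ∈ ω) : Γ.Conn ω (Γ.s e) (Γ.r e) :=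
  Relation.ReflTransGen.single ⟨e, he, Or.inl ⟨rfl, rfl⟩⟩

theorem conn_insert (Γ : Gr V E) (ω : Set E) (e : E) (x y : V) :
    Γ.Conn (insert e ω) x y ↔ Γ.Conn ω x y ∨ (Γ.Conn ω x (Γ.s e) ∧ Γ.Conn ω (Γ.r e) y) ∨
      (Γ.Conn ω x (Γ.r e) ∧ Γ.Conn ω (Γ.s e) y) := by
  constructor
  · intro h
    induction h with
    | refl => exact Or.inl Relation.ReflTransGen.refl
    | @tail b c _ h2 ih =>
      obtain ⟨e', he', h1⟩ := h2
      rcases Set.mem_insert_iff.mp he' with rfl | he'
      · rcases h1 with ⟨rfl, rfl⟩ | ⟨rfl, rfl⟩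
        · rcases ih with ih | ⟨ih1, ih2⟩ | ⟨ih1, ih2⟩
          · exact Or.inr (Or.inl ⟨ih, conn_refl Γ ω _⟩)
          · exact Or.inr (Or.inl ⟨ih1, conn_refl Γ ω _⟩)
          · exact Or.inl ih1
        · rcases ih with ih | ⟨ih1, ih2⟩ | ⟨ih1, ih2⟩
          · exact Or.inr (Or.inr ⟨ih, conn_refl Γ ω _⟩)
          · exact Or.inl ih1
          · exact Or.inr (Or.inr ⟨ih1, conn_refl Γ ω _⟩)
      · have hs : Γ.Adj ω b c := ⟨e', he', h1⟩
        rcases ih with ih | ⟨ih1, ih2⟩ | ⟨ih1, ih2⟩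
        · exact Or.inl (ih.tail hs)
        · exact Or.inr (Or.inl ⟨ih1, ih2.tail hs⟩)
        · exact Or.inr (Or.inr ⟨ih1, ih2.tail hs⟩)
  · have hsub : ω ⊆ insert e ω := Set.subset_insert e ω
    have hedge : Γ.Conn (insert e ω) (Γ.s e) (Γ.r e) := conn_edge Γ (Set.mem_insert e ω)
    rintro (h | ⟨h1, h2⟩ | ⟨h1, h2⟩)
    · exact conn_mono Γ hsub h
    · exact conn_trans Γ (conn_mono Γ hsub h1) (conn_trans Γ hedge (conn_mono Γ hsub h2))
    · exact conn_trans Γ (conn_mono Γ hsub h1)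
        (conn_trans Γ (conn_symm Γ hedge) (conn_mono Γ hsub h2))

theorem mem_cl_self (Γ : Gr V E) (ω : Set E) (o : V) : o ∈ Γ.cl ω o :=
  conn_refl Γ ω o

theorem cl_end (Γ : Gr V E) {ω : Set E} {e : E} (he : e ∈ ω) (o : V) :
    Γ.s e ∈ Γ.cl ω o ↔ Γ.r e ∈ Γ.cl ω o :=
  ⟨fun h => conn_trans Γ h (conn_edge Γ he), fun h => conn_trans Γ h (conn_symm Γ (conn_edge Γ he))⟩

theorem cl_agree (Γ : Gr V E) {ω ω' : Set E} {o : V}
    (h : ∀ e ∈ Γ.tch (Γ.cl ω o), (e ∈ ω ↔ e ∈ ω')) : Γ.cl ω' o = Γ.cl ω o := by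
  apply Set.Subset.antisymm
  · intro v hv
    have hv' : Γ.Conn ω' o v := hv
    induction hv' with
    | refl => exact mem_cl_self Γ ω o
    | @tail b c hb h2 ih =>
      have ihb : Γ.Conn ω o b := ih hb
      obtain ⟨e, he, h1⟩ := h2
      have hbe : e ∈ Γ.tch (Γ.cl ω o) := by
        rcases h1 with ⟨rfl, rfl⟩ | ⟨rfl, rfl⟩
        · exact Or.inl ihb
        · exact Or.inr ihb
      have heω : e ∈ ω := (h e hbe).mpr he
      exact Relation.ReflTransGen.tail ihb ⟨e, heω, h1⟩
  · intro v hv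
    have hv' : Γ.Conn ω o v := hv
    induction hv' with
    | refl => exact mem_cl_self Γ ω' o
    | @tail b c hb h2 ih =>
      have ihb : Γ.Conn ω' o b := ih hb
      obtain ⟨e, he, h1⟩ := h2
      have hbe : e ∈ Γ.tch (Γ.cl ω o) := by
        rcases h1 with ⟨rfl, rfl⟩ | ⟨rfl, rfl⟩
        · exact Or.inl hb
        · exact Or.inr hb
      have heω : e ∈ ω' := (h e hbe).mp he
      exact Relation.ReflTransGen.tail ihb ⟨e, heω, h1⟩

theorem conn_off (Γ : Gr V E) {ω : Set E} {C : Set V} (hC : ∀ e ∈ ω, (Γ.s e ∈ C ↔ Γ.r e ∈ C))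
    {u : V} (hu : u ∉ C) (v : V) :
    Γ.Conn ω u v ↔ Γ.Conn (ω \ Γ.tch C) u v := by
  constructor
  · intro h
    have key : Γ.Conn (ω \ Γ.tch C) u v ∧ v ∉ C := by
      induction h with
      | refl => exact ⟨conn_refl Γ _ _, hu⟩
      | @tail b c _ h2 ih =>
        obtain ⟨ih1, ih2⟩ := ih
        obtain ⟨e, he, h1⟩ := h2
        have hee := hC e he
        rcases h1 with ⟨rfl, rfl⟩ | ⟨rfl, rfl⟩
        · have hr : Γ.r e ∉ C := fun h => ih2 (hee.mpr h)
          have ht : e ∉ Γ.tch C := by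
            rintro (h | h)
            · exact ih2 h
            · exact hr h
          exact ⟨ih1.tail ⟨e, ⟨he, ht⟩, Or.inl ⟨rfl, rfl⟩⟩, hr⟩
        · have hr : Γ.s e ∉ C := fun h => ih2 (hee.mp h)
          have ht : e ∉ Γ.tch C := by
            rintro (h | h)
            · exact hr h
            · exact ih2 h
          exact ⟨ih1.tail ⟨e, ⟨he, ht⟩, Or.inr ⟨rfl, rfl⟩⟩, hr⟩
    exact key.1
  · exact conn_mono Γ Set.sdiff_subset

theorem conn_off_notMem (Γ : Gr V E) {ω : Set E} {C : Set V} (hC : ∀ e ∈ ω, (Γ.s e ∈ C ↔ Γ.r e ∈ C))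
    {u v : V} (h : Γ.Conn ω u v) : u ∈ C ↔ v ∈ C := by
  induction h with
  | refl => exact Iff.rfl
  | tail _ h2 ih =>
    obtain ⟨e, he, h1⟩ := h2
    rcases h1 with ⟨rfl, rfl⟩ | ⟨rfl, rfl⟩
    · exact ih.trans (hC e he)
    · exact ih.trans (hC e he).symm

theorem conn_split (Γ : Gr V E) {ω K : Set E} {u v : V} (h : Γ.Conn ω u v)
    (h' : ¬ Γ.Conn (ω \ K) u v) :
    ∃ e ∈ ω ∩ K, Γ.Conn (ω \ K) u (Γ.s e) ∨ Γ.Conn (ω \ K) u (Γ.r e) := by
  by_contra hcon
  push Not at hcon
  apply h'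
  clear h'
  induction h with
  | refl => exact conn_refl Γ _ _
  | @tail b c _ h2 ih =>
    obtain ⟨e, he, h1⟩ := h2
    by_cases hK : e ∈ K
    · exfalso
      obtain ⟨n1, n2⟩ := hcon e ⟨he, hK⟩
      rcases h1 with ⟨rfl, rfl⟩ | ⟨rfl, rfl⟩
      · exact n1 ih
      · exact n2 ih
    · exact ih.tail ⟨e, ⟨he, hK⟩, h1⟩

theorem conn_exit (Γ : Gr V E) {ω : Set E} {D : Set V} {u v : V} (h : Γ.Conn ω u v)
    (hu : u ∈ D) (hv : v ∉ D) :
    ∃ x ∈ D, ∃ y, y ∉ D ∧ Γ.Adj ω x y ∧ Γ.Conn (ω ∩ Γ.ins D) u x := by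
  by_contra hcon
  push Not at hcon
  have key : Γ.Conn (ω ∩ Γ.ins D) u v ∧ v ∈ D := by
    clear hv
    induction h with
    | refl => exact ⟨conn_refl Γ _ _, hu⟩
    | @tail b c _ h2 ih =>
      obtain ⟨ih1, ih2⟩ := ih
      by_cases hc : c ∈ D
      · obtain ⟨e, he, h1⟩ := h2
        refine ⟨ih1.tail ⟨e, ⟨he, ?_⟩, h1⟩, hc⟩
        rcases h1 with ⟨rfl, rfl⟩ | ⟨rfl, rfl⟩
        · exact ⟨ih2, hc⟩
        · exact ⟨hc, ih2⟩
      · exact absurd ih1 (hcon b ih2 c hc h2)
  exact hv key.2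

end H82.IC

end S_H82_IC_CN

section S_H82_IC_BD

/-!
# BD: boundaries of flows

* `bd_add` etc: `Γ.bd` is additive (`Finset.sum_add_distrib`, `ite` splitting).
* `bd_single`: the boundary of the flow with value `1` on `e` and `0` elsewhere is `src (s e) (r e)`.
* `bd_pr`: componentwise.
* `exists_flow`: induction on the path (`ReflTransGen`): start with the zero flow; a step through `e ∈ ω` adds the
  flow `1_e` (in `ZMod 2`, `src u x + src x y = src u y`, a loop `e` gives `src x x = 0`).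
* `bd_cut`: pointwise: if `x ∈ C`, only edges with an end equal to `x` count, and for those with `η e ≠ 0` both ends are in `C`;
  if `x ∉ C`, the edges with `η e ≠ 0` and an end equal to `x` have no end in `C`.
* `bd_ne_single`: the sum over a finite set `W` containing all ends and `a` of `Γ.bd η x` is
  `∑ e, (η e + η e) = 0` in `ZMod 2`, while the sum of `1_{x=a}` is `1`.
* `conn_of_flow`: apply `bd_cut` with `C = Γ.cl ω u` (every edge of `ω` has both or no ends in `C`, `cl_end`); if `v ∉ C` then the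
  boundary of the cut flow is `1_{x=u}` (as `u ≠ v`), contradiction with `bd_ne_single`.
* `conn4_of_flow`: for `S = src a b + src c d` and any `C` closed under `ω`, the number of members of the list `a,b,c,d` in `C` is even
  (sum over a finite set of the boundary of the cut flow).  Take `C = cl ω a`: `b`, `c` or `d` is in `C`.
  If `b ∈ C`: if `c ∈ C` then `d ∈ C` and all four are connected; if `c ∉ C` then `d ∉ C`, and `C' = cl ω c` contains none of `a, b`, so it contains `d`.
  The other cases are similar.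
-/

set_option autoImplicit false

open Finset

namespace H82.IC

section General
variable {V E : Type*} [Fintype E] {A : Type*} [AddCommGroup A]

theorem bd_add (Γ : Gr V E) (η η' : E → A) : Γ.bd (η + η') = Γ.bd η + Γ.bd η' := by
  funext x
  simp only [Gr.bd, Pi.add_apply]
  rw [← sum_add_distrib]
  refine sum_congr rfl fun e _ => ?_
  split_ifs <;> abel

theorem bd_zero (Γ : Gr V E) : Γ.bd (0 : E → A) = 0 := by
  funext x
  simp [Gr.bd]

theorem bd_cut (Γ : Gr V E) (C : Set V) (η : E → A)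
    (h : ∀ e, η e ≠ 0 → (Γ.s e ∈ C ↔ Γ.r e ∈ C)) :
    Γ.bd ((Γ.tch C).indicator η) = C.indicator (Γ.bd η) := by
  funext x
  by_cases hx : x ∈ C
  · rw [Set.indicator_of_mem hx]
    simp only [Gr.bd]
    refine sum_congr rfl fun e _ => ?_
    congr 1
    · by_cases h1 : Γ.s e = x
      · have h2 : e ∈ Γ.tch C := Or.inl (h1 ▸ hx)
        rw [Set.indicator_of_mem h2]
      · rw [if_neg h1, if_neg h1]
    · by_cases h1 : Γ.r e = x
      · have h2 : e ∈ Γ.tch C := Or.inr (h1 ▸ hx)
        rw [Set.indicator_of_mem h2]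
      · rw [if_neg h1, if_neg h1]
  · rw [Set.indicator_of_notMem hx]
    simp only [Gr.bd]
    refine sum_eq_zero fun e _ => ?_
    have h0 : Γ.s e = x ∨ Γ.r e = x → (Γ.tch C).indicator η e = 0 := by
      intro h1
      by_cases h2 : e ∈ Γ.tch C
      · rw [Set.indicator_of_mem h2]
        by_contra h3
        have h4 := h e h3
        rcases h2 with h2 | h2
        · have h5 := h4.1 h2
          rcases h1 with h1 | h1
          · exact hx (h1 ▸ h2)
          · exact hx (h1 ▸ h5)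
        · have h5 := h4.2 h2
          rcases h1 with h1 | h1
          · exact hx (h1 ▸ h5)
          · exact hx (h1 ▸ h2)
      · rw [Set.indicator_of_notMem h2]
    by_cases h1 : Γ.s e = x
    · rw [h0 (Or.inl h1)]
      simp
    · by_cases h2 : Γ.r e = x
      · rw [h0 (Or.inr h2)]
        simp
      · rw [if_neg h1, if_neg h2, add_zero]

end General

variable {V E : Type*} [Fintype E]

theorem src_self (u : V) : src u u = 0 := by
  funext x
  simp only [src, Pi.zero_apply]
  exact CharTwo.add_self_eq_zero _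

theorem src_comm (u v : V) : src u v = src v u := by
  funext x
  simp only [src]
  exact add_comm _ _

theorem src_add (u v w : V) : src u v + src v w = src u w := by
  funext x
  simp only [src, Pi.add_apply]
  have h : ∀ a b c : ZMod 2, a + b + (b + c) = a + c := by decide
  exact h _ _ _

theorem src_add_self (u v : V) : src u v + src u v = 0 := by
  funext x
  simp only [Pi.add_apply, Pi.zero_apply]
  exact CharTwo.add_self_eq_zero _

theorem bd_pr (Γ : Gr V E) (η : E → ZMod 2 × ZMod 2) :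
    Γ.bd η = pr (Γ.bd (fun e => (η e).1)) (Γ.bd (fun e => (η e).2)) := by
  funext x
  simp only [pr, Gr.bd]
  refine Prod.ext ?_ ?_
  · rw [Prod.fst_sum]
    refine sum_congr rfl fun e _ => ?_
    split_ifs <;> simp
  · rw [Prod.snd_sum]
    refine sum_congr rfl fun e _ => ?_
    split_ifs <;> simp

theorem pr_inj (S T S' T' : V → ZMod 2) : pr S T = pr S' T' ↔ S = S' ∧ T = T' := by
  constructor
  · intro h
    refine ⟨funext fun x => ?_, funext fun x => ?_⟩
    · exact congrArg Prod.fst (congrFun h x)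
    · exact congrArg Prod.snd (congrFun h x)
  · rintro ⟨rfl, rfl⟩
    rfl

theorem pr_add (S T S' T' : V → ZMod 2) : pr S T + pr S' T' = pr (S + S') (T + T') := rfl

theorem pr_indicator (C : Set V) (S T : V → ZMod 2) :
    C.indicator (pr S T) = pr (C.indicator S) (C.indicator T) := by
  funext x
  show C.indicator (pr S T) x = (C.indicator S x, C.indicator T x)
  by_cases hx : x ∈ C
  · rw [Set.indicator_of_mem hx, Set.indicator_of_mem hx, Set.indicator_of_mem hx]
    rfl
  · rw [Set.indicator_of_notMem hx, Set.indicator_of_notMem hx, Set.indicator_of_notMem hx]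
    rfl

/-- the flow with value one on a single edge -/
noncomputable def BD_one (e : E) : E → ZMod 2 := open Classical in fun e' => if e' = e then 1 else 0

omit [Fintype E] in
theorem BD_one_ne {e e' : E} (h : BD_one e e' ≠ 0) : e' = e := by
  by_contra h1
  apply h
  unfold BD_one
  rw [if_neg h1]

theorem BD_bd_one (Γ : Gr V E) (e : E) : Γ.bd (BD_one e) = src (Γ.s e) (Γ.r e) := by
  funext x
  simp only [Gr.bd, src]
  rw [Finset.sum_eq_single e]
  · have h1 : BD_one e e = 1 := by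
      unfold BD_one
      rw [if_pos rfl]
    rw [h1]
    congr 1
    · by_cases h : Γ.s e = x
      · rw [if_pos h, if_pos h.symm]
      · rw [if_neg h, if_neg (Ne.symm h)]
    · by_cases h : Γ.r e = x
      · rw [if_pos h, if_pos h.symm]
      · rw [if_neg h, if_neg (Ne.symm h)]
  · intro e' _ he'
    have h1 : BD_one e e' = 0 := by
      unfold BD_one
      rw [if_neg he']
    rw [h1]
    simp
  · intro h
    exact absurd (mem_univ e) h

theorem exists_flow (Γ : Gr V E) {ω : Set E} {u v : V} (h : Γ.Conn ω u v) :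
    ∃ c : E → ZMod 2, Γ.bd c = src u v ∧ ∀ e, c e ≠ 0 → e ∈ ω := by
  induction h with
  | refl => exact ⟨0, by rw [bd_zero, src_self], fun e he => absurd rfl he⟩
  | @tail b' c' _ hstep ih =>
    obtain ⟨c, hc, hcω⟩ := ih
    obtain ⟨e, he, hends⟩ := hstep
    refine ⟨c + BD_one e, ?_, fun e' he' => ?_⟩
    · rw [bd_add, hc, BD_bd_one]
      rcases hends with ⟨h1, h2⟩ | ⟨h1, h2⟩
      · rw [h1, h2, src_add]
      · rw [h1, h2, src_comm c' b', src_add]
    · by_cases h1 : c e' = 0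
      · rw [Pi.add_apply, h1, zero_add] at he'
        rw [BD_one_ne he']
        exact he
      · exact hcω e' h1

theorem BD_par (Γ : Gr V E) (η : E → ZMod 2) (W : Finset V) (h1 : ∀ e, Γ.s e ∈ W)
    (h2 : ∀ e, Γ.r e ∈ W) : ∑ x ∈ W, Γ.bd η x = 0 := by
  classical
  have h3 : ∀ x, Γ.bd η x = ∑ e, ((if Γ.s e = x then η e else 0) + (if Γ.r e = x then η e else 0)) := by
    intro x
    simp only [Gr.bd]
  simp only [h3]
  rw [sum_comm]
  refine sum_eq_zero fun e _ => ?_
  rw [sum_add_distrib, Finset.sum_ite_eq, Finset.sum_ite_eq, if_pos (h1 e), if_pos (h2 e)]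
  exact CharTwo.add_self_eq_zero _

theorem bd_ne_single (Γ : Gr V E) (η : E → ZMod 2) (a : V) :
    Γ.bd η ≠ ({a} : Set V).indicator 1 := by
  classical
  intro h
  set W : Finset V := (univ.image Γ.s ∪ univ.image Γ.r) ∪ {a} with hW
  have h1 := BD_par Γ η W (fun e => by simp [hW]) (fun e => by simp [hW])
  rw [h] at h1
  have h2 : ∑ x ∈ W, ({a} : Set V).indicator (1 : V → ZMod 2) x = 1 := by
    rw [Finset.sum_eq_single a]
    · simp
    · intro b _ hb
      simp [hb]
    · intro ha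
      exact absurd (by simp [hW]) ha
  rw [h2] at h1
  exact absurd h1 (by decide)

theorem BD_par4 (Γ : Gr V E) {C : Set V} {ω : Set E} (hC : ∀ e ∈ ω, (Γ.s e ∈ C ↔ Γ.r e ∈ C))
    {a b c d : V} {η : E → ZMod 2}
    (hη : Γ.bd η = src a b + src c d) (hs : ∀ e, η e ≠ 0 → e ∈ ω) :
    C.indicator (1 : V → ZMod 2) a + C.indicator (1 : V → ZMod 2) b +
      (C.indicator (1 : V → ZMod 2) c + C.indicator (1 : V → ZMod 2) d) = 0 := by
  classical
  have h1 := bd_cut Γ C η (fun e he => hC e (hs e he))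
  rw [hη] at h1
  set W : Finset V := (univ.image Γ.s ∪ univ.image Γ.r) ∪ {a, b, c, d} with hW
  have h2 := BD_par Γ ((Γ.tch C).indicator η) W (fun e => by simp [hW]) (fun e => by simp [hW])
  rw [h1] at h2
  have h3 : ∀ x, C.indicator (src a b + src c d) x =
      (if x = a then C.indicator (1 : V → ZMod 2) a else 0) +
      (if x = b then C.indicator (1 : V → ZMod 2) b else 0) +
      ((if x = c then C.indicator (1 : V → ZMod 2) c else 0) +
      (if x = d then C.indicator (1 : V → ZMod 2) d else 0)) := by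
    intro x
    have h4 : ∀ u : V, (if x = u then C.indicator (1 : V → ZMod 2) u else 0) =
        if x = u then C.indicator (1 : V → ZMod 2) x else 0 := by
      intro u
      by_cases h : x = u
      · rw [if_pos h, if_pos h, h]
      · rw [if_neg h, if_neg h]
    rw [h4, h4, h4, h4]
    by_cases hx : x ∈ C
    · rw [Set.indicator_of_mem hx, Set.indicator_of_mem hx]
      simp only [src, Pi.add_apply, Pi.one_apply]
    · rw [Set.indicator_of_notMem hx, Set.indicator_of_notMem hx]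
      simp
  simp only [h3] at h2
  rw [sum_add_distrib, sum_add_distrib, sum_add_distrib, Finset.sum_ite_eq', Finset.sum_ite_eq',
    Finset.sum_ite_eq', Finset.sum_ite_eq', if_pos (by simp [hW]), if_pos (by simp [hW]),
    if_pos (by simp [hW]), if_pos (by simp [hW])] at h2
  exact h2

theorem conn_of_flow (Γ : Gr V E) {ω : Set E} {u v : V} {η : E → ZMod 2}
    (hη : Γ.bd η = src u v) (hs : ∀ e, η e ≠ 0 → e ∈ ω) : Γ.Conn ω u v := by
  classical
  by_contra hv
  have h1 := bd_cut Γ (Γ.cl ω u) η (fun e he => cl_end Γ (hs e he) u)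
  rw [hη] at h1
  refine bd_ne_single Γ _ u (h1.trans ?_)
  have hu : u ∈ Γ.cl ω u := mem_cl_self Γ ω u
  have hv' : v ∉ Γ.cl ω u := hv
  funext x
  by_cases hx : x ∈ Γ.cl ω u
  · rw [Set.indicator_of_mem hx]
    have hxv : x ≠ v := fun h => hv' (h ▸ hx)
    simp only [src]
    rw [if_neg hxv, add_zero]
    by_cases hxu : x = u
    · rw [if_pos hxu, Set.indicator_of_mem (show x ∈ ({u} : Set V) from hxu), Pi.one_apply]
    · rw [if_neg hxu, Set.indicator_of_notMem (show x ∉ ({u} : Set V) from hxu)]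
  · rw [Set.indicator_of_notMem hx]
    have hxu : x ∉ ({u} : Set V) := fun h => hx (by rw [Set.mem_singleton_iff] at h; rwa [h])
    rw [Set.indicator_of_notMem hxu]

theorem conn4_of_flow (Γ : Gr V E) {ω : Set E} {a b c d : V} {η : E → ZMod 2}
    (hη : Γ.bd η = src a b + src c d) (hs : ∀ e, η e ≠ 0 → e ∈ ω) :
    (Γ.Conn ω a b ∧ Γ.Conn ω c d) ∨ (Γ.Conn ω a c ∧ Γ.Conn ω b d) ∨
      (Γ.Conn ω a d ∧ Γ.Conn ω b c) := by
  have key : ∀ o : V, (Γ.cl ω o).indicator (1 : V → ZMod 2) a +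
      (Γ.cl ω o).indicator (1 : V → ZMod 2) b +
      ((Γ.cl ω o).indicator (1 : V → ZMod 2) c + (Γ.cl ω o).indicator (1 : V → ZMod 2) d) = 0 :=
    fun o => BD_par4 Γ (fun e he => cl_end Γ he o) hη hs
  have i1 : ∀ {o x : V}, Γ.Conn ω o x → (Γ.cl ω o).indicator (1 : V → ZMod 2) x = 1 :=
    fun {o x} h => Set.indicator_of_mem (show x ∈ Γ.cl ω o from h) _
  have i0 : ∀ {o x : V}, ¬ Γ.Conn ω o x → (Γ.cl ω o).indicator (1 : V → ZMod 2) x = 0 :=
    fun {o x} h => Set.indicator_of_notMem (show x ∉ Γ.cl ω o from h) _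
  have hr : ∀ x, Γ.Conn ω x x := fun x => conn_refl Γ ω x
  have hs' : ∀ {x y}, Γ.Conn ω x y → Γ.Conn ω y x := fun h => conn_symm Γ h
  have ht : ∀ {x y z}, Γ.Conn ω x y → Γ.Conn ω y z → Γ.Conn ω x z := fun h h' => conn_trans Γ h h'
  have ka := key a
  rw [i1 (hr a)] at ka
  by_cases hab : Γ.Conn ω a b
  · left
    refine ⟨hab, ?_⟩
    rw [i1 hab] at ka
    by_cases hac : Γ.Conn ω a c
    · by_cases had : Γ.Conn ω a d
      · exact ht (hs' hac) had
      · rw [i1 hac, i0 had] at ka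
        exact absurd ka (by decide)
    · by_contra hcd
      have kc := key c
      rw [i1 (hr c), i0 hcd, i0 (fun h => hac (hs' h)),
        i0 (fun h => hac (ht hab (hs' h)))] at kc
      exact absurd kc (by decide)
  · rw [i0 hab] at ka
    right
    by_cases hac : Γ.Conn ω a c
    · left
      refine ⟨hac, ?_⟩
      by_contra hbd
      have kb := key b
      rw [i1 (hr b), i0 hbd, i0 (fun h => hab (hs' h)),
        i0 (fun h => hab (ht hac (hs' h)))] at kb
      exact absurd kb (by decide)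
    · rw [i0 hac] at ka
      by_cases had : Γ.Conn ω a d
      · right
        refine ⟨had, ?_⟩
        by_contra hbc
        have kb := key b
        rw [i1 (hr b), i0 hbc, i0 (fun h => hab (hs' h)),
          i0 (fun h => hab (ht had (hs' h)))] at kb
        exact absurd kb (by decide)
      · rw [i0 had] at ka
        exact absurd ka (by decide)

end H82.IC

end S_H82_IC_BD

section S_H82_IC_KA

/-!
# KA: the number of even subgraphs

`kapS S ω` = number of flows `η : E → ZMod 2` with `bd η = S` and support in `ω`, `kap ω = kapS 0 ω`.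

* `kapS_of_flow`: if `c` is one such flow, `η ↦ η + c` is a bijection from the flows with boundary `S` onto those with boundary `0`.
* `kapS_src`: by `exists_flow` and `conn_of_flow`.
* `kap_insert`: flows supported in `insert e ω` with boundary `0` split according to the value at `e`: value `0`: flows supported in `ω`;
  value `1`: subtract `1_e`: flows supported in `ω` with boundary `src (s e) (r e)`, whose number is `kap ω * ind (Conn ω (s e) (r e))`.
* `kap_mul_le` (log-supermodular): induction on the finset `ω \ ω'`: write `ω = insert e ω₀`, `e ∉ ω₀`, `e ∉ ω'`: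
  `kap ω = kap ω₀ (1 + ind(Conn ω₀ s r))`, `kap (ω ∪ ω') = kap (ω₀ ∪ ω') (1 + ind (Conn (ω₀ ∪ ω') s r))`, `ω ∩ ω' = ω₀ ∩ ω'`.
* `kap_mono`: `kap` is monotone (more flows); `kap_le`: `kap (ω ∪ F) ≤ 2^|F| kap ω` by `kap_insert`.
-/

set_option autoImplicit false

open Finset

namespace H82.IC

variable {V E : Type*} [Fintype E] [DecidableEq E]

theorem ind_true {p : Prop} (h : p) : ind p = 1 := by
  unfold ind
  rw [if_pos h]

theorem ind_false {p : Prop} (h : ¬ p) : ind p = 0 := by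
  unfold ind
  rw [if_neg h]

theorem ind_nonneg (p : Prop) : 0 ≤ ind p := by
  by_cases h : p
  · rw [ind_true h]; norm_num
  · rw [ind_false h]

theorem ind_le_one (p : Prop) : ind p ≤ 1 := by
  by_cases h : p
  · rw [ind_true h]
  · rw [ind_false h]; norm_num

theorem ind_and (p q : Prop) : ind (p ∧ q) = ind p * ind q := by
  by_cases h : p
  · by_cases h' : q
    · rw [ind_true h, ind_true h', ind_true ⟨h, h'⟩, one_mul]
    · rw [ind_false h', ind_false fun g => h' g.2, mul_zero]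
  · rw [ind_false h, ind_false fun g => h g.1, zero_mul]

theorem ind_not (p : Prop) : ind (¬ p) = 1 - ind p := by
  by_cases h : p
  · rw [ind_true h, ind_false (not_not.mpr h), sub_self]
  · rw [ind_false h, ind_true h, sub_zero]

theorem ind_mono {p q : Prop} (h : p → q) : ind p ≤ ind q := by
  by_cases hp : p
  · rw [ind_true hp, ind_true (h hp)]
  · rw [ind_false hp]
    exact ind_nonneg q

theorem ind_mul_self (p : Prop) : ind p * ind p = ind p := by
  by_cases h : p
  · rw [ind_true h, one_mul]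
  · rw [ind_false h, zero_mul]

theorem KA_congr {p q : Prop} (h : p ↔ q) : ind p = ind q := congrArg ind (propext h)

theorem KA_two (S : V → ZMod 2) : S + S = 0 := funext fun _ => CharTwo.add_self_eq_zero _

theorem kapS_of_flow (Γ : Gr V E) (S : V → ZMod 2) (ω : Finset E) (c : E → ZMod 2)
    (hc : Γ.bd c = S) (hs : ∀ e, c e ≠ 0 → e ∈ ω) : Γ.kapS S ω = Γ.kap ω := by
  unfold Gr.kap Gr.kapS
  refine Fintype.sum_equiv (Equiv.addRight c) _ _ fun η => KA_congr ?_
  rw [Equiv.coe_addRight]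
  beta_reduce
  rw [bd_add, hc]
  refine and_congr ?_ ?_
  · constructor
    · rintro rfl
      exact KA_two _
    · intro h
      have h2 : Γ.bd η + S + S = S := by rw [h, zero_add]
      rwa [add_assoc, KA_two, add_zero] at h2
  · have hz : ∀ e, e ∉ ω → c e = 0 := fun e he => by
      by_contra hne
      exact he (hs e hne)
    constructor
    · intro h e he
      by_contra hne
      have h1 : η e = 0 := by
        by_contra h2
        exact hne (h e h2)
      exact he (by rw [Pi.add_apply, h1, hz e hne, add_zero])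
    · intro h e he
      by_contra hne
      exact hne (h e (by rw [Pi.add_apply, hz e hne, add_zero]; exact he))

theorem kapS_src (Γ : Gr V E) (ω : Finset E) (u v : V) :
    Γ.kapS (src u v) ω = Γ.kap ω * ind (Γ.Conn (ω : Set E) u v) := by
  by_cases h : Γ.Conn (ω : Set E) u v
  · obtain ⟨c, hc, hs⟩ := exists_flow Γ h
    rw [ind_true h, mul_one]
    exact kapS_of_flow Γ _ ω c hc fun e he => Finset.mem_coe.mp (hs e he)
  · rw [ind_false h, mul_zero]
    unfold Gr.kapS
    refine Finset.sum_eq_zero fun η _ => ind_false ?_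
    rintro ⟨h1, h2⟩
    exact h (conn_of_flow Γ h1 fun e he => Finset.mem_coe.mpr (h2 e he))

theorem kap_empty (Γ : Gr V E) : Γ.kap ∅ = 1 := by
  unfold Gr.kap Gr.kapS
  rw [Finset.sum_eq_single 0]
  · exact ind_true ⟨bd_zero Γ, fun e he => absurd rfl he⟩
  · intro η _ hη
    refine ind_false ?_
    rintro ⟨_, h2⟩
    refine hη (funext fun e => ?_)
    by_contra h3
    exact absurd (h2 e h3) (Finset.notMem_empty e)
  · intro h
    exact absurd (Finset.mem_univ _) h

theorem one_le_kap (Γ : Gr V E) (ω : Finset E) : 1 ≤ Γ.kap ω := by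
  unfold Gr.kap Gr.kapS
  have h := Finset.single_le_sum (s := Finset.univ)
    (f := fun η : E → ZMod 2 => ind (Γ.bd η = 0 ∧ ∀ e, η e ≠ 0 → e ∈ ω))
    (fun η _ => ind_nonneg _) (Finset.mem_univ 0)
  have h0 : ind (Γ.bd (0 : E → ZMod 2) = 0 ∧ ∀ e, (0 : E → ZMod 2) e ≠ 0 → e ∈ ω) = 1 :=
    ind_true ⟨bd_zero Γ, fun e he => absurd rfl he⟩
  rw [h0] at h
  exact h

theorem KA_bd_single (Γ : Gr V E) (e : E) :
    Γ.bd (Pi.single e (1 : ZMod 2)) = src (Γ.s e) (Γ.r e) := by
  classical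
  funext x
  unfold Gr.bd src
  rw [Finset.sum_eq_single e]
  · rw [Pi.single_eq_same]
    simp only [eq_comm (a := x)]
  · intro e' _ he'
    rw [Pi.single_eq_of_ne he']
    simp
  · intro h
    exact absurd (Finset.mem_univ _) h

theorem KA_zmod (a : ZMod 2) : a = 0 ∨ a = 1 := by
  revert a
  decide

theorem kap_insert (Γ : Gr V E) {ω : Finset E} {e : E} (he : e ∉ ω) :
    Γ.kap (insert e ω) = Γ.kap ω * (1 + ind (Γ.Conn (ω : Set E) (Γ.s e) (Γ.r e))) := by
  rw [mul_add, mul_one, ← kapS_src]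
  have h1 : Γ.kap (insert e ω) = ∑ η : E → ZMod 2,
      (ind (Γ.bd η = 0 ∧ ∀ e', η e' ≠ 0 → e' ∈ ω) +
        ind (Γ.bd η = 0 ∧ η e = 1 ∧ ∀ e', η e' ≠ 0 → e' ∈ insert e ω)) := by
    unfold Gr.kap Gr.kapS
    refine Finset.sum_congr rfl fun η _ => ?_
    rcases KA_zmod (η e) with h0 | h0
    · have e1 : ind (Γ.bd η = 0 ∧ η e = 1 ∧ ∀ e', η e' ≠ 0 → e' ∈ insert e ω) = 0 := by
        refine ind_false ?_
        rintro ⟨_, h2, _⟩
        rw [h0] at h2
        exact absurd h2 (by decide)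
      rw [e1, add_zero]
      refine KA_congr (and_congr_right fun _ => ?_)
      constructor
      · intro h e' he'
        rcases Finset.mem_insert.mp (h e' he') with h2 | h2
        · rw [h2] at he'
          exact absurd h0 he'
        · exact h2
      · intro h e' he'
        exact Finset.mem_insert_of_mem (h e' he')
    · have e1 : ind (Γ.bd η = 0 ∧ ∀ e', η e' ≠ 0 → e' ∈ ω) = 0 := by
        refine ind_false ?_
        rintro ⟨_, h2⟩
        refine he (h2 e ?_)
        rw [h0]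
        decide
      rw [e1, zero_add]
      refine KA_congr (and_congr_right fun _ => ?_)
      constructor
      · intro h
        exact ⟨h0, h⟩
      · intro h
        exact h.2
  rw [h1, Finset.sum_add_distrib]
  unfold Gr.kap
  congr 1
  unfold Gr.kapS
  refine Fintype.sum_equiv (Equiv.addRight (Pi.single e (1 : ZMod 2))) _ _ fun η => KA_congr ?_
  rw [Equiv.coe_addRight]
  beta_reduce
  rw [bd_add, KA_bd_single]
  have hz : ∀ e', e' ≠ e → (η + (Pi.single e (1 : ZMod 2) : E → ZMod 2)) e' = η e' :=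
    fun e' h => by rw [Pi.add_apply, Pi.single_eq_of_ne h, add_zero]
  have hz0 : (η + (Pi.single e (1 : ZMod 2) : E → ZMod 2)) e = η e + 1 := by
    rw [Pi.add_apply, Pi.single_eq_same]
  refine and_congr ?_ ?_
  · constructor
    · intro h
      rw [h, zero_add]
    · intro h
      exact add_eq_right.mp h
  · constructor
    · rintro ⟨h2, h3⟩ e' he'
      by_cases hee : e' = e
      · rw [hee, hz0, h2] at he'
        exact absurd (by decide) he'
      · rw [hz e' hee] at he'
        rcases Finset.mem_insert.mp (h3 e' he') with h4 | h4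
        · exact absurd h4 hee
        · exact h4
    · intro h
      constructor
      · rcases KA_zmod (η e) with h0 | h0
        · refine absurd (h e ?_) he
          rw [hz0, h0]
          decide
        · exact h0
      · intro e' he'
        by_cases hee : e' = e
        · rw [hee]
          exact Finset.mem_insert_self _ _
        · refine Finset.mem_insert_of_mem (h e' ?_)
          rw [hz e' hee]
          exact he'

theorem kap_mono (Γ : Gr V E) {ω ω' : Finset E} (h : ω ⊆ ω') : Γ.kap ω ≤ Γ.kap ω' := by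
  unfold Gr.kap Gr.kapS
  exact Finset.sum_le_sum fun η _ => ind_mono fun hp => ⟨hp.1, fun e he => h (hp.2 e he)⟩

theorem kap_le (Γ : Gr V E) (ω F : Finset E) : Γ.kap (ω ∪ F) ≤ 2 ^ F.card * Γ.kap ω := by
  induction F using Finset.induction_on with
  | empty => simp
  | insert e F he ih =>
    rw [Finset.card_insert_of_notMem he, Finset.union_insert, pow_succ]
    have h0 : 0 ≤ Γ.kap ω := zero_le_one.trans (one_le_kap Γ ω)
    have hp : (0 : ℝ) ≤ 2 ^ F.card * Γ.kap ω := by positivity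
    by_cases hm : e ∈ ω ∪ F
    · rw [Finset.insert_eq_self.mpr hm]
      linarith
    · rw [kap_insert Γ hm]
      have h1 := ind_le_one (Γ.Conn ((ω ∪ F : Finset E) : Set E) (Γ.s e) (Γ.r e))
      have h2 := ind_nonneg (Γ.Conn ((ω ∪ F : Finset E) : Set E) (Γ.s e) (Γ.r e))
      have h3 : 0 ≤ Γ.kap (ω ∪ F) := zero_le_one.trans (one_le_kap Γ _)
      have h4 : Γ.kap (ω ∪ F) * (1 + ind (Γ.Conn ((ω ∪ F : Finset E) : Set E) (Γ.s e) (Γ.r e))) ≤
          Γ.kap (ω ∪ F) * 2 := mul_le_mul_of_nonneg_left (by linarith) h3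
      linarith

theorem KA_ind_step (Γ : Gr V E) (I ω' : Finset E) (hI : I ⊆ ω') (D : Finset E)
    (hD : Disjoint D ω') : Γ.kap (I ∪ D) * Γ.kap ω' ≤ Γ.kap I * Γ.kap (ω' ∪ D) := by
  induction D using Finset.induction_on with
  | empty => simp
  | insert e D he ih =>
    have hd : e ∉ ω' ∧ Disjoint D ω' := by
      rw [Finset.disjoint_insert_left] at hD
      exact hD
    have ih' := ih hd.2
    have h1 : e ∉ I ∪ D := by
      rw [Finset.mem_union, not_or]
      exact ⟨fun h => hd.1 (hI h), he⟩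
    have h2 : e ∉ ω' ∪ D := by
      rw [Finset.mem_union, not_or]
      exact ⟨hd.1, he⟩
    rw [Finset.union_insert, Finset.union_insert, kap_insert Γ h1, kap_insert Γ h2]
    have hsub : ((I ∪ D : Finset E) : Set E) ⊆ ((ω' ∪ D : Finset E) : Set E) := by
      exact_mod_cast Finset.union_subset_union_left hI
    have h3 : ind (Γ.Conn ((I ∪ D : Finset E) : Set E) (Γ.s e) (Γ.r e)) ≤
        ind (Γ.Conn ((ω' ∪ D : Finset E) : Set E) (Γ.s e) (Γ.r e)) :=
      ind_mono fun h => conn_mono Γ hsub h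
    have h4 := ind_nonneg (Γ.Conn ((I ∪ D : Finset E) : Set E) (Γ.s e) (Γ.r e))
    have k1 : 0 ≤ Γ.kap I * Γ.kap (ω' ∪ D) := by
      have a1 := one_le_kap Γ I
      have a2 := one_le_kap Γ (ω' ∪ D)
      have : (0 : ℝ) ≤ Γ.kap I := by linarith
      have : (0 : ℝ) ≤ Γ.kap (ω' ∪ D) := by linarith
      positivity
    calc Γ.kap (I ∪ D) * (1 + ind (Γ.Conn ((I ∪ D : Finset E) : Set E) (Γ.s e) (Γ.r e))) * Γ.kap ω'
        = (Γ.kap (I ∪ D) * Γ.kap ω') *
          (1 + ind (Γ.Conn ((I ∪ D : Finset E) : Set E) (Γ.s e) (Γ.r e))) := by ring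
      _ ≤ (Γ.kap I * Γ.kap (ω' ∪ D)) *
          (1 + ind (Γ.Conn ((ω' ∪ D : Finset E) : Set E) (Γ.s e) (Γ.r e))) := by
          refine mul_le_mul ih' (by linarith) (by linarith) k1
      _ = _ := by ring

theorem kap_mul_le (Γ : Gr V E) (ω ω' : Finset E) :
    Γ.kap ω * Γ.kap ω' ≤ Γ.kap (ω ∩ ω') * Γ.kap (ω ∪ ω') := by
  have h := KA_ind_step Γ (ω ∩ ω') ω' Finset.inter_subset_right (ω \ ω') Finset.sdiff_disjoint
  have h1 : ω ∩ ω' ∪ ω \ ω' = ω := by
    rw [Finset.union_comm]
    exact Finset.sdiff_union_inter ω ω'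
  have h2 : ω' ∪ ω \ ω' = ω ∪ ω' := by
    rw [Finset.union_sdiff_self_eq_union, Finset.union_comm]
  rw [h1, h2] at h
  exact h

end H82.IC

end S_H82_IC_KA

section S_H82_IC_SW

/-!
# SW: general facts on trace sums `Γ.trc w S f`

* `trc_switch`: exchange the sums, fix `ω`; if `f ω = 0` both inner sums vanish; otherwise with `g` from the hypothesis the map
  `η ↦ η + g` is a bijection (`Equiv.addRight g`) with `bd (η + g) = bd η + R`, and the products agree: on an edge with `g e = 0` nothing changes,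
  on an edge with `g e ≠ 0` we have `e ∈ ω`, so `decide = true` and the weight is invariant.
* `trc_congr_supp`: the weight `∏ e, w e (η e) (decide (e ∈ ω))` vanishes unless the support of `η` is contained in `ω`
  (hypothesis `hw : ∀ e a, a ≠ 0 → w e a false = 0`), so only such pairs `(η, ω)` matter.
* `trc_pm` (marginal over `ω`): `∑ ω : Finset E, ∏ e, w e (η e) (decide (e ∈ ω)) = ∏ e, (w e (η e) true + w e (η e) false)`
  (`Finset.prod_add` or the bijection of `Finset E` with functions `E → Bool` and `Finset.prod_univ_sum`).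
* `trc_pm2`: for pairs, the sum over `η : E → ZMod 2 × ZMod 2` is a double sum (`Equiv` between functions to a product and pairs of functions), `bd_pr`.
* linearity, monotonicity: termwise.
-/

set_option autoImplicit false

open Finset

namespace H82.IC

variable {V E : Type*} [Fintype E] [DecidableEq E]

section General
variable {A : Type*} [AddCommGroup A] [Fintype A]

theorem trc_add (Γ : Gr V E) (w : E → A → Bool → ℝ) (S : V → A) (f g : Finset E → ℝ) :
    Γ.trc w S (fun ω => f ω + g ω) = Γ.trc w S f + Γ.trc w S g := by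
  unfold Gr.trc
  simp only [add_mul, mul_add, sum_add_distrib]

theorem trc_sub (Γ : Gr V E) (w : E → A → Bool → ℝ) (S : V → A) (f g : Finset E → ℝ) :
    Γ.trc w S (fun ω => f ω - g ω) = Γ.trc w S f - Γ.trc w S g := by
  unfold Gr.trc
  simp only [sub_mul, mul_sub, sum_sub_distrib]

theorem trc_smul (Γ : Gr V E) (w : E → A → Bool → ℝ) (S : V → A) (c : ℝ) (f : Finset E → ℝ) :
    Γ.trc w S (fun ω => c * f ω) = c * Γ.trc w S f := by
  unfold Gr.trc
  simp only [mul_sum]
  refine sum_congr rfl fun η _ => sum_congr rfl fun ω _ => ?_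
  ring

theorem trc_sum {ι : Type*} (Γ : Gr V E) (w : E → A → Bool → ℝ) (S : V → A) (I : Finset ι)
    (f : ι → Finset E → ℝ) :
    Γ.trc w S (fun ω => ∑ i ∈ I, f i ω) = ∑ i ∈ I, Γ.trc w S (f i) := by
  classical
  induction I using Finset.induction_on with
  | empty =>
    simp [Gr.trc]
  | insert a I ha ih =>
    simp only [Finset.sum_insert ha]
    rw [trc_add, ih]

theorem trc_mono (Γ : Gr V E) (w : E → A → Bool → ℝ) (hw : ∀ e a b, 0 ≤ w e a b) (S : V → A)
    {f g : Finset E → ℝ} (h : ∀ ω, f ω ≤ g ω) : Γ.trc w S f ≤ Γ.trc w S g := by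
  unfold Gr.trc
  refine sum_le_sum fun η _ => sum_le_sum fun ω _ => ?_
  exact mul_le_mul_of_nonneg_left
    (mul_le_mul_of_nonneg_right (h ω) (prod_nonneg fun e _ => hw _ _ _)) (ind_nonneg _)

theorem trc_nonneg (Γ : Gr V E) (w : E → A → Bool → ℝ) (hw : ∀ e a b, 0 ≤ w e a b) (S : V → A)
    {f : Finset E → ℝ} (h : ∀ ω, 0 ≤ f ω) : 0 ≤ Γ.trc w S f := by
  unfold Gr.trc
  exact sum_nonneg fun η _ => sum_nonneg fun ω _ =>
    mul_nonneg (ind_nonneg _) (mul_nonneg (h ω) (prod_nonneg fun e _ => hw _ _ _))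

/-- domination of the weights. -/
theorem trc_mono_w (Γ : Gr V E) (w w' : E → A → Bool → ℝ) (hw : ∀ e a b, 0 ≤ w e a b)
    (hww : ∀ e a b, w e a b ≤ w' e a b) (S : V → A)
    {f : Finset E → ℝ} (h : ∀ ω, 0 ≤ f ω) : Γ.trc w S f ≤ Γ.trc w' S f := by
  unfold Gr.trc
  refine sum_le_sum fun η _ => sum_le_sum fun ω _ => ?_
  exact mul_le_mul_of_nonneg_left
    (mul_le_mul_of_nonneg_left (prod_le_prod (fun e _ => hw _ _ _) fun e _ => hww _ _ _) (h ω))
    (ind_nonneg _)

/-- Cauchy-Schwarz. -/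
theorem trc_cs (Γ : Gr V E) (w : E → A → Bool → ℝ) (hw : ∀ e a b, 0 ≤ w e a b) (S : V → A)
    (f : Finset E → ℝ) :
    (Γ.trc w S (fun ω => |f ω|)) ^ 2 ≤ Γ.trc w S (fun _ => 1) * Γ.trc w S (fun ω => f ω ^ 2) := by
  unfold Gr.trc
  rw [← Fintype.sum_prod_type' (f := fun (η : E → A) (ω : Finset E) =>
      ind (Γ.bd η = S) * (|f ω| * ∏ e, w e (η e) (decide (e ∈ ω)))),
    ← Fintype.sum_prod_type' (f := fun (η : E → A) (ω : Finset E) =>
      ind (Γ.bd η = S) * (1 * ∏ e, w e (η e) (decide (e ∈ ω)))),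
    ← Fintype.sum_prod_type' (f := fun (η : E → A) (ω : Finset E) =>
      ind (Γ.bd η = S) * (f ω ^ 2 * ∏ e, w e (η e) (decide (e ∈ ω))))]
  refine Finset.sum_sq_le_sum_mul_sum_of_sq_eq_mul _ (fun q _ => ?_) (fun q _ => ?_) fun q _ => ?_
  · exact mul_nonneg (ind_nonneg _) (mul_nonneg zero_le_one (prod_nonneg fun e _ => hw _ _ _))
  · exact mul_nonneg (ind_nonneg _) (mul_nonneg (sq_nonneg _) (prod_nonneg fun e _ => hw _ _ _))
  · rw [mul_pow, mul_pow, sq_abs]
    ring

/-- general switching lemma. -/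
theorem trc_switch (Γ : Gr V E) (w : E → A → Bool → ℝ) (S R : V → A) (f : Finset E → ℝ)
    (h : ∀ ω, f ω ≠ 0 → ∃ g : E → A, Γ.bd g = R ∧
      ∀ e, g e ≠ 0 → e ∈ ω ∧ ∀ a, w e (a + g e) true = w e a true) :
    Γ.trc w S f = Γ.trc w (S + R) f := by
  unfold Gr.trc
  rw [sum_comm, sum_comm (γ := E → A)]
  refine sum_congr rfl fun ω _ => ?_
  by_cases hf : f ω = 0
  · simp [hf]
  · obtain ⟨g, hg, hge⟩ := h ω hf
    refine Fintype.sum_equiv (Equiv.addRight g) _ _ fun η => ?_
    have h0 : (Equiv.addRight g) η = η + g := rfl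
    rw [h0, bd_add, hg]
    have h1 : (Γ.bd η + R = S + R) = (Γ.bd η = S) := propext (add_left_inj R)
    rw [h1]
    congr 2
    refine prod_congr rfl fun e _ => ?_
    by_cases hge0 : g e = 0
    · rw [Pi.add_apply, hge0, add_zero]
    · obtain ⟨h2, h3⟩ := hge e hge0
      have h4 : decide (e ∈ ω) = true := decide_eq_true h2
      rw [h4, Pi.add_apply, h3]

/-- only `ω` containing the support of a flow with boundary `S` matter. -/
theorem trc_congr_supp (Γ : Gr V E) (w : E → A → Bool → ℝ)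
    (hw : ∀ e a, a ≠ 0 → w e a false = 0) (S : V → A) (f g : Finset E → ℝ)
    (h : ∀ (ω : Finset E) (η : E → A), Γ.bd η = S → (∀ e, η e ≠ 0 → e ∈ ω) → f ω = g ω) :
    Γ.trc w S f = Γ.trc w S g := by
  unfold Gr.trc
  refine sum_congr rfl fun η _ => sum_congr rfl fun ω _ => ?_
  by_cases h1 : Γ.bd η = S
  · by_cases h2 : ∀ e, η e ≠ 0 → e ∈ ω
    · rw [h ω η h1 h2]
    · push Not at h2
      obtain ⟨e, he, heω⟩ := h2
      have h3 : ∏ e, w e (η e) (decide (e ∈ ω)) = 0 := by
        refine prod_eq_zero (mem_univ e) ?_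
        have h4 : decide (e ∈ ω) = false := decide_eq_false heω
        rw [h4, hw e _ he]
      rw [h3]
      simp
  · rw [ind_false h1, zero_mul, zero_mul]

theorem trc_pm (Γ : Gr V E) (w : E → A → Bool → ℝ) (S : V → A) :
    Γ.trc w S (fun _ => 1) =
      ∑ η : E → A, ind (Γ.bd η = S) * ∏ e, (w e (η e) true + w e (η e) false) := by
  unfold Gr.trc
  refine sum_congr rfl fun η _ => ?_
  rw [← mul_sum]
  congr 1
  rw [Finset.prod_add, Finset.powerset_univ]
  refine sum_congr rfl fun ω _ => ?_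
  rw [one_mul, ← Finset.prod_mul_prod_compl ω, ← Finset.compl_eq_univ_sdiff]
  congr 1
  · refine prod_congr rfl fun e he => ?_
    have h4 : decide (e ∈ ω) = true := decide_eq_true he
    rw [h4]
  · refine prod_congr rfl fun e he => ?_
    have h4 : decide (e ∈ ω) = false := decide_eq_false (Finset.mem_compl.1 he)
    rw [h4]

end General

theorem trc_pm1 (Γ : Gr V E) (w : E → ZMod 2 → Bool → ℝ) (p : E → ZMod 2 → ℝ)
    (h : ∀ e a, w e a true + w e a false = p e a) (S : V → ZMod 2) :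
    Γ.trc w S (fun _ => 1) = Γ.zz p S := by
  rw [trc_pm]
  unfold Gr.zz
  simp only [h]

theorem trc_pm2 (Γ : Gr V E) (w : E → ZMod 2 × ZMod 2 → Bool → ℝ) (p q : E → ZMod 2 → ℝ)
    (h : ∀ e a, w e a true + w e a false = p e a.1 * q e a.2) (S T : V → ZMod 2) :
    Γ.trc w (pr S T) (fun _ => 1) = Γ.zz p S * Γ.zz q T := by
  rw [trc_pm]
  unfold Gr.zz
  rw [Fintype.sum_mul_sum, ← Fintype.sum_prod_type' (f := fun (i j : E → ZMod 2) =>
    (ind (Γ.bd i = S) * ∏ e, p e (i e)) * (ind (Γ.bd j = T) * ∏ e, q e (j e)))]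
  refine Fintype.sum_equiv (Equiv.arrowProdEquivProdArrow E (fun _ => ZMod 2) (fun _ => ZMod 2)) _ _
    fun η => ?_
  have h1 : (Γ.bd η = pr S T) = (Γ.bd (fun e => (η e).1) = S ∧ Γ.bd (fun e => (η e).2) = T) := by
    rw [bd_pr, pr_inj]
  rw [h1, ind_and]
  simp only [h, Finset.prod_mul_distrib]
  show _ = (ind (Γ.bd (fun e => (η e).1) = S) * ∏ e, p e (η e).1) *
    (ind (Γ.bd (fun e => (η e).2) = T) * ∏ e, q e (η e).2)
  ring

end H82.IC

end S_H82_IC_SW

section S_H82_IC_FK1

/-!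
# FK1: the FK-Ising sums

`fkS t f = trc (wFK t) 0 f`.
* `fkS_eq`: for fixed `ω`, `∏ e, wFK t e (η e) (e ∈ ω)` is `0` unless the support of `η` is in `ω`, and then it is
  `(∏ e ∈ ω, t e) (∏ e ∈ ωᶜ, (1 - t e))`; so the sum over `η` gives `kap ω`.
* `fkS_one`: `trc_pm1` with `wFK t e a true + wFK t e a false = hp t e a`.
* `trc_FK_src`: the same computation with boundary `S` gives `∑ ω, kapS S ω ...`; with `kapS_src` it is `fkS t (f * ind Conn)`; with `f = 1` and `trc_pm1`: `z t (src u v)`.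
* `fkS_F`: `fkS t (1[ω ∩ F = ∅] 1[u ↔ v]) = trc (wFK t) (src u v) 1[ω ∩ F = ∅]`.  Multiplying by `1[ω ∩ F = ∅]` amounts to replace the weights on `F` by
  `(0,closed) ↦ 1 - t`, everything else `0`, whose sum over `b` is `(1 - t e) * hp (off F t) e a`; conclude by `trc_pm1`-type computation.
* `z_pos`: the term `η = 0` is `1`, all terms are `≥ 0`.
* the `fkE` statements follow by dividing by `z t 0 = fkS t 1 ≥ 1`.
-/

set_option autoImplicit false

open Finset

namespace H82.IC

variable {V E : Type*} [Fintype E] [DecidableEq E]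

theorem FK1_prod (t : E → ℝ) (ω : Finset E) (η : E → ZMod 2) :
    ∏ e, wFK t e (η e) (decide (e ∈ ω)) =
      ind (∀ e, η e ≠ 0 → e ∈ ω) * ((∏ e ∈ ω, t e) * ∏ e ∈ ωᶜ, (1 - t e)) := by
  rw [← Finset.prod_mul_prod_compl ω]
  have h1 : ∏ e ∈ ω, wFK t e (η e) (decide (e ∈ ω)) = ∏ e ∈ ω, t e := by
    refine Finset.prod_congr rfl fun e he => ?_
    simp [wFK, he]
  rw [h1]
  by_cases h : ∀ e, η e ≠ 0 → e ∈ ω
  · rw [ind_true h, one_mul]
    congr 1
    refine Finset.prod_congr rfl fun e he => ?_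
    have he' : e ∉ ω := Finset.mem_compl.1 he
    have h0 : η e = 0 := by
      by_contra hne
      exact he' (h e hne)
    simp [wFK, he', h0]
  · rw [ind_false h, zero_mul]
    push Not at h
    obtain ⟨e, he, heω⟩ := h
    have : ∏ e ∈ ωᶜ, wFK t e (η e) (decide (e ∈ ω)) = 0 := by
      refine Finset.prod_eq_zero (Finset.mem_compl.2 heω) ?_
      simp [wFK, heω, he]
    rw [this, mul_zero]

theorem FK1_trc (Γ : Gr V E) (t : E → ℝ) (S : V → ZMod 2) (f : Finset E → ℝ) :
    Γ.trc (wFK t) S f =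
      ∑ ω : Finset E, Γ.kapS S ω * ((∏ e ∈ ω, t e) * ∏ e ∈ ωᶜ, (1 - t e)) * f ω := by
  unfold Gr.trc
  rw [Finset.sum_comm]
  refine Finset.sum_congr rfl fun ω _ => ?_
  unfold Gr.kapS
  rw [Finset.sum_mul, Finset.sum_mul]
  refine Finset.sum_congr rfl fun η _ => ?_
  rw [FK1_prod, ind_and]
  ring

theorem fkS_eq (Γ : Gr V E) (t : E → ℝ) (f : Finset E → ℝ) :
    Γ.fkS t f = ∑ ω : Finset E, Γ.kap ω * ((∏ e ∈ ω, t e) * ∏ e ∈ ωᶜ, (1 - t e)) * f ω := by
  unfold Gr.fkS
  rw [FK1_trc]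
  rfl

theorem FK1_sumw (t : E → ℝ) (e : E) (a : ZMod 2) :
    wFK t e a true + wFK t e a false = hp t e a := by
  unfold wFK hp
  by_cases h : a = 0 <;> simp [h]

theorem fkS_one (Γ : Gr V E) (t : E → ℝ) : Γ.fkS t (fun _ => 1) = Γ.z t 0 :=
  trc_pm1 Γ (wFK t) (hp t) (FK1_sumw t) 0

theorem trc_FK_src (Γ : Gr V E) (t : E → ℝ) (u v : V) (f : Finset E → ℝ) :
    Γ.trc (wFK t) (src u v) f = Γ.fkS t (fun ω => f ω * ind (Γ.Conn (ω : Set E) u v)) := by
  rw [FK1_trc, fkS_eq]
  refine Finset.sum_congr rfl fun ω _ => ?_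
  rw [kapS_src]
  ring

theorem fkS_conn (Γ : Gr V E) (t : E → ℝ) (u v : V) :
    Γ.fkS t (fun ω => ind (Γ.Conn (ω : Set E) u v)) = Γ.z t (src u v) := by
  have h := trc_FK_src Γ t u v (fun _ => 1)
  simp only [one_mul] at h
  rw [← h]
  exact trc_pm1 Γ (wFK t) (hp t) (FK1_sumw t) (src u v)

theorem fkS_F (Γ : Gr V E) (t : E → ℝ) (F : Finset E) (u v : V) :
    Γ.fkS t (fun ω => ind (Disjoint ω F) * ind (Γ.Conn (ω : Set E) u v)) =
      (∏ e ∈ F, (1 - t e)) * Γ.z (off (F : Set E) t) (src u v) := by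
  rw [← trc_FK_src Γ t u v (fun ω => ind (Disjoint ω F))]
  let w' : E → ZMod 2 → Bool → ℝ := fun e a b =>
    if e ∈ F then (if b = true then 0 else wFK t e a b) else wFK t e a b
  have h1 : Γ.trc (wFK t) (src u v) (fun ω => ind (Disjoint ω F)) =
      Γ.trc w' (src u v) (fun _ => 1) := by
    unfold Gr.trc
    refine Finset.sum_congr rfl fun η _ => Finset.sum_congr rfl fun ω _ => ?_
    congr 1
    rw [one_mul]
    show ind (Disjoint ω F) * ∏ e, wFK t e (η e) (decide (e ∈ ω)) =
      ∏ e, w' e (η e) (decide (e ∈ ω))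
    by_cases hd : Disjoint ω F
    · rw [ind_true hd, one_mul]
      refine Finset.prod_congr rfl fun e _ => ?_
      by_cases heF : e ∈ F
      · have heω : e ∉ ω := fun h => (Finset.disjoint_left.1 hd h) heF
        simp [w', heF, heω]
      · simp [w', heF]
    · rw [ind_false hd, zero_mul]
      rw [Finset.not_disjoint_iff] at hd
      obtain ⟨e, heω, heF⟩ := hd
      symm
      refine Finset.prod_eq_zero (Finset.mem_univ e) ?_
      simp [w', heF, heω]
  have h2 : Γ.trc w' (src u v) (fun _ => 1) = Γ.zz (fun e a => (if e ∈ F then 1 - t e else 1) *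
      hp (off (F : Set E) t) e a) (src u v) := by
    refine trc_pm1 Γ w' _ (fun e a => ?_) _
    by_cases heF : e ∈ F
    · by_cases ha : a = 0 <;> simp [w', heF, ha, wFK, hp, off]
    · by_cases ha : a = 0 <;> simp [w', heF, ha, wFK, hp, off]
  rw [h1, h2]
  unfold Gr.z Gr.zz
  rw [Finset.mul_sum]
  refine Finset.sum_congr rfl fun η _ => ?_
  rw [Finset.prod_mul_distrib, Finset.prod_ite_mem, Finset.univ_inter]
  ring

theorem FK1_hp_nonneg {t : E → ℝ} (ht : T01 t) (e : E) (a : ZMod 2) : 0 ≤ hp t e a := by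
  unfold hp
  split_ifs
  · exact zero_le_one
  · exact (ht e).1

theorem z_nonneg (Γ : Gr V E) {t : E → ℝ} (ht : T01 t) (S : V → ZMod 2) : 0 ≤ Γ.z t S := by
  unfold Gr.z Gr.zz
  exact Finset.sum_nonneg fun η _ => mul_nonneg (ind_nonneg _)
    (Finset.prod_nonneg fun e _ => FK1_hp_nonneg ht e _)

theorem one_le_z (Γ : Gr V E) {t : E → ℝ} (ht : T01 t) : 1 ≤ Γ.z t 0 := by
  unfold Gr.z Gr.zz
  have h1 : (1 : ℝ) = ind (Γ.bd (0 : E → ZMod 2) = 0) * ∏ e, hp t e ((0 : E → ZMod 2) e) := by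
    rw [ind_true (bd_zero Γ), one_mul]
    symm
    refine Finset.prod_eq_one fun e _ => ?_
    simp [hp]
  rw [h1]
  exact Finset.single_le_sum (f := fun η : E → ZMod 2 => ind (Γ.bd η = 0) * ∏ e, hp t e (η e))
    (fun η _ => mul_nonneg (ind_nonneg _)
      (Finset.prod_nonneg fun e _ => FK1_hp_nonneg ht e _)) (Finset.mem_univ (0 : E → ZMod 2))

theorem T01_off {t : E → ℝ} (ht : T01 t) (K : Set E) : T01 (off K t) := by
  intro e
  unfold off
  split_ifs
  · exact ⟨le_rfl, zero_le_one⟩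
  · exact ht e

theorem T01_setT {t : E → ℝ} (ht : T01 t) (E1 η : Finset E) : T01 (setT E1 η t) := by
  intro e
  unfold setT
  split_ifs
  · exact ⟨zero_le_one, le_rfl⟩
  · exact ⟨le_rfl, zero_le_one⟩
  · exact ht e

theorem wFK_nonneg {t : E → ℝ} (ht : T01 t) (e : E) (a : ZMod 2) (b : Bool) : 0 ≤ wFK t e a b := by
  unfold wFK
  have := ht e
  split_ifs
  · exact this.1
  · linarith [this.2]
  · exact le_rfl

theorem wDT_nonneg {t : E → ℝ} (ht : T01 t) (e : E) (a : ZMod 2 × ZMod 2) (b : Bool) :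
    0 ≤ wDT t e a b := by
  unfold wDT
  have := ht e
  split_ifs
  · positivity
  · exact this.1
  · nlinarith [this.1, this.2]
  · exact le_rfl

theorem fkE_one (Γ : Gr V E) {t : E → ℝ} (ht : T01 t) : Γ.fkE t (fun _ => 1) = 1 := by
  unfold Gr.fkE
  rw [fkS_one]
  exact div_self (by linarith [one_le_z Γ ht])

theorem fkE_smul (Γ : Gr V E) (t : E → ℝ) (c : ℝ) (f : Finset E → ℝ) :
    Γ.fkE t (fun ω => c * f ω) = c * Γ.fkE t f := by
  unfold Gr.fkE Gr.fkS
  rw [trc_smul, mul_div_assoc]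

theorem fkE_const (Γ : Gr V E) {t : E → ℝ} (ht : T01 t) (c : ℝ) : Γ.fkE t (fun _ => c) = c := by
  have h := fkE_smul Γ t c (fun _ => 1)
  simp only [mul_one] at h
  rw [h, fkE_one Γ ht, mul_one]

theorem fkE_add (Γ : Gr V E) (t : E → ℝ) (f g : Finset E → ℝ) :
    Γ.fkE t (fun ω => f ω + g ω) = Γ.fkE t f + Γ.fkE t g := by
  unfold Gr.fkE Gr.fkS
  rw [trc_add, add_div]

theorem fkE_sub (Γ : Gr V E) (t : E → ℝ) (f g : Finset E → ℝ) :
    Γ.fkE t (fun ω => f ω - g ω) = Γ.fkE t f - Γ.fkE t g := by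
  unfold Gr.fkE Gr.fkS
  rw [trc_sub, sub_div]

theorem fkE_sum {ι : Type*} (Γ : Gr V E) (t : E → ℝ) (I : Finset ι) (f : ι → Finset E → ℝ) :
    Γ.fkE t (fun ω => ∑ i ∈ I, f i ω) = ∑ i ∈ I, Γ.fkE t (f i) := by
  unfold Gr.fkE Gr.fkS
  rw [trc_sum, Finset.sum_div]

theorem fkE_le (Γ : Gr V E) {t : E → ℝ} (ht : T01 t) {f g : Finset E → ℝ} (h : ∀ ω, f ω ≤ g ω) :
    Γ.fkE t f ≤ Γ.fkE t g := by
  unfold Gr.fkE Gr.fkS
  exact div_le_div_of_nonneg_right (trc_mono Γ (wFK t) (wFK_nonneg ht) 0 h) (z_nonneg Γ ht 0)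

theorem fkE_nonneg (Γ : Gr V E) {t : E → ℝ} (ht : T01 t) {f : Finset E → ℝ} (h : ∀ ω, 0 ≤ f ω) :
    0 ≤ Γ.fkE t f := by
  unfold Gr.fkE Gr.fkS
  exact div_nonneg (trc_nonneg Γ (wFK t) (wFK_nonneg ht) 0 h) (z_nonneg Γ ht 0)

theorem fkE_conn (Γ : Gr V E) (t : E → ℝ) (u v : V) :
    Γ.fkE t (fun ω => ind (Γ.Conn (ω : Set E) u v)) = Γ.tp t u v := by
  unfold Gr.fkE Gr.tp
  rw [fkS_conn]

theorem tp_nonneg (Γ : Gr V E) {t : E → ℝ} (ht : T01 t) (u v : V) : 0 ≤ Γ.tp t u v :=
  div_nonneg (z_nonneg Γ ht _) (z_nonneg Γ ht _)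

theorem tp_le_one (Γ : Gr V E) {t : E → ℝ} (ht : T01 t) (u v : V) : Γ.tp t u v ≤ 1 := by
  rw [← fkE_conn, ← fkE_one Γ ht]
  exact fkE_le Γ ht fun ω => ind_le_one _

theorem tp_self (Γ : Gr V E) {t : E → ℝ} (ht : T01 t) (u : V) : Γ.tp t u u = 1 := by
  unfold Gr.tp
  rw [src_self]
  exact div_self (by linarith [one_le_z Γ ht])

theorem tp_comm (Γ : Gr V E) (t : E → ℝ) (u v : V) : Γ.tp t u v = Γ.tp t v u := by
  unfold Gr.tp
  rw [src_comm]

end H82.IC

end S_H82_IC_FK1
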