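import Mathlib
import Pool.Agent.H82.IC.LDefs
import Pool.Agent.H82.ICM.G01

/-! MP_c4c051_pr: this file joins several modules to save build time. -/

section S_H82_IC_DT1

/-!
# DT1: double trace, first identities

`D S T f := trc (wDT t) (pr S T) f`.
* `sg_one`: `wDT t e a true + wDT t e a false = hp t e a.1 * hp t e a.2` (four cases), so `D S T 1 = z S * z T` by `trc_pm2`; divide by `(z 0)^2`.
* `sg_switch`: `trc_switch` with `g e = (c e, c e)`, `c` from `exists_flow` (if `f ω ≠ 0` then `u ↔ v` in `ω`): `wDT t e (a + (1,1)) true = wDT t e a true`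
  and `bd g = pr (src u v) (src u v)` (`bd_pr`).
* `sg_supp1`, `sg_supp2`: with boundary `src x y` of the first (second) flow, `x ↔ y` in `ω` for all configurations of nonzero weight
  (`trc_congr_supp` and `conn_of_flow` applied to the first (second) component; `wDT t e a false = 0` for `a ≠ 0`).
* `sg_supp4`: the same with `conn4_of_flow`.
* `sg_first`: insert `ind (o ↔ y)` (`sg_supp1`), switch with `(u,y)` (`src o y + src u y = src o u`, `0 + src u y`), then under the sources `(src o u, src u y)` both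
  connections are automatic: `sg (src o u) (src u y) 1 = tp o u * tp u y`.
-/

set_option autoImplicit false

open Finset

namespace H82.IC

variable {V E : Type*} [Fintype E] [DecidableEq E]

theorem wDT_closed (t : E → ℝ) (e : E) (a : ZMod 2 × ZMod 2) (ha : a ≠ 0) :
    wDT t e a false = 0 := by
  simp [wDT, ha]

theorem sg_one (Γ : Gr V E) (t : E → ℝ) (S T : V → ZMod 2) :
    Γ.sg t S T (fun _ => 1) = (Γ.z t S / Γ.z t 0) * (Γ.z t T / Γ.z t 0) := by
  have h : ∀ (e : E) (a : ZMod 2 × ZMod 2),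
      wDT t e a true + wDT t e a false = hp t e a.1 * hp t e a.2 := by
    intro e a
    obtain ⟨a1, a2⟩ := a
    have h2 : ∀ a : ZMod 2, a = 0 ∨ a = 1 := by decide
    rcases h2 a1 with rfl | rfl <;> rcases h2 a2 with rfl | rfl
    · simp [wDT, hp]
    · simp [wDT, hp]
    · simp [wDT, hp]
    · simp [wDT, hp]
      ring
  unfold Gr.sg
  rw [trc_pm2 Γ (wDT t) (hp t) (hp t) h S T, sq, div_mul_div_comm]
  rfl

theorem sg_add (Γ : Gr V E) (t : E → ℝ) (S T : V → ZMod 2) (f g : Finset E → ℝ) :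
    Γ.sg t S T (fun ω => f ω + g ω) = Γ.sg t S T f + Γ.sg t S T g := by
  unfold Gr.sg
  rw [trc_add, add_div]

theorem sg_sub (Γ : Gr V E) (t : E → ℝ) (S T : V → ZMod 2) (f g : Finset E → ℝ) :
    Γ.sg t S T (fun ω => f ω - g ω) = Γ.sg t S T f - Γ.sg t S T g := by
  unfold Gr.sg
  rw [trc_sub, sub_div]

theorem sg_smul (Γ : Gr V E) (t : E → ℝ) (S T : V → ZMod 2) (c : ℝ) (f : Finset E → ℝ) :
    Γ.sg t S T (fun ω => c * f ω) = c * Γ.sg t S T f := by
  unfold Gr.sg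
  rw [trc_smul, mul_div_assoc]

theorem sg_sum {ι : Type*} (Γ : Gr V E) (t : E → ℝ) (S T : V → ZMod 2) (I : Finset ι)
    (f : ι → Finset E → ℝ) :
    Γ.sg t S T (fun ω => ∑ i ∈ I, f i ω) = ∑ i ∈ I, Γ.sg t S T (f i) := by
  unfold Gr.sg
  rw [trc_sum, sum_div]

theorem sg_mono (Γ : Gr V E) {t : E → ℝ} (ht : T01 t) (S T : V → ZMod 2)
    {f g : Finset E → ℝ} (h : ∀ ω, f ω ≤ g ω) : Γ.sg t S T f ≤ Γ.sg t S T g := by
  unfold Gr.sg
  exact div_le_div_of_nonneg_right (trc_mono Γ _ (fun e a b => wDT_nonneg ht e a b) _ h)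
    (sq_nonneg _)

theorem sg_nonneg (Γ : Gr V E) {t : E → ℝ} (ht : T01 t) (S T : V → ZMod 2)
    {f : Finset E → ℝ} (h : ∀ ω, 0 ≤ f ω) : 0 ≤ Γ.sg t S T f := by
  unfold Gr.sg
  exact div_nonneg (trc_nonneg Γ _ (fun e a b => wDT_nonneg ht e a b) _ h) (sq_nonneg _)

/-- switching lemma for the double trace. -/
theorem sg_switch (Γ : Gr V E) (t : E → ℝ) (S T : V → ZMod 2) (u v : V) (f : Finset E → ℝ)
    (hf : ∀ ω : Finset E, f ω ≠ 0 → Γ.Conn (ω : Set E) u v) :
    Γ.sg t S T f = Γ.sg t (S + src u v) (T + src u v) f := by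
  unfold Gr.sg
  rw [← pr_add]
  congr 1
  refine trc_switch Γ (wDT t) (pr S T) (pr (src u v) (src u v)) f fun ω hω => ?_
  obtain ⟨c, hc, hcω⟩ := exists_flow Γ (hf ω hω)
  refine ⟨fun e => (c e, c e), ?_, fun e he => ?_⟩
  · rw [bd_pr]
    show pr (Γ.bd c) (Γ.bd c) = _
    rw [hc]
  · have hce : c e ≠ 0 := by
      intro h
      apply he
      show (c e, c e) = 0
      rw [h]
      rfl
    refine ⟨?_, fun a => ?_⟩
    · have := hcω e hce
      exact_mod_cast this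
    · have h1 : c e = 1 := by
        have h2 : ∀ a : ZMod 2, a ≠ 0 → a = 1 := by decide
        exact h2 _ hce
      show wDT t e (a + (c e, c e)) true = _
      rw [h1]
      have h3 : ((a + (1, 1)).1 = (a + (1, 1)).2) = (a.1 = a.2) := by
        refine propext ⟨fun h => ?_, fun h => ?_⟩
        · exact add_right_cancel (b := (1 : ZMod 2)) h
        · show a.1 + 1 = a.2 + 1
          rw [h]
      simp only [wDT, if_true, h3]

theorem DT1_first {Γ : Gr V E} {η : E → ZMod 2 × ZMod 2} {S T : V → ZMod 2}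
    (h : Γ.bd η = pr S T) : Γ.bd (fun e => (η e).1) = S ∧ Γ.bd (fun e => (η e).2) = T := by
  rw [bd_pr, pr_inj] at h
  exact h

omit [Fintype E] [DecidableEq E] in
theorem DT1_s1 {ω : Finset E} {η : E → ZMod 2 × ZMod 2} (h : ∀ e, η e ≠ 0 → e ∈ ω) :
    (∀ e, (fun e => (η e).1) e ≠ 0 → e ∈ (ω : Set E)) ∧
    (∀ e, (fun e => (η e).2) e ≠ 0 → e ∈ (ω : Set E)) := by
  constructor
  · intro e he
    exact Finset.mem_coe.2 (h e fun h0 => he (congrArg Prod.fst h0))
  · intro e he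
    exact Finset.mem_coe.2 (h e fun h0 => he (congrArg Prod.snd h0))

theorem sg_supp1 (Γ : Gr V E) (t : E → ℝ) (x y : V) (T : V → ZMod 2) (f g : Finset E → ℝ)
    (h : ∀ ω : Finset E, Γ.Conn (ω : Set E) x y → f ω = g ω) :
    Γ.sg t (src x y) T f = Γ.sg t (src x y) T g := by
  unfold Gr.sg
  rw [trc_congr_supp Γ (wDT t) (wDT_closed t) _ f g fun ω η h1 h2 => ?_]
  exact h ω (conn_of_flow Γ (DT1_first h1).1 (DT1_s1 h2).1)

theorem sg_supp2 (Γ : Gr V E) (t : E → ℝ) (S : V → ZMod 2) (x y : V) (f g : Finset E → ℝ)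
    (h : ∀ ω : Finset E, Γ.Conn (ω : Set E) x y → f ω = g ω) :
    Γ.sg t S (src x y) f = Γ.sg t S (src x y) g := by
  unfold Gr.sg
  rw [trc_congr_supp Γ (wDT t) (wDT_closed t) _ f g fun ω η h1 h2 => ?_]
  exact h ω (conn_of_flow Γ (DT1_first h1).2 (DT1_s1 h2).2)

theorem sg_supp12 (Γ : Gr V E) (t : E → ℝ) (x y x' y' : V) (f g : Finset E → ℝ)
    (h : ∀ ω : Finset E, Γ.Conn (ω : Set E) x y → Γ.Conn (ω : Set E) x' y' → f ω = g ω) :
    Γ.sg t (src x y) (src x' y') f = Γ.sg t (src x y) (src x' y') g := by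
  unfold Gr.sg
  rw [trc_congr_supp Γ (wDT t) (wDT_closed t) _ f g fun ω η h1 h2 => ?_]
  exact h ω (conn_of_flow Γ (DT1_first h1).1 (DT1_s1 h2).1)
    (conn_of_flow Γ (DT1_first h1).2 (DT1_s1 h2).2)

theorem sg_supp4 (Γ : Gr V E) (t : E → ℝ) (a b c d : V) (T : V → ZMod 2) (f g : Finset E → ℝ)
    (h : ∀ ω : Finset E, (Γ.Conn (ω : Set E) a b ∧ Γ.Conn (ω : Set E) c d) ∨
      (Γ.Conn (ω : Set E) a c ∧ Γ.Conn (ω : Set E) b d) ∨
      (Γ.Conn (ω : Set E) a d ∧ Γ.Conn (ω : Set E) b c) → f ω = g ω) :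
    Γ.sg t (src a b + src c d) T f = Γ.sg t (src a b + src c d) T g := by
  unfold Gr.sg
  rw [trc_congr_supp Γ (wDT t) (wDT_closed t) _ f g fun ω η h1 h2 => ?_]
  exact h ω (conn4_of_flow Γ (DT1_first h1).1 (DT1_s1 h2).1)

/-- first moment identity. -/
theorem sg_first (Γ : Gr V E) (t : E → ℝ) (o y u : V) :
    Γ.sg t (src o y) 0 (fun ω => ind (Γ.Conn (ω : Set E) o u)) = Γ.tp t o u * Γ.tp t u y := by
  have e1 : Γ.sg t (src o y) 0 (fun ω => ind (Γ.Conn (ω : Set E) o u)) =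
      Γ.sg t (src o y) 0 (fun ω => ind (Γ.Conn (ω : Set E) o u) * ind (Γ.Conn (ω : Set E) o y)) := by
    refine sg_supp1 Γ t o y 0 _ _ fun ω h => ?_
    rw [ind_true h, mul_one]
  have e2 := sg_switch Γ t (src o y) 0 u y
    (fun ω => ind (Γ.Conn (ω : Set E) o u) * ind (Γ.Conn (ω : Set E) o y)) (fun ω hω => by
      have h1 : Γ.Conn (ω : Set E) o u := by
        by_contra hc
        exact hω (by rw [ind_false hc, zero_mul])
      have h2 : Γ.Conn (ω : Set E) o y := by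
        by_contra hc
        exact hω (by rw [ind_false hc, mul_zero])
      exact conn_trans Γ (conn_symm Γ h1) h2)
  have e3 : src o y + src u y = src o u := by
    rw [src_comm u y, src_add]
  rw [e3, zero_add] at e2
  rw [e1, e2, sg_supp12 Γ t o u u y _ (fun _ => 1) fun ω h1 h2 => ?_, sg_one]
  · rfl
  · rw [ind_true h1, ind_true (conn_trans Γ h1 h2), mul_one]

end H82.IC

end S_H82_IC_DT1

section S_H82_IC_KC

/-!
# KC: counting clusters

`kG Γ W ω` = number of distinct clusters of `ω` (any set of edges of any graph) meeting the finite set `W`.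
* `kG_insert`: for an edge `e` with both ends in `W`: if `s e ↔ r e` in `ω`, the connectivity relations of `insert e ω` and `ω` agree (`conn_insert`), so nothing changes and
  `2 - ind = 1`.  Otherwise the clusters `C_s ≠ C_r` of the two ends (both meet `W`) are merged (`conn_insert`: the cluster of `x` in `insert e ω` is the cluster of `x` in `ω` if it contains
  neither end, and `C_s ∪ C_r` otherwise) so the number drops by one, and `2 - ind = 2`:
  the set of clusters for `insert e ω` is `(clusters of ω minus {C_s, C_r}) ∪ {C_s ∪ C_r}`, all these sets are finite (images of `W`).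
* `kG_bridge`: `Λ ⊆ Λ'` finite, `η ⊆ Λ' \ Λ`, `ξ` any set of edges such that for all `ω ⊆ Λ`, `e ∈ Λ`:
  `s e ↔ r e` in `ω ∪ ξ` iff in `ω ∪ η`.  Then `2^{kG W (ω ∪ ξ)} 2^{|ω|} / kap (ω ∪ η)` does not depend on `ω ⊆ Λ`: induction on `ω` (insert `e ∉ ω`): by `kG_insert` the numerator is
  multiplied by `2 / (2 - ind)`, which is `1 + ind` for `ind ∈ {0,1}`, as the denominator by `kap_insert` (in the graph `Γ.rs Λ'` whose connectivity is that of `Γ`, `conn_rs`); if `e ∈ ξ`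
  is excluded as `ξ` is disjoint from `Λ`.  `c` = the value at `ω = ∅`.
* `conn_rs`: connectivity in `Γ.rs Λ'` of a configuration `ω'` is connectivity in `Γ` of `vl ω'` (induction on the paths).
-/

set_option autoImplicit false

open Finset

namespace H82.IC

variable {V E : Type*}

noncomputable def kG (Γ : Gr V E) (W : Finset V) (ω : Set E) : ℕ :=
  Set.ncard {C : Set V | ∃ v ∈ W, C = Γ.cl ω v}

theorem KC_cl_eq (Γ : Gr V E) (ω : Set E) {x y : V} (h : Γ.Conn ω x y) :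
    Γ.cl ω x = Γ.cl ω y := by
  ext z
  exact ⟨fun hz => conn_trans Γ (conn_symm Γ h) hz, fun hz => conn_trans Γ h hz⟩

theorem KC_of_cl (Γ : Gr V E) (ω : Set E) {x y : V} (h : Γ.cl ω x = Γ.cl ω y) :
    Γ.Conn ω x y := by
  have h1 : y ∈ Γ.cl ω x := by
    rw [h]
    exact mem_cl_self Γ ω y
  exact h1

theorem KC_fin (Γ : Gr V E) (W : Finset V) (ω : Set E) :
    {C : Set V | ∃ v ∈ W, C = Γ.cl ω v}.Finite := by
  refine (W.finite_toSet.image (fun v => Γ.cl ω v)).subset ?_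
  rintro C ⟨v, hv, rfl⟩
  exact ⟨v, hv, rfl⟩

theorem kG_insert (Γ : Gr V E) (W : Finset V) (ω : Set E) (e : E) (hs : Γ.s e ∈ W)
    (hr : Γ.r e ∈ W) :
    (2 : ℝ) ^ kG Γ W ω = 2 ^ kG Γ W (insert e ω) * (2 - ind (Γ.Conn ω (Γ.s e) (Γ.r e))) := by
  by_cases hc : Γ.Conn ω (Γ.s e) (Γ.r e)
  · have h1 : ∀ x, Γ.cl (insert e ω) x = Γ.cl ω x := by
      intro x
      ext y
      show Γ.Conn (insert e ω) x y ↔ Γ.Conn ω x y
      rw [conn_insert]
      constructor
      · rintro (h | ⟨h1, h2⟩ | ⟨h1, h2⟩)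
        · exact h
        · exact conn_trans Γ h1 (conn_trans Γ hc h2)
        · exact conn_trans Γ h1 (conn_trans Γ (conn_symm Γ hc) h2)
      · exact Or.inl
    have h2 : kG Γ W (insert e ω) = kG Γ W ω := by
      unfold kG
      simp only [h1]
    rw [h2, ind_true hc]
    ring
  · have hcl : ∀ x, (Γ.Conn ω x (Γ.s e) ∨ Γ.Conn ω x (Γ.r e) →
        Γ.cl (insert e ω) x = Γ.cl ω (Γ.s e) ∪ Γ.cl ω (Γ.r e)) ∧
        (¬ (Γ.Conn ω x (Γ.s e) ∨ Γ.Conn ω x (Γ.r e)) → Γ.cl (insert e ω) x = Γ.cl ω x) := by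
      intro x
      constructor
      · intro hx
        ext y
        show Γ.Conn (insert e ω) x y ↔ Γ.Conn ω (Γ.s e) y ∨ Γ.Conn ω (Γ.r e) y
        rw [conn_insert]
        rcases hx with hx | hx
        · constructor
          · rintro (h | ⟨h1, h2⟩ | ⟨h1, h2⟩)
            · exact Or.inl (conn_trans Γ (conn_symm Γ hx) h)
            · exact Or.inr h2
            · exact Or.inl h2
          · rintro (h | h)
            · exact Or.inl (conn_trans Γ hx h)
            · exact Or.inr (Or.inl ⟨hx, h⟩)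
        · constructor
          · rintro (h | ⟨h1, h2⟩ | ⟨h1, h2⟩)
            · exact Or.inr (conn_trans Γ (conn_symm Γ hx) h)
            · exact Or.inr h2
            · exact Or.inl h2
          · rintro (h | h)
            · exact Or.inr (Or.inr ⟨hx, h⟩)
            · exact Or.inl (conn_trans Γ hx h)
      · intro hx
        ext y
        show Γ.Conn (insert e ω) x y ↔ Γ.Conn ω x y
        rw [conn_insert]
        constructor
        · rintro (h | ⟨h1, h2⟩ | ⟨h1, h2⟩)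
          · exact h
          · exact absurd (Or.inl h1) hx
          · exact absurd (Or.inr h1) hx
        · exact Or.inl
    obtain ⟨S0, hS0⟩ : ∃ S0 : Set (Set V), S0 = {C : Set V | ∃ v ∈ W, C = Γ.cl ω v} := ⟨_, rfl⟩
    have hS0f : S0.Finite := by
      rw [hS0]
      exact KC_fin Γ W ω
    have ha0 : Γ.cl ω (Γ.s e) ∈ S0 := by
      rw [hS0]
      exact ⟨_, hs, rfl⟩
    have hb0 : Γ.cl ω (Γ.r e) ∈ S0 := by
      rw [hS0]
      exact ⟨_, hr, rfl⟩
    have hab : Γ.cl ω (Γ.r e) ≠ Γ.cl ω (Γ.s e) := fun h => hc (conn_symm Γ (KC_of_cl Γ ω h))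
    have hS1 : {C : Set V | ∃ v ∈ W, C = Γ.cl (insert e ω) v} =
        insert (Γ.cl ω (Γ.s e) ∪ Γ.cl ω (Γ.r e))
          ((S0 \ {Γ.cl ω (Γ.s e)}) \ {Γ.cl ω (Γ.r e)}) := by
      ext C
      constructor
      · rintro ⟨x, hx, rfl⟩
        by_cases h : Γ.Conn ω x (Γ.s e) ∨ Γ.Conn ω x (Γ.r e)
        · rw [(hcl x).1 h]
          exact Set.mem_insert _ _
        · rw [(hcl x).2 h]
          refine Set.mem_insert_of_mem _ ⟨⟨?_, ?_⟩, ?_⟩
          · rw [hS0]
            exact ⟨x, hx, rfl⟩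
          · intro h1
            exact h (Or.inl (KC_of_cl Γ ω h1))
          · intro h1
            exact h (Or.inr (KC_of_cl Γ ω h1))
      · intro h
        rcases Set.mem_insert_iff.1 h with h | ⟨⟨h1, h2⟩, h3⟩
        · exact ⟨Γ.s e, hs, by rw [h, (hcl _).1 (Or.inl (conn_refl Γ ω _))]⟩
        · rw [hS0] at h1
          obtain ⟨x, hx, rfl⟩ := h1
          refine ⟨x, hx, ?_⟩
          rw [(hcl x).2]
          rintro (h4 | h4)
          · exact h2 (KC_cl_eq Γ ω h4)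
          · exact h3 (KC_cl_eq Γ ω h4)
    have hnot : Γ.cl ω (Γ.s e) ∪ Γ.cl ω (Γ.r e) ∉
        (S0 \ {Γ.cl ω (Γ.s e)}) \ {Γ.cl ω (Γ.r e)} := by
      rintro ⟨⟨h1, _⟩, _⟩
      rw [hS0] at h1
      obtain ⟨x, _, hx⟩ := h1
      have h2 : Γ.s e ∈ Γ.cl ω x := by
        rw [← hx]
        exact Or.inl (mem_cl_self Γ ω _)
      have h3 : Γ.r e ∈ Γ.cl ω x := by
        rw [← hx]
        exact Or.inr (mem_cl_self Γ ω _)
      exact hc (conn_trans Γ (conn_symm Γ h2) h3)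
    have hk : kG Γ W ω = kG Γ W (insert e ω) + 1 := by
      unfold kG
      rw [hS1, ← hS0, Set.ncard_insert_of_notMem hnot ((hS0f.sdiff).sdiff),
        Set.ncard_sdiff_singleton_add_one (show Γ.cl ω (Γ.r e) ∈ S0 \ {Γ.cl ω (Γ.s e)} from
          ⟨hb0, hab⟩) (hS0f.sdiff),
        Set.ncard_sdiff_singleton_add_one ha0 hS0f]
    rw [hk, ind_false hc, pow_succ]
    ring

theorem conn_rs (Γ : Gr V E) (Λ' : Finset E) (ω : Finset ↥Λ') (x y : V) :
    (Γ.rs Λ').Conn (ω : Set ↥Λ') x y ↔ Γ.Conn (vl ω : Set E) x y := by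
  have h1 : (Γ.rs Λ').Adj (ω : Set ↥Λ') = Γ.Adj (vl ω : Set E) := by
    funext a b
    apply propext
    constructor
    · rintro ⟨e, he, h⟩
      refine ⟨e.1, ?_, h⟩
      rw [Finset.mem_coe, vl, Finset.mem_map]
      exact ⟨e, he, rfl⟩
    · rintro ⟨e, he, h⟩
      rw [Finset.mem_coe, vl, Finset.mem_map] at he
      obtain ⟨e', he', rfl⟩ := he
      exact ⟨e', he', h⟩
  unfold Gr.Conn
  rw [h1]

/-- a finite set of edges as a set of edges of the restricted graph. -/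
noncomputable def sb {E : Type*} (Λ' F : Finset E) : Finset ↥Λ' :=
  open Classical in univ.filter (fun e => e.1 ∈ F)

theorem KC_mem_sb {E : Type*} (Λ' F : Finset E) (e : ↥Λ') : e ∈ sb Λ' F ↔ e.1 ∈ F := by
  classical
  unfold sb
  rw [Finset.mem_filter]
  exact ⟨fun h => h.2, fun h => ⟨Finset.mem_univ _, h⟩⟩

theorem vl_sb [DecidableEq E] (Λ' F : Finset E) : vl (sb Λ' F) = F ∩ Λ' := by
  ext e
  rw [vl, Finset.mem_map, Finset.mem_inter]
  constructor
  · rintro ⟨e', he', rfl⟩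
    exact ⟨(KC_mem_sb Λ' F e').1 he', e'.2⟩
  · rintro ⟨h1, h2⟩
    exact ⟨⟨e, h2⟩, (KC_mem_sb Λ' F ⟨e, h2⟩).2 h1, rfl⟩

theorem kG_bridge [DecidableEq E] (Γ : Gr V E) (Λ Λ' : Finset E) (hΛ : Λ ⊆ Λ') (W : Finset V)
    (hW : ∀ e ∈ Λ, Γ.s e ∈ W ∧ Γ.r e ∈ W) (ξ : Set E) (hξ : ∀ e ∈ ξ, e ∉ Λ) (η : Finset E)
    (hη : η ⊆ Λ' \ Λ)
    (hc : ∀ ω : Finset E, ω ⊆ Λ → ∀ e ∈ Λ,
      (Γ.Conn ((ω : Set E) ∪ ξ) (Γ.s e) (Γ.r e) ↔ Γ.Conn ((ω : Set E) ∪ η) (Γ.s e) (Γ.r e))) :
    ∃ c : ℝ, 0 < c ∧ ∀ ω : Finset E, ω ⊆ Λ →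
      (2 : ℝ) ^ kG Γ W ((ω : Set E) ∪ ξ) * 2 ^ ω.card = c * (Γ.rs Λ').kap (sb Λ' (ω ∪ η)) := by
  have hkpos : ∀ F : Finset ↥Λ', 0 < (Γ.rs Λ').kap F := fun F =>
    lt_of_lt_of_le one_pos (one_le_kap (Γ.rs Λ') F)
  refine ⟨2 ^ kG Γ W (((∅ : Finset E) : Set E) ∪ ξ) / (Γ.rs Λ').kap (sb Λ' (∅ ∪ η)),
    div_pos (by positivity) (hkpos _), fun ω => ?_⟩
  obtain ⟨c, hcdef⟩ : ∃ c : ℝ, c = 2 ^ kG Γ W (((∅ : Finset E) : Set E) ∪ ξ) /
    (Γ.rs Λ').kap (sb Λ' (∅ ∪ η)) := ⟨_, rfl⟩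
  rw [← hcdef]
  induction ω using Finset.induction_on with
  | empty =>
    intro _
    rw [hcdef, Finset.card_empty, pow_zero, mul_one, div_mul_cancel₀ _ (hkpos _).ne']
  | insert e ω he ih =>
    intro hsub
    have heΛ : e ∈ Λ := hsub (Finset.mem_insert_self _ _)
    have hωΛ : ω ⊆ Λ := fun x hx => hsub (Finset.mem_insert_of_mem hx)
    have ih' := ih hωΛ
    have e1 : (((insert e ω : Finset E) : Set E) ∪ ξ) = insert e ((ω : Set E) ∪ ξ) := by
      rw [Finset.coe_insert, Set.insert_union]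
    have hk := kG_insert Γ W ((ω : Set E) ∪ ξ) e (hW e heΛ).1 (hW e heΛ).2
    have e2 : sb Λ' (insert e ω ∪ η) = insert (⟨e, hΛ heΛ⟩ : ↥Λ') (sb Λ' (ω ∪ η)) := by
      ext x
      rw [Finset.mem_insert, KC_mem_sb, KC_mem_sb, Finset.insert_union, Finset.mem_insert]
      constructor
      · rintro (h | h)
        · exact Or.inl (Subtype.ext h)
        · exact Or.inr h
      · rintro (h | h)
        · exact Or.inl (congrArg Subtype.val h)
        · exact Or.inr h
    have hnot : (⟨e, hΛ heΛ⟩ : ↥Λ') ∉ sb Λ' (ω ∪ η) := by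
      rw [KC_mem_sb]
      intro h
      rcases Finset.mem_union.1 h with h | h
      · exact he h
      · exact (Finset.mem_sdiff.1 (hη h)).2 heΛ
    have hkap := kap_insert (Γ.rs Λ') hnot
    have hsub' : ω ∪ η ⊆ Λ' := by
      intro x hx
      rcases Finset.mem_union.1 hx with h | h
      · exact hΛ (hωΛ h)
      · exact (Finset.mem_sdiff.1 (hη h)).1
    have e3 : (Γ.rs Λ').Conn ((sb Λ' (ω ∪ η) : Finset ↥Λ') : Set ↥Λ')
        ((Γ.rs Λ').s ⟨e, hΛ heΛ⟩) ((Γ.rs Λ').r ⟨e, hΛ heΛ⟩) ↔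
        Γ.Conn ((ω : Set E) ∪ ξ) (Γ.s e) (Γ.r e) := by
      rw [conn_rs, vl_sb, Finset.inter_eq_left.2 hsub', hc ω hωΛ e heΛ, Finset.coe_union]
      exact Iff.rfl
    have e4 := KA_congr e3
    rw [e4] at hkap
    rw [e1, e2, hkap, Finset.card_insert_of_notMem he, pow_succ]
    obtain ⟨i, hi⟩ : ∃ i : ℝ, i = ind (Γ.Conn ((ω : Set E) ∪ ξ) (Γ.s e) (Γ.r e)) := ⟨_, rfl⟩
    have hii : i * i = i := by rw [hi]; exact ind_mul_self _
    rw [← hi] at hk ⊢
    have h2 : (2 - i) * (1 + i) = 2 := by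
      have : (2 - i) * (1 + i) = 2 + i - i * i := by ring
      rw [this, hii]
      ring
    calc (2 : ℝ) ^ kG Γ W (insert e ((ω : Set E) ∪ ξ)) * (2 ^ ω.card * 2)
        = 2 ^ kG Γ W (insert e ((ω : Set E) ∪ ξ)) * 2 ^ ω.card * ((2 - i) * (1 + i)) := by
          rw [h2]
          ring
      _ = (2 ^ kG Γ W (insert e ((ω : Set E) ∪ ξ)) * (2 - i)) * 2 ^ ω.card * (1 + i) := by ring
      _ = c * ((Γ.rs Λ').kap (sb Λ' (ω ∪ η)) * (1 + i)) := by
          rw [← hk, ih']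
          ring

end H82.IC

end S_H82_IC_KC

section S_H82_IC_BR1

/-!
# BR1: the problem's finite volume measures are the abstract FK expectations

`t = tanh β ∈ [0,1)`, `e^{2β} - 1 = 2t/(1-t)`.
Left side: sum over `ω ⊆ Λ` of `2^{kx W (glue Λ ξ ω)} (2t/(1-t))^{|ω|} 1[glue ∈ X]`.  `opn (glue Λ ξ ω) = ω ∪ (opn ξ \ Λ)` for `ω ⊆ Λ`, `kx W = kG (Zl d) W (opn ..)` (same definition).
By `kG_bridge` (with `ξ := opn ξ \ Λ`): `2^{k} (2t/(1-t))^{|ω|} = c kap(sb (ω ∪ η)) (t/(1-t))^{|ω|}` and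
 `(t/(1-t))^{|ω|} (1-t)^{|Λ|} = t^{|ω|} (1-t)^{|Λ \ ω|}`.
Right side (`fkS_eq` on `GN d N`, `T = setT (sb (bE N) (bE N \ Λ)) (sb (bE N) η) (fun _ => t)`, numerator and denominator `z T 0 = fkS T 1`): the weight of `ω' : Finset ↥(bE d N)` vanishes unless `ω'` off `Λ` is `η`,
i.e. `vl ω' = ω ∪ η` with `ω = vl ω' ∩ Λ ⊆ Λ`, and then it is `kap ω' * t^{|ω|} (1-t)^{|Λ \ ω|}` (edges of `η` contribute `1`, edges of `bE N \ Λ \ η` contribute `1 - 0 = 1`).
So the sum over `ω'` is the sum over `ω ⊆ Λ` (bijection `ω ↦ sb (bE N) (ω ∪ η)`), numerators and denominators agree up to the common constant `c (1-t)^{-|Λ|}`.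
`glue Λ ξ (vl ω') = glue Λ ξ ω` (only the values on `Λ` matter).
-/

set_option autoImplicit false

open Finset

namespace H82.IC

variable {d : ℕ}

theorem tanh_mem (β : ℝ) (hβ : 0 ≤ β) : 0 ≤ Real.tanh β ∧ Real.tanh β < 1 := by
  refine ⟨?_, Real.tanh_lt_one β⟩
  rw [Real.tanh_eq_sinh_div_cosh]
  exact div_nonneg (Real.sinh_nonneg_iff.2 hβ) (Real.cosh_pos β).le

theorem T01_tanh {E : Type*} (β : ℝ) (hβ : 0 ≤ β) : T01 (fun _ : E => Real.tanh β) :=
  fun _ => ⟨(tanh_mem β hβ).1, (tanh_mem β hβ).2.le⟩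

theorem exp_tanh (β : ℝ) : Real.exp (2 * β) - 1 = 2 * Real.tanh β / (1 - Real.tanh β) := by
  have h1 : 1 - Real.tanh β ≠ 0 := by
    have := Real.tanh_lt_one β
    intro h
    linarith
  rw [eq_div_iff h1, Real.tanh_eq_sinh_div_cosh]
  have hc := (Real.cosh_pos β).ne'
  have e1 : Real.exp (2 * β) = Real.exp β * Real.exp β := by
    rw [← Real.exp_add]; ring_nf
  have e2 : Real.exp β * Real.exp (-β) = 1 := by
    rw [← Real.exp_add, add_neg_cancel, Real.exp_zero]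
  field_simp
  rw [Real.cosh_eq, Real.sinh_eq, e1]
  linear_combination Real.exp β * e2

theorem fkw_pos {β : ℝ} (hβ : 0 < β) (W : Finset (Vx d)) (Λ : Finset (Ed d)) (ξ : Cf d)
    (ω : Finset (Ed d)) : 0 < fkw β W Λ ξ ω := by
  unfold fkw
  have h1 : 0 < Real.exp (2 * β) - 1 := by
    have : 1 < Real.exp (2 * β) := by
      rw [Real.one_lt_exp_iff]
      linarith
    linarith
  positivity

/-- the open edges of a glued configuration. -/
theorem BR1_opn (Λ : Finset (Ed d)) (ξ : Cf d) (ω : Finset (Ed d)) (hω : ω ⊆ Λ) :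
    opn (glue Λ ξ ω) = (ω : Set (Ed d)) ∪ (opn ξ \ Λ) := by
  ext e
  simp only [opn, glue, Set.mem_ofPred_eq, Set.mem_union, Set.mem_sdiff, Finset.mem_coe]
  by_cases he : e ∈ Λ
  · simp [he]
  · have h1 : e ∉ ω := fun h => he (hω h)
    simp [he, h1]

theorem BR1_glue (Λ : Finset (Ed d)) (ξ : Cf d) (ω ω' : Finset (Ed d))
    (h : ∀ e ∈ Λ, (e ∈ ω ↔ e ∈ ω')) : glue Λ ξ ω = glue Λ ξ ω' := by
  funext e
  unfold glue
  by_cases he : e ∈ Λ
  · simp only [he, if_true]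
    exact decide_eq_decide.2 (h e he)
  · simp only [he, if_false]

theorem BR1_mem_sb {E : Type*} (Λ' F : Finset E) (e : ↥Λ') : e ∈ sb Λ' F ↔ e.1 ∈ F := by
  unfold sb
  simp

theorem BR1_mem_vl {E : Type*} {Λ' : Finset E} (ω : Finset ↥Λ') (e : E) :
    e ∈ vl ω ↔ ∃ h : e ∈ Λ', (⟨e, h⟩ : ↥Λ') ∈ ω := by
  unfold vl
  rw [Finset.mem_map]
  constructor
  · rintro ⟨x, hx, rfl⟩
    exact ⟨x.2, hx⟩
  · rintro ⟨h, hx⟩
    exact ⟨⟨e, h⟩, hx, rfl⟩

/-- the product of the local weights. -/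
noncomputable def BR1_P {E : Type*} [Fintype E] [DecidableEq E] (T : E → ℝ) (ω : Finset E) : ℝ :=
  (∏ e ∈ ω, T e) * ∏ e ∈ ωᶜ, (1 - T e)

theorem BR1_P_eq {E : Type*} [Fintype E] [DecidableEq E] (T : E → ℝ) (ω : Finset E) :
    BR1_P T ω = ∏ e, (if e ∈ ω then T e else 1 - T e) := by
  unfold BR1_P
  rw [← Finset.prod_mul_prod_compl ω (fun e => if e ∈ ω then T e else 1 - T e)]
  congr 1
  · exact Finset.prod_congr rfl fun e he => by rw [if_pos he]
  · exact Finset.prod_congr rfl fun e he => by rw [if_neg (Finset.mem_compl.1 he)]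

/-- the local weights for a forced configuration off `Λ`. -/
theorem BR1_P_sb (Λ Λ' η : Finset (Ed d)) (hΛ : Λ ⊆ Λ') (hη : η ⊆ Λ' \ Λ) (t : ℝ)
    (ω : Finset (Ed d)) (hω : ω ⊆ Λ) :
    BR1_P (setT (sb Λ' (Λ' \ Λ)) (sb Λ' η) (fun _ => t)) (sb Λ' (ω ∪ η)) =
      t ^ ω.card * (1 - t) ^ (Λ \ ω).card := by
  rw [BR1_P_eq]
  let h : Ed d → ℝ := fun x => if x ∈ Λ then (if x ∈ ω then t else 1 - t) else 1
  have h1 : ∏ e : ↥Λ', (if e ∈ sb Λ' (ω ∪ η) then
      setT (sb Λ' (Λ' \ Λ)) (sb Λ' η) (fun _ => t) e else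
      1 - setT (sb Λ' (Λ' \ Λ)) (sb Λ' η) (fun _ => t) e) = ∏ e : ↥Λ', h e.1 := by
    refine Finset.prod_congr rfl fun e _ => ?_
    unfold setT
    simp only [BR1_mem_sb, h, Finset.mem_union, Finset.mem_sdiff]
    by_cases heη : e.1 ∈ η
    · have hx := Finset.mem_sdiff.1 (hη heη)
      simp [heη, hx.2]
    · by_cases heΛ : e.1 ∈ Λ
      · simp [heη, heΛ]
      · have h3 : e.1 ∉ ω := fun h => heΛ (hω h)
        simp [heη, heΛ, h3]
  rw [h1, Finset.prod_coe_sort Λ' h]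
  have h2 : ∏ x ∈ Λ', h x = ∏ x ∈ Λ, (if x ∈ ω then t else 1 - t) := by
    rw [← Finset.prod_subset hΛ (f := h)]
    · exact Finset.prod_congr rfl fun x hx => by simp only [h, if_pos hx]
    · intro x _ hx
      simp only [h, if_neg hx]
  rw [h2, Finset.prod_ite, Finset.prod_const, Finset.prod_const]
  congr 2
  · congr 1
    rw [Finset.filter_mem_eq_inter]
    exact Finset.inter_eq_right.2 hω
  · congr 1
    ext x
    simp

theorem BR1_P_zero (Λ Λ' η : Finset (Ed d)) (t : ℝ)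
    (ω' : Finset ↥Λ')
    (hP : BR1_P (setT (sb Λ' (Λ' \ Λ)) (sb Λ' η) (fun _ => t)) ω' ≠ 0) :
    sb Λ' ((vl ω' ∩ Λ) ∪ η) = ω' := by
  rw [BR1_P_eq, Finset.prod_ne_zero_iff] at hP
  ext e
  have h1 := hP e (Finset.mem_univ e)
  unfold setT at h1
  simp only [BR1_mem_sb, Finset.mem_sdiff] at h1
  rw [BR1_mem_sb, Finset.mem_union, Finset.mem_inter, BR1_mem_vl]
  by_cases heη : e.1 ∈ η
  · have h2 : e ∈ ω' := by
      by_contra h3
      rw [if_neg h3, if_pos heη] at h1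
      exact h1 (sub_self _)
    exact ⟨fun _ => h2, fun _ => Or.inr heη⟩
  · by_cases heΛ : e.1 ∈ Λ
    · constructor
      · rintro (⟨⟨_, h⟩, _⟩ | h)
        · exact h
        · exact absurd h heη
      · intro h
        exact Or.inl ⟨⟨e.2, h⟩, heΛ⟩
    · have h2 : e ∉ ω' := by
        intro h3
        rw [if_pos h3, if_neg heη, if_pos ⟨e.2, heΛ⟩] at h1
        exact h1 rfl
      constructor
      · rintro (⟨_, h⟩ | h)
        · exact absurd h heΛ
        · exact absurd h heη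
      · intro h
        exact absurd h h2

theorem bridge {β : ℝ} (hβ : 0 ≤ β) (W : Finset (Vx d)) (Λ : Finset (Ed d)) (N : ℕ)
    (hW : ∀ e ∈ Λ, (Zl d).s e ∈ W ∧ (Zl d).r e ∈ W) (hΛ : Λ ⊆ bE d N) (ξ : Cf d)
    (η : Finset (Ed d)) (hη : η ⊆ bE d N \ Λ)
    (hc : ∀ ω : Finset (Ed d), ω ⊆ Λ → ∀ e ∈ Λ,
      ((Zl d).Conn ((ω : Set (Ed d)) ∪ (opn ξ \ Λ)) ((Zl d).s e) ((Zl d).r e) ↔
        (Zl d).Conn ((ω : Set (Ed d)) ∪ η) ((Zl d).s e) ((Zl d).r e)))
    (X : Set (Cf d)) :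
    phiG β W Λ ξ X =
      (GN d N).fkE (setT (sb (bE d N) (bE d N \ Λ)) (sb (bE d N) η) (fun _ => Real.tanh β))
        (fun ω' => ind (glue Λ ξ (vl ω') ∈ X)) := by
  set t := Real.tanh β with ht
  obtain ⟨ht0, ht1⟩ := tanh_mem β hβ
  rw [← ht] at ht0 ht1
  have h1t : 0 < 1 - t := by linarith
  set Λ' := bE d N with hΛ'
  set T := setT (sb Λ' (Λ' \ Λ)) (sb Λ' η) (fun _ => t) with hT
  obtain ⟨c, hc0, hcc⟩ := kG_bridge (Zl d) Λ Λ' hΛ W hW (opn ξ \ Λ)
    (fun e he => fun h => he.2 (Finset.mem_coe.2 h)) η hη hc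
  -- the weights agree up to a constant
  have hw : ∀ ω ∈ Λ.powerset, (GN d N).kap (sb Λ' (ω ∪ η)) * BR1_P T (sb Λ' (ω ∪ η)) =
      ((1 - t) ^ Λ.card / c) * fkw β W Λ ξ ω := by
    intro ω hω
    have hωΛ := Finset.mem_powerset.1 hω
    rw [hT, BR1_P_sb Λ Λ' η hΛ hη t ω hωΛ]
    have h2 := hcc ω hωΛ
    have h3 : (2 : ℝ) ^ kx W (glue Λ ξ ω) =
        2 ^ kG (Zl d) W ((ω : Set (Ed d)) ∪ (opn ξ \ Λ)) := by
      unfold kx kG
      rw [BR1_opn Λ ξ ω hωΛ]
    have h4 : (GN d N).kap (sb Λ' (ω ∪ η)) = ((Zl d).rs Λ').kap (sb Λ' (ω ∪ η)) := rfl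
    unfold fkw
    rw [h3, h4, exp_tanh, ← ht]
    have h5 : (1 - t) ^ Λ.card = (1 - t) ^ ω.card * (1 - t) ^ (Λ \ ω).card := by
      rw [← pow_add]
      congr 1
      rw [Finset.card_sdiff_of_subset hωΛ]
      have := Finset.card_le_card hωΛ
      omega
    rw [h5, div_pow, mul_pow]
    have h6 : (1 - t) ^ ω.card ≠ 0 := pow_ne_zero _ h1t.ne'
    field_simp
    linear_combination (-(t ^ ω.card)) * h2
  have key : ∀ g : Finset (Ed d) → ℝ,
      ∑ ω' : Finset ↥Λ', (GN d N).kap ω' * BR1_P T ω' * g (vl ω' ∩ Λ) =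
        ((1 - t) ^ Λ.card / c) * ∑ ω ∈ Λ.powerset, fkw β W Λ ξ ω * g ω := by
    intro g
    have hvs : ∀ ω ∈ Λ.powerset, vl (sb Λ' (ω ∪ η)) ∩ Λ = ω := by
      intro ω hω
      have hωΛ := Finset.mem_powerset.1 hω
      rw [vl_sb]
      ext x
      simp only [Finset.mem_inter, Finset.mem_union]
      constructor
      · rintro ⟨⟨h1 | h1, _⟩, h2⟩
        · exact h1
        · exact absurd h2 (Finset.mem_sdiff.1 (hη h1)).2
      · intro h
        exact ⟨⟨Or.inl h, hΛ (hωΛ h)⟩, hωΛ h⟩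
    have hinj : Set.InjOn (fun ω : Finset (Ed d) => sb Λ' (ω ∪ η))
        (Λ.powerset : Set (Finset (Ed d))) := by
      intro ω hω ω2 hω2 heq
      have h1 := hvs ω (Finset.mem_coe.1 hω)
      have h2 := hvs ω2 (Finset.mem_coe.1 hω2)
      dsimp only at heq
      rw [← h1, ← h2, heq]
    have h1 : ∑ ω' : Finset ↥Λ', (GN d N).kap ω' * BR1_P T ω' * g (vl ω' ∩ Λ) =
        ∑ ω' ∈ Λ.powerset.image (fun ω : Finset (Ed d) => sb Λ' (ω ∪ η)),
          (GN d N).kap ω' * BR1_P T ω' * g (vl ω' ∩ Λ) := by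
      symm
      refine Finset.sum_subset (Finset.subset_univ _) fun ω' _ hω' => ?_
      have h2 : BR1_P T ω' = 0 := by
        by_contra hne
        have h3 := BR1_P_zero Λ Λ' η t ω' hne
        exact hω' (Finset.mem_image.2 ⟨vl ω' ∩ Λ,
          Finset.mem_powerset.2 Finset.inter_subset_right, h3⟩)
      rw [h2, mul_zero, zero_mul]
    rw [h1, Finset.sum_image hinj, Finset.mul_sum]
    refine Finset.sum_congr rfl fun ω hω => ?_
    rw [hvs ω hω, hw ω hω]
    ring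
  have hC : (1 - t) ^ Λ.card / c ≠ 0 := (div_pos (pow_pos h1t _) hc0).ne'
  unfold phiG Gr.fkE
  rw [← fkS_one, fkS_eq, fkS_eq]
  have k1 := key (fun ω => ind (glue Λ ξ ω ∈ X))
  have k2 := key (fun _ => 1)
  have k3 : ∑ ω' : Finset ↥Λ', (GN d N).kap ω' * ((∏ e ∈ ω', T e) * ∏ e ∈ ω'ᶜ, (1 - T e)) *
      ind (glue Λ ξ (vl ω') ∈ X) = ∑ ω' : Finset ↥Λ', (GN d N).kap ω' * BR1_P T ω' *
        ind (glue Λ ξ (vl ω' ∩ Λ) ∈ X) := by
    refine Finset.sum_congr rfl fun ω' _ => ?_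
    rw [BR1_glue Λ ξ (vl ω') (vl ω' ∩ Λ) (fun e he => by simp [he])]
    rfl
  have k4 : ∑ ω' : Finset ↥Λ', (GN d N).kap ω' * ((∏ e ∈ ω', T e) * ∏ e ∈ ω'ᶜ, (1 - T e)) * 1 =
      ∑ ω' : Finset ↥Λ', (GN d N).kap ω' * BR1_P T ω' * 1 := rfl
  rw [k3, k4, k1, k2, mul_div_mul_left _ _ hC]
  simp only [mul_one]

end H82.IC

end S_H82_IC_BR1

section S_H82_IC_G1

/-!
# G1: geometry of the boxes

`nm x = max |x i|` (as a natural number, `0` if `d = 0`), `x ∈ bx d n ↔ nm x ≤ n`.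
* `mem_bdry`: (`1 ≤ d`): if `nm x = n` then some `|x i| = n` and `x ± e_i` is outside; conversely a neighbour `y` of `x` has `nm y ≤ nm x + 1`, so `nm x ≥ n`.
* `exit_box`: a path from `u ∈ Λ_n` to `y` with `nm y ≥ n`: take the first vertex `b` with `nm b = n` (if `nm u = n` it is `u`); all the edges before have both ends of norm `≤ n`
  (norms change by at most one at each step).  (If `nm y > n` use `conn_exit` with `D = bx n`: the exit vertex `x` has a neighbour outside, so `nm x = n`; if all vertices stay in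
  the box, the path itself is in `bE n` and `nm y = n`.  Or direct induction on the path: for every vertex `x` of it, either `(∃ b ∈ bdry, Conn (ω ∩ bE n) u b)` or
  (`nm x < n` and `Conn (ω ∩ bE n) u x`).)
* `box_conn`: change the coordinates one by one: `Conn (bE d n) x (Function.update x i a)` for `|a| ≤ n` (induction on the distance), then induction over the finset of coordinates.
* `exists_bE`: `F ⊆ bE n` for `n` large (`n = sup of nm of the ends`).
-/

set_option autoImplicit false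

open Finset

namespace H82.IC

variable {d : ℕ}

theorem G1_nm_le {n : ℕ} {x : Vx d} : nm x ≤ n ↔ ∀ i, (x i).natAbs ≤ n := by
  unfold nm
  rw [Finset.sup_le_iff]
  exact ⟨fun h i => h i (mem_univ i), fun h i _ => h i⟩

theorem G1_le_nm (x : Vx d) (i : Fin d) : (x i).natAbs ≤ nm x := G1_nm_le.1 le_rfl i

theorem mem_bx {n : ℕ} {x : Vx d} : x ∈ bx d n ↔ nm x ≤ n := by
  unfold bx
  rw [Fintype.mem_piFinset, G1_nm_le]
  refine forall_congr' fun i => ?_
  rw [Finset.mem_Icc]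
  omega

theorem mem_bx_abs {n : ℕ} {x : Vx d} : x ∈ bx d n ↔ ∀ i, |x i| ≤ (n : ℤ) := by
  rw [mem_bx, G1_nm_le]
  refine forall_congr' fun i => ?_
  rw [Int.abs_eq_natAbs, Nat.cast_le]

theorem mem_bE {n : ℕ} {e : Ed d} :
    e ∈ bE d n ↔ nm ((Zl d).s e) ≤ n ∧ nm ((Zl d).r e) ≤ n := by
  unfold bE
  rw [Finset.mem_filter, Finset.mem_product, mem_bx, mem_bx]
  exact ⟨fun h => ⟨h.1.1, h.2⟩, fun h => ⟨⟨h.1, mem_univ _⟩, h.2⟩⟩

theorem bE_mono {n m : ℕ} (h : n ≤ m) : bE d n ⊆ bE d m := by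
  intro e he
  rw [mem_bE] at he ⊢
  exact ⟨he.1.trans h, he.2.trans h⟩

theorem bx_mono {n m : ℕ} (h : n ≤ m) : bx d n ⊆ bx d m := by
  intro x hx
  rw [mem_bx] at hx ⊢
  exact hx.trans h

theorem card_bx (n : ℕ) : (bx d n).card = (2 * n + 1) ^ d := by
  unfold bx
  rw [Fintype.card_piFinset]
  simp only [Int.card_Icc, Finset.prod_const, Finset.card_univ, Fintype.card_fin]
  congr 1
  omega

theorem exists_bE (F : Finset (Ed d)) : ∃ n, F ⊆ bE d n := by
  refine ⟨F.sup (fun e => max (nm ((Zl d).s e)) (nm ((Zl d).r e))), fun e he => ?_⟩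
  have h1 : max (nm ((Zl d).s e)) (nm ((Zl d).r e)) ≤
      F.sup (fun e => max (nm ((Zl d).s e)) (nm ((Zl d).r e))) :=
    Finset.le_sup (f := fun e => max (nm ((Zl d).s e)) (nm ((Zl d).r e))) he
  rw [mem_bE]
  exact ⟨(le_max_left _ _).trans h1, (le_max_right _ _).trans h1⟩

theorem nm_zero : nm (0 : Vx d) = 0 := by
  have h : nm (0 : Vx d) ≤ 0 := G1_nm_le.2 fun i => by simp
  omega

theorem nm_eq_zero {x : Vx d} : nm x = 0 ↔ x = 0 := by
  constructor
  · intro h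
    funext i
    have h1 := G1_le_nm x i
    rw [h] at h1
    exact Int.natAbs_eq_zero.1 (Nat.le_zero.1 h1)
  · intro h
    rw [h, nm_zero]

theorem nm_neg (x : Vx d) : nm (-x) = nm x := by
  unfold nm
  simp only [Pi.neg_apply, Int.natAbs_neg]

theorem nm_add (x y : Vx d) : nm (x + y) ≤ nm x + nm y := by
  rw [G1_nm_le]
  intro i
  rw [Pi.add_apply]
  exact (Int.natAbs_add_le _ _).trans (add_le_add (G1_le_nm x i) (G1_le_nm y i))

theorem nm_sub (x y : Vx d) : nm (x - y) ≤ nm x + nm y := by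
  rw [sub_eq_add_neg, ← nm_neg y]
  exact nm_add x (-y)

theorem G1_single (i : Fin d) : nm (Pi.single i 1 : Vx d) ≤ 1 := by
  rw [G1_nm_le]
  intro j
  by_cases h : j = i
  · rw [h, Pi.single_eq_same]; simp
  · rw [Pi.single_eq_of_ne h]; simp

theorem G1_zadj {x y : Vx d} (h : Zadj x y) : nm y ≤ nm x + 1 := by
  obtain ⟨i, h | h⟩ := h
  · rw [h]
    exact (nm_add _ _).trans (Nat.add_le_add_left (G1_single i) _)
  · have h1 : y = x - Pi.single i 1 := by rw [h, add_sub_cancel_right]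
    rw [h1]
    exact (nm_sub _ _).trans (Nat.add_le_add_left (G1_single i) _)

theorem G1_adj {x y : Vx d} {ω : Set (Ed d)} (h : (Zl d).Adj ω x y) : Zadj x y := by
  obtain ⟨e, _, h | h⟩ := h
  · exact ⟨e.2, Or.inl (by rw [← h.1, ← h.2]; rfl)⟩
  · exact ⟨e.2, Or.inr (by rw [← h.1, ← h.2]; rfl)⟩

theorem nm_step {x y : Vx d} {ω : Set (Ed d)} (h : (Zl d).Adj ω x y) : nm y ≤ nm x + 1 :=
  G1_zadj (G1_adj h)

theorem mem_bdry (hd : 1 ≤ d) {n : ℕ} {x : Vx d} : x ∈ bdry d n ↔ nm x = n := by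
  classical
  unfold bdry
  rw [Finset.mem_filter]
  constructor
  · rintro ⟨h1, y, h2, h3⟩
    rw [mem_bx] at h1 h2
    have := G1_zadj h3
    omega
  · intro h
    refine ⟨mem_bx.2 h.le, ?_⟩
    have hne : (univ : Finset (Fin d)).Nonempty := ⟨⟨0, hd⟩, mem_univ _⟩
    obtain ⟨i, _, hi⟩ := Finset.exists_mem_eq_sup univ hne (fun i => (x i).natAbs)
    have hi' : (x i).natAbs = n := by
      rw [← h]
      exact hi.symm
    rcases le_or_gt 0 (x i) with h0 | h0
    · refine ⟨x + Pi.single i 1, ?_, i, Or.inl rfl⟩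
      rw [mem_bx, G1_nm_le]
      intro h4
      have h5 := h4 i
      rw [Pi.add_apply, Pi.single_eq_same] at h5
      omega
    · refine ⟨x - Pi.single i 1, ?_, i, Or.inr (by rw [sub_add_cancel])⟩
      rw [mem_bx, G1_nm_le]
      intro h4
      have h5 := h4 i
      rw [Pi.sub_apply, Pi.single_eq_same] at h5
      omega

theorem G1_poe (hd : 1 ≤ d) {n : ℕ} {ω : Set (Ed d)} {u y : Vx d} (hu : nm u ≤ n)
    (h : (Zl d).Conn ω u y) :
    ((Zl d).Conn (ω ∩ bE d n) u y ∧ nm y ≤ n) ∨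
      ∃ b ∈ bdry d n, (Zl d).Conn (ω ∩ bE d n) u b := by
  induction h with
  | refl => exact Or.inl ⟨conn_refl _ _ _, hu⟩
  | @tail y z _ hyz ih =>
    rcases ih with ⟨h1, h2⟩ | h1
    · rcases le_or_gt (nm z) n with h3 | h3
      · left
        refine ⟨Relation.ReflTransGen.tail h1 ?_, h3⟩
        obtain ⟨e, he, hor⟩ := hyz
        refine ⟨e, ⟨he, ?_⟩, hor⟩
        rw [Finset.mem_coe, mem_bE]
        rcases hor with h4 | h4
        · rw [h4.1, h4.2]; exact ⟨h2, h3⟩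
        · rw [h4.1, h4.2]; exact ⟨h3, h2⟩
      · right
        have h4 := nm_step hyz
        exact ⟨y, (mem_bdry hd).2 (by omega), h1⟩
    · exact Or.inr h1

theorem exit_box (hd : 1 ≤ d) {n : ℕ} {ω : Set (Ed d)} {u y : Vx d} (hu : nm u ≤ n) (hy : n ≤ nm y)
    (h : (Zl d).Conn ω u y) : ∃ b ∈ bdry d n, (Zl d).Conn (ω ∩ bE d n) u b := by
  rcases G1_poe hd hu h with ⟨h1, h2⟩ | h1
  · exact ⟨y, (mem_bdry hd).2 (le_antisymm h2 hy), h1⟩
  · exact h1

/-- a path inside `Λ_n`, or an exit. -/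
theorem path_or_exit (hd : 1 ≤ d) {n : ℕ} {ω : Set (Ed d)} {u y : Vx d} (hu : nm u ≤ n)
    (h : (Zl d).Conn ω u y) :
    (Zl d).Conn (ω ∩ bE d n) u y ∨ ∃ b ∈ bdry d n, (Zl d).Conn (ω ∩ bE d n) u b := by
  rcases G1_poe hd hu h with ⟨h1, _⟩ | h1
  · exact Or.inl h1
  · exact Or.inr h1

theorem G1_conn_zero {n : ℕ} : ∀ (k : ℕ) (u : Vx d), ∑ i, (u i).natAbs = k → nm u ≤ n →
    (Zl d).Conn (bE d n : Set (Ed d)) u 0 := by
  intro k
  induction k with
  | zero =>
    intro u hu _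
    have h1 : u = 0 := by
      funext i
      have h2 := (Finset.sum_eq_zero_iff.1 hu) i (mem_univ i)
      exact Int.natAbs_eq_zero.1 h2
    rw [h1]
    exact conn_refl _ _ _
  | succ k ih =>
    intro u hu hn
    have h1 : ∃ i, u i ≠ 0 := by
      by_contra hcon
      rw [not_exists] at hcon
      have h2 : ∑ i, (u i).natAbs = 0 := by
        refine Finset.sum_eq_zero fun i _ => ?_
        rw [Int.natAbs_eq_zero]
        exact not_not.1 (hcon i)
      omega
    obtain ⟨i, hi⟩ := h1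
    have hs := Finset.add_sum_erase univ (fun j => (u j).natAbs) (mem_univ i)
    rcases lt_or_gt_of_ne hi with h0 | h0
    · -- u i < 0
      have hs' := Finset.add_sum_erase univ (fun j => ((u + Pi.single i 1 : Vx d) j).natAbs) (mem_univ i)
      have he : ∑ j ∈ univ.erase i, ((u + Pi.single i 1 : Vx d) j).natAbs =
          ∑ j ∈ univ.erase i, (u j).natAbs := by
        refine Finset.sum_congr rfl fun j hj => ?_
        rw [Pi.add_apply, Pi.single_eq_of_ne (Finset.ne_of_mem_erase hj), add_zero]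
      have hi1 : ((u + Pi.single i 1 : Vx d) i).natAbs + 1 = (u i).natAbs := by
        rw [Pi.add_apply, Pi.single_eq_same]; omega
      have hn' : nm (u + Pi.single i 1) ≤ n := by
        rw [G1_nm_le]
        intro j
        have h2 := (G1_le_nm u j).trans hn
        by_cases hj : j = i
        · rw [hj]
          have h3 := (G1_le_nm u i).trans hn
          omega
        · rw [Pi.add_apply, Pi.single_eq_of_ne hj, add_zero]; exact h2
      have h3 := ih (u + Pi.single i 1) (by omega) hn'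
      have h4 : ((u, i) : Ed d) ∈ (bE d n : Set (Ed d)) := by
        rw [Finset.mem_coe, mem_bE]
        exact ⟨hn, hn'⟩
      exact conn_trans _ (conn_edge (Zl d) h4) h3
    · have hs' := Finset.add_sum_erase univ (fun j => ((u - Pi.single i 1 : Vx d) j).natAbs) (mem_univ i)
      have he : ∑ j ∈ univ.erase i, ((u - Pi.single i 1 : Vx d) j).natAbs =
          ∑ j ∈ univ.erase i, (u j).natAbs := by
        refine Finset.sum_congr rfl fun j hj => ?_
        rw [Pi.sub_apply, Pi.single_eq_of_ne (Finset.ne_of_mem_erase hj), sub_zero]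
      have hi1 : ((u - Pi.single i 1 : Vx d) i).natAbs + 1 = (u i).natAbs := by
        rw [Pi.sub_apply, Pi.single_eq_same]; omega
      have hn' : nm (u - Pi.single i 1) ≤ n := by
        rw [G1_nm_le]
        intro j
        have h2 := (G1_le_nm u j).trans hn
        by_cases hj : j = i
        · rw [hj]
          have h3 := (G1_le_nm u i).trans hn
          omega
        · rw [Pi.sub_apply, Pi.single_eq_of_ne hj, sub_zero]; exact h2
      have h3 := ih (u - Pi.single i 1) (by omega) hn'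
      have hr : (Zl d).r (u - Pi.single i 1, i) = u := by
        change u - Pi.single i 1 + Pi.single i 1 = u
        rw [sub_add_cancel]
      have h4 : ((u - Pi.single i 1, i) : Ed d) ∈ (bE d n : Set (Ed d)) := by
        rw [Finset.mem_coe, mem_bE]
        exact ⟨hn', by rw [hr]; exact hn⟩
      have h5 := conn_edge (Zl d) h4
      rw [hr] at h5
      exact conn_trans _ (conn_symm _ h5) h3

theorem box_conn {n : ℕ} {u v : Vx d} (hu : nm u ≤ n) (hv : nm v ≤ n) :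
    (Zl d).Conn (bE d n : Set (Ed d)) u v :=
  conn_trans _ (G1_conn_zero _ u rfl hu) (conn_symm _ (G1_conn_zero _ v rfl hv))

/-- every path is contained in some box. -/
theorem conn_in_box {ω : Set (Ed d)} {u v : Vx d} (h : (Zl d).Conn ω u v) :
    ∃ n, (Zl d).Conn (ω ∩ bE d n) u v := by
  induction h with
  | refl => exact ⟨0, conn_refl _ _ _⟩
  | @tail y z _ hyz ih =>
    obtain ⟨n, hn⟩ := ih
    obtain ⟨e, he, hor⟩ := hyz
    obtain ⟨m, hm⟩ := exists_bE ({e} : Finset (Ed d))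
    have hem : e ∈ bE d m := hm (Finset.mem_singleton_self e)
    refine ⟨max n m, Relation.ReflTransGen.tail (b := y) ?_ ?_⟩
    · refine conn_mono _ ?_ hn
      exact Set.inter_subset_inter_right _ (Finset.coe_subset.2 (bE_mono (le_max_left n m)))
    · exact ⟨e, ⟨he, Finset.mem_coe.2 (bE_mono (le_max_right n m) hem)⟩, hor⟩

end H82.IC

end S_H82_IC_G1

section S_H82_IC_HO

/-!
# HO: monotonicity in the edge parameters (Holley) and FKG

`fkE t f = ∑ ω, μ_t ω * f ω` with `μ_t ω = kap ω (∏_{ω} t)(∏_{ωᶜ} (1-t)) / z t 0 ≥ 0`, `∑ μ_t = 1` (`fkS_eq`, `fkS_one`, `one_le_z`).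

* `fkE_holley`: Mathlib's `holley` (Combinatorics/SetFamily/FourFunctions) with `f = μ_t`, `g = μ_{t'}` on the distributive lattice `Finset E`, and
  `μ = F - (inf of F)` or `μ = F + constant` (to be nonnegative; `∑ μ_t = ∑ μ_{t'} = 1` so constants drop).  Lattice condition:
  `μ_t a * μ_{t'} b ≤ μ_t (a ∩ b) * μ_{t'} (a ∪ b)`: from `kap_mul_le` and edge by edge: writing the products as products over all `e` of
  `if e ∈ a then t e else 1 - t e`, the edge factor on the left is `≤` that on the right: both in: equal; none: equal; `e ∈ a \ b`: `t (1-t') ≤ (1-t) t'`;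
  `e ∈ b \ a`: `(1-t) t'` equal.
* `fkE_fkg`: Mathlib's `fkg` with `μ = μ_t` (or `four_functions_theorem_univ`).
-/

set_option autoImplicit false

open Finset

namespace H82.IC

variable {V E : Type*} [Fintype E] [DecidableEq E]

/-- the product weight of a configuration -/
noncomputable def HO_P (t : E → ℝ) (ω : Finset E) : ℝ := ∏ e, (if e ∈ ω then t e else 1 - t e)

theorem HO_P_eq (t : E → ℝ) (ω : Finset E) :
    (∏ e ∈ ω, t e) * ∏ e ∈ ωᶜ, (1 - t e) = HO_P t ω := by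
  unfold HO_P
  rw [← Finset.prod_mul_prod_compl ω (fun e => if e ∈ ω then t e else 1 - t e)]
  congr 1
  · exact Finset.prod_congr rfl fun e he => (if_pos he).symm
  · exact Finset.prod_congr rfl fun e he => (if_neg (Finset.mem_compl.1 he)).symm

theorem HO_P_nonneg {t : E → ℝ} (ht : T01 t) (ω : Finset E) : 0 ≤ HO_P t ω := by
  unfold HO_P
  refine Finset.prod_nonneg fun e _ => ?_
  have := ht e
  split_ifs
  · exact this.1
  · linarith [this.2]

theorem HO_P_mul_le {t t' : E → ℝ} (ht : T01 t) (ht' : T01 t') (htt : ∀ e, t e ≤ t' e)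
    (a b : Finset E) : HO_P t a * HO_P t' b ≤ HO_P t (a ∩ b) * HO_P t' (a ∪ b) := by
  unfold HO_P
  rw [← Finset.prod_mul_distrib, ← Finset.prod_mul_distrib]
  refine Finset.prod_le_prod (fun e _ => ?_) (fun e _ => ?_)
  · have h1 := ht e
    have h2 := ht' e
    apply mul_nonneg
    · split_ifs
      · exact h1.1
      · linarith [h1.2]
    · split_ifs
      · exact h2.1
      · linarith [h2.2]
  · have h1 := ht e
    have h2 := ht' e
    have h3 := htt e
    by_cases ha : e ∈ a <;> by_cases hb : e ∈ b <;> simp [ha, hb]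
    nlinarith

/-- the unnormalised FK weight -/
noncomputable def HO_m (Γ : Gr V E) (t : E → ℝ) (ω : Finset E) : ℝ := Γ.kap ω * HO_P t ω

theorem HO_kap_nonneg (Γ : Gr V E) (ω : Finset E) : 0 ≤ Γ.kap ω := by
  linarith [one_le_kap Γ ω]

theorem HO_m_nonneg (Γ : Gr V E) {t : E → ℝ} (ht : T01 t) (ω : Finset E) : 0 ≤ HO_m Γ t ω :=
  mul_nonneg (HO_kap_nonneg Γ ω) (HO_P_nonneg ht ω)

theorem HO_m_mul_le (Γ : Gr V E) {t t' : E → ℝ} (ht : T01 t) (ht' : T01 t')
    (htt : ∀ e, t e ≤ t' e) (a b : Finset E) :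
    HO_m Γ t a * HO_m Γ t' b ≤ HO_m Γ t (a ∩ b) * HO_m Γ t' (a ∪ b) := by
  unfold HO_m
  have h1 := kap_mul_le Γ a b
  have h2 := HO_P_mul_le ht ht' htt a b
  have h3 : 0 ≤ HO_P t a * HO_P t' b := mul_nonneg (HO_P_nonneg ht a) (HO_P_nonneg ht' b)
  have h4 : 0 ≤ Γ.kap (a ∩ b) * Γ.kap (a ∪ b) :=
    mul_nonneg (HO_kap_nonneg Γ _) (HO_kap_nonneg Γ _)
  have h5 := mul_le_mul h1 h2 h3 h4
  calc Γ.kap a * HO_P t a * (Γ.kap b * HO_P t' b)
      = Γ.kap a * Γ.kap b * (HO_P t a * HO_P t' b) := by ring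
    _ ≤ Γ.kap (a ∩ b) * Γ.kap (a ∪ b) * (HO_P t (a ∩ b) * HO_P t' (a ∪ b)) := h5
    _ = Γ.kap (a ∩ b) * HO_P t (a ∩ b) * (Γ.kap (a ∪ b) * HO_P t' (a ∪ b)) := by ring

theorem HO_fkS (Γ : Gr V E) (t : E → ℝ) (f : Finset E → ℝ) :
    Γ.fkS t f = ∑ ω : Finset E, HO_m Γ t ω * f ω := by
  rw [fkS_eq]
  refine Finset.sum_congr rfl fun ω _ => ?_
  rw [HO_P_eq]
  rfl

theorem HO_fkE (Γ : Gr V E) (t : E → ℝ) (f : Finset E → ℝ) :
    Γ.fkE t f = ∑ ω : Finset E, f ω * (HO_m Γ t ω / Γ.z t 0) := by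
  unfold Gr.fkE
  rw [HO_fkS, Finset.sum_div]
  refine Finset.sum_congr rfl fun ω _ => ?_
  ring

theorem fkE_holley (Γ : Gr V E) {t t' : E → ℝ} (ht : T01 t) (ht' : T01 t') (htt : ∀ e, t e ≤ t' e)
    {f : Finset E → ℝ} (hf : Monotone f) : Γ.fkE t f ≤ Γ.fkE t' f := by
  have hz : 0 < Γ.z t 0 := by linarith [one_le_z Γ ht]
  have hz' : 0 < Γ.z t' 0 := by linarith [one_le_z Γ ht']
  have hm1 : ∑ ω : Finset E, (HO_m Γ t ω / Γ.z t 0) = 1 := by
    have h := HO_fkE Γ t (fun _ => 1)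
    rw [fkE_one Γ ht] at h
    simpa using h.symm
  have hm2 : ∑ ω : Finset E, (HO_m Γ t' ω / Γ.z t' 0) = 1 := by
    have h := HO_fkE Γ t' (fun _ => 1)
    rw [fkE_one Γ ht'] at h
    simpa using h.symm
  have key := holley (μ := fun ω : Finset E => f ω - f ∅)
    (f := fun ω : Finset E => HO_m Γ t ω / Γ.z t 0)
    (g := fun ω : Finset E => HO_m Γ t' ω / Γ.z t' 0)
    (fun ω => sub_nonneg.mpr (hf (Finset.empty_subset ω)))
    (fun ω => div_nonneg (HO_m_nonneg Γ ht ω) hz.le)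
    (fun ω => div_nonneg (HO_m_nonneg Γ ht' ω) hz'.le)
    (fun a b hab => sub_le_sub_right (hf hab) _)
    (by rw [hm1, hm2])
    (fun a b => by
      show HO_m Γ t a / Γ.z t 0 * (HO_m Γ t' b / Γ.z t' 0) ≤
        HO_m Γ t (a ∩ b) / Γ.z t 0 * (HO_m Γ t' (a ∪ b) / Γ.z t' 0)
      rw [div_mul_div_comm, div_mul_div_comm]
      exact div_le_div_of_nonneg_right (HO_m_mul_le Γ ht ht' htt a b) (by positivity))
  simp only [sub_mul, Finset.sum_sub_distrib] at key
  rw [← Finset.mul_sum, ← Finset.mul_sum, hm1, hm2] at key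
  rw [HO_fkE, HO_fkE]
  linarith

theorem fkE_fkg (Γ : Gr V E) {t : E → ℝ} (ht : T01 t)
    {f g : Finset E → ℝ} (hf0 : ∀ ω, 0 ≤ f ω) (hg0 : ∀ ω, 0 ≤ g ω) (hf : Monotone f)
    (hg : Monotone g) : Γ.fkE t f * Γ.fkE t g ≤ Γ.fkE t (fun ω => f ω * g ω) := by
  have hz : 0 < Γ.z t 0 := by linarith [one_le_z Γ ht]
  have key := fkg (μ := fun ω : Finset E => HO_m Γ t ω) (f := f) (g := g)
    (fun ω => HO_m_nonneg Γ ht ω) hf0 hg0 hf hg
    (fun a b => HO_m_mul_le Γ ht ht (fun _ => le_rfl) a b)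
  have h1 : ∑ ω : Finset E, HO_m Γ t ω = Γ.z t 0 := by
    rw [← fkS_one, HO_fkS]
    simp
  rw [← HO_fkS, ← HO_fkS, h1, ← HO_fkS Γ t (fun ω => f ω * g ω)] at key
  unfold Gr.fkE
  rw [div_mul_div_comm, div_le_div_iff₀ (by positivity) hz]
  nlinarith

theorem tp_mono (Γ : Gr V E) {t t' : E → ℝ} (ht : T01 t) (ht' : T01 t') (htt : ∀ e, t e ≤ t' e)
    (u v : V) : Γ.tp t u v ≤ Γ.tp t' u v := by
  rw [← fkE_conn, ← fkE_conn]
  refine fkE_holley Γ ht ht' htt fun a b hab => ind_mono fun h => ?_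
  exact conn_mono Γ (Finset.coe_subset.mpr hab) h

theorem off_le {t : E → ℝ} (ht : T01 t) (K : Set E) (e : E) : off K t e ≤ t e := by
  unfold off
  split_ifs
  · exact (ht e).1
  · exact le_rfl

end H82.IC

end S_H82_IC_HO

section S_H82_IC_FCT

/-!
# FCT: factorisation of trace sums on the event that the cluster of `o` equals `C`

`K = Γ.tch C` (edges touching `C`).  `wIn K w` = `w` on `K` and `δ_(0,closed)` off `K`; `wOut K w` = `w` off `K`, `δ_(0,closed)` on `K`.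
Let `hw : w e a false = 0` for `a ≠ 0`.  If `f ω` depends only on `ω \ K` then
  `trc w S (1[cl ω o = C] f) = trc (wIn K w) (S|_C) (1[cl ω o = C]) * trc (wOut K w) (S|_{C^c}) f`.

Proof.  RHS = sum over `(η₁, ω₁, η₂, ω₂)` of
 `ind (bd η₁ = S|_C) ind (cl ω₁ o = C) ∏ wIn * ind (bd η₂ = S|_{C^c}) f ω₂ ∏ wOut`; the products vanish unless `η₁ = 0` and closed off `K` (i.e. support of `η₁`
and `ω₁` contained in `K`), `η₂ = 0` and closed on `K`.  LHS: `(η, ω)` with `η₁ = K.indicator η`, `ω₁ = ω ∩ K`, `η₂ = Kᶜ.indicator η`, `ω₂ = ω \ K`: this is a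
bijection between all `(η, ω)` and the quadruples with the support conditions (inverse: `η = η₁ + η₂`, `ω = ω₁ ∪ ω₂`),
`∏ e, w e (η e) (e ∈ ω) = (∏ e, wIn e (η₁ e) (e ∈ ω₁)) (∏ e, wOut e (η₂ e) (e ∈ ω₂))` termwise.
`cl ω o = C ↔ cl ω₁ o = C` by `cl_agree` (both directions: `ω` and `ω ∩ K` agree on the edges touching `C`).
`f ω = f ω₂`.  If `cl ω o = C` and the weight is nonzero (so support of `η` is contained in `ω`), every edge in the support of `η` has both or no end in `C`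
(`cl_end`), so by `bd_cut` `bd η₁ = C.indicator (bd η)`, `bd η₂ = bd η - bd η₁ = Cᶜ.indicator (bd η)`, hence
`bd η = S ↔ bd η₁ = S|_C ∧ bd η₂ = S|_{C^c}`.

* `trc_off_FK`, `trc_off_DT`: for the FK and double trace weights `wOut K (wFK t) = wFK (off K t)`, `wOut K (wDT t) = wDT (off K t)` (funext, cases).
* `trc_sum_cl`: every `ω` has exactly one cluster: the finite set `Γ.cls o` of all possible values of `cl ω o`.
-/

set_option autoImplicit false

open Finset

namespace H82.IC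

variable {V E : Type*} [Fintype E] [DecidableEq E]

/-- all possible clusters of `o`. -/
noncomputable def Gr.cls (Γ : Gr V E) (o : V) : Finset (Set V) :=
  open Classical in (univ : Finset (Finset E)).image (fun ω => Γ.cl (ω : Set E) o)

theorem mem_of_cls (Γ : Gr V E) (o : V) {C : Set V} (hC : C ∈ Γ.cls o) : o ∈ C := by
  classical
  unfold Gr.cls at hC
  obtain ⟨ω, -, hω⟩ := Finset.mem_image.1 hC
  rw [← hω]
  exact mem_cl_self Γ _ o

theorem FCT_trc {A : Type*} [AddCommGroup A] [Fintype A] (Γ : Gr V E) (w : E → A → Bool → ℝ)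
    (S : V → A) (f : Finset E → ℝ) :
    Γ.trc w S f = ∑ p : (E → A) × Finset E,
      ind (Γ.bd p.1 = S) * (f p.2 * ∏ e, w e (p.1 e) (decide (e ∈ p.2))) := by
  unfold Gr.trc
  rw [Fintype.sum_prod_type]

open Classical in
/-- the splitting of a pair -/
noncomputable def FCT_phi {A : Type*} [AddCommGroup A] (K : Set E) (p : (E → A) × Finset E) :
    ((E → A) × Finset E) × ((E → A) × Finset E) :=
  ((K.indicator p.1, p.2.filter (fun e => e ∈ K)), (Kᶜ.indicator p.1, p.2.filter (fun e => e ∉ K)))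

omit [Fintype E] in
theorem FCT_inj {A : Type*} [AddCommGroup A] (K : Set E) :
    Function.Injective (FCT_phi (A := A) (E := E) K) := by
  classical
  rintro ⟨η, ω⟩ ⟨η', ω'⟩ h
  unfold FCT_phi at h
  simp only [Prod.mk.injEq] at h
  obtain ⟨⟨h1, h2⟩, h3, h4⟩ := h
  apply Prod.ext
  · show η = η'
    rw [← Set.indicator_self_add_compl K η, ← Set.indicator_self_add_compl K η', h1, h3]
  · show ω = ω'
    ext e
    by_cases he : e ∈ K
    · have e1 : e ∈ ω.filter (fun e => e ∈ K) ↔ e ∈ ω'.filter (fun e => e ∈ K) := by rw [h2]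
      rw [Finset.mem_filter, Finset.mem_filter] at e1
      tauto
    · have e1 : e ∈ ω.filter (fun e => e ∉ K) ↔ e ∈ ω'.filter (fun e => e ∉ K) := by rw [h4]
      rw [Finset.mem_filter, Finset.mem_filter] at e1
      tauto

theorem FCT_term {A : Type*} [AddCommGroup A] (K : Set E) (w : E → A → Bool → ℝ)
    (p : (E → A) × Finset E) :
    (∏ e, w e (p.1 e) (decide (e ∈ p.2))) =
      (∏ e, wIn K w e ((FCT_phi K p).1.1 e) (decide (e ∈ (FCT_phi K p).1.2))) *
      ∏ e, wOut K w e ((FCT_phi K p).2.1 e) (decide (e ∈ (FCT_phi K p).2.2)) := by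
  classical
  rw [← Finset.prod_mul_distrib]
  refine Finset.prod_congr rfl fun e _ => ?_
  unfold FCT_phi wIn wOut
  by_cases he : e ∈ K
  · simp [he]
  · simp [he]

theorem FCT_out {A : Type*} [AddCommGroup A] (K : Set E) (w : E → A → Bool → ℝ)
    (q : ((E → A) × Finset E) × ((E → A) × Finset E))
    (h1 : (∏ e, wIn K w e (q.1.1 e) (decide (e ∈ q.1.2))) ≠ 0)
    (h2 : (∏ e, wOut K w e (q.2.1 e) (decide (e ∈ q.2.2))) ≠ 0) :
    ∃ p, FCT_phi K p = q := by
  classical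
  obtain ⟨⟨η₁, ω₁⟩, ⟨η₂, ω₂⟩⟩ := q
  rw [Finset.prod_ne_zero_iff] at h1 h2
  have k1 : ∀ e, e ∉ K → η₁ e = 0 ∧ e ∉ ω₁ := by
    intro e he
    have h := h1 e (Finset.mem_univ e)
    unfold wIn at h
    rw [if_neg he] at h
    by_contra hcon
    apply h
    rw [if_neg]
    rintro ⟨ha, hb⟩
    exact hcon ⟨ha, by simpa using hb⟩
  have k2 : ∀ e, e ∈ K → η₂ e = 0 ∧ e ∉ ω₂ := by
    intro e he
    have h := h2 e (Finset.mem_univ e)
    unfold wOut at h
    rw [if_pos he] at h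
    by_contra hcon
    apply h
    rw [if_neg]
    rintro ⟨ha, hb⟩
    exact hcon ⟨ha, by simpa using hb⟩
  refine ⟨(η₁ + η₂, ω₁ ∪ ω₂), ?_⟩
  unfold FCT_phi
  refine Prod.ext (Prod.ext ?_ ?_) (Prod.ext ?_ ?_)
  · funext e
    show K.indicator (η₁ + η₂) e = η₁ e
    by_cases he : e ∈ K
    · rw [Set.indicator_of_mem he, Pi.add_apply, (k2 e he).1, add_zero]
    · rw [Set.indicator_of_notMem he, (k1 e he).1]
  · ext e
    simp only [Finset.mem_filter, Finset.mem_union]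
    by_cases he : e ∈ K
    · have := (k2 e he).2
      tauto
    · have := (k1 e he).2
      tauto
  · funext e
    show Kᶜ.indicator (η₁ + η₂) e = η₂ e
    by_cases he : e ∈ K
    · rw [Set.indicator_of_notMem (show e ∉ Kᶜ from fun h => h he), (k2 e he).1]
    · rw [Set.indicator_of_mem (show e ∈ Kᶜ from he), Pi.add_apply, (k1 e he).1, zero_add]
  · ext e
    simp only [Finset.mem_filter, Finset.mem_union]
    by_cases he : e ∈ K
    · have := (k2 e he).2
      tauto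
    · have := (k1 e he).2
      tauto

omit [Fintype E] in
theorem FCT_cl {A : Type*} [AddCommGroup A] (Γ : Gr V E) (o : V) (C : Set V)
    (p : (E → A) × Finset E) :
    Γ.cl (p.2 : Set E) o = C ↔ Γ.cl ((FCT_phi (Γ.tch C) p).1.2 : Set E) o = C := by
  classical
  have hm : ∀ e, e ∈ Γ.tch C → (e ∈ (p.2 : Set E) ↔ e ∈ ((FCT_phi (Γ.tch C) p).1.2 : Set E)) := by
    intro e he
    unfold FCT_phi
    rw [Finset.mem_coe, Finset.mem_coe, Finset.mem_filter]
    exact ⟨fun h => ⟨h, he⟩, fun h => h.1⟩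
  constructor
  · intro h
    rw [← h]
    rw [← h] at hm
    exact cl_agree Γ hm
  · intro h
    have h2 := cl_agree Γ (ω := ((FCT_phi (Γ.tch C) p).1.2 : Set E)) (ω' := (p.2 : Set E)) (o := o)
      (fun e he => (hm e (by rwa [h] at he)).symm)
    rw [h2, h]

section General
variable {A : Type*} [AddCommGroup A] [Fintype A]

theorem trc_fact (Γ : Gr V E) (w : E → A → Bool → ℝ) (hw : ∀ e a, a ≠ 0 → w e a false = 0)
    (S : V → A) (o : V) (C : Set V) (f : Finset E → ℝ)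
    (hf : ∀ ω ω' : Finset E, (∀ e, e ∉ Γ.tch C → (e ∈ ω ↔ e ∈ ω')) → f ω = f ω') :
    Γ.trc w S (fun ω => ind (Γ.cl (ω : Set E) o = C) * f ω) =
      Γ.trc (wIn (Γ.tch C) w) (C.indicator S) (fun ω => ind (Γ.cl (ω : Set E) o = C)) *
        Γ.trc (wOut (Γ.tch C) w) (Cᶜ.indicator S) f := by
  classical
  rw [FCT_trc, FCT_trc, FCT_trc, Finset.sum_mul_sum, ← Finset.sum_product']
  refine Finset.sum_of_injOn (FCT_phi (Γ.tch C)) ((FCT_inj (Γ.tch C)).injOn)
    (fun _ _ => Finset.mem_coe.2 (Finset.mem_product.2 ⟨Finset.mem_univ _, Finset.mem_univ _⟩)) ?_ ?_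
  · intro q _ hq
    by_contra hne
    have h1 := left_ne_zero_of_mul hne
    have h2 := right_ne_zero_of_mul hne
    have h3 := right_ne_zero_of_mul (right_ne_zero_of_mul h1)
    have h4 := right_ne_zero_of_mul (right_ne_zero_of_mul h2)
    obtain ⟨p, hp⟩ := FCT_out (Γ.tch C) w q h3 h4
    exact hq ⟨p, Finset.mem_coe.2 (Finset.mem_univ p), hp⟩
  · intro p _
    have hcl := FCT_cl Γ o C p
    have hterm := FCT_term (Γ.tch C) w p
    have hf2 : f p.2 = f (FCT_phi (Γ.tch C) p).2.2 := by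
      apply hf
      intro e he
      unfold FCT_phi
      rw [Finset.mem_filter]
      exact ⟨fun h => ⟨h, he⟩, fun h => h.1⟩
    by_cases hC : Γ.cl (p.2 : Set E) o = C
    swap
    · rw [ind_false hC, ind_false (fun h => hC (hcl.2 h))]
      ring
    rw [ind_true hC, ind_true (hcl.1 hC), hf2]
    by_cases hz : (∏ e, w e (p.1 e) (decide (e ∈ p.2))) = 0
    · rw [hz] at hterm
      rw [hz]
      rcases mul_eq_zero.1 hterm.symm with h | h
      · rw [h]
        ring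
      · rw [h]
        ring
    rw [hterm]
    have hsup : ∀ e, p.1 e ≠ 0 → (Γ.s e ∈ C ↔ Γ.r e ∈ C) := by
      intro e he
      have h1 := Finset.prod_ne_zero_iff.1 hz e (Finset.mem_univ e)
      have h2 : e ∈ p.2 := by
        by_contra hne
        apply h1
        rw [decide_eq_false hne]
        exact hw e _ he
      rw [← hC]
      exact cl_end Γ (Finset.mem_coe.2 h2) o
    have hb1 := bd_cut Γ C p.1 hsup
    have hb2 : Γ.bd ((Γ.tch C)ᶜ.indicator p.1) = Cᶜ.indicator (Γ.bd p.1) := by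
      have h3 := bd_add Γ ((Γ.tch C).indicator p.1) ((Γ.tch C)ᶜ.indicator p.1)
      rw [Set.indicator_self_add_compl, hb1] at h3
      have h4 := Set.indicator_self_add_compl C (Γ.bd p.1)
      exact (add_left_cancel (h4.trans h3)).symm
    have hiff : Γ.bd p.1 = S ↔ (Γ.bd (FCT_phi (Γ.tch C) p).1.1 = C.indicator S ∧
        Γ.bd (FCT_phi (Γ.tch C) p).2.1 = Cᶜ.indicator S) := by
      show Γ.bd p.1 = S ↔ (Γ.bd ((Γ.tch C).indicator p.1) = C.indicator S ∧
        Γ.bd ((Γ.tch C)ᶜ.indicator p.1) = Cᶜ.indicator S)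
      rw [hb1, hb2]
      constructor
      · intro h
        rw [h]
        exact ⟨rfl, rfl⟩
      · rintro ⟨h5, h6⟩
        rw [← Set.indicator_self_add_compl C (Γ.bd p.1), h5, h6, Set.indicator_self_add_compl]
    have hind : ind (Γ.bd p.1 = S) = ind (Γ.bd (FCT_phi (Γ.tch C) p).1.1 = C.indicator S) *
        ind (Γ.bd (FCT_phi (Γ.tch C) p).2.1 = Cᶜ.indicator S) := by
      rw [← ind_and]
      exact congrArg ind (propext hiff)
    rw [hind]
    ring

theorem trc_sum_cl (Γ : Gr V E) (w : E → A → Bool → ℝ) (S : V → A) (o : V) (f : Finset E → ℝ) :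
    Γ.trc w S f = ∑ C ∈ Γ.cls o, Γ.trc w S (fun ω => ind (Γ.cl (ω : Set E) o = C) * f ω) := by
  classical
  rw [← trc_sum]
  congr 1
  funext ω
  rw [← Finset.sum_mul]
  have hmem : Γ.cl (ω : Set E) o ∈ Γ.cls o := by
    unfold Gr.cls
    refine Finset.mem_image.2 ⟨(ω : Set E), ?_, rfl⟩
    simp [Finset.bind_def, Finset.pure_def]
  rw [Finset.sum_eq_single (Γ.cl (ω : Set E) o) (fun C _ hne => ind_false (fun h => hne h.symm))
    (fun h => absurd hmem h), ind_true rfl, one_mul]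

end General

theorem wOut_FK (K : Set E) (t : E → ℝ) : wOut K (wFK t) = wFK (off K t) := by
  classical
  funext e a b
  unfold wOut wFK off
  by_cases he : e ∈ K
  · cases b <;> simp [he]
  · simp [he]

theorem wOut_DT (K : Set E) (t : E → ℝ) : wOut K (wDT t) = wDT (off K t) := by
  classical
  funext e a b
  unfold wOut wDT off
  by_cases he : e ∈ K
  · cases b <;> simp [he]
  · simp [he]

end H82.IC

end S_H82_IC_FCT

section S_H82_IC_FE

/-!
# FE: finite energy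

Write `W ω = kap ω (∏_{ω} t) (∏_{ωᶜ} (1-t))` (`fkS_eq`).
* closing: `kap (ω \ F) ≥ 2^{-|F|} kap ω` (`kap_le` with `ω ⊆ (ω \ F) ∪ F` and `kap_mono`), product factor: for `e ∈ ω ∩ F` we replace `t e ≤ 1` by `1 - t e`:
  `W (ω \ F) ≥ (∏_{e ∈ F} (1 - t e) / 2) W ω`.  Each `ω''` disjoint from `F` is `ω \ F` for `2^|F|` configurations `ω`, so for `f ≥ 0`
  `∑_ω f(ω \ F) W ω ≤ (∏ 2/(1-t e)) ∑_ω f(ω \ F) W(ω \ F) = (∏ 2/(1-t e)) 2^|F| ∑_{ω'' disjoint F} f(ω'') W(ω'')`.
  Stated without division: `(∏_{e∈F} (1 - t e)/4) * fkE t (fun ω => f (ω \ F)) ≤ fkE t (fun ω => ind (Disjoint ω F) * f ω)`.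
* opening: `kap (ω ∪ F) ≥ kap ω`, product factor: for `e ∈ F \ ω` replace `1 - t e ≤ 1` by `t e`: `W (ω ∪ F) ≥ (∏_{e ∈ F} t e) W ω`; each `ω'' ⊇ F` has `2^|F|`
  preimages: `(∏_{e∈F} t e / 2) * fkE t (fun ω => f (ω ∪ F)) ≤ fkE t (fun ω => ind (F ⊆ ω) * f ω)`.
* `tp_lower`: if `u`, `v` are connected inside `F` then `tp t u v ≥ ∏_{e ∈ F} t e / 2` (opening with `f = 1`).
-/

set_option autoImplicit false

open Finset

namespace H82.IC

variable {V E : Type*} [Fintype E] [DecidableEq E]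

theorem FE_sum (e : E) (g : Finset E → ℝ) :
    ∑ ω : Finset E, g ω = ∑ ω ∈ (univ.erase e).powerset, (g ω + g (insert e ω)) := by
  have h1 : (univ : Finset (Finset E)) = (insert e (univ.erase e)).powerset := by
    rw [insert_erase (mem_univ e), powerset_univ]
  rw [h1, sum_powerset_insert (notMem_erase e univ), sum_add_distrib]

theorem FE_notMem {e : E} {ω : Finset E} (h : ω ∈ (univ.erase e).powerset) : e ∉ ω :=
  fun he => notMem_erase e univ (mem_powerset.1 h he)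

/-- the product weight without the edge `e` -/
noncomputable def FE_P (t : E → ℝ) (e : E) (ω : Finset E) : ℝ := (∏ x ∈ ω, t x) * ∏ x ∈ ωᶜ.erase e, (1 - t x)

theorem FE_P_nonneg {t : E → ℝ} (ht : T01 t) (e : E) (ω : Finset E) : 0 ≤ FE_P t e ω :=
  mul_nonneg (prod_nonneg (fun x _ => (ht x).1)) (prod_nonneg (fun x _ => sub_nonneg.2 (ht x).2))

theorem FE_w0 (t : E → ℝ) {e : E} {ω : Finset E} (he : e ∉ ω) :
    (∏ x ∈ ω, t x) * ∏ x ∈ ωᶜ, (1 - t x) = (1 - t e) * FE_P t e ω := by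
  unfold FE_P
  rw [← mul_prod_erase ωᶜ (fun x => 1 - t x) (mem_compl.2 he)]
  ring

theorem FE_w1 (t : E → ℝ) {e : E} {ω : Finset E} (he : e ∉ ω) :
    (∏ x ∈ insert e ω, t x) * ∏ x ∈ (insert e ω)ᶜ, (1 - t x) = t e * FE_P t e ω := by
  unfold FE_P
  rw [prod_insert he, compl_insert]
  ring

theorem FE_div (Γ : Gr V E) {t : E → ℝ} (ht : T01 t) {c : ℝ} {f g : Finset E → ℝ}
    (h : c * Γ.fkS t f ≤ Γ.fkS t g) : c * Γ.fkE t f ≤ Γ.fkE t g := by
  unfold Gr.fkE
  rw [← mul_div_assoc]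
  exact div_le_div_of_nonneg_right h (by have := one_le_z Γ ht; linarith)

theorem FE_close1 (Γ : Gr V E) {t : E → ℝ} (ht : T01 t) (e : E) {f : Finset E → ℝ}
    (hf : ∀ ω, 0 ≤ f ω) :
    (1 - t e) / 4 * Γ.fkE t (fun ω => f (ω \ {e})) ≤ Γ.fkE t (fun ω => ind (e ∉ ω) * f ω) := by
  apply FE_div Γ ht
  rw [fkS_eq, fkS_eq, FE_sum e, FE_sum e, mul_sum]
  apply sum_le_sum
  intro ω hω
  have he := FE_notMem hω
  have h1 : ω \ {e} = ω := sdiff_eq_self_of_disjoint (disjoint_singleton_right.2 he)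
  have h2 : insert e ω \ {e} = ω := by
    rw [sdiff_singleton_eq_erase, erase_insert he]
  have h3 : Γ.kap (insert e ω) ≤ 2 * Γ.kap ω := by
    have := kap_le Γ ω {e}
    rw [card_singleton, pow_one, union_singleton] at this
    exact this
  rw [FE_w0 t he, FE_w1 t he, h1, h2, ind_true he, ind_false (by simp : ¬ (e ∉ insert e ω))]
  have hk : 1 ≤ Γ.kap ω := one_le_kap Γ ω
  have hP := FE_P_nonneg ht e ω
  have ht0 := (ht e).1
  have ht1 := (ht e).2
  have hfω := hf ω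
  have hs : 0 ≤ 1 - t e := by linarith
  have hPf : 0 ≤ FE_P t e ω * f ω := mul_nonneg hP hfω
  have key : (1 - t e) / 4 * (Γ.kap ω * (1 - t e) + Γ.kap (insert e ω) * t e) ≤ Γ.kap ω * (1 - t e) := by
    have h4 : Γ.kap ω * (1 - t e) + Γ.kap (insert e ω) * t e ≤ 2 * Γ.kap ω := by nlinarith
    calc _ ≤ (1 - t e) / 4 * (2 * Γ.kap ω) := by gcongr
      _ ≤ _ := by nlinarith
  calc _ = (1 - t e) / 4 * (Γ.kap ω * (1 - t e) + Γ.kap (insert e ω) * t e) * (FE_P t e ω * f ω) := by ring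
    _ ≤ Γ.kap ω * (1 - t e) * (FE_P t e ω * f ω) := by gcongr
    _ = _ := by ring

theorem FE_open1 (Γ : Gr V E) {t : E → ℝ} (ht : T01 t) (e : E) {f : Finset E → ℝ}
    (hf : ∀ ω, 0 ≤ f ω) :
    t e / 2 * Γ.fkE t (fun ω => f (insert e ω)) ≤ Γ.fkE t (fun ω => ind (e ∈ ω) * f ω) := by
  apply FE_div Γ ht
  rw [fkS_eq, fkS_eq, FE_sum e, FE_sum e, mul_sum]
  apply sum_le_sum
  intro ω hω
  have he := FE_notMem hω
  have h2 : insert e (insert e ω) = insert e ω := insert_idem e ω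
  have h3 : Γ.kap ω ≤ Γ.kap (insert e ω) := kap_mono Γ (subset_insert e ω)
  rw [FE_w0 t he, FE_w1 t he, h2, ind_false he, ind_true (mem_insert_self e ω)]
  have hk : 1 ≤ Γ.kap ω := one_le_kap Γ ω
  have hP := FE_P_nonneg ht e ω
  have ht0 := (ht e).1
  have ht1 := (ht e).2
  have hfω := hf (insert e ω)
  have hPf : 0 ≤ FE_P t e ω * f (insert e ω) := mul_nonneg hP hfω
  have key : t e / 2 * (Γ.kap ω * (1 - t e) + Γ.kap (insert e ω) * t e) ≤ Γ.kap (insert e ω) * t e := by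
    have h4 : Γ.kap ω * (1 - t e) + Γ.kap (insert e ω) * t e ≤ Γ.kap (insert e ω) := by nlinarith
    calc _ ≤ t e / 2 * Γ.kap (insert e ω) := by gcongr
      _ ≤ _ := by nlinarith
  calc _ = t e / 2 * (Γ.kap ω * (1 - t e) + Γ.kap (insert e ω) * t e) * (FE_P t e ω * f (insert e ω)) := by ring
    _ ≤ Γ.kap (insert e ω) * t e * (FE_P t e ω * f (insert e ω)) := by gcongr
    _ = _ := by ring

theorem fe_close (Γ : Gr V E) {t : E → ℝ} (ht : T01 t) (F : Finset E) {f : Finset E → ℝ}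
    (hf : ∀ ω, 0 ≤ f ω) :
    (∏ e ∈ F, (1 - t e) / 4) * Γ.fkE t (fun ω => f (ω \ F)) ≤
      Γ.fkE t (fun ω => ind (Disjoint ω F) * f ω) := by
  induction F using Finset.induction_on generalizing f with
  | empty =>
    rw [prod_empty, one_mul]
    apply le_of_eq
    congr 1
    funext ω
    rw [sdiff_empty, ind_true (disjoint_empty_right ω), one_mul]
  | insert e F he ih =>
    rw [prod_insert he]
    have h1 := ih (f := fun ω => f (ω \ {e})) (fun ω => hf _)
    have h2 := FE_close1 Γ ht e (f := fun ω => ind (Disjoint ω F) * f ω)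
      (fun ω => mul_nonneg (ind_nonneg _) (hf ω))
    have e1 : (fun ω : Finset E => (fun ω => f (ω \ {e})) (ω \ F)) = (fun ω => f (ω \ insert e F)) := by
      funext ω
      have : (ω \ F) \ {e} = ω \ insert e F := by
        ext x
        simp only [mem_sdiff, mem_singleton, mem_insert]
        tauto
      simp only
      rw [this]
    have e2 : (fun ω : Finset E => (fun ω => ind (Disjoint ω F) * f ω) (ω \ {e})) =
        (fun ω => ind (Disjoint ω F) * f (ω \ {e})) := by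
      funext ω
      have : Disjoint (ω \ {e}) F ↔ Disjoint ω F := by
        rw [disjoint_left, disjoint_left]
        constructor
        · intro h x hx hxF
          refine h (mem_sdiff.2 ⟨hx, ?_⟩) hxF
          rw [mem_singleton]
          rintro rfl
          exact he hxF
        · intro h x hx
          exact h (mem_sdiff.1 hx).1
      simp only
      rw [this]
    have e3 : (fun ω : Finset E => ind (e ∉ ω) * (fun ω => ind (Disjoint ω F) * f ω) ω) =
        (fun ω => ind (Disjoint ω (insert e F)) * f ω) := by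
      funext ω
      simp only
      rw [← mul_assoc, ← ind_and, disjoint_insert_right]
    rw [e1] at h1
    rw [e2, e3] at h2
    have h0 : 0 ≤ (1 - t e) / 4 := by have := (ht e).2; linarith
    calc _ = (1 - t e) / 4 * ((∏ e ∈ F, (1 - t e) / 4) * Γ.fkE t (fun ω => f (ω \ insert e F))) := by ring
      _ ≤ (1 - t e) / 4 * Γ.fkE t (fun ω => ind (Disjoint ω F) * f (ω \ {e})) := by gcongr
      _ ≤ _ := h2

theorem fe_open (Γ : Gr V E) {t : E → ℝ} (ht : T01 t) (F : Finset E) {f : Finset E → ℝ}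
    (hf : ∀ ω, 0 ≤ f ω) :
    (∏ e ∈ F, t e / 2) * Γ.fkE t (fun ω => f (ω ∪ F)) ≤
      Γ.fkE t (fun ω => ind (F ⊆ ω) * f ω) := by
  induction F using Finset.induction_on generalizing f with
  | empty =>
    rw [prod_empty, one_mul]
    apply le_of_eq
    congr 1
    funext ω
    rw [union_empty, ind_true (empty_subset ω), one_mul]
  | insert e F he ih =>
    rw [prod_insert he]
    have h1 := ih (f := fun ω => f (insert e ω)) (fun ω => hf _)
    have h2 := FE_open1 Γ ht e (f := fun ω => ind (F ⊆ ω) * f ω)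
      (fun ω => mul_nonneg (ind_nonneg _) (hf ω))
    have e1 : (fun ω : Finset E => (fun ω => f (insert e ω)) (ω ∪ F)) = (fun ω => f (ω ∪ insert e F)) := by
      funext ω
      have : insert e (ω ∪ F) = ω ∪ insert e F := by
        ext x
        simp only [mem_union, mem_insert]
        tauto
      simp only
      rw [this]
    have e2 : (fun ω : Finset E => (fun ω => ind (F ⊆ ω) * f ω) (insert e ω)) =
        (fun ω => ind (F ⊆ ω) * f (insert e ω)) := by
      funext ω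
      have : F ⊆ insert e ω ↔ F ⊆ ω := subset_insert_iff_of_notMem he
      simp only
      rw [this]
    have e3 : (fun ω : Finset E => ind (e ∈ ω) * (fun ω => ind (F ⊆ ω) * f ω) ω) =
        (fun ω => ind (insert e F ⊆ ω) * f ω) := by
      funext ω
      simp only
      rw [← mul_assoc, ← ind_and, insert_subset_iff]
    rw [e1] at h1
    rw [e2, e3] at h2
    have h0 : 0 ≤ t e / 2 := by have := (ht e).1; linarith
    calc _ = t e / 2 * ((∏ e ∈ F, t e / 2) * Γ.fkE t (fun ω => f (ω ∪ insert e F))) := by ring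
      _ ≤ t e / 2 * Γ.fkE t (fun ω => ind (F ⊆ ω) * f (insert e ω)) := by gcongr
      _ ≤ _ := h2

theorem tp_lower (Γ : Gr V E) {t : E → ℝ} (ht : T01 t) (F : Finset E) {u v : V}
    (h : Γ.Conn (F : Set E) u v) : (∏ e ∈ F, t e / 2) ≤ Γ.tp t u v := by
  have h1 := fe_open Γ ht F (f := fun _ => 1) (fun _ => zero_le_one)
  rw [fkE_one Γ ht, mul_one] at h1
  refine h1.trans ?_
  rw [← fkE_conn]
  apply fkE_le Γ ht
  intro ω
  rw [mul_one]
  exact ind_mono (fun hF => conn_mono Γ (by exact_mod_cast hF) h)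

end H82.IC

end S_H82_IC_FE

section S_H82_IC_ISO

/-!
# ISO: transfer of FK expectations between two finite graphs with the same free edges

`j : Λ → E`, `j' : Λ → E'` injective maps of a finite type of edges into the edges of two graphs `Γ`, `Γ'`; `η`, `η'` finsets of edges disjoint from the images of `j`, `j'`.
`ttf j η t0`: parameter `1` on `η`, `t0 a` on `j a`, `0` elsewhere.
Hypothesis `hc`: for all `ω : Finset Λ` and `a ∉ ω`: the two ends of `j a` are connected in `j '' ω ∪ η` iff the two ends of `j' a` are connected in `j' '' ω ∪ η'`.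
* `kap_ratio`: `kap (j '' ω ∪ η) = c * kap' (j' '' ω ∪ η')` for all `ω`, with `c > 0` independent of `ω`: induction on `ω` with `kap_insert` in both graphs (`c` = ratio at `ω = ∅`, `one_le_kap`).
* `fk_iso`: `fkS_eq`: under `ttf j η t0` the weight of `ω'` vanishes unless `ω' = j '' ω ∪ η` for the (unique) `ω = {a | j a ∈ ω'}` (a factor `1 - 1 = 0` if an edge of `η` is closed, a factor `0`
  if an edge outside `η ∪ range j` is open), and it is then `kap(j '' ω ∪ η) ∏_{a ∈ ω} t0 a ∏_{a ∉ ω} (1 - t0 a)`.  So `fkS (f ∘ pull) = ∑_ω kap(..)∏∏ f ω = c *` the same for `Γ'`; take the quotient with `f = 1`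
  (`z t 0 = fkS t 1`).
* `tp_iso`: take `f = indicator of the connection` and use `hc2`: `x ↔ y` in `j '' ω ∪ η` iff `x' ↔ y'` in `j' '' ω ∪ η'`, for all `ω`; together with `fkE_conn` and the support of the measure.
-/

set_option autoImplicit false

open Finset

namespace H82.IC

variable {V V' E E' Λ : Type*} [Fintype E] [DecidableEq E] [Fintype E'] [DecidableEq E']
  [Fintype Λ] [DecidableEq Λ]

/-- parameters: `1` on `η`, `t0` on the image of `j`, `0` elsewhere. -/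
noncomputable def ttf {E Λ : Type*} (j : Λ → E) (η : Finset E) (t0 : Λ → ℝ) (e : E) : ℝ :=
  open Classical in if e ∈ η then 1 else if h : ∃ a, j a = e then t0 h.choose else 0

/-- pull back of a configuration. -/
noncomputable def pul {E Λ : Type*} [Fintype Λ] (j : Λ → E) (ω : Finset E) : Finset Λ :=
  open Classical in univ.filter (fun a => j a ∈ ω)

theorem ISO_coe {E Λ : Type*} [DecidableEq E] (j : Λ → E) (η : Finset E) (ω : Finset Λ) :
    ((ω.image j ∪ η : Finset E) : Set E) = j '' (ω : Set Λ) ∪ (η : Set E) := by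
  rw [Finset.coe_union, Finset.coe_image]

theorem kap_ratio (Γ : Gr V E) (Γ' : Gr V' E') (j : Λ → E) (j' : Λ → E')
    (hj : Function.Injective j) (hj' : Function.Injective j') (η : Finset E) (η' : Finset E')
    (hη : ∀ a, j a ∉ η) (hη' : ∀ a, j' a ∉ η')
    (hc : ∀ (ω : Finset Λ) (a : Λ), a ∉ ω →
      (Γ.Conn (j '' (ω : Set Λ) ∪ (η : Set E)) (Γ.s (j a)) (Γ.r (j a)) ↔
        Γ'.Conn (j' '' (ω : Set Λ) ∪ (η' : Set E')) (Γ'.s (j' a)) (Γ'.r (j' a)))) :
    ∃ c : ℝ, 0 < c ∧ ∀ ω : Finset Λ,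
      Γ.kap (ω.image j ∪ η) = c * Γ'.kap (ω.image j' ∪ η') := by
  have h1 : 0 < Γ.kap η := lt_of_lt_of_le one_pos (one_le_kap Γ η)
  have h2 : 0 < Γ'.kap η' := lt_of_lt_of_le one_pos (one_le_kap Γ' η')
  refine ⟨Γ.kap η / Γ'.kap η', div_pos h1 h2, fun ω => ?_⟩
  induction ω using Finset.induction_on with
  | empty =>
    rw [Finset.image_empty, Finset.image_empty, Finset.empty_union, Finset.empty_union,
      div_mul_cancel₀ _ h2.ne']
  | @insert a ω ha ih =>
    have h3 : j a ∉ ω.image j ∪ η := by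
      rw [Finset.mem_union, Finset.mem_image]
      rintro (⟨b, hb, hba⟩ | h)
      · rw [hj hba] at hb
        exact ha hb
      · exact hη a h
    have h4 : j' a ∉ ω.image j' ∪ η' := by
      rw [Finset.mem_union, Finset.mem_image]
      rintro (⟨b, hb, hba⟩ | h)
      · rw [hj' hba] at hb
        exact ha hb
      · exact hη' a h
    rw [Finset.image_insert, Finset.image_insert, Finset.insert_union, Finset.insert_union,
      kap_insert Γ h3, kap_insert Γ' h4, ih, ISO_coe, ISO_coe, KA_congr (hc ω a ha), mul_assoc]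

theorem ISO_eta {E Λ : Type*} (j : Λ → E) (η : Finset E) (t0 : Λ → ℝ) {e : E} (h : e ∈ η) :
    ttf j η t0 e = 1 := by
  classical
  unfold ttf
  rw [if_pos h]

theorem ISO_j {E Λ : Type*} (j : Λ → E) (hj : Function.Injective j) (η : Finset E) (t0 : Λ → ℝ)
    {a : Λ} (h : j a ∉ η) : ttf j η t0 (j a) = t0 a := by
  classical
  unfold ttf
  have h2 : ∃ b, j b = j a := ⟨a, rfl⟩
  rw [if_neg h, dif_pos h2, hj h2.choose_spec]

theorem ISO_out {E Λ : Type*} (j : Λ → E) (η : Finset E) (t0 : Λ → ℝ) {e : E} (h : e ∉ η)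
    (h2 : ¬ ∃ a, j a = e) : ttf j η t0 e = 0 := by
  classical
  unfold ttf
  rw [if_neg h, dif_neg h2]

theorem ISO_mem_pul {E Λ : Type*} [Fintype Λ] (j : Λ → E) (ω : Finset E) (a : Λ) :
    a ∈ pul j ω ↔ j a ∈ ω := by
  classical
  unfold pul
  rw [Finset.mem_filter]
  exact ⟨fun h => h.2, fun h => ⟨mem_univ _, h⟩⟩

theorem ISO_pul (j : Λ → E) (hj : Function.Injective j) (η : Finset E) (hη : ∀ a, j a ∉ η)
    (ω : Finset Λ) : pul j (ω.image j ∪ η) = ω := by
  ext a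
  rw [ISO_mem_pul, Finset.mem_union, Finset.mem_image]
  constructor
  · rintro (⟨b, hb, hba⟩ | h)
    · rwa [hj hba] at hb
    · exact absurd h (hη a)
  · intro h
    exact Or.inl ⟨a, h, rfl⟩

theorem ISO_fkS (Γ : Gr V E) (j : Λ → E) (hj : Function.Injective j) (η : Finset E)
    (hη : ∀ a, j a ∉ η) (t0 : Λ → ℝ) (F : Finset E → ℝ) :
    Γ.fkS (ttf j η t0) F = ∑ ω : Finset Λ, Γ.kap (ω.image j ∪ η) *
      ((∏ a ∈ ω, t0 a) * ∏ a ∈ ωᶜ, (1 - t0 a)) * F (ω.image j ∪ η) := by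
  rw [fkS_eq]
  symm
  refine Finset.sum_of_injOn (fun ω : Finset Λ => ω.image j ∪ η) ?_ ?_ ?_ ?_
  · intro ω _ ω' _ h
    have h1 : ω.image j ∪ η = ω'.image j ∪ η := h
    rw [← ISO_pul j hj η hη ω, ← ISO_pul j hj η hη ω', h1]
  · intro ω _
    exact Finset.mem_coe.2 (mem_univ _)
  · intro ω' _ hω'
    by_contra hne
    apply hω'
    have h1 : (∏ e ∈ ω', ttf j η t0 e) ≠ 0 := by
      intro h
      apply hne
      rw [h]; ring
    have h2 : (∏ e ∈ ω'ᶜ, (1 - ttf j η t0 e)) ≠ 0 := by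
      intro h
      apply hne
      rw [h]; ring
    rw [Finset.prod_ne_zero_iff] at h1 h2
    refine ⟨pul j ω', Finset.mem_coe.2 (mem_univ _), ?_⟩
    change (pul j ω').image j ∪ η = ω'
    ext e
    rw [Finset.mem_union, Finset.mem_image]
    constructor
    · rintro (⟨a, ha, hae⟩ | h)
      · rw [ISO_mem_pul, hae] at ha
        exact ha
      · by_contra he
        apply h2 e (Finset.mem_compl.2 he)
        rw [ISO_eta j η t0 h, sub_self]
    · intro he
      by_cases h : e ∈ η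
      · exact Or.inr h
      · left
        by_cases h3 : ∃ a, j a = e
        · obtain ⟨a, ha⟩ := h3
          exact ⟨a, by rw [ISO_mem_pul, ha]; exact he, ha⟩
        · exact absurd (ISO_out j η t0 h h3) (h1 e he)
  · intro ω _
    change Γ.kap (ω.image j ∪ η) * ((∏ a ∈ ω, t0 a) * ∏ a ∈ ωᶜ, (1 - t0 a)) *
      F (ω.image j ∪ η) = Γ.kap (ω.image j ∪ η) * ((∏ e ∈ ω.image j ∪ η, ttf j η t0 e) *
        ∏ e ∈ (ω.image j ∪ η)ᶜ, (1 - ttf j η t0 e)) * F (ω.image j ∪ η)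
    have hd : Disjoint (ω.image j) η := by
      rw [Finset.disjoint_left]
      intro e he he'
      obtain ⟨a, _, ha⟩ := Finset.mem_image.1 he
      rw [← ha] at he'
      exact hη a he'
    have h1 : ∏ e ∈ ω.image j ∪ η, ttf j η t0 e = ∏ a ∈ ω, t0 a := by
      rw [Finset.prod_union hd, Finset.prod_image (fun a _ b _ hab => hj hab)]
      have h2 : ∏ e ∈ η, ttf j η t0 e = 1 := Finset.prod_eq_one fun e he => ISO_eta j η t0 he
      rw [h2, mul_one]
      exact Finset.prod_congr rfl fun a _ => ISO_j j hj η t0 (hη a)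
    have h3 : ∏ e ∈ (ω.image j ∪ η)ᶜ, (1 - ttf j η t0 e) = ∏ a ∈ ωᶜ, (1 - t0 a) := by
      have h4 : ∏ e ∈ (ωᶜ).image j, (1 - ttf j η t0 e) =
          ∏ e ∈ (ω.image j ∪ η)ᶜ, (1 - ttf j η t0 e) := by
        refine Finset.prod_subset ?_ ?_
        · intro e he
          obtain ⟨a, ha, hae⟩ := Finset.mem_image.1 he
          rw [Finset.mem_compl] at ha ⊢
          rw [Finset.mem_union, Finset.mem_image]
          rintro (⟨b, hb, hbe⟩ | h)
          · rw [← hae] at hbe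
            rw [hj hbe] at hb
            exact ha hb
          · rw [← hae] at h
            exact hη a h
        · intro e he he'
          rw [Finset.mem_compl, Finset.mem_union, not_or] at he
          have h5 : ¬ ∃ a, j a = e := by
            rintro ⟨a, ha⟩
            by_cases h6 : a ∈ ω
            · exact he.1 (Finset.mem_image.2 ⟨a, h6, ha⟩)
            · exact he' (Finset.mem_image.2 ⟨a, Finset.mem_compl.2 h6, ha⟩)
          rw [ISO_out j η t0 he.2 h5, sub_zero]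
      rw [← h4, Finset.prod_image (fun a _ b _ hab => hj hab)]
      exact Finset.prod_congr rfl fun a _ => by rw [ISO_j j hj η t0 (hη a)]
    rw [h1, h3]

theorem fk_iso (Γ : Gr V E) (Γ' : Gr V' E') (j : Λ → E) (j' : Λ → E')
    (hj : Function.Injective j) (hj' : Function.Injective j') (η : Finset E) (η' : Finset E')
    (hη : ∀ a, j a ∉ η) (hη' : ∀ a, j' a ∉ η')
    (hc : ∀ (ω : Finset Λ) (a : Λ), a ∉ ω →
      (Γ.Conn (j '' (ω : Set Λ) ∪ (η : Set E)) (Γ.s (j a)) (Γ.r (j a)) ↔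
        Γ'.Conn (j' '' (ω : Set Λ) ∪ (η' : Set E')) (Γ'.s (j' a)) (Γ'.r (j' a))))
    (t0 : Λ → ℝ) (ht : T01 t0) (f : Finset Λ → ℝ) :
    Γ.fkE (ttf j η t0) (fun ω => f (pul j ω)) = Γ'.fkE (ttf j' η' t0) (fun ω => f (pul j' ω)) := by
  obtain ⟨c, hc0, hk⟩ := kap_ratio Γ Γ' j j' hj hj' η η' hη hη' hc
  have h1 : ∀ g : Finset Λ → ℝ, Γ.fkS (ttf j η t0) (fun ω => g (pul j ω)) =
      c * Γ'.fkS (ttf j' η' t0) (fun ω => g (pul j' ω)) := by
    intro g
    rw [ISO_fkS Γ j hj η hη, ISO_fkS Γ' j' hj' η' hη', Finset.mul_sum]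
    refine Finset.sum_congr rfl fun ω _ => ?_
    rw [ISO_pul j hj η hη, ISO_pul j' hj' η' hη', hk]
    ring
  have h2 := h1 (fun _ => 1)
  unfold Gr.fkE
  rw [← fkS_one, ← fkS_one, h1, h2, mul_div_mul_left _ _ hc0.ne']

theorem tp_iso (Γ : Gr V E) (Γ' : Gr V' E') (j : Λ → E) (j' : Λ → E')
    (hj : Function.Injective j) (hj' : Function.Injective j') (η : Finset E) (η' : Finset E')
    (hη : ∀ a, j a ∉ η) (hη' : ∀ a, j' a ∉ η')
    (hc : ∀ (ω : Finset Λ) (a : Λ), a ∉ ω →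
      (Γ.Conn (j '' (ω : Set Λ) ∪ (η : Set E)) (Γ.s (j a)) (Γ.r (j a)) ↔
        Γ'.Conn (j' '' (ω : Set Λ) ∪ (η' : Set E')) (Γ'.s (j' a)) (Γ'.r (j' a))))
    (t0 : Λ → ℝ) (ht : T01 t0) (x y : V) (x' y' : V')
    (hc2 : ∀ ω : Finset Λ, (Γ.Conn (j '' (ω : Set Λ) ∪ (η : Set E)) x y ↔
        Γ'.Conn (j' '' (ω : Set Λ) ∪ (η' : Set E')) x' y')) :
    Γ.tp (ttf j η t0) x y = Γ'.tp (ttf j' η' t0) x' y' := by
  obtain ⟨c, hc0, hk⟩ := kap_ratio Γ Γ' j j' hj hj' η η' hη hη' hc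
  have h1 : Γ.fkS (ttf j η t0) (fun ω => ind (Γ.Conn (ω : Set E) x y)) =
      c * Γ'.fkS (ttf j' η' t0) (fun ω => ind (Γ'.Conn (ω : Set E') x' y')) := by
    rw [ISO_fkS Γ j hj η hη, ISO_fkS Γ' j' hj' η' hη', Finset.mul_sum]
    refine Finset.sum_congr rfl fun ω _ => ?_
    rw [hk, ISO_coe, ISO_coe, KA_congr (hc2 ω)]
    ring
  have h2 : Γ.fkS (ttf j η t0) (fun _ => 1) = c * Γ'.fkS (ttf j' η' t0) (fun _ => 1) := by
    rw [ISO_fkS Γ j hj η hη, ISO_fkS Γ' j' hj' η' hη', Finset.mul_sum]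
    refine Finset.sum_congr rfl fun ω _ => ?_
    rw [hk]
    ring
  rw [← fkE_conn, ← fkE_conn]
  unfold Gr.fkE
  rw [← fkS_one, ← fkS_one, h1, h2, mul_div_mul_left _ _ hc0.ne']

end H82.IC

end S_H82_IC_ISO
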