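import Mathlib
import Pool.Agent.H82.IC.Defs

/-! MP_c4c051_pr: this file joins several modules to save build time. -/

section S_H82_IC_GPD

/-!
# GPD: the Gaussian kernel is positive definite; Cauchy-Schwarz

`exp(-(β/2) ∑ (p e - q e)^2) = exp(-(β/2)|p|^2) exp(-(β/2)|q|^2) exp(β p·q)`, so with `c' i = c i exp(-(β/2)|p i|^2)` it suffices that `∑_{i,j} c' i c' j exp(β p_i·p_j) ≥ 0`.
`exp x = ∑' k, x^k/k!` (`Real.exp_eq_tsum` / `NormedSpace.expSeries`), finite sums commute with the (summable) series, and for each `k`: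
`(∑ e, p e q e)^k = ∑_{f : Fin k → C} ∏ j, p (f j) q (f j)` (`Finset.sum_pow'` / `Finset.prod_univ_sum`), so `∑_{i,j} c' i c' j (p_i·p_j)^k = ∑_f (∑_i c' i ∏ j, p i (f j))^2 ≥ 0`.
`gauss_cs`: apply `gauss_pd` to the index type `ι ⊕ κ`, points `p`, `q`, coefficients `A i`, `-x * B j`: `a - 2 x b + x^2 c ≥ 0` for all real `x` implies `b^2 ≤ a c` (`discrim_le_zero`, or choose `x` by hand).
-/

set_option autoImplicit false

open Finset

namespace H82.IC

theorem GPD_key {ι C : Type*} [Fintype ι] [Fintype C] (p : ι → C → ℝ) (c : ι → ℝ) (k : ℕ) :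
    0 ≤ ∑ i, ∑ j, c i * c j * (∑ e, p i e * p j e) ^ k := by
  have h1 : ∑ i, ∑ j, c i * c j * (∑ e, p i e * p j e) ^ k =
      ∑ f : Fin k → C, (∑ i, c i * ∏ a, p i (f a)) ^ 2 := by
    have h2 : ∀ i j, c i * c j * (∑ e, p i e * p j e) ^ k =
        ∑ f : Fin k → C, (c i * ∏ a, p i (f a)) * (c j * ∏ a, p j (f a)) := by
      intro i j
      rw [Fintype.sum_pow, Finset.mul_sum]
      refine Finset.sum_congr rfl fun f _ => ?_
      rw [Finset.prod_mul_distrib]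
      ring
    simp only [h2]
    have h3 : ∀ i, ∑ j, ∑ f : Fin k → C, (c i * ∏ a, p i (f a)) * (c j * ∏ a, p j (f a)) =
        ∑ f : Fin k → C, ∑ j, (c i * ∏ a, p i (f a)) * (c j * ∏ a, p j (f a)) := fun i =>
      Finset.sum_comm
    simp only [h3]
    rw [Finset.sum_comm]
    refine Finset.sum_congr rfl fun f _ => ?_
    rw [sq, Finset.sum_mul_sum]
  rw [h1]
  exact Finset.sum_nonneg fun f _ => sq_nonneg _

theorem GPD_exp {ι C : Type*} [Fintype ι] [Fintype C] {β : ℝ} (hβ : 0 ≤ β) (p : ι → C → ℝ)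
    (c : ι → ℝ) :
    0 ≤ ∑ i, ∑ j, c i * c j * Real.exp (β * ∑ e, p i e * p j e) := by
  have h1 : HasSum (fun k : ℕ => ∑ i, ∑ j, c i * c j *
      ((β * ∑ e, p i e * p j e) ^ k / (k.factorial : ℝ)))
      (∑ i, ∑ j, c i * c j * Real.exp (β * ∑ e, p i e * p j e)) := by
    refine hasSum_sum fun i _ => hasSum_sum fun j _ => ?_
    have h2 := NormedSpace.expSeries_div_hasSum_exp (β * ∑ e, p i e * p j e)
    rw [← Real.exp_eq_exp_ℝ] at h2
    exact h2.mul_left (c i * c j)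
  refine h1.nonneg fun k => ?_
  have h3 : ∑ i, ∑ j, c i * c j * ((β * ∑ e, p i e * p j e) ^ k / (k.factorial : ℝ)) =
      (β ^ k / (k.factorial : ℝ)) * ∑ i, ∑ j, c i * c j * (∑ e, p i e * p j e) ^ k := by
    rw [Finset.mul_sum]
    refine Finset.sum_congr rfl fun i _ => ?_
    rw [Finset.mul_sum]
    refine Finset.sum_congr rfl fun j _ => ?_
    rw [mul_pow]
    ring
  rw [h3]
  exact mul_nonneg (div_nonneg (pow_nonneg hβ _) (Nat.cast_nonneg _)) (GPD_key p c k)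

theorem gauss_pd {ι C : Type*} [Fintype ι] [Fintype C] {β : ℝ} (hβ : 0 ≤ β) (p : ι → C → ℝ)
    (c : ι → ℝ) :
    0 ≤ ∑ i, ∑ j, c i * c j * Real.exp (-(β / 2) * ∑ e, (p i e - p j e) ^ 2) := by
  have h := GPD_exp hβ p (fun i => c i * Real.exp (-(β / 2) * ∑ e, (p i e) ^ 2))
  refine h.trans (le_of_eq ?_)
  refine Finset.sum_congr rfl fun i _ => Finset.sum_congr rfl fun j _ => ?_
  have h1 : -(β / 2) * ∑ e, (p i e - p j e) ^ 2 = -(β / 2) * ∑ e, (p i e) ^ 2 +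
      -(β / 2) * ∑ e, (p j e) ^ 2 + β * ∑ e, p i e * p j e := by
    rw [Finset.mul_sum, Finset.mul_sum, Finset.mul_sum, Finset.mul_sum, ← Finset.sum_add_distrib,
      ← Finset.sum_add_distrib]
    refine Finset.sum_congr rfl fun e _ => ?_
    ring
  rw [h1, Real.exp_add, Real.exp_add]
  ring

theorem gauss_cs {ι κ C : Type*} [Fintype ι] [Fintype κ] [Fintype C] {β : ℝ} (hβ : 0 ≤ β)
    (p : ι → C → ℝ) (q : κ → C → ℝ) (A : ι → ℝ) (B : κ → ℝ) :
    (∑ i, ∑ j, A i * B j * Real.exp (-(β / 2) * ∑ e, (p i e - q j e) ^ 2)) ^ 2 ≤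
      (∑ i, ∑ j, A i * A j * Real.exp (-(β / 2) * ∑ e, (p i e - p j e) ^ 2)) *
        (∑ i, ∑ j, B i * B j * Real.exp (-(β / 2) * ∑ e, (q i e - q j e) ^ 2)) := by
  obtain ⟨a, ha⟩ : ∃ a, a = ∑ i, ∑ j, A i * A j * Real.exp (-(β / 2) * ∑ e, (p i e - p j e) ^ 2) :=
    ⟨_, rfl⟩
  obtain ⟨b, hb⟩ : ∃ b, b = ∑ i, ∑ j, A i * B j * Real.exp (-(β / 2) * ∑ e, (p i e - q j e) ^ 2) :=
    ⟨_, rfl⟩
  obtain ⟨d, hd⟩ : ∃ d, d = ∑ i, ∑ j, B i * B j * Real.exp (-(β / 2) * ∑ e, (q i e - q j e) ^ 2) :=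
    ⟨_, rfl⟩
  have hb' : ∑ j, ∑ i, B j * A i * Real.exp (-(β / 2) * ∑ e, (q j e - p i e) ^ 2) = b := by
    rw [hb, Finset.sum_comm]
    refine Finset.sum_congr rfl fun i _ => Finset.sum_congr rfl fun j _ => ?_
    have : ∑ e, (q j e - p i e) ^ 2 = ∑ e, (p i e - q j e) ^ 2 :=
      Finset.sum_congr rfl fun e _ => by ring
    rw [this]
    ring
  have key : ∀ x : ℝ, 0 ≤ d * (x * x) + (-2 * b) * x + a := by
    intro x
    have h := gauss_pd hβ (Sum.elim p q) (Sum.elim A (fun j => -x * B j))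
    rw [Fintype.sum_sum_type] at h
    simp only [Fintype.sum_sum_type, Sum.elim_inl, Sum.elim_inr, Finset.sum_add_distrib] at h
    have e1 : ∑ i, ∑ j, A i * (-x * B j) * Real.exp (-(β / 2) * ∑ e, (p i e - q j e) ^ 2) =
        -x * b := by
      rw [hb, Finset.mul_sum]
      refine Finset.sum_congr rfl fun i _ => ?_
      rw [Finset.mul_sum]
      refine Finset.sum_congr rfl fun j _ => ?_
      ring
    have e2 : ∑ j, ∑ i, -x * B j * A i * Real.exp (-(β / 2) * ∑ e, (q j e - p i e) ^ 2) =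
        -x * b := by
      rw [← hb', Finset.mul_sum]
      refine Finset.sum_congr rfl fun i _ => ?_
      rw [Finset.mul_sum]
      refine Finset.sum_congr rfl fun j _ => ?_
      ring
    have e3 : ∑ i, ∑ j, -x * B i * (-x * B j) * Real.exp (-(β / 2) * ∑ e, (q i e - q j e) ^ 2) =
        x * x * d := by
      rw [hd, Finset.mul_sum]
      refine Finset.sum_congr rfl fun i _ => ?_
      rw [Finset.mul_sum]
      refine Finset.sum_congr rfl fun j _ => ?_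
      ring
    rw [e1, e2, e3, ← ha] at h
    linarith
  have hdis := discrim_le_zero key
  rw [discrim] at hdis
  rw [← ha, ← hb, ← hd]
  nlinarith

end H82.IC

end S_H82_IC_GPD

section S_H82_IC_RP1

/-!
# RP1: reflection positivity for Ising spins with an edge field (abstract graph)

`Zh β h = ∑_σ ∏_e exp(-(β/2) (σ(s e) - σ(r e) + h e)^2)`, `σ : V → Bool`, `sp true = 1`, `sp false = -1`.
`Rfl Γ`: an involution `th` of the vertices exchanging `L` and its complement, an involution `ta` of the edges compatible with `th`: `os e = true`: orientation preserved,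
`os e = false`: orientation reversed; every edge has both ends in `L`, or no end in `L`, or it is a crossing edge: exactly one end in `L`, and then `r e = th (s e)` (so `ta e` has the same
two ends; we also ask `ta e = e` for crossing edges).
`foldL h`: `h` on the edges inside `L`, `± h (ta e)` on the edges inside the complement (sign `+` iff `os e = true`), `0` on the crossing edges.  `foldR h` symmetric.
THEOREM `rp`: `(Zh h)^2 ≤ Zh (foldL h) * Zh (foldR h)`.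
Proof.  A configuration `σ : V → Bool` is a pair (`σ` on `L`, `σ` on `Lᶜ`); through `th` identify configurations of `Lᶜ` with configurations `τ` of `L`: so sum over pairs `(σ, τ)` of functions on the subtype `L`
(value at `x ∈ L`: `σ x`; at `x ∉ L`: `τ (th x)`).  `A σ = ∏_{e inside L} exp(-(β/2)(σ(s e) - σ(r e) + h e)^2)`, `B τ = ∏_{e inside Lᶜ} exp(-(β/2)(τ(th (s e)) - τ(th (r e)) + h e)^2)`,
crossing edge `e` with `s e ∈ L`: factor `exp(-(β/2)(σ(s e) + h e - τ(s e))^2)` (`th (r e) = s e`), crossing with `s e ∉ L`, `r e ∈ L`: `(τ(r e) - σ(r e) + h e)^2 = (σ(r e) - h e - τ(r e))^2`.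
So `Zh h = ∑_{σ,τ} A σ B τ exp(-(β/2) ∑_{e crossing} (p σ e - q τ e)^2)` with `p σ e = σ(left end) ± h e`, `q τ e = τ(left end)`; apply `gauss_cs` (`C` = type of the crossing edges):
`∑_{σ,σ'} A σ A σ' exp(-(β/2) ∑ (p σ e - p σ' e)^2)`: the `h e` cancel, and this is `Zh (foldL h)`: for `σ'` on the complement side the product over the edges `e` inside `Lᶜ` of the folded field is `A σ'`
(reindex by `ta`, which maps the edges inside `Lᶜ` bijectively onto the edges inside `L`; the sign rule makes the factors equal, `(-x)^2 = x^2`).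
In the same way `∑ B B exp = Zh (foldR h)` (for `foldR`: on edges inside `L` the field is `± h (ta e)`).
-/

set_option autoImplicit false

open Finset

namespace H82.IC

/-- spin value. -/
def sp (b : Bool) : ℝ := if b = true then 1 else -1

section
variable {V E : Type*}

/-- reflection data. -/
structure Rfl (Γ : Gr V E) where
  L : Set V
  th : V → V
  ta : E → E
  os : E → Bool
  th_th : ∀ x, th (th x) = x
  ta_ta : ∀ e, ta (ta e) = e
  os_ta : ∀ e, os (ta e) = os e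
  th_L : ∀ x, th x ∈ L ↔ x ∉ L
  keep : ∀ e, os e = true → Γ.s (ta e) = th (Γ.s e) ∧ Γ.r (ta e) = th (Γ.r e)
  rev : ∀ e, os e = false → Γ.s (ta e) = th (Γ.r e) ∧ Γ.r (ta e) = th (Γ.s e)
  cross : ∀ e, ¬ (Γ.s e ∈ L ↔ Γ.r e ∈ L) → Γ.r e = th (Γ.s e) ∧ ta e = e

noncomputable def Rfl.foldL {Γ : Gr V E} (R : Rfl Γ) (h : E → ℝ) : E → ℝ :=
  open Classical in
  fun e => if Γ.s e ∈ R.L ∧ Γ.r e ∈ R.L then h e
    else if Γ.s e ∉ R.L ∧ Γ.r e ∉ R.L then (if R.os e = true then h (R.ta e) else - h (R.ta e))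
    else 0

noncomputable def Rfl.foldR {Γ : Gr V E} (R : Rfl Γ) (h : E → ℝ) : E → ℝ :=
  open Classical in
  fun e => if Γ.s e ∉ R.L ∧ Γ.r e ∉ R.L then h e
    else if Γ.s e ∈ R.L ∧ Γ.r e ∈ R.L then (if R.os e = true then h (R.ta e) else - h (R.ta e))
    else 0

end

variable {V E : Type*} [Fintype V] [DecidableEq V] [Fintype E] [DecidableEq E]

/-- partition function with an edge field. -/
noncomputable def Gr.Zh (Γ : Gr V E) (β : ℝ) (h : E → ℝ) : ℝ :=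
  ∑ σ : V → Bool, ∏ e, Real.exp (-(β / 2) * (sp (σ (Γ.s e)) - sp (σ (Γ.r e)) + h e) ^ 2)

section
variable {V E : Type*} {Γ : Gr V E}

/-- glue two configurations of the left part. -/
noncomputable def RP1_glu (R : Rfl Γ) (σ τ : R.L → Bool) : V → Bool :=
  open Classical in
  fun x => if h : x ∈ R.L then σ ⟨x, h⟩ else τ ⟨R.th x, (R.th_L x).mpr h⟩

theorem RP1_glu_mem (R : Rfl Γ) (σ τ : R.L → Bool) {x : V} (h : x ∈ R.L) :
    RP1_glu R σ τ x = σ ⟨x, h⟩ := by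
  rw [RP1_glu, dif_pos h]

theorem RP1_glu_not (R : Rfl Γ) (σ τ : R.L → Bool) {x : V} (h : x ∉ R.L) :
    RP1_glu R σ τ x = τ ⟨R.th x, (R.th_L x).mpr h⟩ := by
  rw [RP1_glu, dif_neg h]

/-- configurations are pairs of configurations of the left part. -/
noncomputable def RP1_eqv (R : Rfl Γ) : (R.L → Bool) × (R.L → Bool) ≃ (V → Bool) where
  toFun p := RP1_glu R p.1 p.2
  invFun ω := (fun x => ω x.1, fun x => ω (R.th x.1))
  left_inv := by
    rintro ⟨σ, τ⟩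
    refine Prod.ext ?_ ?_
    · funext x
      exact RP1_glu_mem R σ τ x.2
    · funext x
      have h : R.th x.1 ∉ R.L := fun h => (R.th_L x.1).mp h x.2
      change RP1_glu R σ τ (R.th x.1) = τ x
      rw [RP1_glu_not R σ τ h]
      congr 1
      exact Subtype.ext (R.th_th x.1)
  right_inv := by
    intro ω
    funext x
    change RP1_glu R (fun x => ω x.1) (fun x => ω (R.th x.1)) x = ω x
    by_cases h : x ∈ R.L
    · rw [RP1_glu_mem _ _ _ h]
    · rw [RP1_glu_not _ _ _ h]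
      change ω (R.th (R.th x)) = ω x
      rw [R.th_th]

/-- spin of the symmetric extension. -/
noncomputable def RP1_S (R : Rfl Γ) (σ : R.L → Bool) (x : V) : ℝ := sp (RP1_glu R σ σ x)

theorem RP1_S_th (R : Rfl Γ) (σ : R.L → Bool) (x : V) : RP1_S R σ (R.th x) = RP1_S R σ x := by
  unfold RP1_S
  by_cases h : x ∈ R.L
  · have h' : R.th x ∉ R.L := fun h1 => (R.th_L x).mp h1 h
    rw [RP1_glu_mem R σ σ h, RP1_glu_not R σ σ h']
    have : (⟨R.th (R.th x), (R.th_L (R.th x)).mpr h'⟩ : R.L) = ⟨x, h⟩ :=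
      Subtype.ext (R.th_th x)
    rw [this]
  · have h' : R.th x ∈ R.L := (R.th_L x).mpr h
    rw [RP1_glu_mem R σ σ h', RP1_glu_not R σ σ h]

theorem RP1_glu_L (R : Rfl Γ) (σ τ : R.L → Bool) {x : V} (h : x ∈ R.L) :
    sp (RP1_glu R σ τ x) = RP1_S R σ x := by
  unfold RP1_S
  rw [RP1_glu_mem R σ τ h, RP1_glu_mem R σ σ h]

theorem RP1_glu_R (R : Rfl Γ) (σ τ : R.L → Bool) {x : V} (h : x ∉ R.L) :
    sp (RP1_glu R σ τ x) = RP1_S R τ x := by
  unfold RP1_S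
  rw [RP1_glu_not R σ τ h, RP1_glu_not R τ τ h]

/-- weight of an edge. -/
noncomputable def RP1_w (R : Rfl Γ) (β : ℝ) (h : E → ℝ) (σ : R.L → Bool) (e : E) : ℝ :=
  Real.exp (-(β / 2) * (RP1_S R σ (Γ.s e) - RP1_S R σ (Γ.r e) + h e) ^ 2)

/-- left part. -/
noncomputable def RP1_A [Fintype E] (R : Rfl Γ) (β : ℝ) (h : E → ℝ) (σ : R.L → Bool) : ℝ :=
  open Classical in
  ∏ e, if Γ.s e ∈ R.L ∧ Γ.r e ∈ R.L then RP1_w R β h σ e else 1

/-- right part. -/
noncomputable def RP1_B [Fintype E] (R : Rfl Γ) (β : ℝ) (h : E → ℝ) (σ : R.L → Bool) : ℝ :=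
  open Classical in
  ∏ e, if Γ.s e ∉ R.L ∧ Γ.r e ∉ R.L then RP1_w R β h σ e else 1

/-- spin at a crossing edge. -/
noncomputable def RP1_q (R : Rfl Γ) (σ : R.L → Bool) (e : E) : ℝ :=
  open Classical in
  if (Γ.s e ∈ R.L ↔ Γ.r e ∈ R.L) then 0 else RP1_S R σ (Γ.s e)

/-- field at a crossing edge. -/
noncomputable def RP1_c (R : Rfl Γ) (h : E → ℝ) (e : E) : ℝ :=
  open Classical in
  if (Γ.s e ∈ R.L ↔ Γ.r e ∈ R.L) then 0 else if Γ.s e ∈ R.L then h e else - h e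

theorem RP1_edge (R : Rfl Γ) (β : ℝ) (h : E → ℝ) (σ τ : R.L → Bool) (e : E) :
    Real.exp (-(β / 2) * (sp (RP1_glu R σ τ (Γ.s e)) - sp (RP1_glu R σ τ (Γ.r e)) + h e) ^ 2) =
      (open Classical in if Γ.s e ∈ R.L ∧ Γ.r e ∈ R.L then RP1_w R β h σ e else 1) *
      (open Classical in if Γ.s e ∉ R.L ∧ Γ.r e ∉ R.L then RP1_w R β h τ e else 1) *
      Real.exp (-(β / 2) * ((RP1_q R σ e + RP1_c R h e) - RP1_q R τ e) ^ 2) := by
  by_cases hs : Γ.s e ∈ R.L <;> by_cases hr : Γ.r e ∈ R.L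
  · rw [if_pos ⟨hs, hr⟩, if_neg (fun h => h.1 hs), RP1_q, RP1_q, RP1_c,
      if_pos (iff_of_true hs hr), if_pos (iff_of_true hs hr), if_pos (iff_of_true hs hr),
      RP1_glu_L R σ τ hs, RP1_glu_L R σ τ hr, RP1_w]
    simp
  · have hc : ¬ (Γ.s e ∈ R.L ↔ Γ.r e ∈ R.L) := fun h => hr (h.mp hs)
    rw [if_neg (fun h => hr h.2), if_neg (fun h => h.1 hs), RP1_q, RP1_q, RP1_c,
      if_neg hc, if_neg hc, if_neg hc, if_pos hs,
      RP1_glu_L R σ τ hs, RP1_glu_R R σ τ hr, (R.cross e hc).1, RP1_S_th, one_mul, one_mul]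
    congr 2
    ring
  · have hc : ¬ (Γ.s e ∈ R.L ↔ Γ.r e ∈ R.L) := fun h => hs (h.mpr hr)
    rw [if_neg (fun h => hs h.1), if_neg (fun h => h.2 hr), RP1_q, RP1_q, RP1_c,
      if_neg hc, if_neg hc, if_neg hc, if_neg hs,
      RP1_glu_R R σ τ hs, RP1_glu_L R σ τ hr, (R.cross e hc).1, RP1_S_th, one_mul, one_mul]
    congr 2
    ring
  · rw [if_neg (fun h => hs h.1), if_pos ⟨hs, hr⟩, RP1_q, RP1_q, RP1_c,
      if_pos (iff_of_false hs hr), if_pos (iff_of_false hs hr), if_pos (iff_of_false hs hr),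
      RP1_glu_R R σ τ hs, RP1_glu_R R σ τ hr, RP1_w]
    simp

theorem RP1_Zh [Fintype V] [DecidableEq V] [Fintype E] [DecidableEq E] (R : Rfl Γ) (β : ℝ)
    (h : E → ℝ) [Fintype (R.L → Bool)] :
    Γ.Zh β h = ∑ σ : R.L → Bool, ∑ τ : R.L → Bool, RP1_A R β h σ * RP1_B R β h τ *
      Real.exp (-(β / 2) * ∑ e, ((RP1_q R σ e + RP1_c R h e) - RP1_q R τ e) ^ 2) := by
  classical
  rw [Gr.Zh, ← Equiv.sum_comp (RP1_eqv R), Fintype.sum_prod_type]
  apply Finset.sum_congr rfl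
  intro σ _
  apply Finset.sum_congr rfl
  intro τ _
  rw [Finset.mul_sum, Real.exp_sum, RP1_A, RP1_B, ← Finset.prod_mul_distrib,
    ← Finset.prod_mul_distrib]
  apply Finset.prod_congr rfl
  intro e _
  exact RP1_edge R β h σ τ e

theorem RP1_ta_L (R : Rfl Γ) (e : E) :
    (Γ.s (R.ta e) ∉ R.L ∧ Γ.r (R.ta e) ∉ R.L) ↔ (Γ.s e ∈ R.L ∧ Γ.r e ∈ R.L) := by
  cases ho : R.os e
  · obtain ⟨h1, h2⟩ := R.rev e ho
    rw [h1, h2, R.th_L, R.th_L, not_not, not_not]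
    exact and_comm
  · obtain ⟨h1, h2⟩ := R.keep e ho
    rw [h1, h2, R.th_L, R.th_L, not_not, not_not]

theorem RP1_ta_R (R : Rfl Γ) (e : E) :
    (Γ.s (R.ta e) ∈ R.L ∧ Γ.r (R.ta e) ∈ R.L) ↔ (Γ.s e ∉ R.L ∧ Γ.r e ∉ R.L) := by
  cases ho : R.os e
  · obtain ⟨h1, h2⟩ := R.rev e ho
    rw [h1, h2, R.th_L, R.th_L]
    exact and_comm
  · obtain ⟨h1, h2⟩ := R.keep e ho
    rw [h1, h2, R.th_L, R.th_L]

theorem RP1_w_ta (R : Rfl Γ) (β : ℝ) (h h' : E → ℝ) (σ : R.L → Bool) (e : E)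
    (hh : h' (R.ta e) = if R.os e = true then h e else - h e) :
    RP1_w R β h' σ (R.ta e) = RP1_w R β h σ e := by
  rw [RP1_w, RP1_w, hh]
  cases ho : R.os e
  · obtain ⟨h1, h2⟩ := R.rev e ho
    rw [h1, h2, RP1_S_th, RP1_S_th]
    simp only [Bool.false_eq_true, if_false]
    congr 2
    ring
  · obtain ⟨h1, h2⟩ := R.keep e ho
    rw [h1, h2, RP1_S_th, RP1_S_th]
    simp only [if_true]

theorem RP1_foldL_ta (R : Rfl Γ) (h : E → ℝ) (e : E) (he : Γ.s e ∈ R.L ∧ Γ.r e ∈ R.L) :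
    R.foldL h (R.ta e) = if R.os e = true then h e else - h e := by
  have h2 := (RP1_ta_L R e).mpr he
  rw [Rfl.foldL, if_neg (fun h3 => h2.1 h3.1), if_pos h2, R.os_ta, R.ta_ta]

theorem RP1_foldR_ta (R : Rfl Γ) (h : E → ℝ) (e : E) (he : Γ.s e ∉ R.L ∧ Γ.r e ∉ R.L) :
    R.foldR h (R.ta e) = if R.os e = true then h e else - h e := by
  have h2 := (RP1_ta_R R e).mpr he
  rw [Rfl.foldR, if_neg (fun h3 => h3.1 h2.1), if_pos h2, R.os_ta, R.ta_ta]

/-- the involution of the edges. -/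
def RP1_taE (R : Rfl Γ) : E ≃ E := ⟨R.ta, R.ta, R.ta_ta, R.ta_ta⟩

theorem RP1_A_foldL [Fintype E] (R : Rfl Γ) (β : ℝ) (h : E → ℝ) (σ : R.L → Bool) :
    RP1_A R β (R.foldL h) σ = RP1_A R β h σ := by
  rw [RP1_A, RP1_A]
  apply Finset.prod_congr rfl
  intro e _
  split_ifs with h1
  · rw [RP1_w, RP1_w, Rfl.foldL, if_pos h1]
  · rfl

theorem RP1_B_foldL [Fintype E] (R : Rfl Γ) (β : ℝ) (h : E → ℝ) (σ : R.L → Bool) :
    RP1_B R β (R.foldL h) σ = RP1_A R β h σ := by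
  classical
  rw [RP1_A, RP1_B, ← Equiv.prod_comp (RP1_taE R)]
  apply Finset.prod_congr rfl
  intro e _
  change (if Γ.s (R.ta e) ∉ R.L ∧ Γ.r (R.ta e) ∉ R.L then RP1_w R β (R.foldL h) σ (R.ta e)
    else 1) = _
  by_cases h1 : Γ.s e ∈ R.L ∧ Γ.r e ∈ R.L
  · rw [if_pos ((RP1_ta_L R e).mpr h1), if_pos h1, RP1_w_ta R β h _ σ e (RP1_foldL_ta R h e h1)]
  · rw [if_neg (fun h2 => h1 ((RP1_ta_L R e).mp h2)), if_neg h1]

theorem RP1_B_foldR [Fintype E] (R : Rfl Γ) (β : ℝ) (h : E → ℝ) (σ : R.L → Bool) :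
    RP1_B R β (R.foldR h) σ = RP1_B R β h σ := by
  rw [RP1_B, RP1_B]
  apply Finset.prod_congr rfl
  intro e _
  split_ifs with h1
  · rw [RP1_w, RP1_w, Rfl.foldR, if_pos h1]
  · rfl

theorem RP1_A_foldR [Fintype E] (R : Rfl Γ) (β : ℝ) (h : E → ℝ) (σ : R.L → Bool) :
    RP1_A R β (R.foldR h) σ = RP1_B R β h σ := by
  classical
  rw [RP1_A, RP1_B, ← Equiv.prod_comp (RP1_taE R)]
  apply Finset.prod_congr rfl
  intro e _
  change (if Γ.s (R.ta e) ∈ R.L ∧ Γ.r (R.ta e) ∈ R.L then RP1_w R β (R.foldR h) σ (R.ta e)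
    else 1) = _
  by_cases h1 : Γ.s e ∉ R.L ∧ Γ.r e ∉ R.L
  · rw [if_pos ((RP1_ta_R R e).mpr h1), if_pos h1, RP1_w_ta R β h _ σ e (RP1_foldR_ta R h e h1)]
  · rw [if_neg (fun h2 => h1 ((RP1_ta_R R e).mp h2)), if_neg h1]

theorem RP1_c_foldL (R : Rfl Γ) (h : E → ℝ) (e : E) : RP1_c R (R.foldL h) e = 0 := by
  rw [RP1_c]
  split_ifs with h1 h2
  · rfl
  · rw [Rfl.foldL, if_neg (fun h3 => h1 (iff_of_true h3.1 h3.2)),
      if_neg (fun h3 => h1 (iff_of_false h3.1 h3.2))]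
  · rw [Rfl.foldL, if_neg (fun h3 => h1 (iff_of_true h3.1 h3.2)),
      if_neg (fun h3 => h1 (iff_of_false h3.1 h3.2)), neg_zero]

theorem RP1_c_foldR (R : Rfl Γ) (h : E → ℝ) (e : E) : RP1_c R (R.foldR h) e = 0 := by
  rw [RP1_c]
  split_ifs with h1 h2
  · rfl
  · rw [Rfl.foldR, if_neg (fun h3 => h1 (iff_of_false h3.1 h3.2)),
      if_neg (fun h3 => h1 (iff_of_true h3.1 h3.2))]
  · rw [Rfl.foldR, if_neg (fun h3 => h1 (iff_of_false h3.1 h3.2)),
      if_neg (fun h3 => h1 (iff_of_true h3.1 h3.2)), neg_zero]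

end

theorem rp (Γ : Gr V E) (R : Rfl Γ) {β : ℝ} (hβ : 0 ≤ β) (h : E → ℝ) :
    (Γ.Zh β h) ^ 2 ≤ Γ.Zh β (R.foldL h) * Γ.Zh β (R.foldR h) := by
  classical
  have h1 : Γ.Zh β (R.foldL h) = ∑ σ : R.L → Bool, ∑ τ : R.L → Bool,
      RP1_A R β h σ * RP1_A R β h τ * Real.exp (-(β / 2) *
        ∑ e, ((RP1_q R σ e + RP1_c R h e) - (RP1_q R τ e + RP1_c R h e)) ^ 2) := by
    rw [RP1_Zh R β (R.foldL h)]
    apply Finset.sum_congr rfl
    intro σ _
    apply Finset.sum_congr rfl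
    intro τ _
    rw [RP1_A_foldL, RP1_B_foldL]
    congr 3
    apply Finset.sum_congr rfl
    intro e _
    rw [RP1_c_foldL]
    ring
  have h2 : Γ.Zh β (R.foldR h) = ∑ σ : R.L → Bool, ∑ τ : R.L → Bool,
      RP1_B R β h σ * RP1_B R β h τ * Real.exp (-(β / 2) *
        ∑ e, (RP1_q R σ e - RP1_q R τ e) ^ 2) := by
    rw [RP1_Zh R β (R.foldR h)]
    apply Finset.sum_congr rfl
    intro σ _
    apply Finset.sum_congr rfl
    intro τ _
    rw [RP1_A_foldR, RP1_B_foldR]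
    congr 3
    apply Finset.sum_congr rfl
    intro e _
    rw [RP1_c_foldR]
    ring
  rw [RP1_Zh R β h, h1, h2]
  exact gauss_cs hβ (fun σ e => RP1_q R σ e + RP1_c R h e) (fun τ e => RP1_q R τ e)
    (RP1_A R β h) (RP1_B R β h)

end H82.IC

end S_H82_IC_RP1

section S_H82_IC_TOR

/-!
# TOR: the torus `(ZMod n)^d`, `n = 2m`, and its reflections

For the edge `e0 = (x0, i0)` let `c = x0 i0`.  `th x = Function.update x i0 (2c + 1 - x i0)`.  With `y = x i0 - c - 1` the map is `y ↦ -y - 1`, and `(-y-1).val = 2m - 1 - y.val`.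
`L = {x | m ≤ (x i0 - c - 1).val}`; so `th x ∈ L ↔ x ∉ L`.
Edges: `ta (x, i) = (th x, i)` for `i ≠ i0` (`os = true`; both ends have the same `i0`-coordinate, so both or none in `L`), `ta (x, i0) = (th x - e_{i0}, i0) = (th (x + e_{i0}), i0)`
(`os = false`): `s (ta e) = th (r e)`, `r (ta e) = th (s e)`.  `ta (ta e) = e` is immediate.
Crossing: only `i = i0`: from `y` to `y + 1`; exactly one of them in `L` iff `y.val = m - 1` or `y.val = 2m - 1`, i.e. `y = m - 1` or `y = -1`, and in both cases `-y - 1 = y + 1`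
(for `y = m-1`: `-m = m` in `ZMod (2m)`), so `r e = th (s e)` and `ta e = e`.
`e0` itself: `y = -1`: `x0 ∈ L` (`val = 2m-1 ≥ m` as `m ≥ 1`), `x0 + e ∉ L` (`val = 0 < m`).
-/

set_option autoImplicit false

open Finset

namespace H82.IC

abbrev Tv (d n : ℕ) := Fin d → ZMod n
abbrev Te (d n : ℕ) := (Fin d → ZMod n) × Fin d

/-- the torus graph. -/
def Tg (d n : ℕ) : Gr (Tv d n) (Te d n) where
  s e := e.1
  r e := e.1 + Pi.single e.2 1

theorem TOR_val (n : ℕ) [NeZero n] (y : ZMod n) : (-y - 1).val = n - 1 - y.val := by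
  have hy := y.val_lt
  have h : ((n - 1 - y.val : ℕ) : ZMod n) = -y - 1 := by
    rw [Nat.cast_sub (by omega), Nat.cast_sub (by omega)]
    simp
    ring
  rw [← h, ZMod.val_natCast_of_lt (by omega)]

theorem TOR_cross (m : ℕ) (hm : 1 ≤ m) (y : ZMod (2 * m))
    (h : ¬ (m ≤ y.val ↔ m ≤ (y + 1).val)) : y + 1 = -y - 1 := by
  have : NeZero (2 * m) := ⟨by omega⟩
  have hy := y.val_lt
  have h0 : ((2 * m : ℕ) : ZMod (2 * m)) = 0 := ZMod.natCast_self _
  by_cases h1 : y.val + 1 = 2 * m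
  · have h2 : y + 1 = 0 := by
      have : ((y.val + 1 : ℕ) : ZMod (2 * m)) = y + 1 := by simp
      rw [← this, h1, h0]
    have h3 : -y - 1 = -(y + 1) := by ring
    rw [h3, h2, neg_zero]
  · have h2 : (y + 1).val = y.val + 1 := by
      have : ((y.val + 1 : ℕ) : ZMod (2 * m)) = y + 1 := by simp
      rw [← this, ZMod.val_natCast_of_lt (by omega)]
    rw [h2] at h
    have h3 : y.val + 1 = m := by
      by_contra hne
      apply h
      constructor <;> intro h4 <;> omega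
    have h4 : ((y.val + 1 : ℕ) : ZMod (2 * m)) = y + 1 := by simp
    rw [h3] at h4
    have h5 : (y + 1) + (y + 1) = 0 := by
      rw [← h4, ← h0]
      push_cast
      ring
    have h6 : -y - 1 = -(y + 1) := by ring
    rw [h6]
    exact eq_neg_of_add_eq_zero_left h5

/-- the reflection of the vertices -/
def TOR_th {d n : ℕ} (i0 : Fin d) (c : ZMod n) (x : Tv d n) : Tv d n :=
  Function.update x i0 (2 * c + 1 - x i0)

theorem TOR_th_same {d n : ℕ} (i0 : Fin d) (c : ZMod n) (x : Tv d n) :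
    TOR_th i0 c x i0 = 2 * c + 1 - x i0 := by simp [TOR_th]

theorem TOR_th_ne {d n : ℕ} (i0 : Fin d) (c : ZMod n) (x : Tv d n) {j : Fin d} (hj : j ≠ i0) :
    TOR_th i0 c x j = x j := by simp [TOR_th, Function.update_of_ne hj]

theorem TOR_th_th {d n : ℕ} (i0 : Fin d) (c : ZMod n) (x : Tv d n) :
    TOR_th i0 c (TOR_th i0 c x) = x := by
  funext j
  by_cases hj : j = i0
  · subst hj
    rw [TOR_th_same, TOR_th_same]
    ring
  · rw [TOR_th_ne _ _ _ hj, TOR_th_ne _ _ _ hj]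

/-- the reflection of the edges -/
def TOR_ta {d n : ℕ} (i0 : Fin d) (c : ZMod n) (e : Te d n) : Te d n :=
  if e.2 = i0 then (TOR_th i0 c e.1 - Pi.single i0 1, i0) else (TOR_th i0 c e.1, e.2)

theorem TOR_ta_eq {d n : ℕ} (i0 : Fin d) (c : ZMod n) (x : Tv d n) :
    TOR_ta i0 c (x, i0) = (TOR_th i0 c x - Pi.single i0 1, i0) := by simp [TOR_ta]

theorem TOR_ta_ne {d n : ℕ} (i0 : Fin d) (c : ZMod n) (x : Tv d n) {i : Fin d} (hi : i ≠ i0) :
    TOR_ta i0 c (x, i) = (TOR_th i0 c x, i) := by simp [TOR_ta, hi]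

theorem TOR_shift {d n : ℕ} (i0 : Fin d) (c : ZMod n) (x : Tv d n) :
    TOR_th i0 c (x + Pi.single i0 1) = TOR_th i0 c x - Pi.single i0 1 := by
  funext j
  by_cases hj : j = i0
  · subst hj
    rw [TOR_th_same, Pi.sub_apply, TOR_th_same, Pi.add_apply, Pi.single_eq_same]
    ring
  · rw [TOR_th_ne _ _ _ hj, Pi.sub_apply, TOR_th_ne _ _ _ hj, Pi.add_apply,
      Pi.single_eq_of_ne hj]
    ring

theorem TOR_shift' {d n : ℕ} (i0 : Fin d) (c : ZMod n) (x : Tv d n) :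
    TOR_th i0 c (x - Pi.single i0 1) = TOR_th i0 c x + Pi.single i0 1 := by
  have h := TOR_shift i0 c (x - Pi.single i0 1)
  rw [sub_add_cancel] at h
  rw [h, sub_add_cancel]

theorem TOR_shift_ne {d n : ℕ} (i0 : Fin d) (c : ZMod n) (x : Tv d n) {i : Fin d} (hi : i ≠ i0) :
    TOR_th i0 c (x + Pi.single i 1) = TOR_th i0 c x + Pi.single i 1 := by
  funext j
  by_cases hj : j = i0
  · subst hj
    rw [TOR_th_same, Pi.add_apply, Pi.add_apply, TOR_th_same, Pi.single_eq_of_ne (Ne.symm hi)]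
    ring
  · rw [TOR_th_ne _ _ _ hj, Pi.add_apply, Pi.add_apply, TOR_th_ne _ _ _ hj]

theorem TOR_ta_ta {d n : ℕ} (i0 : Fin d) (c : ZMod n) (e : Te d n) :
    TOR_ta i0 c (TOR_ta i0 c e) = e := by
  obtain ⟨x, i⟩ := e
  by_cases hi : i = i0
  · subst hi
    rw [TOR_ta_eq, TOR_ta_eq, TOR_shift', TOR_th_th, add_sub_cancel_right]
  · rw [TOR_ta_ne _ _ _ hi, TOR_ta_ne _ _ _ hi, TOR_th_th]

/-- the half torus -/
def TOR_L {d : ℕ} (m : ℕ) (i0 : Fin d) (c : ZMod (2 * m)) : Set (Tv d (2 * m)) :=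
  {x | m ≤ (x i0 - c - 1).val}

theorem TOR_mem {d : ℕ} (m : ℕ) (i0 : Fin d) (c : ZMod (2 * m)) (x : Tv d (2 * m)) :
    x ∈ TOR_L m i0 c ↔ m ≤ (x i0 - c - 1).val := Iff.rfl

theorem torus_reflections (d m : ℕ) (hm : 1 ≤ m) (e0 : Te d (2 * m)) :
    ∃ R : Rfl (Tg d (2 * m)), ¬ ((Tg d (2 * m)).s e0 ∈ R.L ↔ (Tg d (2 * m)).r e0 ∈ R.L) := by
  obtain ⟨x0, i0⟩ := e0
  have : NeZero (2 * m) := ⟨by omega⟩
  refine ⟨⟨TOR_L m i0 (x0 i0), TOR_th i0 (x0 i0), TOR_ta i0 (x0 i0), fun e => decide (e.2 ≠ i0),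
    TOR_th_th i0 _, TOR_ta_ta i0 _, ?_, ?_, ?_, ?_, ?_⟩, ?_⟩
  · rintro ⟨x, i⟩
    by_cases hi : i = i0
    · subst hi
      rw [TOR_ta_eq]
    · rw [TOR_ta_ne _ _ _ hi]
  · intro x
    rw [TOR_mem, TOR_mem, TOR_th_same]
    have h1 : 2 * x0 i0 + 1 - x i0 - x0 i0 - 1 = -(x i0 - x0 i0 - 1) - 1 := by ring
    rw [h1, TOR_val]
    have h2 := (x i0 - x0 i0 - 1).val_lt
    constructor <;> intro h3 <;> omega
  · rintro ⟨x, i⟩ h
    have hi : i ≠ i0 := by simpa using h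
    simp only [Tg]
    rw [TOR_ta_ne _ _ _ hi]
    exact ⟨rfl, (TOR_shift_ne i0 _ x hi).symm⟩
  · rintro ⟨x, i⟩ h
    have hi : i = i0 := by simpa using h
    subst hi
    simp only [Tg]
    rw [TOR_ta_eq]
    exact ⟨(TOR_shift i _ x).symm, sub_add_cancel _ _⟩
  · rintro ⟨x, i⟩ h
    simp only [Tg] at h ⊢
    by_cases hi : i = i0
    · subst hi
      rw [TOR_mem, TOR_mem, Pi.add_apply, Pi.single_eq_same] at h
      have h1 : x i + 1 - x0 i - 1 = (x i - x0 i - 1) + 1 := by ring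
      rw [h1] at h
      have h2 := TOR_cross m hm _ h
      have h3 : x + Pi.single i 1 = TOR_th i (x0 i) x := by
        funext j
        by_cases hj : j = i
        · subst hj
          rw [TOR_th_same, Pi.add_apply, Pi.single_eq_same]
          linear_combination h2
        · rw [TOR_th_ne _ _ _ hj, Pi.add_apply, Pi.single_eq_of_ne hj, add_zero]
      refine ⟨h3, ?_⟩
      rw [TOR_ta_eq, ← h3, add_sub_cancel_right]
    · exfalso
      apply h
      rw [TOR_mem, TOR_mem, Pi.add_apply, Pi.single_eq_of_ne (Ne.symm hi), add_zero]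
  · simp only [Tg]
    rw [TOR_mem, TOR_mem, Pi.add_apply, Pi.single_eq_same]
    have h1 : x0 i0 - x0 i0 - 1 = -(0 : ZMod (2 * m)) - 1 := by ring
    have h2 : x0 i0 + 1 - x0 i0 - 1 = (0 : ZMod (2 * m)) := by ring
    rw [h1, h2, TOR_val, ZMod.val_zero]
    intro h
    have := h.1 (by omega)
    omega

end H82.IC

end S_H82_IC_TOR
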