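import Mathlib
import Pool.Agent.H82.ICM.G01
import Pool.Agent.H82.ICM.G03

/-! MP_c4c051_pr: this file joins several modules to save build time. -/

section S_H82_IC_SPN

/-!
# SPN: spin representation of the two point function; the infrared bound

`IsE β f = ∑_σ f σ w σ / ∑_σ w σ`, `w σ = ∏_e exp(-(β/2)(σ(s e) - σ(r e))^2) > 0`.
* `isE_tp`: `(σ - σ')^2 = 2 - 2σσ'` for spins, `exp(-β + βσσ') = e^{-β} cosh β (1 + t σσ')`, `t = tanh β` (check for `σσ' = ±1`), so
  `IsE (σ_u σ_v) = ∑_σ σ_u σ_v ∏_e (1 + t σ(s e) σ(r e)) / ∑_σ ∏_e (1 + t ...)`.  Expand `∏_e (1 + x_e) = ∑_{η : E → ZMod 2} ∏_{η e ≠ 0} x_e` (`Finset.prod_one_add` over subsets; identify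
  subsets with `η`), and `∑_σ σ_u σ_v ∏_{η e ≠ 0} σ(s e)σ(r e) = ∏_x (∑_{b} sp(b)^{k(x)})`, `k(x)` = multiplicity, `= 2^|V|` if all multiplicities are even, i.e. iff `bd η = src u v`, and `0` otherwise.
  So the numerator is `2^|V| z t (src u v)` and the denominator `2^|V| z t 0`.
* `infrared`: from `hGD : ∀ h, Zh β h ≤ Zh β 0`.  Let `S σ = ∑_e h e (σ(s e) - σ(r e))`, `H = ∑ h e ^2`.  For `ε > 0`: `Zh (ε h)/Zh 0 = IsE (exp(-β ε S - (β/2) ε² H)) ≤ 1`, by the symmetry
  `σ ↦ -σ` (`!`): `IsE (exp(-βεS)) = IsE (cosh(βεS)) ≥ 1 + (1/2)β²ε² IsE (S²)` (`Real.one_add_sq_div_two_le_cosh`-type inequality `1 + x²/2 ≤ cosh x`).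
  So `1 + (1/2)β²ε² IsE(S²) ≤ exp((β/2)ε² H)` for all `ε > 0`; with `x = ε²`: `(exp((β/2) H x) - 1)/x → (β/2)H` as `x → 0+`, hence `(1/2)β² IsE(S²) ≤ (β/2) H`, i.e. `IsE(S²) ≤ H/β`.
* `isE_sqrt_add` (Minkowski): `√IsE((f+g)²) ≤ √IsE(f²) + √IsE(g²)` (Cauchy-Schwarz for the finite weighted sums).
-/

set_option autoImplicit false

open Finset

namespace H82.IC

variable {V E : Type*} [Fintype V] [DecidableEq V] [Fintype E] [DecidableEq E]

/-- Ising weight and expectation. -/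
noncomputable def Gr.wS (Γ : Gr V E) (β : ℝ) (σ : V → Bool) : ℝ :=
  ∏ e, Real.exp (-(β / 2) * (sp (σ (Γ.s e)) - sp (σ (Γ.r e))) ^ 2)

noncomputable def Gr.IsE (Γ : Gr V E) (β : ℝ) (f : (V → Bool) → ℝ) : ℝ :=
  (∑ σ : V → Bool, f σ * Γ.wS β σ) / ∑ σ : V → Bool, Γ.wS β σ

/-- auxiliary character. -/
noncomputable def SPN_ch (a : ZMod 2) (s : ℝ) : ℝ := if a = 0 then 1 else s

omit [Fintype V] [DecidableEq V] [DecidableEq E] in
theorem SPN_wS_pos (Γ : Gr V E) (β : ℝ) (σ : V → Bool) : 0 < Γ.wS β σ := by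
  unfold Gr.wS
  exact Finset.prod_pos fun e _ => Real.exp_pos _

omit [DecidableEq E] in
theorem SPN_D_pos (Γ : Gr V E) (β : ℝ) : 0 < ∑ σ : V → Bool, Γ.wS β σ :=
  Finset.sum_pos (fun σ _ => SPN_wS_pos Γ β σ) ⟨fun _ => true, Finset.mem_univ _⟩

theorem SPN_sp_sq (b : Bool) : sp b * sp b = 1 := by
  unfold sp
  cases b <;> norm_num

theorem SPN_sp_or (b : Bool) : sp b = 1 ∨ sp b = -1 := by
  unfold sp
  cases b
  · right; simp
  · left; simp

theorem SPN_zmod2 (a : ZMod 2) : a = 0 ∨ a = 1 := by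
  revert a
  decide

theorem SPN_ch_add (a b : ZMod 2) (c : Bool) :
    SPN_ch (a + b) (sp c) = SPN_ch a (sp c) * SPN_ch b (sp c) := by
  have h11 : (1 : ZMod 2) + 1 = 0 := by decide
  have h10 : (1 : ZMod 2) ≠ 0 := by decide
  unfold SPN_ch
  rcases SPN_zmod2 a with rfl | rfl <;> rcases SPN_zmod2 b with rfl | rfl
  · simp
  · simp
  · simp
  · rw [h11, if_pos rfl, if_neg h10, SPN_sp_sq]

theorem SPN_ch_zero (s : ℝ) : SPN_ch 0 s = 1 := by
  unfold SPN_ch
  rw [if_pos rfl]

theorem SPN_ch_mul (a : ZMod 2) (s r : ℝ) : SPN_ch a (s * r) = SPN_ch a s * SPN_ch a r := by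
  unfold SPN_ch
  by_cases h : a = 0
  · simp [h]
  · simp [h]

theorem SPN_ch_sum {ι : Type*} (I : Finset ι) (f : ι → ZMod 2) (c : Bool) :
    SPN_ch (∑ i ∈ I, f i) (sp c) = ∏ i ∈ I, SPN_ch (f i) (sp c) := by
  classical
  induction I using Finset.induction_on with
  | empty => rw [Finset.sum_empty, Finset.prod_empty, SPN_ch_zero]
  | insert a s ha ih => rw [Finset.sum_insert ha, Finset.prod_insert ha, SPN_ch_add, ih]

theorem SPN_edge (β : ℝ) (a b : Bool) :
    Real.exp (-(β / 2) * (sp a - sp b) ^ 2) =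
      (Real.exp (-β) * Real.cosh β) * (1 + Real.tanh β * (sp a * sp b)) := by
  have hc : Real.cosh β ≠ 0 := (Real.cosh_pos β).ne'
  have ht : Real.cosh β * Real.tanh β = Real.sinh β := by
    rw [Real.tanh_eq_sinh_div_cosh]
    field_simp
  have key : (Real.exp (-β) * Real.cosh β) * (1 + Real.tanh β * (sp a * sp b)) =
      Real.exp (-β) * (Real.cosh β + Real.sinh β * (sp a * sp b)) := by
    rw [← ht]
    ring
  rw [key]
  have hp : Real.exp (-β) * (Real.cosh β + Real.sinh β) = 1 := by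
    rw [Real.cosh_add_sinh, ← Real.exp_add]
    simp
  have hm : Real.exp (-β) * (Real.cosh β - Real.sinh β) = Real.exp (-(2 * β)) := by
    rw [Real.cosh_sub_sinh, ← Real.exp_add]
    congr 1
    ring
  rcases SPN_sp_or a with h1 | h1 <;> rcases SPN_sp_or b with h2 | h2 <;> rw [h1, h2]
  · rw [show (1 : ℝ) * 1 = 1 from by norm_num, mul_one, hp]
    norm_num
  · rw [show (1 : ℝ) * -1 = -1 from by norm_num]
    rw [show Real.cosh β + Real.sinh β * -1 = Real.cosh β - Real.sinh β from by ring, hm]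
    congr 1
    ring
  · rw [show (-1 : ℝ) * 1 = -1 from by norm_num]
    rw [show Real.cosh β + Real.sinh β * -1 = Real.cosh β - Real.sinh β from by ring, hm]
    congr 1
    ring
  · rw [show (-1 : ℝ) * -1 = 1 from by norm_num, mul_one, hp]
    norm_num

theorem SPN_sum2 (f : ZMod 2 → ℝ) : ∑ a : ZMod 2, f a = f 0 + f 1 := Fin.sum_univ_two f

omit [Fintype V] [DecidableEq V] in
theorem SPN_expand (Γ : Gr V E) (β : ℝ) (σ : V → Bool) :
    Γ.wS β σ = (Real.exp (-β) * Real.cosh β) ^ Fintype.card E *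
      ∑ η : E → ZMod 2, (∏ e, hp (fun _ : E => Real.tanh β) e (η e)) *
        ∏ e, (SPN_ch (η e) (sp (σ (Γ.s e))) * SPN_ch (η e) (sp (σ (Γ.r e)))) := by
  have h1 : Γ.wS β σ = ∏ e, ((Real.exp (-β) * Real.cosh β) *
      ∑ a : ZMod 2, hp (fun _ : E => Real.tanh β) e a *
        (SPN_ch a (sp (σ (Γ.s e))) * SPN_ch a (sp (σ (Γ.r e))))) := by
    unfold Gr.wS
    refine Finset.prod_congr rfl fun e _ => ?_
    rw [SPN_edge, SPN_sum2]
    have h10 : (1 : ZMod 2) ≠ 0 := by decide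
    unfold hp SPN_ch
    simp [h10]
  rw [h1, Finset.prod_mul_distrib, Finset.prod_const, Finset.card_univ]
  congr 1
  rw [Finset.prod_univ_sum, Fintype.piFinset_univ]
  refine Finset.sum_congr rfl fun η _ => ?_
  rw [Finset.prod_mul_distrib]

theorem SPN_bd (Γ : Gr V E) (η : E → ZMod 2) (σ : V → Bool) :
    ∏ e, (SPN_ch (η e) (sp (σ (Γ.s e))) * SPN_ch (η e) (sp (σ (Γ.r e)))) =
      ∏ x, SPN_ch (Γ.bd η x) (sp (σ x)) := by
  classical
  have h2 : ∀ x, SPN_ch (Γ.bd η x) (sp (σ x)) =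
      ∏ e, (SPN_ch (if Γ.s e = x then η e else 0) (sp (σ x)) *
        SPN_ch (if Γ.r e = x then η e else 0) (sp (σ x))) := by
    intro x
    unfold Gr.bd
    rw [SPN_ch_sum]
    refine Finset.prod_congr rfl fun e _ => ?_
    rw [SPN_ch_add]
    congr 1
    · congr 1
      by_cases h : Γ.s e = x <;> simp [h]
    · congr 1
      by_cases h : Γ.r e = x <;> simp [h]
  simp_rw [h2]
  rw [Finset.prod_comm]
  refine Finset.prod_congr rfl fun e _ => ?_
  rw [Finset.prod_mul_distrib]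
  congr 1
  · rw [Finset.prod_eq_single (Γ.s e)]
    · rw [if_pos rfl]
    · intro x _ hx
      rw [if_neg (fun h => hx h.symm), SPN_ch_zero]
    · intro h
      exact absurd (Finset.mem_univ _) h
  · rw [Finset.prod_eq_single (Γ.r e)]
    · rw [if_pos rfl]
    · intro x _ hx
      rw [if_neg (fun h => hx h.symm), SPN_ch_zero]
    · intro h
      exact absurd (Finset.mem_univ _) h

theorem SPN_sumb (k : ZMod 2) : ∑ b : Bool, SPN_ch k (sp b) = 2 * ind (k = 0) := by
  rw [Fintype.sum_bool]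
  unfold SPN_ch ind sp
  by_cases h : k = 0
  · simp [h]; norm_num
  · simp [h]

omit [DecidableEq V] in
theorem SPN_ind_forall (k : V → ZMod 2) : ∏ x, ind (k x = 0) = ind (k = 0) := by
  by_cases h : k = 0
  · rw [ind_true h]
    refine Finset.prod_eq_one fun x _ => ?_
    exact ind_true (congrFun h x)
  · rw [ind_false h]
    have h1 : ∃ x, k x ≠ 0 := by
      by_contra hcon
      rw [not_exists] at hcon
      exact h (funext fun x => not_not.1 (hcon x))
    obtain ⟨x, hx⟩ := h1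
    exact Finset.prod_eq_zero (Finset.mem_univ x) (ind_false hx)

theorem SPN_sumσ (k : V → ZMod 2) :
    ∑ σ : V → Bool, ∏ x, SPN_ch (k x) (sp (σ x)) = 2 ^ Fintype.card V * ind (k = 0) := by
  have h1 := Finset.prod_univ_sum (fun _ : V => (univ : Finset Bool))
    (fun x b => SPN_ch (k x) (sp b))
  rw [Fintype.piFinset_univ] at h1
  rw [← h1]
  simp_rw [SPN_sumb]
  rw [Finset.prod_mul_distrib, Finset.prod_const, Finset.card_univ, SPN_ind_forall]

theorem SPN_add_eq_zero (a b : ZMod 2) : a + b = 0 ↔ b = a := by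
  revert a b
  decide

theorem SPN_gen (Γ : Gr V E) (β : ℝ) (S : V → ZMod 2) :
    ∑ σ : V → Bool, (∏ x, SPN_ch (S x) (sp (σ x))) * Γ.wS β σ =
      (Real.exp (-β) * Real.cosh β) ^ Fintype.card E * 2 ^ Fintype.card V *
        Γ.z (fun _ => Real.tanh β) S := by
  simp_rw [SPN_expand, SPN_bd]
  unfold Gr.z Gr.zz
  simp_rw [Finset.mul_sum]
  rw [Finset.sum_comm]
  refine Finset.sum_congr rfl fun η _ => ?_
  have h1 : ∀ σ : V → Bool, (∏ x, SPN_ch (S x) (sp (σ x))) *
      ((Real.exp (-β) * Real.cosh β) ^ Fintype.card E *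
        ((∏ e, hp (fun _ : E => Real.tanh β) e (η e)) * ∏ x, SPN_ch (Γ.bd η x) (sp (σ x)))) =
      ((Real.exp (-β) * Real.cosh β) ^ Fintype.card E *
        (∏ e, hp (fun _ : E => Real.tanh β) e (η e))) *
        ∏ x, SPN_ch (S x + Γ.bd η x) (sp (σ x)) := by
    intro σ
    have h2 : ∏ x, SPN_ch (S x + Γ.bd η x) (sp (σ x)) =
        (∏ x, SPN_ch (S x) (sp (σ x))) * ∏ x, SPN_ch (Γ.bd η x) (sp (σ x)) := by
      rw [← Finset.prod_mul_distrib]
      exact Finset.prod_congr rfl fun x _ => SPN_ch_add _ _ _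
    rw [h2]
    ring
  simp_rw [h1]
  rw [← Finset.mul_sum, SPN_sumσ (fun x => S x + Γ.bd η x)]
  have h3 : ((fun x => S x + Γ.bd η x) = 0) ↔ (Γ.bd η = S) := by
    constructor
    · intro h
      funext x
      exact (SPN_add_eq_zero _ _).1 (congrFun h x)
    · intro h
      funext x
      exact (SPN_add_eq_zero _ _).2 (congrFun h x)
  have h4 : ind ((fun x => S x + Γ.bd η x) = 0) = ind (Γ.bd η = S) := by
    by_cases h : Γ.bd η = S
    · rw [ind_true h, ind_true (h3.2 h)]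
    · rw [ind_false h, ind_false (fun h' => h (h3.1 h'))]
  rw [h4]
  ring

theorem SPN_src (u v : V) (σ : V → Bool) :
    ∏ x, SPN_ch (src u v x) (sp (σ x)) = sp (σ u) * sp (σ v) := by
  classical
  have h10 : (1 : ZMod 2) ≠ 0 := by decide
  have h1 : ∀ x, SPN_ch (src u v x) (sp (σ x)) =
      (if x = u then sp (σ x) else 1) * (if x = v then sp (σ x) else 1) := by
    intro x
    unfold src
    rw [SPN_ch_add]
    congr 1
    · by_cases h : x = u <;> simp [h, SPN_ch]
    · by_cases h : x = v <;> simp [h, SPN_ch]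
  simp_rw [h1]
  rw [Finset.prod_mul_distrib, Finset.prod_ite_eq' univ u, Finset.prod_ite_eq' univ v]
  simp

theorem isE_tp (Γ : Gr V E) (β : ℝ) (u v : V) :
    Γ.IsE β (fun σ => sp (σ u) * sp (σ v)) = Γ.tp (fun _ => Real.tanh β) u v := by
  unfold Gr.IsE Gr.tp
  have h1 := SPN_gen Γ β (src u v)
  have h2 := SPN_gen Γ β 0
  simp_rw [SPN_src] at h1
  have h3 : ∀ σ : V → Bool, ∏ x, SPN_ch ((0 : V → ZMod 2) x) (sp (σ x)) = 1 := by
    intro σ
    refine Finset.prod_eq_one fun x _ => ?_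
    rw [Pi.zero_apply, SPN_ch_zero]
  simp_rw [h3, one_mul] at h2
  rw [h1, h2]
  have hc : (Real.exp (-β) * Real.cosh β) ^ Fintype.card E * 2 ^ Fintype.card V ≠ 0 := by
    have h4 : 0 < Real.exp (-β) * Real.cosh β := mul_pos (Real.exp_pos _) (Real.cosh_pos β)
    positivity
  rw [mul_div_mul_left _ _ hc]

theorem isE_nonneg (Γ : Gr V E) (β : ℝ) {f : (V → Bool) → ℝ} (hf : ∀ σ, 0 ≤ f σ) :
    0 ≤ Γ.IsE β f := by
  unfold Gr.IsE
  exact div_nonneg (Finset.sum_nonneg fun σ _ => mul_nonneg (hf σ) (SPN_wS_pos Γ β σ).le)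
    (SPN_D_pos Γ β).le

theorem isE_sum {ι : Type*} (Γ : Gr V E) (β : ℝ) (I : Finset ι) (f : ι → (V → Bool) → ℝ) :
    Γ.IsE β (fun σ => ∑ i ∈ I, f i σ) = ∑ i ∈ I, Γ.IsE β (f i) := by
  unfold Gr.IsE
  rw [← Finset.sum_div, Finset.sum_comm]
  congr 1
  refine Finset.sum_congr rfl fun σ _ => ?_
  rw [Finset.sum_mul]

theorem isE_smul (Γ : Gr V E) (β : ℝ) (c : ℝ) (f : (V → Bool) → ℝ) :
    Γ.IsE β (fun σ => c * f σ) = c * Γ.IsE β f := by
  unfold Gr.IsE
  rw [← mul_div_assoc, Finset.mul_sum]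
  congr 1
  refine Finset.sum_congr rfl fun σ _ => ?_
  ring

theorem isE_minkowski (Γ : Gr V E) (β : ℝ) (f g : (V → Bool) → ℝ) :
    Real.sqrt (Γ.IsE β (fun σ => (f σ + g σ) ^ 2)) ≤
      Real.sqrt (Γ.IsE β (fun σ => f σ ^ 2)) + Real.sqrt (Γ.IsE β (fun σ => g σ ^ 2)) := by
  have hA : 0 ≤ Γ.IsE β (fun σ => f σ ^ 2) := isE_nonneg Γ β fun σ => sq_nonneg _
  have hB : 0 ≤ Γ.IsE β (fun σ => g σ ^ 2) := isE_nonneg Γ β fun σ => sq_nonneg _
  have hD := SPN_D_pos Γ β
  have hcs : (Γ.IsE β (fun σ => f σ * g σ)) ^ 2 ≤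
      Γ.IsE β (fun σ => f σ ^ 2) * Γ.IsE β (fun σ => g σ ^ 2) := by
    unfold Gr.IsE
    rw [div_pow, div_mul_div_comm, ← sq]
    refine div_le_div_of_nonneg_right ?_ (sq_nonneg _)
    have h1 := Finset.sum_mul_sq_le_sq_mul_sq (univ : Finset (V → Bool))
      (fun σ => f σ * Real.sqrt (Γ.wS β σ)) (fun σ => g σ * Real.sqrt (Γ.wS β σ))
    have e1 : ∀ σ, (f σ * Real.sqrt (Γ.wS β σ)) * (g σ * Real.sqrt (Γ.wS β σ)) =
        f σ * g σ * Γ.wS β σ := by
      intro σ
      have := Real.mul_self_sqrt (SPN_wS_pos Γ β σ).le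
      calc (f σ * Real.sqrt (Γ.wS β σ)) * (g σ * Real.sqrt (Γ.wS β σ)) =
          f σ * g σ * (Real.sqrt (Γ.wS β σ) * Real.sqrt (Γ.wS β σ)) := by ring
        _ = _ := by rw [this]
    have e2 : ∀ (k : (V → Bool) → ℝ) (σ : V → Bool), (k σ * Real.sqrt (Γ.wS β σ)) ^ 2 =
        k σ ^ 2 * Γ.wS β σ := by
      intro k σ
      rw [mul_pow, Real.sq_sqrt (SPN_wS_pos Γ β σ).le]
    simp_rw [e1, e2] at h1
    exact h1
  have hadd : Γ.IsE β (fun σ => (f σ + g σ) ^ 2) = Γ.IsE β (fun σ => f σ ^ 2) +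
      2 * Γ.IsE β (fun σ => f σ * g σ) + Γ.IsE β (fun σ => g σ ^ 2) := by
    unfold Gr.IsE
    rw [← mul_div_assoc, ← add_div, ← add_div, Finset.mul_sum, ← Finset.sum_add_distrib,
      ← Finset.sum_add_distrib]
    congr 1
    refine Finset.sum_congr rfl fun σ _ => ?_
    ring
  have hC : Γ.IsE β (fun σ => f σ * g σ) ≤
      Real.sqrt (Γ.IsE β (fun σ => f σ ^ 2)) * Real.sqrt (Γ.IsE β (fun σ => g σ ^ 2)) := by
    rw [← Real.sqrt_mul hA]
    exact Real.le_sqrt_of_sq_le hcs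
  refine Real.sqrt_le_iff.2 ⟨add_nonneg (Real.sqrt_nonneg _) (Real.sqrt_nonneg _), ?_⟩
  rw [hadd, add_sq, Real.sq_sqrt hA, Real.sq_sqrt hB]
  linarith

theorem SPN_Zh (Γ : Gr V E) (β : ℝ) (h : E → ℝ) (ε : ℝ) :
    Γ.Zh β (fun e => ε * h e) = Real.exp (-(β / 2 * ε ^ 2 * ∑ e, h e ^ 2)) *
      ∑ σ : V → Bool, Γ.wS β σ *
        Real.exp (-(β * ε * ∑ e, h e * (sp (σ (Γ.s e)) - sp (σ (Γ.r e))))) := by
  unfold Gr.Zh Gr.wS
  rw [Finset.mul_sum]
  refine Finset.sum_congr rfl fun σ _ => ?_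
  rw [← Real.exp_sum, ← Real.exp_sum, ← Real.exp_add, ← Real.exp_add]
  congr 1
  rw [Finset.mul_sum, Finset.mul_sum, ← Finset.sum_neg_distrib, ← Finset.sum_neg_distrib,
    ← Finset.sum_add_distrib, ← Finset.sum_add_distrib]
  refine Finset.sum_congr rfl fun e _ => ?_
  ring

theorem SPN_Zh0 (Γ : Gr V E) (β : ℝ) : Γ.Zh β 0 = ∑ σ : V → Bool, Γ.wS β σ := by
  unfold Gr.Zh Gr.wS
  simp

theorem SPN_cosh (x : ℝ) : 1 + x ^ 2 / 2 ≤ Real.cosh x := by
  have h1 : Real.cosh x = 1 + 2 * Real.sinh (x / 2) ^ 2 := by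
    have h2 : Real.cosh x = Real.cosh (2 * (x / 2)) := by
      congr 1
      ring
    rw [h2, Real.cosh_two_mul]
    have h3 := Real.cosh_sq_sub_sinh_sq (x / 2)
    linarith
  have h4 : (x / 2) ^ 2 ≤ Real.sinh (x / 2) ^ 2 := by
    rcases le_total 0 (x / 2) with h | h
    · have h5 := Real.self_le_sinh_iff.2 h
      exact pow_le_pow_left₀ h h5 2
    · have h5 := Real.sinh_le_self_iff.2 h
      nlinarith
  rw [h1]
  nlinarith

theorem infrared (Γ : Gr V E) {β : ℝ} (hβ : 0 < β) (hGD : ∀ h : E → ℝ, Γ.Zh β h ≤ Γ.Zh β 0)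
    (h : E → ℝ) :
    Γ.IsE β (fun σ => (∑ e, h e * (sp (σ (Γ.s e)) - sp (σ (Γ.r e)))) ^ 2) ≤
      (∑ e, h e ^ 2) / β := by
  have hD := SPN_D_pos Γ β
  set D := ∑ σ : V → Bool, Γ.wS β σ with hDdef
  set H := ∑ e, h e ^ 2 with hHdef
  have hH : 0 ≤ H := Finset.sum_nonneg fun e _ => sq_nonneg _
  let S : (V → Bool) → ℝ := fun σ => ∑ e, h e * (sp (σ (Γ.s e)) - sp (σ (Γ.r e)))
  set Q := ∑ σ : V → Bool, (S σ) ^ 2 * Γ.wS β σ with hQdef
  have hQ : 0 ≤ Q := Finset.sum_nonneg fun σ _ => mul_nonneg (sq_nonneg _) (SPN_wS_pos Γ β σ).le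
  have step1 : ∀ ε : ℝ, ∑ σ : V → Bool, Γ.wS β σ * Real.exp (-(β * ε * S σ)) ≤
      D * Real.exp (β / 2 * ε ^ 2 * H) := by
    intro ε
    have h1 := hGD (fun e => ε * h e)
    rw [SPN_Zh, SPN_Zh0, ← hDdef, ← hHdef, Real.exp_neg] at h1
    have h2 : 0 < Real.exp (β / 2 * ε ^ 2 * H) := Real.exp_pos _
    rw [inv_mul_le_iff₀ h2] at h1
    linarith [h1, mul_comm D (Real.exp (β / 2 * ε ^ 2 * H))]
  have step2 : ∀ ε : ℝ, D + β ^ 2 * ε ^ 2 / 2 * Q ≤ D * Real.exp (β / 2 * ε ^ 2 * H) := by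
    intro ε
    have h1 := step1 ε
    have h2 := step1 (-ε)
    rw [neg_sq] at h2
    have h3 : D + β ^ 2 * ε ^ 2 / 2 * Q ≤ ∑ σ : V → Bool, Γ.wS β σ *
        ((Real.exp (-(β * ε * S σ)) + Real.exp (-(β * -ε * S σ))) / 2) := by
      rw [hDdef, hQdef, Finset.mul_sum, ← Finset.sum_add_distrib]
      refine Finset.sum_le_sum fun σ _ => ?_
      have h4 : 1 + (β * ε * S σ) ^ 2 / 2 ≤ Real.cosh (β * ε * S σ) := SPN_cosh _
      rw [Real.cosh_eq] at h4
      have h5 : -(β * -ε * S σ) = β * ε * S σ := by ring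
      rw [h5, add_comm (Real.exp (-(β * ε * S σ)))]
      have h6 := mul_le_mul_of_nonneg_left h4 (SPN_wS_pos Γ β σ).le
      calc _ = Γ.wS β σ * (1 + (β * ε * S σ) ^ 2 / 2) := by ring
        _ ≤ _ := h6
    have h7 : ∑ σ : V → Bool, Γ.wS β σ *
        ((Real.exp (-(β * ε * S σ)) + Real.exp (-(β * -ε * S σ))) / 2) =
        (∑ σ : V → Bool, Γ.wS β σ * Real.exp (-(β * ε * S σ)) +
          ∑ σ : V → Bool, Γ.wS β σ * Real.exp (-(β * -ε * S σ))) / 2 := by
      rw [← Finset.sum_add_distrib, Finset.sum_div]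
      refine Finset.sum_congr rfl fun σ _ => ?_
      ring
    rw [h7] at h3
    linarith
  have step3 : β ^ 2 / 2 * Q ≤ D * (β / 2 * H) := by
    set K := β / 2 * H with hK
    have hK0 : 0 ≤ K := by positivity
    refine le_of_forall_pos_le_add fun δ hδ => ?_
    set x := min (1 / (K + 1)) (δ / (D * K ^ 2 + 1)) with hx
    have hx0 : 0 < x := by
      refine lt_min (by positivity) (by positivity)
    have hx1 : K * x ≤ 1 := by
      have h1 : x ≤ 1 / (K + 1) := min_le_left _ _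
      have h2 : K * x ≤ K * (1 / (K + 1)) := mul_le_mul_of_nonneg_left h1 hK0
      have h3 : K * (1 / (K + 1)) ≤ 1 := by
        rw [mul_one_div, div_le_one (by linarith)]
        linarith
      linarith
    have hx2 : D * K ^ 2 * x ≤ δ := by
      have h1 : x ≤ δ / (D * K ^ 2 + 1) := min_le_right _ _
      have h2 : D * K ^ 2 * x ≤ D * K ^ 2 * (δ / (D * K ^ 2 + 1)) :=
        mul_le_mul_of_nonneg_left h1 (by positivity)
      have h3 : D * K ^ 2 * (δ / (D * K ^ 2 + 1)) ≤ δ := by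
        rw [← mul_div_assoc, div_le_iff₀ (by positivity)]
        nlinarith
      linarith
    have h1 := step2 (Real.sqrt x)
    rw [Real.sq_sqrt hx0.le] at h1
    have h2 : β / 2 * x * H = K * x := by rw [hK]; ring
    rw [h2] at h1
    have h3 : |K * x| ≤ 1 := by rw [abs_of_nonneg (by positivity)]; exact hx1
    have h4 := (abs_le.1 (Real.abs_exp_sub_one_sub_id_le h3)).2
    have h5 : D * Real.exp (K * x) ≤ D * (1 + K * x + (K * x) ^ 2) :=
      mul_le_mul_of_nonneg_left (by linarith) hD.le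
    have h6 : (β ^ 2 / 2 * Q) * x ≤ (D * K + D * K ^ 2 * x) * x := by nlinarith
    have h7 := le_of_mul_le_mul_right h6 hx0
    linarith
  have hfin : Γ.IsE β (fun σ => (∑ e, h e * (sp (σ (Γ.s e)) - sp (σ (Γ.r e)))) ^ 2) = Q / D := rfl
  rw [hfin, div_le_div_iff₀ hD hβ]
  have h8 : β * (Q * β) ≤ β * (H * D) := by nlinarith
  exact le_of_mul_le_mul_left h8 hβ

end H82.IC

end S_H82_IC_SPN

section S_H82_IC_FLW

/-!
# FLW: spreading the uniform law of a box over a box twice as long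

Torus `(ZMod n)^d`, `1 ≤ n`.  `tb a = {x | ∀ i, (x i).val < a i}`, `a i ≤ n`, `1 ≤ a i`; `Sa a σ = (∏ a i)^{-1} ∑_{x ∈ tb a} sp (σ x)`.
Let `2 a_i ≤ n`, `a' = Function.update a i (2 a i)`, `w = 1/(2 ∏ a)`.  Field `h`: on the edge `(x, i)` (direction `i`) with `(x k).val < a k` for `k ≠ i` and `j = (x i).val ≤ 2 a i - 2`:
`h = w * min (j+1) (2 a_i - 1 - j)`; `0` on all other edges.  Along a line (fixed other coordinates) `∑_j c_j (σ_j - σ_{j+1}) = ∑_{j < a_i} σ_j - ∑_{a_i ≤ j < 2a_i} σ_j` (`c_j = min(j+1, 2a_i-1-j)`, Abel summation,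
`c_j - c_{j-1} = 1` for `j < a_i`, `-1` for `a_i ≤ j < 2a_i`, `c_{-1} = c_{2a_i - 1} = 0`; the point with coordinate value `j + 1 ≤ 2a_i - 1 < n` is `x + e_i`), so
`∑_e h e (sp σ(s e) - sp σ(r e)) = w (∑_{tb a} sp σ - ∑_{tb a' \ tb a} sp σ) = Sa a σ - Sa a' σ`.
Energy: `∏_{k≠i} a_k` lines, at most `2a_i` edges each, `h ≤ w a_i`: `∑ h² ≤ (∏ a / a_i)(2 a_i)(a_i/(2∏a))² = a_i²/(2 ∏ a)`.
(For the formal proof one may sum over `(x k)_k` with `ZMod.val`, or parametrise `tb a` by `Fintype.piFinset` of ranges; `card (tb a) = ∏ a i`.)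
-/

set_option autoImplicit false

open Finset

namespace H82.IC

/-- box in the torus. -/
noncomputable def tb {d n : ℕ} [NeZero n] (a : Fin d → ℕ) : Finset (Tv d n) :=
  univ.filter (fun x => ∀ i, (x i).val < a i)

/-- box average of the spins. -/
noncomputable def Sa {d n : ℕ} [NeZero n] (a : Fin d → ℕ) (σ : Tv d n → Bool) : ℝ :=
  (∏ i, (a i : ℝ))⁻¹ * ∑ x ∈ tb a, sp (σ x)

theorem FLW_card_lt {n : ℕ} [NeZero n] (m : ℕ) (hm : m ≤ n) :
    (univ.filter (fun z : ZMod n => z.val < m)).card = m := by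
  have h : univ.filter (fun z : ZMod n => z.val < m) = (Finset.range m).image (fun k : ℕ => (k : ZMod n)) := by
    ext z
    simp only [Finset.mem_filter, Finset.mem_univ, true_and, Finset.mem_image, Finset.mem_range]
    constructor
    · intro hz
      exact ⟨z.val, hz, ZMod.natCast_zmod_val z⟩
    · rintro ⟨k, hk, rfl⟩
      rw [ZMod.val_cast_of_lt (lt_of_lt_of_le hk hm)]
      exact hk
  rw [h, Finset.card_image_of_injOn, Finset.card_range]
  intro k hk l hl hkl
  simp only [Finset.coe_range, Set.mem_Iio] at hk hl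
  have := congrArg ZMod.val hkl
  simpa only [ZMod.val_cast_of_lt (lt_of_lt_of_le hk hm), ZMod.val_cast_of_lt (lt_of_lt_of_le hl hm)] using this

theorem card_tb {d n : ℕ} [NeZero n] (a : Fin d → ℕ) (ha : ∀ i, a i ≤ n) :
    (tb a : Finset (Tv d n)).card = ∏ i, a i := by
  have h : (tb a : Finset (Tv d n)) =
      Fintype.piFinset (fun i => univ.filter (fun z : ZMod n => z.val < a i)) := by
    ext x
    simp only [tb, Finset.mem_filter, Finset.mem_univ, true_and, Fintype.mem_piFinset]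
  rw [h, Fintype.card_piFinset]
  exact Finset.prod_congr rfl (fun i _ => FLW_card_lt (a i) (ha i))

/-- profile of the flow along a line. -/
noncomputable def FLW_c {n : ℕ} (b : ℕ) (z : ZMod n) : ℝ :=
  if z.val < b then (z.val : ℝ) + 1 else if z.val + 1 < 2 * b then 2 * (b : ℝ) - 1 - z.val else 0

theorem FLW_val_sub_one {n : ℕ} [NeZero n] (z : ZMod n) (hz : z.val ≠ 0) :
    (z - 1).val + 1 = z.val := by
  have hn : 1 < n := by
    have := ZMod.val_lt z
    omega
  have : Fact (1 < n) := ⟨hn⟩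
  have h1 : (1 : ZMod n).val = 1 := ZMod.val_one n
  have h2 : (z - 1).val = z.val - (1 : ZMod n).val := ZMod.val_sub (by rw [h1]; omega)
  rw [h2, h1]
  omega

theorem FLW_c_sub {n : ℕ} [NeZero n] (b : ℕ) (hb : 1 ≤ b) (hbn : 2 * b ≤ n) (z : ZMod n) :
    FLW_c b z - FLW_c b (z - 1) =
      2 * (if z.val < b then 1 else 0) - (if z.val < 2 * b then 1 else 0) := by
  by_cases hz : z.val = 0
  · have hz0 : z = 0 := (ZMod.val_eq_zero z).mp hz
    have hn : 1 < n := by omega
    have : Fact (1 < n) := ⟨hn⟩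
    have h1 : ((0 : ZMod n) - 1).val = n - 1 := by
      rw [zero_sub]
      have h2 : (1 : ZMod n) ≠ 0 := one_ne_zero
      have : NeZero (1 : ZMod n) := ⟨h2⟩
      rw [ZMod.val_neg_of_ne_zero, ZMod.val_one n]
    subst hz0
    have e1 : FLW_c b (0 : ZMod n) = 1 := by
      rw [FLW_c, if_pos (by rw [ZMod.val_zero]; omega), ZMod.val_zero]
      norm_num
    have e2 : FLW_c b ((0 : ZMod n) - 1) = 0 := by
      rw [FLW_c, h1, if_neg (by omega), if_neg (by omega)]
    rw [e1, e2, ZMod.val_zero, if_pos (by omega), if_pos (by omega)]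
    norm_num
  · have h1 := FLW_val_sub_one z hz
    have h2 : ((z - 1).val : ℝ) + 1 = z.val := by exact_mod_cast h1
    rw [FLW_c, FLW_c]
    by_cases c1 : z.val < b
    · rw [if_pos c1, if_pos (by omega : (z - 1).val < b), if_pos c1, if_pos (by omega)]
      linarith
    · rw [if_neg c1, if_neg c1]
      by_cases c2 : z.val < 2 * b
      · rw [if_pos c2]
        by_cases c3 : z.val = b
        · rw [if_pos (by omega : (z - 1).val < b)]
          have h3 : (z.val : ℝ) = b := by exact_mod_cast c3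
          by_cases c4 : z.val + 1 < 2 * b
          · rw [if_pos c4]
            linarith
          · rw [if_neg c4]
            have h4 : b = 1 := by omega
            have h5 : (b : ℝ) = 1 := by exact_mod_cast h4
            linarith
        · rw [if_neg (by omega : ¬ (z - 1).val < b), if_pos (by omega : (z - 1).val + 1 < 2 * b)]
          by_cases c4 : z.val + 1 < 2 * b
          · rw [if_pos c4]
            linarith
          · rw [if_neg c4]
            have h4 : z.val + 1 = 2 * b := by omega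
            have h5 : (z.val : ℝ) + 1 = 2 * b := by exact_mod_cast h4
            linarith
      · rw [if_neg c2, if_neg (by omega : ¬ z.val + 1 < 2 * b), if_neg (by omega : ¬ (z - 1).val < b),
          if_neg (by omega : ¬ (z - 1).val + 1 < 2 * b)]
        norm_num

theorem FLW_c_sq {n : ℕ} [NeZero n] (b : ℕ) (hb : 1 ≤ b) (z : ZMod n) :
    FLW_c b z ^ 2 ≤ (if z.val < 2 * b then 1 else 0) * (b : ℝ) ^ 2 := by
  rw [FLW_c]
  by_cases c1 : z.val < b
  · rw [if_pos c1, if_pos (by omega), one_mul]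
    have h1 : ((z.val : ℝ) + 1) ≤ b := by exact_mod_cast c1
    have h2 : (0 : ℝ) ≤ z.val := Nat.cast_nonneg _
    nlinarith
  · rw [if_neg c1]
    by_cases c2 : z.val + 1 < 2 * b
    · rw [if_pos c2, if_pos (by omega), one_mul]
      have h1 : (b : ℝ) ≤ z.val := by exact_mod_cast (not_lt.mp c1)
      have h2 : (z.val : ℝ) + 1 < 2 * b := by exact_mod_cast c2
      have h3 : (1 : ℝ) ≤ b := by exact_mod_cast hb
      nlinarith
    · rw [if_neg c2]
      have : (0 : ℝ) ≤ (if z.val < 2 * b then (1 : ℝ) else 0) * (b : ℝ) ^ 2 := by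
        apply mul_nonneg
        · split_ifs <;> norm_num
        · positivity
      simpa using this

theorem FLW_sum {d n : ℕ} [NeZero n] (i : Fin d) (g : Tv d n → ℝ) (f : Te d n → ℝ) :
    ∑ e : Te d n, (if e.2 = i then g e.1 else 0) * f e = ∑ x, g x * f (x, i) := by
  rw [Fintype.sum_prod_type]
  apply Finset.sum_congr rfl
  intro x _
  simp only [ite_mul, zero_mul]
  rw [Finset.sum_ite_eq' Finset.univ i (fun j => g x * f (x, j))]
  simp

theorem FLW_prod_upd {d : ℕ} (a : Fin d → ℕ) (i : Fin d) :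
    (∏ k, ((Function.update a i (2 * a i)) k : ℝ)) = 2 * ∏ k, (a k : ℝ) := by
  rw [← Finset.mul_prod_erase Finset.univ _ (Finset.mem_univ i),
    ← Finset.mul_prod_erase Finset.univ (fun k => (a k : ℝ)) (Finset.mem_univ i)]
  have h : ∏ x ∈ Finset.univ.erase i, ((Function.update a i (2 * a i)) x : ℝ) =
      ∏ x ∈ Finset.univ.erase i, (a x : ℝ) := by
    apply Finset.prod_congr rfl
    intro x hx
    rw [Function.update_of_ne (Finset.ne_of_mem_erase hx)]
  rw [h, Function.update_self]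
  push_cast
  ring

theorem flow_step {d n : ℕ} [NeZero n] (a : Fin d → ℕ) (ha : ∀ i, a i ≤ n) (ha1 : ∀ i, 1 ≤ a i)
    (i : Fin d) (hi : 2 * a i ≤ n) :
    ∃ h : Te d n → ℝ,
      (∀ σ : Tv d n → Bool, ∑ e, h e * (sp (σ ((Tg d n).s e)) - sp (σ ((Tg d n).r e))) =
        Sa a σ - Sa (Function.update a i (2 * a i)) σ) ∧
      ∑ e, h e ^ 2 ≤ (a i : ℝ) ^ 2 / (2 * ∏ k, (a k : ℝ)) := by
  classical
  set P : ℝ := ∏ k, (a k : ℝ) with hP
  have hPpos : 0 < P := Finset.prod_pos (fun k _ => by exact_mod_cast (ha1 k))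
  let rest : Tv d n → ℝ := fun x => if (∀ k, k ≠ i → (x k).val < a k) then 1 else 0
  let g : Tv d n → ℝ := fun x => rest x * (1 / (2 * P)) * FLW_c (a i) (x i)
  have hupd : ∀ x : Tv d n, (if x ∈ (tb (Function.update a i (2 * a i)) : Finset (Tv d n)) then (1 : ℝ) else 0) =
      rest x * (if (x i).val < 2 * a i then 1 else 0) := by
    intro x
    have e : x ∈ (tb (Function.update a i (2 * a i)) : Finset (Tv d n)) ↔
        (∀ k, k ≠ i → (x k).val < a k) ∧ (x i).val < 2 * a i := by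
      simp only [tb, Finset.mem_filter, Finset.mem_univ, true_and]
      constructor
      · intro h
        refine ⟨fun k hk => ?_, ?_⟩
        · have := h k
          rwa [Function.update_of_ne hk] at this
        · have := h i
          rwa [Function.update_self] at this
      · rintro ⟨h1, h2⟩ k
        by_cases hk : k = i
        · subst hk
          rw [Function.update_self]
          exact h2
        · rw [Function.update_of_ne hk]
          exact h1 k hk
    by_cases h1 : (∀ k, k ≠ i → (x k).val < a k)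
    · by_cases h2 : (x i).val < 2 * a i
      · rw [if_pos (e.mpr ⟨h1, h2⟩)]
        simp only [rest]
        rw [if_pos h1, if_pos h2, one_mul]
      · rw [if_neg (fun h => h2 (e.mp h).2)]
        simp only [rest]
        rw [if_neg h2, mul_zero]
    · rw [if_neg (fun h => h1 (e.mp h).1)]
      simp only [rest]
      rw [if_neg h1, zero_mul]
  have hbox : ∀ x : Tv d n, (if x ∈ (tb a : Finset (Tv d n)) then (1 : ℝ) else 0) =
      rest x * (if (x i).val < a i then 1 else 0) := by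
    intro x
    have e : x ∈ (tb a : Finset (Tv d n)) ↔
        (∀ k, k ≠ i → (x k).val < a k) ∧ (x i).val < a i := by
      simp only [tb, Finset.mem_filter, Finset.mem_univ, true_and]
      constructor
      · intro h
        exact ⟨fun k _ => h k, h i⟩
      · rintro ⟨h1, h2⟩ k
        by_cases hk : k = i
        · rw [hk]
          exact h2
        · exact h1 k hk
    by_cases h1 : (∀ k, k ≠ i → (x k).val < a k)
    · by_cases h2 : (x i).val < a i
      · rw [if_pos (e.mpr ⟨h1, h2⟩)]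
        simp only [rest]
        rw [if_pos h1, if_pos h2, one_mul]
      · rw [if_neg (fun h => h2 (e.mp h).2)]
        simp only [rest]
        rw [if_neg h2, mul_zero]
    · rw [if_neg (fun h => h1 (e.mp h).1)]
      simp only [rest]
      rw [if_neg h1, zero_mul]
  refine ⟨fun e => if e.2 = i then g e.1 else 0, ?_, ?_⟩
  · intro σ
    have h1 : ∑ e : Te d n, (if e.2 = i then g e.1 else 0) *
        (sp (σ ((Tg d n).s e)) - sp (σ ((Tg d n).r e))) =
        ∑ x, g x * (sp (σ x) - sp (σ (x + Pi.single i 1))) :=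
      FLW_sum i g (fun e => sp (σ ((Tg d n).s e)) - sp (σ ((Tg d n).r e)))
    rw [h1]
    obtain ⟨u, hu⟩ : ∃ u : Tv d n, u = Pi.single i 1 := ⟨_, rfl⟩
    rw [← hu]
    have h2 : ∑ x, g x * (sp (σ x) - sp (σ (x + u))) =
        ∑ x, (g x - g (x - u)) * sp (σ x) := by
      have h3 : ∑ x, g x * sp (σ (x + u)) = ∑ x, g (x - u) * sp (σ x) := by
        rw [← Equiv.sum_comp (Equiv.addRight u)
          (fun x => g (x - u) * sp (σ x))]
        apply Finset.sum_congr rfl
        intro x _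
        simp only [Equiv.coe_addRight, add_sub_cancel_right]
      simp only [mul_sub, sub_mul, Finset.sum_sub_distrib]
      rw [h3]
    rw [h2]
    have h4 : ∀ x : Tv d n, g x - g (x - u) =
        (1 / (2 * P)) * (2 * (if x ∈ (tb a : Finset (Tv d n)) then (1 : ℝ) else 0) -
          (if x ∈ (tb (Function.update a i (2 * a i)) : Finset (Tv d n)) then (1 : ℝ) else 0)) := by
      intro x
      have h5 : rest (x - u) = rest x := by
        have : (∀ k, k ≠ i → ((x - u) k).val < a k) ↔ (∀ k, k ≠ i → (x k).val < a k) := by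
          apply forall_congr'
          intro k
          apply imp_congr_right
          intro hk
          rw [Pi.sub_apply, hu, Pi.single_eq_of_ne hk, sub_zero]
        simp only [rest]
        simp only [this]
      have h6 : (x - u) i = x i - 1 := by
        rw [Pi.sub_apply, hu, Pi.single_eq_same]
      have h7 := FLW_c_sub (a i) (ha1 i) hi (x i)
      rw [hbox, hupd]
      simp only [g]
      rw [h5, h6]
      have h8 : rest x * (1 / (2 * P)) * FLW_c (a i) (x i) -
          rest x * (1 / (2 * P)) * FLW_c (a i) (x i - 1) =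
          rest x * (1 / (2 * P)) * (FLW_c (a i) (x i) - FLW_c (a i) (x i - 1)) := by ring
      rw [h8, h7]
      ring
    simp only [h4]
    rw [Sa, Sa, FLW_prod_upd a i, ← hP]
    have h9 : ∀ (B : Finset (Tv d n)), ∑ x ∈ B, sp (σ x) =
        ∑ x, (if x ∈ B then (1 : ℝ) else 0) * sp (σ x) := by
      intro B
      simp only [ite_mul, one_mul, zero_mul, Finset.sum_ite_mem, Finset.univ_inter]
    rw [h9, h9, Finset.mul_sum, Finset.mul_sum, ← Finset.sum_sub_distrib]
    apply Finset.sum_congr rfl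
    intro x _
    field_simp
  · have h1 : ∑ e : Te d n, (if e.2 = i then g e.1 else 0) ^ 2 = ∑ x, g x * g x := by
      rw [← FLW_sum i g (fun e => g e.1)]
      apply Finset.sum_congr rfl
      intro e _
      by_cases he : e.2 = i
      · simp only [if_pos he]
        ring
      · simp only [if_neg he]
        ring
    rw [h1]
    have h2 : ∀ x : Tv d n, g x * g x ≤ (1 / (2 * P)) ^ 2 * (a i : ℝ) ^ 2 *
        (if x ∈ (tb (Function.update a i (2 * a i)) : Finset (Tv d n)) then (1 : ℝ) else 0) := by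
      intro x
      rw [hupd]
      have h3 := FLW_c_sq (a i) (ha1 i) (x i)
      have h4 : rest x * rest x = rest x := by
        simp only [rest]
        split_ifs <;> norm_num
      have h5 : 0 ≤ rest x := by
        simp only [rest]
        split_ifs <;> norm_num
      have h6 : g x * g x = (rest x * rest x) * (1 / (2 * P)) ^ 2 * FLW_c (a i) (x i) ^ 2 := by
        simp only [g]
        ring
      rw [h6, h4]
      have h7 : 0 ≤ rest x * (1 / (2 * P)) ^ 2 := mul_nonneg h5 (sq_nonneg _)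
      calc rest x * (1 / (2 * P)) ^ 2 * FLW_c (a i) (x i) ^ 2
          ≤ rest x * (1 / (2 * P)) ^ 2 * ((if (x i).val < 2 * a i then 1 else 0) * (a i : ℝ) ^ 2) :=
            mul_le_mul_of_nonneg_left h3 h7
        _ = _ := by ring
    calc ∑ x, g x * g x ≤ ∑ x : Tv d n, (1 / (2 * P)) ^ 2 * (a i : ℝ) ^ 2 *
        (if x ∈ (tb (Function.update a i (2 * a i)) : Finset (Tv d n)) then (1 : ℝ) else 0) :=
          Finset.sum_le_sum (fun x _ => h2 x)
      _ = (1 / (2 * P)) ^ 2 * (a i : ℝ) ^ 2 *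
          ((tb (Function.update a i (2 * a i)) : Finset (Tv d n)).card : ℝ) := by
          rw [← Finset.mul_sum, Finset.sum_ite_mem, Finset.univ_inter, Finset.sum_const,
            nsmul_eq_mul, mul_one]
      _ = (1 / (2 * P)) ^ 2 * (a i : ℝ) ^ 2 * (2 * P) := by
          rw [card_tb, Nat.cast_prod, FLW_prod_upd]
          intro k
          by_cases hk : k = i
          · subst hk
            rw [Function.update_self]
            exact hi
          · rw [Function.update_of_ne hk]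
            exact ha k
      _ ≤ (a i : ℝ) ^ 2 / (2 * P) := by
          apply le_of_eq
          field_simp

end H82.IC

end S_H82_IC_FLW
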