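import Mathlib
import Pool.Agent.H82.ICM.G01
import Pool.Agent.H82.ICM.G02
import Pool.Agent.H82.ICM.G04

/-! MP_c4c051_pr: this file joins several modules to save build time. -/

section S_H82_IC_G2

/-!
# G2: the shell outside a box is connected (d ≥ 2)

Two points of `∂Λ_n` are connected by edges of `Λ_{n+1}` not in `Λ_n`.
From `x` with `nm x = n`, `|x i| = n`, step to `x' = x ± e_i` with `nm x' = n + 1` (edge in `bE (n+1)`, not in `bE n`; if `n = 0`, `x = y = 0`, trivial).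
It remains to connect two points of norm exactly `m = n + 1 ≥ 1` through points of norm exactly `m` (an edge between two points of norm `n + 1` is in `bE (n+1)` and not in `bE n`).
(1) If `|x i| = m`, one can change any other coordinate `j ≠ i` step by step to any value in `[-m, m]` (all points have norm `m` because of coordinate `i`).
(2) Let `|x i| = m`, `|y j| = m`.  If `i ≠ j`: change coordinate `j` of `x` to `y j`, then (now using coordinate `j`) all others, including `i`, to those of `y`.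
(3) If `i = j`: choose `k ≠ i` (`d ≥ 2`), change coordinate `k` of `x` to `m`; call the point `x''`, `|x'' k| = m`, `k ≠ i`; now apply (2) from `x''` (with index `k`) to `y` (index `i`).
-/

set_option autoImplicit false

open Finset

namespace H82.IC

variable {d : ℕ}

theorem G2_nm_le {m : ℕ} {x : Vx d} : nm x ≤ m ↔ ∀ i, |x i| ≤ (m : ℤ) := by
  rw [← mem_bx, mem_bx_abs]

theorem G2_exists (hd : 1 ≤ d) {m : ℕ} {x : Vx d} (hx : nm x = m) : ∃ i, |x i| = (m : ℤ) := by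
  have hne : (univ : Finset (Fin d)).Nonempty := ⟨⟨0, hd⟩, mem_univ _⟩
  obtain ⟨i, -, hi⟩ := exists_mem_eq_sup univ hne (fun i => (x i).natAbs)
  refine ⟨i, ?_⟩
  have h1 : (x i).natAbs = m := by
    rw [← hx]
    exact hi.symm
  rw [← h1, Int.natCast_natAbs]

/-- one step. -/
theorem G2_step {n : ℕ} {x : Vx d} (i : Fin d) (hx : nm x ≤ n + 1)
    (hy : nm (x + Pi.single i 1) ≤ n + 1) (h : nm x = n + 1 ∨ nm (x + Pi.single i 1) = n + 1) :
    (Zl d).Conn ((bE d (n + 1) : Set (Ed d)) \ bE d n) x (x + Pi.single i 1) := by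
  refine Relation.ReflTransGen.single ⟨(x, i), ⟨?_, ?_⟩, Or.inl ⟨rfl, rfl⟩⟩
  · rw [mem_coe, mem_bE]
    exact ⟨hx, hy⟩
  · rw [mem_coe, mem_bE]
    rintro ⟨h1, h2⟩
    have h1' : nm x ≤ n := h1
    have h2' : nm (x + Pi.single i 1) ≤ n := h2
    omega

theorem G2_nm_of {m : ℕ} {x : Vx d} {i : Fin d} (hi : |x i| = (m : ℤ))
    (hx : ∀ k, |x k| ≤ (m : ℤ)) : nm x = m := by
  apply le_antisymm (G2_nm_le.2 hx)
  by_contra hcon
  push Not at hcon
  have h1 : nm x ≤ m - 1 := by omega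
  have h2 := G2_nm_le.1 h1 i
  rw [hi] at h2
  have h3 : m ≤ m - 1 := by exact_mod_cast h2
  omega

theorem G2_upd {m : ℕ} {x : Vx d} {i j : Fin d} (hij : i ≠ j) (hi : |x i| = (m : ℤ))
    (hx : ∀ k, |x k| ≤ (m : ℤ)) {a : ℤ} (ha : |a| ≤ (m : ℤ)) :
    |Function.update x j a i| = (m : ℤ) ∧ ∀ k, |Function.update x j a k| ≤ (m : ℤ) := by
  refine ⟨by rw [Function.update_of_ne hij]; exact hi, fun k => ?_⟩
  by_cases hk : k = j
  · subst hk
    rw [Function.update_self]
    exact ha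
  · rw [Function.update_of_ne hk]
    exact hx k

/-- moving one coordinate upwards. -/
theorem G2_line {n : ℕ} {x : Vx d} {i j : Fin d} (hij : i ≠ j) (hi : |x i| = ((n + 1 : ℕ) : ℤ))
    (hx : ∀ k, |x k| ≤ ((n + 1 : ℕ) : ℤ)) (b c : ℤ) (hbc : b ≤ c)
    (hb : |b| ≤ ((n + 1 : ℕ) : ℤ)) (hc : |c| ≤ ((n + 1 : ℕ) : ℤ)) :
    (Zl d).Conn ((bE d (n + 1) : Set (Ed d)) \ bE d n) (Function.update x j b)
      (Function.update x j c) := by
  revert hc
  induction c, hbc using Int.leInduction with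
  | base => intro _; exact conn_refl _ _ _
  | succ c hbc ih =>
    intro hc
    have hc' : |c| ≤ ((n + 1 : ℕ) : ℤ) := by
      rw [abs_le] at hb hc ⊢
      constructor <;> omega
    refine conn_trans _ (ih hc') ?_
    have he : Function.update x j (c + 1) = Function.update x j c + Pi.single j 1 := by
      funext k
      by_cases hk : k = j
      · subst hk
        simp
      · simp [Function.update_of_ne hk, Pi.single_eq_of_ne hk]
    rw [he]
    have h1 := G2_upd hij hi hx hc'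
    have h2 := G2_upd hij hi hx hc
    rw [he] at h2
    exact G2_step j (G2_nm_of h1.1 h1.2).le (G2_nm_of h2.1 h2.2).le (Or.inl (G2_nm_of h1.1 h1.2))

theorem G2_move {n : ℕ} {x : Vx d} {i j : Fin d} (hij : i ≠ j) (hi : |x i| = ((n + 1 : ℕ) : ℤ))
    (hx : ∀ k, |x k| ≤ ((n + 1 : ℕ) : ℤ)) (a : ℤ) (ha : |a| ≤ ((n + 1 : ℕ) : ℤ)) :
    (Zl d).Conn ((bE d (n + 1) : Set (Ed d)) \ bE d n) x (Function.update x j a) := by
  have h0 : Function.update x j (x j) = x := Function.update_eq_self j x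
  rcases le_total (x j) a with h | h
  · have := G2_line hij hi hx (x j) a h (hx j) ha
    rwa [h0] at this
  · have := G2_line hij hi hx a (x j) h ha (hx j)
    rw [h0] at this
    exact conn_symm _ this

theorem G2_same {n : ℕ} {x y : Vx d} {i : Fin d} (hi : |x i| = ((n + 1 : ℕ) : ℤ))
    (hx : ∀ k, |x k| ≤ ((n + 1 : ℕ) : ℤ)) (hy : ∀ k, |y k| ≤ ((n + 1 : ℕ) : ℤ))
    (hxy : y i = x i) :
    (Zl d).Conn ((bE d (n + 1) : Set (Ed d)) \ bE d n) x y := by
  have key : ∀ s : Finset (Fin d), (Zl d).Conn ((bE d (n + 1) : Set (Ed d)) \ bE d n) x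
      (s.piecewise y x) := by
    intro s
    induction s using Finset.induction_on with
    | empty => rw [piecewise_empty]; exact conn_refl _ _ _
    | insert j s _ ih =>
      rw [piecewise_insert]
      refine conn_trans _ ih ?_
      have hz : ∀ k, |s.piecewise y x k| ≤ ((n + 1 : ℕ) : ℤ) := by
        intro k
        by_cases hk : k ∈ s
        · rw [piecewise_eq_of_mem _ _ _ hk]; exact hy k
        · rw [piecewise_eq_of_notMem _ _ _ hk]; exact hx k
      have hzi : s.piecewise y x i = x i := by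
        by_cases hk : i ∈ s
        · rw [piecewise_eq_of_mem _ _ _ hk]; exact hxy
        · rw [piecewise_eq_of_notMem _ _ _ hk]
      by_cases hji : i = j
      · subst hji
        have : Function.update (s.piecewise y x) i (y i) = s.piecewise y x := by
          rw [hxy, ← hzi]
          exact Function.update_eq_self _ _
        rw [this]
        exact conn_refl _ _ _
      · exact G2_move hji (by rw [hzi]; exact hi) hz (y j) (hy j)
  have h := key univ
  rwa [piecewise_univ] at h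

theorem G2_two {n : ℕ} {x y : Vx d} {i j : Fin d} (hij : i ≠ j)
    (hi : |x i| = ((n + 1 : ℕ) : ℤ)) (hj : |y j| = ((n + 1 : ℕ) : ℤ))
    (hx : ∀ k, |x k| ≤ ((n + 1 : ℕ) : ℤ)) (hy : ∀ k, |y k| ≤ ((n + 1 : ℕ) : ℤ)) :
    (Zl d).Conn ((bE d (n + 1) : Set (Ed d)) \ bE d n) x y := by
  have h1 := G2_move hij hi hx (y j) hj.le
  have h2 := G2_upd hij hi hx (hy j)
  refine conn_trans _ h1 (G2_same (i := j) ?_ h2.2 hy ?_)
  · rw [Function.update_self]; exact hj
  · rw [Function.update_self]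

theorem G2_shell (hd : 2 ≤ d) {n : ℕ} {x y : Vx d} (hx : nm x = n + 1) (hy : nm y = n + 1) :
    (Zl d).Conn ((bE d (n + 1) : Set (Ed d)) \ bE d n) x y := by
  have hd1 : 1 ≤ d := by omega
  obtain ⟨i, hi⟩ := G2_exists hd1 hx
  obtain ⟨j, hj⟩ := G2_exists hd1 hy
  have hx' := G2_nm_le.1 hx.le
  have hy' := G2_nm_le.1 hy.le
  by_cases hij : i = j
  · subst hij
    obtain ⟨k, hk⟩ : ∃ k : Fin d, i ≠ k := by
      by_cases h0 : i = ⟨0, by omega⟩
      · refine ⟨⟨1, by omega⟩, ?_⟩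
        rw [h0]
        intro h
        have := congrArg Fin.val h
        simp at this
      · exact ⟨⟨0, by omega⟩, h0⟩
    have ha : |((n + 1 : ℕ) : ℤ)| ≤ ((n + 1 : ℕ) : ℤ) := by
      rw [abs_of_nonneg (by positivity)]
    have h1 := G2_move hk hi hx' ((n + 1 : ℕ) : ℤ) ha
    have h2 := G2_upd hk hi hx' ha
    refine conn_trans _ h1 (G2_two (i := k) (j := i) hk.symm ?_ hj h2.2 hy')
    rw [Function.update_self, abs_of_nonneg (by positivity)]
  · exact G2_two hij hi hj hx' hy'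

/-- one step out of the box. -/
theorem G2_out (hd : 1 ≤ d) {n : ℕ} {x : Vx d} (hx : nm x = n) : ∃ x' : Vx d, nm x' = n + 1 ∧
    (Zl d).Conn ((bE d (n + 1) : Set (Ed d)) \ bE d n) x x' := by
  obtain ⟨i, hi⟩ := G2_exists hd hx
  have hx' := G2_nm_le.1 hx.le
  rcases abs_eq (by positivity : (0 : ℤ) ≤ n) |>.1 hi with h | h
  · have h1 : nm (x + Pi.single i 1) = n + 1 := by
      apply G2_nm_of (i := i)
      · rw [Pi.add_apply, Pi.single_eq_same, h, abs_of_nonneg (by positivity)]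
        push_cast
        ring
      · intro k
        by_cases hk : k = i
        · subst hk
          rw [Pi.add_apply, Pi.single_eq_same, h, abs_of_nonneg (by positivity)]
          push_cast
          exact le_refl _
        · rw [Pi.add_apply, Pi.single_eq_of_ne hk, add_zero]
          have := hx' k
          push_cast
          omega
    exact ⟨_, h1, G2_step i (by omega) h1.le (Or.inr h1)⟩
  · have h1 : nm (x - Pi.single i 1) = n + 1 := by
      apply G2_nm_of (i := i)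
      · rw [Pi.sub_apply, Pi.single_eq_same, h, abs_of_nonpos (by omega)]
        push_cast
        ring
      · intro k
        by_cases hk : k = i
        · subst hk
          rw [Pi.sub_apply, Pi.single_eq_same, h, abs_of_nonpos (by omega)]
          push_cast
          omega
        · rw [Pi.sub_apply, Pi.single_eq_of_ne hk, sub_zero]
          have := hx' k
          push_cast
          omega
    refine ⟨_, h1, conn_symm _ ?_⟩
    have h2 : x - Pi.single i 1 + Pi.single i 1 = x := sub_add_cancel _ _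
    have h3 := G2_step (n := n) (x := x - Pi.single i 1) i h1.le (by rw [h2]; omega) (Or.inl h1)
    rwa [h2] at h3

theorem shell_conn (hd : 2 ≤ d) {n : ℕ} {x y : Vx d} (hx : nm x = n) (hy : nm y = n) :
    (Zl d).Conn ((bE d (n + 1) : Set (Ed d)) \ bE d n) x y := by
  have hd1 : 1 ≤ d := by omega
  obtain ⟨x', hx', h1⟩ := G2_out hd1 hx
  obtain ⟨y', hy', h2⟩ := G2_out hd1 hy
  exact conn_trans _ h1 (conn_trans _ (G2_shell hd hx' hy') (conn_symm _ h2))

end H82.IC

end S_H82_IC_G2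

section S_H82_IC_BR2

/-!
# BR2: free and wired boxes; monotonicity; sandwich
-/

set_option autoImplicit false

open Finset

namespace H82.IC

variable {d : ℕ}

theorem BR2_mem_E1 {m N : ℕ} {e : ↥(bE d N)} : e ∈ E1 d m N ↔ e.1 ∉ bE d m := by
  unfold E1
  rw [Finset.mem_filter]
  exact ⟨fun h => h.2, fun h => ⟨Finset.mem_univ _, h⟩⟩

theorem BR2_mem_sb {E : Type*} {Λ' F : Finset E} {e : ↥Λ'} : e ∈ sb Λ' F ↔ e.1 ∈ F := by
  classical
  unfold sb
  rw [Finset.mem_filter]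
  exact ⟨fun h => h.2, fun h => ⟨Finset.mem_univ _, h⟩⟩

theorem BR2_mem_vl {E : Type*} {Λ : Finset E} {ω : Finset ↥Λ} {e : E} :
    e ∈ vl ω ↔ ∃ h : e ∈ Λ, (⟨e, h⟩ : ↥Λ) ∈ ω := by
  unfold vl
  rw [Finset.mem_map]
  constructor
  · rintro ⟨a, ha, rfl⟩
    exact ⟨a.2, ha⟩
  · rintro ⟨h, he⟩
    exact ⟨⟨e, h⟩, he, rfl⟩

theorem BR2_vl_mono {E : Type*} {Λ : Finset E} {ω ω' : Finset ↥Λ} (h : ω ⊆ ω') : vl ω ⊆ vl ω' := by
  intro e he
  rw [BR2_mem_vl] at he ⊢
  obtain ⟨h1, h2⟩ := he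
  exact ⟨h1, h h2⟩

theorem BR2_sb_sdiff (m N : ℕ) : sb (bE d N) (bE d N \ bE d m) = E1 d m N := by
  ext e
  rw [BR2_mem_sb, BR2_mem_E1, Finset.mem_sdiff]
  exact ⟨fun h => h.2, fun h => ⟨e.2, h⟩⟩

theorem BR2_sb_empty {E : Type*} (Λ' : Finset E) : sb Λ' ∅ = ∅ := by
  ext e
  rw [BR2_mem_sb]
  simp

theorem BR2_E1_self (N : ℕ) : E1 d N N = ∅ := by
  ext e
  rw [BR2_mem_E1]
  simp [e.2]

theorem BR2_setT_empty {E : Type*} (t : E → ℝ) : setT ∅ ∅ t = t := by
  funext e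
  unfold setT
  simp

theorem BR2_setT_le {E : Type*} {t : E → ℝ} (ht : T01 t) {E1 E1' η η' : Finset E}
    (h1 : ∀ e, e ∈ η → e ∈ η') (h2 : ∀ e, e ∈ E1' → e ∈ E1 ∨ e ∈ η') :
    ∀ e, setT E1 η t e ≤ setT E1' η' t e := by
  classical
  intro e
  have := ht e
  unfold setT
  by_cases a : e ∈ η'
  · rw [if_pos a]
    split_ifs
    · exact le_rfl
    · exact zero_le_one
    · exact this.2
  · have b : e ∉ η := fun hb => a (h1 e hb)
    rw [if_neg a, if_neg b]
    by_cases c : e ∈ E1'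
    · have c' : e ∈ E1 := (h2 e c).resolve_right a
      rw [if_pos c, if_pos c']
    · rw [if_neg c]
      split_ifs
      · exact this.1
      · exact le_rfl

theorem BR2_ind_mono {p q : Prop} (h : p → q) : ind p ≤ ind q := by
  unfold ind
  by_cases hp : p
  · rw [if_pos hp, if_pos (h hp)]
  · rw [if_neg hp]
    split_ifs
    · exact zero_le_one
    · exact le_rfl

theorem BR2_ind_nonneg (p : Prop) : 0 ≤ ind p := by
  unfold ind
  split_ifs
  · exact zero_le_one
  · exact le_rfl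

theorem BR2_ind_le_one (p : Prop) : ind p ≤ 1 := by
  unfold ind
  split_ifs
  · exact le_rfl
  · exact zero_le_one

theorem BR2_glue_mono {Λ Λ' : Finset (Ed d)} {ξ ξ' : Cf d} {ω ω' : Finset (Ed d)} (hω : ω ⊆ ω')
    (h : ∀ e, (e ∈ Λ → e ∈ ω → e ∉ Λ' → ξ' e = true) ∧ (e ∉ Λ → ξ e = true → e ∈ Λ' → e ∈ ω') ∧
      (e ∉ Λ → ξ e = true → e ∉ Λ' → ξ' e = true)) :
    ∀ e, glue Λ ξ ω e = true → glue Λ' ξ' ω' e = true := by
  intro e
  unfold glue
  obtain ⟨h1, h2, h3⟩ := h e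
  by_cases a : e ∈ Λ
  · by_cases b : e ∈ Λ'
    · simp only [if_pos a, if_pos b, decide_eq_true_eq]
      exact fun he => hω he
    · simp only [if_pos a, if_neg b, decide_eq_true_eq]
      exact fun he => h1 a he b
  · by_cases b : e ∈ Λ'
    · simp only [if_neg a, if_pos b, decide_eq_true_eq]
      exact fun he => h2 a he b
    · simp only [if_neg a, if_neg b]
      exact fun he => h3 a he b

theorem BR2_f_mono (Λ : Finset (Ed d)) (b : Bool) (N : ℕ) {X : Set (Cf d)} (hX : Inc X) :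
    Monotone (fun ω' : Finset ↥(bE d N) => ind (glue Λ (fun _ => b) (vl ω') ∈ X)) := by
  intro ω ω' h
  apply BR2_ind_mono
  apply hX
  exact BR2_glue_mono (BR2_vl_mono h) (fun e => ⟨fun a _ c => absurd a c, fun a _ c => absurd c a,
    fun _ h _ => h⟩)

theorem phiG_free {β : ℝ} (hβ : 0 ≤ β) (W : Finset (Vx d)) (Λ : Finset (Ed d)) (N : ℕ)
    (hW : ∀ e ∈ Λ, (Zl d).s e ∈ W ∧ (Zl d).r e ∈ W) (hΛ : Λ ⊆ bE d N) (X : Set (Cf d)) :
    phiG β W Λ (fun _ => false) X =
      (GN d N).fkE (setT (sb (bE d N) (bE d N \ Λ)) ∅ (fun _ => Real.tanh β))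
        (fun ω' => ind (glue Λ (fun _ => false) (vl ω') ∈ X)) := by
  have h := bridge hβ W Λ N hW hΛ (fun _ => false) ∅ (Finset.empty_subset _) (by
    intro ω _ e _
    have e1 : (opn (fun _ : Ed d => false) \ (Λ : Set (Ed d))) = ∅ := by
      ext x
      simp [opn]
    rw [e1, Finset.coe_empty]) X
  rw [BR2_sb_empty] at h
  exact h

theorem BR2_hW (m : ℕ) : ∀ e ∈ bE d m, (Zl d).s e ∈ bx d m ∧ (Zl d).r e ∈ bx d m := by
  intro e he
  rw [mem_bE] at he
  rw [mem_bx, mem_bx]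
  exact he

theorem phiB_free {β : ℝ} (hβ : 0 ≤ β) {m N : ℕ} (h : m ≤ N) (X : Set (Cf d)) :
    phiB β m false X = (GN d N).fkE (setT (E1 d m N) ∅ (fun _ => Real.tanh β))
      (fun ω => ind (ext false m N ω ∈ X)) := by
  unfold phiB
  rw [phiG_free hβ (bx d m) (bE d m) N (BR2_hW m) (bE_mono h) X, BR2_sb_sdiff]
  rfl

theorem phiB_self {β : ℝ} (hβ : 0 ≤ β) (N : ℕ) (X : Set (Cf d)) :
    phiB β N false X = (GN d N).fkE (fun _ => Real.tanh β) (fun ω => ind (ext false N N ω ∈ X)) := by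
  rw [phiB_free hβ le_rfl X, BR2_E1_self, BR2_setT_empty]

/-- connection outside `Λ_m` can be replaced by connection in the shell. -/
theorem BR2_shell (hd : 2 ≤ d) {m N : ℕ} (h : m + 1 ≤ N) (ω : Finset (Ed d)) (_hω : ω ⊆ bE d m)
    {x y : Vx d} (hx : nm x ≤ m)
    (hc : (Zl d).Conn ((ω : Set (Ed d)) ∪ (opn (fun _ => true) \ (bE d m : Set (Ed d)))) x y) :
    (nm y ≤ m → (Zl d).Conn ((ω : Set (Ed d)) ∪ ((bE d N \ bE d m : Finset (Ed d)) : Set (Ed d))) x y) ∧
      (m < nm y → ∀ w : Vx d, nm w = m →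
        (Zl d).Conn ((ω : Set (Ed d)) ∪ ((bE d N \ bE d m : Finset (Ed d)) : Set (Ed d))) x w) := by
  have hsh : ((bE d (m + 1) : Set (Ed d)) \ bE d m) ⊆
      (ω : Set (Ed d)) ∪ ((bE d N \ bE d m : Finset (Ed d)) : Set (Ed d)) := by
    intro e he
    right
    rw [Finset.coe_sdiff]
    exact ⟨bE_mono h he.1, he.2⟩
  induction hc with
  | refl =>
    exact ⟨fun _ => conn_refl _ _ _, fun h' => absurd h' (not_lt.2 hx)⟩
  | @tail v v' _ hv ih =>
    have hstep := nm_step hv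
    have hstep' : nm v ≤ nm v' + 1 := nm_step (ω := (ω : Set (Ed d)) ∪ (opn (fun _ => true) \ (bE d m : Set (Ed d)))) (by
      obtain ⟨e, he, h1⟩ := hv
      exact ⟨e, he, h1.symm⟩)
    rcases Nat.lt_or_ge m (nm v) with hv1 | hv1
    · -- outside
      rcases Nat.lt_or_ge m (nm v') with hv2 | hv2
      · exact ⟨fun h' => absurd h' (not_le.2 hv2), fun _ => ih.2 hv1⟩
      · exact ⟨fun _ => ih.2 hv1 v' (by omega), fun h' => absurd h' (not_lt.2 hv2)⟩
    · rcases Nat.lt_or_ge m (nm v') with hv2 | hv2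
      · refine ⟨fun h' => absurd h' (not_le.2 hv2), fun _ w hw => ?_⟩
        exact conn_trans _ (ih.1 hv1) (conn_mono _ hsh (shell_conn hd (by omega) hw))
      · refine ⟨fun _ => ?_, fun h' => absurd h' (not_lt.2 hv2)⟩
        refine conn_trans _ (ih.1 hv1) ?_
        obtain ⟨e, he, h1⟩ := hv
        have heb : e ∈ bE d m := by
          rw [mem_bE]
          rcases h1 with ⟨h2, h3⟩ | ⟨h2, h3⟩
          · rw [h2, h3]; exact ⟨hv1, hv2⟩
          · rw [h2, h3]; exact ⟨hv2, hv1⟩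
        have heω : e ∈ (ω : Set (Ed d)) := by
          rcases he with he | he
          · exact he
          · exact absurd (by exact_mod_cast heb) he.2
        exact Relation.ReflTransGen.single ⟨e, Or.inl heω, h1⟩

theorem phiB_wired (hd : 2 ≤ d) {β : ℝ} (hβ : 0 ≤ β) {m N : ℕ} (h : m + 1 ≤ N) (X : Set (Cf d)) :
    phiB β m true X = (GN d N).fkE (setT (E1 d m N) (E1 d m N) (fun _ => Real.tanh β))
      (fun ω => ind (ext true m N ω ∈ X)) := by
  unfold phiB
  rw [bridge hβ (bx d m) (bE d m) N (BR2_hW m) (bE_mono (by omega)) (fun _ => true)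
    (bE d N \ bE d m) (Finset.Subset.refl _) ?_ X, BR2_sb_sdiff]
  · rfl
  · intro ω hω e he
    rw [mem_bE] at he
    constructor
    · intro hc
      exact (BR2_shell hd h ω hω he.1 hc).1 he.2
    · intro hc
      refine conn_mono _ ?_ hc
      apply Set.union_subset_union_right
      intro x hx
      rw [Finset.coe_sdiff] at hx
      exact ⟨rfl, hx.2⟩

theorem BR2_fkw_nonneg {β : ℝ} (hβ : 0 ≤ β) (W : Finset (Vx d)) (Λ : Finset (Ed d)) (ξ : Cf d)
    (ω : Finset (Ed d)) : 0 ≤ fkw β W Λ ξ ω := by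
  unfold fkw
  have : 0 ≤ Real.exp (2 * β) - 1 := by
    have := Real.one_le_exp (x := 2 * β) (by linarith)
    linarith
  positivity

theorem BR2_den_pos {β : ℝ} (hβ : 0 ≤ β) (W : Finset (Vx d)) (Λ : Finset (Ed d)) (ξ : Cf d) :
    0 < ∑ ω ∈ Λ.powerset, fkw β W Λ ξ ω := by
  apply Finset.sum_pos' (fun ω _ => BR2_fkw_nonneg hβ W Λ ξ ω)
  refine ⟨∅, Finset.empty_mem_powerset Λ, ?_⟩
  unfold fkw
  rw [Finset.card_empty, pow_zero, mul_one]
  positivity

theorem phiB_nonneg {β : ℝ} (hβ : 0 ≤ β) (n : ℕ) (b : Bool) (X : Set (Cf d)) : 0 ≤ phiB β n b X := by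
  unfold phiB phiG
  apply div_nonneg
  · exact Finset.sum_nonneg (fun ω _ => mul_nonneg (BR2_fkw_nonneg hβ _ _ _ _) (BR2_ind_nonneg _))
  · exact (BR2_den_pos hβ _ _ _).le

theorem phiB_le_one {β : ℝ} (hβ : 0 ≤ β) (n : ℕ) (b : Bool) (X : Set (Cf d)) : phiB β n b X ≤ 1 := by
  unfold phiB phiG
  rw [div_le_one (BR2_den_pos hβ _ _ _)]
  exact Finset.sum_le_sum (fun ω _ => mul_le_of_le_one_right (BR2_fkw_nonneg hβ _ _ _ _)
    (BR2_ind_le_one _))

theorem phiB_mono_set {β : ℝ} (hβ : 0 ≤ β) (n : ℕ) (b : Bool) {X Y : Set (Cf d)} (h : X ⊆ Y) :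
    phiB β n b X ≤ phiB β n b Y := by
  unfold phiB phiG
  apply div_le_div_of_nonneg_right _ (BR2_den_pos hβ _ _ _).le
  exact Finset.sum_le_sum (fun ω _ => mul_le_mul_of_nonneg_left (BR2_ind_mono (fun hx => h hx))
    (BR2_fkw_nonneg hβ _ _ _ _))

theorem phiB_union_le {β : ℝ} (hβ : 0 ≤ β) (n : ℕ) (b : Bool) (X Y : Set (Cf d)) :
    phiB β n b (X ∪ Y) ≤ phiB β n b X + phiB β n b Y := by
  unfold phiB phiG
  rw [← add_div]
  apply div_le_div_of_nonneg_right _ (BR2_den_pos hβ _ _ _).le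
  rw [← Finset.sum_add_distrib]
  apply Finset.sum_le_sum
  intro ω _
  rw [← mul_add]
  apply mul_le_mul_of_nonneg_left _ (BR2_fkw_nonneg hβ _ _ _ _)
  unfold ind
  by_cases hX : glue (bE d n) (fun _ => b) ω ∈ X
  · have : glue (bE d n) (fun _ => b) ω ∈ X ∪ Y := Or.inl hX
    rw [if_pos this, if_pos hX]
    have := BR2_ind_nonneg (glue (bE d n) (fun _ => b) ω ∈ Y)
    unfold ind at this
    linarith
  · by_cases hY : glue (bE d n) (fun _ => b) ω ∈ Y
    · have : glue (bE d n) (fun _ => b) ω ∈ X ∪ Y := Or.inr hY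
      rw [if_pos this, if_neg hX, if_pos hY]
      linarith
    · have : ¬ glue (bE d n) (fun _ => b) ω ∈ X ∪ Y := fun h => h.elim hX hY
      rw [if_neg this, if_neg hX, if_neg hY]
      linarith

/-- monotonicity in the volume, free, general regions. -/
theorem phiG_free_mono {β : ℝ} (hβ : 0 ≤ β) (W W' : Finset (Vx d)) (Λ Λ' : Finset (Ed d))
    (hW : ∀ e ∈ Λ, (Zl d).s e ∈ W ∧ (Zl d).r e ∈ W)
    (hW' : ∀ e ∈ Λ', (Zl d).s e ∈ W' ∧ (Zl d).r e ∈ W') (h : Λ ⊆ Λ') {X : Set (Cf d)} (hX : Inc X) :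
    phiG β W Λ (fun _ => false) X ≤ phiG β W' Λ' (fun _ => false) X := by
  obtain ⟨N, hN⟩ := exists_bE Λ'
  rw [phiG_free hβ W Λ N hW (h.trans hN) X, phiG_free hβ W' Λ' N hW' hN X]
  have ht : T01 (fun _ : ↥(bE d N) => Real.tanh β) := T01_tanh β hβ
  refine le_trans (fkE_holley (GN d N) (T01_setT ht _ _) (T01_setT ht _ _) ?_
    (BR2_f_mono Λ false N hX)) (fkE_le (GN d N) (T01_setT ht _ _) ?_)
  · apply BR2_setT_le ht
    · intro e he; exact he
    · intro e he
      left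
      rw [BR2_mem_sb, Finset.mem_sdiff] at he ⊢
      exact ⟨he.1, fun h' => he.2 (h h')⟩
  · intro ω
    apply BR2_ind_mono
    apply hX
    exact BR2_glue_mono (Finset.Subset.refl _) (fun e => ⟨fun a _ c => absurd (h a) c,
      fun _ h' _ => absurd h' (by simp), fun _ h' _ => h'⟩)

theorem phiB_free_mono {β : ℝ} (hβ : 0 ≤ β) {m n : ℕ} (h : m ≤ n) {X : Set (Cf d)} (hX : Inc X) :
    phiB β m false X ≤ phiB β n false X :=
  phiG_free_mono hβ (bx d m) (bx d n) (bE d m) (bE d n) (BR2_hW m) (BR2_hW n) (bE_mono h) hX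

theorem phiB_wired_anti (hd : 2 ≤ d) {β : ℝ} (hβ : 0 ≤ β) {m n : ℕ} (h : m ≤ n) {X : Set (Cf d)}
    (hX : Inc X) : phiB β n true X ≤ phiB β m true X := by
  rw [phiB_wired hd hβ (le_refl (n + 1)) X, phiB_wired hd hβ (show m + 1 ≤ n + 1 by omega) X]
  have ht : T01 (fun _ : ↥(bE d (n + 1)) => Real.tanh β) := T01_tanh β hβ
  have hE : ∀ e, e ∈ E1 d n (n + 1) → e ∈ E1 d m (n + 1) := by
    intro e he
    rw [BR2_mem_E1] at he ⊢
    exact fun h' => he (bE_mono h h')
  refine le_trans (fkE_holley (GN d (n + 1)) (T01_setT ht _ _) (T01_setT ht _ _) ?_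
    (BR2_f_mono (bE d n) true (n + 1) hX)) (fkE_le (GN d (n + 1)) (T01_setT ht _ _) ?_)
  · exact BR2_setT_le ht hE (fun e he => Or.inr he)
  · intro ω
    apply BR2_ind_mono
    apply hX
    exact BR2_glue_mono (Finset.Subset.refl _) (fun e => ⟨fun _ _ _ => rfl,
      fun a _ c => absurd (bE_mono h c) a, fun _ _ _ => rfl⟩)

theorem phiB_free_le_wired (hd : 2 ≤ d) {β : ℝ} (hβ : 0 ≤ β) (m n : ℕ) {X : Set (Cf d)}
    (hX : Inc X) : phiB β m false X ≤ phiB β n true X := by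
  set N := max m n + 1 with hN
  have hm : m ≤ N := le_trans (le_max_left m n) (Nat.le_succ _)
  have hn : n + 1 ≤ N := Nat.succ_le_succ (le_max_right m n)
  rw [phiB_free hβ hm X, phiB_wired hd hβ hn X]
  have ht : T01 (fun _ : ↥(bE d N) => Real.tanh β) := T01_tanh β hβ
  refine le_trans (fkE_holley (GN d N) (t' := setT (E1 d n N) (E1 d n N) (fun _ => Real.tanh β))
    (T01_setT ht _ _) (T01_setT ht _ _) ?_
    (BR2_f_mono (bE d m) false N hX)) (fkE_le (GN d N) (T01_setT ht _ _) ?_)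
  · exact BR2_setT_le ht (fun e he => absurd he (Finset.notMem_empty e)) (fun e he => Or.inr he)
  · intro ω
    apply BR2_ind_mono
    apply hX
    exact BR2_glue_mono (Finset.Subset.refl _) (fun e => ⟨fun _ _ _ => rfl,
      fun _ h' _ => absurd h' (by simp), fun _ _ _ => rfl⟩)

theorem sandwich (hd : 2 ≤ d) {β : ℝ} (hβ : 0 ≤ β) {m N : ℕ} (h : m + 1 ≤ N)
    (η : Finset ↥(bE d N)) (hη : η ⊆ E1 d m N) {X : Set (Cf d)} (hX : Inc X) :
    phiB β m false X ≤ (GN d N).fkE (setT (E1 d m N) η (fun _ => Real.tanh β))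
        (fun ω => ind (ext false N N ω ∈ X)) ∧
      (GN d N).fkE (setT (E1 d m N) η (fun _ => Real.tanh β))
        (fun ω => ind (ext false N N ω ∈ X)) ≤ phiB β m true X := by
  have ht : T01 (fun _ : ↥(bE d N) => Real.tanh β) := T01_tanh β hβ
  rw [phiB_free hβ (show m ≤ N by omega) X, phiB_wired hd hβ h X]
  constructor
  · refine le_trans (fkE_holley (GN d N) (t' := setT (E1 d m N) η (fun _ => Real.tanh β))
      (T01_setT ht _ _) (T01_setT ht _ _) ?_
      (BR2_f_mono (bE d m) false N hX)) (fkE_le (GN d N) (T01_setT ht _ _) ?_)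
    · exact BR2_setT_le ht (fun e he => absurd he (Finset.notMem_empty e)) (fun e he => Or.inl he)
    · intro ω
      apply BR2_ind_mono
      apply hX
      exact BR2_glue_mono (Finset.Subset.refl _) (fun e => ⟨fun a _ c => absurd (bE_mono (show m ≤ N by omega) a) c,
        fun _ h' _ => absurd h' (by simp), fun _ h' _ => h'⟩)
  · refine le_trans (fkE_holley (GN d N) (t' := setT (E1 d m N) (E1 d m N) (fun _ => Real.tanh β))
      (T01_setT ht _ _) (T01_setT ht _ _) ?_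
      (BR2_f_mono (bE d N) false N hX)) (fkE_le (GN d N) (T01_setT ht _ _) ?_)
    · exact BR2_setT_le ht (fun e he => hη he) (fun e he => Or.inl he)
    · intro ω
      apply BR2_ind_mono
      apply hX
      exact BR2_glue_mono (Finset.Subset.refl _) (fun e => ⟨fun _ _ _ => rfl,
        fun _ h' _ => absurd h' (by simp), fun _ _ _ => rfl⟩)

end H82.IC

end S_H82_IC_BR2

section S_H82_IC_IV1

/-!
# IV1: measurability, locality, measures determined by the increasing cylinders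

* `lcl_measurable`: a cylinder event depends on finitely many coordinates: it is the preimage under the measurable map `ω ↦ ω restricted to F` (finite discrete space) of a set, hence measurable.
* `measure_ext_up`: the sets `up S` form a π-system (`up S ∩ up T = up (S ∪ T)`) generating the product σ-algebra (the coordinate sets `{ω | ω e = true} = up {e}`;
  `MeasurableSpace.pi` generated by the coordinates, each coordinate map into `Bool` is measurable iff the preimage of `{true}` is), `MeasureTheory.ext_of_generate_finite`.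
* `cn x y = ⋃ n, cnB n x y` (increasing in `n`, `conn_in_box`), `cnB` is local (depends on `bE n`), `cn` measurable.
* `arm n u` for `nm u ≤ n`: by `exit_box` equal to `{ω | ∃ b ∈ bdry n, Conn (opn ω ∩ bE n) u b}`, local.
* `perc`: for `1 ≤ d` `perc d = ⋂ n, arm n 0`: an infinite cluster leaves every box; conversely points of every norm in the cluster.
* all of `cn`, `cnB`, `arm`, `up`, `perc` are increasing (`conn_mono`); `dw` decreasing.
* `lcl` is stable under intersection, union, complement, preimage by `act`-like maps.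
-/

set_option autoImplicit false

open Finset MeasureTheory

namespace H82.IC

variable {d : ℕ}

theorem IV1_opn_inter {F : Finset (Ed d)} {ω ω' : Cf d} (h : ∀ e ∈ F, ω e = ω' e) :
    opn ω ∩ (F : Set (Ed d)) = opn ω' ∩ (F : Set (Ed d)) := by
  ext e
  constructor
  · rintro ⟨h1, h2⟩
    refine ⟨?_, h2⟩
    have h3 : ω e = true := h1
    show ω' e = true
    rw [← h e h2]
    exact h3
  · rintro ⟨h1, h2⟩
    refine ⟨?_, h2⟩
    have h3 : ω' e = true := h1
    show ω e = true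
    rw [h e h2]
    exact h3

theorem IV1_opn_mono {ω ω' : Cf d} (h : ∀ e, ω e = true → ω' e = true) : opn ω ⊆ opn ω' :=
  fun e he => h e he

theorem lcl_measurable {X : Set (Cf d)} (h : Lcl X) : MeasurableSet X := by
  obtain ⟨F, hF⟩ := h
  have hm : Measurable (fun (ω : Cf d) (e : F) => ω e) :=
    measurable_pi_lambda _ fun e => measurable_pi_apply _
  have hX : X = (fun (ω : Cf d) (e : F) => ω e) ⁻¹' ((fun (ω : Cf d) (e : F) => ω e) '' X) := by
    ext ω
    constructor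
    · intro hω
      exact ⟨ω, hω, rfl⟩
    · rintro ⟨ω', hω', h1⟩
      refine (hF ω' ω fun e he => ?_).mp hω'
      exact congrFun h1 ⟨e, he⟩
  rw [hX]
  exact hm (Set.toFinite _).measurableSet

theorem IV1_up (S : Finset (Ed d)) : Lcl (up S) := by
  refine ⟨S, fun ω ω' h => ?_⟩
  constructor
  · intro h1 e he
    rw [← h e he]
    exact h1 e he
  · intro h1 e he
    rw [h e he]
    exact h1 e he

theorem measure_ext_up (μ ν : Measure (Cf d)) [IsProbabilityMeasure μ] [IsProbabilityMeasure ν]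
    (h : ∀ S : Finset (Ed d), μ.real (up S) = ν.real (up S)) : μ = ν := by
  classical
  refine MeasureTheory.ext_of_generate_finite (Set.range (up : Finset (Ed d) → Set (Cf d))) ?_ ?_ ?_
    (by rw [measure_univ, measure_univ])
  · apply le_antisymm
    · refine iSup_le fun e => ?_
      have hme : @Measurable (Cf d) Bool (MeasurableSpace.generateFrom (Set.range up)) ⊤
          (fun ω => ω e) := by
        refine @measurable_to_bool (Cf d) (MeasurableSpace.generateFrom (Set.range up)) _ ?_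
        apply MeasurableSpace.measurableSet_generateFrom
        refine ⟨{e}, ?_⟩
        ext ω
        simp [up]
      exact hme.comap_le
    · refine MeasurableSpace.generateFrom_le ?_
      rintro _ ⟨S, rfl⟩
      exact lcl_measurable (IV1_up S)
  · rintro _ ⟨S, rfl⟩ _ ⟨T, rfl⟩ -
    refine ⟨S ∪ T, ?_⟩
    ext ω
    simp only [up, Set.mem_ofPred_eq, Set.mem_inter_iff, Finset.mem_union]
    constructor
    · intro h1
      exact ⟨fun e he => h1 e (Or.inl he), fun e he => h1 e (Or.inr he)⟩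
    · rintro ⟨h1, h2⟩ e (he | he)
      · exact h1 e he
      · exact h2 e he
  · rintro _ ⟨S, rfl⟩
    have h1 := h S
    rw [measureReal_def, measureReal_def] at h1
    exact (ENNReal.toReal_eq_toReal_iff' (measure_ne_top _ _) (measure_ne_top _ _)).mp h1

theorem lcl_inter {X Y : Set (Cf d)} (h : Lcl X) (h' : Lcl Y) : Lcl (X ∩ Y) := by
  classical
  obtain ⟨F, hF⟩ := h
  obtain ⟨G, hG⟩ := h'
  refine ⟨F ∪ G, fun ω ω' h => ?_⟩
  have h1 := hF ω ω' fun e he => h e (Finset.mem_union_left _ he)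
  have h2 := hG ω ω' fun e he => h e (Finset.mem_union_right _ he)
  exact and_congr h1 h2

theorem lcl_union {X Y : Set (Cf d)} (h : Lcl X) (h' : Lcl Y) : Lcl (X ∪ Y) := by
  classical
  obtain ⟨F, hF⟩ := h
  obtain ⟨G, hG⟩ := h'
  refine ⟨F ∪ G, fun ω ω' h => ?_⟩
  have h1 := hF ω ω' fun e he => h e (Finset.mem_union_left _ he)
  have h2 := hG ω ω' fun e he => h e (Finset.mem_union_right _ he)
  exact or_congr h1 h2

theorem lcl_compl {X : Set (Cf d)} (h : Lcl X) : Lcl Xᶜ := by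
  obtain ⟨F, hF⟩ := h
  exact ⟨F, fun ω ω' h => not_congr (hF ω ω' h)⟩

theorem lcl_up (S : Finset (Ed d)) : Lcl (up S) := IV1_up S

theorem lcl_dw (S : Finset (Ed d)) : Lcl (dw S) := by
  refine ⟨S, fun ω ω' h => ?_⟩
  constructor
  · intro h1 e he
    rw [← h e he]
    exact h1 e he
  · intro h1 e he
    rw [h e he]
    exact h1 e he

theorem lcl_cnB (n : ℕ) (x y : Vx d) : Lcl (cnB n x y) := by
  refine ⟨bE d n, fun ω ω' h => ?_⟩
  show (Zl d).Conn (opn ω ∩ bE d n) x y ↔ (Zl d).Conn (opn ω' ∩ bE d n) x y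
  rw [IV1_opn_inter h]

theorem arm_eq (hd : 1 ≤ d) {n : ℕ} {u : Vx d} (hu : nm u ≤ n) :
    (arm n u : Set (Cf d)) = {ω | ∃ b ∈ bdry d n, (Zl d).Conn (opn ω ∩ bE d n) u b} := by
  ext ω
  constructor
  · rintro ⟨y, hy, h⟩
    exact exit_box hd hu ((mem_bdry hd).mp hy).ge h
  · rintro ⟨b, hb, h⟩
    exact ⟨b, hb, conn_mono _ Set.inter_subset_left h⟩

theorem lcl_arm (hd : 1 ≤ d) {n : ℕ} {u : Vx d} (hu : nm u ≤ n) : Lcl (arm n u) := by
  refine ⟨bE d n, fun ω ω' h => ?_⟩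
  rw [arm_eq hd hu]
  show (∃ b ∈ bdry d n, (Zl d).Conn (opn ω ∩ bE d n) u b) ↔
    (∃ b ∈ bdry d n, (Zl d).Conn (opn ω' ∩ bE d n) u b)
  rw [IV1_opn_inter h]

theorem inc_up (S : Finset (Ed d)) : Inc (up S) :=
  fun _ _ h h1 e he => h e (h1 e he)

theorem inc_cn (x y : Vx d) : Inc (cn x y) :=
  fun _ _ h h1 => conn_mono _ (IV1_opn_mono h) h1

theorem inc_cnB (n : ℕ) (x y : Vx d) : Inc (cnB n x y) :=
  fun _ _ h h1 => conn_mono _ (Set.inter_subset_inter_left _ (IV1_opn_mono h)) h1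

theorem inc_arm (n : ℕ) (u : Vx d) : Inc (arm n u) := by
  rintro ω ω' h ⟨y, hy, h1⟩
  exact ⟨y, hy, conn_mono _ (IV1_opn_mono h) h1⟩

theorem inc_inter {X Y : Set (Cf d)} (h : Inc X) (h' : Inc Y) : Inc (X ∩ Y) :=
  fun ω ω' h1 h2 => ⟨h ω ω' h1 h2.1, h' ω ω' h1 h2.2⟩

theorem cnB_mono {m n : ℕ} (h : m ≤ n) (x y : Vx d) : (cnB m x y : Set (Cf d)) ⊆ cnB n x y := by
  intro ω hω
  refine conn_mono _ (Set.inter_subset_inter_right _ ?_) hω
  exact_mod_cast bE_mono h

theorem cn_eq (x y : Vx d) : (cn x y : Set (Cf d)) = ⋃ n, cnB n x y := by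
  ext ω
  rw [Set.mem_iUnion]
  constructor
  · intro h
    exact conn_in_box h
  · rintro ⟨n, h⟩
    exact conn_mono _ Set.inter_subset_left h

theorem meas_cn (x y : Vx d) : MeasurableSet (cn x y : Set (Cf d)) := by
  rw [cn_eq]
  exact MeasurableSet.iUnion fun n => lcl_measurable (lcl_cnB n x y)

theorem meas_arm (n : ℕ) (u : Vx d) : MeasurableSet (arm n u : Set (Cf d)) := by
  have h : (arm n u : Set (Cf d)) = ⋃ y ∈ bdry d n, cn u y := by
    ext ω
    simp only [Set.mem_iUnion, exists_prop]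
    rfl
  rw [h]
  exact Finset.measurableSet_biUnion _ fun y _ => meas_cn u y

theorem perc_eq (hd : 1 ≤ d) : perc d = ⋂ n, arm n (0 : Vx d) := by
  ext ω
  rw [Set.mem_iInter]
  constructor
  · intro h n
    have hinf : ((Zl d).cl (opn ω) 0).Infinite := h
    obtain ⟨v, hv, hvn⟩ := hinf.exists_notMem_finset (bx d n)
    rw [mem_bx, not_le] at hvn
    obtain ⟨b, hb, hb'⟩ := exit_box hd (n := n) (by rw [nm_zero]; exact Nat.zero_le n) hvn.le hv
    exact ⟨b, hb, conn_mono _ Set.inter_subset_left hb'⟩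
  · intro h
    show ((Zl d).cl (opn ω) 0).Infinite
    intro hfin
    obtain ⟨y, hy, hc⟩ := h (hfin.toFinset.sup nm + 1)
    have h1 := (mem_bdry hd).mp hy
    have h2 : nm y ≤ hfin.toFinset.sup nm :=
      Finset.le_sup (f := nm) (hfin.mem_toFinset.mpr hc)
    omega

theorem meas_perc (hd : 1 ≤ d) : MeasurableSet (perc d) := by
  rw [perc_eq hd]
  exact MeasurableSet.iInter fun n => meas_arm n 0

theorem arm_anti (hd : 1 ≤ d) {m n : ℕ} (h : m ≤ n) {u : Vx d} (hu : nm u ≤ m) :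
    (arm n u : Set (Cf d)) ⊆ arm m u := by
  rintro ω ⟨y, hy, hc⟩
  obtain ⟨b, hb, hb'⟩ := exit_box hd hu (h.trans ((mem_bdry hd).mp hy).ge) hc
  exact ⟨b, hb, conn_mono _ Set.inter_subset_left hb'⟩

/-- `{0 ↔ x} ⊆ {0 ↔ ∂Λ_{|x|}}`. -/
theorem cn_sub_arm (hd : 1 ≤ d) {n : ℕ} {u x : Vx d} (hu : nm u ≤ n) (hx : n ≤ nm x) :
    (cn u x : Set (Cf d)) ⊆ arm n u := by
  intro ω hc
  obtain ⟨b, hb, hb'⟩ := exit_box hd hu hx hc
  exact ⟨b, hb, conn_mono _ Set.inter_subset_left hb'⟩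

/-- a connection outside `Λ_n` from the origin implies the arm event. -/
theorem cn_sub_union (hd : 1 ≤ d) {n : ℕ} {u x : Vx d} (hu : nm u ≤ n) :
    (cn u x : Set (Cf d)) ⊆ cnB n u x ∪ arm n u := by
  intro ω hc
  rcases path_or_exit hd hu hc with h | ⟨b, hb, h⟩
  · exact Or.inl h
  · exact Or.inr ⟨b, hb, conn_mono _ Set.inter_subset_left h⟩

end H82.IC

end S_H82_IC_IV1

section S_H82_IC_DL

/-!
# DL: conditioning on the edges of `E1` (domain Markov property)

With `fkS_eq`: for `η ⊆ E1` and `setT E1 η t` (`= 1` on `η`, `0` on `E1 \ η`, `t` elsewhere): the weight of `ω` under `setT E1 η t` vanishes unless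
`ω ∩ E1 = η` (a factor `0` for `e ∈ ω ∩ E1 \ η`, a factor `1 - 1` for `e ∈ η \ ω`), and if `ω ∩ E1 = η` then
`weight_t ω = (∏_{e ∈ η} t e) (∏_{e ∈ E1 \ η} (1 - t e)) * weight_{setT} ω`.  Summing over `η ⊆ E1` gives `fkS_dlr`.
`prE t E1 η` is the probability of `ω ∩ E1 = η`.
-/

set_option autoImplicit false

open Finset

namespace H82.IC

variable {V E : Type*} [Fintype E] [DecidableEq E]

/-- probability that `ω ∩ E1 = η`. -/
noncomputable def Gr.prE (Γ : Gr V E) (t : E → ℝ) (E1 η : Finset E) : ℝ :=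
  (∏ e ∈ η, t e) * (∏ e ∈ E1 \ η, (1 - t e)) * Γ.z (setT E1 η t) 0 / Γ.z t 0

theorem DL_pos (Γ : Gr V E) {t : E → ℝ} (ht : T01 t) : 0 < Γ.z t 0 := by
  linarith [one_le_z Γ ht]

theorem prE_nonneg (Γ : Gr V E) {t : E → ℝ} (ht : T01 t) (E1 η : Finset E) :
    0 ≤ Γ.prE t E1 η := by
  unfold Gr.prE
  refine div_nonneg (mul_nonneg (mul_nonneg ?_ ?_) (z_nonneg Γ (T01_setT ht E1 η) 0))
    (z_nonneg Γ ht 0)
  · exact Finset.prod_nonneg fun e _ => (ht e).1
  · refine Finset.prod_nonneg fun e _ => ?_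
    linarith [(ht e).2]

theorem DL_w (t : E → ℝ) (ω : Finset E) :
    (∏ e ∈ ω, t e) * ∏ e ∈ ωᶜ, (1 - t e) = ∏ e, (if e ∈ ω then t e else 1 - t e) := by
  rw [← Finset.prod_mul_prod_compl ω (fun e => if e ∈ ω then t e else 1 - t e)]
  congr 1
  · exact Finset.prod_congr rfl fun e he => (if_pos he).symm
  · exact Finset.prod_congr rfl fun e he => (if_neg (Finset.mem_compl.1 he)).symm

theorem DL_zero {t : E → ℝ} {E1 η ω : Finset E} (hη : η ⊆ E1) (h : ω ∩ E1 ≠ η) :
    (∏ e ∈ ω, setT E1 η t e) * ∏ e ∈ ωᶜ, (1 - setT E1 η t e) = 0 := by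
  have hex : ∃ e ∈ E1, ¬ (e ∈ ω ↔ e ∈ η) := by
    by_contra hcon
    push Not at hcon
    apply h
    ext e
    rw [Finset.mem_inter]
    constructor
    · rintro ⟨h1, h2⟩
      exact (hcon e h2).1 h1
    · intro h1
      exact ⟨(hcon e (hη h1)).2 h1, hη h1⟩
  obtain ⟨e, he, hne⟩ := hex
  by_cases h1 : e ∈ ω
  · have h2 : e ∉ η := fun h3 => hne ⟨fun _ => h3, fun _ => h1⟩
    have h3 : ∏ e ∈ ω, setT E1 η t e = 0 := by
      refine Finset.prod_eq_zero h1 ?_
      unfold setT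
      rw [if_neg h2, if_pos he]
    rw [h3, zero_mul]
  · have h2 : e ∈ η := by
      by_contra h3
      exact hne ⟨fun h4 => absurd h4 h1, fun h4 => absurd h4 h3⟩
    have h3 : ∏ e ∈ ωᶜ, (1 - setT E1 η t e) = 0 := by
      refine Finset.prod_eq_zero (Finset.mem_compl.2 h1) ?_
      unfold setT
      rw [if_pos h2, sub_self]
    rw [h3, mul_zero]

theorem DL_key (t : E → ℝ) {E1 η : Finset E} (hη : η ⊆ E1) (ω : Finset E) :
    ind (ω ∩ E1 = η) * ((∏ e ∈ ω, t e) * ∏ e ∈ ωᶜ, (1 - t e)) =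
      ((∏ e ∈ η, t e) * (∏ e ∈ E1 \ η, (1 - t e))) *
        ((∏ e ∈ ω, setT E1 η t e) * ∏ e ∈ ωᶜ, (1 - setT E1 η t e)) := by
  by_cases h : ω ∩ E1 = η
  · rw [ind_true h, one_mul, DL_w, DL_w]
    have h1 : ∏ e ∈ η, t e = ∏ e, (if e ∈ η then t e else 1) := by
      rw [Finset.prod_ite_mem, Finset.univ_inter]
    have h2 : ∏ e ∈ E1 \ η, (1 - t e) = ∏ e, (if e ∈ E1 \ η then (1 - t e) else 1) := by
      rw [Finset.prod_ite_mem, Finset.univ_inter]
    rw [h1, h2, ← Finset.prod_mul_distrib, ← Finset.prod_mul_distrib]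
    refine Finset.prod_congr rfl fun e _ => ?_
    unfold setT
    by_cases e1 : e ∈ η
    · have e2 : e ∈ ω := by
        rw [← h] at e1
        exact (Finset.mem_inter.1 e1).1
      have e3 : e ∉ E1 \ η := fun h3 => (Finset.mem_sdiff.1 h3).2 e1
      rw [if_pos e2, if_pos e1, if_neg e3, if_pos e2, if_pos e1]
      ring
    · by_cases e2 : e ∈ E1
      · have e3 : e ∉ ω := by
          intro h3
          apply e1
          rw [← h]
          exact Finset.mem_inter.2 ⟨h3, e2⟩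
        have e4 : e ∈ E1 \ η := Finset.mem_sdiff.2 ⟨e2, e1⟩
        rw [if_neg e3, if_neg e1, if_pos e4, if_neg e3, if_neg e1, if_pos e2]
        ring
      · have e4 : e ∉ E1 \ η := fun h3 => e2 (Finset.mem_sdiff.1 h3).1
        rw [if_neg e1, if_neg e4, if_neg e1, if_neg e2]
        ring
  · rw [ind_false h, zero_mul, DL_zero hη h, mul_zero]

theorem DL_fkS (Γ : Gr V E) (t : E → ℝ) {E1 η : Finset E} (hη : η ⊆ E1) (f : Finset E → ℝ) :
    ((∏ e ∈ η, t e) * (∏ e ∈ E1 \ η, (1 - t e))) * Γ.fkS (setT E1 η t) f =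
      Γ.fkS t (fun ω => ind (ω ∩ E1 = η) * f ω) := by
  rw [fkS_eq, fkS_eq, Finset.mul_sum]
  refine Finset.sum_congr rfl fun ω _ => ?_
  have h := DL_key t hη ω
  linear_combination (-(Γ.kap ω * f ω)) * h

theorem prE_eq (Γ : Gr V E) {t : E → ℝ} (ht : T01 t) {E1 η : Finset E} (hη : η ⊆ E1) :
    Γ.prE t E1 η = Γ.fkE t (fun ω => ind (ω ∩ E1 = η)) := by
  unfold Gr.prE Gr.fkE
  rw [← fkS_one Γ (setT E1 η t), DL_fkS Γ t hη]
  simp only [mul_one]

theorem fkE_setT_supp (Γ : Gr V E) {t : E → ℝ} (ht : T01 t) {E1 η : Finset E} (hη : η ⊆ E1)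
    {f g : Finset E → ℝ} (h : ∀ ω, ω ∩ E1 = η → f ω = g ω) :
    Γ.fkE (setT E1 η t) f = Γ.fkE (setT E1 η t) g := by
  unfold Gr.fkE
  congr 1
  rw [fkS_eq, fkS_eq]
  refine Finset.sum_congr rfl fun ω _ => ?_
  by_cases h1 : ω ∩ E1 = η
  · rw [h ω h1]
  · rw [DL_zero hη h1, mul_zero, zero_mul, zero_mul]

theorem DL_ind_sum (E1 ω : Finset E) : ∑ η ∈ E1.powerset, ind (ω ∩ E1 = η) = 1 := by
  rw [Finset.sum_eq_single (ω ∩ E1)]
  · exact ind_true rfl
  · intro η _ hne
    exact ind_false fun h => hne h.symm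
  · intro h
    exact absurd (Finset.mem_powerset.2 Finset.inter_subset_right) h

theorem DL_prod (Γ : Gr V E) {t : E → ℝ} (ht : T01 t) {E1 η : Finset E} (hη : η ⊆ E1)
    (f : Finset E → ℝ) :
    Γ.prE t E1 η * Γ.fkE (setT E1 η t) f = Γ.fkE t (fun ω => ind (ω ∩ E1 = η) * f ω) := by
  unfold Gr.prE Gr.fkE
  rw [← DL_fkS Γ t hη]
  have h1 := DL_pos Γ ht
  have h2 := DL_pos Γ (T01_setT ht E1 η)
  field_simp

theorem fkE_dlr (Γ : Gr V E) {t : E → ℝ} (ht : T01 t) (E1 : Finset E) (f : Finset E → ℝ) :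
    Γ.fkE t f = ∑ η ∈ E1.powerset, Γ.prE t E1 η * Γ.fkE (setT E1 η t) f := by
  have h1 : ∑ η ∈ E1.powerset, Γ.prE t E1 η * Γ.fkE (setT E1 η t) f =
      ∑ η ∈ E1.powerset, Γ.fkE t (fun ω => ind (ω ∩ E1 = η) * f ω) :=
    Finset.sum_congr rfl fun η hη => DL_prod Γ ht (Finset.mem_powerset.1 hη) f
  rw [h1, ← fkE_sum]
  congr 1
  funext ω
  rw [← Finset.sum_mul, DL_ind_sum, one_mul]

theorem prE_sum (Γ : Gr V E) {t : E → ℝ} (ht : T01 t) (E1 : Finset E) :
    ∑ η ∈ E1.powerset, Γ.prE t E1 η = 1 := by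
  have h1 := fkE_dlr Γ ht E1 (fun _ => 1)
  rw [fkE_one Γ ht] at h1
  rw [h1]
  refine Finset.sum_congr rfl fun η _ => ?_
  rw [fkE_one Γ (T01_setT ht E1 η), mul_one]

end H82.IC

end S_H82_IC_DL

section S_H82_IC_PB

/-!
# PB: the product bound

`P[u ↔ B, z ↔ B, u not↔ z] ≤ P[u ↔ B] P[z ↔ B]` for FK-Ising on a finite graph, `B` any set of vertices.

Proof.  `trc_sum_cl` at `u`: the left side is the sum over `C ∈ cls u` with `C ∩ B ≠ ∅`, `z ∉ C`, of `fkE t (1[cl ω u = C] 1[z ↔ B])`.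
On `cl ω u = C`, `z ∉ C`: `z ↔ b` in `ω` iff `z ↔ b` in `ω \ tch C` (`conn_off`, all edges of `ω` have both or no end in `C` by `cl_end`).  The function
`f ω = 1[∃ b ∈ B, Conn (ω \ tch C) z b]` depends only on the edges not touching `C`, so by `trc_fact` (with `S = 0`) and `wOut_FK`
`fkS t (1[cl = C] f) = I_C * fkS t' f`, `fkS t (1[cl = C]) = I_C * fkS t' 1 = I_C * z t' 0` with `t' = off (tch C) t`.
So `fkS t (1[cl = C] f) = fkS t (1[cl = C]) * fkE t' f`, and `fkE t' f ≤ fkE t' (1[z ↔ B]) ≤ fkE t (1[z ↔ B])` (`fkE_le`, `fkE_holley`, `off_le`; the event is increasing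
by `conn_mono`).  Sum over `C` (dropping the condition `z ∉ C`).
-/

set_option autoImplicit false

open Finset

namespace H82.IC

variable {V E : Type*} [Fintype E] [DecidableEq E]

/-- the contribution of one cluster -/
theorem PB_term (Γ : Gr V E) {t : E → ℝ} (ht : T01 t) (B : Set V) (u z : V) (C : Set V) :
    Γ.trc (wFK t) 0 (fun ω => ind (Γ.cl (ω : Set E) u = C) *
      ind (∃ b ∈ B, Γ.Conn ((ω : Set E) \ Γ.tch C) z b)) ≤
    Γ.trc (wFK t) 0 (fun ω => ind (Γ.cl (ω : Set E) u = C) * 1) *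
      Γ.fkE t (fun ω => ind (∃ b ∈ B, Γ.Conn (ω : Set E) z b)) := by
  have hw : ∀ (e : E) (a : ZMod 2), a ≠ 0 → wFK t e a false = 0 := by
    intro e a ha
    unfold wFK
    simp [ha]
  have ht' := T01_off ht (Γ.tch C)
  have h1 := trc_fact Γ (wFK t) hw 0 u C (fun ω => ind (∃ b ∈ B, Γ.Conn ((ω : Set E) \ Γ.tch C) z b))
    (by
      intro ω ω' h
      have : ((ω : Set E) \ Γ.tch C) = ((ω' : Set E) \ Γ.tch C) := by
        ext e
        constructor
        · rintro ⟨h2, h3⟩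
          exact ⟨(h e h3).1 h2, h3⟩
        · rintro ⟨h2, h3⟩
          exact ⟨(h e h3).2 h2, h3⟩
      simp only [this])
  have h2 := trc_fact Γ (wFK t) hw 0 u C (fun _ => 1) (fun _ _ _ => rfl)
  rw [Set.indicator_zero', Set.indicator_zero', wOut_FK] at h1 h2
  have h3 : Γ.trc (wFK (off (Γ.tch C) t)) 0 (fun _ => 1) = Γ.z (off (Γ.tch C) t) 0 :=
    fkS_one Γ _
  have hz : 1 ≤ Γ.z (off (Γ.tch C) t) 0 := one_le_z Γ ht'
  have hz0 : Γ.z (off (Γ.tch C) t) 0 ≠ 0 := by linarith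
  have h4 : Γ.trc (wFK (off (Γ.tch C) t)) 0
      (fun ω => ind (∃ b ∈ B, Γ.Conn ((ω : Set E) \ Γ.tch C) z b)) =
      Γ.z (off (Γ.tch C) t) 0 * Γ.fkE (off (Γ.tch C) t)
        (fun ω => ind (∃ b ∈ B, Γ.Conn ((ω : Set E) \ Γ.tch C) z b)) := by
    unfold Gr.fkE
    rw [mul_div_cancel₀ _ hz0]
    rfl
  have h5 : Γ.fkE (off (Γ.tch C) t) (fun ω => ind (∃ b ∈ B, Γ.Conn ((ω : Set E) \ Γ.tch C) z b)) ≤
      Γ.fkE t (fun ω => ind (∃ b ∈ B, Γ.Conn (ω : Set E) z b)) := by
    refine le_trans (fkE_le Γ ht' (g := fun ω => ind (∃ b ∈ B, Γ.Conn (ω : Set E) z b)) ?_) ?_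
    · intro ω
      apply ind_mono
      rintro ⟨b, hb, hc⟩
      exact ⟨b, hb, conn_mono Γ Set.sdiff_subset hc⟩
    · refine fkE_holley Γ ht' ht (off_le ht _) ?_
      intro ω ω' hω
      apply ind_mono
      rintro ⟨b, hb, hc⟩
      exact ⟨b, hb, conn_mono Γ (Finset.coe_subset.2 hω) hc⟩
  have h6 : 0 ≤ Γ.trc (wFK t) 0 (fun ω => ind (Γ.cl (ω : Set E) u = C) * 1) :=
    trc_nonneg Γ (wFK t) (wFK_nonneg ht) 0 (fun ω => mul_nonneg (ind_nonneg _) zero_le_one)
  rw [h3] at h2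
  rw [h1, h4, ← mul_assoc, ← h2]
  exact mul_le_mul_of_nonneg_left h5 h6

theorem product_bound (Γ : Gr V E) {t : E → ℝ} (ht : T01 t) (B : Set V) (u z : V) :
    Γ.fkE t (fun ω => ind ((∃ b ∈ B, Γ.Conn (ω : Set E) u b) ∧ (∃ b ∈ B, Γ.Conn (ω : Set E) z b) ∧
      ¬ Γ.Conn (ω : Set E) u z)) ≤
    Γ.fkE t (fun ω => ind (∃ b ∈ B, Γ.Conn (ω : Set E) u b)) *
      Γ.fkE t (fun ω => ind (∃ b ∈ B, Γ.Conn (ω : Set E) z b)) := by
  classical
  obtain ⟨q, hq⟩ : ∃ q : ℝ, q = Γ.fkE t (fun ω => ind (∃ b ∈ B, Γ.Conn (ω : Set E) z b)) := ⟨_, rfl⟩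
  have hq0 : 0 ≤ q := by
    rw [hq]
    exact fkE_nonneg Γ ht (fun ω => ind_nonneg _)
  have hz : 1 ≤ Γ.z t 0 := one_le_z Γ ht
  have key : Γ.fkS t (fun ω => ind ((∃ b ∈ B, Γ.Conn (ω : Set E) u b) ∧
      (∃ b ∈ B, Γ.Conn (ω : Set E) z b) ∧ ¬ Γ.Conn (ω : Set E) u z)) ≤
      Γ.fkS t (fun ω => ind (∃ b ∈ B, Γ.Conn (ω : Set E) u b)) * q := by
    unfold Gr.fkS
    rw [trc_sum_cl Γ (wFK t) 0 u (fun ω => ind ((∃ b ∈ B, Γ.Conn (ω : Set E) u b) ∧
      (∃ b ∈ B, Γ.Conn (ω : Set E) z b) ∧ ¬ Γ.Conn (ω : Set E) u z)),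
      trc_sum_cl Γ (wFK t) 0 u (fun ω => ind (∃ b ∈ B, Γ.Conn (ω : Set E) u b)), Finset.sum_mul]
    refine Finset.sum_le_sum ?_
    intro C _
    have e1 : (fun ω : Finset E => ind (Γ.cl (ω : Set E) u = C) *
        ind ((∃ b ∈ B, Γ.Conn (ω : Set E) u b) ∧ (∃ b ∈ B, Γ.Conn (ω : Set E) z b) ∧
          ¬ Γ.Conn (ω : Set E) u z)) =
        fun ω : Finset E => (ind (∃ b ∈ B, b ∈ C) * ind (z ∉ C)) *
          (ind (Γ.cl (ω : Set E) u = C) *
            ind (∃ b ∈ B, Γ.Conn ((ω : Set E) \ Γ.tch C) z b)) := by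
      funext ω
      by_cases hC : Γ.cl (ω : Set E) u = C
      · have hm : ∀ v, Γ.Conn (ω : Set E) u v ↔ v ∈ C := by
          intro v
          rw [← hC]
          rfl
        have hends : ∀ e ∈ (ω : Set E), (Γ.s e ∈ C ↔ Γ.r e ∈ C) := by
          intro e he
          rw [← hC]
          exact cl_end Γ he u
        by_cases hz' : z ∈ C
        · rw [ind_false (p := (∃ b ∈ B, Γ.Conn (ω : Set E) u b) ∧
            (∃ b ∈ B, Γ.Conn (ω : Set E) z b) ∧ ¬ Γ.Conn (ω : Set E) u z)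
            (fun h => h.2.2 ((hm z).2 hz')), ind_false (p := z ∉ C) (fun h => h hz')]
          ring
        · have e2 : ((∃ b ∈ B, Γ.Conn (ω : Set E) u b) ∧ (∃ b ∈ B, Γ.Conn (ω : Set E) z b) ∧
              ¬ Γ.Conn (ω : Set E) u z) = ((∃ b ∈ B, b ∈ C) ∧
              (∃ b ∈ B, Γ.Conn ((ω : Set E) \ Γ.tch C) z b)) := by
            apply propext
            constructor
            · rintro ⟨⟨b, hb, h1⟩, ⟨b', hb', h2⟩, _⟩
              exact ⟨⟨b, hb, (hm b).1 h1⟩, ⟨b', hb', (conn_off Γ hends hz' b').1 h2⟩⟩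
            · rintro ⟨⟨b, hb, h1⟩, ⟨b', hb', h2⟩⟩
              exact ⟨⟨b, hb, (hm b).2 h1⟩, ⟨b', hb', (conn_off Γ hends hz' b').2 h2⟩,
                fun h3 => hz' ((hm z).1 h3)⟩
          rw [e2, ind_and, ind_true hC, ind_true (p := z ∉ C) hz']
          ring
      · rw [ind_false hC]
        ring
    have e3 : (fun ω : Finset E => ind (Γ.cl (ω : Set E) u = C) *
        ind (∃ b ∈ B, Γ.Conn (ω : Set E) u b)) =
        fun ω : Finset E => ind (∃ b ∈ B, b ∈ C) * (ind (Γ.cl (ω : Set E) u = C) * 1) := by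
      funext ω
      by_cases hC : Γ.cl (ω : Set E) u = C
      · have hm : ∀ v, Γ.Conn (ω : Set E) u v ↔ v ∈ C := by
          intro v
          rw [← hC]
          rfl
        have e2 : (∃ b ∈ B, Γ.Conn (ω : Set E) u b) = (∃ b ∈ B, b ∈ C) := by
          apply propext
          constructor
          · rintro ⟨b, hb, h1⟩
            exact ⟨b, hb, (hm b).1 h1⟩
          · rintro ⟨b, hb, h1⟩
            exact ⟨b, hb, (hm b).2 h1⟩
        rw [e2]
        ring
      · rw [ind_false hC]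
        ring
    rw [e1, e3, trc_smul, trc_smul]
    have h1 := PB_term Γ ht B u z C
    rw [← hq] at h1
    have h2 : 0 ≤ Γ.trc (wFK t) 0 (fun ω => ind (Γ.cl (ω : Set E) u = C) * 1) * q :=
      mul_nonneg (trc_nonneg Γ (wFK t) (wFK_nonneg ht) 0
        (fun ω => mul_nonneg (ind_nonneg _) zero_le_one)) hq0
    have h3 : 0 ≤ ind (∃ b ∈ B, b ∈ C) := ind_nonneg _
    have h4 : 0 ≤ ind (z ∉ C) := ind_nonneg _
    have h5 : ind (z ∉ C) ≤ 1 := ind_le_one _
    calc ind (∃ b ∈ B, b ∈ C) * ind (z ∉ C) * _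
        ≤ ind (∃ b ∈ B, b ∈ C) * ind (z ∉ C) *
          (Γ.trc (wFK t) 0 (fun ω => ind (Γ.cl (ω : Set E) u = C) * 1) * q) :=
          mul_le_mul_of_nonneg_left h1 (mul_nonneg h3 h4)
      _ ≤ ind (∃ b ∈ B, b ∈ C) * 1 *
          (Γ.trc (wFK t) 0 (fun ω => ind (Γ.cl (ω : Set E) u = C) * 1) * q) :=
          mul_le_mul_of_nonneg_right (mul_le_mul_of_nonneg_left h5 h3) h2
      _ = _ := by ring
  rw [← hq]
  unfold Gr.fkE
  rw [div_mul_eq_mul_div]
  exact div_le_div_of_nonneg_right key (by linarith)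

end H82.IC

end S_H82_IC_PB

section S_H82_IC_TZA

/-!
# TZA: boxes embedded in the torus, lower bound

`pt n : ℤ^d → (ZMod n)^d` the reduction, `pe n : Ed d → Te d n`, `(x, i) ↦ (pt x, i)`.  It maps ends to ends: `s (pe e) = pt (s e)`, `r (pe e) = pt (r e)`.
* `pt_inj`: `2R < n`: `pt` is injective on `bx R` (coordinates in `[-R,R]`); `pe_inj`: `pe` is injective on `bE R`.
* `torus_ge_free`: `phiB β R false (cn x y) ≤ tp_torus (pt x) (pt y)` for `x, y ∈ bx R`: `Λ = ↥(bE d R)`, `j = pe ∘ val` into the torus, `η = ∅`, and `Γ' = GN d R`, `j' = id`, `η' = ∅`: a path in `j '' ω` between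
  images of points of `bx R` lifts step by step (`pt` is injective on `bx R`, which contains the ends of all edges of `ω`), so `hc`, `hc2` hold (for `x = y` trivial); `tp_iso` gives
  `tp_torus (ttf j ∅ τ) (pt x) (pt y) = tp_{GN R} (τ) x y = phiB β R false (cn x y)` (`phiB_self`, `fkE_conn`, connection in `ext false R R ω`; cf. `conn_rs`), and `ttf j ∅ τ ≤ τ` pointwise, `tp_mono`.
-/

set_option autoImplicit false

open Finset

namespace H82.IC

variable {d : ℕ}

/-- reduction mod `n`. -/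
def pt {d : ℕ} (n : ℕ) (x : Vx d) : Tv d n := fun i => ((x i : ℤ) : ZMod n)

def pe {d : ℕ} (n : ℕ) (e : Ed d) : Te d n := (pt n e.1, e.2)

theorem pe_s (n : ℕ) (e : Ed d) : (Tg d n).s (pe n e) = pt n ((Zl d).s e) := rfl

theorem pe_r (n : ℕ) (e : Ed d) : (Tg d n).r (pe n e) = pt n ((Zl d).r e) := by
  funext i
  change pt n e.1 i + (Pi.single e.2 (1 : ZMod n) : Tv d n) i =
    (((e.1 + Pi.single e.2 (1 : ℤ) : Vx d) i : ℤ) : ZMod n)
  rw [Pi.add_apply, Int.cast_add]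
  congr 1
  by_cases h : i = e.2
  · rw [h, Pi.single_eq_same, Pi.single_eq_same, Int.cast_one]
  · rw [Pi.single_eq_of_ne h, Pi.single_eq_of_ne h, Int.cast_zero]

theorem pt_inj {n R : ℕ} (h : 2 * R < n) {x y : Vx d} (hx : nm x ≤ R) (hy : nm y ≤ R)
    (hxy : pt n x = pt n y) : x = y := by
  funext i
  have h1 : ((x i : ℤ) : ZMod n) = ((y i : ℤ) : ZMod n) := congrFun hxy i
  rw [ZMod.intCast_eq_intCast_iff_dvd_sub] at h1
  have h2 := (G1_le_nm x i).trans hx
  have h3 := (G1_le_nm y i).trans hy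
  have h4 : |y i - x i| < (n : ℤ) := by
    rw [abs_lt]
    omega
  have h5 := Int.eq_zero_of_abs_lt_dvd h1 h4
  omega

theorem pe_inj {n R : ℕ} (h : 2 * R < n) {e f : Ed d} (he : e ∈ bE d R) (hf : f ∈ bE d R)
    (hef : pe n e = pe n f) : e = f := by
  have h1 : pt n e.1 = pt n f.1 := congrArg Prod.fst hef
  have h2 : (pe n e).2 = (pe n f).2 := congrArg Prod.snd hef
  exact Prod.ext (pt_inj h (mem_bE.1 he).1 (mem_bE.1 hf).1 h1) h2

theorem TZA_conn {n R : ℕ} (h : 2 * R < n) (ω : Finset ↥(bE d R)) {x y : Vx d} (hx : nm x ≤ R)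
    (hy : nm y ≤ R) :
    (Tg d n).Conn ((fun a : ↥(bE d R) => pe n a.1) '' (ω : Set ↥(bE d R))) (pt n x) (pt n y) ↔
      (GN d R).Conn (ω : Set ↥(bE d R)) x y := by
  constructor
  · intro hc
    have key : ∀ v, (Tg d n).Conn ((fun a : ↥(bE d R) => pe n a.1) '' (ω : Set ↥(bE d R)))
        (pt n x) v → ∃ b, nm b ≤ R ∧ v = pt n b ∧ (GN d R).Conn (ω : Set ↥(bE d R)) x b := by
      intro v hv
      induction hv with
      | refl => exact ⟨x, hx, rfl, Relation.ReflTransGen.refl⟩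
      | tail _ h2 ih =>
        obtain ⟨b, hb, rfl, hxb⟩ := ih
        obtain ⟨e', ⟨e, he, rfl⟩, h3⟩ := h2
        have h4 := mem_bE.1 e.2
        rcases h3 with ⟨h5, h6⟩ | ⟨h5, h6⟩
        · rw [pe_s] at h5
          rw [pe_r] at h6
          have h7 := pt_inj h h4.1 hb h5
          exact ⟨_, h4.2, h6.symm, Relation.ReflTransGen.tail hxb ⟨e, he, Or.inl ⟨h7, rfl⟩⟩⟩
        · rw [pe_s] at h5
          rw [pe_r] at h6
          have h7 := pt_inj h h4.2 hb h6
          exact ⟨_, h4.1, h5.symm, Relation.ReflTransGen.tail hxb ⟨e, he, Or.inr ⟨rfl, h7⟩⟩⟩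
    obtain ⟨b, hb, h1, h2⟩ := key _ hc
    rw [pt_inj h hy hb h1]
    exact h2
  · intro hc
    clear hy
    induction hc with
    | refl => exact Relation.ReflTransGen.refl
    | tail _ h2 ih =>
      refine Relation.ReflTransGen.tail ih ?_
      obtain ⟨e, he, h3⟩ := h2
      refine ⟨pe n e.1, ⟨e, he, rfl⟩, ?_⟩
      rw [pe_s, pe_r]
      rcases h3 with ⟨h5, h6⟩ | ⟨h5, h6⟩
      · exact Or.inl ⟨congrArg (pt n) h5, congrArg (pt n) h6⟩
      · exact Or.inr ⟨congrArg (pt n) h5, congrArg (pt n) h6⟩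

theorem TZA_cn (N : ℕ) (ω : Finset ↥(bE d N)) (x y : Vx d) :
    (GN d N).Conn (ω : Set ↥(bE d N)) x y ↔ ext false N N ω ∈ cn x y := by
  have h1 : opn (ext false N N ω) = (vl ω : Set (Ed d)) := by
    ext e
    show (if e ∈ bE d N then decide (e ∈ vl ω) else false) = true ↔ e ∈ (vl ω : Set (Ed d))
    by_cases he : e ∈ bE d N
    · rw [if_pos he, decide_eq_true_iff, Finset.mem_coe]
    · rw [if_neg he]
      constructor
      · intro h
        exact absurd h (by simp)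
      · intro h
        exfalso
        apply he
        rw [Finset.mem_coe] at h
        obtain ⟨f, -, rfl⟩ := Finset.mem_map.1 h
        exact f.2
  unfold GN
  rw [conn_rs]
  show _ ↔ (Zl d).Conn (opn (ext false N N ω)) x y
  rw [h1]

theorem torus_ge_free {β : ℝ} (hβ : 0 ≤ β) (n R : ℕ) [NeZero n] (hR : 2 * R + 2 < n) {x y : Vx d}
    (hx : nm x ≤ R) (hy : nm y ≤ R) :
    phiB β R false (cn x y) ≤ (Tg d n).tp (fun _ => Real.tanh β) (pt n x) (pt n y) := by
  have hR' : 2 * R < n := by omega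
  have ht : T01 (fun _ : ↥(bE d R) => Real.tanh β) := T01_tanh β hβ
  have h1 := tp_iso (Tg d n) (GN d R) (fun a : ↥(bE d R) => pe n a.1) id
    (fun a b hab => Subtype.ext (pe_inj hR' a.2 b.2 hab)) Function.injective_id ∅ ∅
    (fun _ => Finset.notMem_empty _) (fun _ => Finset.notMem_empty _) (by
      intro ω a _
      rw [Finset.coe_empty, Finset.coe_empty, Set.union_empty, Set.union_empty, Set.image_id,
        pe_s, pe_r]
      exact TZA_conn hR' ω (mem_bE.1 a.2).1 (mem_bE.1 a.2).2) (fun _ => Real.tanh β) ht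
    (pt n x) (pt n y) x y (by
      intro ω
      rw [Finset.coe_empty, Finset.coe_empty, Set.union_empty, Set.union_empty, Set.image_id]
      exact TZA_conn hR' ω hx hy)
  have h2 : ttf (id : ↥(bE d R) → ↥(bE d R)) ∅ (fun _ => Real.tanh β) =
      fun _ : ↥(bE d R) => Real.tanh β := by
    funext e
    unfold ttf
    rw [if_neg (Finset.notMem_empty _), dif_pos ⟨e, rfl⟩]
  rw [h2] at h1
  have h3 : phiB β R false (cn x y) = (GN d R).tp (fun _ => Real.tanh β) x y := by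
    rw [phiB_self hβ, ← fkE_conn]
    congr 1
    funext ω
    exact KA_congr (TZA_cn R ω x y).symm
  rw [h3, ← h1]
  have hle : ∀ e, ttf (fun a : ↥(bE d R) => pe n a.1) ∅ (fun _ => Real.tanh β) e ≤
      Real.tanh β ∧ 0 ≤ ttf (fun a : ↥(bE d R) => pe n a.1) ∅ (fun _ => Real.tanh β) e := by
    intro e
    unfold ttf
    rw [if_neg (Finset.notMem_empty _)]
    split_ifs
    · exact ⟨le_rfl, (tanh_mem β hβ).1⟩
    · exact ⟨(tanh_mem β hβ).1, le_rfl⟩
  exact tp_mono (Tg d n) (fun e => ⟨(hle e).2, (hle e).1.trans (tanh_mem β hβ).2.le⟩)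
    (T01_tanh β hβ) (fun e => (hle e).1) _ _

end H82.IC

end S_H82_IC_TZA
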