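import Mathlib
import Pool.Agent.H82.ICM.G02
import Pool.Agent.H82.ICM.G05

/-! MP_c4c051_pr: this file joins several modules to save build time. -/

section S_H82_IC_FWA

/-!
# FWA: double trace with the first flow free and the second wired (abstract)

`K` = inside edges; `t1 = τ` on `K`, `0` off `K`; `t2 = τ` on `K`, `1` off `K`.  Local weights `wFW`: on `K`: `wDT τ`; off `K`: first flow must be `0`, edge open, weight `1`.
`PF S T f = trc wFW (pr S T) f / (z t1 0 * z t2 0)`.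
* `pf_one`: marginal over `b`: on `K`: `hp τ a.1 * hp τ a.2`; off `K`: `1` if `a.1 = 0` and `0` otherwise `= hp t1 a.1 * hp t2 a.2`; `trc_pm2`.
* `pf_conn`: `trc_switch` with flows supported in `ω ∩ K`: `PF 0 0 1[x ↔ y in ω ∩ K] = PF (src x y) (src x y) 1[x ↔ y in ω ∩ K]`, and under the sources `(src x y, ·)` the connection in `ω ∩ K` is automatic: the first
  flow is supported in `K` (weight `0` otherwise) and in `ω` (`trc_congr_supp` gives support in `ω`; to have also the support in `K` expand the sum: a nonzero product forces `(η e).1 = 0` off `K`).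
* `pf_diff`: `PF 0 (src x y) 1 = tp t2 x y`, `PF 0 (src x y) 1[x ↔ y in ω ∩ K] = PF (src x y) 0 1[x ↔ y in ω ∩ K] = PF (src x y) 0 1 = tp t1 x y` (switch; `src x y + src x y = 0`; `z t2 0 / z t2 0 = 1`).  Subtract.  On the
  remaining event `x ↔ y` in `ω` (second flow, supported in `ω`) but not in `ω ∩ K`: `conn_split` with `Kᶜ`: there is `e ∉ K` with `x` connected in `ω ∩ K` to an end of `e`.
* `pf_src`: finite energy: `e0 ∈ K`, `f ≥ 0` monotone: `τ(e0)² * PF 0 (src (s e0) (r e0)) f ≤ PF 0 0 f`: map `(η, ω) ↦ (η + (0, 1_{e0}), insert e0 ω)`: for fixed `(η, ω \ e0)` the sum over the state of `e0` of the old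
  weight at `e0` is `≤ 1` (`hp hp ≤ 1`), the new weight at `e0` is `wDT τ e0 (a.1, a.2 + 1) true ≥ τ²`, `f ω ≤ f (insert e0 ω)`.  (Group the configurations `ω` by `ω \ {e0}`.)
* `pf_ins`: `τ(e0)² * PF 0 0 (fun ω => f (insert e0 ω)) ≤ PF 0 0 f` for `f ≥ 0`: the same without changing the flow: `∑_b w(a,b) ≤ 1` and `w(a,true) ≥ τ²`.
-/

set_option autoImplicit false

open Finset

namespace H82.IC

variable {V E : Type*} [Fintype E] [DecidableEq E]

noncomputable def wFW (K : Finset E) (τ : E → ℝ) (e : E) (a : ZMod 2 × ZMod 2) (b : Bool) : ℝ :=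
  if e ∈ K then wDT τ e a b else (if a.1 = 0 then (if b = true then 1 else 0) else 0)

noncomputable def tF (K : Finset E) (τ : E → ℝ) (e : E) : ℝ := if e ∈ K then τ e else 0

noncomputable def tW (K : Finset E) (τ : E → ℝ) (e : E) : ℝ := if e ∈ K then τ e else 1

noncomputable def Gr.PF (Γ : Gr V E) (K : Finset E) (τ : E → ℝ) (S T : V → ZMod 2)
    (f : Finset E → ℝ) : ℝ :=
  Γ.trc (wFW K τ) (pr S T) f / (Γ.z (tF K τ) 0 * Γ.z (tW K τ) 0)

theorem wFW_nonneg {τ : E → ℝ} (hτ : T01 τ) (K : Finset E) (e : E) (a : ZMod 2 × ZMod 2) (b : Bool) :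
    0 ≤ wFW K τ e a b := by
  unfold wFW
  split_ifs
  · exact wDT_nonneg hτ e a b
  · exact zero_le_one
  · exact le_rfl
  · exact le_rfl

theorem FWA_sum (K : Finset E) (τ : E → ℝ) (e : E) (a : ZMod 2 × ZMod 2) :
    wFW K τ e a true + wFW K τ e a false = hp (tF K τ) e a.1 * hp (tW K τ) e a.2 := by
  obtain ⟨a1, a2⟩ := a
  have h2 : ∀ a : ZMod 2, a = 0 ∨ a = 1 := by decide
  by_cases he : e ∈ K
  · rcases h2 a1 with rfl | rfl <;> rcases h2 a2 with rfl | rfl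
    · simp [wFW, wDT, hp, tF, tW, he]
    · simp [wFW, wDT, hp, tF, tW, he]
    · simp [wFW, wDT, hp, tF, tW, he]
    · simp [wFW, wDT, hp, tF, tW, he]
      ring
  · rcases h2 a1 with rfl | rfl <;> rcases h2 a2 with rfl | rfl <;>
      simp [wFW, hp, tF, tW, he]

theorem FWA_01F {τ : E → ℝ} (hτ : T01 τ) (K : Finset E) : T01 (tF K τ) := by
  intro e
  unfold tF
  split_ifs
  · exact hτ e
  · exact ⟨le_rfl, zero_le_one⟩

theorem FWA_01W {τ : E → ℝ} (hτ : T01 τ) (K : Finset E) : T01 (tW K τ) := by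
  intro e
  unfold tW
  split_ifs
  · exact hτ e
  · exact ⟨zero_le_one, le_rfl⟩

theorem FWA_D (Γ : Gr V E) {τ : E → ℝ} (hτ : T01 τ) (K : Finset E) :
    0 ≤ Γ.z (tF K τ) 0 * Γ.z (tW K τ) 0 :=
  mul_nonneg (z_nonneg Γ (FWA_01F hτ K) 0) (z_nonneg Γ (FWA_01W hτ K) 0)

theorem pf_one (Γ : Gr V E) {τ : E → ℝ} (hτ : T01 τ) (K : Finset E) (S T : V → ZMod 2) :
    Γ.PF K τ S T (fun _ => 1) =
      (Γ.z (tF K τ) S / Γ.z (tF K τ) 0) * (Γ.z (tW K τ) T / Γ.z (tW K τ) 0) := by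
  have _ := hτ
  unfold Gr.PF
  rw [trc_pm2 Γ (wFW K τ) (hp (tF K τ)) (hp (tW K τ)) (FWA_sum K τ) S T, div_mul_div_comm]
  rfl

theorem pf_mono (Γ : Gr V E) {τ : E → ℝ} (hτ : T01 τ) (K : Finset E) (S T : V → ZMod 2)
    {f g : Finset E → ℝ} (h : ∀ ω, f ω ≤ g ω) : Γ.PF K τ S T f ≤ Γ.PF K τ S T g := by
  unfold Gr.PF
  exact div_le_div_of_nonneg_right (trc_mono Γ _ (fun e a b => wFW_nonneg hτ K e a b) _ h)
    (FWA_D Γ hτ K)

theorem FWA_switch (Γ : Gr V E) (K : Finset E) (τ : E → ℝ) (S T : V → ZMod 2) (u v : V)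
    (f : Finset E → ℝ) (hf : ∀ ω : Finset E, f ω ≠ 0 → Γ.Conn ((ω : Set E) ∩ K) u v) :
    Γ.PF K τ S T f = Γ.PF K τ (S + src u v) (T + src u v) f := by
  unfold Gr.PF
  rw [← pr_add]
  refine congrArg (fun x => x / (Γ.z (tF K τ) 0 * Γ.z (tW K τ) 0)) ?_
  refine trc_switch Γ (wFW K τ) (pr S T) (pr (src u v) (src u v)) f fun ω hω => ?_
  obtain ⟨c, hc, hcω⟩ := exists_flow Γ (hf ω hω)
  refine ⟨fun e => (c e, c e), ?_, fun e he => ?_⟩
  · rw [bd_pr]
    show pr (Γ.bd c) (Γ.bd c) = _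
    rw [hc]
  · have hce : c e ≠ 0 := by
      intro h
      apply he
      show (c e, c e) = 0
      rw [h]
      rfl
    have h0 := hcω e hce
    have hK : e ∈ K := Finset.mem_coe.1 h0.2
    refine ⟨Finset.mem_coe.1 h0.1, fun a => ?_⟩
    have h1 : c e = 1 := by
      have h2 : ∀ a : ZMod 2, a ≠ 0 → a = 1 := by decide
      exact h2 _ hce
    show wFW K τ e (a + (c e, c e)) true = _
    rw [h1]
    have h3 : ((a + (1, 1)).1 = (a + (1, 1)).2) = (a.1 = a.2) := by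
      refine propext ⟨fun h => ?_, fun h => ?_⟩
      · exact add_right_cancel (b := (1 : ZMod 2)) h
      · show a.1 + 1 = a.2 + 1
        rw [h]
    simp only [wFW, if_pos hK, wDT, if_true, h3]

theorem FWA_closed (K : Finset E) (τ : E → ℝ) (e : E) (a : ZMod 2 × ZMod 2) (ha : a ≠ 0) :
    wFW K τ e a false = 0 := by
  unfold wFW
  by_cases he : e ∈ K
  · rw [if_pos he]
    exact wDT_closed τ e a ha
  · rw [if_neg he]
    simp

theorem FWA_off (K : Finset E) (τ : E → ℝ) (e : E) (he : e ∉ K) (a : ZMod 2 × ZMod 2) (ha : a.1 ≠ 0)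
    (b : Bool) : wFW K τ e a b = 0 := by
  unfold wFW
  rw [if_neg he, if_neg ha]

theorem FWA_supp (Γ : Gr V E) (K : Finset E) (τ : E → ℝ) (S T : V → ZMod 2) (f g : Finset E → ℝ)
    (h : ∀ (ω : Finset E) (η : E → ZMod 2 × ZMod 2), Γ.bd η = pr S T → (∀ e, η e ≠ 0 → e ∈ ω) →
      (∀ e, (η e).1 ≠ 0 → e ∈ K) → f ω = g ω) :
    Γ.PF K τ S T f = Γ.PF K τ S T g := by
  unfold Gr.PF
  refine congrArg (fun x => x / (Γ.z (tF K τ) 0 * Γ.z (tW K τ) 0)) ?_
  unfold Gr.trc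
  refine sum_congr rfl fun η _ => sum_congr rfl fun ω _ => ?_
  by_cases h1 : Γ.bd η = pr S T
  · by_cases h2 : ∀ e, η e ≠ 0 → e ∈ ω
    · by_cases h3 : ∀ e, (η e).1 ≠ 0 → e ∈ K
      · rw [h ω η h1 h2 h3]
      · push Not at h3
        obtain ⟨e, he, heK⟩ := h3
        have h4 : ∏ e, wFW K τ e (η e) (decide (e ∈ ω)) = 0 :=
          prod_eq_zero (mem_univ e) (FWA_off K τ e heK _ he _)
        rw [h4]
        simp
    · push Not at h2
      obtain ⟨e, he, heω⟩ := h2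
      have h3 : ∏ e, wFW K τ e (η e) (decide (e ∈ ω)) = 0 := by
        refine prod_eq_zero (mem_univ e) ?_
        have h4 : decide (e ∈ ω) = false := decide_eq_false heω
        rw [h4, FWA_closed K τ e _ he]
      rw [h3]
      simp
  · rw [ind_false h1, zero_mul, zero_mul]

theorem FWA_conn1 {Γ : Gr V E} {K ω : Finset E} {η : E → ZMod 2 × ZMod 2} {x y : V}
    {T : V → ZMod 2} (h1 : Γ.bd η = pr (src x y) T) (h2 : ∀ e, η e ≠ 0 → e ∈ ω)
    (h3 : ∀ e, (η e).1 ≠ 0 → e ∈ K) : Γ.Conn ((ω : Set E) ∩ K) x y :=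
  conn_of_flow Γ (DT1_first h1).1 fun e he =>
    ⟨(DT1_s1 h2).1 e he, Finset.mem_coe.2 (h3 e he)⟩

theorem FWA_conn2 {Γ : Gr V E} {ω : Finset E} {η : E → ZMod 2 × ZMod 2} {x y : V}
    {S : V → ZMod 2} (h1 : Γ.bd η = pr S (src x y)) (h2 : ∀ e, η e ≠ 0 → e ∈ ω) :
    Γ.Conn (ω : Set E) x y :=
  conn_of_flow Γ (DT1_first h1).2 (DT1_s1 h2).2

theorem pf_conn (Γ : Gr V E) {τ : E → ℝ} (hτ : T01 τ) (K : Finset E) (x y : V) :
    Γ.PF K τ 0 0 (fun ω => ind (Γ.Conn ((ω : Set E) ∩ K) x y)) =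
      Γ.tp (tF K τ) x y * Γ.tp (tW K τ) x y := by
  rw [FWA_switch Γ K τ 0 0 x y _ fun ω hω => ?_, zero_add,
    FWA_supp Γ K τ (src x y) (src x y) _ (fun _ => 1) fun ω η h1 h2 h3 => ?_, pf_one Γ hτ]
  · rfl
  · exact ind_true (FWA_conn1 h1 h2 h3)
  · by_contra hc
    exact hω (ind_false hc)

theorem FWA_sub (Γ : Gr V E) (K : Finset E) (τ : E → ℝ) (S T : V → ZMod 2) (f g : Finset E → ℝ) :
    Γ.PF K τ S T (fun ω => f ω - g ω) = Γ.PF K τ S T f - Γ.PF K τ S T g := by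
  unfold Gr.PF
  rw [trc_sub, sub_div]

theorem pf_diff (Γ : Gr V E) {τ : E → ℝ} (hτ : T01 τ) (K : Finset E) (x y : V) :
    Γ.tp (tW K τ) x y - Γ.tp (tF K τ) x y ≤
      Γ.PF K τ 0 (src x y) (fun ω => ind (∃ e, e ∉ K ∧
        (Γ.Conn ((ω : Set E) ∩ K) x (Γ.s e) ∨ Γ.Conn ((ω : Set E) ∩ K) x (Γ.r e)))) := by
  have hF : Γ.z (tF K τ) 0 / Γ.z (tF K τ) 0 = 1 :=
    div_self (by linarith [one_le_z Γ (FWA_01F hτ K)])
  have hW : Γ.z (tW K τ) 0 / Γ.z (tW K τ) 0 = 1 :=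
    div_self (by linarith [one_le_z Γ (FWA_01W hτ K)])
  have e1 : Γ.PF K τ 0 (src x y) (fun _ => 1) = Γ.tp (tW K τ) x y := by
    rw [pf_one Γ hτ, hF, one_mul]
    rfl
  have e2 : Γ.PF K τ 0 (src x y) (fun ω => ind (Γ.Conn ((ω : Set E) ∩ K) x y)) =
      Γ.tp (tF K τ) x y := by
    rw [FWA_switch Γ K τ 0 (src x y) x y _ fun ω hω => ?_, zero_add, src_add_self,
      FWA_supp Γ K τ (src x y) 0 _ (fun _ => 1) fun ω η h1 h2 h3 => ?_, pf_one Γ hτ, hW, mul_one]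
    · rfl
    · exact ind_true (FWA_conn1 h1 h2 h3)
    · by_contra hc
      exact hω (ind_false hc)
  rw [← e1, ← e2, ← FWA_sub Γ K τ 0 (src x y) (fun _ => 1)
    (fun ω => ind (Γ.Conn ((ω : Set E) ∩ K) x y)),
    FWA_supp Γ K τ 0 (src x y) _ (fun ω => (1 - ind (Γ.Conn ((ω : Set E) ∩ K) x y)) *
      ind (Γ.Conn (ω : Set E) x y)) fun ω η h1 h2 h3 => ?_]
  · refine pf_mono Γ hτ K 0 (src x y) fun ω => ?_
    by_cases h : Γ.Conn (ω : Set E) x y
    · by_cases h' : Γ.Conn ((ω : Set E) ∩ K) x y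
      · rw [ind_true h', sub_self, zero_mul]
        exact ind_nonneg _
      · have hset : (ω : Set E) \ ((K : Set E)ᶜ) = (ω : Set E) ∩ K := by
          rw [Set.sdiff_eq, compl_compl]
        obtain ⟨e, he, h3⟩ := conn_split Γ (K := (K : Set E)ᶜ) h (by rw [hset]; exact h')
        rw [hset] at h3
        rw [ind_false h', ind_true h, ind_true ⟨e, fun h4 => he.2 (Finset.mem_coe.2 h4), h3⟩]
        norm_num
    · rw [ind_false h, mul_zero]
      exact ind_nonneg _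
  · rw [ind_true (FWA_conn2 h1 h2), mul_one]

theorem FWA_split (e0 : E) (F : Finset E → ℝ) :
    ∑ ω, F ω = ∑ ω ∈ (univ.erase e0).powerset, (F ω + F (insert e0 ω)) := by
  rw [sum_add_distrib, ← Finset.sum_powerset_insert (Finset.notMem_erase e0 univ),
    Finset.insert_erase (mem_univ e0), Finset.powerset_univ]

theorem FWA_key (w : E → ZMod 2 × ZMod 2 → Bool → ℝ) (hw : ∀ e a b, 0 ≤ w e a b) (e0 : E)
    (c : ℝ) (hc : 0 ≤ c) (h1 : ∀ a, w e0 a true + w e0 a false ≤ 1) (h2 : ∀ a, c ≤ w e0 a true)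
    {f : Finset E → ℝ} (hf : ∀ ω, 0 ≤ f ω) (g : Finset E → ℝ) (hg : ∀ ω, g ω ≤ f (insert e0 ω))
    (η η' : E → ZMod 2 × ZMod 2) (hη : ∀ e, e ≠ e0 → η' e = η e) :
    c * ∑ ω, g ω * ∏ e, w e (η e) (decide (e ∈ ω)) ≤
      ∑ ω, f ω * ∏ e, w e (η' e) (decide (e ∈ ω)) := by
  rw [FWA_split e0 (fun ω => g ω * ∏ e, w e (η e) (decide (e ∈ ω))),
    FWA_split e0 (fun ω => f ω * ∏ e, w e (η' e) (decide (e ∈ ω))), mul_sum]
  refine sum_le_sum fun ω hω => ?_
  have he : e0 ∉ ω := fun h => (notMem_erase e0 univ) (mem_powerset.1 hω h)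
  set P : ℝ := ∏ e ∈ univ.erase e0, w e (η e) (decide (e ∈ ω)) with hPd
  have hP : 0 ≤ P := prod_nonneg fun e _ => hw _ _ _
  have p1 : ∏ e, w e (η e) (decide (e ∈ ω)) = w e0 (η e0) false * P := by
    rw [← Finset.mul_prod_erase univ _ (mem_univ e0), decide_eq_false he]
  have p2 : ∏ e, w e (η e) (decide (e ∈ insert e0 ω)) = w e0 (η e0) true * P := by
    rw [← Finset.mul_prod_erase univ _ (mem_univ e0), decide_eq_true (mem_insert_self e0 ω)]
    refine congrArg (fun x => w e0 (η e0) true * x) (prod_congr rfl fun e hee => ?_)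
    have h3 : e ≠ e0 := Finset.ne_of_mem_erase hee
    have h4 : decide (e ∈ insert e0 ω) = decide (e ∈ ω) :=
      decide_eq_decide.2 ⟨fun h => Finset.mem_of_mem_insert_of_ne h h3, fun h => mem_insert_of_mem h⟩
    rw [h4]
  have p3 : ∏ e, w e (η' e) (decide (e ∈ insert e0 ω)) = w e0 (η' e0) true * P := by
    rw [← Finset.mul_prod_erase univ _ (mem_univ e0), decide_eq_true (mem_insert_self e0 ω)]
    refine congrArg (fun x => w e0 (η' e0) true * x) (prod_congr rfl fun e hee => ?_)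
    have h3 : e ≠ e0 := Finset.ne_of_mem_erase hee
    have h4 : decide (e ∈ insert e0 ω) = decide (e ∈ ω) :=
      decide_eq_decide.2 ⟨fun h => Finset.mem_of_mem_insert_of_ne h h3, fun h => mem_insert_of_mem h⟩
    rw [h4, hη e h3]
  have p4 : 0 ≤ f ω * ∏ e, w e (η' e) (decide (e ∈ ω)) :=
    mul_nonneg (hf ω) (prod_nonneg fun e _ => hw _ _ _)
  have hg1 : g ω ≤ f (insert e0 ω) := hg ω
  have hg2 : g (insert e0 ω) ≤ f (insert e0 ω) := by
    have := hg (insert e0 ω)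
    rwa [Finset.insert_idem] at this
  show c * (g ω * ∏ e, w e (η e) (decide (e ∈ ω)) +
      g (insert e0 ω) * ∏ e, w e (η e) (decide (e ∈ insert e0 ω))) ≤
    f ω * ∏ e, w e (η' e) (decide (e ∈ ω)) +
      f (insert e0 ω) * ∏ e, w e (η' e) (decide (e ∈ insert e0 ω))
  rw [p1, p2, p3]
  have hG : 0 ≤ f (insert e0 ω) := hf _
  have q1 : g ω * (w e0 (η e0) false * P) ≤ f (insert e0 ω) * (w e0 (η e0) false * P) :=
    mul_le_mul_of_nonneg_right hg1 (mul_nonneg (hw _ _ _) hP)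
  have q2 : g (insert e0 ω) * (w e0 (η e0) true * P) ≤ f (insert e0 ω) * (w e0 (η e0) true * P) :=
    mul_le_mul_of_nonneg_right hg2 (mul_nonneg (hw _ _ _) hP)
  have q3 : (w e0 (η e0) true + w e0 (η e0) false) * (f (insert e0 ω) * P) ≤
      1 * (f (insert e0 ω) * P) := mul_le_mul_of_nonneg_right (h1 _) (mul_nonneg hG hP)
  have q4 : c * (f (insert e0 ω) * P) ≤ w e0 (η' e0) true * (f (insert e0 ω) * P) :=
    mul_le_mul_of_nonneg_right (h2 _) (mul_nonneg hG hP)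
  have q5 : g ω * (w e0 (η e0) false * P) + g (insert e0 ω) * (w e0 (η e0) true * P) ≤
      f (insert e0 ω) * P := by nlinarith [q1, q2, q3]
  have q6 := mul_le_mul_of_nonneg_left q5 hc
  nlinarith [q6, q4, p4]

theorem FWA_trc (Γ : Gr V E) (w : E → ZMod 2 × ZMod 2 → Bool → ℝ) (S : V → ZMod 2 × ZMod 2)
    (f : Finset E → ℝ) :
    Γ.trc w S f = ∑ η : E → ZMod 2 × ZMod 2, ind (Γ.bd η = S) *
      ∑ ω, f ω * ∏ e, w e (η e) (decide (e ∈ ω)) := by
  unfold Gr.trc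
  refine sum_congr rfl fun η _ => ?_
  rw [mul_sum]

theorem FWA_h1 {τ : E → ℝ} (hτ : T01 τ) (K : Finset E) (e : E) (a : ZMod 2 × ZMod 2) :
    wFW K τ e a true + wFW K τ e a false ≤ 1 := by
  rw [FWA_sum]
  have h : ∀ {t : E → ℝ}, T01 t → ∀ (e : E) (b : ZMod 2), 0 ≤ hp t e b ∧ hp t e b ≤ 1 := by
    intro t ht e b
    unfold hp
    split_ifs
    · exact ⟨zero_le_one, le_rfl⟩
    · exact ht e
  exact mul_le_one₀ (h (FWA_01F hτ K) e a.1).2 (h (FWA_01W hτ K) e a.2).1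
    (h (FWA_01W hτ K) e a.2).2

theorem FWA_h2 {τ : E → ℝ} (hτ : T01 τ) (K : Finset E) {e : E} (he : e ∈ K) (a : ZMod 2 × ZMod 2) :
    τ e ^ 2 ≤ wFW K τ e a true := by
  unfold wFW wDT
  rw [if_pos he, if_pos rfl]
  have := hτ e
  split_ifs
  · exact le_rfl
  · nlinarith [this.1, this.2]

theorem pf_src (Γ : Gr V E) {τ : E → ℝ} (hτ : T01 τ) (K : Finset E) {e0 : E} (he : e0 ∈ K)
    {f : Finset E → ℝ} (hf : ∀ ω, 0 ≤ f ω) (hm : Monotone f) :
    τ e0 ^ 2 * Γ.PF K τ 0 (src (Γ.s e0) (Γ.r e0)) f ≤ Γ.PF K τ 0 0 f := by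
  unfold Gr.PF
  rw [← mul_div_assoc]
  refine div_le_div_of_nonneg_right ?_ (FWA_D Γ hτ K)
  rw [FWA_trc, FWA_trc, mul_sum]
  set h : E → ZMod 2 × ZMod 2 := fun e => (0, (Pi.single e0 (1 : ZMod 2) : E → ZMod 2) e) with hh
  have hbd : Γ.bd h = pr 0 (src (Γ.s e0) (Γ.r e0)) := by
    rw [bd_pr]
    have e1 : Γ.bd (fun e => (h e).1) = 0 := bd_zero Γ
    have e2 : Γ.bd (fun e => (h e).2) = src (Γ.s e0) (Γ.r e0) := KA_bd_single Γ e0
    rw [e1, e2]
  rw [← Equiv.sum_comp (Equiv.addRight h) (fun η : E → ZMod 2 × ZMod 2 =>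
    ind (Γ.bd η = pr 0 0) * ∑ ω, f ω * ∏ e, wFW K τ e (η e) (decide (e ∈ ω)))]
  refine sum_le_sum fun η _ => ?_
  have h0 : (Equiv.addRight h) η = η + h := rfl
  have hself : pr 0 (src (Γ.s e0) (Γ.r e0)) + pr 0 (src (Γ.s e0) (Γ.r e0)) =
      (pr 0 0 : V → ZMod 2 × ZMod 2) := by
    rw [pr_add, src_add_self, add_zero]
  have h1 : ind (Γ.bd ((Equiv.addRight h) η) = pr 0 0) =
      ind (Γ.bd η = pr 0 (src (Γ.s e0) (Γ.r e0))) := by
    rw [h0, bd_add, hbd]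
    refine congrArg ind (propext ⟨fun h2 => ?_, fun h2 => ?_⟩)
    · rw [← hself] at h2
      exact add_right_cancel h2
    · rw [h2, hself]
  rw [h1, h0]
  have key := FWA_key (wFW K τ) (fun e a b => wFW_nonneg hτ K e a b) e0 (τ e0 ^ 2) (sq_nonneg _)
    (FWA_h1 hτ K e0) (FWA_h2 hτ K he) hf f (fun ω => hm (Finset.subset_insert e0 ω)) η (η + h)
    (fun e hee => by
      show η e + h e = η e
      have h2 : h e = 0 := by
        show ((0 : ZMod 2), (Pi.single e0 (1 : ZMod 2) : E → ZMod 2) e) = 0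
        rw [Pi.single_eq_of_ne hee]
        rfl
      rw [h2, add_zero])
  have := mul_le_mul_of_nonneg_left key (ind_nonneg (Γ.bd η = pr 0 (src (Γ.s e0) (Γ.r e0))))
  calc τ e0 ^ 2 * (ind (Γ.bd η = pr 0 (src (Γ.s e0) (Γ.r e0))) *
      ∑ ω, f ω * ∏ e, wFW K τ e (η e) (decide (e ∈ ω))) =
      ind (Γ.bd η = pr 0 (src (Γ.s e0) (Γ.r e0))) * (τ e0 ^ 2 *
      ∑ ω, f ω * ∏ e, wFW K τ e (η e) (decide (e ∈ ω))) := by ring
    _ ≤ _ := this

theorem pf_ins (Γ : Gr V E) {τ : E → ℝ} (hτ : T01 τ) (K : Finset E) {e0 : E} (he : e0 ∈ K)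
    {f : Finset E → ℝ} (hf : ∀ ω, 0 ≤ f ω) :
    τ e0 ^ 2 * Γ.PF K τ 0 0 (fun ω => f (insert e0 ω)) ≤ Γ.PF K τ 0 0 f := by
  unfold Gr.PF
  rw [← mul_div_assoc]
  refine div_le_div_of_nonneg_right ?_ (FWA_D Γ hτ K)
  rw [FWA_trc, FWA_trc, mul_sum]
  refine sum_le_sum fun η _ => ?_
  have key := FWA_key (wFW K τ) (fun e a b => wFW_nonneg hτ K e a b) e0 (τ e0 ^ 2) (sq_nonneg _)
    (FWA_h1 hτ K e0) (FWA_h2 hτ K he) hf (fun ω => f (insert e0 ω)) (fun ω => le_rfl) η η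
    (fun e _ => rfl)
  have := mul_le_mul_of_nonneg_left key (ind_nonneg (Γ.bd η = pr 0 0))
  calc τ e0 ^ 2 * (ind (Γ.bd η = pr 0 0) *
      ∑ ω, f (insert e0 ω) * ∏ e, wFW K τ e (η e) (decide (e ∈ ω))) =
      ind (Γ.bd η = pr 0 0) * (τ e0 ^ 2 *
      ∑ ω, f (insert e0 ω) * ∏ e, wFW K τ e (η e) (decide (e ∈ ω))) := by ring
    _ ≤ _ := this

end H82.IC

end S_H82_IC_FWA

section S_H82_IC_DEN

/-!
# DEN: density of open edges and connection probabilities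

* `fk_density` (abstract): for an edge `e0` with parameter `t = t e0` (`T01`), `(1 + t) * fkE 1[e0 ∈ ω] = t * (1 + fkE 1[s e0 ↔ r e0])`.
  Proof: `fkS_eq`; group `ω` and `insert e0 ω` (`e0 ∉ ω`): let `u ω` be the product of the other factors times `kap ω`, `i = ind (Conn ω s r) ∈ {0,1}`: the weights are `(1-t) u` and `t u (1 + i)` (`kap_insert`), in
  `insert e0 ω` the ends are connected.  So with `A = ∑ u i`, `B = ∑ u (1 - i)`: `Z = (1-t)(A+B) + t(2A+B) = (1+t) A + B`, `fkS 1[e0 ∈ ω] = t(2A+B)`, `fkS 1[s ↔ r] = (1-t) A + t(2A+B) = (1+t)A + tB`.  Check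
  `(1+t) t (2A+B) = t (Z + (1+t)A + tB)`: right side `= t(2(1+t)A + (1+t)B)`.
* `phiB_density`: through `phiB_self` (free, `e ∈ bE n`) and `phiB_wired` with `N = n + 1` (wired; in `GN d (n+1)` with all `E1` open the connection of `s e`, `r e` is the event `cn (s e) (r e)` for `ext true n (n+1) ω`:
  by the argument of `phiB_wired`, connection in the infinite configuration open outside `Λ_n` of two points of `Λ_n` is the same as connection in the finite graph).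
  It may be easier to do the computation directly for `fkw` and `kx` (with `kG_insert`): weights `2^{kx} (2t/(1-t))^{|ω|}`, `kx(insert e ω) = kx(ω) - 1[not s ↔ r]`.
-/

set_option autoImplicit false

open Finset

namespace H82.IC

theorem DEN_split {V E : Type*} [Fintype E] [DecidableEq E] (Γ : Gr V E) (t : E → ℝ) (e0 : E)
    (f : Finset E → ℝ) :
    Γ.fkS t f = ∑ ω ∈ (univ.erase e0).powerset,
      Γ.kap ω * (∏ e ∈ ω, t e) * (∏ e ∈ (insert e0 ω)ᶜ, (1 - t e)) *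
        ((1 - t e0) * f ω + t e0 * (1 + ind (Γ.Conn (ω : Set E) (Γ.s e0) (Γ.r e0))) *
          f (insert e0 ω)) := by
  rw [fkS_eq]
  have h0 : (univ : Finset (Finset E)) = (insert e0 (univ.erase e0)).powerset := by
    rw [insert_erase (mem_univ e0)]
    exact powerset_univ.symm
  rw [h0, sum_powerset_insert (notMem_erase e0 univ), ← sum_add_distrib]
  refine sum_congr rfl fun ω hω => ?_
  have he : e0 ∉ ω := fun h => notMem_erase e0 univ (mem_powerset.1 hω h)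
  have h1 : ωᶜ = insert e0 (insert e0 ω)ᶜ := by
    ext x
    simp only [mem_compl, mem_insert]
    constructor
    · intro hx
      by_cases h : x = e0
      · exact Or.inl h
      · exact Or.inr fun h' => h'.elim h hx
    · rintro (h | h)
      · rw [h]
        exact he
      · exact fun h' => h (Or.inr h')
  have h2 : e0 ∉ (insert e0 ω)ᶜ := by
    simp
  rw [kap_insert Γ he, prod_insert he, h1, prod_insert h2]
  ring

theorem fk_density {V E : Type*} [Fintype E] [DecidableEq E] (Γ : Gr V E) {t : E → ℝ}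
    (ht : T01 t) (e0 : E) :
    (1 + t e0) * Γ.fkE t (fun ω => ind (e0 ∈ ω)) =
      t e0 * (1 + Γ.fkE t (fun ω => ind (Γ.Conn (ω : Set E) (Γ.s e0) (Γ.r e0)))) := by
  have hz := one_le_z Γ ht
  have hz0 : Γ.z t 0 ≠ 0 := by
    intro h
    rw [h] at hz
    norm_num at hz
  have h1 : (1 + t e0) * Γ.fkS t (fun ω => ind (e0 ∈ ω)) =
      t e0 * (Γ.z t 0 + Γ.fkS t (fun ω => ind (Γ.Conn (ω : Set E) (Γ.s e0) (Γ.r e0)))) := by
    rw [← fkS_one, DEN_split Γ t e0, DEN_split Γ t e0, DEN_split Γ t e0, ← sum_add_distrib,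
      mul_sum, mul_sum]
    refine sum_congr rfl fun ω hω => ?_
    have he : e0 ∉ ω := fun h => notMem_erase e0 univ (mem_powerset.1 hω h)
    have h2 : ind (e0 ∈ ω) = 0 := by
      unfold ind
      exact if_neg he
    have h3 : ind (e0 ∈ insert e0 ω) = 1 := by
      unfold ind
      exact if_pos (mem_insert_self e0 ω)
    have h4 : ind (Γ.Conn ((insert e0 ω : Finset E) : Set E) (Γ.s e0) (Γ.r e0)) = 1 := by
      unfold ind
      exact if_pos (conn_edge Γ (mem_coe.2 (mem_insert_self e0 ω)))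
    simp only [h2, h3, h4]
    ring
  unfold Gr.fkE
  field_simp
  linarith

end H82.IC

end S_H82_IC_DEN

section S_H82_IC_AU

/-!
# AU: automorphisms of the lattice

`LAut d`: a permutation `gV` of the vertices and `gE` of the edges with `{s (gE e), r (gE e)} = {gV (s e), gV (r e)}`.
* `conn_aut`: `x ↔ y` in `{e | gE e ∈ S}` iff `gV x ↔ gV y` in `S`: (→) induction on the path, each step through `e` with `gE e ∈ S`.  (←): the inverse permutation: a step from `gV x` to `z` through an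
  edge `f = gE e`, so `{gV (s e), gV (r e)} = {gV x, z}`.
* `trA a` (translation by `a`), `ngA` (`x ↦ -x`; the edge `(x,i)` goes to `(-x - e_i, i)`), `pmA π` (permutation of the coordinates `x ↦ x ∘ π⁻¹`, edge `(x,i) ↦ (x ∘ π⁻¹, π i)`,
  `Pi.single i 1 ∘ π⁻¹ = Pi.single (π i) 1`).
* `nm` is invariant under `ngA`, `pmA π`, so `bx`, `bE` are (`gE e ∈ bE n ↔ e ∈ bE n`); for `trA a`: `nm (x + a) ≤ nm x + nm a`.
* `act g ω = fun e => ω (g.gE e)`; preimages of the events: `act g ω ∈ cn x y ↔ ω ∈ cn (gV x) (gV y)` etc.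
-/

set_option autoImplicit false

open Finset MeasureTheory

namespace H82.IC

variable {d : ℕ}

/-- automorphisms of the lattice. -/
structure LAut (d : ℕ) where
  gV : Equiv.Perm (Vx d)
  gE : Equiv.Perm (Ed d)
  ok : ∀ e, ((Zl d).s (gE e) = gV ((Zl d).s e) ∧ (Zl d).r (gE e) = gV ((Zl d).r e)) ∨
    ((Zl d).s (gE e) = gV ((Zl d).r e) ∧ (Zl d).r (gE e) = gV ((Zl d).s e))

/-- action on configurations. -/
def act (g : LAut d) (ω : Cf d) : Cf d := fun e => ω (g.gE e)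

theorem AU_adj (g : LAut d) {S : Set (Ed d)} {x y : Vx d}
    (h : (Zl d).Adj {e | g.gE e ∈ S} x y) : (Zl d).Adj S (g.gV x) (g.gV y) := by
  obtain ⟨e, he, hxy⟩ := h
  refine ⟨g.gE e, he, ?_⟩
  rcases g.ok e with ⟨h1, h2⟩ | ⟨h1, h2⟩ <;> rcases hxy with ⟨h3, h4⟩ | ⟨h3, h4⟩
  · left; rw [h1, h2, h3, h4]; exact ⟨rfl, rfl⟩
  · right; rw [h1, h2, h3, h4]; exact ⟨rfl, rfl⟩
  · right; rw [h1, h2, h3, h4]; exact ⟨rfl, rfl⟩
  · left; rw [h1, h2, h3, h4]; exact ⟨rfl, rfl⟩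

theorem AU_adj_inv (g : LAut d) {S : Set (Ed d)} {x z : Vx d}
    (h : (Zl d).Adj S (g.gV x) z) : ∃ y, g.gV y = z ∧ (Zl d).Adj {e | g.gE e ∈ S} x y := by
  obtain ⟨f, hf, hxy⟩ := h
  obtain ⟨e, rfl⟩ := g.gE.surjective f
  rcases g.ok e with ⟨h1, h2⟩ | ⟨h1, h2⟩ <;> rcases hxy with ⟨h3, h4⟩ | ⟨h3, h4⟩ <;>
    rw [h1] at h3 <;> rw [h2] at h4
  · exact ⟨(Zl d).r e, h4, e, hf, Or.inl ⟨g.gV.injective h3, rfl⟩⟩
  · exact ⟨(Zl d).s e, h3, e, hf, Or.inr ⟨rfl, g.gV.injective h4⟩⟩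
  · exact ⟨(Zl d).s e, h4, e, hf, Or.inr ⟨rfl, g.gV.injective h3⟩⟩
  · exact ⟨(Zl d).r e, h3, e, hf, Or.inl ⟨g.gV.injective h4, rfl⟩⟩

theorem AU_conn (g : LAut d) {S : Set (Ed d)} {x z : Vx d}
    (h : (Zl d).Conn S (g.gV x) z) : ∃ y, g.gV y = z ∧ (Zl d).Conn {e | g.gE e ∈ S} x y := by
  induction h with
  | refl => exact ⟨x, rfl, conn_refl _ _ _⟩
  | tail _ hab ih =>
    obtain ⟨y, hy, hc⟩ := ih
    rw [← hy] at hab
    obtain ⟨y', hy', hc'⟩ := AU_adj_inv g hab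
    exact ⟨y', hy', hc.tail hc'⟩

theorem conn_aut (g : LAut d) (S : Set (Ed d)) (x y : Vx d) :
    (Zl d).Conn {e | g.gE e ∈ S} x y ↔ (Zl d).Conn S (g.gV x) (g.gV y) := by
  constructor
  · intro h
    induction h with
    | refl => exact conn_refl _ _ _
    | tail _ hab ih => exact ih.tail (AU_adj g hab)
  · intro h
    obtain ⟨y', hy', hc⟩ := AU_conn g h
    rw [g.gV.injective hy'] at hc
    exact hc

theorem act_cn (g : LAut d) (ω : Cf d) (x y : Vx d) : act g ω ∈ cn x y ↔ ω ∈ cn (g.gV x) (g.gV y) := by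
  exact conn_aut g (opn ω) x y

theorem act_up (g : LAut d) (ω : Cf d) (S : Finset (Ed d)) :
    act g ω ∈ up S ↔ ω ∈ up (S.map g.gE.toEmbedding) := by
  constructor
  · intro h f hf
    obtain ⟨e, he, rfl⟩ := Finset.mem_map.1 hf
    exact h e he
  · intro h e he
    exact h _ (Finset.mem_map.2 ⟨e, he, rfl⟩)

theorem act_measurable (g : LAut d) : Measurable (act g) := by
  exact measurable_pi_lambda _ (fun e => measurable_pi_apply (g.gE e))

theorem exists_trA (a : Vx d) : ∃ g : LAut d, (∀ x, g.gV x = x + a) ∧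
    ∀ e, g.gE e = (e.1 + a, e.2) := by
  refine ⟨⟨Equiv.addRight a, Equiv.prodCongr (Equiv.addRight a) (Equiv.refl _), ?_⟩,
    fun x => rfl, fun e => rfl⟩
  intro e
  left
  refine ⟨rfl, ?_⟩
  show (e.1 + a) + Pi.single e.2 1 = (e.1 + Pi.single e.2 1) + a
  abel

theorem exists_ngA : ∃ g : LAut d, ∀ x, g.gV x = -x := by
  have hinv : Function.Involutive
      (fun e : Ed d => ((-e.1 - (Pi.single e.2 1 : Vx d), e.2) : Ed d)) := by
    intro e
    refine Prod.ext ?_ rfl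
    show -(-e.1 - (Pi.single e.2 1 : Vx d)) - (Pi.single e.2 1 : Vx d) = e.1
    abel
  refine ⟨⟨Equiv.neg _, hinv.toPerm, ?_⟩, fun x => rfl⟩
  intro e
  right
  constructor
  · show -e.1 - Pi.single e.2 1 = -(e.1 + Pi.single e.2 1)
    abel
  · show -e.1 - Pi.single e.2 1 + Pi.single e.2 1 = -e.1
    abel

theorem exists_pmA (π : Equiv.Perm (Fin d)) : ∃ g : LAut d, ∀ x i, g.gV x (π i) = x i := by
  have hc : ∀ (x : Vx d) (j : Fin d),
      (Equiv.arrowCongr π (Equiv.refl ℤ)) x j = x (π.symm j) := fun x j => rfl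
  refine ⟨⟨Equiv.arrowCongr π (Equiv.refl ℤ),
    Equiv.prodCongr (Equiv.arrowCongr π (Equiv.refl ℤ)) π, ?_⟩, fun x i => ?_⟩
  · intro e
    left
    refine ⟨rfl, ?_⟩
    funext j
    show (Equiv.arrowCongr π (Equiv.refl ℤ)) e.1 j + (Pi.single (π e.2) 1 : Vx d) j =
      (Equiv.arrowCongr π (Equiv.refl ℤ)) (e.1 + Pi.single e.2 1) j
    rw [hc, hc, Pi.add_apply, Pi.single_apply, Pi.single_apply]
    by_cases h : j = π e.2
    · rw [if_pos h, if_pos (by rw [h, Equiv.symm_apply_apply])]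
    · rw [if_neg h, if_neg (fun h' => h (by rw [← h', Equiv.apply_symm_apply]))]
  · show (Equiv.arrowCongr π (Equiv.refl ℤ)) x (π i) = x i
    rw [hc, Equiv.symm_apply_apply]

theorem nm_perm (π : Equiv.Perm (Fin d)) (x y : Vx d) (h : ∀ i, y (π i) = x i) : nm y = nm x := by
  unfold nm
  apply le_antisymm
  · refine Finset.sup_le fun j _ => ?_
    have h1 : y j = x (π.symm j) := by rw [← h, Equiv.apply_symm_apply]
    rw [h1]
    exact Finset.le_sup (f := fun i => (x i).natAbs) (Finset.mem_univ _)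
  · refine Finset.sup_le fun j _ => ?_
    rw [← h j]
    exact Finset.le_sup (f := fun i => (y i).natAbs) (Finset.mem_univ _)

/-- an automorphism preserving `nm` preserves the boxes. -/
theorem aut_bE (g : LAut d) (hg : ∀ x, nm (g.gV x) = nm x) (n : ℕ) (e : Ed d) :
    g.gE e ∈ bE d n ↔ e ∈ bE d n := by
  rw [mem_bE, mem_bE]
  rcases g.ok e with ⟨h1, h2⟩ | ⟨h1, h2⟩
  · rw [h1, h2, hg, hg]
  · rw [h1, h2, hg, hg]
    exact And.comm

theorem aut_bE_le (g : LAut d) (k : ℕ) (hg : ∀ x, nm (g.gV x) ≤ nm x + k) (n : ℕ) {e : Ed d}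
    (he : e ∈ bE d n) : g.gE e ∈ bE d (n + k) := by
  rw [mem_bE] at he ⊢
  have h3 := hg ((Zl d).s e)
  have h4 := hg ((Zl d).r e)
  rcases g.ok e with ⟨h1, h2⟩ | ⟨h1, h2⟩
  · rw [h1, h2]
    omega
  · rw [h1, h2]
    omega

end H82.IC

end S_H82_IC_AU

section S_H82_IC_AUP

/-!
# AUP: the finite volume measures under automorphisms

`phiG β (gV W) (gE Λ) ξ (act g)⁻¹ X = phiG β W Λ (act g ξ) X`: reindex the sums by `ω' = ω.map gE` (`ω ⊆ Λ`): `act g (glue (gE Λ) ξ ω') = glue Λ (act g ξ) ω`, same cardinality, and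
`kx (gV W) (glue (gE Λ) ξ ω') = kx W (act g (glue ...))`: clusters correspond by `gV` (`conn_aut`), so the numbers of distinct clusters are equal.
* `phiB_aut`: `g` with `nm (gV x) = nm x`: `gV (bx n) = bx n`, `gE (bE n) = bE n`.
* `phiB_shift`: `g` with `nm (gV x) ≤ nm x + k`: `gE (bE n) ⊆ bE (n+k)`; `phiG_free_mono` (the event `(act g)⁻¹ X` is increasing if `X` is).
-/

set_option autoImplicit false

open Finset

namespace H82.IC

variable {d : ℕ}

theorem AUP_glue (g : LAut d) (Λ : Finset (Ed d)) (ξ : Cf d) (ω : Finset (Ed d)) :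
    act g (glue (Λ.map g.gE.toEmbedding) ξ (ω.map g.gE.toEmbedding)) = glue Λ (act g ξ) ω := by
  have h1 : ∀ (S : Finset (Ed d)) (e : Ed d), g.gE e ∈ S.map g.gE.toEmbedding ↔ e ∈ S := fun S e =>
    Finset.mem_map' g.gE.toEmbedding
  funext e
  unfold act glue
  simp only [h1]

theorem AUP_kx (g : LAut d) (W : Finset (Vx d)) (ζ : Cf d) :
    kx (W.map g.gV.toEmbedding) ζ = kx W (act g ζ) := by
  have hcl : ∀ v : Vx d, (Zl d).cl (opn ζ) (g.gV v) = g.gV '' (Zl d).cl (opn (act g ζ)) v := by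
    intro v
    ext y
    constructor
    · intro hy
      refine ⟨g.gV.symm y, ?_, g.gV.apply_symm_apply y⟩
      have h1 := (conn_aut g (opn ζ) v (g.gV.symm y)).2 (by
        rw [g.gV.apply_symm_apply]
        exact hy)
      exact h1
    · rintro ⟨x, hx, rfl⟩
      exact (conn_aut g (opn ζ) v x).1 hx
  unfold kx
  have himg : {C : Set (Vx d) | ∃ v ∈ W.map g.gV.toEmbedding, C = (Zl d).cl (opn ζ) v} =
      (fun C : Set (Vx d) => g.gV '' C) ''
        {C : Set (Vx d) | ∃ v ∈ W, C = (Zl d).cl (opn (act g ζ)) v} := by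
    ext C
    constructor
    · rintro ⟨v, hv, rfl⟩
      obtain ⟨w, hw, rfl⟩ := Finset.mem_map.1 hv
      exact ⟨_, ⟨w, hw, rfl⟩, (hcl w).symm⟩
    · rintro ⟨C', ⟨w, hw, rfl⟩, rfl⟩
      exact ⟨g.gV w, Finset.mem_map.2 ⟨w, hw, rfl⟩, (hcl w).symm⟩
  rw [himg]
  exact Set.ncard_image_of_injective _ (Set.image_injective.2 g.gV.injective)

theorem AUP_fkw (g : LAut d) (β : ℝ) (W : Finset (Vx d)) (Λ : Finset (Ed d)) (ξ : Cf d)
    (ω : Finset (Ed d)) :
    fkw β (W.map g.gV.toEmbedding) (Λ.map g.gE.toEmbedding) ξ (ω.map g.gE.toEmbedding) =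
      fkw β W Λ (act g ξ) ω := by
  unfold fkw
  rw [AUP_kx, AUP_glue, Finset.card_map]

theorem AUP_sum (g : LAut d) (Λ : Finset (Ed d)) (F : Finset (Ed d) → ℝ) :
    ∑ ω ∈ (Λ.map g.gE.toEmbedding).powerset, F ω =
      ∑ ω ∈ Λ.powerset, F (ω.map g.gE.toEmbedding) := by
  symm
  refine Finset.sum_nbij (fun ω => ω.map g.gE.toEmbedding) ?_ ?_ ?_ (fun _ _ => rfl)
  · intro ω hω
    rw [Finset.mem_powerset] at hω ⊢
    exact Finset.map_subset_map.2 hω
  · intro ω _ ω' _ h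
    exact Finset.map_injective _ h
  · intro ω hω
    rw [Finset.mem_coe, Finset.mem_powerset, Finset.subset_map_iff] at hω
    obtain ⟨u, hu, rfl⟩ := hω
    exact ⟨u, Finset.mem_coe.2 (Finset.mem_powerset.2 hu), rfl⟩

theorem phiG_aut (g : LAut d) (β : ℝ) (W : Finset (Vx d)) (Λ : Finset (Ed d)) (ξ : Cf d)
    (X : Set (Cf d)) :
    phiG β (W.map g.gV.toEmbedding) (Λ.map g.gE.toEmbedding) ξ {ω | act g ω ∈ X} =
      phiG β W Λ (act g ξ) X := by
  unfold phiG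
  rw [AUP_sum, AUP_sum]
  simp only [AUP_fkw, Set.mem_ofPred_eq, AUP_glue]

theorem phiB_aut (g : LAut d) (hg : ∀ x, nm (g.gV x) = nm x) (β : ℝ) (n : ℕ) (b : Bool)
    (X : Set (Cf d)) : phiB β n b {ω | act g ω ∈ X} = phiB β n b X := by
  have h1 : (bx d n).map g.gV.toEmbedding = bx d n := by
    ext x
    rw [Finset.mem_map_equiv, mem_bx, mem_bx]
    have h2 := hg (g.gV.symm x)
    rw [g.gV.apply_symm_apply] at h2
    rw [h2]
  have h3 : (bE d n).map g.gE.toEmbedding = bE d n := by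
    ext e
    rw [Finset.mem_map_equiv]
    have h4 := aut_bE g hg n (g.gE.symm e)
    rw [g.gE.apply_symm_apply] at h4
    exact h4.symm
  have h5 := phiG_aut g β (bx d n) (bE d n) (fun _ => b) X
  rw [h1, h3] at h5
  exact h5

theorem phiB_shift (g : LAut d) (k : ℕ) (hg : ∀ x, nm (g.gV x) ≤ nm x + k) {β : ℝ} (hβ : 0 ≤ β)
    (n : ℕ) {X : Set (Cf d)} (hX : Inc X) :
    phiB β n false X ≤ phiB β (n + k) false {ω | act g ω ∈ X} := by
  have h5 := phiG_aut g β (bx d n) (bE d n) (fun _ => false) X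
  have h6 : phiB β n false X = phiG β ((bx d n).map g.gV.toEmbedding)
      ((bE d n).map g.gE.toEmbedding) (fun _ => false) {ω | act g ω ∈ X} := h5.symm
  rw [h6]
  refine phiG_free_mono hβ _ _ _ _ ?_ ?_ ?_ ?_
  · intro e he
    obtain ⟨e0, he0, rfl⟩ := Finset.mem_map.1 he
    have h7 := mem_bE.1 he0
    have h8 : ∀ x : Vx d, nm x ≤ n → g.gV x ∈ (bx d n).map g.gV.toEmbedding := fun x hx =>
      Finset.mem_map.2 ⟨x, mem_bx.2 hx, rfl⟩
    change (Zl d).s (g.gE e0) ∈ _ ∧ (Zl d).r (g.gE e0) ∈ _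
    rcases g.ok e0 with ⟨h9, h10⟩ | ⟨h9, h10⟩
    · rw [h9, h10]
      exact ⟨h8 _ h7.1, h8 _ h7.2⟩
    · rw [h9, h10]
      exact ⟨h8 _ h7.2, h8 _ h7.1⟩
  · intro e he
    have h7 := mem_bE.1 he
    exact ⟨mem_bx.2 h7.1, mem_bx.2 h7.2⟩
  · intro e he
    obtain ⟨e0, he0, rfl⟩ := Finset.mem_map.1 he
    exact aut_bE_le g k hg n he0
  · intro ω ω' h hω
    exact hX _ _ (fun e he => h (g.gE e) he) hω

end H82.IC

end S_H82_IC_AUP

section S_H82_IC_IV2

/-!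
# IV2: invariance and limits of the infinite volume measure

`μ` with `IsLim β false μ` (`β ≥ 0`).
* `lim_aut`: `g` with `nm (gV x) = nm x`: for every `S`: `phiB β n false {act g ω ∈ up S} = phiB β n false (up S)` (`phiB_aut`), limits: `μ (act g)⁻¹(up S) = μ (up S)`
  (`{ω | act g ω ∈ up S} = up (S.map gE)` is local), so `μ.map (act g) = μ` by `measure_ext_up`.
* `lim_shift`: `g = trA a`: `phiB n false (up S) ≤ phiB (n+k) false (act g)⁻¹(up S)`, limit `n → ∞`: `μ (up S) ≤ μ (up (S.map gE))`; the same for the inverse translation applied to `S.map gE`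
  gives equality.
* `real_aut`: for measurable `X`: `μ.real {ω | act g ω ∈ X} = μ.real X`.
* `G_shift`: `μ (cn x y) = μ (cn 0 (y - x))`;  `arm_shift`: (used in SYM).
* `tendsto_cnB`: `μ (cnB n x y) → μ (cn x y)` (continuity from below); `tendsto_arm`: `μ (arm n 0) → μ (perc)` (continuity from above, `arm_anti`).
* `free_le`: `phiB β m false X ≤ μ X` for increasing cylinder `X` (monotone sequence below its limit); also for `X = cn x y ∩ up S`: for fixed `m`, in the free box measure on `Λ_m` all open edges are in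
  `bE m`, so `cn x y` equals `cnB m x y` there, `phiB m false (cn x y ∩ up S) = phiB m false (cnB m x y ∩ up S) ≤ μ (cnB m x y ∩ up S) ≤ μ (cn x y ∩ up S)`.
* `G_pos`: `μ (cn x y) > 0` if `β > 0`: `μ (cn x y) ≥ phiB β n false (up (bE n)) > 0` (`box_conn`).
-/

set_option autoImplicit false

open Finset MeasureTheory Filter Topology

namespace H82.IC

variable {d : ℕ}

theorem IV2_ext {μ : Measure (Cf d)} [IsProbabilityMeasure μ] (g : LAut d)
    (h : ∀ S : Finset (Ed d), μ.real {ω | act g ω ∈ up S} = μ.real (up S))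
    (X : Set (Cf d)) (hX : MeasurableSet X) : μ.real {ω | act g ω ∈ X} = μ.real X := by
  haveI : IsProbabilityMeasure (μ.map (act g)) :=
    Measure.isProbabilityMeasure_map (act_measurable g).aemeasurable
  have e : μ.map (act g) = μ := by
    refine measure_ext_up _ _ fun S => ?_
    rw [map_measureReal_apply (act_measurable g) (lcl_measurable (lcl_up S))]
    exact h S
  have e2 : (μ.map (act g)).real X = μ.real {ω | act g ω ∈ X} :=
    map_measureReal_apply (act_measurable g) hX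
  rw [← e2, e]

theorem IV2_up (g : LAut d) (S : Finset (Ed d)) :
    {ω : Cf d | act g ω ∈ up S} = up (S.map g.gE.toEmbedding) := by
  ext ω
  exact act_up g ω S

theorem lim_aut {β : ℝ} (hβ : 0 ≤ β) {μ : Measure (Cf d)} (hμ : IsLim β false μ) (g : LAut d)
    (hg : ∀ x, nm (g.gV x) = nm x) (X : Set (Cf d)) (hX : MeasurableSet X) :
    μ.real {ω | act g ω ∈ X} = μ.real X := by
  haveI := hμ.1
  refine IV2_ext g (fun S => ?_) X hX
  have h1 : Lcl {ω : Cf d | act g ω ∈ up S} := by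
    rw [IV2_up]
    exact lcl_up _
  have h2 := hμ.2 _ h1
  have h3 := hμ.2 _ (lcl_up S)
  refine tendsto_nhds_unique h2 (h3.congr fun n => ?_)
  exact (phiB_aut g hg β n false (up S)).symm

theorem IV2_le {β : ℝ} (hβ : 0 ≤ β) {μ : Measure (Cf d)} (hμ : IsLim β false μ) (g : LAut d)
    (a : Vx d) (hg : ∀ x, g.gV x = x + a) (S : Finset (Ed d)) :
    μ.real (up S) ≤ μ.real (up (S.map g.gE.toEmbedding)) := by
  have hk : ∀ x, nm (g.gV x) ≤ nm x + nm a := by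
    intro x
    rw [hg]
    exact nm_add x a
  have h1 := hμ.2 _ (lcl_up S)
  have h2 := (hμ.2 _ (lcl_up (S.map g.gE.toEmbedding))).comp (tendsto_add_atTop_nat (nm a))
  refine le_of_tendsto_of_tendsto' h1 h2 fun n => ?_
  have h3 := phiB_shift g (nm a) hk hβ n (inc_up S)
  rw [IV2_up] at h3
  exact h3

theorem IV2_inv (g : LAut d) : ∃ g' : LAut d, g'.gV = g.gV.symm ∧ g'.gE = g.gE.symm := by
  refine ⟨⟨g.gV.symm, g.gE.symm, fun e => ?_⟩, rfl, rfl⟩
  have h := g.ok (g.gE.symm e)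
  rw [Equiv.apply_symm_apply] at h
  rcases h with ⟨h1, h2⟩ | ⟨h1, h2⟩
  · left
    rw [h1, h2, Equiv.symm_apply_apply, Equiv.symm_apply_apply]
    exact ⟨rfl, rfl⟩
  · right
    rw [h1, h2, Equiv.symm_apply_apply, Equiv.symm_apply_apply]
    exact ⟨rfl, rfl⟩

theorem lim_shift {β : ℝ} (hβ : 0 ≤ β) {μ : Measure (Cf d)} (hμ : IsLim β false μ) (g : LAut d)
    (a : Vx d) (hg : ∀ x, g.gV x = x + a) (X : Set (Cf d)) (hX : MeasurableSet X) :
    μ.real {ω | act g ω ∈ X} = μ.real X := by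
  haveI := hμ.1
  refine IV2_ext g (fun S => ?_) X hX
  rw [IV2_up]
  refine le_antisymm ?_ (IV2_le hβ hμ g a hg S)
  obtain ⟨g', hV, hE⟩ := IV2_inv g
  have hg' : ∀ x, g'.gV x = x + (-a) := by
    intro x
    rw [hV, Equiv.symm_apply_eq, hg]
    abel
  have h1 := IV2_le hβ hμ g' (-a) hg' (S.map g.gE.toEmbedding)
  have h2 : (S.map g.gE.toEmbedding).map g'.gE.toEmbedding = S := by
    rw [hE]
    ext e
    simp
  rw [h2] at h1
  exact h1

theorem G_shift {β : ℝ} (hβ : 0 ≤ β) {μ : Measure (Cf d)} (hμ : IsLim β false μ) (x y : Vx d) :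
    μ.real (cn x y) = μ.real (cn 0 (y - x)) := by
  obtain ⟨g, hg, -⟩ := exists_trA x
  rw [← lim_shift hβ hμ g x hg (cn 0 (y - x)) (meas_cn _ _)]
  have e : {ω : Cf d | act g ω ∈ cn 0 (y - x)} = cn x y := by
    ext ω
    show act g ω ∈ cn 0 (y - x) ↔ _
    rw [act_cn, hg, hg, zero_add, sub_add_cancel]
  rw [e]

theorem G_neg {β : ℝ} (hβ : 0 ≤ β) {μ : Measure (Cf d)} (hμ : IsLim β false μ) (x : Vx d) :
    μ.real (cn 0 (-x)) = μ.real (cn 0 x) := by
  obtain ⟨g, hg⟩ := exists_ngA (d := d)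
  rw [← lim_aut hβ hμ g (fun z => by rw [hg, nm_neg]) (cn 0 x) (meas_cn _ _)]
  have e : {ω : Cf d | act g ω ∈ cn 0 x} = cn 0 (-x) := by
    ext ω
    show act g ω ∈ cn 0 x ↔ _
    rw [act_cn, hg, hg, neg_zero]
  rw [e]

theorem tendsto_cnB {μ : Measure (Cf d)} [IsProbabilityMeasure μ] (S : Finset (Ed d)) (x y : Vx d) :
    Tendsto (fun n => μ.real (cnB n x y ∩ up S)) atTop (𝓝 (μ.real (cn x y ∩ up S))) := by
  have e : (cn x y ∩ up S : Set (Cf d)) = ⋃ n, (cnB n x y ∩ up S) := by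
    rw [cn_eq, Set.iUnion_inter]
  have hm : Monotone (fun n => (cnB n x y ∩ up S : Set (Cf d))) := by
    intro m n h
    exact Set.inter_subset_inter_left _ (cnB_mono h x y)
  have h1 := tendsto_measure_iUnion_atTop (μ := μ) hm
  rw [← e] at h1
  exact (ENNReal.tendsto_toReal (measure_ne_top μ _)).comp h1

theorem tendsto_arm (hd : 1 ≤ d) {μ : Measure (Cf d)} [IsProbabilityMeasure μ] :
    Tendsto (fun n => μ.real (arm n (0 : Vx d))) atTop (𝓝 (μ.real (perc d))) := by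
  have hm : Antitone (fun n => (arm n (0 : Vx d) : Set (Cf d))) := by
    intro m n h
    exact arm_anti hd h (by rw [nm_zero]; exact Nat.zero_le _)
  have h1 := tendsto_measure_iInter_atTop (μ := μ)
    (fun n => (meas_arm n (0 : Vx d)).nullMeasurableSet) hm ⟨0, measure_ne_top μ _⟩
  rw [← perc_eq hd] at h1
  exact (ENNReal.tendsto_toReal (measure_ne_top μ _)).comp h1

theorem free_le {β : ℝ} (hβ : 0 ≤ β) {μ : Measure (Cf d)} (hμ : IsLim β false μ) (m : ℕ)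
    {X : Set (Cf d)} (hX : Inc X) (hl : Lcl X) : phiB β m false X ≤ μ.real X := by
  refine ge_of_tendsto (hμ.2 X hl) ?_
  filter_upwards [eventually_ge_atTop m] with n hn
  exact phiB_free_mono hβ hn hX

theorem IV2_cnB_sub (n : ℕ) (x y : Vx d) : (cnB n x y : Set (Cf d)) ⊆ cn x y := by
  intro ω hω
  exact conn_mono (Zl d) Set.inter_subset_left hω

theorem IV2_glue (m : ℕ) (ω : Finset (Ed d)) :
    opn (glue (bE d m) (fun _ => false) ω) ∩ (bE d m : Set (Ed d)) =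
      opn (glue (bE d m) (fun _ => false) ω) := by
  ext e
  constructor
  · exact fun h => h.1
  · intro h
    refine ⟨h, ?_⟩
    by_contra hn
    have h1 : glue (bE d m) (fun _ => false) ω e = true := h
    rw [Finset.mem_coe] at hn
    unfold glue at h1
    rw [if_neg hn] at h1
    exact Bool.false_ne_true h1

theorem free_le_cn {β : ℝ} (hβ : 0 ≤ β) {μ : Measure (Cf d)} (hμ : IsLim β false μ) (m : ℕ)
    (S : Finset (Ed d)) (x y : Vx d) :
    phiB β m false (cn x y ∩ up S) ≤ μ.real (cn x y ∩ up S) := by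
  haveI := hμ.1
  have e : phiB β m false (cn x y ∩ up S) = phiB β m false (cnB m x y ∩ up S) := by
    unfold phiB phiG
    congr 1
    refine sum_congr rfl fun ω _ => ?_
    congr 2
    apply propext
    refine and_congr ?_ Iff.rfl
    show (Zl d).Conn (opn (glue (bE d m) (fun _ => false) ω)) x y ↔
      (Zl d).Conn (opn (glue (bE d m) (fun _ => false) ω) ∩ (bE d m : Set (Ed d))) x y
    rw [IV2_glue]
  rw [e]
  refine (free_le hβ hμ m (inc_inter (inc_cnB m x y) (inc_up S))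
    (lcl_inter (lcl_cnB m x y) (lcl_up S))).trans ?_
  exact measureReal_mono (Set.inter_subset_inter_left _ (IV2_cnB_sub m x y))

theorem IV2_fkw_pos {β : ℝ} (hβ : 0 < β) (W : Finset (Vx d)) (Λ : Finset (Ed d)) (ξ : Cf d)
    (ω : Finset (Ed d)) : 0 < fkw β W Λ ξ ω := by
  have h1 : 0 < Real.exp (2 * β) - 1 := by
    have := Real.one_lt_exp_iff.2 (show (0 : ℝ) < 2 * β by linarith)
    linarith
  unfold fkw
  positivity

theorem IV2_phiB_pos {β : ℝ} (hβ : 0 < β) (n : ℕ) :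
    0 < phiB β n false (up (bE d n)) := by
  unfold phiB phiG
  have h0 : ∀ p : Prop, 0 ≤ ind p := by
    intro p
    unfold ind
    split_ifs
    · exact zero_le_one
    · exact le_refl _
  refine div_pos ?_ ?_
  · refine sum_pos' (fun ω _ => mul_nonneg (IV2_fkw_pos hβ _ _ _ _).le (h0 _))
      ⟨bE d n, mem_powerset_self _, ?_⟩
    have h1 : ind (glue (bE d n) (fun _ => false) (bE d n) ∈ up (bE d n)) = 1 := by
      unfold ind
      rw [if_pos]
      intro e he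
      unfold glue
      rw [if_pos he]
      simp [he]
    rw [h1, mul_one]
    exact IV2_fkw_pos hβ _ _ _ _
  · exact sum_pos (fun ω _ => IV2_fkw_pos hβ _ _ _ _) ⟨bE d n, mem_powerset_self _⟩

theorem G_pos {β : ℝ} (hβ : 0 < β) {μ : Measure (Cf d)} (hμ : IsLim β false μ) (x y : Vx d) :
    0 < μ.real (cn x y) := by
  haveI := hμ.1
  obtain ⟨n, hn⟩ : ∃ n, n = max (nm x) (nm y) := ⟨_, rfl⟩
  have h1 := IV2_phiB_pos (d := d) hβ n
  have h2 := free_le hβ.le hμ n (inc_up (bE d n)) (lcl_up (bE d n))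
  have h3 : (up (bE d n) : Set (Cf d)) ⊆ cn x y := by
    intro ω hω
    have h4 : (bE d n : Set (Ed d)) ⊆ opn ω := fun e he => hω e he
    exact conn_mono (Zl d) h4 (box_conn (by rw [hn]; exact le_max_left _ _)
      (by rw [hn]; exact le_max_right _ _))
  exact lt_of_lt_of_le h1 (h2.trans (measureReal_mono h3))

theorem arm_pos (hd : 1 ≤ d) {β : ℝ} (hβ : 0 < β) {μ : Measure (Cf d)} (hμ : IsLim β false μ)
    (n : ℕ) (u : Vx d) : 0 < μ.real (arm n u) := by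
  haveI := hμ.1
  have hy : nm (fun _ => (n : ℤ) : Vx d) = n := by
    unfold nm
    haveI : Nonempty (Fin d) := ⟨⟨0, hd⟩⟩
    rw [Finset.sup_const univ_nonempty, Int.natAbs_natCast]
  refine lt_of_lt_of_le (G_pos hβ hμ u (fun _ => (n : ℤ))) (measureReal_mono ?_)
  intro ω hω
  exact ⟨_, (mem_bdry hd).2 hy, hω⟩

end H82.IC

end S_H82_IC_IV2

section S_H82_IC_ADM

/-!
# ADM: conditioning on the edges of `E1`, the admissible case `|A| = 1`

`W` a finite set of vertices, all edges not in `E1` have both ends in `W` (`hE1`), `B` a set of vertices.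
`rch ω B z` : `z ↔ B` in `ω`;  `mlt W B ω` : there are two points of `W` connected to `B` in `ω` and not connected to each other in `ω`;
`adm W B ω` : some point of `W` is connected to `B` in `ω` and not `mlt`;  `rep W B ω o` : a point of `W` connected to `B` (if any).

* `rch_iff`: if `ω ∩ E1 = η` and `u ∈ W` then `rch ω B u ↔ ∃ z ∈ W, Conn ω u z ∧ rch η B z`: (←) `η ⊆ ω`.  (→): take the last vertex of the path from `u` to `b ∈ B` that is
  in `W` (induction on the path, from the `b` side: statement for every vertex `x` of the path: either the rest of the path from `x` to `b` is in `η` or there is a later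
  `z ∈ W` on it): the edges after it are not edges outside `E1` (those have both ends in `W`), so they are in `E1`, i.e. in `η`.
* `rch_adm`: if moreover `adm W B η` then `rch ω B u ↔ Conn ω u (rep W B η o)`.
* `adm_bounds`: by `fkE_dlr`, `fkE t (f 1[rch ω B o']) = ∑_{η ⊆ E1} prE η * fkE (setT E1 η t) (f 1[rch ω B o'])`, and by `fkE_setT_supp` one may use `ω ∩ E1 = η`:
  if `adm η`: `fkE (setT) (f 1[Conn o' (rep η)])`;  if no `z ∈ W` is connected to `B` in `η`: `0`;  otherwise `mlt η`: between `0` and `1`; and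
  `∑_{η : mlt η} prE η = fkE t 1[mlt (ω ∩ E1)]` (`fkE_dlr` for this function).
* `DD_final`: `adm_bounds` for `f = 1[ω ∩ F = ∅]` and `f = 1`, triangle inequality.
* `DD_transfer`: for `adm_B η`: some `z ∈ W` has `rch η B z`, hence `rch η B' z`; so either `adm_{B'} η` and then `rep_B η`, `rep_{B'} η` are both connected to `B'` in `η`,
  hence connected to each other in `η ⊆ ω` and the two terms agree (`fkE_setT_supp`; `tp` via `fkE_conn`); or `mlt_{B'} η`, and the term is `≤ prE η (1 + |c|)`.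
* `mlt_rare`: `fe_close` with `F = E1ᶜ` and `f ω = 1[mlt (ω ∩ E1)]`, `(ω \ E1ᶜ) ∩ E1 = ω ∩ E1`; if `ω` is disjoint from `E1ᶜ` then `ω ∩ E1 = ω`, so `mlt ω`, which is contained in the union over
  `z, z' ∈ W` of the events of `product_bound`.
-/

set_option autoImplicit false

open Finset

namespace H82.IC

section Defs
variable {V E : Type*}

def Gr.rch (Γ : Gr V E) (ω : Set E) (B : Set V) (z : V) : Prop := ∃ b ∈ B, Γ.Conn ω z b

def Gr.mlt (Γ : Gr V E) (W : Finset V) (B : Set V) (ω : Set E) : Prop :=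
  ∃ z ∈ W, ∃ z' ∈ W, Γ.rch ω B z ∧ Γ.rch ω B z' ∧ ¬ Γ.Conn ω z z'

def Gr.adm (Γ : Gr V E) (W : Finset V) (B : Set V) (ω : Set E) : Prop :=
  (∃ z ∈ W, Γ.rch ω B z) ∧ ¬ Γ.mlt W B ω

noncomputable def Gr.rep (Γ : Gr V E) (W : Finset V) (B : Set V) (ω : Set E) (o : V) : V :=
  open Classical in if h : ∃ z ∈ W, Γ.rch ω B z then h.choose else o

end Defs

variable {V E : Type*} [Fintype E] [DecidableEq E]

/-- the admissible `η ⊆ E1`. -/
noncomputable def Gr.admS (Γ : Gr V E) (W : Finset V) (B : Set V) (E1 : Finset E) :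
    Finset (Finset E) :=
  open Classical in E1.powerset.filter (fun η => Γ.adm W B (η : Set E))

/-- `M(u)`. -/
noncomputable def Gr.MM (Γ : Gr V E) (t : E → ℝ) (W : Finset V) (B : Set V) (E1 : Finset E) (o u : V) : ℝ :=
  ∑ η ∈ Γ.admS W B E1, Γ.prE t E1 η * Γ.tp (setT E1 η t) u (Γ.rep W B (η : Set E) o)

/-- `P[|A| ≥ 2]`. -/
noncomputable def Gr.rr (Γ : Gr V E) (t : E → ℝ) (W : Finset V) (B : Set V) (E1 : Finset E) : ℝ :=
  Γ.fkE t (fun ω => ind (Γ.mlt W B ((ω ∩ E1 : Finset E) : Set E)))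

/-- the distance `E[1_adm |φ_H[ω_F = 0, o ↔ a] - c φ_H[o ↔ a]|]`. -/
noncomputable def Gr.DD (Γ : Gr V E) (t : E → ℝ) (W : Finset V) (B : Set V) (E1 F : Finset E) (c : ℝ)
    (o : V) : ℝ :=
  ∑ η ∈ Γ.admS W B E1, Γ.prE t E1 η *
    |Γ.fkE (setT E1 η t) (fun ω => ind (Disjoint ω F) *
        ind (Γ.Conn (ω : Set E) o (Γ.rep W B (η : Set E) o))) -
      c * Γ.tp (setT E1 η t) o (Γ.rep W B (η : Set E) o)|

theorem rch_iff (Γ : Gr V E) (W : Finset V) (B : Set V) {E1 η ω : Finset E}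
    (hE1 : ∀ e, e ∉ E1 → Γ.s e ∈ W ∧ Γ.r e ∈ W) (hω : ω ∩ E1 = η) {u : V} (hu : u ∈ W) :
    Γ.rch (ω : Set E) B u ↔ ∃ z ∈ W, Γ.Conn (ω : Set E) u z ∧ Γ.rch (η : Set E) B z := by
  have hηω : (η : Set E) ⊆ (ω : Set E) := by
    rw [← hω]
    exact Finset.coe_subset.2 Finset.inter_subset_left
  constructor
  · rintro ⟨b, hb, hc⟩
    have key : Γ.Conn (η : Set E) u b ∨ ∃ z ∈ W, Γ.Conn (ω : Set E) u z ∧ Γ.Conn (η : Set E) z b := by
      clear hu
      induction hc using Relation.ReflTransGen.head_induction_on with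
      | refl => exact Or.inl (conn_refl Γ _ _)
      | head h1 h2 ih =>
        rename_i x y
        have hxy : Γ.Conn (ω : Set E) x y := Relation.ReflTransGen.single h1
        rcases ih with ih | ⟨z, hz, ih1, ih2⟩
        · obtain ⟨e, he, h3⟩ := h1
          by_cases he1 : e ∈ E1
          · refine Or.inl (Relation.ReflTransGen.head ⟨e, ?_, h3⟩ ih)
            rw [Finset.mem_coe, ← hω, Finset.mem_inter]
            exact ⟨he, he1⟩
          · obtain ⟨h4, h5⟩ := hE1 e he1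
            have hy : y ∈ W := by
              rcases h3 with ⟨-, rfl⟩ | ⟨rfl, -⟩
              · exact h5
              · exact h4
            exact Or.inr ⟨y, hy, hxy, ih⟩
        · exact Or.inr ⟨z, hz, conn_trans Γ hxy ih1, ih2⟩
    rcases key with h | ⟨z, hz, h1, h2⟩
    · exact ⟨u, hu, conn_refl Γ _ _, b, hb, h⟩
    · exact ⟨z, hz, h1, b, hb, h2⟩
  · rintro ⟨z, -, h1, b, hb, h2⟩
    exact ⟨b, hb, conn_trans Γ h1 (conn_mono Γ hηω h2)⟩

theorem ADM_rep (Γ : Gr V E) (W : Finset V) (B : Set V) (ω : Set E) (o : V)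
    (h : ∃ z ∈ W, Γ.rch ω B z) : Γ.rep W B ω o ∈ W ∧ Γ.rch ω B (Γ.rep W B ω o) := by
  have h1 : Γ.rep W B ω o = h.choose := by
    unfold Gr.rep
    rw [dif_pos h]
  rw [h1]
  exact h.choose_spec

theorem ADM_not_mlt {Γ : Gr V E} {W : Finset V} {B : Set V} {ω : Set E} (h : ¬ Γ.mlt W B ω)
    {z z' : V} (hz : z ∈ W) (hz' : z' ∈ W) (h1 : Γ.rch ω B z) (h2 : Γ.rch ω B z') :
    Γ.Conn ω z z' := by
  by_contra hcon
  exact h ⟨z, hz, z', hz', h1, h2, hcon⟩

theorem rch_adm (Γ : Gr V E) (W : Finset V) (B : Set V) {E1 η ω : Finset E}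
    (hE1 : ∀ e, e ∉ E1 → Γ.s e ∈ W ∧ Γ.r e ∈ W) (hω : ω ∩ E1 = η) {u : V} (hu : u ∈ W) (o : V)
    (ha : Γ.adm W B (η : Set E)) :
    Γ.rch (ω : Set E) B u ↔ Γ.Conn (ω : Set E) u (Γ.rep W B (η : Set E) o) := by
  have hηω : (η : Set E) ⊆ (ω : Set E) := by
    rw [← hω]
    exact Finset.coe_subset.2 Finset.inter_subset_left
  obtain ⟨h1, h2⟩ := ADM_rep Γ W B (η : Set E) o ha.1
  rw [rch_iff Γ W B hE1 hω hu]
  constructor
  · rintro ⟨z, hz, h3, h4⟩
    exact conn_trans Γ h3 (conn_mono Γ hηω (ADM_not_mlt ha.2 hz h1 h4 h2))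
  · intro h
    exact ⟨_, h1, h, h2⟩

theorem ADM_rr (Γ : Gr V E) {t : E → ℝ} (ht : T01 t) (W : Finset V) (B : Set V) (E1 : Finset E) :
    Γ.rr t W B E1 = ∑ η ∈ E1.powerset, Γ.prE t E1 η * ind (Γ.mlt W B (η : Set E)) := by
  unfold Gr.rr
  rw [fkE_dlr Γ ht E1]
  refine Finset.sum_congr rfl fun η hη => ?_
  have h1 := fkE_setT_supp Γ ht (Finset.mem_powerset.1 hη)
    (f := fun ω => ind (Γ.mlt W B ((ω ∩ E1 : Finset E) : Set E)))
    (g := fun _ => ind (Γ.mlt W B (η : Set E))) (fun ω h => by simp only [h])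
  rw [h1, fkE_const Γ (T01_setT ht E1 η)]

theorem ADM_sum (Γ : Gr V E) (W : Finset V) (B : Set V) (E1 : Finset E) (g : Finset E → ℝ) :
    ∑ η ∈ Γ.admS W B E1, g η = ∑ η ∈ E1.powerset, ind (Γ.adm W B (η : Set E)) * g η := by
  classical
  unfold Gr.admS
  rw [Finset.sum_filter]
  refine Finset.sum_congr rfl fun η _ => ?_
  by_cases h : Γ.adm W B (η : Set E)
  · rw [if_pos h, ind_true h, one_mul]
  · rw [if_neg h, ind_false h, zero_mul]

theorem adm_bounds (Γ : Gr V E) {t : E → ℝ} (ht : T01 t) (W : Finset V) (B : Set V) {E1 : Finset E}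
    (hE1 : ∀ e, e ∉ E1 → Γ.s e ∈ W ∧ Γ.r e ∈ W) (o u : V) (hu : u ∈ W)
    (f : Finset E → ℝ) (hf0 : ∀ ω, 0 ≤ f ω) (hf1 : ∀ ω, f ω ≤ 1) :
    (∑ η ∈ Γ.admS W B E1, Γ.prE t E1 η *
      Γ.fkE (setT E1 η t) (fun ω => f ω * ind (Γ.Conn (ω : Set E) u (Γ.rep W B (η : Set E) o)))) ≤
      Γ.fkE t (fun ω => f ω * ind (Γ.rch (ω : Set E) B u)) ∧
    Γ.fkE t (fun ω => f ω * ind (Γ.rch (ω : Set E) B u)) ≤
      (∑ η ∈ Γ.admS W B E1, Γ.prE t E1 η *
      Γ.fkE (setT E1 η t) (fun ω => f ω * ind (Γ.Conn (ω : Set E) u (Γ.rep W B (η : Set E) o)))) +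
      Γ.rr t W B E1 := by
  rw [fkE_dlr Γ ht E1 (fun ω => f ω * ind (Γ.rch (ω : Set E) B u)), ADM_sum, ADM_rr Γ ht]
  have hG0 : ∀ η : Finset E, 0 ≤ Γ.fkE (setT E1 η t) (fun ω => f ω * ind (Γ.rch (ω : Set E) B u)) :=
    fun η => fkE_nonneg Γ (T01_setT ht E1 η) fun ω => mul_nonneg (hf0 ω) (ind_nonneg _)
  have hG1 : ∀ η : Finset E, Γ.fkE (setT E1 η t) (fun ω => f ω * ind (Γ.rch (ω : Set E) B u)) ≤ 1 := by
    intro η
    rw [← fkE_one Γ (T01_setT ht E1 η)]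
    exact fkE_le Γ (T01_setT ht E1 η) fun ω => mul_le_one₀ (hf1 ω) (ind_nonneg _) (ind_le_one _)
  have hadm : ∀ η ∈ E1.powerset, Γ.adm W B (η : Set E) →
      Γ.fkE (setT E1 η t) (fun ω => f ω * ind (Γ.Conn (ω : Set E) u (Γ.rep W B (η : Set E) o))) =
      Γ.fkE (setT E1 η t) (fun ω => f ω * ind (Γ.rch (ω : Set E) B u)) := by
    intro η hη ha
    refine fkE_setT_supp Γ ht (Finset.mem_powerset.1 hη) fun ω hω => ?_
    rw [KA_congr (rch_adm Γ W B hE1 hω hu o ha)]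
  have hzero : ∀ η ∈ E1.powerset, ¬ Γ.adm W B (η : Set E) → ¬ Γ.mlt W B (η : Set E) →
      Γ.fkE (setT E1 η t) (fun ω => f ω * ind (Γ.rch (ω : Set E) B u)) = 0 := by
    intro η hη h1 h2
    rw [← fkE_const Γ (T01_setT ht E1 η) 0]
    refine fkE_setT_supp Γ ht (Finset.mem_powerset.1 hη) fun ω hω => ?_
    rw [ind_false, mul_zero]
    intro h3
    obtain ⟨z, hz, -, h4⟩ := (rch_iff Γ W B hE1 hω hu).1 h3
    exact h1 ⟨⟨z, hz, h4⟩, h2⟩
  constructor
  · refine Finset.sum_le_sum fun η hη => ?_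
    have hP := prE_nonneg Γ ht E1 η
    by_cases ha : Γ.adm W B (η : Set E)
    · rw [ind_true ha, one_mul, hadm η hη ha]
    · rw [ind_false ha, zero_mul]
      exact mul_nonneg hP (hG0 η)
  · rw [← Finset.sum_add_distrib]
    refine Finset.sum_le_sum fun η hη => ?_
    have hP := prE_nonneg Γ ht E1 η
    by_cases ha : Γ.adm W B (η : Set E)
    · rw [ind_true ha, one_mul, hadm η hη ha]
      have := mul_nonneg hP (ind_nonneg (Γ.mlt W B (η : Set E)))
      linarith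
    · rw [ind_false ha, zero_mul, zero_add]
      by_cases hm : Γ.mlt W B (η : Set E)
      · rw [ind_true hm]
        exact mul_le_mul_of_nonneg_left (hG1 η) hP
      · rw [hzero η hη ha hm, ind_false hm]

theorem MM_bounds (Γ : Gr V E) {t : E → ℝ} (ht : T01 t) (W : Finset V) (B : Set V) {E1 : Finset E}
    (hE1 : ∀ e, e ∉ E1 → Γ.s e ∈ W ∧ Γ.r e ∈ W) (o u : V) (hu : u ∈ W) :
    Γ.MM t W B E1 o u ≤ Γ.fkE t (fun ω => ind (Γ.rch (ω : Set E) B u)) ∧
    Γ.fkE t (fun ω => ind (Γ.rch (ω : Set E) B u)) ≤ Γ.MM t W B E1 o u + Γ.rr t W B E1 := by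
  have h := adm_bounds Γ ht W B hE1 o u hu (fun _ => 1) (fun _ => zero_le_one) (fun _ => le_rfl)
  simp only [one_mul, fkE_conn] at h
  exact h

theorem DD_final (Γ : Gr V E) {t : E → ℝ} (ht : T01 t) (W : Finset V) (B : Set V) {E1 : Finset E}
    (hE1 : ∀ e, e ∉ E1 → Γ.s e ∈ W ∧ Γ.r e ∈ W) (F : Finset E) (c : ℝ) (o : V) (ho : o ∈ W) :
    |Γ.fkE t (fun ω => ind (Disjoint ω F) * ind (Γ.rch (ω : Set E) B o)) -
      c * Γ.fkE t (fun ω => ind (Γ.rch (ω : Set E) B o))| ≤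
      Γ.DD t W B E1 F c o + (1 + |c|) * Γ.rr t W B E1 := by
  obtain ⟨a1, a2⟩ := adm_bounds Γ ht W B hE1 o o ho (fun ω => ind (Disjoint ω F))
    (fun _ => ind_nonneg _) (fun _ => ind_le_one _)
  obtain ⟨b1, b2⟩ := MM_bounds Γ ht W B hE1 o o ho
  obtain ⟨X, hX⟩ : ∃ X, X = Γ.fkE t (fun ω => ind (Disjoint ω F) * ind (Γ.rch (ω : Set E) B o)) :=
    ⟨_, rfl⟩
  obtain ⟨Y, hY⟩ : ∃ Y, Y = Γ.fkE t (fun ω => ind (Γ.rch (ω : Set E) B o)) := ⟨_, rfl⟩
  obtain ⟨SX, hSX⟩ : ∃ SX, SX = ∑ η ∈ Γ.admS W B E1, Γ.prE t E1 η *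
      Γ.fkE (setT E1 η t) (fun ω => ind (Disjoint ω F) *
        ind (Γ.Conn (ω : Set E) o (Γ.rep W B (η : Set E) o))) := ⟨_, rfl⟩
  rw [← hX, ← hSX] at a1 a2
  rw [← hY] at b1 b2
  rw [← hX, ← hY]
  have hD : |SX - c * Γ.MM t W B E1 o o| ≤ Γ.DD t W B E1 F c o := by
    have h1 : SX - c * Γ.MM t W B E1 o o = ∑ η ∈ Γ.admS W B E1, Γ.prE t E1 η *
        (Γ.fkE (setT E1 η t) (fun ω => ind (Disjoint ω F) *
          ind (Γ.Conn (ω : Set E) o (Γ.rep W B (η : Set E) o))) -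
        c * Γ.tp (setT E1 η t) o (Γ.rep W B (η : Set E) o)) := by
      rw [hSX]
      unfold Gr.MM
      rw [Finset.mul_sum, ← Finset.sum_sub_distrib]
      refine Finset.sum_congr rfl fun η _ => ?_
      ring
    rw [h1]
    refine le_trans (Finset.abs_sum_le_sum_abs _ _) ?_
    unfold Gr.DD
    refine Finset.sum_le_sum fun η _ => ?_
    rw [abs_mul, abs_of_nonneg (prE_nonneg Γ ht E1 η)]
  have hr : 0 ≤ Γ.rr t W B E1 := by linarith
  have e1 : X - c * Y = (SX - c * Γ.MM t W B E1 o o) + ((X - SX) - c * (Y - Γ.MM t W B E1 o o)) := by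
    ring
  have e2 : |X - SX| ≤ Γ.rr t W B E1 := by
    rw [abs_of_nonneg (by linarith)]
    linarith
  have e3 : |Y - Γ.MM t W B E1 o o| ≤ Γ.rr t W B E1 := by
    rw [abs_of_nonneg (by linarith)]
    linarith
  have e4 : |c * (Y - Γ.MM t W B E1 o o)| ≤ |c| * Γ.rr t W B E1 := by
    rw [abs_mul]
    exact mul_le_mul_of_nonneg_left e3 (abs_nonneg c)
  rw [e1]
  have e5 := abs_add_le (SX - c * Γ.MM t W B E1 o o) ((X - SX) - c * (Y - Γ.MM t W B E1 o o))
  have e6 := abs_sub (X - SX) (c * (Y - Γ.MM t W B E1 o o))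
  linarith

theorem DD_transfer (Γ : Gr V E) {t : E → ℝ} (ht : T01 t) (W : Finset V) (B B' : Set V)
    {E1 : Finset E} (hE1 : ∀ e, e ∉ E1 → Γ.s e ∈ W ∧ Γ.r e ∈ W) (F : Finset E) (c : ℝ) (o : V)
    (ho : o ∈ W)
    (hB : ∀ η ⊆ E1, ∀ z ∈ W, Γ.rch (η : Set E) B z → Γ.rch (η : Set E) B' z) :
    Γ.DD t W B E1 F c o ≤ Γ.DD t W B' E1 F c o + (1 + |c|) * Γ.rr t W B' E1 := by
  have _ := hE1
  have _ := ho
  unfold Gr.DD
  rw [ADM_sum, ADM_sum, ADM_rr Γ ht, Finset.mul_sum, ← Finset.sum_add_distrib]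
  refine Finset.sum_le_sum fun η hη => ?_
  have hη' := Finset.mem_powerset.1 hη
  have hP := prE_nonneg Γ ht E1 η
  have hT := T01_setT ht E1 η
  have hc0 := abs_nonneg c
  by_cases ha : Γ.adm W B (η : Set E)
  · obtain ⟨h1, h2⟩ := ADM_rep Γ W B (η : Set E) o ha.1
    have h3 := hB η hη' _ h1 h2
    by_cases hm : Γ.mlt W B' (η : Set E)
    · rw [ind_true ha, ind_true hm, ind_false (p := Γ.adm W B' (η : Set E)) (fun h => h.2 hm),
        zero_mul, zero_add, one_mul, mul_one, mul_comm (1 + |c|)]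
      refine mul_le_mul_of_nonneg_left ?_ hP
      have k1 : 0 ≤ Γ.fkE (setT E1 η t) (fun ω => ind (Disjoint ω F) *
          ind (Γ.Conn (ω : Set E) o (Γ.rep W B (η : Set E) o))) :=
        fkE_nonneg Γ hT fun ω => mul_nonneg (ind_nonneg _) (ind_nonneg _)
      have k2 : Γ.fkE (setT E1 η t) (fun ω => ind (Disjoint ω F) *
          ind (Γ.Conn (ω : Set E) o (Γ.rep W B (η : Set E) o))) ≤ 1 := by
        rw [← fkE_one Γ hT]
        exact fkE_le Γ hT fun ω => mul_le_one₀ (ind_le_one _) (ind_nonneg _) (ind_le_one _)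
      have k3 := tp_nonneg Γ hT o (Γ.rep W B (η : Set E) o)
      have k4 := tp_le_one Γ hT o (Γ.rep W B (η : Set E) o)
      refine le_trans (abs_sub _ _) ?_
      rw [abs_of_nonneg k1, abs_mul, abs_of_nonneg k3]
      have k5 := mul_le_mul_of_nonneg_left k4 hc0
      linarith
    · have ha' : Γ.adm W B' (η : Set E) := ⟨⟨_, h1, h3⟩, hm⟩
      obtain ⟨h4, h5⟩ := ADM_rep Γ W B' (η : Set E) o ha'.1
      have h6 := ADM_not_mlt hm h1 h4 h3 h5
      have h7 : ∀ ω : Finset E, ω ∩ E1 = η →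
          ind (Γ.Conn (ω : Set E) o (Γ.rep W B (η : Set E) o)) =
          ind (Γ.Conn (ω : Set E) o (Γ.rep W B' (η : Set E) o)) := by
        intro ω hω
        have hηω : (η : Set E) ⊆ (ω : Set E) := by
          rw [← hω]
          exact Finset.coe_subset.2 Finset.inter_subset_left
        have h8 := conn_mono Γ hηω h6
        exact KA_congr ⟨fun h => conn_trans Γ h h8, fun h => conn_trans Γ h (conn_symm Γ h8)⟩
      have h9 := fkE_setT_supp Γ ht hη'
        (f := fun ω => ind (Disjoint ω F) * ind (Γ.Conn (ω : Set E) o (Γ.rep W B (η : Set E) o)))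
        (g := fun ω => ind (Disjoint ω F) * ind (Γ.Conn (ω : Set E) o (Γ.rep W B' (η : Set E) o)))
        (fun ω hω => by simp only [h7 ω hω])
      have h10 := fkE_setT_supp Γ ht hη'
        (f := fun ω => ind (Γ.Conn (ω : Set E) o (Γ.rep W B (η : Set E) o)))
        (g := fun ω => ind (Γ.Conn (ω : Set E) o (Γ.rep W B' (η : Set E) o)))
        (fun ω hω => by simp only [h7 ω hω])
      rw [fkE_conn, fkE_conn] at h10
      rw [ind_true ha, ind_true ha', ind_false hm, h9, h10]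
      simp
  · rw [ind_false ha, zero_mul]
    have k1 := ind_nonneg (Γ.adm W B' (η : Set E))
    have k2 := ind_nonneg (Γ.mlt W B' (η : Set E))
    have k3 := abs_nonneg (Γ.fkE (setT E1 η t) (fun ω => ind (Disjoint ω F) *
        ind (Γ.Conn (ω : Set E) o (Γ.rep W B' (η : Set E) o))) -
        c * Γ.tp (setT E1 η t) o (Γ.rep W B' (η : Set E) o))
    have k4 : 0 ≤ 1 + |c| := by linarith
    exact add_nonneg (mul_nonneg k1 (mul_nonneg hP k3)) (mul_nonneg k4 (mul_nonneg hP k2))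

theorem mlt_rare (Γ : Gr V E) {t : E → ℝ} (ht : T01 t) (W : Finset V) (B : Set V) (E1 : Finset E) :
    (∏ e ∈ E1ᶜ, (1 - t e) / 4) * Γ.rr t W B E1 ≤
      ∑ z ∈ W, ∑ z' ∈ W, Γ.fkE t (fun ω => ind (Γ.rch (ω : Set E) B z)) *
        Γ.fkE t (fun ω => ind (Γ.rch (ω : Set E) B z')) := by
  have h1 := fe_close Γ ht E1ᶜ (f := fun ω => ind (Γ.mlt W B ((ω ∩ E1 : Finset E) : Set E)))
    (fun ω => ind_nonneg _)
  have h2 : (fun ω : Finset E => ind (Γ.mlt W B (((ω \ E1ᶜ) ∩ E1 : Finset E) : Set E))) =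
      fun ω : Finset E => ind (Γ.mlt W B ((ω ∩ E1 : Finset E) : Set E)) := by
    funext ω
    have h3 : (ω \ E1ᶜ) ∩ E1 = ω ∩ E1 := by
      ext e
      simp only [Finset.mem_inter, Finset.mem_sdiff, Finset.mem_compl, not_not]
      tauto
    rw [h3]
  simp only [h2] at h1
  refine le_trans h1 ?_
  have h4 : Γ.fkE t (fun ω => ind (Disjoint ω E1ᶜ) *
      ind (Γ.mlt W B ((ω ∩ E1 : Finset E) : Set E))) ≤
      Γ.fkE t (fun ω => ∑ z ∈ W, ∑ z' ∈ W, ind (Γ.rch (ω : Set E) B z ∧ Γ.rch (ω : Set E) B z' ∧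
        ¬ Γ.Conn (ω : Set E) z z')) := by
    refine fkE_le Γ ht fun ω => ?_
    have hs : 0 ≤ ∑ z ∈ W, ∑ z' ∈ W, ind (Γ.rch (ω : Set E) B z ∧ Γ.rch (ω : Set E) B z' ∧
        ¬ Γ.Conn (ω : Set E) z z') :=
      Finset.sum_nonneg fun _ _ => Finset.sum_nonneg fun _ _ => ind_nonneg _
    by_cases hd : Disjoint ω E1ᶜ
    · have hω : ω ∩ E1 = ω := by
        rw [Finset.inter_eq_left]
        intro e he
        by_contra hne
        exact Finset.disjoint_left.1 hd he (Finset.mem_compl.2 hne)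
      rw [hω, ind_true hd, one_mul]
      by_cases hm : Γ.mlt W B (ω : Set E)
      · rw [ind_true hm]
        obtain ⟨z, hz, z', hz', h5⟩ := hm
        refine le_trans (ind_true h5).symm.le ?_
        refine le_trans ?_ (Finset.single_le_sum (f := fun z => ∑ z' ∈ W,
          ind (Γ.rch (ω : Set E) B z ∧ Γ.rch (ω : Set E) B z' ∧ ¬ Γ.Conn (ω : Set E) z z'))
          (fun _ _ => Finset.sum_nonneg fun _ _ => ind_nonneg _) hz)
        exact Finset.single_le_sum (f := fun z' =>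
          ind (Γ.rch (ω : Set E) B z ∧ Γ.rch (ω : Set E) B z' ∧ ¬ Γ.Conn (ω : Set E) z z'))
          (fun _ _ => ind_nonneg _) hz'
      · rw [ind_false hm]
        exact hs
    · rw [ind_false hd, zero_mul]
      exact hs
  refine le_trans h4 ?_
  rw [fkE_sum Γ t W (fun z ω => ∑ z' ∈ W, ind (Γ.rch (ω : Set E) B z ∧ Γ.rch (ω : Set E) B z' ∧
    ¬ Γ.Conn (ω : Set E) z z'))]
  refine Finset.sum_le_sum fun z _ => ?_
  rw [fkE_sum Γ t W (fun z' ω => ind (Γ.rch (ω : Set E) B z ∧ Γ.rch (ω : Set E) B z' ∧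
    ¬ Γ.Conn (ω : Set E) z z'))]
  refine Finset.sum_le_sum fun z' _ => ?_
  exact product_bound Γ ht B z z'

end H82.IC

end S_H82_IC_ADM

section S_H82_IC_FV1

/-!
# FV1: the F-version of the double trace

`F` a finite set of edges, `t e = τ` on `F`, `0 ≤ τ < 1`.
* `wFV_le`: on `F`: `(0,0)` open: `s - s^2 ≤ t^2 = 1 - s^2` (`0 ≤ s ≤ 1`), `(0,1)` open: `t s ≤ t`, closed equal or `0 ≤`; first flow `1`: `0 ≤ wDT` (`wDT_nonneg`); off `F` equal.
* `sgF_le`: `trc_mono_w`.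
* `sgF_one`: on `F`: `wFV e a true + wFV e a false = s * hp (off F t) e a.1 * hp t e a.2`: `a.1 = 0`: `a.2 = 0`: `s`, `a.2 = 1`: `s t`; `a.1 = 1`: `0`.  Off `F`: `hp t e a.1 * hp t e a.2`.
  So by `trc_pm2` (with `p e = (if e ∈ F then s else 1) * hp (off F t) e`), and `∏ e, (if e ∈ F then s else 1) = s^|F|`.
* `sgF_o`, `sgF_uy`: combine with `fkS_F`:  `fkE t (1[ω ∩ F = ∅] 1[o ↔ u]) = (1-τ)^|F| z (off F t) (src o u) / z t 0`, so with `CF = ((1-τ)/s)^|F|`, `s = √(1-τ²) > 0`: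
  `CF * sgF (src o u) T 1 = fkE (...) * (z t T / z t 0)`.
* `CF_le_one`: `(1-τ)/√(1-τ²) ≤ 1` as `(1-τ)² ≤ 1 - τ² = (1-τ)(1+τ)`.
* `sgF_switch`: `trc_switch` with `g e = (c e, c e)`, `c` a flow supported in `ω \ F`; on edges not in `F` the weight is `wDT`.
-/

set_option autoImplicit false

open Finset

namespace H82.IC

variable {V E : Type*} [Fintype E] [DecidableEq E]

theorem FV1_sqrt {x : ℝ} (h : 0 ≤ x ∧ x ≤ 1) :
    0 ≤ Real.sqrt (1 - x ^ 2) ∧ Real.sqrt (1 - x ^ 2) ≤ 1 ∧ 1 - x ^ 2 ≤ Real.sqrt (1 - x ^ 2) := by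
  obtain ⟨h0, h1⟩ := h
  have h2 : 0 ≤ 1 - x ^ 2 := by nlinarith
  have h3 : 1 - x ^ 2 ≤ 1 := by nlinarith
  have h4 : Real.sqrt (1 - x ^ 2) ≤ 1 := by
    rw [Real.sqrt_le_left zero_le_one, one_pow]
    exact h3
  refine ⟨Real.sqrt_nonneg _, h4, ?_⟩
  have h5 := Real.sq_sqrt h2
  have h6 := Real.sqrt_nonneg (1 - x ^ 2)
  nlinarith

theorem wFV_nonneg {t : E → ℝ} (ht : T01 t) (F : Finset E) (e : E) (a : ZMod 2 × ZMod 2) (b : Bool) :
    0 ≤ wFV F t e a b := by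
  obtain ⟨h1, h2, h3⟩ := FV1_sqrt (ht e)
  have h0 := (ht e).1
  have h00 := (ht e).2
  unfold wFV
  split_ifs
  · linarith
  · exact mul_nonneg h0 h1
  · nlinarith
  · exact le_rfl
  · exact le_rfl
  · exact wDT_nonneg ht e a b

theorem wFV_le {t : E → ℝ} (ht : T01 t) (F : Finset E) (e : E) (a : ZMod 2 × ZMod 2) (b : Bool) :
    wFV F t e a b ≤ wDT t e a b := by
  obtain ⟨h1, h2, h3⟩ := FV1_sqrt (ht e)
  have h0 := (ht e).1
  have h00 := (ht e).2
  have hD := wDT_nonneg ht e a b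
  unfold wFV
  by_cases hF : e ∈ F
  · rw [if_pos hF]
    by_cases ha : a.1 = 0
    · rw [if_pos ha]
      by_cases hb : b = true
      · rw [if_pos hb]
        unfold wDT
        rw [if_pos hb]
        by_cases ha2 : a.2 = 0
        · rw [if_pos ha2, if_pos (by rw [ha, ha2])]
          linarith
        · rw [if_neg ha2, if_neg (by
            rw [ha]
            exact fun h => ha2 h.symm)]
          exact mul_le_of_le_one_right h0 h2
      · rw [if_neg hb]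
        by_cases ha2 : a.2 = 0
        · rw [if_pos ha2]
          unfold wDT
          rw [if_neg hb, if_pos (Prod.ext ha ha2)]
        · rw [if_neg ha2]
          exact hD
    · rw [if_neg ha]
      exact hD
  · rw [if_neg hF]

theorem sgF_le (Γ : Gr V E) {t : E → ℝ} (ht : T01 t) (F : Finset E) (S T : V → ZMod 2)
    {f : Finset E → ℝ} (hf : ∀ ω, 0 ≤ f ω) : Γ.sgF F t S T f ≤ Γ.sg t S T f := by
  unfold Gr.sgF Gr.sg
  exact div_le_div_of_nonneg_right
    (trc_mono_w Γ (wFV F t) (wDT t) (wFV_nonneg ht F) (wFV_le ht F) (pr S T) hf) (sq_nonneg _)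

theorem FV1_trc_abs (Γ : Gr V E) (w : E → ZMod 2 × ZMod 2 → Bool → ℝ) (hw : ∀ e a b, 0 ≤ w e a b)
    (S : V → ZMod 2 × ZMod 2) (f : Finset E → ℝ) :
    |Γ.trc w S f| ≤ Γ.trc w S (fun ω => |f ω|) := by
  rw [abs_le]
  constructor
  · have h1 := trc_smul Γ w S (-1) (fun ω => |f ω|)
    have h2 := trc_mono Γ w hw S (f := fun ω => -1 * |f ω|) (g := f) fun ω => by
      have := neg_abs_le (f ω)
      linarith
    linarith
  · exact trc_mono Γ w hw S fun ω => le_abs_self (f ω)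

theorem sgF_abs (Γ : Gr V E) {t : E → ℝ} (ht : T01 t) (F : Finset E) (S T : V → ZMod 2)
    (f : Finset E → ℝ) : |Γ.sgF F t S T f| ≤ Γ.sg t S T (fun ω => |f ω|) := by
  refine le_trans ?_ (sgF_le Γ ht F S T fun ω => abs_nonneg (f ω))
  unfold Gr.sgF
  rw [abs_div, abs_of_nonneg (sq_nonneg (Γ.z t 0))]
  exact div_le_div_of_nonneg_right (FV1_trc_abs Γ _ (wFV_nonneg ht F) _ f) (sq_nonneg _)

theorem sgF_sub (Γ : Gr V E) (F : Finset E) (t : E → ℝ) (S T : V → ZMod 2) (f g : Finset E → ℝ) :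
    Γ.sgF F t S T (fun ω => f ω - g ω) = Γ.sgF F t S T f - Γ.sgF F t S T g := by
  unfold Gr.sgF
  rw [trc_sub, sub_div]

theorem sgF_smul (Γ : Gr V E) (F : Finset E) (t : E → ℝ) (S T : V → ZMod 2) (c : ℝ)
    (f : Finset E → ℝ) : Γ.sgF F t S T (fun ω => c * f ω) = c * Γ.sgF F t S T f := by
  unfold Gr.sgF
  rw [trc_smul, mul_div_assoc]

theorem sgF_sum {ι : Type*} (Γ : Gr V E) (F : Finset E) (t : E → ℝ) (S T : V → ZMod 2) (I : Finset ι)
    (f : ι → Finset E → ℝ) :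
    Γ.sgF F t S T (fun ω => ∑ i ∈ I, f i ω) = ∑ i ∈ I, Γ.sgF F t S T (f i) := by
  unfold Gr.sgF
  rw [trc_sum, Finset.sum_div]

/-- the constant `((1-τ)/√(1-τ²))^|F|`. -/
noncomputable def CF (τ : ℝ) (n : ℕ) : ℝ := ((1 - τ) / Real.sqrt (1 - τ ^ 2)) ^ n

theorem CF_nonneg {τ : ℝ} (h0 : 0 ≤ τ) (h1 : τ < 1) (n : ℕ) : 0 ≤ CF τ n := by
  unfold CF
  exact pow_nonneg (div_nonneg (by linarith) (Real.sqrt_nonneg _)) n

theorem CF_le_one {τ : ℝ} (h0 : 0 ≤ τ) (h1 : τ < 1) (n : ℕ) : CF τ n ≤ 1 := by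
  unfold CF
  refine pow_le_one₀ (div_nonneg (by linarith) (Real.sqrt_nonneg _)) ?_
  refine div_le_one_of_le₀ ?_ (Real.sqrt_nonneg _)
  apply Real.le_sqrt_of_sq_le
  nlinarith

theorem FV1_p (F : Finset E) (t : E → ℝ) (e : E) (a : ZMod 2 × ZMod 2) :
    wFV F t e a true + wFV F t e a false =
      ((if e ∈ F then Real.sqrt (1 - t e ^ 2) else 1) * hp (off (F : Set E) t) e a.1) *
        hp t e a.2 := by
  unfold wFV hp off
  by_cases hF : e ∈ F
  · have hF' : e ∈ (F : Set E) := hF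
    rw [if_pos hF, if_pos hF, if_pos hF, if_pos hF']
    by_cases h1 : a.1 = 0
    · by_cases h2 : a.2 = 0
      · simp [h1, h2]
      · simp [h1, h2]
        ring
    · simp [h1]
  · have hF' : e ∉ (F : Set E) := hF
    rw [if_neg hF, if_neg hF, if_neg hF, if_neg hF']
    unfold wDT
    have h01 : ∀ x : ZMod 2, x = 0 ∨ x = 1 := by decide
    rcases h01 a.1 with h1 | h1 <;> rcases h01 a.2 with h2 | h2
    · have ha : a = 0 := Prod.ext h1 h2
      simp [ha]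
    · have ha : a ≠ 0 := fun h => by
        rw [h] at h2
        exact absurd h2 (by decide)
      simp [h1, h2, ha]
    · have ha : a ≠ 0 := fun h => by
        rw [h] at h1
        exact absurd h1 (by decide)
      simp [h1, h2, ha]
    · have ha : a ≠ 0 := fun h => by
        rw [h] at h1
        exact absurd h1 (by decide)
      simp [h1, h2, ha]
      ring

theorem FV1_zz (Γ : Gr V E) (c : E → ℝ) (p : E → ZMod 2 → ℝ) (S : V → ZMod 2) :
    Γ.zz (fun e a => c e * p e a) S = (∏ e, c e) * Γ.zz p S := by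
  unfold Gr.zz
  rw [Finset.mul_sum]
  refine Finset.sum_congr rfl fun η _ => ?_
  rw [Finset.prod_mul_distrib]
  ring

theorem FV1_trc_one (Γ : Gr V E) (F : Finset E) (t : E → ℝ) (S T : V → ZMod 2) :
    Γ.trc (wFV F t) (pr S T) (fun _ => 1) =
      (∏ e ∈ F, Real.sqrt (1 - t e ^ 2)) * Γ.z (off (F : Set E) t) S * Γ.z t T := by
  rw [trc_pm2 Γ (wFV F t)
    (fun e a => (if e ∈ F then Real.sqrt (1 - t e ^ 2) else 1) * hp (off (F : Set E) t) e a) (hp t)
    (FV1_p F t) S T, FV1_zz]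
  unfold Gr.z
  congr 2
  rw [Finset.prod_ite_mem, Finset.univ_inter]

theorem sgF_one (Γ : Gr V E) {t : E → ℝ} (ht : T01 t) (F : Finset E) {τ : ℝ} (h0 : 0 ≤ τ) (h1 : τ < 1)
    (hF : ∀ e ∈ F, t e = τ) (o u : V) (T : V → ZMod 2) :
    CF τ F.card * Γ.sgF F t (src o u) T (fun _ => 1) =
      Γ.fkE t (fun ω => ind (Disjoint ω F) * ind (Γ.Conn (ω : Set E) o u)) *
        (Γ.z t T / Γ.z t 0) := by
  unfold Gr.sgF Gr.fkE
  rw [FV1_trc_one, fkS_F]
  have hs : 0 < Real.sqrt (1 - τ ^ 2) := Real.sqrt_pos.mpr (by nlinarith)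
  have e1 : ∏ e ∈ F, Real.sqrt (1 - t e ^ 2) = Real.sqrt (1 - τ ^ 2) ^ F.card := by
    rw [Finset.prod_congr rfl fun e he => by rw [hF e he], Finset.prod_const]
  have e2 : ∏ e ∈ F, (1 - t e) = (1 - τ) ^ F.card := by
    rw [Finset.prod_congr rfl fun e he => by rw [hF e he], Finset.prod_const]
  rw [e1, e2]
  unfold CF
  rw [div_pow]
  have hs' := (pow_pos hs F.card).ne'
  field_simp

theorem sgF_switch (Γ : Gr V E) (F : Finset E) (t : E → ℝ) (S T : V → ZMod 2) (u v : V)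
    (f : Finset E → ℝ)
    (hf : ∀ ω : Finset E, f ω ≠ 0 → Γ.Conn ((ω : Set E) \ F) u v) :
    Γ.sgF F t S T f = Γ.sgF F t (S + src u v) (T + src u v) f := by
  unfold Gr.sgF
  rw [← pr_add, trc_switch Γ (wFV F t) (pr S T) (pr (src u v) (src u v)) f]
  intro ω hω
  obtain ⟨c, hc, hs⟩ := exists_flow Γ (hf ω hω)
  refine ⟨fun e => (c e, c e), ?_, fun e he => ?_⟩
  · rw [bd_pr]
    show pr (Γ.bd c) (Γ.bd c) = pr (src u v) (src u v)
    rw [hc]
  · have hce : c e ≠ 0 := fun h => he (by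
      simp only [h]
      rfl)
    have h3 := hs e hce
    refine ⟨h3.1, fun a => ?_⟩
    have h4 : e ∉ F := h3.2
    unfold wFV wDT
    rw [if_neg h4, if_neg h4, if_pos rfl, if_pos rfl]
    simp only [Prod.fst_add, Prod.snd_add, add_left_inj]

end H82.IC

end S_H82_IC_FV1

section S_H82_IC_FV2

/-!
# FV2: the event `G u` = `u ↔ a` in `ω \ F`

* `notG_bound`: `sg (src o u) (src u a) 1[not G u] ≤ tp o u * ∑_{z ∈ vF F} tp u z * tp z a`.
  Proof.  Expand `trc (wDT t) (pr (src o u) (src u a)) 1[not G]` as a sum over `η = (η₁, η₂)` and `ω`; for nonzero weight `supp η₂ ⊆ ω`.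
  If `u ↔ a` fails in `ω \ F` then it fails in `supp η₂ \ F`, while `u ↔ a` in `supp η₂` (`conn_of_flow`); by `conn_split` (ω := supp η₂, K := F) there is `z ∈ vF F` with
  `u ↔ z` in `supp η₂`.  So `1[not G] ≤ ∑_{z ∈ vF F} 1[u ↔ z in supp η₂]`.  Summing over `ω` (the marginal is `hp t e a.1 * hp t e a.2`) and over `η₁`:
  `≤ z (src o u) * ∑_z Q z`, `Q z = ∑_{η₂ : bd = src u a} 1[u ↔ z in supp η₂] ∏ hp t e (η₂ e)`.
  And `Q z * z 0 = ∑_{η₂, η' : bd η' = 0} ... = ` (reintroduce `ω`, weight `wDT` with first flow `η₂` and second flow `η'`) `≤ trc (wDT t) (pr (src u a) 0) 1[u ↔ z in ω]`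
  (`supp η₂ ⊆ ω`, `conn_mono`) `= (z 0)^2 * tp u z * tp z a` (`sg_first`).  Divide by `(z 0)^2`.
* `loss_bound`: `sg (src o a) 0 (1[o ↔ u] 1[not G u]) ≤` the same bound: `o ↔ a` is automatic (`sg_supp1`), so `u ↔ a` in `ω` on the event; switch with `(u,a)`
  (`src o a + src u a = src o u`): `= sg (src o u) (src u a) (1[o ↔ u]1[o ↔ a]1[not G u]) ≤ sg (src o u) (src u a) 1[not G u]`.
* `G_sub`: with sources `(src o a, 0)` and `G u`, `o ↔ u` in `ω`.
* `sgF_G`: `sgF (src o a) 0 1[G u] = sgF (src o u) (src u a) 1[G u]` (`sgF_switch`).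
-/

set_option autoImplicit false

open Finset

namespace H82.IC

variable {V E : Type*} [Fintype E] [DecidableEq E]

/-- the sum over one flow with an observable of the flow -/
noncomputable def FV2_Q (Γ : Gr V E) (t : E → ℝ) (S : V → ZMod 2) (G : (E → ZMod 2) → ℝ) : ℝ :=
  ∑ η : E → ZMod 2, ind (Γ.bd η = S) * (G η * ∏ e, hp t e (η e))

theorem FV2_Q_one (Γ : Gr V E) (t : E → ℝ) (S : V → ZMod 2) : FV2_Q Γ t S (fun _ => 1) = Γ.z t S := by
  unfold FV2_Q Gr.z Gr.zz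
  simp only [one_mul]

theorem FV2_Q_sum {ι : Type*} (Γ : Gr V E) (t : E → ℝ) (S : V → ZMod 2) (I : Finset ι)
    (G : ι → (E → ZMod 2) → ℝ) :
    FV2_Q Γ t S (fun η => ∑ i ∈ I, G i η) = ∑ i ∈ I, FV2_Q Γ t S (G i) := by
  unfold FV2_Q
  rw [Finset.sum_comm]
  refine Finset.sum_congr rfl fun η _ => ?_
  rw [Finset.sum_mul, Finset.mul_sum]

theorem FV2_sum_omega (w : E → Bool → ℝ) :
    ∑ ω : Finset E, ∏ e, w e (decide (e ∈ ω)) = ∏ e, (w e true + w e false) := by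
  rw [Finset.prod_add, Finset.powerset_univ]
  refine Finset.sum_congr rfl fun ω _ => ?_
  rw [← Finset.prod_mul_prod_compl ω (fun e => w e (decide (e ∈ ω)))]
  congr 1
  · refine Finset.prod_congr rfl fun e he => ?_
    rw [decide_eq_true he]
  · refine Finset.prod_congr (by rw [Finset.compl_eq_univ_sdiff]) fun e he => ?_
    have he' : e ∉ ω := by
      intro h
      simp [h] at he
    rw [decide_eq_false he']

omit [Fintype E] [DecidableEq E] in
theorem FV2_w (t : E → ℝ) (e : E) (a : ZMod 2 × ZMod 2) :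
    wDT t e a true + wDT t e a false = hp t e a.1 * hp t e a.2 := by
  obtain ⟨x, y⟩ := a
  have h2 : ∀ x : ZMod 2, x = 0 ∨ x = 1 := by decide
  unfold wDT hp
  rcases h2 x with rfl | rfl <;> rcases h2 y with rfl | rfl
  · simp
  · simp
  · simp
  · simp
    ring

theorem FV2_pm (Γ : Gr V E) (t : E → ℝ) (S T : V → ZMod 2) (G₁ G₂ : (E → ZMod 2) → ℝ) :
    ∑ η : E → ZMod 2 × ZMod 2, ∑ ω : Finset E, ind (Γ.bd η = pr S T) *
      ((G₁ (fun e => (η e).1) * G₂ (fun e => (η e).2)) * ∏ e, wDT t e (η e) (decide (e ∈ ω))) =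
    FV2_Q Γ t S G₁ * FV2_Q Γ t T G₂ := by
  have h1 : ∀ η : E → ZMod 2 × ZMod 2, ∑ ω : Finset E, ind (Γ.bd η = pr S T) *
      ((G₁ (fun e => (η e).1) * G₂ (fun e => (η e).2)) * ∏ e, wDT t e (η e) (decide (e ∈ ω))) =
      (ind (Γ.bd (fun e => (η e).1) = S) * (G₁ (fun e => (η e).1) * ∏ e, hp t e ((η e).1))) *
      (ind (Γ.bd (fun e => (η e).2) = T) * (G₂ (fun e => (η e).2) * ∏ e, hp t e ((η e).2))) := by
    intro η
    rw [← Finset.mul_sum, ← Finset.mul_sum, FV2_sum_omega (fun e b => wDT t e (η e) b)]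
    have h2 : ∏ e, (wDT t e (η e) true + wDT t e (η e) false) =
        (∏ e, hp t e ((η e).1)) * ∏ e, hp t e ((η e).2) := by
      rw [← Finset.prod_mul_distrib]
      exact Finset.prod_congr rfl fun e _ => FV2_w t e (η e)
    rw [h2]
    have h3 : ind (Γ.bd η = pr S T) =
        ind (Γ.bd (fun e => (η e).1) = S) * ind (Γ.bd (fun e => (η e).2) = T) := by
      rw [← ind_and, bd_pr Γ η, pr_inj]
    rw [h3]
    ring
  rw [Finset.sum_congr rfl fun η _ => h1 η]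
  have h4 := (Equiv.arrowProdEquivProdArrow E (fun _ => ZMod 2) (fun _ => ZMod 2)).sum_comp
    (fun x : (E → ZMod 2) × (E → ZMod 2) =>
      (ind (Γ.bd x.1 = S) * (G₁ x.1 * ∏ e, hp t e (x.1 e))) *
      (ind (Γ.bd x.2 = T) * (G₂ x.2 * ∏ e, hp t e (x.2 e))))
  refine Eq.trans ?_ (h4.trans ?_)
  · rfl
  · rw [Fintype.sum_prod_type]
    unfold FV2_Q
    rw [Finset.sum_mul_sum]

theorem FV2_prod_nonneg {t : E → ℝ} (ht : T01 t) (η : E → ZMod 2 × ZMod 2) (ω : Finset E) :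
    0 ≤ ∏ e, wDT t e (η e) (decide (e ∈ ω)) :=
  Finset.prod_nonneg fun e _ => wDT_nonneg ht e (η e) _

theorem FV2_prod_zero (t : E → ℝ) {η : E → ZMod 2 × ZMod 2} {ω : Finset E} {e : E} (he : η e ≠ 0)
    (hω : e ∉ ω) : ∏ e, wDT t e (η e) (decide (e ∈ ω)) = 0 := by
  refine Finset.prod_eq_zero (Finset.mem_univ e) ?_
  rw [decide_eq_false hω]
  exact wDT_closed t e (η e) he

/-- the support of a flow -/
def FV2_supp (η : E → ZMod 2) : Set E := {e | η e ≠ 0}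

theorem FV2_first (Γ : Gr V E) {t : E → ℝ} (ht : T01 t) (u a z : V) :
    FV2_Q Γ t (src u a) (fun η => ind (Γ.Conn (FV2_supp η) u z)) ≤
      Γ.z t 0 * (Γ.tp t u z * Γ.tp t z a) := by
  have hz := one_le_z Γ ht
  have hz0 : 0 < Γ.z t 0 := by linarith
  have h1 := sg_first Γ t u a z
  have h2 : FV2_Q Γ t (src u a) (fun η => ind (Γ.Conn (FV2_supp η) u z)) * Γ.z t 0 ≤
      Γ.trc (wDT t) (pr (src u a) 0) (fun ω => ind (Γ.Conn (ω : Set E) u z)) := by
    rw [← FV2_Q_one Γ t 0, ← FV2_pm]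
    unfold Gr.trc
    refine Finset.sum_le_sum fun η _ => Finset.sum_le_sum fun ω _ => ?_
    refine mul_le_mul_of_nonneg_left ?_ (ind_nonneg _)
    rw [mul_one]
    by_cases hs : ∀ e, η e ≠ 0 → e ∈ ω
    · refine mul_le_mul_of_nonneg_right ?_ (FV2_prod_nonneg ht η ω)
      refine ind_mono fun hc => conn_mono Γ ?_ hc
      intro e he
      apply hs
      intro h0
      apply he
      show (η e).1 = 0
      rw [h0]
      rfl
    · push Not at hs
      obtain ⟨e, he, hω⟩ := hs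
      rw [FV2_prod_zero t he hω, mul_zero, mul_zero]
  have h3 : Γ.trc (wDT t) (pr (src u a) 0) (fun ω => ind (Γ.Conn (ω : Set E) u z)) =
      Γ.z t 0 ^ 2 * (Γ.tp t u z * Γ.tp t z a) := by
    rw [← h1]
    unfold Gr.sg
    field_simp
  rw [h3] at h2
  have h4 : FV2_Q Γ t (src u a) (fun η => ind (Γ.Conn (FV2_supp η) u z)) * Γ.z t 0 ≤
      (Γ.z t 0 * (Γ.tp t u z * Γ.tp t z a)) * Γ.z t 0 := by
    calc _ ≤ _ := h2
      _ = _ := by ring
  exact le_of_mul_le_mul_right h4 hz0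

theorem notG_bound (Γ : Gr V E) {t : E → ℝ} (ht : T01 t) (F : Finset E) (o a u : V) :
    Γ.sg t (src o u) (src u a) (fun ω => ind (¬ Γ.Conn ((ω : Set E) \ F) u a)) ≤
      Γ.tp t o u * ∑ z ∈ Γ.vF F, Γ.tp t u z * Γ.tp t z a := by
  classical
  have hz := one_le_z Γ ht
  have hz0 : 0 < Γ.z t 0 := by linarith
  have h1 : Γ.trc (wDT t) (pr (src o u) (src u a))
      (fun ω => ind (¬ Γ.Conn ((ω : Set E) \ F) u a)) ≤
      Γ.z t (src o u) * FV2_Q Γ t (src u a)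
        (fun η => ∑ z ∈ Γ.vF F, ind (Γ.Conn (FV2_supp η) u z)) := by
    rw [← FV2_Q_one Γ t (src o u), ← FV2_pm]
    unfold Gr.trc
    refine Finset.sum_le_sum fun η _ => Finset.sum_le_sum fun ω _ => ?_
    by_cases hb : Γ.bd η = pr (src o u) (src u a)
    swap
    · rw [ind_false hb, zero_mul, zero_mul]
    refine mul_le_mul_of_nonneg_left ?_ (ind_nonneg _)
    rw [one_mul]
    by_cases hs : ∀ e, η e ≠ 0 → e ∈ ω
    · refine mul_le_mul_of_nonneg_right ?_ (FV2_prod_nonneg ht η ω)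
      have hnn : ∀ z ∈ Γ.vF F, 0 ≤ ind (Γ.Conn (FV2_supp (fun e => (η e).2)) u z) :=
        fun z _ => ind_nonneg _
      beta_reduce
      by_cases hG : Γ.Conn ((ω : Set E) \ F) u a
      · rw [ind_false (not_not.2 hG)]
        exact Finset.sum_nonneg hnn
      · rw [ind_true hG]
        have hsub : FV2_supp (fun e => (η e).2) ⊆ (ω : Set E) := by
          intro e he
          apply hs
          intro h0
          apply he
          show (η e).2 = 0
          rw [h0]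
          rfl
        have hb2 : Γ.bd (fun e => (η e).2) = src u a := by
          rw [bd_pr Γ η, pr_inj] at hb
          exact hb.2
        have hc : Γ.Conn (FV2_supp (fun e => (η e).2)) u a :=
          conn_of_flow Γ hb2 fun e he => he
        have hnc : ¬ Γ.Conn (FV2_supp (fun e => (η e).2) \ (F : Set E)) u a := fun h =>
          hG (conn_mono Γ (Set.sdiff_subset_sdiff_left hsub) h)
        obtain ⟨e, ⟨he1, he2⟩, he3⟩ := conn_split Γ hc hnc
        have heF : e ∈ F := he2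
        have key : ∃ z ∈ Γ.vF F, Γ.Conn (FV2_supp (fun e => (η e).2)) u z := by
          rcases he3 with h | h
          · refine ⟨Γ.s e, ?_, conn_mono Γ Set.sdiff_subset h⟩
            unfold Gr.vF
            exact Finset.mem_union_left _ (Finset.mem_image_of_mem _ heF)
          · refine ⟨Γ.r e, ?_, conn_mono Γ Set.sdiff_subset h⟩
            unfold Gr.vF
            exact Finset.mem_union_right _ (Finset.mem_image_of_mem _ heF)
        obtain ⟨z, hzF, hcz⟩ := key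
        have := Finset.single_le_sum hnn hzF
        rw [ind_true hcz] at this
        exact this
    · push Not at hs
      obtain ⟨e, he, hω⟩ := hs
      rw [FV2_prod_zero t he hω, mul_zero, mul_zero]
  have hzs := z_nonneg Γ ht (src o u)
  have h2 : FV2_Q Γ t (src u a) (fun η => ∑ z ∈ Γ.vF F, ind (Γ.Conn (FV2_supp η) u z)) ≤
      Γ.z t 0 * ∑ z ∈ Γ.vF F, Γ.tp t u z * Γ.tp t z a := by
    rw [FV2_Q_sum Γ t (src u a) (Γ.vF F) (fun z η => ind (Γ.Conn (FV2_supp η) u z)), Finset.mul_sum]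
    exact Finset.sum_le_sum fun z _ => FV2_first Γ ht u a z
  have h3 := h1.trans (mul_le_mul_of_nonneg_left h2 hzs)
  unfold Gr.sg
  rw [div_le_iff₀ (by positivity)]
  refine h3.trans (le_of_eq ?_)
  have h4 : Γ.tp t o u = Γ.z t (src o u) / Γ.z t 0 := rfl
  rw [h4]
  field_simp

theorem FV2_src (o a u : V) : src o a + src u a = src o u := by
  rw [src_comm u a, src_add]

theorem loss_bound (Γ : Gr V E) {t : E → ℝ} (ht : T01 t) (F : Finset E) (o a u : V) :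
    Γ.sg t (src o a) 0 (fun ω => ind (Γ.Conn (ω : Set E) o u) *
        ind (¬ Γ.Conn ((ω : Set E) \ F) u a)) ≤
      Γ.tp t o u * ∑ z ∈ Γ.vF F, Γ.tp t u z * Γ.tp t z a := by
  have h1 : Γ.sg t (src o a) 0 (fun ω => ind (Γ.Conn (ω : Set E) o u) *
        ind (¬ Γ.Conn ((ω : Set E) \ F) u a)) =
      Γ.sg t (src o a) 0 (fun ω => ind (Γ.Conn (ω : Set E) u a) * (ind (Γ.Conn (ω : Set E) o u) *
        ind (¬ Γ.Conn ((ω : Set E) \ F) u a))) := by
    refine sg_supp1 Γ t o a 0 _ _ fun ω hω => ?_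
    by_cases hu : Γ.Conn (ω : Set E) o u
    · have hua : Γ.Conn (ω : Set E) u a := conn_trans Γ (conn_symm Γ hu) hω
      rw [ind_true hua, one_mul]
    · rw [ind_false hu]; ring
  rw [h1, sg_switch Γ t (src o a) 0 u a, FV2_src, zero_add]
  · refine le_trans (sg_mono Γ ht _ _ fun ω => ?_) (notG_bound Γ ht F o a u)
    have i1 := ind_nonneg (Γ.Conn (ω : Set E) u a)
    have i2 := ind_le_one (Γ.Conn (ω : Set E) u a)
    have i3 := ind_nonneg (Γ.Conn (ω : Set E) o u)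
    have i4 := ind_le_one (Γ.Conn (ω : Set E) o u)
    have i5 := ind_nonneg (¬ Γ.Conn ((ω : Set E) \ F) u a)
    have i6 : ind (Γ.Conn (ω : Set E) u a) * ind (Γ.Conn (ω : Set E) o u) ≤ 1 :=
      mul_le_one₀ i2 i3 i4
    rw [← mul_assoc]
    calc _ ≤ 1 * ind (¬ Γ.Conn ((ω : Set E) \ F) u a) := mul_le_mul_of_nonneg_right i6 i5
      _ = _ := one_mul _
  · intro ω hω
    by_contra hc
    apply hω
    rw [ind_false hc, zero_mul]

theorem G_sub (Γ : Gr V E) (t : E → ℝ) (F : Finset E) (o a u : V) (f : Finset E → ℝ) :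
    Γ.sg t (src o a) 0 (fun ω => f ω * ind (Γ.Conn ((ω : Set E) \ F) u a)) =
      Γ.sg t (src o a) 0 (fun ω => f ω * (ind (Γ.Conn (ω : Set E) o u) -
        ind (Γ.Conn (ω : Set E) o u) * ind (¬ Γ.Conn ((ω : Set E) \ F) u a))) := by
  refine sg_supp1 Γ t o a 0 _ _ fun ω hω => ?_
  by_cases hG : Γ.Conn ((ω : Set E) \ F) u a
  · have hua : Γ.Conn (ω : Set E) u a := conn_mono Γ Set.sdiff_subset hG
    have hou : Γ.Conn (ω : Set E) o u := conn_trans Γ hω (conn_symm Γ hua)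
    rw [ind_true hG, ind_true hou, ind_false (not_not.2 hG)]
    ring
  · rw [ind_false hG, ind_true hG]
    ring

theorem sgF_G (Γ : Gr V E) (F : Finset E) (t : E → ℝ) (o a u : V) :
    Γ.sgF F t (src o a) 0 (fun ω => ind (Γ.Conn ((ω : Set E) \ F) u a)) =
      Γ.sgF F t (src o u) (src u a) (fun ω => ind (Γ.Conn ((ω : Set E) \ F) u a)) := by
  rw [sgF_switch Γ F t (src o a) 0 u a, FV2_src, zero_add]
  intro ω hω
  by_contra hc
  exact hω (ind_false hc)

end H82.IC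

end S_H82_IC_FV2

section S_H82_IC_DT2

/-!
# DT2: the four point decomposition

Events (for `ω`): `AL` = `o ↔ y`, `o ↔ u`, `o ↔ v`;  `P1` = `o ↔ y`, `u ↔ v`, not `o ↔ u`;  `P2` = `o ↔ u`, `v ↔ y`, not `o ↔ v`;
`P3` = `o ↔ v`, `u ↔ y`, not `o ↔ u`.  With `sg = Γ.sg t`:
 `a := sg (src o y) (src u v) AL`, `b1 := sg (src o y) (src u v) P1`.
(1) `tp o y * tp u v = sg (src o y) (src u v) 1 = a + b1`   (`sg_supp12`: `1 = AL + P1` when `o ↔ y`, `u ↔ v`).
(2) `tp o u * tp v y = sg (src o u) (src v y) 1 = sg (src o u) (src v y) AL + b2`, `b2 := sg (src o u) (src v y) P2`, and by switching with `(y,u)` (connected on `AL`):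
    `sg (src o y) (src u v) AL = sg (src o u) (src y v) AL` (`src o y + src y u = src o u`, `src u v + src y u = src y v`, `src_comm`, `src_add`).
(3) `tp o v * tp u y = a + b3`, `b3 := sg (src o v) (src u y) P3` (switch with `(y,v)`).
(4) `z (src o y + src u v) / z 0 = sg (src o y + src u v) 0 1 = a + b1 + b2 + b3`: by `sg_supp4` (with a,b,c,d = o,y,u,v) `1 = AL + P1 + P2 + P3` (indicator functions)
    on the relevant configurations, and switching with `(u,v)` on `AL` and on `P1`, with `(v,y)` on `P2` (`src o y + src u v + src v y = src o u`), with `(u,y)` on `P3`.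
Conclusion: `tp o u * tp v y + tp o v * tp u y = 2a + b2 + b3 = z4 + tp o y * tp u v - 2 b1`, where `z4 = z (src o y + src u v)/z 0`.
-/

set_option autoImplicit false

open Finset

namespace H82.IC

variable {V E : Type*} [Fintype E] [DecidableEq E]

/-- all four points connected -/
noncomputable def DT2_AL (Γ : Gr V E) (o y u v : V) (ω : Finset E) : ℝ :=
  ind (Γ.Conn (ω : Set E) o y ∧ Γ.Conn (ω : Set E) o u ∧ Γ.Conn (ω : Set E) o v)

/-- two pairs, not connected to each other -/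
noncomputable def DT2_P (Γ : Gr V E) (a b c d : V) (ω : Finset E) : ℝ :=
  ind (Γ.Conn (ω : Set E) a b ∧ Γ.Conn (ω : Set E) c d ∧ ¬ Γ.Conn (ω : Set E) a c)

theorem DT2_ne {p : Prop} (h : ind p ≠ 0) : p := by
  by_contra hp
  exact h (ind_false hp)

theorem DT2_pair (Γ : Gr V E) (o y u v : V) (ω : Finset E) (h1 : Γ.Conn (ω : Set E) o y)
    (h2 : Γ.Conn (ω : Set E) u v) : (1 : ℝ) = DT2_AL Γ o y u v ω + DT2_P Γ o y u v ω := by
  unfold DT2_AL DT2_P
  by_cases h : Γ.Conn (ω : Set E) o u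
  · rw [ind_true ⟨h1, h, conn_trans Γ h h2⟩, ind_false fun h' => h'.2.2 h, add_zero]
  · rw [ind_false fun h' => h h'.2.1, ind_true ⟨h1, h2, h⟩, zero_add]

theorem DT2_AL_perm1 (Γ : Gr V E) (o y u v : V) : DT2_AL Γ o u v y = DT2_AL Γ o y u v := by
  funext ω
  unfold DT2_AL
  congr 1
  apply propext
  tauto

theorem DT2_AL_perm2 (Γ : Gr V E) (o y u v : V) : DT2_AL Γ o v u y = DT2_AL Γ o y u v := by
  funext ω
  unfold DT2_AL
  congr 1
  apply propext
  tauto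

theorem DT2_four (Γ : Gr V E) (o y u v : V) (ω : Finset E)
    (h : (Γ.Conn (ω : Set E) o y ∧ Γ.Conn (ω : Set E) u v) ∨
      (Γ.Conn (ω : Set E) o u ∧ Γ.Conn (ω : Set E) y v) ∨
      (Γ.Conn (ω : Set E) o v ∧ Γ.Conn (ω : Set E) y u)) :
    (1 : ℝ) = DT2_AL Γ o y u v ω + DT2_P Γ o y u v ω + DT2_P Γ o u v y ω +
      DT2_P Γ o v u y ω := by
  have key : ∀ (A P1 P2 P3 : Prop), (DT2_AL Γ o y u v ω = ind A) → (DT2_P Γ o y u v ω = ind P1) →
      (DT2_P Γ o u v y ω = ind P2) → (DT2_P Γ o v u y ω = ind P3) →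
      ((A ∧ ¬ P1 ∧ ¬ P2 ∧ ¬ P3) ∨ (¬ A ∧ P1 ∧ ¬ P2 ∧ ¬ P3) ∨ (¬ A ∧ ¬ P1 ∧ P2 ∧ ¬ P3) ∨
        (¬ A ∧ ¬ P1 ∧ ¬ P2 ∧ P3)) →
      (1 : ℝ) = DT2_AL Γ o y u v ω + DT2_P Γ o y u v ω + DT2_P Γ o u v y ω +
        DT2_P Γ o v u y ω := by
    intro A P1 P2 P3 hA h1 h2 h3 hh
    rw [hA, h1, h2, h3]
    rcases hh with ⟨g0, g1, g2, g3⟩ | ⟨g0, g1, g2, g3⟩ | ⟨g0, g1, g2, g3⟩ | ⟨g0, g1, g2, g3⟩
    · rw [ind_true g0, ind_false g1, ind_false g2, ind_false g3]
      norm_num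
    · rw [ind_false g0, ind_true g1, ind_false g2, ind_false g3]
      norm_num
    · rw [ind_false g0, ind_false g1, ind_true g2, ind_false g3]
      norm_num
    · rw [ind_false g0, ind_false g1, ind_false g2, ind_true g3]
      norm_num
  refine key _ _ _ _ rfl rfl rfl rfl ?_
  by_cases hA : Γ.Conn (ω : Set E) o y ∧ Γ.Conn (ω : Set E) o u ∧ Γ.Conn (ω : Set E) o v
  · exact Or.inl ⟨hA, fun h' => h'.2.2 hA.2.1, fun h' => h'.2.2 hA.2.2,
      fun h' => h'.2.2 hA.2.1⟩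
  · refine Or.inr ?_
    rcases h with ⟨h1, h2⟩ | ⟨h1, h2⟩ | ⟨h1, h2⟩
    · have h3 : ¬ Γ.Conn (ω : Set E) o u := fun h' => hA ⟨h1, h', conn_trans Γ h' h2⟩
      exact Or.inl ⟨hA, ⟨h1, h2, h3⟩, fun h' => h3 h'.1,
        fun h' => h3 (conn_trans Γ h'.1 (conn_symm Γ h2))⟩
    · have h3 : ¬ Γ.Conn (ω : Set E) o v := fun h' =>
        hA ⟨conn_trans Γ h' (conn_symm Γ h2), h1, h'⟩
      exact Or.inr (Or.inl ⟨hA, fun h' => h'.2.2 h1, ⟨h1, conn_symm Γ h2, h3⟩,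
        fun h' => h3 h'.1⟩)
    · have h3 : ¬ Γ.Conn (ω : Set E) o u := fun h' =>
        hA ⟨conn_trans Γ h' (conn_symm Γ h2), h', h1⟩
      exact Or.inr (Or.inr ⟨hA, fun h' => h3 (conn_trans Γ h'.1 h2), fun h' => h3 h'.1,
        ⟨h1, conn_symm Γ h2, h3⟩⟩)

theorem four_point (Γ : Gr V E) {t : E → ℝ} (ht : T01 t) (o y u v : V) :
    Γ.tp t o u * Γ.tp t v y + Γ.tp t o v * Γ.tp t u y =
      Γ.z t (src o y + src u v) / Γ.z t 0 + Γ.tp t o y * Γ.tp t u v -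
        2 * Γ.sg t (src o y) (src u v) (fun ω => ind (¬ Γ.Conn (ω : Set E) o u)) := by
  have hz : Γ.z t 0 ≠ 0 := by
    have := one_le_z Γ ht
    linarith
  -- (1)
  have e1 : Γ.tp t o y * Γ.tp t u v =
      Γ.sg t (src o y) (src u v) (DT2_AL Γ o y u v) + Γ.sg t (src o y) (src u v) (DT2_P Γ o y u v) := by
    rw [← sg_add]
    have h := sg_one Γ t (src o y) (src u v)
    unfold Gr.tp
    rw [← h]
    exact sg_supp12 Γ t o y u v _ _ fun ω h1 h2 => DT2_pair Γ o y u v ω h1 h2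
  have e2 : Γ.tp t o u * Γ.tp t v y =
      Γ.sg t (src o u) (src v y) (DT2_AL Γ o y u v) + Γ.sg t (src o u) (src v y) (DT2_P Γ o u v y) := by
    rw [← sg_add]
    have h := sg_one Γ t (src o u) (src v y)
    unfold Gr.tp
    rw [← h, ← DT2_AL_perm1]
    exact sg_supp12 Γ t o u v y _ _ fun ω h1 h2 => DT2_pair Γ o u v y ω h1 h2
  have e3 : Γ.tp t o v * Γ.tp t u y =
      Γ.sg t (src o v) (src u y) (DT2_AL Γ o y u v) + Γ.sg t (src o v) (src u y) (DT2_P Γ o v u y) := by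
    rw [← sg_add]
    have h := sg_one Γ t (src o v) (src u y)
    unfold Gr.tp
    rw [← h, ← DT2_AL_perm2]
    exact sg_supp12 Γ t o v u y _ _ fun ω h1 h2 => DT2_pair Γ o v u y ω h1 h2
  have s2 : Γ.sg t (src o y) (src u v) (DT2_AL Γ o y u v) =
      Γ.sg t (src o u) (src v y) (DT2_AL Γ o y u v) := by
    rw [sg_switch Γ t (src o y) (src u v) y u (DT2_AL Γ o y u v) fun ω h => by
      have h' := DT2_ne h
      exact conn_trans Γ (conn_symm Γ h'.1) h'.2.1]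
    rw [src_add, add_comm (src u v), src_add, src_comm y v]
  have s3 : Γ.sg t (src o y) (src u v) (DT2_AL Γ o y u v) =
      Γ.sg t (src o v) (src u y) (DT2_AL Γ o y u v) := by
    rw [sg_switch Γ t (src o y) (src u v) y v (DT2_AL Γ o y u v) fun ω h => by
      have h' := DT2_ne h
      exact conn_trans Γ (conn_symm Γ h'.1) h'.2.2]
    rw [src_add, src_comm y v, src_add]
  -- (4)
  have e4 : Γ.z t (src o y + src u v) / Γ.z t 0 =
      Γ.sg t (src o y + src u v) 0 (DT2_AL Γ o y u v) +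
      Γ.sg t (src o y + src u v) 0 (DT2_P Γ o y u v) +
      Γ.sg t (src o y + src u v) 0 (DT2_P Γ o u v y) +
      Γ.sg t (src o y + src u v) 0 (DT2_P Γ o v u y) := by
    rw [← sg_add, ← sg_add, ← sg_add]
    have h := sg_one Γ t (src o y + src u v) 0
    rw [div_self hz, mul_one] at h
    rw [← h]
    exact sg_supp4 Γ t o y u v 0 _ _ fun ω h => DT2_four Γ o y u v ω h
  have t1 : Γ.sg t (src o y + src u v) 0 (DT2_AL Γ o y u v) =
      Γ.sg t (src o y) (src u v) (DT2_AL Γ o y u v) := by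
    rw [sg_switch Γ t (src o y + src u v) 0 u v (DT2_AL Γ o y u v) fun ω h => by
      have h' := DT2_ne h
      exact conn_trans Γ (conn_symm Γ h'.2.1) h'.2.2]
    rw [add_assoc, src_add_self, add_zero, zero_add]
  have t2 : Γ.sg t (src o y + src u v) 0 (DT2_P Γ o y u v) =
      Γ.sg t (src o y) (src u v) (DT2_P Γ o y u v) := by
    rw [sg_switch Γ t (src o y + src u v) 0 u v (DT2_P Γ o y u v) fun ω h => (DT2_ne h).2.1]
    rw [add_assoc, src_add_self, add_zero, zero_add]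
  have t3 : Γ.sg t (src o y + src u v) 0 (DT2_P Γ o u v y) =
      Γ.sg t (src o u) (src v y) (DT2_P Γ o u v y) := by
    rw [sg_switch Γ t (src o y + src u v) 0 v y (DT2_P Γ o u v y) fun ω h => (DT2_ne h).2.1]
    rw [add_assoc, src_add, src_comm u y, src_add, zero_add]
  have t4 : Γ.sg t (src o y + src u v) 0 (DT2_P Γ o v u y) =
      Γ.sg t (src o v) (src u y) (DT2_P Γ o v u y) := by
    rw [sg_switch Γ t (src o y + src u v) 0 u y (DT2_P Γ o v u y) fun ω h => (DT2_ne h).2.1]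
    rw [add_assoc, add_comm (src u v), ← add_assoc, src_comm u y, src_add, src_add, zero_add,
      src_comm y u]
  have e5 : Γ.sg t (src o y) (src u v) (fun ω => ind (¬ Γ.Conn (ω : Set E) o u)) =
      Γ.sg t (src o y) (src u v) (DT2_P Γ o y u v) := by
    apply sg_supp12
    intro ω h1 h2
    unfold DT2_P
    congr 1
    apply propext
    exact ⟨fun h => ⟨h1, h2, h⟩, fun h => h.2.2⟩
  rw [e5, e4, t1, t2, t3, t4, e1, e2, e3, ← s2, ← s3]
  ring

end H82.IC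

end S_H82_IC_DT2

section S_H82_IC_DT3

/-!
# DT3: exploration of the cluster of `o` in the double trace

For `C ∈ cls o` let `K = tch C`, `t' = off K t`, `th = z t' (src u v) / z t' 0`, `Ps C = sg (src o y) 0 (1[cl ω o = C])`.
Let `I = trc (wIn K (wDT t)) (pr (C.indicator (src o y)) 0) (1[cl ω o = C])`.

Case `y ∈ C`, `u, v ∉ C`: `C.indicator (src o y) = src o y`, `Cᶜ.indicator (src o y) = 0`, `C.indicator (src u v) = 0`, `Cᶜ.indicator (src u v) = src u v`.  By `trc_fact`,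
`wOut_DT`, `sg_one`-type identity `trc (wDT t') (pr S T) 1 = z t' S * z t' T` (`trc_pm2`):
  `trc (wDT t) (pr (src o y) 0) 1[cl = C] = I * (z t' 0)^2`,
  `trc (wDT t) (pr (src o y) (src u v)) 1[cl = C] = I * z t' 0 * z t' (src u v)`,
  `trc (wDT t) (pr (src o y + src u v) (src u v)) 1[cl = C] = I * (z t' (src u v))^2`.
This gives (a) and (b) (for (b): on `u ↔ v`, switch (`sg_switch`): `sg (src o y) 0 (1[cl = C] 1[u ↔ v]) = sg (src o y + src u v) (src u v) (1[cl = C] 1[u ↔ v])`, and then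
`u ↔ v` is automatic (`sg_supp2`)).
Case `y ∉ C`: with sources `src o y` on the first flow `o ↔ y` (`sg_supp1`), so both sides are `0`; for (b) also the left side is `0`.
-/

set_option autoImplicit false

open Finset

namespace H82.IC

variable {V E : Type*} [Fintype E] [DecidableEq E]

theorem DT3_in {C : Set V} {a b : V} (ha : a ∈ C) (hb : b ∈ C) :
    C.indicator (src a b) = src a b := by
  funext x
  by_cases hx : x ∈ C
  · rw [Set.indicator_of_mem hx]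
  · rw [Set.indicator_of_notMem hx]
    have h1 : x ≠ a := fun h => hx (h ▸ ha)
    have h2 : x ≠ b := fun h => hx (h ▸ hb)
    simp [src, h1, h2]

theorem DT3_out {C : Set V} {a b : V} (ha : a ∉ C) (hb : b ∉ C) :
    C.indicator (src a b) = 0 := by
  funext x
  by_cases hx : x ∈ C
  · rw [Set.indicator_of_mem hx]
    have h1 : x ≠ a := fun h => ha (h ▸ hx)
    have h2 : x ≠ b := fun h => hb (h ▸ hx)
    simp [src, h1, h2]
  · rw [Set.indicator_of_notMem hx]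
    rfl

theorem DT3_ind0 (C : Set V) : C.indicator (0 : V → ZMod 2) = 0 := Set.indicator_zero' _

theorem DT3_ind_add (C : Set V) (S T : V → ZMod 2) :
    C.indicator (S + T) = C.indicator S + C.indicator T := Set.indicator_add' _ _ _

omit [Fintype E] [DecidableEq E] in
theorem DT3_w (t : E → ℝ) (e : E) (a : ZMod 2 × ZMod 2) :
    wDT t e a true + wDT t e a false = hp t e a.1 * hp t e a.2 := by
  obtain ⟨a1, a2⟩ := a
  have h2 : ∀ b : ZMod 2, b = 0 ∨ b = 1 := by decide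
  rcases h2 a1 with rfl | rfl <;> rcases h2 a2 with rfl | rfl <;> (simp [wDT, hp]; try ring)

theorem DT3_one (Γ : Gr V E) (t : E → ℝ) (S T : V → ZMod 2) :
    Γ.trc (wDT t) (pr S T) (fun _ => 1) = Γ.z t S * Γ.z t T :=
  trc_pm2 Γ (wDT t) (hp t) (hp t) (DT3_w t) S T

theorem DT3_fact (Γ : Gr V E) (t : E → ℝ) (S T : V → ZMod 2) (o : V) (C : Set V) :
    Γ.trc (wDT t) (pr S T) (fun ω => ind (Γ.cl (ω : Set E) o = C)) =
      Γ.trc (wIn (Γ.tch C) (wDT t)) (pr (C.indicator S) (C.indicator T))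
        (fun ω => ind (Γ.cl (ω : Set E) o = C)) *
      (Γ.z (off (Γ.tch C) t) (Cᶜ.indicator S) * Γ.z (off (Γ.tch C) t) (Cᶜ.indicator T)) := by
  have h := trc_fact Γ (wDT t) (fun e a ha => wDT_closed t e a ha) (pr S T) o C (fun _ => 1)
    (fun _ _ _ => rfl)
  simp only [mul_one] at h
  rw [h, wOut_DT, pr_indicator, pr_indicator, DT3_one]

theorem DT3_zero (Γ : Gr V E) (t : E → ℝ) (S T : V → ZMod 2) :
    Γ.sg t S T (fun _ => 0) = 0 := by
  have h := sg_smul Γ t S T 0 (fun _ => 0)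
  simpa using h

theorem DT3_notMem (Γ : Gr V E) (t : E → ℝ) (o y : V) (T : V → ZMod 2) (C : Set V)
    (hy : y ∉ C) (f : Finset E → ℝ) :
    Γ.sg t (src o y) T (fun ω => ind (Γ.cl (ω : Set E) o = C) * f ω) = 0 := by
  rw [← DT3_zero Γ t (src o y) T]
  refine sg_supp1 Γ t o y T _ _ fun ω hω => ?_
  rw [ind_false, zero_mul]
  intro h
  exact hy (h ▸ hω)

theorem DT3_notMem' (Γ : Gr V E) (t : E → ℝ) (o y : V) (T : V → ZMod 2) (C : Set V)
    (hy : y ∉ C) : Γ.sg t (src o y) T (fun ω => ind (Γ.cl (ω : Set E) o = C)) = 0 := by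
  have h := DT3_notMem Γ t o y T C hy (fun _ => 1)
  simp only [mul_one] at h
  exact h

theorem expl_a (Γ : Gr V E) {t : E → ℝ} (ht : T01 t) (o y u v : V) (C : Set V) (hC : o ∈ C)
    (hu : u ∉ C) (hv : v ∉ C) :
    Γ.sg t (src o y) (src u v) (fun ω => ind (Γ.cl (ω : Set E) o = C)) =
      Γ.sg t (src o y) 0 (fun ω => ind (Γ.cl (ω : Set E) o = C)) *
        Γ.tp (off (Γ.tch C) t) u v := by
  by_cases hy : y ∈ C
  · have hz : Γ.z (off (Γ.tch C) t) 0 ≠ 0 :=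
      (zero_lt_one.trans_le (one_le_z Γ (T01_off ht _))).ne'
    have o' : o ∉ Cᶜ := fun h => h hC
    have y' : y ∉ Cᶜ := fun h => h hy
    unfold Gr.sg Gr.tp
    rw [DT3_fact, DT3_fact, DT3_in hC hy, DT3_out hu hv, DT3_out o' y',
      DT3_in (show u ∈ Cᶜ from hu) (show v ∈ Cᶜ from hv), DT3_ind0, DT3_ind0]
    field_simp
  · rw [DT3_notMem' Γ t o y _ C hy, DT3_notMem' Γ t o y _ C hy, zero_mul]

theorem expl_b (Γ : Gr V E) {t : E → ℝ} (ht : T01 t) (o y u v : V) (C : Set V) (hC : o ∈ C)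
    (hu : u ∉ C) (hv : v ∉ C) :
    Γ.sg t (src o y) 0 (fun ω => ind (Γ.cl (ω : Set E) o = C) * ind (Γ.Conn (ω : Set E) u v)) =
      Γ.sg t (src o y) 0 (fun ω => ind (Γ.cl (ω : Set E) o = C)) *
        (Γ.tp (off (Γ.tch C) t) u v) ^ 2 := by
  by_cases hy : y ∈ C
  · have hz : Γ.z (off (Γ.tch C) t) 0 ≠ 0 :=
      (zero_lt_one.trans_le (one_le_z Γ (T01_off ht _))).ne'
    have o' : o ∉ Cᶜ := fun h => h hC
    have y' : y ∉ Cᶜ := fun h => h hy
    rw [sg_switch Γ t (src o y) 0 u v _ (fun ω hω => by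
      by_contra hn
      rw [ind_false hn, mul_zero] at hω
      exact hω rfl), zero_add]
    rw [sg_supp2 Γ t (src o y + src u v) u v _ (fun ω => ind (Γ.cl (ω : Set E) o = C))
      (fun ω hω => by rw [ind_true hω, mul_one])]
    unfold Gr.sg Gr.tp
    rw [DT3_fact, DT3_fact, DT3_ind_add, DT3_ind_add, DT3_in hC hy, DT3_out hu hv,
      DT3_out o' y',
      DT3_in (show u ∈ Cᶜ from hu) (show v ∈ Cᶜ from hv), DT3_ind0, DT3_ind0,
      add_zero, zero_add]
    field_simp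
  · rw [DT3_notMem Γ t o y _ C hy, DT3_notMem' Γ t o y _ C hy, zero_mul]

end H82.IC

end S_H82_IC_DT3

section S_H82_IC_DT4

/-!
# DT4: the tree graph inequality

`T = sg (src o y) 0 (1[o ↔ u] 1[o ↔ v]) ≤ tp u v * (tp o u * tp v y + tp o v * tp u y)`.

Let `Ps C = sg (src o y) 0 1[cl = C]`, `th C = tp (off (tch C) t) u v`, sums over `C ∈ cls o`, `q C = 1[u ∉ C ∧ v ∉ C]`, `ze = tp u v`.
(1) `∑ Ps C = sg (src o y) 0 1 = tp o y` (`trc_sum_cl`, `sg_one`).
(2) `b1 := sg (src o y) (src u v) 1[not o ↔ u] = ∑_C q C * Ps C * th C`: decompose according to `cl ω o = C` (`trc_sum_cl`); `o ↔ u` iff `u ∈ C`; by `sg_supp2` `u ↔ v`, so the terms with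
    exactly one of `u, v` in `C` vanish (if `v ∈ C`, `u ∉ C` the connection `u ↔ v` is impossible); the others are `expl_a`.
(3) `tp u v * z4 = T + ∑_C q C * Ps C * (th C)^2`, `z4 = z (src o y + src u v)/z 0`: `sg (src o y + src u v) (src u v) 1 = z4 * tp u v` (`sg_one`); `u ↔ v` automatic (`sg_supp2`);
    switch with `(u,v)` (`sg_switch`; `src u v + src u v = 0`): `= sg (src o y) 0 1[u ↔ v] = sg (src o y) 0 (1[u ↔ v] 1[o ↔ u]) + sg (src o y) 0 (1[u ↔ v] 1[not o ↔ u])`,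
    the first is `T` (`1[u↔v]1[o↔u] = 1[o↔u]1[o↔v]`), the second is decomposed by clusters and `expl_b` (terms with `u ∈ C` are excluded, terms with `v ∈ C`, `u ∉ C` vanish).
(4) `four_point`: `S := tp o u * tp v y + tp o v * tp u y = z4 + tp o y * ze - 2 b1`.
Hence `ze * S = T + ∑_C Ps C (q C th C^2 + ze^2 - 2 ze q C th C) = T + ∑_C Ps C (ze - q C th C)^2 ≥ T`  (`q^2 = q`, `Ps C ≥ 0`).
-/

set_option autoImplicit false

open Finset

namespace H82.IC

variable {V E : Type*} [Fintype E] [DecidableEq E]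

theorem DT4_true {p : Prop} (h : p) : ind p = 1 := by
  unfold ind
  rw [if_pos h]

theorem DT4_false {p : Prop} (h : ¬ p) : ind p = 0 := by
  unfold ind
  rw [if_neg h]

theorem DT4_zero (Γ : Gr V E) (t : E → ℝ) (S T : V → ZMod 2) (f : Finset E → ℝ)
    (hf : ∀ ω, f ω = 0) : Γ.sg t S T f = 0 := by
  have h1 := sg_smul Γ t S T 0 f
  have h2 : (fun ω : Finset E => 0 * f ω) = f := by
    funext ω
    rw [hf, mul_zero]
  rw [h2, zero_mul] at h1
  exact h1

theorem DT4_sum (Γ : Gr V E) (t : E → ℝ) (S T : V → ZMod 2) (o : V) (f : Finset E → ℝ) :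
    Γ.sg t S T f = ∑ C ∈ Γ.cls o, Γ.sg t S T (fun ω => ind (Γ.cl (ω : Set E) o = C) * f ω) := by
  unfold Gr.sg
  rw [trc_sum_cl Γ (wDT t) (pr S T) o f, Finset.sum_div]

/-- the total mass of the clusters -/
theorem DT4_mass (Γ : Gr V E) {t : E → ℝ} (ht : T01 t) (o y : V) :
    ∑ C ∈ Γ.cls o, Γ.sg t (src o y) 0 (fun ω => ind (Γ.cl (ω : Set E) o = C)) = Γ.tp t o y := by
  have h0 : Γ.z t 0 ≠ 0 := (zero_lt_one.trans_le (one_le_z Γ ht)).ne'
  have h1 := DT4_sum Γ t (src o y) 0 o (fun _ => 1)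
  simp only [mul_one] at h1
  rw [← h1, sg_one, div_self h0, mul_one]
  rfl

theorem DT4_b1 (Γ : Gr V E) {t : E → ℝ} (ht : T01 t) (o y u v : V) :
    Γ.sg t (src o y) (src u v) (fun ω => ind (¬ Γ.Conn (ω : Set E) o u)) =
      ∑ C ∈ Γ.cls o, ind (u ∉ C ∧ v ∉ C) *
        Γ.sg t (src o y) 0 (fun ω => ind (Γ.cl (ω : Set E) o = C)) *
        Γ.tp (off (Γ.tch C) t) u v := by
  rw [DT4_sum Γ t (src o y) (src u v) o]
  refine Finset.sum_congr rfl fun C hC => ?_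
  by_cases hu : u ∈ C
  · rw [DT4_false (fun h : u ∉ C ∧ v ∉ C => h.1 hu), zero_mul, zero_mul]
    refine DT4_zero Γ t _ _ _ fun ω => ?_
    by_cases h : Γ.cl (ω : Set E) o = C
    · rw [← h] at hu
      rw [DT4_false (fun h' : ¬ Γ.Conn (ω : Set E) o u => h' hu), mul_zero]
    · rw [DT4_false h, zero_mul]
  · by_cases hv : v ∈ C
    · rw [DT4_false (fun h : u ∉ C ∧ v ∉ C => h.2 hv), zero_mul, zero_mul]
      rw [sg_supp2 Γ t (src o y) u v _ (fun _ => 0) fun ω huv => ?_]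
      · exact DT4_zero Γ t _ _ _ fun _ => rfl
      by_cases h : Γ.cl (ω : Set E) o = C
      · exfalso
        rw [← h] at hu hv
        exact hu (conn_trans Γ hv (conn_symm Γ huv))
      · rw [DT4_false h, zero_mul]
    · rw [DT4_true (⟨hu, hv⟩ : u ∉ C ∧ v ∉ C), one_mul,
        ← expl_a Γ ht o y u v C (mem_of_cls Γ o hC) hu hv]
      congr 1
      funext ω
      by_cases h : Γ.cl (ω : Set E) o = C
      · rw [← h] at hu
        rw [DT4_true (show ¬ Γ.Conn (ω : Set E) o u from hu), mul_one]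
      · rw [DT4_false h, zero_mul]

theorem DT4_b2 (Γ : Gr V E) {t : E → ℝ} (ht : T01 t) (o y u v : V) :
    Γ.sg t (src o y) 0 (fun ω => ind (Γ.Conn (ω : Set E) u v) * ind (¬ Γ.Conn (ω : Set E) o u)) =
      ∑ C ∈ Γ.cls o, ind (u ∉ C ∧ v ∉ C) *
        Γ.sg t (src o y) 0 (fun ω => ind (Γ.cl (ω : Set E) o = C)) *
        (Γ.tp (off (Γ.tch C) t) u v) ^ 2 := by
  rw [DT4_sum Γ t (src o y) 0 o]
  refine Finset.sum_congr rfl fun C hC => ?_
  by_cases hu : u ∈ C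
  · rw [DT4_false (fun h : u ∉ C ∧ v ∉ C => h.1 hu), zero_mul, zero_mul]
    refine DT4_zero Γ t _ _ _ fun ω => ?_
    by_cases h : Γ.cl (ω : Set E) o = C
    · rw [← h] at hu
      rw [DT4_false (fun h' : ¬ Γ.Conn (ω : Set E) o u => h' hu), mul_zero, mul_zero]
    · rw [DT4_false h, zero_mul]
  · by_cases hv : v ∈ C
    · rw [DT4_false (fun h : u ∉ C ∧ v ∉ C => h.2 hv), zero_mul, zero_mul]
      refine DT4_zero Γ t _ _ _ fun ω => ?_
      by_cases h : Γ.cl (ω : Set E) o = C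
      · rw [← h] at hu hv
        by_cases huv : Γ.Conn (ω : Set E) u v
        · exact absurd (conn_trans Γ hv (conn_symm Γ huv)) hu
        · rw [DT4_false huv, zero_mul, mul_zero]
      · rw [DT4_false h, zero_mul]
    · rw [DT4_true (⟨hu, hv⟩ : u ∉ C ∧ v ∉ C), one_mul,
        ← expl_b Γ ht o y u v C (mem_of_cls Γ o hC) hu hv]
      congr 1
      funext ω
      by_cases h : Γ.cl (ω : Set E) o = C
      · rw [← h] at hu
        rw [DT4_true (show ¬ Γ.Conn (ω : Set E) o u from hu), mul_one]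
      · rw [DT4_false h, zero_mul, zero_mul]

/-- the four point function in terms of the clusters -/
theorem DT4_z4 (Γ : Gr V E) {t : E → ℝ} (ht : T01 t) (o y u v : V) :
    Γ.z t (src o y + src u v) / Γ.z t 0 * Γ.tp t u v =
      Γ.sg t (src o y) 0 (fun ω => ind (Γ.Conn (ω : Set E) o u) * ind (Γ.Conn (ω : Set E) o v)) +
      Γ.sg t (src o y) 0
        (fun ω => ind (Γ.Conn (ω : Set E) u v) * ind (¬ Γ.Conn (ω : Set E) o u)) := by
  have h1 := sg_one Γ t (src o y + src u v) (src u v)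
  rw [Gr.tp, ← h1, sg_supp2 Γ t (src o y + src u v) u v (fun _ => 1)
    (fun ω => ind (Γ.Conn (ω : Set E) u v)) fun ω h => (DT4_true h).symm]
  rw [sg_switch Γ t _ _ u v _ fun ω h => by
    by_contra h'
    exact h (DT4_false h')]
  rw [add_assoc, src_add_self, add_zero, ← sg_add]
  congr 1
  funext ω
  by_cases h1 : Γ.Conn (ω : Set E) o u
  · rw [DT4_true h1, DT4_false (fun h : ¬ Γ.Conn (ω : Set E) o u => h h1), mul_zero, add_zero,
      one_mul]
    by_cases h2 : Γ.Conn (ω : Set E) u v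
    · rw [DT4_true h2, DT4_true (conn_trans Γ h1 h2)]
    · rw [DT4_false h2, DT4_false fun h3 => h2 (conn_trans Γ (conn_symm Γ h1) h3)]
  · rw [DT4_false h1, DT4_true h1, mul_one, zero_mul, zero_add]

theorem tree_graph (Γ : Gr V E) {t : E → ℝ} (ht : T01 t) (o y u v : V) :
    Γ.sg t (src o y) 0 (fun ω => ind (Γ.Conn (ω : Set E) o u) * ind (Γ.Conn (ω : Set E) o v)) ≤
      Γ.tp t u v * (Γ.tp t o u * Γ.tp t v y + Γ.tp t o v * Γ.tp t u y) := by
  have h1 := DT4_mass Γ ht o y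
  have h2 := DT4_b1 Γ ht o y u v
  have h3 := DT4_b2 Γ ht o y u v
  have h4 := DT4_z4 Γ ht o y u v
  have h5 := four_point Γ ht o y u v
  rw [h5, h2]
  rw [h3] at h4
  set ze := Γ.tp t u v
  have key : 0 ≤ ∑ C ∈ Γ.cls o, Γ.sg t (src o y) 0 (fun ω => ind (Γ.cl (ω : Set E) o = C)) *
      (ze - ind (u ∉ C ∧ v ∉ C) * Γ.tp (off (Γ.tch C) t) u v) ^ 2 := by
    refine Finset.sum_nonneg fun C _ => mul_nonneg (sg_nonneg Γ ht _ _ fun ω => ?_) (sq_nonneg _)
    unfold ind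
    split_ifs
    · exact zero_le_one
    · exact le_refl 0
  have e1 : ∑ C ∈ Γ.cls o, Γ.sg t (src o y) 0 (fun ω => ind (Γ.cl (ω : Set E) o = C)) *
      (ze - ind (u ∉ C ∧ v ∉ C) * Γ.tp (off (Γ.tch C) t) u v) ^ 2 =
      ze ^ 2 * (∑ C ∈ Γ.cls o, Γ.sg t (src o y) 0 (fun ω => ind (Γ.cl (ω : Set E) o = C))) -
      2 * ze * (∑ C ∈ Γ.cls o, ind (u ∉ C ∧ v ∉ C) *
        Γ.sg t (src o y) 0 (fun ω => ind (Γ.cl (ω : Set E) o = C)) *
        Γ.tp (off (Γ.tch C) t) u v) +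
      ∑ C ∈ Γ.cls o, ind (u ∉ C ∧ v ∉ C) *
        Γ.sg t (src o y) 0 (fun ω => ind (Γ.cl (ω : Set E) o = C)) *
        (Γ.tp (off (Γ.tch C) t) u v) ^ 2 := by
    rw [Finset.mul_sum, Finset.mul_sum, ← Finset.sum_sub_distrib, ← Finset.sum_add_distrib]
    refine Finset.sum_congr rfl fun C _ => ?_
    by_cases h : u ∉ C ∧ v ∉ C
    · rw [DT4_true h]
      ring
    · rw [DT4_false h]
      ring
  rw [e1, h1] at key
  linarith

end H82.IC

end S_H82_IC_DT4

section S_H82_IC_KEY1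

/-!
# KEY1: first and second moment of `N = ∑_{u ∈ B} α u 1[o ↔ u]` under the double trace with sources `(src o a, 0)`

Expand `(N - 1)^2 = ∑_{u,v} α u α v 1[o↔u]1[o↔v] - 2 ∑ α u 1[o↔u] + 1`, use linearity (`sg_sum`, `sg_smul`, ...), `tree_graph` for the double sum (`α ≥ 0`), `sg_first` for the
middle term and `sg_one` (`z (src o a)/z 0 = tp o a`, `z 0 / z 0 = 1` by `one_le_z`) for the last.
`sg_cs`: Cauchy-Schwarz from `trc_cs` divided by `(z 0)^4`.
-/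

set_option autoImplicit false

open Finset

namespace H82.IC

variable {V E : Type*} [Fintype E] [DecidableEq E]

/-- `N ω = ∑_{u ∈ B} α u 1[o ↔ u]`. -/
noncomputable def Gr.NN (Γ : Gr V E) (B : Finset V) (α : V → ℝ) (o : V) (ω : Finset E) : ℝ :=
  ∑ u ∈ B, α u * ind (Γ.Conn (ω : Set E) o u)

theorem sg_mass (Γ : Gr V E) {t : E → ℝ} (ht : T01 t) (o a : V) :
    Γ.sg t (src o a) 0 (fun _ => 1) = Γ.tp t o a := by
  have hz0 : Γ.z t 0 ≠ 0 := by have := one_le_z Γ ht; positivity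
  rw [sg_one, div_self hz0, mul_one]
  rfl

theorem sg_NN (Γ : Gr V E) (t : E → ℝ) (o a : V) (B : Finset V) (α : V → ℝ) :
    Γ.sg t (src o a) 0 (Γ.NN B α o) = ∑ u ∈ B, α u * (Γ.tp t o u * Γ.tp t u a) := by
  have h : Γ.NN B α o = fun ω : Finset E => ∑ u ∈ B, α u * ind (Γ.Conn (ω : Set E) o u) := rfl
  rw [h, sg_sum]
  exact Finset.sum_congr rfl (fun u _ => by rw [sg_smul, sg_first])

theorem sg_NN_sq (Γ : Gr V E) {t : E → ℝ} (ht : T01 t) (o a : V) (B : Finset V) (α : V → ℝ)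
    (hα : ∀ u, 0 ≤ α u) :
    Γ.sg t (src o a) 0 (fun ω => (Γ.NN B α o ω - 1) ^ 2) ≤
      (∑ u ∈ B, ∑ v ∈ B, α u * α v * (Γ.tp t u v *
        (Γ.tp t o u * Γ.tp t v a + Γ.tp t o v * Γ.tp t u a))) -
      2 * (∑ u ∈ B, α u * (Γ.tp t o u * Γ.tp t u a)) + Γ.tp t o a := by
  have hexp : (fun ω => (Γ.NN B α o ω - 1) ^ 2) = fun ω : Finset E =>
      ((∑ u ∈ B, ∑ v ∈ B, (α u * α v) *
        (ind (Γ.Conn (ω : Set E) o u) * ind (Γ.Conn (ω : Set E) o v))) -
        2 * Γ.NN B α o ω) + 1 := by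
    funext ω
    have h1 : (∑ u ∈ B, ∑ v ∈ B, (α u * α v) *
        (ind (Γ.Conn (ω : Set E) o u) * ind (Γ.Conn (ω : Set E) o v))) =
        Γ.NN B α o ω * Γ.NN B α o ω := by
      unfold Gr.NN
      rw [Finset.sum_mul_sum]
      exact Finset.sum_congr rfl (fun u _ => Finset.sum_congr rfl (fun v _ => by ring))
    rw [h1]; ring
  rw [hexp, sg_add, sg_sub, sg_smul, sg_NN, sg_mass Γ ht, sg_sum]
  have h2 : ∑ u ∈ B, Γ.sg t (src o a) 0 (fun ω : Finset E => ∑ v ∈ B, (α u * α v) *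
        (ind (Γ.Conn (ω : Set E) o u) * ind (Γ.Conn (ω : Set E) o v))) ≤
      ∑ u ∈ B, ∑ v ∈ B, α u * α v * (Γ.tp t u v *
        (Γ.tp t o u * Γ.tp t v a + Γ.tp t o v * Γ.tp t u a)) := by
    refine Finset.sum_le_sum (fun u _ => ?_)
    rw [sg_sum]
    refine Finset.sum_le_sum (fun v _ => ?_)
    rw [sg_smul]
    exact mul_le_mul_of_nonneg_left (tree_graph Γ ht o a u v) (mul_nonneg (hα u) (hα v))
  linarith

theorem sg_cs (Γ : Gr V E) {t : E → ℝ} (ht : T01 t) (o a : V) (f : Finset E → ℝ) :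
    (Γ.sg t (src o a) 0 (fun ω => |f ω|)) ^ 2 ≤
      Γ.tp t o a * Γ.sg t (src o a) 0 (fun ω => f ω ^ 2) := by
  have hz := one_le_z Γ ht
  have hz0 : 0 < Γ.z t 0 := by linarith
  rw [← sg_mass Γ ht]
  have h := trc_cs Γ (wDT t) (fun e a b => wDT_nonneg ht e a b) (pr (src o a) 0) f
  unfold Gr.sg
  have hz2 : 0 < (Γ.z t 0) ^ 2 := by positivity
  rw [div_pow, div_mul_div_comm, ← pow_two]
  exact div_le_div_of_nonneg_right h (by positivity)

end H82.IC

end S_H82_IC_KEY1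

section S_H82_IC_KEY2

/-!
# KEY2: the key inequality on one graph

Let `x = fkE t (1[ω ∩ F = ∅] 1[o ↔ a])`, `N = NN B α o`, `Rr ω = ∑_{u ∈ B} α u 1[o↔u]1[not G u]`, `N' ω = ∑_{u ∈ B} α u 1[G u]`, `G u` = `u ↔ a` in `ω \ F`,
`E u = tp o u * ∑_{z ∈ vF F} tp u z * tp z a`, `K = CF τ |F| ∈ [0,1]`.
(1) `x = K * sgF (src o a) 0 1` (`sgF_one` with `T = 0`, `z 0/z 0 = 1`).
(2) `K * sgF (src o a) 0 (1 - N')` has absolute value `≤ sg (src o a) 0 |1 - N'|` (`sgF_abs`, `CF_le_one`); by `G_sub` (used for the function `|1 - N'|`: on configurations with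
    `o ↔ a`, `1[G u] = 1[o↔u] - 1[o↔u]1[not G u]`, i.e. `N' = N - Rr`; prove it with `sg_supp1`) it is `≤ sg |1 - N| + sg Rr ≤ sg |N - 1| + ∑ α u E u` (`loss_bound`).
(3) `K * sgF (src o a) 0 N' = ∑ α u (K * sgF (src o u) (src u a) 1[G u])` (`sgF_G`) `= ∑ α u (K * sgF (src o u) (src u a) 1 - K * sgF (src o u) (src u a) 1[not G u])`,
    `K * sgF (src o u) (src u a) 1 = fkE t (1[ω ∩ F = ∅]1[o↔u]) * tp u a` (`sgF_one`), and `0 ≤ K * sgF .. 1[not G u] ≤ E u` (`sgF_le`, `notG_bound`).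
(4) `c * tp o a = c * sg (src o a) 0 1 = c * ∑ α u tp o u tp u a - c * sg (src o a) 0 (N - 1)` (`sg_mass`, `sg_NN`).
Subtract: `|x - c tp o a| ≤ (sg|N-1| + ∑ α u E u) + ∑ α u E u + ∑ α u |fkE(1[ω∩F=∅]1[o↔u]) - c tp o u| tp u a + |c| sg |N-1|`.
-/

set_option autoImplicit false

open Finset

namespace H82.IC

variable {V E : Type*} [Fintype E] [DecidableEq E]

theorem KEY2_ind_true {p : Prop} (h : p) : ind p = 1 := by
  unfold ind; simp [h]

theorem KEY2_ind_false {p : Prop} (h : ¬ p) : ind p = 0 := by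
  unfold ind; simp [h]

theorem KEY2_ind_nonneg (p : Prop) : 0 ≤ ind p := by
  unfold ind; split_ifs <;> norm_num

theorem KEY2_ind_not (p : Prop) : ind (¬ p) = 1 - ind p := by
  by_cases h : p
  · rw [KEY2_ind_true h, KEY2_ind_false (not_not.mpr h)]; norm_num
  · rw [KEY2_ind_false h, KEY2_ind_true h]; norm_num

theorem KEY2_abs_sg (Γ : Gr V E) {t : E → ℝ} (ht : T01 t) (S T : V → ZMod 2) (f : Finset E → ℝ) :
    |Γ.sg t S T f| ≤ Γ.sg t S T (fun ω => |f ω|) := by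
  have h1 : Γ.sg t S T f ≤ Γ.sg t S T (fun ω => |f ω|) := sg_mono Γ ht S T (fun ω => le_abs_self _)
  have h2 : Γ.sg t S T (fun ω => (-1) * f ω) ≤ Γ.sg t S T (fun ω => |f ω|) :=
    sg_mono Γ ht S T (fun ω => by rw [neg_one_mul]; exact neg_le_abs _)
  rw [sg_smul] at h2
  rw [abs_le]
  constructor <;> linarith

theorem KEY2_loss (Γ : Gr V E) {t : E → ℝ} (ht : T01 t) (F : Finset E) (o a : V)
    (B : Finset V) (α : V → ℝ) (hα : ∀ u, 0 ≤ α u) :
    Γ.sg t (src o a) 0 (fun ω => |1 - ∑ u ∈ B, α u * ind (Γ.Conn ((ω : Set E) \ F) u a)|) ≤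
      Γ.sg t (src o a) 0 (fun ω => |Γ.NN B α o ω - 1|) +
      ∑ u ∈ B, α u * (Γ.tp t o u * ∑ z ∈ Γ.vF F, Γ.tp t u z * Γ.tp t z a) := by
  have e1 : Γ.sg t (src o a) 0
      (fun ω => |1 - ∑ u ∈ B, α u * ind (Γ.Conn ((ω : Set E) \ F) u a)|) =
      Γ.sg t (src o a) 0 (fun ω => |1 - (Γ.NN B α o ω - ∑ u ∈ B, α u *
        (ind (Γ.Conn (ω : Set E) o u) * ind (¬ Γ.Conn ((ω : Set E) \ F) u a)))|) := by
    apply sg_supp1
    intro ω hoa
    have : ∑ u ∈ B, α u * ind (Γ.Conn ((ω : Set E) \ F) u a) =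
        Γ.NN B α o ω - ∑ u ∈ B, α u *
        (ind (Γ.Conn (ω : Set E) o u) * ind (¬ Γ.Conn ((ω : Set E) \ F) u a)) := by
      unfold Gr.NN
      rw [← Finset.sum_sub_distrib]
      apply Finset.sum_congr rfl
      intro u _
      by_cases hG : Γ.Conn ((ω : Set E) \ F) u a
      · have hou : Γ.Conn (ω : Set E) o u :=
          conn_trans Γ hoa (conn_symm Γ (conn_mono Γ Set.sdiff_subset hG))
        rw [KEY2_ind_true hG, KEY2_ind_true hou, KEY2_ind_false (not_not.mpr hG)]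
        ring
      · rw [KEY2_ind_false hG, KEY2_ind_true hG]
        ring
    simp only [this]
  rw [e1]
  have e2 : Γ.sg t (src o a) 0 (fun ω => |1 - (Γ.NN B α o ω - ∑ u ∈ B, α u *
        (ind (Γ.Conn (ω : Set E) o u) * ind (¬ Γ.Conn ((ω : Set E) \ F) u a)))|) ≤
      Γ.sg t (src o a) 0 (fun ω => |Γ.NN B α o ω - 1| + ∑ u ∈ B, α u *
        (ind (Γ.Conn (ω : Set E) o u) * ind (¬ Γ.Conn ((ω : Set E) \ F) u a))) := by
    apply sg_mono Γ ht
    intro ω
    have hR : 0 ≤ ∑ u ∈ B, α u *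
        (ind (Γ.Conn (ω : Set E) o u) * ind (¬ Γ.Conn ((ω : Set E) \ F) u a)) :=
      Finset.sum_nonneg (fun u _ => mul_nonneg (hα u)
        (mul_nonneg (KEY2_ind_nonneg _) (KEY2_ind_nonneg _)))
    rw [abs_le]
    have h1 := le_abs_self (Γ.NN B α o ω - 1)
    have h2 := neg_le_abs (Γ.NN B α o ω - 1)
    constructor <;> linarith
  refine e2.trans ?_
  rw [sg_add, sg_sum]
  have e3 : ∑ u ∈ B, Γ.sg t (src o a) 0 (fun ω => α u *
        (ind (Γ.Conn (ω : Set E) o u) * ind (¬ Γ.Conn ((ω : Set E) \ F) u a))) ≤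
      ∑ u ∈ B, α u * (Γ.tp t o u * ∑ z ∈ Γ.vF F, Γ.tp t u z * Γ.tp t z a) := by
    apply Finset.sum_le_sum
    intro u _
    rw [sg_smul]
    exact mul_le_mul_of_nonneg_left (loss_bound Γ ht F o a u) (hα u)
  linarith

theorem key_pointwise (Γ : Gr V E) {t : E → ℝ} (ht : T01 t) (F : Finset E) {τ : ℝ} (h0 : 0 ≤ τ)
    (h1 : τ < 1) (hF : ∀ e ∈ F, t e = τ) (o a : V) (B : Finset V) (α : V → ℝ) (hα : ∀ u, 0 ≤ α u)
    (c : ℝ) (δ : V → ℝ)
    (hδ : ∀ u ∈ B, |Γ.fkE t (fun ω => ind (Disjoint ω F) * ind (Γ.Conn (ω : Set E) o u)) -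
      c * Γ.tp t o u| ≤ δ u) :
    |Γ.fkE t (fun ω => ind (Disjoint ω F) * ind (Γ.Conn (ω : Set E) o a)) - c * Γ.tp t o a| ≤
      (1 + |c|) * Γ.sg t (src o a) 0 (fun ω => |Γ.NN B α o ω - 1|) +
      2 * (∑ u ∈ B, α u * (Γ.tp t o u * ∑ z ∈ Γ.vF F, Γ.tp t u z * Γ.tp t z a)) +
      ∑ u ∈ B, α u * (δ u * Γ.tp t u a) := by
  classical
  set K : ℝ := CF τ F.card with hK
  have hK0 : 0 ≤ K := CF_nonneg h0 h1 _
  have hK1 : K ≤ 1 := CF_le_one h0 h1 _
  have hz0 : Γ.z t 0 ≠ 0 := by have := one_le_z Γ ht; positivity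
  set X : V → ℝ := fun u =>
    Γ.fkE t (fun ω => ind (Disjoint ω F) * ind (Γ.Conn (ω : Set E) o u)) with hX
  set Er : V → ℝ := fun u => Γ.tp t o u * ∑ z ∈ Γ.vF F, Γ.tp t u z * Γ.tp t z a with hEr
  set N' : Finset E → ℝ := fun ω => ∑ u ∈ B, α u * ind (Γ.Conn ((ω : Set E) \ F) u a) with hN'
  set SN : ℝ := Γ.sg t (src o a) 0 (fun ω => |Γ.NN B α o ω - 1|) with hSN
  set R : V → ℝ := fun u =>
    K * Γ.sgF F t (src o u) (src u a) (fun ω => ind (¬ Γ.Conn ((ω : Set E) \ F) u a)) with hR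
  -- (1)
  have s1 : X a = K * Γ.sgF F t (src o a) 0 (fun _ => 1) := by
    rw [hK, sgF_one Γ ht F h0 h1 hF o a 0, div_self hz0, mul_one]
  -- (2)
  have s2 : |K * Γ.sgF F t (src o a) 0 (fun ω => 1 - N' ω)| ≤ SN + ∑ u ∈ B, α u * Er u := by
    rw [abs_mul, abs_of_nonneg hK0]
    have a1 := sgF_abs Γ ht F (src o a) 0 (fun ω => 1 - N' ω)
    have a2 := KEY2_loss Γ ht F o a B α hα
    have a3 : 0 ≤ |Γ.sgF F t (src o a) 0 (fun ω => 1 - N' ω)| := abs_nonneg _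
    calc K * |Γ.sgF F t (src o a) 0 (fun ω => 1 - N' ω)|
        ≤ 1 * |Γ.sgF F t (src o a) 0 (fun ω => 1 - N' ω)| :=
          mul_le_mul_of_nonneg_right hK1 a3
      _ = |Γ.sgF F t (src o a) 0 (fun ω => 1 - N' ω)| := one_mul _
      _ ≤ _ := a1.trans a2
  have s2b : K * Γ.sgF F t (src o a) 0 (fun ω => 1 - N' ω) =
      X a - K * Γ.sgF F t (src o a) 0 N' := by
    rw [sgF_sub, mul_sub, ← s1]
  -- (3)
  have s3 : K * Γ.sgF F t (src o a) 0 N' = ∑ u ∈ B, α u * (X u * Γ.tp t u a - R u) := by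
    rw [hN', sgF_sum, Finset.mul_sum]
    apply Finset.sum_congr rfl
    intro u _
    rw [sgF_smul, sgF_G]
    have hG : Γ.sgF F t (src o u) (src u a) (fun ω => ind (Γ.Conn ((ω : Set E) \ F) u a)) =
        Γ.sgF F t (src o u) (src u a) (fun _ => 1) -
        Γ.sgF F t (src o u) (src u a) (fun ω => ind (¬ Γ.Conn ((ω : Set E) \ F) u a)) := by
      rw [← sgF_sub]
      congr 1
      funext ω
      rw [KEY2_ind_not]; ring
    have hone := sgF_one Γ ht F h0 h1 hF o u (src u a)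
    rw [hG]
    have hone' : K * Γ.sgF F t (src o u) (src u a) (fun _ => 1) = X u * Γ.tp t u a := hone
    simp only [hR]
    rw [← hone']
    ring
  have s3b : ∀ u, |R u| ≤ Er u := by
    intro u
    simp only [hR]
    rw [abs_mul, abs_of_nonneg hK0]
    have a1 := sgF_abs Γ ht F (src o u) (src u a)
      (fun ω => ind (¬ Γ.Conn ((ω : Set E) \ F) u a))
    have a2 : Γ.sg t (src o u) (src u a)
        (fun ω => |ind (¬ Γ.Conn ((ω : Set E) \ F) u a)|) =
        Γ.sg t (src o u) (src u a) (fun ω => ind (¬ Γ.Conn ((ω : Set E) \ F) u a)) := by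
      congr 1
      funext ω
      exact abs_of_nonneg (KEY2_ind_nonneg _)
    rw [a2] at a1
    have a3 := notG_bound Γ ht F o a u
    calc K * |Γ.sgF F t (src o u) (src u a) (fun ω => ind (¬ Γ.Conn ((ω : Set E) \ F) u a))|
        ≤ 1 * |Γ.sgF F t (src o u) (src u a)
            (fun ω => ind (¬ Γ.Conn ((ω : Set E) \ F) u a))| :=
          mul_le_mul_of_nonneg_right hK1 (abs_nonneg _)
      _ = |Γ.sgF F t (src o u) (src u a)
            (fun ω => ind (¬ Γ.Conn ((ω : Set E) \ F) u a))| := one_mul _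
      _ ≤ _ := a1.trans a3
  -- (4)
  have s4 : Γ.sg t (src o a) 0 (fun ω => Γ.NN B α o ω - 1) =
      ∑ u ∈ B, α u * (Γ.tp t o u * Γ.tp t u a) - Γ.tp t o a := by
    rw [sg_sub, sg_mass Γ ht, sg_NN]
  have s4b : |Γ.sg t (src o a) 0 (fun ω => Γ.NN B α o ω - 1)| ≤ SN :=
    KEY2_abs_sg Γ ht _ _ _
  set Q : ℝ := Γ.sg t (src o a) 0 (fun ω => Γ.NN B α o ω - 1) with hQ
  -- assembly
  have key : X a - c * Γ.tp t o a =
      K * Γ.sgF F t (src o a) 0 (fun ω => 1 - N' ω) +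
      ∑ u ∈ B, α u * ((X u - c * Γ.tp t o u) * Γ.tp t u a) -
      ∑ u ∈ B, α u * R u + c * Q := by
    rw [s2b, s3, s4, mul_sub, Finset.mul_sum]
    have e1 : ∑ u ∈ B, α u * (X u * Γ.tp t u a - R u) =
        ∑ u ∈ B, α u * (X u * Γ.tp t u a) - ∑ u ∈ B, α u * R u := by
      rw [← Finset.sum_sub_distrib]
      exact Finset.sum_congr rfl (fun u _ => by ring)
    have e2 : ∑ u ∈ B, α u * ((X u - c * Γ.tp t o u) * Γ.tp t u a) =
        ∑ u ∈ B, α u * (X u * Γ.tp t u a) -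
        ∑ u ∈ B, c * (α u * (Γ.tp t o u * Γ.tp t u a)) := by
      rw [← Finset.sum_sub_distrib]
      exact Finset.sum_congr rfl (fun u _ => by ring)
    rw [e1, e2]
    ring
  have b1 : |∑ u ∈ B, α u * ((X u - c * Γ.tp t o u) * Γ.tp t u a)| ≤
      ∑ u ∈ B, α u * (δ u * Γ.tp t u a) := by
    refine (Finset.abs_sum_le_sum_abs _ _).trans (Finset.sum_le_sum ?_)
    intro u hu
    have ht0 := tp_nonneg Γ ht u a
    rw [abs_mul, abs_of_nonneg (hα u), abs_mul, abs_of_nonneg ht0]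
    exact mul_le_mul_of_nonneg_left (mul_le_mul_of_nonneg_right (hδ u hu) ht0) (hα u)
  have b2 : |∑ u ∈ B, α u * R u| ≤ ∑ u ∈ B, α u * Er u := by
    refine (Finset.abs_sum_le_sum_abs _ _).trans (Finset.sum_le_sum ?_)
    intro u _
    rw [abs_mul, abs_of_nonneg (hα u)]
    exact mul_le_mul_of_nonneg_left (s3b u) (hα u)
  have b3 : |c * Q| ≤ |c| * SN := by
    rw [abs_mul]
    exact mul_le_mul_of_nonneg_left s4b (abs_nonneg c)
  have hfin : |X a - c * Γ.tp t o a| ≤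
      (SN + ∑ u ∈ B, α u * Er u) + ∑ u ∈ B, α u * (δ u * Γ.tp t u a) +
      ∑ u ∈ B, α u * Er u + |c| * SN := by
    rw [key]
    have t1 := abs_add_le (K * Γ.sgF F t (src o a) 0 (fun ω => 1 - N' ω) +
      ∑ u ∈ B, α u * ((X u - c * Γ.tp t o u) * Γ.tp t u a) -
      ∑ u ∈ B, α u * R u) (c * Q)
    have t2 := abs_sub (K * Γ.sgF F t (src o a) 0 (fun ω => 1 - N' ω) +
      ∑ u ∈ B, α u * ((X u - c * Γ.tp t o u) * Γ.tp t u a)) (∑ u ∈ B, α u * R u)
    have t3 := abs_add_le (K * Γ.sgF F t (src o a) 0 (fun ω => 1 - N' ω))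
      (∑ u ∈ B, α u * ((X u - c * Γ.tp t o u) * Γ.tp t u a))
    linarith
  calc |X a - c * Γ.tp t o a| ≤ _ := hfin
    _ = (1 + |c|) * SN + 2 * (∑ u ∈ B, α u * Er u) + ∑ u ∈ B, α u * (δ u * Γ.tp t u a) := by ring

end H82.IC

end S_H82_IC_KEY2

section S_H82_IC_KEY3

/-!
# KEY3: the key inequality for a random graph

Sum `key_pointwise` over `i ∈ I` with weights `p i ≥ 0`.
* `∑ p i * sg_i |N-1| ≤ √(∑ p i tp_i o a_i) √(∑ p i sg_i (N-1)^2)`: `sg_cs` gives `sg_i|N-1| ≤ √(tp_i o a_i) √(sg_i (N-1)^2)`, then Cauchy-Schwarz for finite sums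
  (`Finset.sum_mul_sq_le_sq_mul_sq` / `Real.sum_sqrt_mul_sqrt_le`).
* `∑ p i sg_i (N-1)^2 ≤ VAR` by `sg_NN_sq`, and `tp_i u v ≤ Gp u v` for `u, v ∈ W`, `Gm u ≤ tp_i o u` for `u ∈ B`, all quantities `≥ 0` (`tp_nonneg`), so the sum over `i` turns
  `tp_i v a_i` into `M v`.
* the other two terms: the same bounds.
-/

set_option autoImplicit false

open Finset

namespace H82.IC

variable {V E ι : Type*} [Fintype E] [DecidableEq E]

/-- The linear functional in the second moment bound. -/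
noncomputable def KEY3_L (B : Finset V) (α : V → ℝ) (Gp : V → V → ℝ) (Gm : V → ℝ) (o : V)
    (φ : V → ℝ) : ℝ :=
  (∑ u ∈ B, ∑ v ∈ B, α u * α v * (Gp u v * (Gp o u * φ v + Gp o v * φ u))) -
    2 * (∑ u ∈ B, α u * (Gm u * φ u)) + φ o

theorem KEY3_sum_comb (B : Finset V) (I : Finset ι) (p : ι → ℝ) (φ : ι → V → ℝ) (k : V → ℝ) :
    ∑ i ∈ I, p i * ∑ u ∈ B, k u * φ i u = ∑ u ∈ B, k u * ∑ i ∈ I, p i * φ i u := by
  simp_rw [Finset.mul_sum]
  rw [Finset.sum_comm]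
  refine Finset.sum_congr rfl (fun u _ => Finset.sum_congr rfl (fun i _ => by ring))

theorem KEY3_L_sum (B : Finset V) (α : V → ℝ) (Gp : V → V → ℝ) (Gm : V → ℝ) (o : V)
    (I : Finset ι) (p : ι → ℝ) (φ : ι → V → ℝ) (M : V → ℝ)
    (hM : ∀ u, M u = ∑ i ∈ I, p i * φ i u) :
    ∑ i ∈ I, p i * KEY3_L B α Gp Gm o (φ i) = KEY3_L B α Gp Gm o M := by
  unfold KEY3_L
  have h1 : ∀ i, (∑ u ∈ B, ∑ v ∈ B, α u * α v * (Gp u v * (Gp o u * φ i v + Gp o v * φ i u))) =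
      ∑ v ∈ B, (∑ u ∈ B, α u * α v * Gp u v * Gp o u) * φ i v +
      ∑ u ∈ B, (∑ v ∈ B, α u * α v * Gp u v * Gp o v) * φ i u := by
    intro i
    have e1 : ∑ v ∈ B, (∑ u ∈ B, α u * α v * Gp u v * Gp o u) * φ i v =
        ∑ u ∈ B, ∑ v ∈ B, α u * α v * Gp u v * Gp o u * φ i v := by
      rw [Finset.sum_comm]
      exact Finset.sum_congr rfl (fun v _ => by rw [Finset.sum_mul])
    have e2 : ∑ u ∈ B, (∑ v ∈ B, α u * α v * Gp u v * Gp o v) * φ i u =
        ∑ u ∈ B, ∑ v ∈ B, α u * α v * Gp u v * Gp o v * φ i u :=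
      Finset.sum_congr rfl (fun v _ => by rw [Finset.sum_mul])
    rw [e1, e2, ← Finset.sum_add_distrib]
    refine Finset.sum_congr rfl (fun u _ => ?_)
    rw [← Finset.sum_add_distrib]
    exact Finset.sum_congr rfl (fun v _ => by ring)
  have h1' : (∑ u ∈ B, ∑ v ∈ B, α u * α v * (Gp u v * (Gp o u * M v + Gp o v * M u))) =
      ∑ v ∈ B, (∑ u ∈ B, α u * α v * Gp u v * Gp o u) * M v +
      ∑ u ∈ B, (∑ v ∈ B, α u * α v * Gp u v * Gp o v) * M u := by
    have e1 : ∑ v ∈ B, (∑ u ∈ B, α u * α v * Gp u v * Gp o u) * M v =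
        ∑ u ∈ B, ∑ v ∈ B, α u * α v * Gp u v * Gp o u * M v := by
      rw [Finset.sum_comm]
      exact Finset.sum_congr rfl (fun v _ => by rw [Finset.sum_mul])
    have e2 : ∑ u ∈ B, (∑ v ∈ B, α u * α v * Gp u v * Gp o v) * M u =
        ∑ u ∈ B, ∑ v ∈ B, α u * α v * Gp u v * Gp o v * M u :=
      Finset.sum_congr rfl (fun v _ => by rw [Finset.sum_mul])
    rw [e1, e2, ← Finset.sum_add_distrib]
    refine Finset.sum_congr rfl (fun u _ => ?_)
    rw [← Finset.sum_add_distrib]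
    exact Finset.sum_congr rfl (fun v _ => by ring)
  have h2 : ∀ i, 2 * (∑ u ∈ B, α u * (Gm u * φ i u)) = ∑ u ∈ B, (2 * α u * Gm u) * φ i u := by
    intro i
    rw [Finset.mul_sum]
    exact Finset.sum_congr rfl (fun u _ => by ring)
  have h2' : 2 * (∑ u ∈ B, α u * (Gm u * M u)) = ∑ u ∈ B, (2 * α u * Gm u) * M u := by
    rw [Finset.mul_sum]
    exact Finset.sum_congr rfl (fun u _ => by ring)
  rw [h1', h2']
  have h3 : ∀ i ∈ I, p i * ((∑ u ∈ B, ∑ v ∈ B, α u * α v *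
      (Gp u v * (Gp o u * φ i v + Gp o v * φ i u))) -
      2 * (∑ u ∈ B, α u * (Gm u * φ i u)) + φ i o) =
      (p i * ∑ v ∈ B, (∑ u ∈ B, α u * α v * Gp u v * Gp o u) * φ i v +
      p i * ∑ u ∈ B, (∑ v ∈ B, α u * α v * Gp u v * Gp o v) * φ i u) -
      p i * (∑ u ∈ B, (2 * α u * Gm u) * φ i u) + p i * φ i o := by
    intro i _
    rw [h1 i, h2 i]
    ring
  rw [Finset.sum_congr rfl h3, Finset.sum_add_distrib, Finset.sum_sub_distrib,
    Finset.sum_add_distrib,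
    KEY3_sum_comb B I p φ (fun v => ∑ u ∈ B, α u * α v * Gp u v * Gp o u),
    KEY3_sum_comb B I p φ (fun u => ∑ v ∈ B, α u * α v * Gp u v * Gp o v),
    KEY3_sum_comb B I p φ (fun u => 2 * α u * Gm u)]
  simp_rw [← hM]

theorem KEY3_cs (I : Finset ι) (p S T W : ι → ℝ) (hp : ∀ i, 0 ≤ p i)
    (hT : ∀ i ∈ I, 0 ≤ T i) (hW : ∀ i ∈ I, 0 ≤ W i) (h : ∀ i ∈ I, (S i) ^ 2 ≤ T i * W i) :
    ∑ i ∈ I, p i * S i ≤ Real.sqrt ((∑ i ∈ I, p i * T i) * (∑ i ∈ I, p i * W i)) := by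
  apply Real.le_sqrt_of_sq_le
  have h1 : ∀ i ∈ I, (p i * S i) ^ 2 ≤ (p i * T i) * (p i * W i) := by
    intro i hi
    have := mul_le_mul_of_nonneg_left (h i hi) (mul_nonneg (hp i) (hp i))
    nlinarith [this]
  exact Finset.sum_sq_le_sum_mul_sum_of_sq_le_mul I
    (fun i hi => mul_nonneg (hp i) (hT i hi)) (fun i hi => mul_nonneg (hp i) (hW i hi)) h1

theorem key_random (Γ : Gr V E) (I : Finset ι) (p : ι → ℝ) (hp : ∀ i, 0 ≤ p i)
    (t : ι → E → ℝ) (ht : ∀ i, T01 (t i)) (a : ι → V)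
    (F : Finset E) {τ : ℝ} (h0 : 0 ≤ τ) (h1 : τ < 1) (hF : ∀ i ∈ I, ∀ e ∈ F, t i e = τ)
    (o : V) (B W : Finset V) (hBW : B ⊆ W) (hoW : o ∈ W) (hFW : Γ.vF F ⊆ W)
    (α : V → ℝ) (hα : ∀ u, 0 ≤ α u) (c : ℝ) (δ : V → ℝ)
    (Gp : V → V → ℝ) (Gm : V → ℝ) (M : V → ℝ)
    (hGp : ∀ i ∈ I, ∀ u ∈ W, ∀ v ∈ W, Γ.tp (t i) u v ≤ Gp u v)
    (hGm : ∀ i ∈ I, ∀ u ∈ B, Gm u ≤ Γ.tp (t i) o u)
    (hM : ∀ u, M u = ∑ i ∈ I, p i * Γ.tp (t i) u (a i))
    (hδ : ∀ i ∈ I, ∀ u ∈ B,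
      |Γ.fkE (t i) (fun ω => ind (Disjoint ω F) * ind (Γ.Conn (ω : Set E) o u)) -
        c * Γ.tp (t i) o u| ≤ δ u)
    (VAR : ℝ)
    (hVAR : (∑ u ∈ B, ∑ v ∈ B, α u * α v * (Gp u v * (Gp o u * M v + Gp o v * M u))) -
      2 * (∑ u ∈ B, α u * (Gm u * M u)) + M o ≤ VAR) :
    ∑ i ∈ I, p i *
      |Γ.fkE (t i) (fun ω => ind (Disjoint ω F) * ind (Γ.Conn (ω : Set E) o (a i))) -
        c * Γ.tp (t i) o (a i)| ≤
      (1 + |c|) * Real.sqrt (M o * VAR) +
      2 * (∑ u ∈ B, α u * (Gp o u * ∑ z ∈ Γ.vF F, Gp u z * M z)) +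
      ∑ u ∈ B, α u * (δ u * M u) := by
  classical
  set S : ι → ℝ := fun i => Γ.sg (t i) (src o (a i)) 0 (fun ω => |Γ.NN B α o ω - 1|) with hS
  set W2 : ι → ℝ := fun i => Γ.sg (t i) (src o (a i)) 0 (fun ω => (Γ.NN B α o ω - 1) ^ 2) with hW2
  have hGp0 : ∀ i ∈ I, ∀ u ∈ W, ∀ v ∈ W, 0 ≤ Gp u v := fun i hi u hu v hv =>
    (tp_nonneg Γ (ht i) u v).trans (hGp i hi u hu v hv)
  -- first part
  have hW2le : ∀ i ∈ I, W2 i ≤ KEY3_L B α Gp Gm o (fun u => Γ.tp (t i) u (a i)) := by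
    intro i hi
    refine (sg_NN_sq Γ (ht i) o (a i) B α hα).trans ?_
    unfold KEY3_L
    have c1 : (∑ u ∈ B, ∑ v ∈ B, α u * α v * (Γ.tp (t i) u v *
        (Γ.tp (t i) o u * Γ.tp (t i) v (a i) + Γ.tp (t i) o v * Γ.tp (t i) u (a i)))) ≤
        ∑ u ∈ B, ∑ v ∈ B, α u * α v * (Gp u v * (Gp o u * Γ.tp (t i) v (a i) +
          Gp o v * Γ.tp (t i) u (a i))) := by
      refine Finset.sum_le_sum (fun u hu => Finset.sum_le_sum (fun v hv => ?_))
      refine mul_le_mul_of_nonneg_left ?_ (mul_nonneg (hα u) (hα v))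
      have g1 := hGp i hi u (hBW hu) v (hBW hv)
      have g2 := hGp i hi o hoW u (hBW hu)
      have g3 := hGp i hi o hoW v (hBW hv)
      have n1 := tp_nonneg Γ (ht i) v (a i)
      have n2 := tp_nonneg Γ (ht i) u (a i)
      have n3 := tp_nonneg Γ (ht i) o u
      have n4 := tp_nonneg Γ (ht i) o v
      have n5 := tp_nonneg Γ (ht i) u v
      refine mul_le_mul g1 (add_le_add (mul_le_mul_of_nonneg_right g2 n1)
        (mul_le_mul_of_nonneg_right g3 n2)) ?_ (n5.trans g1)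
      exact add_nonneg (mul_nonneg n3 n1) (mul_nonneg n4 n2)
    have c2 : ∑ u ∈ B, α u * (Gm u * Γ.tp (t i) u (a i)) ≤
        ∑ u ∈ B, α u * (Γ.tp (t i) o u * Γ.tp (t i) u (a i)) := by
      refine Finset.sum_le_sum (fun u hu => mul_le_mul_of_nonneg_left ?_ (hα u))
      exact mul_le_mul_of_nonneg_right (hGm i hi u hu) (tp_nonneg Γ (ht i) u (a i))
    linarith
  have hW2nn : ∀ i ∈ I, 0 ≤ W2 i := fun i _ => sg_nonneg Γ (ht i) _ _ (fun ω => sq_nonneg _)
  have hsumW : ∑ i ∈ I, p i * W2 i ≤ VAR := by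
    have d1 : ∑ i ∈ I, p i * W2 i ≤
        ∑ i ∈ I, p i * KEY3_L B α Gp Gm o (fun u => Γ.tp (t i) u (a i)) :=
      Finset.sum_le_sum (fun i hi => mul_le_mul_of_nonneg_left (hW2le i hi) (hp i))
    rw [KEY3_L_sum B α Gp Gm o I p (fun i u => Γ.tp (t i) u (a i)) M hM] at d1
    exact d1.trans hVAR
  have hMo : 0 ≤ M o := by
    rw [hM o]
    exact Finset.sum_nonneg (fun i _ => mul_nonneg (hp i) (tp_nonneg Γ (ht i) _ _))
  have hA : ∑ i ∈ I, p i * S i ≤ Real.sqrt (M o * VAR) := by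
    have d2 := KEY3_cs I p S (fun i => Γ.tp (t i) o (a i)) W2 hp
      (fun i _ => tp_nonneg Γ (ht i) _ _) hW2nn
      (fun i _ => sg_cs Γ (ht i) o (a i) (fun ω => Γ.NN B α o ω - 1))
    refine d2.trans (Real.sqrt_le_sqrt ?_)
    rw [← hM o]
    exact mul_le_mul_of_nonneg_left hsumW hMo
  -- second part
  have hB : ∑ i ∈ I, p i * (∑ u ∈ B, α u *
      (Γ.tp (t i) o u * ∑ z ∈ Γ.vF F, Γ.tp (t i) u z * Γ.tp (t i) z (a i))) ≤
      ∑ u ∈ B, α u * (Gp o u * ∑ z ∈ Γ.vF F, Gp u z * M z) := by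
    have d1 : ∀ i ∈ I, p i * (∑ u ∈ B, α u *
        (Γ.tp (t i) o u * ∑ z ∈ Γ.vF F, Γ.tp (t i) u z * Γ.tp (t i) z (a i))) ≤
        p i * (∑ z ∈ Γ.vF F, (∑ u ∈ B, α u * Gp o u * Gp u z) * Γ.tp (t i) z (a i)) := by
      intro i hi
      refine mul_le_mul_of_nonneg_left ?_ (hp i)
      simp_rw [Finset.sum_mul]
      rw [Finset.sum_comm]
      refine Finset.sum_le_sum (fun u hu => ?_)
      rw [Finset.mul_sum, Finset.mul_sum]
      refine Finset.sum_le_sum (fun z hz => ?_)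
      have g1 := hGp i hi o hoW u (hBW hu)
      have g2 := hGp i hi u (hBW hu) z (hFW hz)
      have n1 := tp_nonneg Γ (ht i) z (a i)
      have n2 := tp_nonneg Γ (ht i) o u
      have n3 := tp_nonneg Γ (ht i) u z
      have e1 : Γ.tp (t i) o u * (Γ.tp (t i) u z * Γ.tp (t i) z (a i)) ≤
          Gp o u * (Gp u z * Γ.tp (t i) z (a i)) :=
        mul_le_mul g1 (mul_le_mul_of_nonneg_right g2 n1) (mul_nonneg n3 n1) (n2.trans g1)
      have e2 := mul_le_mul_of_nonneg_left e1 (hα u)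
      linarith [e2]
    refine (Finset.sum_le_sum d1).trans (le_of_eq ?_)
    rw [KEY3_sum_comb]
    simp_rw [← hM, Finset.sum_mul, Finset.mul_sum]
    rw [Finset.sum_comm]
    exact Finset.sum_congr rfl (fun u _ => Finset.sum_congr rfl (fun z _ => by ring))
  -- third part
  have hC : ∑ i ∈ I, p i * (∑ u ∈ B, α u * (δ u * Γ.tp (t i) u (a i))) =
      ∑ u ∈ B, α u * (δ u * M u) := by
    have e1 : ∀ i, ∑ u ∈ B, α u * (δ u * Γ.tp (t i) u (a i)) =
        ∑ u ∈ B, (α u * δ u) * Γ.tp (t i) u (a i) := fun i =>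
      Finset.sum_congr rfl (fun u _ => by ring)
    simp_rw [e1]
    rw [KEY3_sum_comb B I p (fun i u => Γ.tp (t i) u (a i)) (fun u => α u * δ u)]
    exact Finset.sum_congr rfl (fun u _ => by rw [← hM u]; ring)
  have hmain : ∑ i ∈ I, p i *
      |Γ.fkE (t i) (fun ω => ind (Disjoint ω F) * ind (Γ.Conn (ω : Set E) o (a i))) -
        c * Γ.tp (t i) o (a i)| ≤
      ∑ i ∈ I, ((1 + |c|) * (p i * S i) +
        2 * (p i * (∑ u ∈ B, α u *
          (Γ.tp (t i) o u * ∑ z ∈ Γ.vF F, Γ.tp (t i) u z * Γ.tp (t i) z (a i)))) +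
        p i * (∑ u ∈ B, α u * (δ u * Γ.tp (t i) u (a i)))) := by
    refine Finset.sum_le_sum (fun i hi => ?_)
    have k := key_pointwise Γ (ht i) F h0 h1 (hF i hi) o (a i) B α hα c δ (hδ i hi)
    have k2 := mul_le_mul_of_nonneg_left k (hp i)
    refine k2.trans (le_of_eq ?_)
    simp only [hS]
    ring
  refine hmain.trans ?_
  rw [Finset.sum_add_distrib, Finset.sum_add_distrib, ← Finset.mul_sum, ← Finset.mul_sum, hC]
  have hc : 0 ≤ 1 + |c| := by positivity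
  have := mul_le_mul_of_nonneg_left hA hc
  linarith

end H82.IC

end S_H82_IC_KEY3

section S_H82_IC_MAINA

/-!
# MAINA: the key inequality for the conditioned graph, in terms of deterministic bounds

Apply `key_random` with `I = admS W B E1`, `p η = prE t E1 η` (`prE_nonneg`), `t η = setT E1 η t`, `a η = rep W B η o`, `M = MM`,
`α u = be u * MM o / MM u` for `u ∈ Bs` (and `0` elsewhere; if `MM o = 0` everything: see below), `be u ≥ 0`.
Hypothesis `hρ : MM o ≤ ρ * MM u` for `u ∈ Bs`.  If `MM o = 0`: then all `prE η * tp o (rep)` are `0` and by `0 ≤ fkE(..) ≤ tp` the left side is `0`.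
If `MM o > 0` then `MM u > 0` for `u ∈ Bs` (`ρ MM u ≥ MM o > 0`, `MM ≥ 0`), `α u * MM u = be u * MM o`, `0 ≤ α u ≤ ρ * be u`.
* `∑_{u,v} α u α v Gp u v (Gp o u MM v + Gp o v MM u) = ∑ α u (be v MM o) Gp u v Gp o u + ∑ (be u MM o) α v Gp u v Gp o v ≤ 2 ρ MM o ∑_{u,v} be u be v Gp u v Gp o u`
   (symmetry `Gp u v = Gp v u`, `Gp ≥ 0`).
* so `VAR := MM o * VV`, `VV = 2 ρ ∑∑ be u be v Gp u v Gp o u - 2 ∑ be u Gm u + 1` is admissible, `√(MM o * VAR) = MM o * √VV` (`VV ≥ 0` is needed only if `MM o > 0`: it follows since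
   `0 ≤ ∑ p sg (N-1)^2 ≤ VAR`; or simply use `Real.sqrt (MM o * (MM o * VV)) ≤ MM o * Real.sqrt VV` which holds for all real `VV` when `MM o ≥ 0`).
* `∑ α u Gp o u ∑_z Gp u z MM z ≤ ρ K MM o ∑ be u Gp o u ∑_z Gp u z`, `∑ α u δ u MM u = MM o ∑ be u δ u`.
-/

set_option autoImplicit false

open Finset

namespace H82.IC

variable {V E : Type*} [Fintype E] [DecidableEq E]

theorem MAINA_adm_sub (Γ : Gr V E) (W : Finset V) (B : Set V) (E1 : Finset E) {η : Finset E}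
    (h : η ∈ Γ.admS W B E1) : η ∈ E1.powerset := by
  classical
  unfold Gr.admS at h
  exact (Finset.mem_filter.1 h).1

theorem MAINA_MM_nonneg (Γ : Gr V E) {t : E → ℝ} (ht : T01 t) (W : Finset V) (B : Set V)
    (E1 : Finset E) (o u : V) : 0 ≤ Γ.MM t W B E1 o u :=
  Finset.sum_nonneg fun η _ => mul_nonneg (prE_nonneg Γ ht E1 η)
    (tp_nonneg Γ (T01_setT ht E1 η) _ _)

/-- the trivial bound -/
theorem MAINA_triv (Γ : Gr V E) {t : E → ℝ} (ht : T01 t) (W : Finset V) (B : Set V)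
    (E1 F : Finset E) (o : V) (c : ℝ) :
    Γ.DD t W B E1 F c o ≤ (1 + |c|) * Γ.MM t W B E1 o o := by
  unfold Gr.DD Gr.MM
  rw [Finset.mul_sum]
  refine Finset.sum_le_sum fun η _ => ?_
  have hs := T01_setT ht E1 η
  set r := Γ.rep W B (η : Set E) o with hr
  have h1 : 0 ≤ Γ.fkE (setT E1 η t) (fun ω => ind (Disjoint ω F) *
      ind (Γ.Conn (ω : Set E) o r)) :=
    fkE_nonneg Γ hs fun ω => mul_nonneg (ind_nonneg _) (ind_nonneg _)
  have h2 : Γ.fkE (setT E1 η t) (fun ω => ind (Disjoint ω F) *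
      ind (Γ.Conn (ω : Set E) o r)) ≤ Γ.tp (setT E1 η t) o r := by
    rw [← fkE_conn]
    exact fkE_le Γ hs fun ω => mul_le_of_le_one_left (ind_nonneg _) (ind_le_one _)
  have h3 := tp_nonneg Γ hs o r
  have h4 : |Γ.fkE (setT E1 η t) (fun ω => ind (Disjoint ω F) *
      ind (Γ.Conn (ω : Set E) o r)) - c * Γ.tp (setT E1 η t) o r| ≤
      (1 + |c|) * Γ.tp (setT E1 η t) o r := by
    refine le_trans (abs_sub _ _) ?_
    rw [abs_of_nonneg h1, abs_mul, abs_of_nonneg h3]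
    linarith
  have h5 := mul_le_mul_of_nonneg_left h4 (prE_nonneg Γ ht E1 η)
  refine h5.trans (le_of_eq ?_)
  ring

/-- the double sum -/
theorem MAINA_double (Bs : Finset V) (be α M : V → ℝ) (Gp : V → V → ℝ) (o : V) (ρ Mo : ℝ)
    (hbe : ∀ u, 0 ≤ be u) (hα0 : ∀ u, 0 ≤ α u) (hMo : 0 ≤ Mo)
    (hαM : ∀ u ∈ Bs, α u * M u = be u * Mo) (hαρ : ∀ u ∈ Bs, α u ≤ ρ * be u)
    (hGs : ∀ u v, Gp u v = Gp v u) (hG0 : ∀ u v, 0 ≤ Gp u v) :
    ∑ u ∈ Bs, ∑ v ∈ Bs, α u * α v * (Gp u v * (Gp o u * M v + Gp o v * M u)) ≤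
      Mo * (2 * ρ * (∑ u ∈ Bs, ∑ v ∈ Bs, be u * be v * (Gp u v * Gp o u))) := by
  have h1 : ∑ u ∈ Bs, ∑ v ∈ Bs, α u * α v * (Gp u v * (Gp o u * M v + Gp o v * M u)) ≤
      ∑ u ∈ Bs, ∑ v ∈ Bs, (Mo * ρ * (be u * be v * (Gp u v * Gp o u)) +
        Mo * ρ * (be u * be v * (Gp u v * Gp o v))) := by
    refine Finset.sum_le_sum fun u hu => Finset.sum_le_sum fun v hv => ?_
    have e : α u * α v * (Gp u v * (Gp o u * M v + Gp o v * M u)) =
        α u * (α v * M v) * (Gp u v * Gp o u) + (α u * M u) * α v * (Gp u v * Gp o v) := by ring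
    rw [e, hαM u hu, hαM v hv]
    have g1 : 0 ≤ Gp u v * Gp o u := mul_nonneg (hG0 _ _) (hG0 _ _)
    have g2 : 0 ≤ Gp u v * Gp o v := mul_nonneg (hG0 _ _) (hG0 _ _)
    have a1 : α u * (be v * Mo) ≤ ρ * be u * (be v * Mo) :=
      mul_le_mul_of_nonneg_right (hαρ u hu) (mul_nonneg (hbe v) hMo)
    have a2 : (be u * Mo) * α v ≤ (be u * Mo) * (ρ * be v) :=
      mul_le_mul_of_nonneg_left (hαρ v hv) (mul_nonneg (hbe u) hMo)
    have b1 := mul_le_mul_of_nonneg_right a1 g1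
    have b2 := mul_le_mul_of_nonneg_right a2 g2
    nlinarith [b1, b2]
  refine h1.trans (le_of_eq ?_)
  simp_rw [Finset.sum_add_distrib]
  have h2 : ∑ u ∈ Bs, ∑ v ∈ Bs, Mo * ρ * (be u * be v * (Gp u v * Gp o v)) =
      ∑ u ∈ Bs, ∑ v ∈ Bs, Mo * ρ * (be u * be v * (Gp u v * Gp o u)) := by
    rw [Finset.sum_comm]
    refine Finset.sum_congr rfl fun u _ => Finset.sum_congr rfl fun v _ => ?_
    rw [hGs v u]
    ring
  rw [h2]
  simp_rw [← Finset.mul_sum]
  ring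

theorem main_abstract (Γ : Gr V E) {t : E → ℝ} (ht : T01 t) (W : Finset V) (B : Set V)
    {E1 : Finset E} (hE1 : ∀ e, e ∉ E1 → Γ.s e ∈ W ∧ Γ.r e ∈ W)
    (F : Finset E) {τ : ℝ} (h0 : 0 ≤ τ) (h1 : τ < 1) (hF : ∀ e ∈ F, e ∉ E1 ∧ t e = τ)
    (o : V) (ho : o ∈ W) (Bs : Finset V) (hBs : Bs ⊆ W) (hFW : Γ.vF F ⊆ W)
    (be : V → ℝ) (hbe : ∀ u, 0 ≤ be u) (c : ℝ) (δ : V → ℝ)
    (Gp : V → V → ℝ) (Gm : V → ℝ) (hGs : ∀ u v, Gp u v = Gp v u) (hG0 : ∀ u v, 0 ≤ Gp u v)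
    (hGp : ∀ η ∈ E1.powerset, ∀ u ∈ W, ∀ v ∈ W, Γ.tp (setT E1 η t) u v ≤ Gp u v)
    (hGm : ∀ η ∈ E1.powerset, ∀ u ∈ Bs, Gm u ≤ Γ.tp (setT E1 η t) o u)
    (hδ : ∀ η ∈ E1.powerset, ∀ u ∈ Bs,
      |Γ.fkE (setT E1 η t) (fun ω => ind (Disjoint ω F) * ind (Γ.Conn (ω : Set E) o u)) -
        c * Γ.tp (setT E1 η t) o u| ≤ δ u)
    (ρ K : ℝ) (hρ0 : 0 ≤ ρ) (hK0 : 0 ≤ K)
    (hρ : ∀ u ∈ Bs, Γ.MM t W B E1 o o ≤ ρ * Γ.MM t W B E1 o u)
    (hK : ∀ z ∈ Γ.vF F, Γ.MM t W B E1 o z ≤ K * Γ.MM t W B E1 o o) :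
    Γ.DD t W B E1 F c o ≤ Γ.MM t W B E1 o o *
      ((1 + |c|) * Real.sqrt (2 * ρ * (∑ u ∈ Bs, ∑ v ∈ Bs, be u * be v * (Gp u v * Gp o u)) -
          2 * (∑ u ∈ Bs, be u * Gm u) + 1) +
        2 * ρ * K * (∑ u ∈ Bs, be u * (Gp o u * ∑ z ∈ Γ.vF F, Gp u z)) +
        ∑ u ∈ Bs, be u * δ u) := by
  classical
  set Mo := Γ.MM t W B E1 o o with hMo
  have hMo0 : 0 ≤ Mo := MAINA_MM_nonneg Γ ht W B E1 o o
  rcases hMo0.eq_or_lt with hz | hpos
  · have h := MAINA_triv Γ ht W B E1 F o c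
    rw [← hMo, ← hz, mul_zero] at h
    rw [← hz, zero_mul]
    exact h
  have hM0 : ∀ u, 0 ≤ Γ.MM t W B E1 o u := fun u => MAINA_MM_nonneg Γ ht W B E1 o u
  have hMpos : ∀ u ∈ Bs, 0 < Γ.MM t W B E1 o u := by
    intro u hu
    rcases (hM0 u).eq_or_lt with h | h
    · have := hρ u hu
      rw [← h, mul_zero] at this
      exact absurd this (not_le.2 hpos)
    · exact h
  set α : V → ℝ := fun u => if u ∈ Bs then be u * Mo / Γ.MM t W B E1 o u else 0 with hαdef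
  have hα0 : ∀ u, 0 ≤ α u := by
    intro u
    simp only [hαdef]
    split_ifs
    · exact div_nonneg (mul_nonneg (hbe u) hMo0) (hM0 u)
    · exact le_refl _
  have hαM : ∀ u ∈ Bs, α u * Γ.MM t W B E1 o u = be u * Mo := by
    intro u hu
    simp only [hαdef, if_pos hu]
    exact div_mul_cancel₀ _ (hMpos u hu).ne'
  have hαρ : ∀ u ∈ Bs, α u ≤ ρ * be u := by
    intro u hu
    simp only [hαdef, if_pos hu]
    rw [div_le_iff₀ (hMpos u hu)]
    have := mul_le_mul_of_nonneg_left (hρ u hu) (hbe u)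
    nlinarith [this]
  set VV : ℝ := 2 * ρ * (∑ u ∈ Bs, ∑ v ∈ Bs, be u * be v * (Gp u v * Gp o u)) -
          2 * (∑ u ∈ Bs, be u * Gm u) + 1 with hVV
  have hlin : ∑ u ∈ Bs, α u * (Gm u * Γ.MM t W B E1 o u) = Mo * ∑ u ∈ Bs, be u * Gm u := by
    rw [Finset.mul_sum]
    refine Finset.sum_congr rfl fun u hu => ?_
    have h := hαM u hu
    linear_combination (Gm u) * h
  have hVAR : (∑ u ∈ Bs, ∑ v ∈ Bs, α u * α v * (Gp u v *
      (Gp o u * Γ.MM t W B E1 o v + Gp o v * Γ.MM t W B E1 o u))) -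
      2 * (∑ u ∈ Bs, α u * (Gm u * Γ.MM t W B E1 o u)) + Γ.MM t W B E1 o o ≤ Mo * VV := by
    have h := MAINA_double Bs be α (fun u => Γ.MM t W B E1 o u) Gp o ρ Mo hbe hα0 hMo0 hαM hαρ
      hGs hG0
    rw [hlin, ← hMo, hVV]
    nlinarith [h]
  have hsub : ∀ η ∈ Γ.admS W B E1, η ∈ E1.powerset := fun η hη => MAINA_adm_sub Γ W B E1 hη
  have key := key_random Γ (Γ.admS W B E1) (fun η => Γ.prE t E1 η)
    (fun η => prE_nonneg Γ ht E1 η) (fun η => setT E1 η t) (fun η => T01_setT ht E1 η)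
    (fun η => Γ.rep W B (η : Set E) o) F h0 h1 (by
      intro η hη e he
      have hη' := Finset.mem_powerset.1 (hsub η hη)
      have h3 := hF e he
      unfold setT
      rw [if_neg (fun h4 => h3.1 (hη' h4)), if_neg h3.1]
      exact h3.2)
    o Bs W hBs ho hFW α hα0 c δ Gp Gm (fun u => Γ.MM t W B E1 o u)
    (fun η hη u hu v hv => hGp η (hsub η hη) u hu v hv)
    (fun η hη u hu => hGm η (hsub η hη) u hu) (fun u => rfl)
    (fun η hη u hu => hδ η (hsub η hη) u hu) (Mo * VV) hVAR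
  have hDD : Γ.DD t W B E1 F c o = ∑ η ∈ Γ.admS W B E1, Γ.prE t E1 η *
      |Γ.fkE (setT E1 η t) (fun ω => ind (Disjoint ω F) *
        ind (Γ.Conn (ω : Set E) o (Γ.rep W B (η : Set E) o))) -
        c * Γ.tp (setT E1 η t) o (Γ.rep W B (η : Set E) o)| := rfl
  rw [hDD]
  refine key.trans ?_
  have hsq : Real.sqrt (Γ.MM t W B E1 o o * (Mo * VV)) = Mo * Real.sqrt VV := by
    rw [← hMo, ← mul_assoc, Real.sqrt_mul (mul_nonneg hMo0 hMo0), Real.sqrt_mul_self hMo0]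
  have h2 : ∑ u ∈ Bs, α u * (Gp o u * ∑ z ∈ Γ.vF F, Gp u z * Γ.MM t W B E1 o z) ≤
      Mo * (ρ * K * (∑ u ∈ Bs, be u * (Gp o u * ∑ z ∈ Γ.vF F, Gp u z))) := by
    rw [Finset.mul_sum, Finset.mul_sum]
    refine Finset.sum_le_sum fun u hu => ?_
    have a1 : ∑ z ∈ Γ.vF F, Gp u z * Γ.MM t W B E1 o z ≤ (∑ z ∈ Γ.vF F, Gp u z) * (K * Mo) := by
      rw [Finset.sum_mul]
      exact Finset.sum_le_sum fun z hz => mul_le_mul_of_nonneg_left (hK z hz) (hG0 _ _)
    have a2 := mul_le_mul_of_nonneg_left a1 (hG0 o u)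
    have a3 : 0 ≤ Gp o u * ((∑ z ∈ Γ.vF F, Gp u z) * (K * Mo)) :=
      mul_nonneg (hG0 _ _) (mul_nonneg (Finset.sum_nonneg fun z _ => hG0 _ _)
        (mul_nonneg hK0 hMo0))
    calc α u * (Gp o u * ∑ z ∈ Γ.vF F, Gp u z * Γ.MM t W B E1 o z)
        ≤ α u * (Gp o u * ((∑ z ∈ Γ.vF F, Gp u z) * (K * Mo))) :=
          mul_le_mul_of_nonneg_left a2 (hα0 u)
      _ ≤ (ρ * be u) * (Gp o u * ((∑ z ∈ Γ.vF F, Gp u z) * (K * Mo))) :=
          mul_le_mul_of_nonneg_right (hαρ u hu) a3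
      _ = Mo * (ρ * K * (be u * (Gp o u * ∑ z ∈ Γ.vF F, Gp u z))) := by ring
  have h3 : ∑ u ∈ Bs, α u * (δ u * Γ.MM t W B E1 o u) = Mo * ∑ u ∈ Bs, be u * δ u := by
    rw [Finset.mul_sum]
    refine Finset.sum_congr rfl fun u hu => ?_
    have h := hαM u hu
    linear_combination (δ u) * h
  rw [hsq, h3]
  nlinarith [h2]

end H82.IC

end S_H82_IC_MAINA

section S_H82_IC_BKA

/-!
# BKA: Burton-Keane, the finite combinatorial lemma

Choose a finset `F ⊆ ω` of minimal cardinality such that for all `x, y ∈ S`: `x ↔ y` in `ω` implies `x ↔ y` in `F`.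
(1) `kap F = 1` (no nonzero even subgraph).  Otherwise there is `η ≠ 0` with `bd η = 0` supported in `F` and `e` with `η e ≠ 0`; `η - 1_e` is a flow supported in `F \ {e}` with boundary
    `src (s e) (r e)`, so `s e ↔ r e` in `F.erase e` (`conn_of_flow`), hence connectivity in `F.erase e` and `F` agree (`conn_insert`), contradiction to minimality.
    In particular `F` has no loop (`s e = r e`).
(2) For all finite `W` containing the ends of `F`: `2^{kG Γ W F} 2^{|F|} = 2^{|W|} kap F` (induction on `F` with `kG_insert`, `kap_insert`; `kG Γ W ∅ = |W|`).  With `kap F = 1`: `kG + |F| = |W|`, and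
    `kG ≥ 1` if `W` is nonempty, so `|F| + 1 ≤ |W|`.
(3) Let `deg v = #{e ∈ F : s e = v} + #{e ∈ F : r e = v}`; `W` = the set of `v` with `deg v ≥ 1`; `∑_{v ∈ W} deg v = 2|F|`.
(4) If `deg v = 1` then `v ∈ S`: otherwise the only edge `e` of `F` at `v` could be removed: for `x, y ∈ S` (so `x, y ≠ v`) connected in `F` they are connected in `F.erase e` (`conn_insert`; `v` is connected in
    `F.erase e` only to itself).
(5) If `c ∈ D` then `deg c ≥ 3` : `s1, s2, s3` are connected to `c`, hence to each other in `ω`, hence in `F`; they are different from `c` (`c ∉ S`) and pairwise not connected in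
    `F \ tch {c} ⊆ ω \ tch {c}`.  Since `s_i` is connected in `F` to `s_j` but not in `F \ tch {c}`, by `conn_split` there is an edge `e_i ∈ F ∩ tch {c}` with `s_i` connected in `F \ tch {c}` to an end of `e_i`; if that
    end is `c` then ... (no edge of `F \ tch {c}` has an end at `c`, so a vertex `≠ c` is not connected to `c` in `F \ tch {c}`; so the end is the other end of `e_i`, and `e_i` is not a loop).  If `e_i = e_j` for
    `i ≠ j` then `s_i`, `s_j` would both be connected in `F \ tch {c}` to the other end of `e_i`, contradiction.  So there are 3 distinct edges at `c`.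
(6) If `D` is empty, done.  Otherwise `F` is nonempty, `∑_{v ∈ W} (deg v - 2) = 2|F| - 2|W| ≤ -2`; the terms with `deg v = 1` are `≥ -|S|` in total, the terms with `deg v = 2` vanish, those with
    `deg v ≥ 3` are `≥ 1` each and `D ⊆ {deg ≥ 3}`: `|D| ≤ |S| - 2`.
-/

set_option autoImplicit false

open Finset

namespace H82.IC

variable {V E : Type*} [Fintype E] [DecidableEq E]

theorem BKA_min (Γ : Gr V E) (ω : Finset E) (S : Finset V) :
    ∃ F : Finset E, F ⊆ ω ∧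
      (∀ x ∈ S, ∀ y ∈ S, Γ.Conn (ω : Set E) x y → Γ.Conn (F : Set E) x y) ∧
      (∀ e ∈ F, ¬ (∀ x ∈ S, ∀ y ∈ S, Γ.Conn (ω : Set E) x y →
        Γ.Conn ((F.erase e : Finset E) : Set E) x y)) := by
  classical
  let Q : Finset (Finset E) := ω.powerset.filter
    (fun F => ∀ x ∈ S, ∀ y ∈ S, Γ.Conn (ω : Set E) x y → Γ.Conn (F : Set E) x y)
  have hQ : Q.Nonempty := by
    refine ⟨ω, ?_⟩
    rw [Finset.mem_filter]
    exact ⟨Finset.mem_powerset.2 (Finset.Subset.refl ω), fun x _ y _ h => h⟩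
  obtain ⟨F, hF, hmin⟩ := Finset.exists_min_image Q Finset.card hQ
  rw [Finset.mem_filter] at hF
  refine ⟨F, Finset.mem_powerset.1 hF.1, hF.2, ?_⟩
  intro e he hcon
  have h1 : F.erase e ∈ Q := by
    rw [Finset.mem_filter]
    exact ⟨Finset.mem_powerset.2 ((Finset.erase_subset e F).trans (Finset.mem_powerset.1 hF.1)),
      hcon⟩
  have h2 := hmin _ h1
  have h3 := Finset.card_erase_lt_of_mem he
  omega

theorem BKA_ins {F : Finset E} {e : E} (he : e ∈ F) :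
    (F : Set E) = insert e ((F.erase e : Finset E) : Set E) := by
  rw [← Finset.coe_insert, Finset.insert_erase he]

theorem BKA_end (Γ : Gr V E) {ω : Set E} {x v : V} (h : Γ.Conn ω x v) :
    x = v ∨ ∃ e ∈ ω, Γ.s e = v ∨ Γ.r e = v := by
  rcases Relation.ReflTransGen.cases_tail h with h1 | ⟨b, _, e, he, h2 | h2⟩
  · exact Or.inl h1.symm
  · exact Or.inr ⟨e, he, Or.inr h2.2⟩
  · exact Or.inr ⟨e, he, Or.inl h2.1⟩

theorem BKA_acyc (Γ : Gr V E) (ω F : Finset E) (S : Finset V)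
    (h1 : ∀ x ∈ S, ∀ y ∈ S, Γ.Conn (ω : Set E) x y → Γ.Conn (F : Set E) x y)
    (h2 : ∀ e ∈ F, ¬ (∀ x ∈ S, ∀ y ∈ S, Γ.Conn (ω : Set E) x y →
        Γ.Conn ((F.erase e : Finset E) : Set E) x y)) :
    ∀ e ∈ F, ¬ Γ.Conn ((F.erase e : Finset E) : Set E) (Γ.s e) (Γ.r e) := by
  intro e he hcon
  apply h2 e he
  intro x hx y hy hxy
  have h3 := h1 x hx y hy hxy
  rw [BKA_ins he, conn_insert] at h3
  rcases h3 with h3 | ⟨h3, h4⟩ | ⟨h3, h4⟩
  · exact h3
  · exact conn_trans Γ (conn_trans Γ h3 hcon) h4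
  · exact conn_trans Γ (conn_trans Γ h3 (conn_symm Γ hcon)) h4

theorem BKA_kG_empty (Γ : Gr V E) (W : Finset V) : kG Γ W (∅ : Set E) = W.card := by
  have hcl : ∀ x : V, Γ.cl (∅ : Set E) x = {x} := by
    intro x
    ext y
    constructor
    · intro hy
      rcases BKA_end Γ (show Γ.Conn (∅ : Set E) x y from hy) with h | ⟨e, he, _⟩
      · exact h.symm
      · exact absurd he (Set.notMem_empty e)
    · intro hy
      rw [Set.mem_singleton_iff] at hy
      rw [hy]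
      exact mem_cl_self Γ _ x
  have h1 : {C : Set V | ∃ v ∈ W, C = Γ.cl (∅ : Set E) v} = (fun v : V => ({v} : Set V)) '' (W : Set V) := by
    ext C
    constructor
    · rintro ⟨v, hv, rfl⟩
      exact ⟨v, hv, (hcl v).symm⟩
    · rintro ⟨v, hv, rfl⟩
      exact ⟨v, hv, (hcl v).symm⟩
  unfold kG
  rw [h1, Set.ncard_image_of_injective _ Set.singleton_injective, Set.ncard_coe_finset]

theorem BKA_count (Γ : Gr V E) (F : Finset E) (W : Finset V)
    (hW : ∀ e ∈ F, Γ.s e ∈ W ∧ Γ.r e ∈ W)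
    (hac : ∀ e ∈ F, ¬ Γ.Conn ((F.erase e : Finset E) : Set E) (Γ.s e) (Γ.r e)) :
    ∀ G : Finset E, G ⊆ F → kG Γ W (G : Set E) + G.card = W.card := by
  intro G
  induction G using Finset.induction_on with
  | empty =>
    intro _
    rw [Finset.coe_empty, BKA_kG_empty, Finset.card_empty, add_zero]
  | @insert e G he ih =>
    intro hG
    have heF : e ∈ F := hG (Finset.mem_insert_self e G)
    have hGF : G ⊆ F := fun x hx => hG (Finset.mem_insert_of_mem hx)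
    have h1 := ih hGF
    have h2 : ¬ Γ.Conn (G : Set E) (Γ.s e) (Γ.r e) := by
      intro hc
      refine hac e heF (conn_mono Γ ?_ hc)
      intro x hx
      have hx' : x ∈ G := hx
      refine Finset.mem_coe.2 (Finset.mem_erase.2 ⟨?_, hGF hx'⟩)
      rintro rfl
      exact he hx'
    have h3 := kG_insert Γ W (G : Set E) e (hW e heF).1 (hW e heF).2
    have h4 : ind (Γ.Conn (G : Set E) (Γ.s e) (Γ.r e)) = 0 := by
      unfold ind
      exact if_neg h2
    rw [h4, sub_zero, ← pow_succ] at h3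
    have h5 : kG Γ W (G : Set E) = kG Γ W (insert e (G : Set E)) + 1 :=
      (pow_right_injective₀ (by norm_num : (0 : ℝ) < 2) (by norm_num : (2 : ℝ) ≠ 1)) h3
    rw [Finset.coe_insert, Finset.card_insert_of_notMem he]
    omega

theorem BKA_kG_pos (Γ : Gr V E) (W : Finset V) (hW : W.Nonempty) (ω : Set E) :
    1 ≤ kG Γ W ω := by
  unfold kG
  rw [Nat.one_le_iff_ne_zero, Ne, Set.ncard_eq_zero (KC_fin Γ W ω)]
  intro h
  obtain ⟨v, hv⟩ := hW
  have h1 : Γ.cl ω v ∈ {C : Set V | ∃ v ∈ W, C = Γ.cl ω v} := ⟨v, hv, rfl⟩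
  rw [h] at h1
  exact h1

theorem BKA_edge (Γ : Gr V E) (F : Finset E) (c a b : V) (hac : a ≠ c)
    (h : Γ.Conn (F : Set E) a b) (h' : ¬ Γ.Conn ((F : Set E) \ Γ.tch {c}) a b) :
    ∃ e ∈ F, (Γ.s e = c ∧ Γ.r e ≠ c ∧ Γ.Conn ((F : Set E) \ Γ.tch {c}) a (Γ.r e)) ∨
      (Γ.r e = c ∧ Γ.s e ≠ c ∧ Γ.Conn ((F : Set E) \ Γ.tch {c}) a (Γ.s e)) := by
  have hnc : ¬ Γ.Conn ((F : Set E) \ Γ.tch {c}) a c := by
    intro hc
    rcases BKA_end Γ hc with h1 | ⟨e, he, h1⟩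
    · exact hac h1
    · exact he.2 h1
  obtain ⟨e, he, h1⟩ := conn_split Γ h h'
  have heK : Γ.s e = c ∨ Γ.r e = c := he.2
  refine ⟨e, he.1, ?_⟩
  rcases h1 with h1 | h1
  · have h2 : Γ.s e ≠ c := by
      intro h3
      rw [h3] at h1
      exact hnc h1
    exact Or.inr ⟨heK.resolve_left h2, h2, h1⟩
  · have h2 : Γ.r e ≠ c := by
      intro h3
      rw [h3] at h1
      exact hnc h1
    exact Or.inl ⟨heK.resolve_right h2, h2, h1⟩

theorem BKA_ne (Γ : Gr V E) (ω : Set E) (c a b : V) (e e' : E)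
    (h : (Γ.s e = c ∧ Γ.r e ≠ c ∧ Γ.Conn ω a (Γ.r e)) ∨
      (Γ.r e = c ∧ Γ.s e ≠ c ∧ Γ.Conn ω a (Γ.s e)))
    (h' : (Γ.s e' = c ∧ Γ.r e' ≠ c ∧ Γ.Conn ω b (Γ.r e')) ∨
      (Γ.r e' = c ∧ Γ.s e' ≠ c ∧ Γ.Conn ω b (Γ.s e')))
    (hab : ¬ Γ.Conn ω a b) : e ≠ e' := by
  rintro rfl
  rcases h with h | h <;> rcases h' with h' | h'
  · exact hab (conn_trans Γ h.2.2 (conn_symm Γ h'.2.2))
  · exact h.2.1 h'.1
  · exact h.2.1 h'.1
  · exact hab (conn_trans Γ h.2.2 (conn_symm Γ h'.2.2))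

theorem BKA_three [DecidableEq V] (Γ : Gr V E) (F : Finset E) (c s1 s2 s3 : V)
    (h1 : s1 ≠ c) (h2 : s2 ≠ c) (h3 : s3 ≠ c)
    (h12 : Γ.Conn (F : Set E) s1 s2) (h23 : Γ.Conn (F : Set E) s2 s3)
    (h31 : Γ.Conn (F : Set E) s3 s1)
    (n12 : ¬ Γ.Conn ((F : Set E) \ Γ.tch {c}) s1 s2)
    (n13 : ¬ Γ.Conn ((F : Set E) \ Γ.tch {c}) s1 s3)
    (n23 : ¬ Γ.Conn ((F : Set E) \ Γ.tch {c}) s2 s3) :
    3 ≤ (F.filter (fun e => Γ.s e = c)).card + (F.filter (fun e => Γ.r e = c)).card := by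
  obtain ⟨e1, he1, p1⟩ := BKA_edge Γ F c s1 s2 h1 h12 n12
  obtain ⟨e2, he2, p2⟩ := BKA_edge Γ F c s2 s3 h2 h23 n23
  obtain ⟨e3, he3, p3⟩ := BKA_edge Γ F c s3 s1 h3 h31 (fun h => n13 (conn_symm Γ h))
  have d12 := BKA_ne Γ _ c s1 s2 e1 e2 p1 p2 n12
  have d13 := BKA_ne Γ _ c s1 s3 e1 e3 p1 p3 n13
  have d23 := BKA_ne Γ _ c s2 s3 e2 e3 p2 p3 n23
  have hc : ({e1, e2, e3} : Finset E).card = 3 := Finset.card_eq_three.2
    ⟨e1, e2, e3, d12, d13, d23, rfl⟩
  rw [← hc]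
  refine le_trans (Finset.card_le_card ?_) (Finset.card_union_le _ _)
  intro e he
  rw [Finset.mem_insert, Finset.mem_insert, Finset.mem_singleton] at he
  rw [Finset.mem_union, Finset.mem_filter, Finset.mem_filter]
  rcases he with rfl | rfl | rfl
  · rcases p1 with p | p
    · exact Or.inl ⟨he1, p.1⟩
    · exact Or.inr ⟨he1, p.1⟩
  · rcases p2 with p | p
    · exact Or.inl ⟨he2, p.1⟩
    · exact Or.inr ⟨he2, p.1⟩
  · rcases p3 with p | p
    · exact Or.inl ⟨he3, p.1⟩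
    · exact Or.inr ⟨he3, p.1⟩

theorem BKA_leaf_aux (Γ : Gr V E) (ω F : Finset E) (S : Finset V)
    (h1 : ∀ x ∈ S, ∀ y ∈ S, Γ.Conn (ω : Set E) x y → Γ.Conn (F : Set E) x y)
    (h2 : ∀ e ∈ F, ¬ (∀ x ∈ S, ∀ y ∈ S, Γ.Conn (ω : Set E) x y →
        Γ.Conn ((F.erase e : Finset E) : Set E) x y)) (v : V) (e : E) (he : e ∈ F)
    (hev : Γ.s e = v ∨ Γ.r e = v)
    (hun : ∀ e' ∈ F, e' ≠ e → Γ.s e' ≠ v ∧ Γ.r e' ≠ v) : v ∈ S := by
  by_contra hv
  apply h2 e he
  intro x hx y hy hxy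
  have h3 := h1 x hx y hy hxy
  have hn : ∀ z ∈ S, ¬ Γ.Conn ((F.erase e : Finset E) : Set E) z v := by
    intro z hz hc
    rcases BKA_end Γ hc with h4 | ⟨e', he', h4⟩
    · rw [h4] at hz
      exact hv hz
    · have h5 : e' ∈ F.erase e := he'
      rw [Finset.mem_erase] at h5
      have h6 := hun e' h5.2 h5.1
      rcases h4 with h4 | h4
      · exact h6.1 h4
      · exact h6.2 h4
  rw [BKA_ins he, conn_insert] at h3
  rcases h3 with h3 | ⟨h3, h4⟩ | ⟨h3, h4⟩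
  · exact h3
  · exfalso
    rcases hev with hev | hev
    · rw [hev] at h3
      exact hn x hx h3
    · rw [hev] at h4
      exact hn y hy (conn_symm Γ h4)
  · exfalso
    rcases hev with hev | hev
    · rw [hev] at h4
      exact hn y hy (conn_symm Γ h4)
    · rw [hev] at h3
      exact hn x hx h3

theorem BKA_leaf [DecidableEq V] (Γ : Gr V E) (ω F : Finset E) (S : Finset V)
    (h1 : ∀ x ∈ S, ∀ y ∈ S, Γ.Conn (ω : Set E) x y → Γ.Conn (F : Set E) x y)
    (h2 : ∀ e ∈ F, ¬ (∀ x ∈ S, ∀ y ∈ S, Γ.Conn (ω : Set E) x y →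
        Γ.Conn ((F.erase e : Finset E) : Set E) x y)) (v : V)
    (hd : (F.filter (fun e => Γ.s e = v)).card + (F.filter (fun e => Γ.r e = v)).card = 1) :
    v ∈ S := by
  have hcase : ((F.filter (fun e => Γ.s e = v)).card = 1 ∧
      (F.filter (fun e => Γ.r e = v)).card = 0) ∨
      ((F.filter (fun e => Γ.s e = v)).card = 0 ∧ (F.filter (fun e => Γ.r e = v)).card = 1) := by
    omega
  rcases hcase with ⟨ha, hb⟩ | ⟨hb, ha⟩
  · obtain ⟨e, he⟩ := Finset.card_eq_one.1 ha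
    rw [Finset.card_eq_zero] at hb
    have he1 : e ∈ F.filter (fun e => Γ.s e = v) := by
      rw [he]
      exact Finset.mem_singleton_self e
    rw [Finset.mem_filter] at he1
    refine BKA_leaf_aux Γ ω F S h1 h2 v e he1.1 (Or.inl he1.2) ?_
    intro e' he' hne
    constructor
    · intro h3
      have h4 : e' ∈ F.filter (fun e => Γ.s e = v) := Finset.mem_filter.2 ⟨he', h3⟩
      rw [he, Finset.mem_singleton] at h4
      exact hne h4
    · intro h3
      have h4 : e' ∈ F.filter (fun e => Γ.r e = v) := Finset.mem_filter.2 ⟨he', h3⟩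
      rw [hb] at h4
      exact absurd h4 (Finset.notMem_empty e')
  · obtain ⟨e, he⟩ := Finset.card_eq_one.1 ha
    rw [Finset.card_eq_zero] at hb
    have he1 : e ∈ F.filter (fun e => Γ.r e = v) := by
      rw [he]
      exact Finset.mem_singleton_self e
    rw [Finset.mem_filter] at he1
    refine BKA_leaf_aux Γ ω F S h1 h2 v e he1.1 (Or.inr he1.2) ?_
    intro e' he' hne
    constructor
    · intro h3
      have h4 : e' ∈ F.filter (fun e => Γ.s e = v) := Finset.mem_filter.2 ⟨he', h3⟩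
      rw [hb] at h4
      exact absurd h4 (Finset.notMem_empty e')
    · intro h3
      have h4 : e' ∈ F.filter (fun e => Γ.r e = v) := Finset.mem_filter.2 ⟨he', h3⟩
      rw [he, Finset.mem_singleton] at h4
      exact hne h4

theorem BKA_final [DecidableEq V] (W S D : Finset V) (deg : V → ℕ) (n : ℕ)
    (hsum : ∑ v ∈ W, deg v = 2 * n) (hn : W.Nonempty → n + 1 ≤ W.card)
    (hpos : ∀ v ∈ W, 1 ≤ deg v) (hleaf : ∀ v ∈ W, deg v = 1 → v ∈ S)
    (hD : ∀ c ∈ D, 3 ≤ deg c) (hDW : D ⊆ W) (hSD : ∀ c ∈ D, c ∉ S) : D.card ≤ S.card := by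
  by_cases hW : W.Nonempty
  · have h1 : ∀ v ∈ W, (if v ∈ D then (1 : ℤ) else 0) - (if v ∈ S then (1 : ℤ) else 0) ≤
        (deg v : ℤ) - 2 := by
      intro v hv
      by_cases hvD : v ∈ D
      · rw [if_pos hvD, if_neg (hSD v hvD)]
        have := hD v hvD
        omega
      · rw [if_neg hvD]
        by_cases hvS : v ∈ S
        · rw [if_pos hvS]
          have := hpos v hv
          omega
        · rw [if_neg hvS]
          have h2 := hpos v hv
          have h3 : deg v ≠ 1 := fun h => hvS (hleaf v hv h)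
          omega
    have h2 := Finset.sum_le_sum h1
    rw [Finset.sum_sub_distrib, Finset.sum_sub_distrib, Finset.sum_const, nsmul_eq_mul,
      ← Finset.sum_filter, ← Finset.sum_filter, Finset.sum_const, Finset.sum_const,
      nsmul_eq_mul, nsmul_eq_mul, ← Nat.cast_sum, hsum] at h2
    have h3 : W.filter (fun v => v ∈ D) = D := by
      ext v
      rw [Finset.mem_filter]
      exact ⟨fun h => h.2, fun h => ⟨hDW h, h⟩⟩
    have h4 : (W.filter (fun v => v ∈ S)).card ≤ S.card := by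
      refine Finset.card_le_card ?_
      intro v hv
      exact (Finset.mem_filter.1 hv).2
    rw [h3] at h2
    have h5 := hn hW
    push_cast at h2
    have h6 : ((W.filter (fun v => v ∈ S)).card : ℤ) ≤ (S.card : ℤ) := by exact_mod_cast h4
    have h7 : (n : ℤ) + 1 ≤ (W.card : ℤ) := by exact_mod_cast h5
    have h8 : (D.card : ℤ) ≤ (S.card : ℤ) := by linarith
    exact_mod_cast h8
  · rw [Finset.not_nonempty_iff_eq_empty] at hW
    rw [hW, Finset.subset_empty] at hDW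
    rw [hDW, Finset.card_empty]
    exact Nat.zero_le _

theorem bk_finite (Γ : Gr V E) (ω : Finset E) (S D : Finset V) (hSD : ∀ c ∈ D, c ∉ S)
    (h : ∀ c ∈ D, ∃ s1 ∈ S, ∃ s2 ∈ S, ∃ s3 ∈ S, Γ.Conn (ω : Set E) c s1 ∧
      Γ.Conn (ω : Set E) c s2 ∧ Γ.Conn (ω : Set E) c s3 ∧
      ¬ Γ.Conn ((ω : Set E) \ Γ.tch {c}) s1 s2 ∧ ¬ Γ.Conn ((ω : Set E) \ Γ.tch {c}) s1 s3 ∧
      ¬ Γ.Conn ((ω : Set E) \ Γ.tch {c}) s2 s3) : D.card ≤ S.card := by
  classical
  obtain ⟨F, hFω, hF1, hF2⟩ := BKA_min Γ ω S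
  have hac := BKA_acyc Γ ω F S hF1 hF2
  let W : Finset V := F.image Γ.s ∪ F.image Γ.r
  have hWe : ∀ e ∈ F, Γ.s e ∈ W ∧ Γ.r e ∈ W := fun e he =>
    ⟨Finset.mem_union_left _ (Finset.mem_image_of_mem _ he),
      Finset.mem_union_right _ (Finset.mem_image_of_mem _ he)⟩
  have hcount := BKA_count Γ F W hWe hac F (Finset.Subset.refl F)
  let deg : V → ℕ := fun v => (F.filter (fun e => Γ.s e = v)).card +
    (F.filter (fun e => Γ.r e = v)).card
  have hsum : ∑ v ∈ W, deg v = 2 * F.card := by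
    show ∑ v ∈ W, ((F.filter (fun e => Γ.s e = v)).card +
      (F.filter (fun e => Γ.r e = v)).card) = 2 * F.card
    rw [Finset.sum_add_distrib,
      ← Finset.card_eq_sum_card_fiberwise (f := Γ.s) (s := F) (t := W) (fun e he => (hWe e he).1),
      ← Finset.card_eq_sum_card_fiberwise (f := Γ.r) (s := F) (t := W) (fun e he => (hWe e he).2)]
    ring
  have hmemW : ∀ v, 1 ≤ deg v → v ∈ W := by
    intro v hv
    have h1 : 0 < (F.filter (fun e => Γ.s e = v)).card ∨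
        0 < (F.filter (fun e => Γ.r e = v)).card := by
      have h2 : 1 ≤ (F.filter (fun e => Γ.s e = v)).card +
        (F.filter (fun e => Γ.r e = v)).card := hv
      omega
    rcases h1 with h1 | h1
    · obtain ⟨e, he⟩ := Finset.card_pos.1 h1
      rw [Finset.mem_filter] at he
      rw [← he.2]
      exact (hWe e he.1).1
    · obtain ⟨e, he⟩ := Finset.card_pos.1 h1
      rw [Finset.mem_filter] at he
      rw [← he.2]
      exact (hWe e he.1).2
  have hposW : ∀ v ∈ W, 1 ≤ deg v := by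
    intro v hv
    show 1 ≤ (F.filter (fun e => Γ.s e = v)).card + (F.filter (fun e => Γ.r e = v)).card
    rcases Finset.mem_union.1 hv with hv | hv
    · obtain ⟨e, he, hev⟩ := Finset.mem_image.1 hv
      have h1 : 0 < (F.filter (fun e => Γ.s e = v)).card :=
        Finset.card_pos.2 ⟨e, Finset.mem_filter.2 ⟨he, hev⟩⟩
      omega
    · obtain ⟨e, he, hev⟩ := Finset.mem_image.1 hv
      have h1 : 0 < (F.filter (fun e => Γ.r e = v)).card :=
        Finset.card_pos.2 ⟨e, Finset.mem_filter.2 ⟨he, hev⟩⟩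
      omega
  have hD3 : ∀ c ∈ D, 3 ≤ deg c := by
    intro c hc
    obtain ⟨s1, hs1, s2, hs2, s3, hs3, c1, c2, c3, n12, n13, n23⟩ := h c hc
    have hne : ∀ s ∈ S, s ≠ c := by
      rintro s hs rfl
      exact hSD s hc hs
    have hm : ∀ x y : V, ¬ Γ.Conn ((ω : Set E) \ Γ.tch {c}) x y →
        ¬ Γ.Conn ((F : Set E) \ Γ.tch {c}) x y := by
      intro x y hxy hxy'
      refine hxy (conn_mono Γ ?_ hxy')
      intro e he
      exact ⟨hFω he.1, he.2⟩
    exact BKA_three Γ F c s1 s2 s3 (hne s1 hs1) (hne s2 hs2) (hne s3 hs3)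
      (hF1 s1 hs1 s2 hs2 (conn_trans Γ (conn_symm Γ c1) c2))
      (hF1 s2 hs2 s3 hs3 (conn_trans Γ (conn_symm Γ c2) c3))
      (hF1 s3 hs3 s1 hs1 (conn_trans Γ (conn_symm Γ c3) c1))
      (hm _ _ n12) (hm _ _ n13) (hm _ _ n23)
  refine BKA_final W S D deg F.card hsum ?_ hposW ?_ hD3 ?_ hSD
  · intro hW
    have h1 := BKA_kG_pos Γ W hW (F : Set E)
    omega
  · intro v _ hv
    exact BKA_leaf Γ ω F S hF1 hF2 v hv
  · intro c hc
    refine hmemW c ?_
    have := hD3 c hc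
    omega

end H82.IC

end S_H82_IC_BKA

section S_H82_IC_LS

/-!
# LS: Lieb-Simon inequality

`D : Set V`, `o ∈ D`, `y ∉ D`, `Dd : Finset V` contains every `x ∈ D` adjacent (in the full graph) to a vertex outside `D`.  `t' = off (ins D)ᶜ t` (only the edges inside `D`).
Then `tp t o y ≤ ∑_{x ∈ Dd} tp t' o x * tp t x y`.

Proof.  Let `K` = the finset of the edges in `ins D`; weights `wMX K t` (first flow only on `K`).  Marginal over `b`: `hp t' e a.1 * hp t e a.2` (on `K`: as for `wDT`; off `K`, `t' e = 0`: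
`a = (0,0)`: `1`; `(0,1)`: `t e`; `a.1 = 1`: `0`).  So `trc (wMX K t) (pr S T) 1 = z t' S * z t T` (`trc_pm2`).
With sources `(0, src o y)`: the second flow has boundary `src o y`, and for nonzero weight its support is in `ω` (`wMX .. a false = 0` for `a ≠ 0`), so `o ↔ y` in `ω` (`conn_of_flow`);
`conn_exit` gives `x ∈ Dd` with `o ↔ x` in `ω ∩ ins D`.  Hence (`trc_congr_supp`, `trc_mono`)
 `z t' 0 * z t (src o y) ≤ ∑_{x ∈ Dd} trc (wMX K t) (pr 0 (src o y)) 1[o ↔ x in ω ∩ ins D]`, and by `trc_switch` (`g e = (c e, c e)`, `c` a flow from `o` to `x` supported in `ω ∩ ins D`;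
 on `K` the weight is `wDT`, invariant under `+ (1,1)` when open) each term equals
 `trc (wMX K t) (pr (src o x) (src o y + src o x)) 1[..] ≤ trc (wMX K t) (pr (src o x) (src x y)) 1 = z t' (src o x) * z t (src x y)`.  Divide by `z t' 0 * z t 0`.
-/

set_option autoImplicit false

open Finset

namespace H82.IC

variable {V E : Type*} [Fintype E] [DecidableEq E]

theorem wMX_nonneg {t : E → ℝ} (ht : T01 t) (K : Finset E) (e : E) (a : ZMod 2 × ZMod 2) (b : Bool) :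
    0 ≤ wMX K t e a b := by
  unfold wMX
  split_ifs
  · exact wDT_nonneg ht e a b
  all_goals first | exact le_rfl | exact (ht e).1 | exact zero_le_one

theorem LS_closed (t : E → ℝ) (K : Finset E) (e : E) (a : ZMod 2 × ZMod 2) (ha : a ≠ 0) :
    wMX K t e a false = 0 := by
  unfold wMX
  split_ifs with h1 h2 h3 h4 h5
  · exact wDT_closed t e a ha
  all_goals first | rfl | (exfalso; exact ha (Prod.ext h2 (by assumption))) | skip
  all_goals simp_all

theorem LS_z2 (a : ZMod 2) : a = 0 ∨ a = 1 := by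
  revert a
  decide

theorem LS_marg (t : E → ℝ) (K : Finset E) (t' : E → ℝ) (h1 : ∀ e ∈ K, t' e = t e)
    (h0 : ∀ e, e ∉ K → t' e = 0) (e : E) (a : ZMod 2 × ZMod 2) :
    wMX K t e a true + wMX K t e a false = hp t' e a.1 * hp t e a.2 := by
  obtain ⟨a1, a2⟩ := a
  unfold wMX hp
  by_cases he : e ∈ K
  · simp only [he, if_true, h1 e he]
    unfold wDT
    rcases LS_z2 a1 with rfl | rfl <;> rcases LS_z2 a2 with rfl | rfl <;> simp <;> ring
  · simp only [he, if_false, h0 e he]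
    rcases LS_z2 a1 with rfl | rfl <;> rcases LS_z2 a2 with rfl | rfl <;> simp

theorem LS_switch (Γ : Gr V E) (t : E → ℝ) (D : Set V) (K : Finset E)
    (hK : ∀ e, e ∈ K ↔ e ∈ Γ.ins D) (o x y : V) :
    Γ.trc (wMX K t) (pr 0 (src o y)) (fun ω => ind (Γ.Conn ((ω : Set E) ∩ Γ.ins D) o x)) =
      Γ.trc (wMX K t) (pr (src o x) (src x y))
        (fun ω => ind (Γ.Conn ((ω : Set E) ∩ Γ.ins D) o x)) := by
  rw [trc_switch Γ (wMX K t) (pr 0 (src o y)) (pr (src o x) (src o x))]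
  · rw [pr_add, zero_add, add_comm (src o y) (src o x), src_comm o x, src_add]
  · intro ω hω
    have hc : Γ.Conn ((ω : Set E) ∩ Γ.ins D) o x := by
      by_contra hcon
      exact hω (ind_false hcon)
    obtain ⟨c, hcb, hcs⟩ := exists_flow Γ hc
    refine ⟨fun e => (c e, c e), ?_, ?_⟩
    · rw [bd_pr]
      have : (fun e => c e) = c := rfl
      simp only [this, hcb]
    · intro e he
      have hce : c e ≠ 0 := by
        intro h0
        apply he
        simp only [h0]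
        rfl
      have hm := hcs e hce
      refine ⟨hm.1, ?_⟩
      intro a
      have heK : e ∈ K := (hK e).2 hm.2
      have h1 : c e = 1 := (LS_z2 (c e)).resolve_left hce
      unfold wMX wDT
      simp only [heK, if_true, h1]
      have : (a + (1, 1) : ZMod 2 × ZMod 2).1 = (a + (1, 1) : ZMod 2 × ZMod 2).2 ↔ a.1 = a.2 := by
        simp
      simp only [this]

theorem LS_main (Γ : Gr V E) {t : E → ℝ} (ht : T01 t) (D : Set V) (Dd : Finset V) {o y : V}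
    (ho : o ∈ D) (hy : y ∉ D)
    (hD : ∀ x ∈ D, ∀ e, (Γ.s e = x ∧ Γ.r e ∉ D ∨ Γ.r e = x ∧ Γ.s e ∉ D) → x ∈ Dd) :
    Γ.z (off (Γ.ins D)ᶜ t) 0 * Γ.z t (src o y) ≤
      ∑ x ∈ Dd, Γ.z (off (Γ.ins D)ᶜ t) (src o x) * Γ.z t (src x y) := by
  classical
  obtain ⟨K, hK⟩ : ∃ K : Finset E, ∀ e, e ∈ K ↔ e ∈ Γ.ins D :=
    ⟨Finset.univ.filter (· ∈ Γ.ins D), fun e => by simp⟩
  have hm : ∀ e a, wMX K t e a true + wMX K t e a false =
      hp (off (Γ.ins D)ᶜ t) e a.1 * hp t e a.2 := by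
    apply LS_marg
    · intro e he
      have := (hK e).1 he
      unfold off
      have hmem : e ∉ (Γ.ins D)ᶜ := fun h => h this
      rw [if_neg hmem]
    · intro e he
      unfold off
      have hmem : e ∈ (Γ.ins D)ᶜ := fun h => he ((hK e).2 h)
      rw [if_pos hmem]
  have hone : ∀ S T : V → ZMod 2, Γ.trc (wMX K t) (pr S T) (fun _ => 1) =
      Γ.z (off (Γ.ins D)ᶜ t) S * Γ.z t T := fun S T => trc_pm2 Γ _ _ _ hm S T
  have hnn : ∀ e a b, 0 ≤ wMX K t e a b := wMX_nonneg ht K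
  rw [← hone]
  have h1 : Γ.trc (wMX K t) (pr 0 (src o y)) (fun _ => 1) =
      Γ.trc (wMX K t) (pr 0 (src o y))
        (fun ω => ind (∃ x ∈ Dd, Γ.Conn ((ω : Set E) ∩ Γ.ins D) o x)) := by
    apply trc_congr_supp Γ _ (LS_closed t K)
    intro ω η hη hs
    rw [ind_true]
    rw [bd_pr, pr_inj] at hη
    have hconn : Γ.Conn (ω : Set E) o y := by
      apply conn_of_flow Γ hη.2
      intro e he
      apply hs
      intro h0
      apply he
      rw [h0]
      rfl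
    obtain ⟨x, hx, y', hy', hadj, hcx⟩ := conn_exit Γ hconn ho hy
    refine ⟨x, ?_, hcx⟩
    obtain ⟨e, -, he⟩ := hadj
    apply hD x hx e
    rcases he with ⟨h1, h2⟩ | ⟨h1, h2⟩
    · exact Or.inl ⟨h1, by rw [h2]; exact hy'⟩
    · exact Or.inr ⟨h2, by rw [h1]; exact hy'⟩
  rw [h1]
  calc Γ.trc (wMX K t) (pr 0 (src o y))
        (fun ω => ind (∃ x ∈ Dd, Γ.Conn ((ω : Set E) ∩ Γ.ins D) o x))
      ≤ Γ.trc (wMX K t) (pr 0 (src o y))
        (fun ω => ∑ x ∈ Dd, ind (Γ.Conn ((ω : Set E) ∩ Γ.ins D) o x)) := by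
        apply trc_mono Γ _ hnn
        intro ω
        by_cases hex : ∃ x ∈ Dd, Γ.Conn ((ω : Set E) ∩ Γ.ins D) o x
        · rw [ind_true hex]
          obtain ⟨x, hx, hcx⟩ := hex
          calc (1 : ℝ) = ind (Γ.Conn ((ω : Set E) ∩ Γ.ins D) o x) := (ind_true hcx).symm
            _ ≤ _ := Finset.single_le_sum
              (f := fun x => ind (Γ.Conn ((ω : Set E) ∩ Γ.ins D) o x))
              (fun i _ => ind_nonneg _) hx
        · rw [ind_false hex]
          exact Finset.sum_nonneg fun i _ => ind_nonneg _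
    _ = ∑ x ∈ Dd, Γ.trc (wMX K t) (pr 0 (src o y))
        (fun ω => ind (Γ.Conn ((ω : Set E) ∩ Γ.ins D) o x)) :=
        trc_sum Γ _ _ Dd (fun x ω => ind (Γ.Conn ((ω : Set E) ∩ Γ.ins D) o x))
    _ ≤ ∑ x ∈ Dd, Γ.z (off (Γ.ins D)ᶜ t) (src o x) * Γ.z t (src x y) := by
        apply Finset.sum_le_sum
        intro x _
        rw [LS_switch Γ t D K hK, ← hone]
        exact trc_mono Γ _ hnn _ fun ω => ind_le_one _

theorem lieb_simon (Γ : Gr V E) {t : E → ℝ} (ht : T01 t) (D : Set V) (Dd : Finset V) {o y : V}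
    (ho : o ∈ D) (hy : y ∉ D)
    (hD : ∀ x ∈ D, ∀ e, (Γ.s e = x ∧ Γ.r e ∉ D ∨ Γ.r e = x ∧ Γ.s e ∉ D) → x ∈ Dd) :
    Γ.tp t o y ≤ ∑ x ∈ Dd, Γ.tp (off (Γ.ins D)ᶜ t) o x * Γ.tp t x y := by
  have h := LS_main Γ ht D Dd ho hy hD
  have z1 : 0 < Γ.z t 0 := lt_of_lt_of_le one_pos (one_le_z Γ ht)
  have z2 : 0 < Γ.z (off (Γ.ins D)ᶜ t) 0 :=
    lt_of_lt_of_le one_pos (one_le_z Γ (T01_off ht _))
  unfold Gr.tp
  have e : ∑ x ∈ Dd, Γ.z (off (Γ.ins D)ᶜ t) (src o x) / Γ.z (off (Γ.ins D)ᶜ t) 0 *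
      (Γ.z t (src x y) / Γ.z t 0) =
      (∑ x ∈ Dd, Γ.z (off (Γ.ins D)ᶜ t) (src o x) * Γ.z t (src x y)) /
        (Γ.z (off (Γ.ins D)ᶜ t) 0 * Γ.z t 0) := by
    rw [Finset.sum_div]
    exact Finset.sum_congr rfl fun x _ => by rw [div_mul_div_comm]
  rw [e, div_le_div_iff₀ z1 (mul_pos z2 z1)]
  calc Γ.z t (src o y) * (Γ.z (off (Γ.ins D)ᶜ t) 0 * Γ.z t 0) =
      (Γ.z (off (Γ.ins D)ᶜ t) 0 * Γ.z t (src o y)) * Γ.z t 0 := by ring
    _ ≤ _ := mul_le_mul_of_nonneg_right h z1.le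

end H82.IC

end S_H82_IC_LS
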