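import Mathlib
import Pool.Agent.H82.ICM.G02
import Pool.Agent.H82.ICM.G03
import Pool.Agent.H82.ICM.G04
import Pool.Agent.H82.ICM.G06

/-! MP_c4c051_pr: this file joins several modules to save build time. -/

section S_H82_IC_UNI

/-!
# UNI: uniform convergence in the boundary condition

Hypotheses: `μ` is the free and the wired limit, `μ (perc d) = 0`.
* `arm_le`: for `nm u ≤ n`: `μ (arm n u) ≤ μ (arm (n - nm u) 0)`: on `arm n u` some `y` with `nm y = n` is connected to `u`; translate by `-u` (`lim_shift` with `gV x = x + u`: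
  `act g ω ∈ cn 0 (y - u) ↔ ω ∈ cn u y`), `nm (y - u) ≥ n - nm u`, and `exit_box`.
* `wired_tendsto`: `X = cn x y ∩ up S` (increasing).  Lower bound: `phiB m true X ≥ μ X`?  use only: for `r ≥ nm x`, `cnB r x y ∩ up S ⊆ X ⊆ (cnB r x y ∩ up S) ∪ arm r x` (`cn_sub_union`), so
  `phiB m true (cnB r ∩ up S) ≤ phiB m true X ≤ phiB m true (cnB r ∩ up S) + phiB m true (arm r x)`, both sides converge as `m → ∞` (cylinder events) to `μ (cnB r ∩ up S)` and
  `μ (cnB r ∩ up S) + μ (arm r x)`; let `r → ∞`: `tendsto_cnB`, `arm_le` and `tendsto_arm` with `μ (perc) = 0`.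
* `free_tendsto`: `phiB m false (cnB r ∩ up S) ≤ phiB m false X ≤ μ X` (`free_le_cn`), `m → ∞` then `r → ∞`.
* `GN_cn`, `GN_dw`: `(GN d N).Conn ω x y ↔ ext false N N ω ∈ cn x y` (`conn_rs`, `opn (ext false N N ω) = vl ω`); `Disjoint ω (sb (bE N) F) ↔ ext false N N ω ∈ dw F` for `F ⊆ bE N`.
* `tp_sandwich`: `sandwich` with `X = cn x y` and `fkE_conn`.
* `uni`: `ind (ω ∈ dw F) = ∑_{S ⊆ F} (-1)^{|S|} ind (ω ∈ up S)` (`Finset.prod_one_sub..`/ inclusion-exclusion: `∏_{e ∈ F} (1 - 1[ω e])`), so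
  `|fkE_H (1[dw F] 1[cn x y]) - μ (dw F ∩ cn x y)| ≤ ∑_{S ⊆ F} |fkE_H 1[cn x y ∩ up S] - μ (cn x y ∩ up S)|` and both `fkE_H` (by `sandwich`) and `μ` (by `free_le_cn`, and
  `μ X ≤ phiB m true X`, limit of `phiB_free_le_wired`) lie between `phiB m false X` and `phiB m true X`, whose difference tends to `0`.
-/

set_option autoImplicit false

open Finset MeasureTheory Filter Topology

namespace H82.IC

variable {d : ℕ}

theorem UNI_ind_pos {p : Prop} (h : p) : ind p = 1 := by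
  unfold ind
  rw [if_pos h]

theorem UNI_ind_neg {p : Prop} (h : ¬ p) : ind p = 0 := by
  unfold ind
  rw [if_neg h]

theorem UNI_ind_congr {p q : Prop} (h : p ↔ q) : ind p = ind q := by
  rw [propext h]

theorem UNI_ind_and (p q : Prop) : ind (p ∧ q) = ind p * ind q := by
  by_cases hp : p
  · by_cases hq : q
    · rw [UNI_ind_pos ⟨hp, hq⟩, UNI_ind_pos hp, UNI_ind_pos hq, mul_one]
    · rw [UNI_ind_neg (fun h => hq h.2), UNI_ind_neg hq, mul_zero]
  · rw [UNI_ind_neg (fun h => hp h.1), UNI_ind_neg hp, zero_mul]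

theorem arm_le (hd : 1 ≤ d) {β : ℝ} (hβ : 0 ≤ β) {μ : Measure (Cf d)} (hμ : IsLim β false μ)
    {n : ℕ} {u : Vx d} (hu : nm u ≤ n) : μ.real (arm n u) ≤ μ.real (arm (n - nm u) (0 : Vx d)) := by
  have hprob := hμ.1
  obtain ⟨g, hg, -⟩ := exists_trA (d := d) u
  rw [← lim_shift hβ hμ g u hg (arm (n - nm u) (0 : Vx d)) (meas_arm _ _)]
  refine measureReal_mono ?_
  rintro ω ⟨y, hy, hconn⟩
  have hny : nm y = n := (mem_bdry hd).1 hy
  have h1 : act g ω ∈ cn (0 : Vx d) (y - u) := by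
    rw [act_cn, hg, hg, zero_add, sub_add_cancel]
    exact hconn
  have h2 : n - nm u ≤ nm (y - u) := by
    have h3 := nm_add (y - u) u
    rw [sub_add_cancel, hny] at h3
    omega
  exact cn_sub_arm hd (by rw [nm_zero]; exact Nat.zero_le _) h2 h1

theorem UNI_arm_tendsto (hd : 1 ≤ d) {β : ℝ} (hβ : 0 ≤ β) {μ : Measure (Cf d)}
    (hμ : IsLim β false μ) (hp : μ.real (perc d) = 0) (x : Vx d) :
    Tendsto (fun r => μ.real (arm r x)) atTop (𝓝 0) := by
  have hprob := hμ.1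
  have h1 : Tendsto (fun r => μ.real (arm (r - nm x) (0 : Vx d))) atTop (𝓝 0) := by
    have h2 := tendsto_arm hd (μ := μ)
    rw [hp] at h2
    exact h2.comp (tendsto_sub_atTop_nat (nm x))
  refine squeeze_zero' (Eventually.of_forall fun r => measureReal_nonneg) ?_ h1
  filter_upwards [eventually_ge_atTop (nm x)] with r hr
  exact arm_le hd hβ hμ hr

theorem UNI_lcl (r : ℕ) (S : Finset (Ed d)) (x y : Vx d) : Lcl (cnB r x y ∩ up S) :=
  lcl_inter (lcl_cnB r x y) (lcl_up S)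

theorem UNI_sub (r : ℕ) (S : Finset (Ed d)) (x y : Vx d) :
    (cnB r x y ∩ up S : Set (Cf d)) ⊆ cn x y ∩ up S := by
  refine Set.inter_subset_inter_left _ ?_
  rw [cn_eq]
  exact Set.subset_iUnion (fun n => (cnB n x y : Set (Cf d))) r

theorem UNI_inc (S : Finset (Ed d)) (x y : Vx d) : Inc (cn x y ∩ up S) :=
  inc_inter (inc_cn x y) (inc_up S)

theorem wired_tendsto (hd : 2 ≤ d) {β : ℝ} (hβ : 0 ≤ β) {μ : Measure (Cf d)}
    (hμ : IsLim β false μ) (hμ' : IsLim β true μ) (hp : μ.real (perc d) = 0)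
    (S : Finset (Ed d)) (x y : Vx d) :
    Tendsto (fun m => phiB β m true (cn x y ∩ up S)) atTop (𝓝 (μ.real (cn x y ∩ up S))) := by
  have hprob := hμ.1
  have hd1 : 1 ≤ d := by omega
  rw [Metric.tendsto_atTop]
  intro ε hε
  have h1 := tendsto_cnB (μ := μ) S x y
  have h2 := UNI_arm_tendsto hd1 hβ hμ hp x
  obtain ⟨r1, hr1⟩ := (Metric.tendsto_atTop.1 h1) (ε / 4) (by positivity)
  obtain ⟨r2, hr2⟩ := (Metric.tendsto_atTop.1 h2) (ε / 4) (by positivity)
  obtain ⟨r, hr⟩ : ∃ r, r = max (max r1 r2) (nm x) := ⟨_, rfl⟩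
  have hrx : nm x ≤ r := by rw [hr]; exact le_max_right _ _
  have hA := hr1 r (by rw [hr]; exact (le_max_left _ _).trans (le_max_left _ _))
  have hB := hr2 r (by rw [hr]; exact (le_max_right _ _).trans (le_max_left _ _))
  obtain ⟨m1, hm1⟩ := (Metric.tendsto_atTop.1 (hμ'.2 _ (UNI_lcl r S x y))) (ε / 4) (by positivity)
  obtain ⟨m2, hm2⟩ := (Metric.tendsto_atTop.1 (hμ'.2 _ (lcl_arm hd1 hrx))) (ε / 4) (by positivity)
  refine ⟨max m1 m2, fun m hm => ?_⟩
  have hC := hm1 m ((le_max_left _ _).trans hm)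
  have hD := hm2 m ((le_max_right _ _).trans hm)
  rw [Real.dist_eq] at hA hB hC hD ⊢
  have hlow : phiB β m true (cnB r x y ∩ up S) ≤ phiB β m true (cn x y ∩ up S) :=
    phiB_mono_set hβ m true (UNI_sub r S x y)
  have hup : phiB β m true (cn x y ∩ up S) ≤
      phiB β m true (cnB r x y ∩ up S) + phiB β m true (arm r x) := by
    refine le_trans (phiB_mono_set hβ m true ?_) (phiB_union_le hβ m true _ _)
    rintro ω ⟨h3, h4⟩
    rcases cn_sub_union hd1 hrx h3 with h5 | h5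
    · exact Or.inl ⟨h5, h4⟩
    · exact Or.inr h5
  have hmu : μ.real (cnB r x y ∩ up S) ≤ μ.real (cn x y ∩ up S) := measureReal_mono (UNI_sub r S x y)
  rw [abs_lt] at hA hB hC hD ⊢
  constructor <;> linarith

theorem free_tendsto (hd : 2 ≤ d) {β : ℝ} (hβ : 0 ≤ β) {μ : Measure (Cf d)}
    (hμ : IsLim β false μ) (S : Finset (Ed d)) (x y : Vx d) :
    Tendsto (fun m => phiB β m false (cn x y ∩ up S)) atTop (𝓝 (μ.real (cn x y ∩ up S))) := by
  have hprob := hμ.1
  rw [Metric.tendsto_atTop]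
  intro ε hε
  have h1 := tendsto_cnB (μ := μ) S x y
  obtain ⟨r, hr⟩ := (Metric.tendsto_atTop.1 h1) (ε / 2) (by positivity)
  have hA := hr r le_rfl
  obtain ⟨m1, hm1⟩ := (Metric.tendsto_atTop.1 (hμ.2 _ (UNI_lcl r S x y))) (ε / 2) (by positivity)
  refine ⟨m1, fun m hm => ?_⟩
  have hC := hm1 m hm
  rw [Real.dist_eq] at hA hC ⊢
  have hlow : phiB β m false (cnB r x y ∩ up S) ≤ phiB β m false (cn x y ∩ up S) :=
    phiB_mono_set hβ m false (UNI_sub r S x y)
  have hup := free_le_cn hβ hμ m S x y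
  rw [abs_lt] at hA hC ⊢
  constructor <;> linarith

theorem UNI_opn (N : ℕ) (ω : Finset ↥(bE d N)) :
    opn (ext false N N ω) = (vl ω : Set (Ed d)) := by
  ext e
  show (if e ∈ bE d N then decide (e ∈ vl ω) else false) = true ↔ e ∈ (vl ω : Set (Ed d))
  by_cases he : e ∈ bE d N
  · rw [if_pos he, decide_eq_true_iff, Finset.mem_coe]
  · rw [if_neg he]
    constructor
    · intro h
      exact absurd h (by simp)
    · intro h
      exfalso
      apply he
      rw [Finset.mem_coe] at h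
      obtain ⟨f, -, rfl⟩ := Finset.mem_map.1 h
      exact f.2

theorem GN_cn (N : ℕ) (ω : Finset ↥(bE d N)) (x y : Vx d) :
    (GN d N).Conn (ω : Set ↥(bE d N)) x y ↔ ext false N N ω ∈ cn x y := by
  unfold GN
  rw [conn_rs]
  show _ ↔ (Zl d).Conn (opn (ext false N N ω)) x y
  rw [UNI_opn]

theorem UNI_mem_sb {N : ℕ} {F : Finset (Ed d)} {e : ↥(bE d N)} :
    e ∈ sb (bE d N) F ↔ e.1 ∈ F := by
  simp [sb]

theorem GN_dw {N : ℕ} {F : Finset (Ed d)} (hF : F ⊆ bE d N) (ω : Finset ↥(bE d N)) :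
    Disjoint ω (sb (bE d N) F) ↔ ext false N N ω ∈ dw F := by
  rw [Finset.disjoint_left]
  constructor
  · intro h e he
    have h1 : e ∉ opn (ext false N N ω) := by
      rw [UNI_opn, Finset.mem_coe]
      intro h2
      obtain ⟨f, hf, rfl⟩ := Finset.mem_map.1 h2
      exact h hf (UNI_mem_sb.2 he)
    have h3 : ¬ ext false N N ω e = true := h1
    exact Bool.eq_false_iff.2 h3
  · intro h e he hes
    have h1 := h e.1 (UNI_mem_sb.1 hes)
    have h2 : e.1 ∈ opn (ext false N N ω) := by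
      rw [UNI_opn, Finset.mem_coe]
      exact Finset.mem_map.2 ⟨e, he, rfl⟩
    have h3 : ext false N N ω e.1 = true := h2
    rw [h1] at h3
    exact absurd h3 (by simp)

theorem GN_arm {N n : ℕ} (ω : Finset ↥(bE d N)) (x : Vx d) :
    (∃ b ∈ bdry d n, (GN d N).Conn (ω : Set ↥(bE d N)) x b) ↔ ext false N N ω ∈ arm n x := by
  constructor
  · rintro ⟨b, hb, h⟩
    exact ⟨b, hb, (GN_cn N ω x b).1 h⟩
  · rintro ⟨b, hb, h⟩
    exact ⟨b, hb, (GN_cn N ω x b).2 h⟩

theorem tp_sandwich (hd : 2 ≤ d) {β : ℝ} (hβ : 0 ≤ β) {m N : ℕ} (h : m + 1 ≤ N)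
    (η : Finset ↥(bE d N)) (hη : η ⊆ E1 d m N) (x y : Vx d) :
    phiB β m false (cn x y) ≤ (GN d N).tp (setT (E1 d m N) η (fun _ => Real.tanh β)) x y ∧
      (GN d N).tp (setT (E1 d m N) η (fun _ => Real.tanh β)) x y ≤ phiB β m true (cn x y) := by
  have h1 := sandwich hd hβ h η hη (inc_cn x y)
  have h2 : (fun ω : Finset ↥(bE d N) => ind (ext false N N ω ∈ cn x y)) =
      fun ω : Finset ↥(bE d N) => ind ((GN d N).Conn (ω : Set ↥(bE d N)) x y) := by
    funext ω
    exact UNI_ind_congr (GN_cn N ω x y).symm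
  rw [h2, fkE_conn] at h1
  exact h1

/-- inclusion-exclusion -/
theorem UNI_ie (F : Finset (Ed d)) (X : Set (Cf d)) (ω : Cf d) :
    ind (ω ∈ dw F ∩ X) = ∑ S ∈ F.powerset, (-1 : ℝ) ^ S.card * ind (ω ∈ X ∩ up S) := by
  have h1 : ind (ω ∈ dw F) = ∏ e ∈ F, (-(ind (ω e = true)) + 1) := by
    by_cases h : ω ∈ dw F
    · rw [UNI_ind_pos h]
      symm
      refine Finset.prod_eq_one fun e he => ?_
      have h2 : ω e = false := h e he
      rw [UNI_ind_neg (by rw [h2]; simp)]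
      norm_num
    · rw [UNI_ind_neg h]
      have h3 : ∃ e ∈ F, ¬ ω e = false := by
        by_contra hcon
        push Not at hcon
        exact h hcon
      obtain ⟨e, he, hne⟩ := h3
      symm
      refine Finset.prod_eq_zero he ?_
      have h4 : ω e = true := by
        cases hb : ω e
        · exact absurd hb hne
        · rfl
      rw [UNI_ind_pos h4]
      norm_num
  have h2 : ∀ S : Finset (Ed d), ∏ e ∈ S, (-(ind (ω e = true))) = (-1 : ℝ) ^ S.card * ind (ω ∈ up S) := by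
    intro S
    by_cases h : ω ∈ up S
    · rw [UNI_ind_pos h, mul_one]
      have h3 : ∀ e ∈ S, -(ind (ω e = true)) = (-1 : ℝ) := fun e he => by
        rw [UNI_ind_pos (h e he)]
      rw [Finset.prod_congr rfl h3, Finset.prod_const]
    · rw [UNI_ind_neg h, mul_zero]
      have h3 : ∃ e ∈ S, ¬ ω e = true := by
        by_contra hcon
        push Not at hcon
        exact h hcon
      obtain ⟨e, he, hne⟩ := h3
      refine Finset.prod_eq_zero he ?_
      rw [UNI_ind_neg hne, neg_zero]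
  have h3 : ind (ω ∈ dw F ∩ X) = ind (ω ∈ dw F) * ind (ω ∈ X) := UNI_ind_and _ _
  rw [h3, h1, Finset.prod_add, Finset.sum_mul]
  refine Finset.sum_congr rfl fun S _ => ?_
  have h4 : ind (ω ∈ X ∩ up S) = ind (ω ∈ X) * ind (ω ∈ up S) := UNI_ind_and _ _
  rw [Finset.prod_const_one, mul_one, h2, h4]
  ring

theorem UNI_int {μ : Measure (Cf d)} {X : Set (Cf d)} (hX : MeasurableSet X) :
    ∫ ω, ind (ω ∈ X) ∂μ = μ.real X := by
  rw [← integral_indicator_one hX]
  refine integral_congr_ae (Eventually.of_forall fun ω => ?_)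
  show ind (ω ∈ X) = X.indicator 1 ω
  by_cases h : ω ∈ X
  · rw [UNI_ind_pos h, Set.indicator_of_mem h]
    rfl
  · rw [UNI_ind_neg h, Set.indicator_of_notMem h]

theorem UNI_integrable {μ : Measure (Cf d)} [IsProbabilityMeasure μ] {X : Set (Cf d)}
    (hX : MeasurableSet X) : Integrable (fun ω => ind (ω ∈ X)) μ := by
  have h1 : (fun ω => ind (ω ∈ X)) = X.indicator (fun _ => (1 : ℝ)) := by
    funext ω
    by_cases h : ω ∈ X
    · rw [UNI_ind_pos h, Set.indicator_of_mem h]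
    · rw [UNI_ind_neg h, Set.indicator_of_notMem h]
  rw [h1]
  exact (integrable_const _).indicator hX

theorem uni (hd : 2 ≤ d) {β : ℝ} (hβ : 0 ≤ β) {μ : Measure (Cf d)}
    (hμ : IsLim β false μ) (hμ' : IsLim β true μ) (hp : μ.real (perc d) = 0)
    (F : Finset (Ed d)) (x y : Vx d) (ε : ℝ) (hε : 0 < ε) :
    ∃ m0, ∀ m, m0 ≤ m → ∀ N, m + 1 ≤ N → ∀ η : Finset ↥(bE d N), η ⊆ E1 d m N →
      |(GN d N).fkE (setT (E1 d m N) η (fun _ => Real.tanh β))
        (fun ω => ind (Disjoint ω (sb (bE d N) F)) * ind ((GN d N).Conn (ω : Set ↥(bE d N)) x y)) -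
        μ.real (dw F ∩ cn x y)| ≤ ε := by
  have hprob := hμ.1
  obtain ⟨n, hn⟩ := exists_bE F
  have hT : Tendsto (fun m => ∑ S ∈ F.powerset, (phiB β m true (cn x y ∩ up S) -
      phiB β m false (cn x y ∩ up S))) atTop (𝓝 0) := by
    have h1 : Tendsto (fun m => ∑ S ∈ F.powerset, (phiB β m true (cn x y ∩ up S) -
      phiB β m false (cn x y ∩ up S))) atTop
      (𝓝 (∑ S ∈ F.powerset, (μ.real (cn x y ∩ up S) - μ.real (cn x y ∩ up S)))) :=
      tendsto_finsetSum _ fun S _ =>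
        (wired_tendsto hd hβ hμ hμ' hp S x y).sub (free_tendsto hd hβ hμ S x y)
    simpa using h1
  obtain ⟨m1, hm1⟩ := (Metric.tendsto_atTop.1 hT) ε hε
  refine ⟨max m1 n, fun m hm N hN η hη => ?_⟩
  have hmT := hm1 m ((le_max_left _ _).trans hm)
  rw [Real.dist_eq, sub_zero] at hmT
  have hFN : F ⊆ bE d N := hn.trans (bE_mono (by have := (le_max_right m1 n).trans hm; omega))
  obtain ⟨t, ht⟩ : ∃ t : ↥(bE d N) → ℝ, t = setT (E1 d m N) η (fun _ => Real.tanh β) := ⟨_, rfl⟩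
  have hs : ∀ S, phiB β m false (cn x y ∩ up S) ≤
        (GN d N).fkE t (fun ω => ind (ext false N N ω ∈ (cn x y ∩ up S : Set (Cf d)))) ∧
      (GN d N).fkE t (fun ω => ind (ext false N N ω ∈ (cn x y ∩ up S : Set (Cf d)))) ≤
        phiB β m true (cn x y ∩ up S) := by
    intro S
    rw [ht]
    exact sandwich hd hβ hN η hη (UNI_inc S x y)
  have hm' : ∀ S, phiB β m false (cn x y ∩ up S) ≤ μ.real (cn x y ∩ up S) ∧
      μ.real (cn x y ∩ up S) ≤ phiB β m true (cn x y ∩ up S) := by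
    intro S
    refine ⟨free_le_cn hβ hμ m S x y, ?_⟩
    exact le_of_tendsto' (free_tendsto hd hβ hμ S x y)
      fun m' => phiB_free_le_wired hd hβ m' m (UNI_inc S x y)
  rw [← ht]
  have e1 : (fun ω : Finset ↥(bE d N) => ind (Disjoint ω (sb (bE d N) F)) *
      ind ((GN d N).Conn (ω : Set ↥(bE d N)) x y)) =
      fun ω => ∑ S ∈ F.powerset, (-1 : ℝ) ^ S.card *
        ind (ext false N N ω ∈ (cn x y ∩ up S : Set (Cf d))) := by
    funext ω
    rw [← UNI_ie F (cn x y) (ext false N N ω)]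
    have h1 : ind (ext false N N ω ∈ (dw F ∩ cn x y : Set (Cf d))) =
      ind (ext false N N ω ∈ dw F) * ind (ext false N N ω ∈ cn x y) := UNI_ind_and _ _
    rw [h1, UNI_ind_congr (GN_dw hFN ω), UNI_ind_congr (GN_cn N ω x y)]
  have hmeasX : ∀ S, MeasurableSet (cn x y ∩ up S : Set (Cf d)) := fun S =>
    (meas_cn x y).inter (lcl_measurable (lcl_up S))
  have e2 : μ.real (dw F ∩ cn x y) = ∑ S ∈ F.powerset, (-1 : ℝ) ^ S.card * μ.real (cn x y ∩ up S) := by
    rw [← UNI_int ((lcl_measurable (lcl_dw F)).inter (meas_cn x y))]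
    have h1 : (fun ω : Cf d => ind (ω ∈ (dw F ∩ cn x y : Set (Cf d)))) = fun ω =>
        ∑ S ∈ F.powerset, (-1 : ℝ) ^ S.card * ind (ω ∈ (cn x y ∩ up S : Set (Cf d))) :=
      funext fun ω => UNI_ie F (cn x y) ω
    rw [h1, integral_finsetSum _ (fun S _ => (UNI_integrable (hmeasX S)).const_mul _)]
    refine Finset.sum_congr rfl fun S _ => ?_
    rw [integral_const_mul, UNI_int (hmeasX S)]
  rw [e1, e2, fkE_sum, ← Finset.sum_sub_distrib]
  refine le_trans (Finset.abs_sum_le_sum_abs _ _) (le_trans (Finset.sum_le_sum fun S _ => ?_)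
    ((le_abs_self _).trans hmT.le))
  rw [fkE_smul, ← mul_sub, abs_mul, abs_pow, abs_neg, abs_one, one_pow, one_mul]
  rw [abs_le]
  have h1 := hs S
  have h2 := hm' S
  constructor <;> linarith [h1.1, h1.2, h2.1, h2.2]

end H82.IC

end S_H82_IC_UNI

section S_H82_IC_MAINF

/-!
# MAINF: the abstract main inequality in the box `Λ_N`

`main_abstract` with `Γ = GN d N`, constant parameter `τ = tanh β < 1`, `W = bx d m`, `B = bdry d n`, `E1 = E1 d m N` (an edge not in `E1` is in `bE m`: both ends in `bx m`), `F ↦ sb (bE N) F`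
(`F ⊆ bE m`), `o = 0`, `Bs ⊆ bx m`, `Gp u v = phiB β m true (cn u v)` (symmetric as `cn u v = cn v u`), `Gm u = phiB β m false (cn 0 u)` (`tp_sandwich`), `δ u` from the hypothesis.
`vF (sb (bE N) F)` is the set `enF F` of the ends of the edges of `F` (as `F ⊆ bE N`).
`MMd`, `rrd`, `DDd` are abbreviations for the lattice.

* `rrd_le`: `mlt_rare` for the lattice: the product over `E1ᶜ` (the edges in `bE m`; at most `|bE m|` of them, each factor `(1-t)/4 < 1`) is `≥ ((1-t)/4)^{|bE m|}`; and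
  `fkE (t) 1[rch ω B z] = phiB β N false (arm n z)` (`phiB_self`, `GN_arm`).
* `MMd_bounds`: `MM_bounds` with `phiB_self` and `GN_arm`.
* `DDd_final`: `DD_final`, with `fkE (1[Disjoint ω F] 1[rch]) = phiB β N false (dw F ∩ arm n 0)` (`GN_dw`, `GN_arm`).
* `DDd_transfer`: `DD_transfer`: for `n' ≤ n`, `m ≤ n'`: a point of `bx m` connected to `∂Λ_n` is connected to `∂Λ_{n'}` (`exit_box`).
-/

set_option autoImplicit false

open Finset MeasureTheory Filter Topology

namespace H82.IC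

variable {d : ℕ}

/-- the ends of the edges of `F`. -/
noncomputable def enF (F : Finset (Ed d)) : Finset (Vx d) :=
  open Classical in F.image (Zl d).s ∪ F.image (Zl d).r

/-- `M(u)` in the box `Λ_N`. -/
noncomputable def MMd (d : ℕ) (β : ℝ) (m n N : ℕ) (u : Vx d) : ℝ :=
  (GN d N).MM (fun _ => Real.tanh β) (bx d m) (bdry d n : Set (Vx d)) (E1 d m N) 0 u

noncomputable def rrd (d : ℕ) (β : ℝ) (m n N : ℕ) : ℝ :=
  (GN d N).rr (fun _ => Real.tanh β) (bx d m) (bdry d n : Set (Vx d)) (E1 d m N)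

noncomputable def DDd (d : ℕ) (β : ℝ) (m n N : ℕ) (F : Finset (Ed d)) (c : ℝ) : ℝ :=
  (GN d N).DD (fun _ => Real.tanh β) (bx d m) (bdry d n : Set (Vx d)) (E1 d m N)
    (sb (bE d N) F) c 0

theorem MAINF_E1 {m N : ℕ} {e : ↥(bE d N)} : e ∉ E1 d m N ↔ e.1 ∈ bE d m := by
  unfold E1
  simp

theorem MAINF_hE1 (m N : ℕ) (e : ↥(bE d N)) (he : e ∉ E1 d m N) :
    (GN d N).s e ∈ bx d m ∧ (GN d N).r e ∈ bx d m := by
  have h := mem_bE.1 (MAINF_E1.1 he)
  exact ⟨mem_bx.2 h.1, mem_bx.2 h.2⟩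

theorem MAINF_arm {β : ℝ} (hβ : 0 ≤ β) (n N : ℕ) (z : Vx d) :
    (GN d N).fkE (fun _ => Real.tanh β)
      (fun ω => ind ((GN d N).rch (ω : Set ↥(bE d N)) (bdry d n : Set (Vx d)) z)) =
      phiB β N false (arm n z) := by
  rw [phiB_self hβ]
  congr 1
  funext ω
  congr 1
  apply propext
  rw [← GN_arm]
  unfold Gr.rch
  simp only [Finset.mem_coe]

theorem MAINF_tp {β : ℝ} (hβ : 0 ≤ β) (N : ℕ) (E η : Finset ↥(bE d N)) (u v : Vx d) :
    0 ≤ (GN d N).tp (setT E η (fun _ => Real.tanh β)) u v := by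
  rw [← fkE_conn]
  exact fkE_nonneg _ (T01_setT (T01_tanh β hβ) E η) fun ω => ind_nonneg _

theorem MAINF_mem_sb {N : ℕ} {F : Finset (Ed d)} {e : ↥(bE d N)} : e ∈ sb (bE d N) F ↔ e.1 ∈ F := by
  unfold sb
  simp

theorem vF_sb {N : ℕ} {F : Finset (Ed d)} (hF : F ⊆ bE d N) :
    (GN d N).vF (sb (bE d N) F) = enF F := by
  ext v
  unfold Gr.vF enF
  simp only [Finset.mem_union, Finset.mem_image]
  constructor
  · rintro (⟨e, he, rfl⟩ | ⟨e, he, rfl⟩)
    · exact Or.inl ⟨e.1, MAINF_mem_sb.1 he, rfl⟩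
    · exact Or.inr ⟨e.1, MAINF_mem_sb.1 he, rfl⟩
  · rintro (⟨e, he, rfl⟩ | ⟨e, he, rfl⟩)
    · exact Or.inl ⟨⟨e, hF he⟩, MAINF_mem_sb.2 he, rfl⟩
    · exact Or.inr ⟨⟨e, hF he⟩, MAINF_mem_sb.2 he, rfl⟩

theorem MMd_bounds {β : ℝ} (hβ : 0 ≤ β) {m n N : ℕ} (h : m ≤ N) {u : Vx d} (hu : nm u ≤ m) :
    0 ≤ MMd d β m n N u ∧ MMd d β m n N u ≤ phiB β N false (arm n u) ∧
      phiB β N false (arm n u) ≤ MMd d β m n N u + rrd d β m n N := by
  have hT : T01 (fun _ : ↥(bE d N) => Real.tanh β) := T01_tanh β hβ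
  have h1 := MM_bounds (GN d N) hT (bx d m) (bdry d n : Set (Vx d)) (MAINF_hE1 m N) 0 u
    (mem_bx.2 hu)
  rw [MAINF_arm hβ] at h1
  refine ⟨?_, h1.1, h1.2⟩
  unfold MMd Gr.MM
  exact Finset.sum_nonneg fun η _ => mul_nonneg (prE_nonneg _ hT _ _) (MAINF_tp hβ N _ _ _ _)

theorem rrd_le {β : ℝ} (hβ : 0 ≤ β) {m n N : ℕ} (h : m ≤ N) :
    0 ≤ rrd d β m n N ∧
    ((1 - Real.tanh β) / 4) ^ (bE d m).card * rrd d β m n N ≤
      ∑ z ∈ bx d m, ∑ z' ∈ bx d m, phiB β N false (arm n z) * phiB β N false (arm n z') := by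
  have hT : T01 (fun _ : ↥(bE d N) => Real.tanh β) := T01_tanh β hβ
  have h0 : 0 ≤ rrd d β m n N := fkE_nonneg _ hT fun ω => ind_nonneg _
  refine ⟨h0, ?_⟩
  have h1 := mlt_rare (GN d N) hT (bx d m) (bdry d n : Set (Vx d)) (E1 d m N)
  simp only [MAINF_arm hβ, Finset.prod_const] at h1
  refine le_trans (mul_le_mul_of_nonneg_right ?_ h0) h1
  obtain ⟨t0, t1⟩ := tanh_mem β hβ
  apply pow_le_pow_of_le_one
  · apply div_nonneg <;> linarith
  · linarith
  · refine Finset.card_le_card_of_injOn (fun e => e.1) (fun e he => ?_)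
      (fun a _ b _ hab => Subtype.ext hab)
    have he' : e ∈ (E1 d m N)ᶜ := he
    rw [Finset.mem_compl] at he'
    exact MAINF_E1.1 he'

theorem DDd_final {β : ℝ} (hβ : 0 ≤ β) {m n N : ℕ} (h : m ≤ N) {F : Finset (Ed d)}
    (hF : F ⊆ bE d m) (c : ℝ) :
    |phiB β N false (dw F ∩ arm n (0 : Vx d)) - c * phiB β N false (arm n (0 : Vx d))| ≤
      DDd d β m n N F c + (1 + |c|) * rrd d β m n N := by
  have hT : T01 (fun _ : ↥(bE d N) => Real.tanh β) := T01_tanh β hβ
  have h1 := DD_final (GN d N) hT (bx d m) (bdry d n : Set (Vx d)) (MAINF_hE1 m N)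
    (sb (bE d N) F) c 0 (mem_bx.2 (by rw [nm_zero]; exact Nat.zero_le _))
  rw [MAINF_arm hβ] at h1
  have h2 : (GN d N).fkE (fun _ => Real.tanh β) (fun ω => ind (Disjoint ω (sb (bE d N) F)) *
      ind ((GN d N).rch (ω : Set ↥(bE d N)) (bdry d n : Set (Vx d)) 0)) =
      phiB β N false (dw F ∩ arm n (0 : Vx d)) := by
    rw [phiB_self hβ]
    congr 1
    funext ω
    rw [← ind_and]
    congr 1
    apply propext
    rw [Set.mem_inter_iff, ← GN_arm, ← GN_dw (hF.trans (bE_mono h))]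
    unfold Gr.rch
    simp only [Finset.mem_coe]
  rw [h2] at h1
  exact h1

theorem DDd_transfer (hd : 1 ≤ d) {β : ℝ} (hβ : 0 ≤ β) {m n n' N : ℕ} (h : m ≤ N) (hm : m ≤ n')
    (hn : n' ≤ n) {F : Finset (Ed d)} (hF : F ⊆ bE d m) (c : ℝ) :
    DDd d β m n N F c ≤ DDd d β m n' N F c + (1 + |c|) * rrd d β m n' N := by
  have hT : T01 (fun _ : ↥(bE d N) => Real.tanh β) := T01_tanh β hβ
  refine DD_transfer (GN d N) hT (bx d m) (bdry d n : Set (Vx d)) (bdry d n' : Set (Vx d))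
    (MAINF_hE1 m N) (sb (bE d N) F) c 0 (mem_bx.2 (by rw [nm_zero]; exact Nat.zero_le _)) ?_
  rintro η _ z hz ⟨b, hb, hzb⟩
  have hb' : nm b = n := (mem_bdry hd).1 (Finset.mem_coe.1 hb)
  have h1 : (Zl d).Conn (vl η : Set (Ed d)) z b := (conn_rs (Zl d) (bE d N) η z b).1 hzb
  obtain ⟨b', hb1, hb2⟩ := exit_box hd ((mem_bx.1 hz).trans hm) (by rw [hb']; exact hn) h1
  refine ⟨b', Finset.mem_coe.2 hb1, ?_⟩
  exact (conn_rs (Zl d) (bE d N) η z b').2 (conn_mono (Zl d) Set.inter_subset_left hb2)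

theorem DDd_main (hd : 2 ≤ d) {β : ℝ} (hβ : 0 ≤ β) {m n N : ℕ} (h : m + 1 ≤ N)
    {F : Finset (Ed d)} (hF : F ⊆ bE d m) (c : ℝ)
    (Bs : Finset (Vx d)) (hBs : Bs ⊆ bx d m) (be : Vx d → ℝ) (hbe : ∀ u, 0 ≤ be u) (δ : Vx d → ℝ)
    (hδ : ∀ η : Finset ↥(bE d N), η ⊆ E1 d m N → ∀ u ∈ Bs,
      |(GN d N).fkE (setT (E1 d m N) η (fun _ => Real.tanh β))
        (fun ω => ind (Disjoint ω (sb (bE d N) F)) * ind ((GN d N).Conn (ω : Set ↥(bE d N)) 0 u)) -
        c * (GN d N).tp (setT (E1 d m N) η (fun _ => Real.tanh β)) 0 u| ≤ δ u)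
    (ρ K : ℝ) (hρ0 : 0 ≤ ρ) (hK0 : 0 ≤ K)
    (hρ : ∀ u ∈ Bs, MMd d β m n N 0 ≤ ρ * MMd d β m n N u)
    (hK : ∀ z ∈ enF F, MMd d β m n N z ≤ K * MMd d β m n N 0) :
    DDd d β m n N F c ≤ MMd d β m n N 0 *
      ((1 + |c|) * Real.sqrt (2 * ρ * (∑ u ∈ Bs, ∑ v ∈ Bs, be u * be v *
            (phiB β m true (cn u v) * phiB β m true (cn (0 : Vx d) u))) -
          2 * (∑ u ∈ Bs, be u * phiB β m false (cn (0 : Vx d) u)) + 1) +
        2 * ρ * K * (∑ u ∈ Bs, be u * (phiB β m true (cn (0 : Vx d) u) *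
          ∑ z ∈ enF F, phiB β m true (cn u z))) +
        ∑ u ∈ Bs, be u * δ u) := by
  have hT : T01 (fun _ : ↥(bE d N) => Real.tanh β) := T01_tanh β hβ
  obtain ⟨t0, t1⟩ := tanh_mem β hβ
  have hmN : m ≤ N := (Nat.le_succ m).trans h
  have hFN : F ⊆ bE d N := hF.trans (bE_mono hmN)
  have hv := vF_sb hFN
  have hmain := main_abstract (GN d N) hT (bx d m) (bdry d n : Set (Vx d)) (MAINF_hE1 m N)
    (sb (bE d N) F) t0 t1 (fun e he => ⟨MAINF_E1.2 (hF (MAINF_mem_sb.1 he)), rfl⟩)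
    0 (mem_bx.2 (by rw [nm_zero]; exact Nat.zero_le _)) Bs hBs
    (by
      rw [hv]
      intro z hz
      unfold enF at hz
      simp only [Finset.mem_union, Finset.mem_image] at hz
      rcases hz with ⟨e, he, rfl⟩ | ⟨e, he, rfl⟩
      · exact mem_bx.2 (mem_bE.1 (hF he)).1
      · exact mem_bx.2 (mem_bE.1 (hF he)).2)
    be hbe c δ (fun u v => phiB β m true (cn u v)) (fun u => phiB β m false (cn (0 : Vx d) u))
    (fun u v => by
      have : (cn u v : Set (Cf d)) = cn v u := by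
        ext ω
        exact conn_comm (Zl d) (opn ω) u v
      rw [this])
    (fun u v => phiB_nonneg hβ m true _)
    (fun η hη u _ v _ => (tp_sandwich hd hβ h η (Finset.mem_powerset.1 hη) u v).2)
    (fun η hη u _ => (tp_sandwich hd hβ h η (Finset.mem_powerset.1 hη) 0 u).1)
    (fun η hη u hu => hδ η (Finset.mem_powerset.1 hη) u hu)
    ρ K hρ0 hK0 hρ (fun z hz => hK z (by rw [← hv]; exact hz))
  rw [hv] at hmain
  exact hmain

end H82.IC

end S_H82_IC_MAINF

section S_H82_IC_SC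

/-!
# SC: choice of the scales (pure counting)

`G : ℤ^d → [0,1]` tends to `0` at infinity, is not summable; `fG L = ∑_{x ∈ bx L} G x`: nondecreasing, unbounded, `fG L ≤ (2L+1)^d`.
Construction of `(l t, L t)` by recursion on `t` (each step is an existence statement, then dependent choice; e.g. define the step function by `Classical.choose` from the existence lemma below and
iterate).
STEP: given `L' ≥ 0`, `l' < L'` (previous scale, with `fG l' < fG L'`), choose `l ≥ max (l0, J * L' , ...)` so large that `G x * |bx L'| ≤ δ (fG L' - fG l')` for all `x` with `nm x ≥ l - L'` (`G → 0`: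
only finitely many `x` have `G x > ε`).  Then choose `L > l` with (a) `fG (2L) ≤ 4^(d+1) fG L`, (b) `fG (L + L') ≤ (1+δ) fG L`, (c) `fG l ≤ δ fG L`, (`L ≥ 1`, `fG l < fG L` follows from (c) if `δ < 1`, `fG L > 0`):
 (c) holds for all large `L` as `fG → ∞`.  There are infinitely many `j` with `fG (4^(j+1)) ≤ 4^(d+1) fG (4^j)`: otherwise `fG (4^j) ≥ c 4^((d+1) j)` with `c > 0` for all large `j`, contradicting
 `fG (4^j) ≤ (3 * 4^j)^d`.  Take such a `j` very large, `R = 4^j`; if `fG (L + L') > (1+δ) fG L` for all `L = R, R + L', R + 2L', ..., R + (K-1) L'` (`K = floor (R / L')`, `K L' ≤ R`; if `L' = 0` trivial)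
 then `fG (2R) ≥ (1+δ)^K fG R > 4^(d+1) fG R ≥ fG (4R)` once `(1+δ)^K > 4^(d+1)`, contradiction.  So some such `L ∈ [R, 2R]` has (b), and `fG (2L) ≤ fG (4R) ≤ 4^(d+1) fG R ≤ 4^(d+1) fG L`.
The first scale is chosen with `L' = 0`.
-/

set_option autoImplicit false

open Finset Filter Topology

namespace H82.IC

variable {d : ℕ}

/-- `∑_{x ∈ Λ_L} G x`. -/
noncomputable def fG (G : Vx d → ℝ) (L : ℕ) : ℝ := ∑ x ∈ bx d L, G x

theorem SC_mono {G : Vx d → ℝ} (h0 : ∀ x, 0 ≤ G x) : Monotone (fG G) :=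
  fun _ _ h => Finset.sum_le_sum_of_subset_of_nonneg (bx_mono h) fun x _ _ => h0 x

theorem SC_le {G : Vx d → ℝ} (h1 : ∀ x, G x ≤ 1) (L : ℕ) :
    fG G L ≤ (2 * (L : ℝ) + 1) ^ d := by
  have h : fG G L ≤ ∑ x ∈ bx d L, (1 : ℝ) := Finset.sum_le_sum fun x _ => h1 x
  rw [Finset.sum_const, nsmul_eq_mul, mul_one, card_bx] at h
  push_cast at h
  exact h

theorem SC_unb {G : Vx d → ℝ} (h0 : ∀ x, 0 ≤ G x) (hs : ¬ Summable G) (C : ℝ) :
    ∃ n, C < fG G n := by
  by_contra hcon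
  push Not at hcon
  refine hs (summable_of_sum_le (c := C) h0 fun u => ?_)
  refine le_trans ?_ (hcon (u.sup nm))
  refine Finset.sum_le_sum_of_subset_of_nonneg ?_ fun x _ _ => h0 x
  intro x hx
  rw [mem_bx]
  exact Finset.le_sup hx

theorem SC_far {G : Vx d → ℝ} (hG : Tendsto G cofinite (𝓝 0)) {ε : ℝ} (hε : 0 < ε) :
    ∃ n, ∀ x, n ≤ nm x → G x ≤ ε := by
  have h : ∀ᶠ x in cofinite, G x < ε := hG.eventually (Iio_mem_nhds hε)
  rw [Filter.eventually_cofinite] at h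
  refine ⟨h.toFinset.sup nm + 1, fun x hx => ?_⟩
  by_contra hcon
  push Not at hcon
  have h1 : x ∈ h.toFinset := by
    rw [Set.Finite.mem_toFinset]
    exact not_lt.2 hcon.le
  have h2 := Finset.le_sup (f := nm) h1
  omega

/-- infinitely many good powers of `4`. -/
theorem SC_pow {F : ℕ → ℝ} (hF : Monotone F) (hF1 : ∀ L, F L ≤ (2 * (L : ℝ) + 1) ^ d)
    (hF2 : ∀ C, ∃ n, C < F n) (N : ℕ) :
    ∃ j, N ≤ j ∧ 0 < F (4 ^ j) ∧ F (4 ^ (j + 1)) ≤ 4 ^ (d + 1) * F (4 ^ j) := by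
  obtain ⟨n₀, hn₀⟩ := hF2 0
  by_contra hcon
  push Not at hcon
  obtain ⟨M, hM⟩ : ∃ M, M = max N n₀ := ⟨_, rfl⟩
  have hMN : N ≤ M := by omega
  have hMn : n₀ ≤ M := by omega
  have hpos : ∀ j, M ≤ j → 0 < F (4 ^ j) := by
    intro j hj
    refine lt_of_lt_of_le hn₀ (hF ?_)
    have h1 : j < 4 ^ j := Nat.lt_pow_self (by norm_num)
    omega
  have hind : ∀ i, (4 ^ (d + 1)) ^ i * F (4 ^ M) ≤ F (4 ^ (M + i)) := by
    intro i
    induction i with
    | zero => simp
    | succ i ih =>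
      have h1 := hcon (M + i) (by omega) (hpos _ (by omega))
      calc (4 ^ (d + 1)) ^ (i + 1) * F (4 ^ M) = 4 ^ (d + 1) * ((4 ^ (d + 1)) ^ i * F (4 ^ M)) := by
            rw [pow_succ]; ring
        _ ≤ 4 ^ (d + 1) * F (4 ^ (M + i)) := by
            refine mul_le_mul_of_nonneg_left ih (by positivity)
        _ ≤ F (4 ^ (M + (i + 1))) := h1.le
  have hup : ∀ i, (4 : ℝ) ^ i * F (4 ^ M) ≤ (3 * 4 ^ M) ^ d := by
    intro i
    have h1 := (hind i).trans (hF1 _)
    push_cast at h1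
    have h2 : (2 * (4 : ℝ) ^ (M + i) + 1) ^ d ≤ (3 * 4 ^ (M + i)) ^ d := by
      refine pow_le_pow_left₀ (by positivity) ?_ _
      have h3 : (1 : ℝ) ≤ 4 ^ (M + i) := one_le_pow₀ (by norm_num)
      linarith
    have h3 := h1.trans h2
    have h4 : (3 * (4 : ℝ) ^ (M + i)) ^ d = (3 * 4 ^ M) ^ d * (4 ^ d) ^ i := by
      rw [pow_add, ← mul_assoc, mul_pow, ← pow_mul, ← pow_mul, mul_comm i d]
    have h5 : ((4 : ℝ) ^ (d + 1)) ^ i * F (4 ^ M) = (4 ^ i * F (4 ^ M)) * (4 ^ d) ^ i := by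
      rw [pow_succ, mul_pow]
      ring
    rw [h4, h5] at h3
    exact le_of_mul_le_mul_right h3 (by positivity)
  have hc : 0 < F (4 ^ M) := hpos M le_rfl
  obtain ⟨i, hi⟩ := pow_unbounded_of_one_lt ((3 * (4 : ℝ) ^ M) ^ d / F (4 ^ M))
    (by norm_num : (1 : ℝ) < 4)
  rw [div_lt_iff₀ hc] at hi
  exact absurd (hup i) (not_le.2 hi)

theorem SC_good {F : ℕ → ℝ} (hF : Monotone F) (hF1 : ∀ L, F L ≤ (2 * (L : ℝ) + 1) ^ d)
    (hF2 : ∀ C, ∃ n, C < F n) {δ : ℝ} (hδ : 0 < δ) (L' N : ℕ) :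
    ∃ L, N ≤ L ∧ F (2 * L) ≤ 4 ^ (d + 1) * F L ∧ F (L + L') ≤ (1 + δ) * F L := by
  obtain ⟨K, hK⟩ := pow_unbounded_of_one_lt ((4 : ℝ) ^ (d + 1)) (by linarith : (1 : ℝ) < 1 + δ)
  obtain ⟨j, hj, hpos, hj2⟩ := SC_pow hF hF1 hF2 (N + K * L')
  have hj3 : N + K * L' ≤ 4 ^ j := by
    have h1 : j < 4 ^ j := Nat.lt_pow_self (by norm_num)
    omega
  obtain ⟨R, hR⟩ : ∃ R, R = 4 ^ j := ⟨_, rfl⟩
  have hR4 : 4 ^ (j + 1) = 4 * R := by rw [hR, pow_succ, mul_comm]
  rw [hR4, ← hR] at hj2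
  rw [← hR] at hj3 hpos
  have key : ∃ i, i < K ∧ F (R + i * L' + L') ≤ (1 + δ) * F (R + i * L') := by
    by_contra hcon
    push Not at hcon
    have hind : ∀ i, i ≤ K → (1 + δ) ^ i * F R ≤ F (R + i * L') := by
      intro i
      induction i with
      | zero => intro _; simp
      | succ i ih =>
        intro hi
        have h1 := ih (by omega)
        have h2 := hcon i (by omega)
        calc (1 + δ) ^ (i + 1) * F R = (1 + δ) * ((1 + δ) ^ i * F R) := by rw [pow_succ]; ring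
          _ ≤ (1 + δ) * F (R + i * L') := mul_le_mul_of_nonneg_left h1 (by linarith)
          _ ≤ F (R + i * L' + L') := h2.le
          _ = F (R + (i + 1) * L') := by congr 1; ring
    have h1 := hind K le_rfl
    have h2 : F (R + K * L') ≤ F (4 * R) := hF (by omega)
    have h3 : 4 ^ (d + 1) * F R < (1 + δ) ^ K * F R := mul_lt_mul_of_pos_right hK hpos
    linarith
  obtain ⟨i, hi, hi2⟩ := key
  have hiK : i * L' ≤ K * L' := Nat.mul_le_mul_right _ hi.le
  refine ⟨R + i * L', by omega, ?_, hi2⟩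
  calc F (2 * (R + i * L')) ≤ F (4 * R) := hF (by omega)
    _ ≤ 4 ^ (d + 1) * F R := hj2
    _ ≤ 4 ^ (d + 1) * F (R + i * L') :=
      mul_le_mul_of_nonneg_left (hF (by omega)) (by positivity)

theorem SC_next {G : Vx d → ℝ} (h0 : ∀ x, 0 ≤ G x) (h1 : ∀ x, G x ≤ 1) (hs : ¬ Summable G)
    {δ : ℝ} (hδ : 0 < δ) (l L' : ℕ) :
    ∃ L, l < L ∧ fG G (2 * L) ≤ 4 ^ (d + 1) * fG G L ∧ fG G l ≤ δ * fG G L ∧ 0 < fG G L ∧
      fG G (L + L') ≤ (1 + δ) * fG G L := by
  obtain ⟨n₁, hn₁⟩ := SC_unb h0 hs (fG G l / δ)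
  obtain ⟨n₂, hn₂⟩ := SC_unb h0 hs 0
  obtain ⟨L, hL, hL2, hL3⟩ := SC_good (SC_mono h0) (SC_le h1) (SC_unb h0 hs) hδ L' (l + n₁ + n₂ + 1)
  have e1 : fG G n₁ ≤ fG G L := SC_mono h0 (by omega)
  have e2 : fG G n₂ ≤ fG G L := SC_mono h0 (by omega)
  refine ⟨L, by omega, hL2, ?_, lt_of_lt_of_le hn₂ e2, hL3⟩
  have h3 := (hn₁.le.trans e1)
  rwa [div_le_iff₀ hδ, mul_comm] at h3

theorem SC_iter {α : Type*} (P : α → Prop) (R : α → α → Prop) (h0 : ∃ p, P p)
    (h : ∀ p, P p → ∃ q, P q ∧ R p q) : ∃ s : ℕ → α, ∀ t, P (s t) ∧ R (s t) (s (t + 1)) := by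
  obtain ⟨p₀, hp₀⟩ := h0
  have : Nonempty α := ⟨p₀⟩
  choose! f hf using h
  have h1 : ∀ t, P (f^[t] p₀) := by
    intro t
    induction t with
    | zero => exact hp₀
    | succ t ih =>
      rw [Function.iterate_succ_apply']
      exact (hf _ ih).1
  refine ⟨fun t => f^[t] p₀, fun t => ⟨h1 t, ?_⟩⟩
  show R (f^[t] p₀) (f^[t + 1] p₀)
  rw [Function.iterate_succ_apply']
  exact (hf _ (h1 t)).2

theorem scales (G : Vx d → ℝ) (h0 : ∀ x, 0 ≤ G x) (h1 : ∀ x, G x ≤ 1)
    (hG : Tendsto G cofinite (𝓝 0)) (hs : ¬ Summable G) (δ : ℝ) (hδ : 0 < δ) (hδ1 : δ < 1)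
    (J l0 : ℕ) :
    ∃ l L : ℕ → ℕ, (∀ t, l0 ≤ l t) ∧ (∀ t, l t < L t) ∧ (∀ t, J * L t ≤ l (t + 1)) ∧
      (∀ t, L t ≤ l (t + 1)) ∧
      (∀ t, fG G (2 * L t) ≤ 4 ^ (d + 1) * fG G (L t)) ∧
      (∀ t, fG G (l t) ≤ δ * fG G (L t)) ∧ (∀ t, 0 < fG G (L t)) ∧
      (∀ t, fG G (L (t + 1) + L t) ≤ (1 + δ) * fG G (L (t + 1))) ∧
      (∀ t x, l (t + 1) ≤ nm x + L t →
        G x * ((bx d (L t)).card : ℝ) ≤ δ * (fG G (L t) - fG G (l t))) := by
  have hit := SC_iter (α := ℕ × ℕ)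
    (fun p => l0 ≤ p.1 ∧ p.1 < p.2 ∧ fG G (2 * p.2) ≤ 4 ^ (d + 1) * fG G p.2 ∧
      fG G p.1 ≤ δ * fG G p.2 ∧ 0 < fG G p.2)
    (fun p q => J * p.2 ≤ q.1 ∧ p.2 ≤ q.1 ∧ fG G (q.2 + p.2) ≤ (1 + δ) * fG G q.2 ∧
      ∀ x, q.1 ≤ nm x + p.2 →
        G x * ((bx d p.2).card : ℝ) ≤ δ * (fG G p.2 - fG G p.1)) ?_ ?_
  · obtain ⟨s, hs⟩ := hit
    exact ⟨fun t => (s t).1, fun t => (s t).2, fun t => (hs t).1.1, fun t => (hs t).1.2.1,
      fun t => (hs t).2.1, fun t => (hs t).2.2.1, fun t => (hs t).1.2.2.1,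
      fun t => (hs t).1.2.2.2.1, fun t => (hs t).1.2.2.2.2, fun t => (hs t).2.2.2.1,
      fun t x hx => (hs t).2.2.2.2 x hx⟩
  · obtain ⟨L, a1, a2, a3, a4, -⟩ := SC_next h0 h1 hs hδ l0 0
    exact ⟨(l0, L), le_rfl, a1, a2, a3, a4⟩
  · rintro ⟨l', L'⟩ ⟨b1, b2, b3, b4, b5⟩
    simp only at b1 b2 b3 b4 b5
    have hlt : 0 < fG G L' - fG G l' := by
      have : δ * fG G L' < fG G L' := by
        calc δ * fG G L' < 1 * fG G L' := mul_lt_mul_of_pos_right hδ1 b5
          _ = fG G L' := one_mul _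
      linarith
    have hcard : (0 : ℝ) < ((bx d L').card : ℝ) := by
      rw [card_bx]
      positivity
    obtain ⟨n, hn⟩ := SC_far hG (div_pos (mul_pos hδ hlt) hcard)
    obtain ⟨L, a1, a2, a3, a4, a5⟩ := SC_next h0 h1 hs hδ (l0 + J * L' + L' + n) L'
    refine ⟨(l0 + J * L' + L' + n, L), ⟨by simp only; omega, a1, a2, a3, a4⟩,
      by simp only; omega, by simp only; omega, a5, ?_⟩
    intro x hx
    simp only at hx ⊢
    have h3 := hn x (by omega)
    rwa [le_div_iff₀ hcard] at h3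

end H82.IC

end S_H82_IC_SC

section S_H82_IC_VB

/-!
# VB: the variance sums at the limit

`An t = bx (L t) \ bx (l t)` (annuli, pairwise disjoint since `L t ≤ l (t+1)`), `ch t = fG (L t) - fG (l t) = ∑_{u ∈ An t} G u ≥ (1-δ) fG (L t) > 0`, `S ⊆ ℕ` with `|S| = T ≥ 1`,
`beS u = ∑_{t ∈ S} 1[u ∈ An t] / (T * ch t)`, `Bs = ⋃_{t ∈ S} An t`.
* `beS_sum`: `∑_{u ∈ Bs} beS u * G u = ∑_{t ∈ S} (1/(T ch t)) ∑_{u ∈ An t} G u = 1`.
* `beS_double`: `∑_{u,v ∈ Bs} beS u beS v G(v-u) G u = ∑_{s,t ∈ S} (1/(T² ch s ch t)) ∑_{u ∈ An s} G u ∑_{v ∈ An t} G (v - u)`.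
  `s < t`: for `u ∈ An s`, `v ∈ An t`: `v - u ∈ bx (L t + L s) ⊆ bx (L t + L (t-1))` and `v ↦ v - u` is injective, so the inner sum is `≤ fG (L t + L (t-1)) ≤ (1+δ) fG (L t) ≤ ((1+δ)/(1-δ)) ch t`
   (`L` is increasing); the term is `≤ (1/T²)(1+δ)/(1-δ) ≤ (1/T²)(1+4δ)` for `δ ≤ 1/2`.
  `s > t`: `u ∈ An s`, `v ∈ An t`: `nm (v-u) ≥ nm u - nm v > l s - L t ≥ l (t+1) - L t`, so `G (v-u) |bx (L t)| ≤ δ ch t` (last property), inner sum `≤ δ ch t`; term `≤ δ/T²`.
  `s = t`: `v - u ∈ bx (2 L t)`: inner sum `≤ fG (2 L t) ≤ 4^(d+1) fG (L t) ≤ 4^(d+1) ch t/(1-δ) ≤ 2 * 4^(d+1) ch t`; term `≤ 2 * 4^(d+1)/T²`.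
  There are `T(T-1)/2` pairs with `s < t` and as many with `s > t`: total `≤ (1/2)(1 + 4δ + δ) + 2 * 4^(d+1)/T`.
-/

set_option autoImplicit false

open Finset Filter Topology

namespace H82.IC

variable {d : ℕ}

/-- annulus. -/
noncomputable def An (d : ℕ) (l L : ℕ → ℕ) (t : ℕ) : Finset (Vx d) := bx d (L t) \ bx d (l t)

noncomputable def BsS (d : ℕ) (l L : ℕ → ℕ) (S : Finset ℕ) : Finset (Vx d) := S.biUnion (An d l L)

noncomputable def beS (G : Vx d → ℝ) (l L : ℕ → ℕ) (S : Finset ℕ) (u : Vx d) : ℝ :=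
  ∑ t ∈ S, (if u ∈ An d l L t then 1 / ((S.card : ℝ) * (fG G (L t) - fG G (l t))) else 0)

/-- the conditions on the scales. -/
structure Sca (G : Vx d → ℝ) (δ : ℝ) (l L : ℕ → ℕ) : Prop where
  lt : ∀ t, l t < L t
  le : ∀ t, L t ≤ l (t + 1)
  dbl : ∀ t, fG G (2 * L t) ≤ 4 ^ (d + 1) * fG G (L t)
  small : ∀ t, fG G (l t) ≤ δ * fG G (L t)
  pos : ∀ t, 0 < fG G (L t)
  reg : ∀ t, fG G (L (t + 1) + L t) ≤ (1 + δ) * fG G (L (t + 1))
  far : ∀ t x, l (t + 1) ≤ nm x + L t →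
    G x * ((bx d (L t)).card : ℝ) ≤ δ * (fG G (L t) - fG G (l t))

theorem VB_mem (l L : ℕ → ℕ) (t : ℕ) (u : Vx d) : u ∈ An d l L t ↔ l t < nm u ∧ nm u ≤ L t := by
  unfold An
  rw [Finset.mem_sdiff, mem_bx, mem_bx, not_le, and_comm]

theorem mem_BsS (l L : ℕ → ℕ) (S : Finset ℕ) (u : Vx d) :
    u ∈ BsS d l L S ↔ ∃ t ∈ S, l t < nm u ∧ nm u ≤ L t := by
  unfold BsS
  rw [Finset.mem_biUnion]
  refine exists_congr fun t => and_congr_right fun _ => VB_mem l L t u

theorem VB_L {G : Vx d → ℝ} {δ : ℝ} {l L : ℕ → ℕ} (h : Sca G δ l L) {s t : ℕ} (hst : s < t) :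
    L s ≤ l t := by
  induction t, hst using Nat.le_induction with
  | base => exact h.le s
  | succ t ht ih => exact ih.trans ((h.lt t).le.trans (h.le t))

theorem VB_l {G : Vx d → ℝ} {δ : ℝ} {l L : ℕ → ℕ} (h : Sca G δ l L) {s t : ℕ} (hst : s ≤ t) :
    l s ≤ l t := by
  rcases Nat.eq_or_lt_of_le hst with h1 | h1
  · rw [h1]
  · exact (h.lt s).le.trans (VB_L h h1)

theorem VB_LL {G : Vx d → ℝ} {δ : ℝ} {l L : ℕ → ℕ} (h : Sca G δ l L) {s t : ℕ} (hst : s ≤ t) :
    L s ≤ L t := by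
  rcases Nat.eq_or_lt_of_le hst with h1 | h1
  · rw [h1]
  · exact (VB_L h h1).trans (h.lt t).le

theorem VB_ch {G : Vx d → ℝ} {δ : ℝ} {l L : ℕ → ℕ} (h : Sca G δ l L) (t : ℕ) :
    (1 - δ) * fG G (L t) ≤ fG G (L t) - fG G (l t) := by
  have := h.small t
  linarith

theorem VB_chpos {G : Vx d → ℝ} {δ : ℝ} (hδ1 : δ ≤ 1 / 2) {l L : ℕ → ℕ} (h : Sca G δ l L) (t : ℕ) :
    0 < fG G (L t) - fG G (l t) :=
  lt_of_lt_of_le (mul_pos (by linarith) (h.pos t)) (VB_ch h t)

theorem VB_An_sum {G : Vx d → ℝ} {δ : ℝ} {l L : ℕ → ℕ} (h : Sca G δ l L) (t : ℕ) :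
    ∑ u ∈ An d l L t, G u = fG G (L t) - fG G (l t) := by
  unfold An fG
  rw [← Finset.sum_sdiff (bx_mono (d := d) (h.lt t).le)]
  ring

theorem VB_sum (l L : ℕ → ℕ) (S : Finset ℕ) (c : ℕ → ℝ) (F : Vx d → ℝ) :
    ∑ u ∈ BsS d l L S, (∑ t ∈ S, (if u ∈ An d l L t then c t else 0)) * F u =
      ∑ t ∈ S, c t * ∑ u ∈ An d l L t, F u := by
  simp_rw [Finset.sum_mul]
  rw [Finset.sum_comm]
  refine Finset.sum_congr rfl fun t ht => ?_
  have hsub : An d l L t ⊆ BsS d l L S := Finset.subset_biUnion_of_mem (An d l L) ht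
  have h1 : ∀ u, (if u ∈ An d l L t then c t else 0) * F u =
      if u ∈ An d l L t then c t * F u else 0 := by
    intro u
    rw [ite_mul, zero_mul]
  rw [Finset.sum_congr rfl fun u _ => h1 u, ← Finset.sum_filter, Finset.mul_sum]
  refine Finset.sum_congr ?_ fun _ _ => rfl
  ext u
  rw [Finset.mem_filter]
  exact ⟨fun hu => hu.2, fun hu => ⟨hsub hu, hu⟩⟩

theorem VB_trans {G : Vx d → ℝ} (h0 : ∀ x, 0 ≤ G x) (A : Finset (Vx d)) (u : Vx d) (n : ℕ)
    (h : ∀ v ∈ A, nm (v - u) ≤ n) : ∑ v ∈ A, G (v - u) ≤ fG G n := by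
  classical
  have h1 : ∑ v ∈ A, G (v - u) = ∑ x ∈ A.image (fun v => v - u), G x := by
    rw [Finset.sum_image]
    intro a _ b _ hab
    exact sub_left_injective hab
  rw [h1]
  unfold fG
  refine Finset.sum_le_sum_of_subset_of_nonneg ?_ fun x _ _ => h0 x
  intro x hx
  obtain ⟨v, hv, rfl⟩ := Finset.mem_image.1 hx
  exact mem_bx.2 (h v hv)

theorem VB_mono {G : Vx d → ℝ} (h0 : ∀ x, 0 ≤ G x) {m n : ℕ} (h : m ≤ n) : fG G m ≤ fG G n :=
  Finset.sum_le_sum_of_subset_of_nonneg (bx_mono h) fun x _ _ => h0 x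

/-- the factor -/
noncomputable def VB_k (d : ℕ) (δ : ℝ) (s t : ℕ) : ℝ :=
  if s < t then 1 + 4 * δ else if t < s then δ else 2 * 4 ^ (d + 1)

theorem VB_k_nonneg {δ : ℝ} (hδ : 0 < δ) (s t : ℕ) : 0 ≤ VB_k d δ s t := by
  unfold VB_k
  split_ifs <;> positivity

theorem VB_bound (G : Vx d → ℝ) (h0 : ∀ x, 0 ≤ G x) {δ : ℝ} (hδ : 0 < δ) (hδ1 : δ ≤ 1 / 2)
    {l L : ℕ → ℕ} (h : Sca G δ l L) (s t : ℕ) {u : Vx d} (hu : u ∈ An d l L s) :
    ∑ v ∈ An d l L t, G (v - u) ≤ VB_k d δ s t * (fG G (L t) - fG G (l t)) := by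
  obtain ⟨hu1, hu2⟩ := (VB_mem l L s u).1 hu
  have hch := VB_ch h t
  have hpos := VB_chpos hδ1 h t
  have hpL := h.pos t
  unfold VB_k
  rcases lt_trichotomy s t with hst | hst | hst
  · rw [if_pos hst]
    obtain ⟨r, rfl⟩ : ∃ r, t = r + 1 := ⟨t - 1, by omega⟩
    have h1 : ∑ v ∈ An d l L (r + 1), G (v - u) ≤ fG G (L (r + 1) + L r) := by
      refine VB_trans h0 _ u _ fun v hv => ?_
      have hv2 := ((VB_mem l L (r + 1) v).1 hv).2
      have h2 := nm_sub v u
      have h3 : L s ≤ L r := VB_LL h (by omega)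
      omega
    have h2 := h.reg r
    have h3 : (1 + δ) * fG G (L (r + 1)) ≤ (1 + 4 * δ) * ((1 - δ) * fG G (L (r + 1))) := by
      have h4 : (1 + δ) ≤ (1 + 4 * δ) * (1 - δ) := by nlinarith
      have h5 := mul_le_mul_of_nonneg_right h4 hpL.le
      linarith
    have h4 := mul_le_mul_of_nonneg_left hch (by linarith : (0 : ℝ) ≤ 1 + 4 * δ)
    linarith
  · subst hst
    rw [if_neg (lt_irrefl _), if_neg (lt_irrefl _)]
    have h1 : ∑ v ∈ An d l L s, G (v - u) ≤ fG G (2 * L s) := by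
      refine VB_trans h0 _ u _ fun v hv => ?_
      have hv2 := ((VB_mem l L s v).1 hv).2
      have h2 := nm_sub v u
      omega
    have h2 := h.dbl s
    have h3 : fG G (L s) ≤ 2 * (fG G (L s) - fG G (l s)) := by
      have h4 : 1 / 2 * fG G (L s) ≤ (1 - δ) * fG G (L s) :=
        mul_le_mul_of_nonneg_right (by linarith) hpL.le
      linarith
    have h4 : (0 : ℝ) ≤ 4 ^ (d + 1) := by positivity
    have h5 := mul_le_mul_of_nonneg_left h3 h4
    linarith
  · rw [if_neg (by omega), if_pos hst]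
    have hb : (0 : ℝ) < ((bx d (L t)).card : ℝ) := by
      have h1 : (0 : Vx d) ∈ bx d (L t) := mem_bx.2 (by rw [nm_zero]; exact Nat.zero_le _)
      exact_mod_cast Finset.card_pos.2 ⟨_, h1⟩
    have h1 : ∀ v ∈ An d l L t, G (v - u) ≤
        δ * (fG G (L t) - fG G (l t)) / ((bx d (L t)).card : ℝ) := by
      intro v hv
      rw [le_div_iff₀ hb]
      refine h.far t (v - u) ?_
      have hv2 := ((VB_mem l L t v).1 hv).2
      have h2 : l (t + 1) ≤ l s := VB_l h hst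
      have h3 : nm u ≤ nm (v - u) + nm v := by
        have h4 := nm_sub v (v - u)
        rw [sub_sub_cancel] at h4
        omega
      omega
    refine (Finset.sum_le_sum h1).trans ?_
    rw [Finset.sum_const, nsmul_eq_mul]
    have h2 : ((An d l L t).card : ℝ) ≤ ((bx d (L t)).card : ℝ) := by
      have h3 : An d l L t ⊆ bx d (L t) := Finset.sdiff_subset
      exact_mod_cast Finset.card_le_card h3
    have h3 : 0 ≤ δ * (fG G (L t) - fG G (l t)) / ((bx d (L t)).card : ℝ) := by positivity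
    refine (mul_le_mul_of_nonneg_right h2 h3).trans (le_of_eq ?_)
    rw [mul_div_cancel₀ _ hb.ne']

theorem VB_ksum {δ : ℝ} (S : Finset ℕ) :
    ∑ s ∈ S, ∑ t ∈ S, VB_k d δ s t ≤
      (S.card : ℝ) ^ 2 * ((1 / 2) * (1 + 5 * δ)) + (S.card : ℝ) * (2 * 4 ^ (d + 1)) +
        (S.card : ℝ) * (|1 + 5 * δ| / 2 - (1 + 5 * δ) / 2) := by
  have h1 : ∑ s ∈ S, ∑ t ∈ S, VB_k d δ s t = ∑ s ∈ S, ∑ t ∈ S, VB_k d δ t s :=
    Finset.sum_comm
  have h2 : ∑ s ∈ S, ∑ t ∈ S, VB_k d δ s t =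
      (1 / 2) * ∑ s ∈ S, ∑ t ∈ S, (VB_k d δ s t + VB_k d δ t s) := by
    simp only [Finset.sum_add_distrib]
    rw [← h1]
    ring
  have h3 : ∀ s t : ℕ, VB_k d δ s t + VB_k d δ t s ≤
      (1 + 5 * δ) + if s = t then 4 * 4 ^ (d + 1) + (|1 + 5 * δ| - (1 + 5 * δ)) else 0 := by
    intro s t
    unfold VB_k
    rcases lt_trichotomy s t with h | h | h
    · rw [if_pos h, if_neg (by omega), if_pos h, if_neg h.ne]
      linarith
    · subst h
      rw [if_neg (lt_irrefl _), if_neg (lt_irrefl _), if_pos rfl]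
      have := abs_nonneg (1 + 5 * δ)
      linarith
    · rw [if_neg (by omega), if_pos h, if_pos h, if_neg h.ne']
      linarith
  rw [h2]
  have h4 : ∑ s ∈ S, ∑ t ∈ S, (VB_k d δ s t + VB_k d δ t s) ≤
      ∑ s ∈ S, ∑ t ∈ S, ((1 + 5 * δ) +
        if s = t then 4 * 4 ^ (d + 1) + (|1 + 5 * δ| - (1 + 5 * δ)) else 0) :=
    Finset.sum_le_sum fun s _ => Finset.sum_le_sum fun t _ => h3 s t
  have h5 : ∑ s ∈ S, ∑ t ∈ S, ((1 + 5 * δ) +
        if s = t then 4 * 4 ^ (d + 1) + (|1 + 5 * δ| - (1 + 5 * δ)) else 0) =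
      (S.card : ℝ) ^ 2 * (1 + 5 * δ) +
        (S.card : ℝ) * (4 * 4 ^ (d + 1) + (|1 + 5 * δ| - (1 + 5 * δ))) := by
    simp only [Finset.sum_add_distrib, Finset.sum_const, nsmul_eq_mul, Finset.sum_ite_eq]
    rw [Finset.sum_congr rfl fun s hs => if_pos hs, Finset.sum_const, nsmul_eq_mul]
    ring
  rw [h5] at h4
  linarith

theorem beS_nonneg (G : Vx d → ℝ) (h0 : ∀ x, 0 ≤ G x) {δ : ℝ} (hδ : 0 < δ) (hδ1 : δ ≤ 1 / 2)
    {l L : ℕ → ℕ} (h : Sca G δ l L) (S : Finset ℕ) (u : Vx d) : 0 ≤ beS G l L S u := by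
  unfold beS
  refine Finset.sum_nonneg fun t _ => ?_
  split_ifs
  · have := VB_chpos hδ1 h t
    positivity
  · exact le_rfl

theorem beS_sum (G : Vx d → ℝ) (h0 : ∀ x, 0 ≤ G x) {δ : ℝ} (hδ : 0 < δ) (hδ1 : δ ≤ 1 / 2)
    {l L : ℕ → ℕ} (h : Sca G δ l L) (S : Finset ℕ) (hS : 1 ≤ S.card) :
    ∑ u ∈ BsS d l L S, beS G l L S u * G u = 1 := by
  have hT : (0 : ℝ) < (S.card : ℝ) := by exact_mod_cast hS
  unfold beS
  rw [VB_sum]
  have h1 : ∀ t ∈ S, 1 / ((S.card : ℝ) * (fG G (L t) - fG G (l t))) * ∑ u ∈ An d l L t, G u =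
      1 / (S.card : ℝ) := by
    intro t _
    rw [VB_An_sum h]
    have := (VB_chpos hδ1 h t).ne'
    field_simp
  rw [Finset.sum_congr rfl h1, Finset.sum_const, nsmul_eq_mul]
  field_simp

theorem beS_double (G : Vx d → ℝ) (h0 : ∀ x, 0 ≤ G x) {δ : ℝ} (hδ : 0 < δ) (hδ1 : δ ≤ 1 / 2)
    {l L : ℕ → ℕ} (h : Sca G δ l L) (S : Finset ℕ) (hS : 1 ≤ S.card) :
    ∑ u ∈ BsS d l L S, ∑ v ∈ BsS d l L S, beS G l L S u * beS G l L S v * (G (v - u) * G u) ≤
      (1 / 2) * (1 + 5 * δ) + 2 * 4 ^ (d + 1) / (S.card : ℝ) := by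
  have hT : (0 : ℝ) < (S.card : ℝ) := by exact_mod_cast hS
  obtain ⟨c, hc⟩ : ∃ c : ℕ → ℝ, c = fun t => 1 / ((S.card : ℝ) * (fG G (L t) - fG G (l t))) :=
    ⟨_, rfl⟩
  have hbe : ∀ u, beS G l L S u = ∑ t ∈ S, (if u ∈ An d l L t then c t else 0) := by
    intro u
    rw [hc]
    rfl
  have hc0 : ∀ t, 0 ≤ c t := by
    intro t
    rw [hc]
    have := VB_chpos hδ1 h t
    positivity
  have hcc : ∀ t, c t * (fG G (L t) - fG G (l t)) = 1 / (S.card : ℝ) := by
    intro t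
    rw [hc]
    have := (VB_chpos hδ1 h t).ne'
    field_simp
  have h1 : ∑ u ∈ BsS d l L S, ∑ v ∈ BsS d l L S,
      beS G l L S u * beS G l L S v * (G (v - u) * G u) =
      ∑ s ∈ S, c s * ∑ u ∈ An d l L s, (G u * ∑ t ∈ S, c t * ∑ v ∈ An d l L t, G (v - u)) := by
    rw [← VB_sum]
    refine Finset.sum_congr rfl fun u _ => ?_
    rw [← VB_sum, ← hbe u, Finset.mul_sum, Finset.mul_sum]
    refine Finset.sum_congr rfl fun v _ => ?_
    rw [← hbe v]
    ring
  rw [h1]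
  have h2 : ∀ s ∈ S, c s * ∑ u ∈ An d l L s, (G u * ∑ t ∈ S, c t * ∑ v ∈ An d l L t, G (v - u)) ≤
      ∑ t ∈ S, 1 / (S.card : ℝ) * (1 / (S.card : ℝ)) * VB_k d δ s t := by
    intro s _
    have h3 : ∀ u ∈ An d l L s, G u * ∑ t ∈ S, c t * ∑ v ∈ An d l L t, G (v - u) ≤
        G u * ∑ t ∈ S, 1 / (S.card : ℝ) * VB_k d δ s t := by
      intro u hu
      refine mul_le_mul_of_nonneg_left (Finset.sum_le_sum fun t _ => ?_) (h0 u)
      refine (mul_le_mul_of_nonneg_left (VB_bound G h0 hδ hδ1 h s t hu) (hc0 t)).trans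
        (le_of_eq ?_)
      rw [← hcc t]
      ring
    refine (mul_le_mul_of_nonneg_left (Finset.sum_le_sum h3) (hc0 s)).trans (le_of_eq ?_)
    rw [← Finset.sum_mul, VB_An_sum h, ← mul_assoc, hcc, Finset.mul_sum]
    refine Finset.sum_congr rfl fun t _ => by ring
  refine (Finset.sum_le_sum h2).trans ?_
  simp only [← Finset.mul_sum]
  have h5 := VB_ksum (d := d) (δ := δ) S
  rw [abs_of_pos (by linarith : 0 < 1 + 5 * δ)] at h5
  have h6 : 0 ≤ 1 / (S.card : ℝ) * (1 / (S.card : ℝ)) := by positivity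
  refine (mul_le_mul_of_nonneg_left h5 h6).trans (le_of_eq ?_)
  field_simp
  ring

end H82.IC

end S_H82_IC_VB

section S_H82_IC_HK

/-!
# HK: FKG and Harnack type bounds for the one arm events, rarity of two classes

* `phiB_fkg`: `fkE_fkg` through `phiB_self` (indicators of increasing events composed with `ext false N N`, which is monotone, are monotone).
* `lim_fkg`: limit of `phiB_fkg` (the intersection of local events is local).
* `harnack_N`: `K1 = max_{z ∈ bx m} 1 / phiB β m false (cnB m 0 z)`, positive since `cnB m 0 z ⊇ up (bE m)` (`box_conn`) and `phiB β m false (up (bE m)) > 0` for `β > 0` (positive weight `fkw_pos`).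
  For `N ≥ m`: `phiB N false (arm n z) * phiB N false (cnB m 0 z) ≤ phiB N false (arm n z ∩ cnB m 0 z) ≤ phiB N false (arm n 0)` and
  `phiB N false (cnB m 0 z) ≥ phiB m false (cnB m 0 z)` (`phiB_free_mono`).
* `harnack_lim`: the limit `N → ∞` for `m ≤ n` (`arm n z` is local: `lcl_arm`).
* `rare`: for `n ≥ m`, by `rrd_le`, `free_le`, `harnack_lim` (for `z`) and `arm_le` + `arm_anti` (for `z'`: `μ (arm n z') ≤ μ (arm (n - m) 0)`):
  `rrd d β m n N ≤ (4/(1-t))^{|bE m|} |bx m|^2 K1 μ(arm n 0) μ(arm (n-m) 0)` and the last factor tends to `0` (`tendsto_arm`, `hp`).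
-/

set_option autoImplicit false

open Finset MeasureTheory Filter Topology

namespace H82.IC

variable {d : ℕ}

private theorem HK_ext_mono (N : ℕ) {ω ω' : Finset ↥(bE d N)} (h : ω ⊆ ω') (e : Ed d)
    (he : ext false N N ω e = true) : ext false N N ω' e = true := by
  unfold ext glue at he ⊢
  by_cases h1 : e ∈ bE d N
  · rw [if_pos h1] at he ⊢
    have h2 : e ∈ vl ω := of_decide_eq_true he
    exact decide_eq_true (Finset.map_subset_map.2 h h2)
  · rw [if_neg h1] at he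
    exact absurd he Bool.false_ne_true

private theorem HK_mono (N : ℕ) {X : Set (Cf d)} (hX : Inc X) :
    Monotone (fun ω : Finset ↥(bE d N) => ind (ext false N N ω ∈ X)) := by
  intro ω ω' h
  exact ind_mono fun hω => hX _ _ (HK_ext_mono N h) hω

private theorem HK_pos {β : ℝ} (hβ : 0 < β) (m : ℕ) :
    0 < phiB β m false (up (bE d m) : Set (Cf d)) := by
  unfold phiB phiG
  have h1 : ∀ ω, 0 < fkw β (bx d m) (bE d m) (fun _ => false) ω := fkw_pos hβ _ _ _
  have hmem : bE d m ∈ (bE d m).powerset := Finset.mem_powerset_self _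
  refine div_pos ?_ (Finset.sum_pos (fun ω _ => h1 ω) ⟨_, hmem⟩)
  refine Finset.sum_pos' (fun ω _ => mul_nonneg (h1 ω).le (ind_nonneg _)) ⟨_, hmem, ?_⟩
  rw [ind_true]
  · rw [mul_one]
    exact h1 _
  · intro e he
    unfold glue
    rw [if_pos he]
    exact decide_eq_true he

theorem phiB_fkg {β : ℝ} (hβ : 0 ≤ β) (N : ℕ) {X Y : Set (Cf d)} (hX : Inc X) (hY : Inc Y) :
    phiB β N false X * phiB β N false Y ≤ phiB β N false (X ∩ Y) := by
  rw [phiB_self hβ N X, phiB_self hβ N Y, phiB_self hβ N (X ∩ Y)]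
  have h := fkE_fkg (GN d N) (T01_tanh β hβ) (f := fun ω => ind (ext false N N ω ∈ X))
    (g := fun ω => ind (ext false N N ω ∈ Y)) (fun _ => ind_nonneg _) (fun _ => ind_nonneg _)
    (HK_mono N hX) (HK_mono N hY)
  have e : (fun ω : Finset ↥(bE d N) => ind (ext false N N ω ∈ X ∩ Y)) =
      fun ω => ind (ext false N N ω ∈ X) * ind (ext false N N ω ∈ Y) := by
    funext ω
    rw [← ind_and]
    rfl
  rw [e]
  exact h

private theorem HK_harnack {β : ℝ} (hβ : 0 < β) (m N : ℕ) (hN : m ≤ N) (n : ℕ) (z : Vx d)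
    (hz : nm z ≤ m) : phiB β N false (arm n z) ≤
      (1 / phiB β m false (up (bE d m) : Set (Cf d))) * phiB β N false (arm n (0 : Vx d)) := by
  have hp := HK_pos (d := d) hβ m
  have h1 : phiB β m false (up (bE d m) : Set (Cf d)) ≤ phiB β N false (cnB m (0 : Vx d) z) := by
    refine le_trans (phiB_mono_set hβ.le m false ?_) (phiB_free_mono hβ.le hN (inc_cnB m 0 z))
    intro ω hω
    refine conn_mono (Zl d) ?_ (box_conn (u := (0 : Vx d)) (v := z) (n := m)
      (by rw [nm_zero]; exact Nat.zero_le _) hz)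
    intro e he
    exact ⟨hω e he, he⟩
  have h2 := phiB_fkg hβ.le N (inc_arm n z) (inc_cnB m (0 : Vx d) z)
  have h3 : phiB β N false (arm n z ∩ cnB m (0 : Vx d) z) ≤ phiB β N false (arm n (0 : Vx d)) := by
    refine phiB_mono_set hβ.le N false ?_
    rintro ω ⟨⟨y, hy, hyc⟩, hc⟩
    exact ⟨y, hy, conn_trans (Zl d) (conn_mono (Zl d) Set.inter_subset_left hc) hyc⟩
  have h4 : phiB β N false (arm n z) * phiB β m false (up (bE d m) : Set (Cf d)) ≤
      phiB β N false (arm n z) * phiB β N false (cnB m (0 : Vx d) z) :=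
    mul_le_mul_of_nonneg_left h1 (phiB_nonneg hβ.le N false _)
  rw [one_div, inv_mul_eq_div, le_div_iff₀ hp]
  linarith

theorem lim_fkg {β : ℝ} (hβ : 0 ≤ β) {μ : Measure (Cf d)} (hμ : IsLim β false μ)
    {X Y : Set (Cf d)} (hX : Inc X) (hY : Inc Y) (hX' : Lcl X) (hY' : Lcl Y) :
    μ.real X * μ.real Y ≤ μ.real (X ∩ Y) := by
  exact le_of_tendsto_of_tendsto' ((hμ.2 X hX').mul (hμ.2 Y hY')) (hμ.2 _ (lcl_inter hX' hY'))
    fun n => phiB_fkg hβ n hX hY

theorem harnack_N (hd : 1 ≤ d) {β : ℝ} (hβ : 0 < β) (m : ℕ) :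
    ∃ K1 : ℝ, 0 < K1 ∧ ∀ N, m ≤ N → ∀ n : ℕ, ∀ z : Vx d, nm z ≤ m →
      phiB β N false (arm n z) ≤ K1 * phiB β N false (arm n (0 : Vx d)) := by
  refine ⟨1 / phiB β m false (up (bE d m) : Set (Cf d)), ?_, ?_⟩
  · have := HK_pos (d := d) hβ m
    positivity
  · intro N hN n z hz
    exact HK_harnack hβ m N hN n z hz

theorem harnack_lim (hd : 1 ≤ d) {β : ℝ} (hβ : 0 < β) {μ : Measure (Cf d)} (hμ : IsLim β false μ)
    (m : ℕ) :
    ∃ K1 : ℝ, 0 < K1 ∧ ∀ n, m ≤ n → ∀ z : Vx d, nm z ≤ m →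
      μ.real (arm n z) ≤ K1 * μ.real (arm n (0 : Vx d)) := by
  obtain ⟨K1, hK1, hK⟩ := harnack_N hd hβ m
  refine ⟨K1, hK1, fun n hn z hz => ?_⟩
  have h1 := hμ.2 _ (lcl_arm hd (hz.trans hn))
  have h2 := hμ.2 _ (lcl_arm hd (n := n) (u := (0 : Vx d)) (by rw [nm_zero]; exact Nat.zero_le _))
  refine le_of_tendsto_of_tendsto h1 (h2.const_mul K1) ?_
  filter_upwards [eventually_ge_atTop m] with N hN
  exact hK N hN n z hz

theorem rare (hd : 1 ≤ d) {β : ℝ} (hβ : 0 < β) {μ : Measure (Cf d)} (hμ : IsLim β false μ)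
    (hp : μ.real (perc d) = 0) (m : ℕ) (ε : ℝ) (hε : 0 < ε) :
    ∃ n0 : ℕ, ∀ n, n0 ≤ n → ∀ N, m ≤ N → rrd d β m n N ≤ ε * μ.real (arm n (0 : Vx d)) := by
  have := hμ.1
  obtain ⟨K1, hK1, hK⟩ := harnack_lim hd hβ hμ m
  have ht : 0 < (1 - Real.tanh β) / 4 := by
    have := Real.tanh_lt_one β
    linarith
  obtain ⟨A, hA, hA0⟩ : ∃ A : ℝ, A = ((1 - Real.tanh β) / 4) ^ (bE d m).card ∧ 0 < A :=
    ⟨_, rfl, pow_pos ht _⟩
  obtain ⟨B, hB, hB0⟩ : ∃ B : ℝ, B = ((bx d m).card : ℝ) * ((bx d m).card : ℝ) ∧ 0 ≤ B :=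
    ⟨_, rfl, by positivity⟩
  have hlim := tendsto_arm hd (μ := μ)
  rw [hp] at hlim
  have hε' : 0 < A * ε / (B * K1 + 1) := by positivity
  obtain ⟨n1, hn1⟩ := eventually_atTop.1 (hlim.eventually (gt_mem_nhds hε'))
  refine ⟨n1 + m, fun n hn N hN => ?_⟩
  have hmn : m ≤ n := by omega
  obtain ⟨-, h2⟩ := rrd_le hβ.le (d := d) (m := m) (n := n) (N := N) hN
  rw [← hA] at h2
  have hsmall : μ.real (arm (n - m) (0 : Vx d)) < A * ε / (B * K1 + 1) := hn1 (n - m) (by omega)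
  have ha0 : 0 ≤ μ.real (arm n (0 : Vx d)) := measureReal_nonneg
  have ha1 : 0 ≤ μ.real (arm (n - m) (0 : Vx d)) := measureReal_nonneg
  have hz1 : ∀ z ∈ bx d m, phiB β N false (arm n z) ≤ K1 * μ.real (arm n (0 : Vx d)) := by
    intro z hz
    have hz' : nm z ≤ m := mem_bx.1 hz
    exact (free_le hβ.le hμ N (inc_arm n z) (lcl_arm hd (hz'.trans hmn))).trans (hK n hmn z hz')
  have hz2 : ∀ z ∈ bx d m, phiB β N false (arm n z) ≤ μ.real (arm (n - m) (0 : Vx d)) := by
    intro z hz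
    have hz' : nm z ≤ m := mem_bx.1 hz
    refine (free_le hβ.le hμ N (inc_arm n z) (lcl_arm hd (hz'.trans hmn))).trans ?_
    refine (arm_le hd hβ.le hμ (hz'.trans hmn)).trans ?_
    exact measureReal_mono (arm_anti hd (by omega) (by rw [nm_zero]; exact Nat.zero_le _))
  have hsum : ∑ z ∈ bx d m, ∑ z' ∈ bx d m, phiB β N false (arm n z) * phiB β N false (arm n z') ≤
      B * ((K1 * μ.real (arm n (0 : Vx d))) * μ.real (arm (n - m) (0 : Vx d))) := by
    calc ∑ z ∈ bx d m, ∑ z' ∈ bx d m, phiB β N false (arm n z) * phiB β N false (arm n z')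
        ≤ ∑ z ∈ bx d m, ∑ z' ∈ bx d m,
          ((K1 * μ.real (arm n (0 : Vx d))) * μ.real (arm (n - m) (0 : Vx d))) := by
          refine Finset.sum_le_sum fun z hz => Finset.sum_le_sum fun z' hz' => ?_
          exact mul_le_mul (hz1 z hz) (hz2 z' hz') (phiB_nonneg hβ.le N false _) (by positivity)
      _ = B * ((K1 * μ.real (arm n (0 : Vx d))) * μ.real (arm (n - m) (0 : Vx d))) := by
          rw [Finset.sum_const, Finset.sum_const, nsmul_eq_mul, nsmul_eq_mul, hB]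
          ring
  have h3 : A * rrd d β m n N ≤
      μ.real (arm n (0 : Vx d)) * ((B * K1) * μ.real (arm (n - m) (0 : Vx d))) := by
    calc _ ≤ _ := h2
      _ ≤ _ := hsum
      _ = _ := by ring
  have h4 : (B * K1) * μ.real (arm (n - m) (0 : Vx d)) ≤ A * ε := by
    have h5 : (B * K1) * μ.real (arm (n - m) (0 : Vx d)) ≤
        (B * K1 + 1) * (A * ε / (B * K1 + 1)) := by
      refine mul_le_mul (by linarith) hsmall.le ha1 (by positivity)
    have h6 : (B * K1 + 1) * (A * ε / (B * K1 + 1)) = A * ε := by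
      have : B * K1 + 1 ≠ 0 := by positivity
      field_simp
    linarith
  have h5 : A * rrd d β m n N ≤ A * (ε * μ.real (arm n (0 : Vx d))) := by
    calc _ ≤ _ := h3
      _ ≤ μ.real (arm n (0 : Vx d)) * (A * ε) := mul_le_mul_of_nonneg_left h4 ha0
      _ = _ := by ring
  exact le_of_mul_le_mul_left h5 hA0

end H82.IC

end S_H82_IC_HK

section S_H82_IC_BKB

/-!
# BKB: Burton-Keane in a box of the lattice

`til r x = {z | nm (z - x) ≤ r}`.  `Tri S r x` (for a set `S` of open edges): there are `v1 v2 v3 ∈ til r x` whose clusters in `S \ ins (til r x)` are infinite and pairwise not connected in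
`S \ ins (til r x)`.
Let `q z = x` if `z ∈ til r x` for the (unique) `x ∈ X`, `q z = z` if `z` is in no tile; `Γ'` the graph on the edges `↥(bE d n)` with ends `q (s e)`, `q (r e)` (contraction of the tiles), `ω'` the finset of the
edges of `bE n` in `S`.
* Lifting lemma: let `P ⊆ bE n` be a set of edges and let `X' ⊆ X` be such that for every `x ∈ X'` all edges of `ins (til r x)` are in `P`, and no edge of `P` touches a tile `til r x` with `x ∈ X \ X'`.  Then for
  `z, w` not in any tile: `Conn Γ' P (q z) (q w)` implies `Conn (Zl d) P z w` (induction on the path in `Γ'`: if `q (r e) = q (s e')` then `r e = s e'` or both are in one tile `til r x`, `x ∈ X'`, which is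
  connected inside by edges of `P`: `box_conn` translated).
* Conversely `Conn (Zl d) P z w` implies `Conn Γ' P (q z) (q w)` (map the path).
Apply `bk_finite` to `Γ'`, `ω'`, `S := bdry d n`, `D := X`.  Centres are not in `bdry n` (`nm x < n`).  For `x ∈ X` let `v_j` be as in `Tri`; the infinite cluster of `v_j` in `S \ ins (til r x)` leaves `Λ_n`, so
`exit_box` gives `b_j ∈ bdry n` with `v_j ↔ b_j` in `(S \ ins (til r x)) ∩ bE n`.  So `Conn Γ' ω' x b_j` (`q v_j = x`, `q b_j = b_j` since tiles are inside `Λ_{n-1}`).  If `b_1, b_2` were connected in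
`Γ'` by edges of `ω' \ tch' {x}` (= edges of `S ∩ bE n` not touching `til r x`), then by the lifting lemma (`X' = X \ {x}`, tiles are disjoint so the inner edges of the others do not touch `til r x`) they would be
connected in `S ∩ bE n \ tch (til r x) ⊆ S \ ins (til r x)`, and so `v_1 ↔ v_2` there, contradiction.
-/

set_option autoImplicit false

open Finset

namespace H82.IC

variable {d : ℕ}

/-- tile of radius `r` around `x`. -/
def til {d : ℕ} (r : ℕ) (x : Vx d) : Set (Vx d) := {z | nm (z - x) ≤ r}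

/-- three infinite branches at the tile. -/
def Tri {d : ℕ} (S : Set (Ed d)) (r : ℕ) (x : Vx d) : Prop :=
  ∃ v1 ∈ til r x, ∃ v2 ∈ til r x, ∃ v3 ∈ til r x,
    ((Zl d).cl (S \ (Zl d).ins (til r x)) v1).Infinite ∧
    ((Zl d).cl (S \ (Zl d).ins (til r x)) v2).Infinite ∧
    ((Zl d).cl (S \ (Zl d).ins (til r x)) v3).Infinite ∧
    ¬ (Zl d).Conn (S \ (Zl d).ins (til r x)) v1 v2 ∧
    ¬ (Zl d).Conn (S \ (Zl d).ins (til r x)) v1 v3 ∧
    ¬ (Zl d).Conn (S \ (Zl d).ins (til r x)) v2 v3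

theorem BKB_til_self (r : ℕ) (x : Vx d) : x ∈ til r x := by
  change nm (x - x) ≤ r
  rw [sub_self, nm_zero]
  exact Nat.zero_le r

theorem BKB_til_nm {r : ℕ} {x z : Vx d} (h : z ∈ til r x) : nm z ≤ nm x + r := by
  have h1 : nm (z - x) ≤ r := h
  have h2 := nm_add (z - x) x
  rw [sub_add_cancel] at h2
  omega

theorem BKB_tile_conn {r : ℕ} {x a b : Vx d} (ha : a ∈ til r x) (hb : b ∈ til r x) :
    (Zl d).Conn ((Zl d).ins (til r x)) a b := by
  have h1 : (Zl d).Conn (bE d r : Set (Ed d)) (a - x) (b - x) := box_conn ha hb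
  have key : ∀ u v : Vx d, (Zl d).Conn (bE d r : Set (Ed d)) u v →
      (Zl d).Conn ((Zl d).ins (til r x)) (u + x) (v + x) := by
    intro u v h
    induction h with
    | refl => exact Relation.ReflTransGen.refl
    | tail _ h2 ih =>
      refine Relation.ReflTransGen.tail ih ?_
      obtain ⟨e, he, h3⟩ := h2
      have h4 := mem_bE.1 (Finset.mem_coe.1 he)
      have hs : (Zl d).s ((e.1 + x, e.2) : Ed d) = (Zl d).s e + x := rfl
      have hr : (Zl d).r ((e.1 + x, e.2) : Ed d) = (Zl d).r e + x := by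
        change e.1 + x + Pi.single e.2 1 = e.1 + Pi.single e.2 1 + x
        rw [add_right_comm]
      refine ⟨(e.1 + x, e.2), ⟨?_, ?_⟩, ?_⟩
      · rw [hs]
        change nm ((Zl d).s e + x - x) ≤ r
        rw [add_sub_cancel_right]
        exact h4.1
      · rw [hr]
        change nm ((Zl d).r e + x - x) ≤ r
        rw [add_sub_cancel_right]
        exact h4.2
      · rw [hs, hr]
        rcases h3 with ⟨h5, h6⟩ | ⟨h5, h6⟩
        · exact Or.inl ⟨by rw [h5], by rw [h6]⟩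
        · exact Or.inr ⟨by rw [h5], by rw [h6]⟩
  have h2 := key _ _ h1
  rw [sub_add_cancel, sub_add_cancel] at h2
  exact h2

/-- the contraction of the tiles -/
noncomputable def BKB_q (r : ℕ) (X : Finset (Vx d)) (z : Vx d) : Vx d :=
  open Classical in if h : ∃ x, x ∈ X ∧ z ∈ til r x then h.choose else z

theorem BKB_q1 {r : ℕ} {X : Finset (Vx d)}
    (hX2 : ∀ x ∈ X, ∀ y ∈ X, x ≠ y → Disjoint (til r x) (til r y)) {x z : Vx d} (hx : x ∈ X)
    (hz : z ∈ til r x) : BKB_q r X z = x := by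
  have h : ∃ x, x ∈ X ∧ z ∈ til r x := ⟨x, hx, hz⟩
  unfold BKB_q
  rw [dif_pos h]
  obtain ⟨h1, h2⟩ := h.choose_spec
  by_contra hne
  exact Set.disjoint_left.1 (hX2 _ h1 _ hx hne) h2 hz

theorem BKB_q2 {r : ℕ} {X : Finset (Vx d)} {z : Vx d} (hz : ∀ x ∈ X, z ∉ til r x) :
    BKB_q r X z = z := by
  have h : ¬ ∃ x, x ∈ X ∧ z ∈ til r x := by
    rintro ⟨x, hx, h⟩
    exact hz x hx h
  unfold BKB_q
  rw [dif_neg h]

/-- two points with the same image are equal or in the same tile -/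
theorem BKB_q3 {r : ℕ} {X : Finset (Vx d)}
    (hX2 : ∀ x ∈ X, ∀ y ∈ X, x ≠ y → Disjoint (til r x) (til r y)) {a b : Vx d}
    (hab : BKB_q r X a = BKB_q r X b) : a = b ∨ ∃ x ∈ X, a ∈ til r x ∧ b ∈ til r x := by
  by_cases ha : ∃ x ∈ X, a ∈ til r x
  · obtain ⟨x, hx, hax⟩ := ha
    rw [BKB_q1 hX2 hx hax] at hab
    right
    by_cases hb : ∃ y ∈ X, b ∈ til r y
    · obtain ⟨y, hy, hby⟩ := hb
      rw [BKB_q1 hX2 hy hby] at hab
      rw [← hab] at hby
      exact ⟨x, hx, hax, hby⟩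
    · push Not at hb
      rw [BKB_q2 hb] at hab
      exact absurd (hab ▸ BKB_til_self r x) (hb x hx)
  · push Not at ha
    rw [BKB_q2 ha] at hab
    by_cases hb : ∃ y ∈ X, b ∈ til r y
    · obtain ⟨y, hy, hby⟩ := hb
      rw [BKB_q1 hX2 hy hby] at hab
      exact absurd (hab ▸ BKB_til_self r y) (ha y hy)
    · push Not at hb
      rw [BKB_q2 hb] at hab
      exact Or.inl hab

/-- the contracted graph -/
noncomputable def BKB_G (r n : ℕ) (X : Finset (Vx d)) : Gr (Vx d) ↥(bE d n) where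
  s e := BKB_q r X ((Zl d).s e.1)
  r e := BKB_q r X ((Zl d).r e.1)

theorem BKB_map (r n : ℕ) (X : Finset (Vx d)) (P : Set (Ed d)) (ω : Set ↥(bE d n))
    (hP : ∀ e ∈ P, ∃ h : e ∈ bE d n, (⟨e, h⟩ : ↥(bE d n)) ∈ ω) {z w : Vx d}
    (h : (Zl d).Conn P z w) : (BKB_G r n X).Conn ω (BKB_q r X z) (BKB_q r X w) := by
  induction h with
  | refl => exact Relation.ReflTransGen.refl
  | tail _ h2 ih =>
    refine Relation.ReflTransGen.tail ih ?_
    obtain ⟨e, he, h3⟩ := h2
    obtain ⟨h4, h5⟩ := hP e he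
    refine ⟨⟨e, h4⟩, h5, ?_⟩
    rcases h3 with ⟨h6, h7⟩ | ⟨h6, h7⟩
    · exact Or.inl ⟨congrArg (BKB_q r X) h6, congrArg (BKB_q r X) h7⟩
    · exact Or.inr ⟨congrArg (BKB_q r X) h6, congrArg (BKB_q r X) h7⟩

theorem BKB_inf {n : ℕ} {C : Set (Vx d)} (hC : C.Infinite) : ∃ y ∈ C, n ≤ nm y := by
  by_contra hcon
  push Not at hcon
  apply hC
  refine (bx d n).finite_toSet.subset ?_
  intro y hy
  rw [Finset.mem_coe, mem_bx]
  exact (hcon y hy).le

theorem bk_box (hd : 1 ≤ d) (S : Set (Ed d)) (r n : ℕ) (X : Finset (Vx d))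
    (hX1 : ∀ x ∈ X, nm x + r + 1 ≤ n) (hX2 : ∀ x ∈ X, ∀ y ∈ X, x ≠ y → Disjoint (til r x) (til r y))
    (hX3 : ∀ x ∈ X, (Zl d).ins (til r x) ⊆ S) (hX4 : ∀ x ∈ X, Tri S r x) :
    X.card ≤ (bdry d n).card := by
  classical
  have hbt : ∀ b ∈ bdry d n, ∀ x ∈ X, b ∉ til r x := by
    intro b hb x hx hbx
    have h1 := (mem_bdry hd).1 hb
    have h2 := BKB_til_nm hbx
    have h3 := hX1 x hx
    omega
  let ω' : Finset ↥(bE d n) := univ.filter (fun e => e.1 ∈ S)
  have hω' : ∀ e : ↥(bE d n), e ∈ (ω' : Set ↥(bE d n)) ↔ e.1 ∈ S := by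
    intro e
    rw [Finset.mem_coe, Finset.mem_filter]
    exact ⟨fun h => h.2, fun h => ⟨Finset.mem_univ _, h⟩⟩
  -- the lifting lemma
  have lift : ∀ c ∈ X, ∀ b1 ∈ bdry d n, ∀ b2 ∈ bdry d n,
      (BKB_G r n X).Conn ((ω' : Set ↥(bE d n)) \ (BKB_G r n X).tch {c}) b1 b2 →
      (Zl d).Conn (S \ (Zl d).ins (til r c)) b1 b2 := by
    intro c hc b1 hb1 b2 hb2 hconn
    have L : ∀ a b : Vx d, BKB_q r X a = BKB_q r X b → a ∉ til r c →
        (Zl d).Conn (S \ (Zl d).ins (til r c)) a b := by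
      intro a b hab ha
      rcases BKB_q3 hX2 hab with rfl | ⟨x, hx, hax, hbx⟩
      · exact conn_refl _ _ _
      · refine conn_mono _ ?_ (BKB_tile_conn hax hbx)
        intro e he
        refine ⟨hX3 x hx he, ?_⟩
        rintro ⟨h1, -⟩
        have hxc : x ≠ c := by
          rintro rfl
          exact ha hax
        exact Set.disjoint_left.1 (hX2 x hx c hc hxc) he.1 h1
    have key : ∀ v, (BKB_G r n X).Conn ((ω' : Set ↥(bE d n)) \ (BKB_G r n X).tch {c}) b1 v →
        ∃ a, BKB_q r X a = v ∧ a ∉ til r c ∧ (Zl d).Conn (S \ (Zl d).ins (til r c)) b1 a := by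
      intro v hv
      induction hv with
      | refl => exact ⟨b1, BKB_q2 (hbt b1 hb1), hbt b1 hb1 c hc, conn_refl _ _ _⟩
      | tail _ h2 ih =>
        obtain ⟨a, ha1, ha2, ha3⟩ := ih
        obtain ⟨e, ⟨he1, he2⟩, h3⟩ := h2
        have hs : (Zl d).s e.1 ∉ til r c := fun h => he2 (Or.inl (BKB_q1 hX2 hc h))
        have hr : (Zl d).r e.1 ∉ til r c := fun h => he2 (Or.inr (BKB_q1 hX2 hc h))
        have heS : e.1 ∈ S \ (Zl d).ins (til r c) := ⟨(hω' e).1 he1, fun h => hs h.1⟩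
        have hedge := conn_edge (Zl d) heS
        rcases h3 with ⟨h6, h7⟩ | ⟨h6, h7⟩
        · have h8 : BKB_q r X a = BKB_q r X ((Zl d).s e.1) := ha1.trans h6.symm
          exact ⟨(Zl d).r e.1, h7, hr, conn_trans _ ha3 (conn_trans _ (L _ _ h8 ha2) hedge)⟩
        · have h8 : BKB_q r X a = BKB_q r X ((Zl d).r e.1) := ha1.trans h7.symm
          exact ⟨(Zl d).s e.1, h6, hs,
            conn_trans _ ha3 (conn_trans _ (L _ _ h8 ha2) (conn_symm _ hedge))⟩
    obtain ⟨a, ha1, ha2, ha3⟩ := key b2 hconn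
    have h8 : BKB_q r X a = BKB_q r X b2 := by rw [ha1, BKB_q2 (hbt b2 hb2)]
    exact conn_trans _ ha3 (L _ _ h8 ha2)
  -- the exits
  have exits : ∀ c ∈ X, ∀ v ∈ til r c, ((Zl d).cl (S \ (Zl d).ins (til r c)) v).Infinite →
      ∃ b ∈ bdry d n, (BKB_G r n X).Conn (ω' : Set ↥(bE d n)) c b ∧
        (Zl d).Conn (S \ (Zl d).ins (til r c)) v b := by
    intro c hc v hv hinf
    obtain ⟨y, hy, hny⟩ := BKB_inf (n := n) hinf
    have h1 := BKB_til_nm hv
    have h2 := hX1 c hc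
    obtain ⟨b, hb, hvb⟩ := exit_box hd (by omega) hny hy
    refine ⟨b, hb, ?_, conn_mono _ Set.inter_subset_left hvb⟩
    have h3 := BKB_map r n X ((S \ (Zl d).ins (til r c)) ∩ (bE d n : Set (Ed d)))
      (ω' : Set ↥(bE d n)) (fun e he => ⟨he.2, (hω' _).2 he.1.1⟩) hvb
    rw [BKB_q1 hX2 hc hv, BKB_q2 (hbt b hb)] at h3
    exact h3
  refine bk_finite (BKB_G r n X) ω' (bdry d n) X ?_ ?_
  · intro c hc hcb
    exact hbt c hcb c hc (BKB_til_self r c)
  · intro c hc
    obtain ⟨v1, hv1, v2, hv2, v3, hv3, i1, i2, i3, n12, n13, n23⟩ := hX4 c hc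
    obtain ⟨b1, hb1, c1, d1⟩ := exits c hc v1 hv1 i1
    obtain ⟨b2, hb2, c2, d2⟩ := exits c hc v2 hv2 i2
    obtain ⟨b3, hb3, c3, d3⟩ := exits c hc v3 hv3 i3
    refine ⟨b1, hb1, b2, hb2, b3, hb3, c1, c2, c3, ?_, ?_, ?_⟩
    · intro h
      exact n12 (conn_trans _ d1 (conn_trans _ (lift c hc b1 hb1 b2 hb2 h) (conn_symm _ d2)))
    · intro h
      exact n13 (conn_trans _ d1 (conn_trans _ (lift c hc b1 hb1 b3 hb3 h) (conn_symm _ d3)))
    · intro h
      exact n23 (conn_trans _ d2 (conn_trans _ (lift c hc b2 hb2 b3 hb3 h) (conn_symm _ d3)))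

end H82.IC

end S_H82_IC_BKB

section S_H82_IC_RP2

/-!
# RP2: Gaussian domination

If for every edge `e0` there is a reflection `R : Rfl Γ` for which `e0` is a crossing edge, then `Zh h ≤ Zh 0` for all `h : E → ℝ` (`β > 0`).
Proof.  `Zh` is continuous in `h`, positive, and tends to `0` at infinity: if `|h e| ≥ 2 + K` for some `e` then `(σ - σ' + h e)^2 ≥ K^2` and all factors are `≤ 1`, so `Zh h ≤ 2^|V| exp(-(β/2)K^2)`.
So a maximiser exists (`Continuous.exists_forall_ge'` with `cocompact`, or a compact box).  Among the maximisers choose `h` with the smallest number `n(h)` of edges with `h e ≠ 0`.  Suppose `h e0 ≠ 0`, take `R` with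
`e0` crossing.  `rp`: `(Zh h)^2 ≤ Zh (foldL h) Zh (foldR h)`, both factors `≤ Zh h`, `Zh h > 0`, hence both are equal to `Zh h`: `foldL h` and `foldR h` are maximisers.
Let `a` = number of `e` inside `L` with `h e ≠ 0`, `b` = number of `e` inside `Lᶜ` with `h e ≠ 0`, `c ≥ 1` = number of crossing edges with `h e ≠ 0`: `n(h) = a + b + c`, `n(foldL h) = 2a`,
`n(foldR h) = 2b` (`ta` is a bijection between the edges inside `L` and those inside `Lᶜ`: `keep`, `rev`, `th_L`).  `min(2a, 2b) ≤ a + b < n(h)`, contradiction.  So `h = 0`.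
-/

set_option autoImplicit false

open Finset

namespace H82.IC

variable {V E : Type*} [Fintype V] [DecidableEq V] [Fintype E] [DecidableEq E]

theorem RP2_pos (Γ : Gr V E) (β : ℝ) (h : E → ℝ) : 0 < Γ.Zh β h := by
  unfold Gr.Zh
  exact Finset.sum_pos (fun σ _ => Finset.prod_pos fun e _ => Real.exp_pos _)
    ⟨fun _ => true, Finset.mem_univ _⟩

theorem RP2_cont (Γ : Gr V E) (β : ℝ) : Continuous (fun h : E → ℝ => Γ.Zh β h) := by
  unfold Gr.Zh
  fun_prop

theorem RP2_sp_abs (a b : Bool) : |sp a - sp b| ≤ 2 := by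
  cases a <;> cases b <;> simp [sp] <;> norm_num

theorem RP2_decay (Γ : Gr V E) {β : ℝ} (hβ : 0 < β) {K : ℝ} (hK : 0 ≤ K) (h : E → ℝ)
    (e0 : E) (he : 2 + K ≤ |h e0|) :
    Γ.Zh β h ≤ (Fintype.card (V → Bool) : ℝ) * Real.exp (-(β / 2) * K ^ 2) := by
  unfold Gr.Zh
  have hle1 : ∀ (x : ℝ), Real.exp (-(β / 2) * x ^ 2) ≤ 1 := by
    intro x
    rw [Real.exp_le_one_iff]
    nlinarith [sq_nonneg x, mul_nonneg hβ.le (sq_nonneg x)]
  have hterm : ∀ σ : V → Bool,
      ∏ e, Real.exp (-(β / 2) * (sp (σ (Γ.s e)) - sp (σ (Γ.r e)) + h e) ^ 2)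
        ≤ Real.exp (-(β / 2) * K ^ 2) := by
    intro σ
    rw [← Finset.mul_prod_erase Finset.univ _ (Finset.mem_univ e0)]
    have h1 : Real.exp (-(β / 2) * (sp (σ (Γ.s e0)) - sp (σ (Γ.r e0)) + h e0) ^ 2)
        ≤ Real.exp (-(β / 2) * K ^ 2) := by
      apply Real.exp_le_exp.mpr
      have h2 : K ≤ |sp (σ (Γ.s e0)) - sp (σ (Γ.r e0)) + h e0| := by
        have h3 := RP2_sp_abs (σ (Γ.s e0)) (σ (Γ.r e0))
        have h4 : |h e0| ≤ |sp (σ (Γ.s e0)) - sp (σ (Γ.r e0)) + h e0|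
            + |sp (σ (Γ.s e0)) - sp (σ (Γ.r e0))| := by
          have := abs_sub (sp (σ (Γ.s e0)) - sp (σ (Γ.r e0)) + h e0)
            (sp (σ (Γ.s e0)) - sp (σ (Γ.r e0)))
          simpa using this
        linarith
      have h5 : K ^ 2 ≤ (sp (σ (Γ.s e0)) - sp (σ (Γ.r e0)) + h e0) ^ 2 := by
        rw [← sq_abs (sp (σ (Γ.s e0)) - sp (σ (Γ.r e0)) + h e0)]
        exact pow_le_pow_left₀ hK h2 2
      nlinarith
    have h6 : ∏ e ∈ Finset.univ.erase e0,
        Real.exp (-(β / 2) * (sp (σ (Γ.s e)) - sp (σ (Γ.r e)) + h e) ^ 2) ≤ 1 :=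
      Finset.prod_le_one (fun e _ => (Real.exp_pos _).le) (fun e _ => hle1 _)
    have h7 : 0 ≤ ∏ e ∈ Finset.univ.erase e0,
        Real.exp (-(β / 2) * (sp (σ (Γ.s e)) - sp (σ (Γ.r e)) + h e) ^ 2) :=
      Finset.prod_nonneg (fun e _ => (Real.exp_pos _).le)
    calc _ ≤ Real.exp (-(β / 2) * K ^ 2) * 1 :=
          mul_le_mul h1 h6 h7 (Real.exp_pos _).le
      _ = _ := mul_one _
  calc _ ≤ ∑ _σ : V → Bool, Real.exp (-(β / 2) * K ^ 2) :=
        Finset.sum_le_sum fun σ _ => hterm σ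
    _ = _ := by rw [Finset.sum_const, nsmul_eq_mul, Finset.card_univ]

theorem RP2_exists_max (Γ : Gr V E) {β : ℝ} (hβ : 0 < β) :
    ∃ h : E → ℝ, ∀ h' : E → ℝ, Γ.Zh β h' ≤ Γ.Zh β h := by
  apply (RP2_cont Γ β).exists_forall_ge' (0 : E → ℝ)
  set c : ℝ := Γ.Zh β 0 / (Fintype.card (V → Bool) : ℝ) with hc
  have hcard : (0 : ℝ) < (Fintype.card (V → Bool) : ℝ) := by
    exact_mod_cast Fintype.card_pos
  have hcpos : 0 < c := div_pos (RP2_pos Γ β 0) hcard
  set K : ℝ := Real.sqrt (max 0 (-(2 / β) * Real.log c)) with hKdef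
  have hK : 0 ≤ K := Real.sqrt_nonneg _
  have hK2 : -(2 / β) * Real.log c ≤ K ^ 2 := by
    rw [hKdef, Real.sq_sqrt (le_max_left _ _)]
    exact le_max_right _ _
  have hexp : Real.exp (-(β / 2) * K ^ 2) ≤ c := by
    rw [← Real.le_log_iff_exp_le hcpos] 
    have h1 : (β / 2) * (-(2 / β) * Real.log c) ≤ (β / 2) * K ^ 2 :=
      mul_le_mul_of_nonneg_left hK2 (by positivity)
    have h2 : (β / 2) * (-(2 / β) * Real.log c) = - Real.log c := by
      field_simp
    linarith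
  have hev : ∀ᶠ h : E → ℝ in Filter.cocompact (E → ℝ), 2 + K ≤ ‖h‖ :=
    (tendsto_norm_cocompact_atTop (E := E → ℝ)).eventually_ge_atTop (2 + K)
  filter_upwards [hev] with h hh
  have : ∃ e0, 2 + K ≤ |h e0| := by
    by_contra hcon
    push Not at hcon
    have : ‖h‖ < 2 + K := by
      rw [pi_norm_lt_iff (by linarith)]
      intro e
      rw [Real.norm_eq_abs]
      exact hcon e
    linarith
  obtain ⟨e0, he0⟩ := this
  have h3 := RP2_decay Γ hβ hK h e0 he0
  calc Γ.Zh β h ≤ _ := h3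
    _ ≤ (Fintype.card (V → Bool) : ℝ) * c := mul_le_mul_of_nonneg_left hexp hcard.le
    _ = Γ.Zh β 0 := by rw [hc]; field_simp

section
open Classical in
noncomputable def RP2_nz (h : E → ℝ) : ℕ := (Finset.univ.filter (fun e => h e ≠ 0)).card
end

theorem RP2_inL {Γ : Gr V E} (R : Rfl Γ) (e : E) (h1 : Γ.s e ∉ R.L) (h2 : Γ.r e ∉ R.L) :
    Γ.s (R.ta e) ∈ R.L ∧ Γ.r (R.ta e) ∈ R.L := by
  rcases hos : R.os e with _ | _
  · obtain ⟨a, b⟩ := R.rev e hos
    rw [a, b]
    exact ⟨(R.th_L _).mpr h2, (R.th_L _).mpr h1⟩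
  · obtain ⟨a, b⟩ := R.keep e hos
    rw [a, b]
    exact ⟨(R.th_L _).mpr h1, (R.th_L _).mpr h2⟩

theorem RP2_inR {Γ : Gr V E} (R : Rfl Γ) (e : E) (h1 : Γ.s e ∈ R.L) (h2 : Γ.r e ∈ R.L) :
    Γ.s (R.ta e) ∉ R.L ∧ Γ.r (R.ta e) ∉ R.L := by
  rcases hos : R.os e with _ | _
  · obtain ⟨a, b⟩ := R.rev e hos
    rw [a, b, R.th_L, R.th_L]
    exact ⟨not_not.mpr h2, not_not.mpr h1⟩
  · obtain ⟨a, b⟩ := R.keep e hos
    rw [a, b, R.th_L, R.th_L]
    exact ⟨not_not.mpr h1, not_not.mpr h2⟩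

theorem RP2_count {Γ : Gr V E} (R : Rfl Γ) (h : E → ℝ) (e0 : E) (he : h e0 ≠ 0)
    (hc : ¬ (Γ.s e0 ∈ R.L ↔ Γ.r e0 ∈ R.L)) :
    RP2_nz (R.foldL h) < RP2_nz h ∨ RP2_nz (R.foldR h) < RP2_nz h := by
  classical
  set A : Finset E := Finset.univ.filter (fun e => (Γ.s e ∈ R.L ∧ Γ.r e ∈ R.L) ∧ h e ≠ 0) with hA
  set B : Finset E := Finset.univ.filter (fun e => (Γ.s e ∉ R.L ∧ Γ.r e ∉ R.L) ∧ h e ≠ 0) with hB
  set C : Finset E := Finset.univ.filter (fun e => ¬ (Γ.s e ∈ R.L ↔ Γ.r e ∈ R.L) ∧ h e ≠ 0) with hC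
  have hL : RP2_nz (R.foldL h) ≤ 2 * A.card := by
    have hsub : Finset.univ.filter (fun e => R.foldL h e ≠ 0) ⊆ A ∪ A.image R.ta := by
      intro e hmem
      rw [Finset.mem_filter] at hmem
      have hne := hmem.2
      rw [Finset.mem_union]
      unfold Rfl.foldL at hne
      by_cases c1 : Γ.s e ∈ R.L ∧ Γ.r e ∈ R.L
      · left
        rw [if_pos c1] at hne
        rw [hA, Finset.mem_filter]
        exact ⟨Finset.mem_univ _, c1, hne⟩
      · rw [if_neg c1] at hne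
        by_cases c2 : Γ.s e ∉ R.L ∧ Γ.r e ∉ R.L
        · right
          rw [if_pos c2] at hne
          have hne' : h (R.ta e) ≠ 0 := by
            intro h0
            apply hne
            rw [h0]
            simp
          rw [Finset.mem_image]
          refine ⟨R.ta e, ?_, R.ta_ta e⟩
          rw [hA, Finset.mem_filter]
          exact ⟨Finset.mem_univ _, RP2_inL R e c2.1 c2.2, hne'⟩
        · rw [if_neg c2] at hne
          exact absurd rfl hne
    have h1 := Finset.card_le_card hsub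
    have h2 := Finset.card_union_le A (A.image R.ta)
    have h3 : (A.image R.ta).card ≤ A.card := Finset.card_image_le
    unfold RP2_nz
    have h4 : (Finset.univ.filter (fun e => R.foldL h e ≠ 0)).card ≤ 2 * A.card := by omega
    convert h4
  have hR : RP2_nz (R.foldR h) ≤ 2 * B.card := by
    have hsub : Finset.univ.filter (fun e => R.foldR h e ≠ 0) ⊆ B ∪ B.image R.ta := by
      intro e hmem
      rw [Finset.mem_filter] at hmem
      have hne := hmem.2
      rw [Finset.mem_union]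
      unfold Rfl.foldR at hne
      by_cases c1 : Γ.s e ∉ R.L ∧ Γ.r e ∉ R.L
      · left
        rw [if_pos c1] at hne
        rw [hB, Finset.mem_filter]
        exact ⟨Finset.mem_univ _, c1, hne⟩
      · rw [if_neg c1] at hne
        by_cases c2 : Γ.s e ∈ R.L ∧ Γ.r e ∈ R.L
        · right
          rw [if_pos c2] at hne
          have hne' : h (R.ta e) ≠ 0 := by
            intro h0
            apply hne
            rw [h0]
            simp
          rw [Finset.mem_image]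
          refine ⟨R.ta e, ?_, R.ta_ta e⟩
          rw [hB, Finset.mem_filter]
          exact ⟨Finset.mem_univ _, RP2_inR R e c2.1 c2.2, hne'⟩
        · rw [if_neg c2] at hne
          exact absurd rfl hne
    have h1 := Finset.card_le_card hsub
    have h2 := Finset.card_union_le B (B.image R.ta)
    have h3 : (B.image R.ta).card ≤ B.card := Finset.card_image_le
    unfold RP2_nz
    have h4 : (Finset.univ.filter (fun e => R.foldR h e ≠ 0)).card ≤ 2 * B.card := by omega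
    convert h4
  have hN : A.card + B.card + C.card ≤ RP2_nz h := by
    have hdAB : Disjoint A B := by
      rw [Finset.disjoint_left]
      intro e h1 h2
      rw [hA, Finset.mem_filter] at h1
      rw [hB, Finset.mem_filter] at h2
      exact h2.2.1.1 h1.2.1.1
    have hdABC : Disjoint (A ∪ B) C := by
      rw [Finset.disjoint_left]
      intro e h1 h2
      rw [hC, Finset.mem_filter] at h2
      rw [Finset.mem_union] at h1
      rcases h1 with h1 | h1
      · rw [hA, Finset.mem_filter] at h1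
        exact h2.2.1 ⟨fun _ => h1.2.1.2, fun _ => h1.2.1.1⟩
      · rw [hB, Finset.mem_filter] at h1
        exact h2.2.1 ⟨fun h => absurd h h1.2.1.1, fun h => absurd h h1.2.1.2⟩
    rw [← Finset.card_union_of_disjoint hdAB, ← Finset.card_union_of_disjoint hdABC]
    have hsub : (A ∪ B) ∪ C ⊆ Finset.univ.filter (fun e => h e ≠ 0) := by
      intro e hm
      rw [Finset.mem_filter]
      refine ⟨Finset.mem_univ _, ?_⟩
      rw [Finset.mem_union, Finset.mem_union] at hm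
      rcases hm with (hm | hm) | hm
      · rw [hA, Finset.mem_filter] at hm
        exact hm.2.2
      · rw [hB, Finset.mem_filter] at hm
        exact hm.2.2
      · rw [hC, Finset.mem_filter] at hm
        exact hm.2.2
    have := Finset.card_le_card hsub
    unfold RP2_nz
    convert this
  have hCpos : 0 < C.card := by
    rw [Finset.card_pos]
    refine ⟨e0, ?_⟩
    rw [hC, Finset.mem_filter]
    exact ⟨Finset.mem_univ _, hc, he⟩
  omega

theorem RP2_ind (Γ : Gr V E) {β : ℝ} (hβ : 0 < β)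
    (hR : ∀ e0 : E, ∃ R : Rfl Γ, ¬ (Γ.s e0 ∈ R.L ↔ Γ.r e0 ∈ R.L)) (n : ℕ) :
    ∀ h : E → ℝ, (∀ h' : E → ℝ, Γ.Zh β h' ≤ Γ.Zh β h) → RP2_nz h = n →
      ∀ h' : E → ℝ, Γ.Zh β h' ≤ Γ.Zh β 0 := by
  induction n using Nat.strong_induction_on with
  | _ n ih =>
    intro h hmax hn
    by_cases h0 : h = 0
    · rw [← h0]
      exact hmax
    · obtain ⟨e0, he0⟩ : ∃ e0, h e0 ≠ 0 := by
        by_contra hcon
        push Not at hcon
        exact h0 (funext hcon)
      obtain ⟨R, hRc⟩ := hR e0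
      have hrp := rp Γ R hβ.le h
      have hpos := RP2_pos Γ β h
      have hposL := RP2_pos Γ β (R.foldL h)
      have hposR := RP2_pos Γ β (R.foldR h)
      have hLle := hmax (R.foldL h)
      have hRle := hmax (R.foldR h)
      have hLeq : Γ.Zh β h ≤ Γ.Zh β (R.foldL h) := by
        by_contra hlt
        push Not at hlt
        nlinarith
      have hReq : Γ.Zh β h ≤ Γ.Zh β (R.foldR h) := by
        by_contra hlt
        push Not at hlt
        nlinarith
      rcases RP2_count R h e0 he0 hRc with hlt | hlt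
      · exact ih _ (hn ▸ hlt) (R.foldL h) (fun h' => (hmax h').trans hLeq) rfl
      · exact ih _ (hn ▸ hlt) (R.foldR h) (fun h' => (hmax h').trans hReq) rfl

theorem gaussian_domination (Γ : Gr V E) {β : ℝ} (hβ : 0 < β)
    (hR : ∀ e0 : E, ∃ R : Rfl Γ, ¬ (Γ.s e0 ∈ R.L ↔ Γ.r e0 ∈ R.L)) (h : E → ℝ) :
    Γ.Zh β h ≤ Γ.Zh β 0 := by
  obtain ⟨h1, hmax⟩ := RP2_exists_max Γ hβ
  exact RP2_ind Γ hβ hR _ h1 hmax rfl h

end H82.IC

end S_H82_IC_RP2

section S_H82_IC_FLW2

/-!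
# FLW2: the infrared bound for cube averages on the torus

`n = 2^M`, `M ≥ 1`: `gaussian_domination` applies by `torus_reflections` (`n = 2 * 2^(M-1)`; transport along the equality, or state everything for `2 * m`).
Let `A a = √(IsE ((Sa a)^2))`.  `flow_step`, `infrared`, `isE_minkowski`: `A a ≤ A (update a i (2 a_i)) + √(a_i²/(2 β ∏ a))`.
From the cube of side `2^j` to the cube of side `2^{j+1}` (`j < M`): `d` steps, in each `a_i = 2^j` and all `a_k ∈ {2^j, 2^{j+1}}`, `∏ a ≥ 2^{jd}`, so each error is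
`≤ √(2^{2j - jd}/(2β)) ≤ √(2^{-j}/(2β))` (`d ≥ 3`).  (Induction over the directions: after the directions in a finset `D` of indices, `a = fun k => if k ∈ D then 2^(j+1) else 2^j`.)
Sum over `j' = j, ..., M-1`: `∑ d √(2^{-j'}/(2β)) ≤ d/√(2β) * 2^{-j/2}/(1 - 2^{-1/2}) ≤ 3 d 2^{-j/2}/√β`.  It is convenient to prove by downward induction (or induction on `M - j`)
`A (2^j) ≤ A (2^M) + (d/√(2β)) * ∑_{j' = j}^{M-1} √(2^{-j'})` and to bound the geometric sum by telescoping: `√(2^{-j'}) ≤ (√2/(√2-1)) (√(2^{-j'}) - √(2^{-j'-1}))`.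
-/

set_option autoImplicit false

open Finset

namespace H82.IC

instance neZero_pow2 (M : ℕ) : NeZero (2 ^ M) := ⟨by positivity⟩

theorem FLW2_refl (d n m : ℕ) (hn : n = 2 * m) (hm : 1 ≤ m) (e0 : Te d n) :
    ∃ R : Rfl (Tg d n), ¬ ((Tg d n).s e0 ∈ R.L ↔ (Tg d n).r e0 ∈ R.L) := by
  subst hn
  exact torus_reflections d m hm e0

/-- The square root of the second moment of the box average. -/
noncomputable def FLW2_A (d M : ℕ) (β : ℝ) (a : Fin d → ℕ) : ℝ :=
  Real.sqrt ((Tg d (2 ^ M)).IsE β (fun σ => (Sa a σ) ^ 2))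

theorem FLW2_step {d : ℕ} {β : ℝ} (hβ : 0 < β) (M : ℕ) (hM : 1 ≤ M) (a : Fin d → ℕ)
    (ha : ∀ i, a i ≤ 2 ^ M) (ha1 : ∀ i, 1 ≤ a i) (i : Fin d) (hi : 2 * a i ≤ 2 ^ M) :
    FLW2_A d M β a ≤ FLW2_A d M β (Function.update a i (2 * a i)) +
      Real.sqrt ((a i : ℝ) ^ 2 / (2 * ∏ k, (a k : ℝ)) / β) := by
  obtain ⟨h, h1, h2⟩ := flow_step (n := 2 ^ M) a ha ha1 i hi
  have hGD : ∀ h : Te d (2 ^ M) → ℝ, (Tg d (2 ^ M)).Zh β h ≤ (Tg d (2 ^ M)).Zh β 0 := by
    intro h
    refine gaussian_domination (Tg d (2 ^ M)) hβ (fun e0 => ?_) h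
    refine FLW2_refl d (2 ^ M) (2 ^ (M - 1)) ?_ Nat.one_le_two_pow e0
    rw [← pow_succ']
    congr 1
    omega
  have h3 := infrared (Tg d (2 ^ M)) hβ hGD h
  have h4 := isE_minkowski (Tg d (2 ^ M)) β (Sa (Function.update a i (2 * a i)))
    (fun σ => ∑ e, h e * (sp (σ ((Tg d (2 ^ M)).s e)) - sp (σ ((Tg d (2 ^ M)).r e))))
  have h5 : (fun σ : Tv d (2 ^ M) → Bool => (Sa (Function.update a i (2 * a i)) σ +
      ∑ e, h e * (sp (σ ((Tg d (2 ^ M)).s e)) - sp (σ ((Tg d (2 ^ M)).r e)))) ^ 2) =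
      fun σ => (Sa a σ) ^ 2 := by
    funext σ
    rw [h1]
    ring
  rw [h5] at h4
  refine h4.trans ?_
  refine add_le_add le_rfl (Real.sqrt_le_sqrt (h3.trans ?_))
  exact div_le_div_of_nonneg_right h2 hβ.le

theorem FLW2_dirs {d : ℕ} (hd : 3 ≤ d) {β : ℝ} (hβ : 0 < β) (M j : ℕ) (hj : j + 1 ≤ M)
    (D : Finset (Fin d)) :
    FLW2_A d M β (fun _ => 2 ^ j) ≤
      FLW2_A d M β (fun k => if k ∈ D then 2 ^ (j + 1) else 2 ^ j) +
        D.card * Real.sqrt ((2 ^ j : ℝ)⁻¹ / β / 2) := by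
  have h2j : (2 : ℕ) ^ j ≤ 2 ^ M := Nat.pow_le_pow_right (by norm_num) (by omega)
  have h2j1 : (2 : ℕ) ^ (j + 1) ≤ 2 ^ M := Nat.pow_le_pow_right (by norm_num) hj
  induction D using Finset.induction_on with
  | empty => simp
  | insert i D hi ih =>
    have h1 := FLW2_step hβ M (by omega) (fun k => if k ∈ D then 2 ^ (j + 1) else 2 ^ j)
      (fun k => by
        show (if k ∈ D then 2 ^ (j + 1) else 2 ^ j) ≤ 2 ^ M
        split_ifs
        · exact h2j1
        · exact h2j)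
      (fun k => by
        show 1 ≤ (if k ∈ D then 2 ^ (j + 1) else 2 ^ j)
        split_ifs <;> exact Nat.one_le_two_pow) i
      (by
        show 2 * (if i ∈ D then 2 ^ (j + 1) else 2 ^ j) ≤ 2 ^ M
        rw [if_neg hi, ← pow_succ']
        exact h2j1)
    have h3 : Function.update (fun k => if k ∈ D then 2 ^ (j + 1) else 2 ^ j) i
        (2 * (if i ∈ D then 2 ^ (j + 1) else 2 ^ j)) =
        (fun k => if k ∈ insert i D then 2 ^ (j + 1) else 2 ^ j) := by
      funext k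
      by_cases hk : k = i
      · subst hk
        rw [Function.update_self, if_neg hi, if_pos (Finset.mem_insert_self _ _), ← pow_succ']
      · rw [Function.update_of_ne hk]
        by_cases hkD : k ∈ D
        · rw [if_pos hkD, if_pos (Finset.mem_insert_of_mem hkD)]
        · rw [if_neg hkD, if_neg]
          rw [Finset.mem_insert, not_or]
          exact ⟨hk, hkD⟩
    rw [h3] at h1
    have hp : (0 : ℝ) < 2 ^ j := by positivity
    have h4 : ((2 : ℝ) ^ j) ^ d ≤
        ∏ k : Fin d, ((if k ∈ D then 2 ^ (j + 1) else 2 ^ j : ℕ) : ℝ) := by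
      have h5 : ((2 : ℝ) ^ j) ^ d = ∏ _k : Fin d, (2 : ℝ) ^ j := by
        rw [Finset.prod_const, Finset.card_univ, Fintype.card_fin]
      rw [h5]
      refine Finset.prod_le_prod (fun _ _ => hp.le) (fun k _ => ?_)
      split_ifs
      · push_cast
        exact pow_le_pow_right₀ (by norm_num) (by omega)
      · push_cast
        exact le_rfl
    have h5 : ((2 : ℝ) ^ j) ^ 3 ≤ ((2 : ℝ) ^ j) ^ d :=
      pow_le_pow_right₀ (one_le_pow₀ (by norm_num)) hd
    have h6 : Real.sqrt (((if i ∈ D then 2 ^ (j + 1) else 2 ^ j : ℕ) : ℝ) ^ 2 /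
        (2 * ∏ k : Fin d, ((if k ∈ D then 2 ^ (j + 1) else 2 ^ j : ℕ) : ℝ)) / β) ≤
        Real.sqrt ((2 ^ j : ℝ)⁻¹ / β / 2) := by
      apply Real.sqrt_le_sqrt
      rw [if_neg hi]
      have h7 : (((2 ^ j : ℕ) : ℝ)) = (2 : ℝ) ^ j := by push_cast; rfl
      rw [h7]
      have h8 : ((2 : ℝ) ^ j) ^ 2 /
          (2 * ∏ k : Fin d, ((if k ∈ D then 2 ^ (j + 1) else 2 ^ j : ℕ) : ℝ)) ≤
          ((2 : ℝ) ^ j) ^ 2 / (2 * ((2 : ℝ) ^ j) ^ 3) := by
        apply div_le_div_of_nonneg_left (by positivity) (by positivity)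
        linarith
      have h9 : ((2 : ℝ) ^ j) ^ 2 / (2 * ((2 : ℝ) ^ j) ^ 3) = (2 ^ j : ℝ)⁻¹ / 2 := by
        field_simp
      rw [h9] at h8
      have h10 : (2 ^ j : ℝ)⁻¹ / β / 2 = (2 ^ j : ℝ)⁻¹ / 2 / β := by ring
      rw [h10]
      exact div_le_div_of_nonneg_right h8 hβ.le
    have h7 : FLW2_A d M β (fun k => if k ∈ D then 2 ^ (j + 1) else 2 ^ j) ≤
        FLW2_A d M β (fun k => if k ∈ insert i D then 2 ^ (j + 1) else 2 ^ j) +
          Real.sqrt ((2 ^ j : ℝ)⁻¹ / β / 2) := h1.trans (add_le_add le_rfl h6)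
    rw [Finset.card_insert_of_notMem hi]
    push_cast
    linarith

theorem FLW2_double {d : ℕ} (hd : 3 ≤ d) {β : ℝ} (hβ : 0 < β) (M j : ℕ) (hj : j + 1 ≤ M) :
    FLW2_A d M β (fun _ => 2 ^ j) ≤ FLW2_A d M β (fun _ => 2 ^ (j + 1)) +
      d * Real.sqrt ((2 ^ j : ℝ)⁻¹ / β / 2) := by
  have h := FLW2_dirs hd hβ M j hj Finset.univ
  simpa using h

theorem torus_infrared {d : ℕ} (hd : 3 ≤ d) {β : ℝ} (hβ : 0 < β) (M j : ℕ) (hj : j ≤ M) :
    Real.sqrt ((Tg d (2 ^ M)).IsE β (fun σ => (Sa (fun _ => 2 ^ j) σ) ^ 2)) ≤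
      Real.sqrt ((Tg d (2 ^ M)).IsE β (fun σ => (Sa (fun _ => 2 ^ M) σ) ^ 2)) +
        3 * d * Real.sqrt ((2 ^ j : ℝ)⁻¹ / β) := by
  have key : ∀ k j : ℕ, j + k = M → FLW2_A d M β (fun _ => 2 ^ j) ≤
      FLW2_A d M β (fun _ => 2 ^ M) + 3 * d * Real.sqrt ((2 ^ j : ℝ)⁻¹ / β) := by
    intro k
    induction k with
    | zero =>
      intro j hj
      have hj' : j = M := by omega
      subst hj'
      have h1 : 0 ≤ 3 * (d : ℝ) * Real.sqrt ((2 ^ j : ℝ)⁻¹ / β) := by positivity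
      linarith
    | succ k ih =>
      intro j hj
      have h1 := ih (j + 1) (by omega)
      have h2 := FLW2_double hd hβ M j (by omega)
      obtain ⟨x, hx⟩ : ∃ x, x = (2 ^ j : ℝ)⁻¹ / β := ⟨_, rfl⟩
      have hx0 : 0 ≤ x := by rw [hx]; positivity
      have h3 : (2 ^ (j + 1) : ℝ)⁻¹ / β = x / 2 := by
        rw [hx, pow_succ, mul_inv]
        ring
      rw [h3] at h1
      rw [← hx] at h2 ⊢
      have h4 : 4 * Real.sqrt (x / 2) ≤ 3 * Real.sqrt x := by
        have h5 : Real.sqrt (16 * (x / 2)) ≤ Real.sqrt (9 * x) :=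
          Real.sqrt_le_sqrt (by linarith)
        rw [Real.sqrt_mul (by norm_num), Real.sqrt_mul (by norm_num)] at h5
        have h6 : Real.sqrt 16 = 4 := by
          rw [show (16 : ℝ) = 4 ^ 2 by norm_num]
          exact Real.sqrt_sq (by norm_num)
        have h7 : Real.sqrt 9 = 3 := by
          rw [show (9 : ℝ) = 3 ^ 2 by norm_num]
          exact Real.sqrt_sq (by norm_num)
        rw [h6, h7] at h5
        exact h5
      have h5 : (d : ℝ) * (4 * Real.sqrt (x / 2)) ≤ d * (3 * Real.sqrt x) :=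
        mul_le_mul_of_nonneg_left h4 (Nat.cast_nonneg d)
      nlinarith
  obtain ⟨k, hk⟩ := Nat.exists_eq_add_of_le hj
  exact key k j hk.symm

end H82.IC

end S_H82_IC_FLW2

section S_H82_IC_KY0

/-!
# KY0: the key inequality without conditioning (only `key_pointwise0` in this file)

* `key_pointwise0`: steps (1)-(3) of KEY2 (look at the header and the proof of `key_pointwise` in KEY2.lean): with `x = fkE t (1[ω ∩ F = ∅] 1[o ↔ a])`:
  `|x - ∑_{u ∈ B} α u fkE t (1[ω ∩ F = ∅] 1[o ↔ u]) tp u a| ≤ sg (src o a) 0 |N - 1| + 2 ∑ α u E u`, and `sg |N-1| ≤ √(tp o a * VAR)` by `sg_cs`, `sg_NN_sq`.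
* `inf_key`: apply it in `GN d n`, parameters `tanh β`, `o = 0`, `a = x`, `F ↦ sb (bE n) F` (`F ⊆ bE n`), finite set `B`, and let `n → ∞`: `tp u v = phiB β n false (cn u v) → μ (cn u v)` (`phiB_self`, `fkE_conn`, `GN_cn`,
  `free_tendsto` with `S = ∅`), and `fkE (1[Disjoint ω (sb F)] 1[0 ↔ u]) = phiB β n false (dw F ∩ cn 0 u) → μ (dw F ∩ cn 0 u)`: `1_{dw F} = ∑_{S ⊆ F} (-1)^{|S|} 1_{up S}` and `free_tendsto` for each `S` (as in the proof of `uni`);
  `vF (sb (bE n) F) = enF F` (`vF_sb`).  All sums are finite, the square root is continuous.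
-/

set_option autoImplicit false

open Finset MeasureTheory Filter Topology

namespace H82.IC

theorem key_pointwise0 {V E : Type*} [Fintype E] [DecidableEq E] (Γ : Gr V E) {t : E → ℝ}
    (ht : T01 t) (F : Finset E) {τ : ℝ} (h0 : 0 ≤ τ)
    (h1 : τ < 1) (hF : ∀ e ∈ F, t e = τ) (o a : V) (B : Finset V) (α : V → ℝ) (hα : ∀ u, 0 ≤ α u) :
    |Γ.fkE t (fun ω => ind (Disjoint ω F) * ind (Γ.Conn (ω : Set E) o a)) -
      ∑ u ∈ B, α u * (Γ.fkE t (fun ω => ind (Disjoint ω F) * ind (Γ.Conn (ω : Set E) o u)) *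
        Γ.tp t u a)| ≤
      Real.sqrt (Γ.tp t o a * ((∑ u ∈ B, ∑ v ∈ B, α u * α v * (Γ.tp t u v *
        (Γ.tp t o u * Γ.tp t v a + Γ.tp t o v * Γ.tp t u a))) -
      2 * (∑ u ∈ B, α u * (Γ.tp t o u * Γ.tp t u a)) + Γ.tp t o a)) +
      2 * (∑ u ∈ B, α u * (Γ.tp t o u * ∑ z ∈ Γ.vF F, Γ.tp t u z * Γ.tp t z a)) := by
  classical
  set K : ℝ := CF τ F.card with hK
  have hK0 : 0 ≤ K := CF_nonneg h0 h1 _
  have hK1 : K ≤ 1 := CF_le_one h0 h1 _
  have hz0 : Γ.z t 0 ≠ 0 := by have := one_le_z Γ ht; positivity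
  set X : V → ℝ := fun u =>
    Γ.fkE t (fun ω => ind (Disjoint ω F) * ind (Γ.Conn (ω : Set E) o u)) with hX
  set Er : V → ℝ := fun u => Γ.tp t o u * ∑ z ∈ Γ.vF F, Γ.tp t u z * Γ.tp t z a with hEr
  set N' : Finset E → ℝ := fun ω => ∑ u ∈ B, α u * ind (Γ.Conn ((ω : Set E) \ F) u a) with hN'
  set SN : ℝ := Γ.sg t (src o a) 0 (fun ω => |Γ.NN B α o ω - 1|) with hSN
  set R : V → ℝ := fun u =>
    K * Γ.sgF F t (src o u) (src u a) (fun ω => ind (¬ Γ.Conn ((ω : Set E) \ F) u a)) with hR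
  -- (1)
  have s1 : X a = K * Γ.sgF F t (src o a) 0 (fun _ => 1) := by
    rw [hK, sgF_one Γ ht F h0 h1 hF o a 0, div_self hz0, mul_one]
  -- (2)
  have s2 : |K * Γ.sgF F t (src o a) 0 (fun ω => 1 - N' ω)| ≤ SN + ∑ u ∈ B, α u * Er u := by
    rw [abs_mul, abs_of_nonneg hK0]
    have a1 := sgF_abs Γ ht F (src o a) 0 (fun ω => 1 - N' ω)
    have a2 := KEY2_loss Γ ht F o a B α hα
    have a3 : 0 ≤ |Γ.sgF F t (src o a) 0 (fun ω => 1 - N' ω)| := abs_nonneg _
    calc K * |Γ.sgF F t (src o a) 0 (fun ω => 1 - N' ω)|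
        ≤ 1 * |Γ.sgF F t (src o a) 0 (fun ω => 1 - N' ω)| :=
          mul_le_mul_of_nonneg_right hK1 a3
      _ = |Γ.sgF F t (src o a) 0 (fun ω => 1 - N' ω)| := one_mul _
      _ ≤ _ := a1.trans a2
  have s2b : K * Γ.sgF F t (src o a) 0 (fun ω => 1 - N' ω) =
      X a - K * Γ.sgF F t (src o a) 0 N' := by
    rw [sgF_sub, mul_sub, ← s1]
  -- (3)
  have s3 : K * Γ.sgF F t (src o a) 0 N' = ∑ u ∈ B, α u * (X u * Γ.tp t u a - R u) := by
    rw [hN', sgF_sum, Finset.mul_sum]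
    apply Finset.sum_congr rfl
    intro u _
    rw [sgF_smul, sgF_G]
    have hG : Γ.sgF F t (src o u) (src u a) (fun ω => ind (Γ.Conn ((ω : Set E) \ F) u a)) =
        Γ.sgF F t (src o u) (src u a) (fun _ => 1) -
        Γ.sgF F t (src o u) (src u a) (fun ω => ind (¬ Γ.Conn ((ω : Set E) \ F) u a)) := by
      rw [← sgF_sub]
      congr 1
      funext ω
      rw [KEY2_ind_not]; ring
    have hone := sgF_one Γ ht F h0 h1 hF o u (src u a)
    rw [hG]
    have hone' : K * Γ.sgF F t (src o u) (src u a) (fun _ => 1) = X u * Γ.tp t u a := hone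
    simp only [hR]
    rw [← hone']
    ring
  have s3b : ∀ u, |R u| ≤ Er u := by
    intro u
    simp only [hR]
    rw [abs_mul, abs_of_nonneg hK0]
    have a1 := sgF_abs Γ ht F (src o u) (src u a)
      (fun ω => ind (¬ Γ.Conn ((ω : Set E) \ F) u a))
    have a2 : Γ.sg t (src o u) (src u a)
        (fun ω => |ind (¬ Γ.Conn ((ω : Set E) \ F) u a)|) =
        Γ.sg t (src o u) (src u a) (fun ω => ind (¬ Γ.Conn ((ω : Set E) \ F) u a)) := by
      congr 1
      funext ω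
      exact abs_of_nonneg (KEY2_ind_nonneg _)
    rw [a2] at a1
    have a3 := notG_bound Γ ht F o a u
    calc K * |Γ.sgF F t (src o u) (src u a) (fun ω => ind (¬ Γ.Conn ((ω : Set E) \ F) u a))|
        ≤ 1 * |Γ.sgF F t (src o u) (src u a)
            (fun ω => ind (¬ Γ.Conn ((ω : Set E) \ F) u a))| :=
          mul_le_mul_of_nonneg_right hK1 (abs_nonneg _)
      _ = |Γ.sgF F t (src o u) (src u a)
            (fun ω => ind (¬ Γ.Conn ((ω : Set E) \ F) u a))| := one_mul _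
      _ ≤ _ := a1.trans a3
  -- the variance
  have s5 : SN ≤ Real.sqrt (Γ.tp t o a * ((∑ u ∈ B, ∑ v ∈ B, α u * α v * (Γ.tp t u v *
        (Γ.tp t o u * Γ.tp t v a + Γ.tp t o v * Γ.tp t u a))) -
      2 * (∑ u ∈ B, α u * (Γ.tp t o u * Γ.tp t u a)) + Γ.tp t o a)) := by
    have c1 := sg_cs Γ ht o a (fun ω => Γ.NN B α o ω - 1)
    have c2 := mul_le_mul_of_nonneg_left (sg_NN_sq Γ ht o a B α hα) (tp_nonneg Γ ht o a)
    exact (le_abs_self _).trans (Real.abs_le_sqrt (c1.trans c2))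
  -- assembly
  have key : X a - ∑ u ∈ B, α u * (X u * Γ.tp t u a) =
      K * Γ.sgF F t (src o a) 0 (fun ω => 1 - N' ω) - ∑ u ∈ B, α u * R u := by
    rw [s2b, s3]
    have e1 : ∑ u ∈ B, α u * (X u * Γ.tp t u a - R u) =
        ∑ u ∈ B, α u * (X u * Γ.tp t u a) - ∑ u ∈ B, α u * R u := by
      rw [← Finset.sum_sub_distrib]
      exact Finset.sum_congr rfl (fun u _ => by ring)
    rw [e1]
    ring
  have b2 : |∑ u ∈ B, α u * R u| ≤ ∑ u ∈ B, α u * Er u := by
    refine (Finset.abs_sum_le_sum_abs _ _).trans (Finset.sum_le_sum ?_)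
    intro u _
    rw [abs_mul, abs_of_nonneg (hα u)]
    exact mul_le_mul_of_nonneg_left (s3b u) (hα u)
  have hfin : |X a - ∑ u ∈ B, α u * (X u * Γ.tp t u a)| ≤
      (SN + ∑ u ∈ B, α u * Er u) + ∑ u ∈ B, α u * Er u := by
    rw [key]
    have t2 := abs_sub (K * Γ.sgF F t (src o a) 0 (fun ω => 1 - N' ω)) (∑ u ∈ B, α u * R u)
    linarith
  calc |X a - ∑ u ∈ B, α u * (X u * Γ.tp t u a)| ≤ _ := hfin
    _ ≤ _ := by linarith

end H82.IC

end S_H82_IC_KY0

section S_H82_IC_IK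

/-!
# IK: the key inequality in infinite volume

Apply `key_pointwise0` in `GN d n`, parameters `tanh β` (`< 1`), `o = 0`, `a = x`, `F ↦ sb (bE n) F` (`F ⊆ bE n`), finite set `B`, and let `n → ∞`: `tp u v = phiB β n false (cn u v) → μ (cn u v)` (`phiB_self`, `fkE_conn`, `GN_cn`,
`free_tendsto` with `S = ∅`), and `fkE (1[Disjoint ω (sb F)] 1[0 ↔ u]) = phiB β n false (dw F ∩ cn 0 u) → μ (dw F ∩ cn 0 u)`: `1_{dw F} = ∑_{S ⊆ F} (-1)^{|S|} 1_{up S}` and `free_tendsto` for each `S` (as in the proof of `uni`);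
`vF (sb (bE n) F) = enF F` (`vF_sb`).  All sums are finite, the square root is continuous (`le_of_tendsto_of_tendsto'`).
-/

set_option autoImplicit false

open Finset MeasureTheory Filter Topology

namespace H82.IC

variable {d : ℕ}

theorem IK_cn (hd : 2 ≤ d) {β : ℝ} (hβ : 0 ≤ β) {μ : Measure (Cf d)}
    (hμ : IsLim β false μ) (x y : Vx d) :
    Tendsto (fun n => phiB β n false (cn x y)) atTop (𝓝 (μ.real (cn x y))) := by
  have h := free_tendsto hd hβ hμ ∅ x y
  have hu : (up (∅ : Finset (Ed d)) : Set (Cf d)) = Set.univ := by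
    ext ω
    simp [up]
  simpa only [hu, Set.inter_univ] using h

theorem free_tendsto_dw (hd : 2 ≤ d) {β : ℝ} (hβ : 0 ≤ β) {μ : Measure (Cf d)}
    (hμ : IsLim β false μ) (F : Finset (Ed d)) (x y : Vx d) :
    Tendsto (fun n => phiB β n false (dw F ∩ cn x y)) atTop (𝓝 (μ.real (dw F ∩ cn x y))) := by
  have hprob := hμ.1
  have hmeasX : ∀ S, MeasurableSet (cn x y ∩ up S : Set (Cf d)) := fun S =>
    (meas_cn x y).inter (lcl_measurable (lcl_up S))
  have e2 : μ.real (dw F ∩ cn x y) = ∑ S ∈ F.powerset, (-1 : ℝ) ^ S.card * μ.real (cn x y ∩ up S) := by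
    rw [← UNI_int ((lcl_measurable (lcl_dw F)).inter (meas_cn x y))]
    have h1 : (fun ω : Cf d => ind (ω ∈ (dw F ∩ cn x y : Set (Cf d)))) = fun ω =>
        ∑ S ∈ F.powerset, (-1 : ℝ) ^ S.card * ind (ω ∈ (cn x y ∩ up S : Set (Cf d))) :=
      funext fun ω => UNI_ie F (cn x y) ω
    rw [h1, integral_finsetSum _ (fun S _ => (UNI_integrable (hmeasX S)).const_mul _)]
    refine Finset.sum_congr rfl fun S _ => ?_
    rw [integral_const_mul, UNI_int (hmeasX S)]
  have e1 : ∀ n, phiB β n false (dw F ∩ cn x y) =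
      ∑ S ∈ F.powerset, (-1 : ℝ) ^ S.card * phiB β n false (cn x y ∩ up S) := by
    intro n
    rw [phiB_self hβ]
    have h1 : (fun ω : Finset ↥(bE d n) => ind (ext false n n ω ∈ (dw F ∩ cn x y : Set (Cf d)))) =
        fun ω => ∑ S ∈ F.powerset, (-1 : ℝ) ^ S.card *
          ind (ext false n n ω ∈ (cn x y ∩ up S : Set (Cf d))) :=
      funext fun ω => UNI_ie F (cn x y) (ext false n n ω)
    rw [h1, fkE_sum]
    refine Finset.sum_congr rfl fun S _ => ?_
    rw [fkE_smul, phiB_self hβ]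
  simp only [e1]
  rw [e2]
  exact tendsto_finsetSum _ fun S _ => (free_tendsto hd hβ hμ S x y).const_mul _

theorem IK_fin {β : ℝ} (hβ : 0 ≤ β) (n : ℕ) {F : Finset (Ed d)} (hF : F ⊆ bE d n) (x : Vx d)
    (B : Finset (Vx d)) (α : Vx d → ℝ) (hα : ∀ u, 0 ≤ α u) :
    |phiB β n false (dw F ∩ cn 0 x) -
        ∑ u ∈ B, α u * (phiB β n false (dw F ∩ cn 0 u) * phiB β n false (cn u x))| ≤
      Real.sqrt (phiB β n false (cn 0 x) * ((∑ u ∈ B, ∑ v ∈ B, α u * α v *
        (phiB β n false (cn u v) * (phiB β n false (cn 0 u) * phiB β n false (cn v x) +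
          phiB β n false (cn 0 v) * phiB β n false (cn u x)))) -
      2 * (∑ u ∈ B, α u * (phiB β n false (cn 0 u) * phiB β n false (cn u x))) +
        phiB β n false (cn 0 x))) +
      2 * (∑ u ∈ B, α u * (phiB β n false (cn 0 u) *
        ∑ z ∈ enF F, phiB β n false (cn u z) * phiB β n false (cn z x))) := by
  have hT : T01 (fun _ : ↥(bE d n) => Real.tanh β) := T01_tanh β hβ
  obtain ⟨t0, t1⟩ := tanh_mem β hβ
  have h := key_pointwise0 (GN d n) hT (sb (bE d n) F) t0 t1 (fun _ _ => rfl) 0 x B α hα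
  have htp : ∀ u v, (GN d n).tp (fun _ => Real.tanh β) u v = phiB β n false (cn u v) := by
    intro u v
    rw [← fkE_conn, phiB_self hβ]
    congr 1
    funext ω
    exact UNI_ind_congr (GN_cn n ω u v)
  have hdw : ∀ u, (GN d n).fkE (fun _ => Real.tanh β)
      (fun ω => ind (Disjoint ω (sb (bE d n) F)) *
        ind ((GN d n).Conn (ω : Set ↥(bE d n)) 0 u)) = phiB β n false (dw F ∩ cn 0 u) := by
    intro u
    rw [phiB_self hβ]
    congr 1
    funext ω
    have h1 : ind (ext false n n ω ∈ (dw F ∩ cn 0 u : Set (Cf d))) =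
      ind (ext false n n ω ∈ dw F) * ind (ext false n n ω ∈ cn 0 u) := UNI_ind_and _ _
    rw [h1, UNI_ind_congr (GN_dw hF ω), UNI_ind_congr (GN_cn n ω 0 u)]
  simp only [htp, hdw, vF_sb hF] at h
  exact h

theorem inf_key (hd : 2 ≤ d) {β : ℝ} (hβ : 0 ≤ β) {μ : Measure (Cf d)} (hμ : IsLim β false μ)
    (F : Finset (Ed d)) (x : Vx d) (B : Finset (Vx d)) (α : Vx d → ℝ) (hα : ∀ u, 0 ≤ α u) :
    |μ.real (dw F ∩ cn 0 x) - ∑ u ∈ B, α u * (μ.real (dw F ∩ cn 0 u) * μ.real (cn u x))| ≤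
      Real.sqrt (μ.real (cn 0 x) * ((∑ u ∈ B, ∑ v ∈ B, α u * α v * (μ.real (cn u v) *
        (μ.real (cn 0 u) * μ.real (cn v x) + μ.real (cn 0 v) * μ.real (cn u x)))) -
      2 * (∑ u ∈ B, α u * (μ.real (cn 0 u) * μ.real (cn u x))) + μ.real (cn 0 x))) +
      2 * (∑ u ∈ B, α u * (μ.real (cn 0 u) * ∑ z ∈ enF F, μ.real (cn u z) * μ.real (cn z x))) := by
  obtain ⟨n0, hn0⟩ := exists_bE F
  have hc : ∀ u v, Tendsto (fun n => phiB β n false (cn u v)) atTop (𝓝 (μ.real (cn u v))) :=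
    fun u v => IK_cn hd hβ hμ u v
  have hw : ∀ u, Tendsto (fun n => phiB β n false (dw F ∩ cn 0 u)) atTop
      (𝓝 (μ.real (dw F ∩ cn 0 u))) := fun u => free_tendsto_dw hd hβ hμ F 0 u
  refine le_of_tendsto_of_tendsto (b := atTop)
    (f := fun n => |phiB β n false (dw F ∩ cn 0 x) -
        ∑ u ∈ B, α u * (phiB β n false (dw F ∩ cn 0 u) * phiB β n false (cn u x))|)
    (g := fun n => Real.sqrt (phiB β n false (cn 0 x) * ((∑ u ∈ B, ∑ v ∈ B, α u * α v *
        (phiB β n false (cn u v) * (phiB β n false (cn 0 u) * phiB β n false (cn v x) +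
          phiB β n false (cn 0 v) * phiB β n false (cn u x)))) -
      2 * (∑ u ∈ B, α u * (phiB β n false (cn 0 u) * phiB β n false (cn u x))) +
        phiB β n false (cn 0 x))) +
      2 * (∑ u ∈ B, α u * (phiB β n false (cn 0 u) *
        ∑ z ∈ enF F, phiB β n false (cn u z) * phiB β n false (cn z x)))) ?_ ?_ ?_
  · exact ((hw x).sub (tendsto_finsetSum _ fun u _ => ((hw u).mul (hc u x)).const_mul _)).abs
  · refine Tendsto.add (Tendsto.sqrt ((hc 0 x).mul (Tendsto.add (Tendsto.sub ?_ ?_) (hc 0 x)))) ?_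
    · exact tendsto_finsetSum _ fun u _ => tendsto_finsetSum _ fun v _ =>
        ((hc u v).mul (((hc 0 u).mul (hc v x)).add ((hc 0 v).mul (hc u x)))).const_mul _
    · exact (tendsto_finsetSum _ fun u _ => ((hc 0 u).mul (hc u x)).const_mul _).const_mul _
    · exact (tendsto_finsetSum _ fun u _ => ((hc 0 u).mul (tendsto_finsetSum _ fun z _ =>
        (hc u z).mul (hc z x))).const_mul _).const_mul _
  · filter_upwards [eventually_ge_atTop n0] with n hn
    exact IK_fin hβ n (hn0.trans (bE_mono hn)) x B α hα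

end H82.IC

end S_H82_IC_IK

section S_H82_IC_MM1

/-!
# MM1: the Messager-Miracle-Sole inequality on a finite graph (Ginibre's proof)

`th` involution of the vertices, `ta` of the edges (compatible), `L` one open side, `th '' L` the other, the remaining vertices are fixed by `th`; an edge joining `L` to the other side joins `a` and `th a`.
`q a = σ a - σ (th a)`, `u a = σ a + σ (th a)` (real spins `sp`), for all `a`.  Since `(σ-σ')² = 2 - 2σσ'`, up to a positive constant `wS β σ = exp(β ∑_e σ(s e)σ(r e)) = exp((β/2) ∑_e (σ(s e)σ(r e) + σ(th (s e))σ(th (r e))))`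
(reindex by `ta`).  For an edge which is not crossing, `a = s e`, `b = r e` are both in `Lb := L ∪ Fix` or `th a, th b` are, and `σ a σ b + σ(th a)σ(th b) = (1/2)(q a q b + u a u b)`, which is unchanged if `a, b` are replaced by
`th a, th b`.  For a crossing edge (`b = th a`) the term is `2 σ a σ (th a)`; let `w0 σ = ∏_{crossing} exp(β σ a σ(th a))`.
CLAIM: for all exponents `m n : V → ℕ` and every finite product `f` of factors `exp(c q a q b)`, `exp(c u a u b)`, `a, b ∈ Lb`, `c ≥ 0`: `∑_σ (∏_{a ∈ Lb} q a ^ m a * u a ^ n a) * f σ * w0 σ ≥ 0`.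
Induction on the number of factors of `f`: `exp(c X) = ∑' k, c^k X^k / k!` (finite sums commute with the series; `hasSum` and `tsum_nonneg`), and `X^k` times the monomial is a monomial.  Base case `f = 1`: if some `m a` is odd
(`a ∈ L`; for `a ∈ Fix`, `q a = 0` and the sum vanishes if `m a > 0`), the involution of the configurations exchanging `σ a` and `σ (th a)` changes the sign of the term (`w0` is invariant): the sum is `0`.  If all `m a` are even and some
`n a` is odd, flip both `σ a` and `σ (th a)` (one spin if `a ∈ Fix`): sign change, the sum is `0`.  If all are even every term is `≥ 0`.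
Apply it with the monomial `q x * q y`, `f` = the product over the non crossing edges: `∑_σ q x q y wS ≥ 0`, i.e. `IsE (q x q y) ≥ 0`, and by the symmetry `σ ↦ σ ∘ th` of `wS`:
`IsE (q x q y) = 2 IsE (σ x σ y) - 2 IsE (σ x σ (th y))`.
-/

set_option autoImplicit false

open Finset

namespace H82.IC

section MM1

theorem MM1_sp_not (b : Bool) : sp (!b) = - sp b := by
  unfold sp
  cases b <;> simp

variable {V : Type*}

/-- differences and sums under the involution. -/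
noncomputable def MM1_q (th : V → V) (σ : V → Bool) (a : V) : ℝ := sp (σ a) - sp (σ (th a))

noncomputable def MM1_u (th : V → V) (σ : V → Bool) (a : V) : ℝ := sp (σ a) + sp (σ (th a))

/-- monomials. -/
noncomputable def MM1_mono (th : V → V) (B : Finset V) (m n : V → ℕ) (σ : V → Bool) : ℝ :=
  ∏ a ∈ B, (MM1_q th σ a ^ m a * MM1_u th σ a ^ n a)

/-- the invariants. -/
def MM1_inv (th : V → V) (σ σ' : V → Bool) : Prop :=
  ∀ s, sp (σ s) * sp (σ (th s)) = sp (σ' s) * sp (σ' (th s))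

variable [Fintype V] [DecidableEq V]

theorem MM1_zero (T : (V → Bool) → (V → Bool)) (hT : Function.Involutive T)
    (G : (V → Bool) → ℝ) (hG : ∀ σ, G (T σ) = - G σ) : ∑ σ, G σ = 0 := by
  have h1 : ∑ σ, G (T σ) = ∑ σ, G σ := Equiv.sum_comp hT.toPerm G
  have h2 : ∑ σ, G (T σ) = - ∑ σ, G σ := by
    rw [← Finset.sum_neg_distrib]
    exact Finset.sum_congr rfl fun σ _ => hG σ
  linarith

/-- positivity class. -/
def MM1_Good (th : V → V) (B : Finset V) (w0 : (V → Bool) → ℝ) (F : (V → Bool) → ℝ) : Prop :=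
  ∀ m n : V → ℕ, 0 ≤ ∑ σ, MM1_mono th B m n σ * (F σ * w0 σ)

omit [Fintype V] in
theorem MM1_mono_sign (th : V → V) (B : Finset V) (m n : V → ℕ) {a : V} (ha : a ∈ B)
    (σ σ' : V → Bool)
    (h1 : ∀ b ∈ B, b ≠ a → MM1_q th σ' b = MM1_q th σ b ∧ MM1_u th σ' b = MM1_u th σ b)
    (h2 : MM1_q th σ' a ^ m a * MM1_u th σ' a ^ n a = -(MM1_q th σ a ^ m a * MM1_u th σ a ^ n a)) :
    MM1_mono th B m n σ' = - MM1_mono th B m n σ := by
  unfold MM1_mono
  rw [← Finset.mul_prod_erase B _ ha, ← Finset.mul_prod_erase B _ ha, h2, neg_mul]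
  congr 2
  refine Finset.prod_congr rfl fun b hb => ?_
  obtain ⟨h3, h4⟩ := h1 b (Finset.mem_of_mem_erase hb) (Finset.ne_of_mem_erase hb)
  rw [h3, h4]

theorem MM1_base (th : V → V) (B : Finset V) (w0 : (V → Bool) → ℝ)
    (hth : ∀ x, th (th x) = x) (hB : ∀ a ∈ B, ∀ b ∈ B, b ≠ a → b ≠ th a)
    (hw : ∀ σ, 0 ≤ w0 σ) (hinv : ∀ σ σ', MM1_inv th σ σ' → w0 σ = w0 σ') :
    MM1_Good th B w0 (fun _ => 1) := by
  intro m n
  have hne : ∀ a ∈ B, ∀ b ∈ B, b ≠ a → b ≠ a ∧ b ≠ th a ∧ th b ≠ a ∧ th b ≠ th a := by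
    intro a ha b hb hab
    have h1 := hB a ha b hb hab
    refine ⟨hab, h1, ?_, ?_⟩
    · intro h
      exact h1 (by rw [← h, hth])
    · intro h
      exact hab (by rw [← hth b, h, hth])
  by_cases hm : ∃ a ∈ B, Odd (m a)
  · obtain ⟨a, ha, hodd⟩ := hm
    apply le_of_eq
    symm
    apply MM1_zero (fun σ s => σ (Equiv.swap a (th a) s))
    · intro σ
      funext s
      show σ (Equiv.swap a (th a) (Equiv.swap a (th a) s)) = σ s
      rw [Equiv.swap_apply_self]
    · intro σ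
      have h1 : MM1_mono th B m n (fun s => σ (Equiv.swap a (th a) s)) =
          - MM1_mono th B m n σ := by
        apply MM1_mono_sign th B m n ha
        · intro b hb hba
          obtain ⟨h3, h4, h5, h6⟩ := hne a ha b hb hba
          unfold MM1_q MM1_u
          simp only [Equiv.swap_apply_of_ne_of_ne h3 h4, Equiv.swap_apply_of_ne_of_ne h5 h6]
          exact ⟨trivial, trivial⟩
        · have h3 : MM1_q th (fun s => σ (Equiv.swap a (th a) s)) a = - MM1_q th σ a := by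
            unfold MM1_q
            simp only [Equiv.swap_apply_left, Equiv.swap_apply_right]
            ring
          have h4 : MM1_u th (fun s => σ (Equiv.swap a (th a) s)) a = MM1_u th σ a := by
            unfold MM1_u
            simp only [Equiv.swap_apply_left, Equiv.swap_apply_right]
            ring
          rw [h3, h4, hodd.neg_pow, neg_mul]
      have h2 : w0 (fun s => σ (Equiv.swap a (th a) s)) = w0 σ := by
        apply hinv
        intro s
        by_cases hsa : s = a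
        · rw [hsa]
          simp only [Equiv.swap_apply_left, Equiv.swap_apply_right]
          ring
        · by_cases hst : s = th a
          · rw [hst, hth]
            simp only [Equiv.swap_apply_left, Equiv.swap_apply_right]
            ring
          · have h5 : th s ≠ a := fun h => hst (by rw [← h, hth])
            have h6 : th s ≠ th a := fun h => hsa (by rw [← hth s, h, hth])
            simp only [Equiv.swap_apply_of_ne_of_ne hsa hst, Equiv.swap_apply_of_ne_of_ne h5 h6]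
      show MM1_mono th B m n (fun s => σ (Equiv.swap a (th a) s)) *
        (1 * w0 (fun s => σ (Equiv.swap a (th a) s))) = -(MM1_mono th B m n σ * (1 * w0 σ))
      rw [h1, h2]
      ring
  · by_cases hn : ∃ a ∈ B, Odd (n a)
    · obtain ⟨a, ha, hodd⟩ := hn
      have hmev : Even (m a) := by
        rw [← Nat.not_odd_iff_even]
        exact fun h => hm ⟨a, ha, h⟩
      apply le_of_eq
      symm
      apply MM1_zero (fun σ s => if s = a ∨ s = th a then !(σ s) else σ s)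
      · intro σ
        funext s
        show (if s = a ∨ s = th a then !(if s = a ∨ s = th a then !(σ s) else σ s)
          else (if s = a ∨ s = th a then !(σ s) else σ s)) = σ s
        by_cases hs : s = a ∨ s = th a
        · rw [if_pos hs, if_pos hs, Bool.not_not]
        · rw [if_neg hs, if_neg hs]
      · intro σ
        have hpa : (a = a ∨ a = th a) := Or.inl rfl
        have hpt : (th a = a ∨ th a = th a) := Or.inr rfl
        have h1 : MM1_mono th B m n (fun s => if s = a ∨ s = th a then !(σ s) else σ s) =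
            - MM1_mono th B m n σ := by
          apply MM1_mono_sign th B m n ha
          · intro b hb hba
            obtain ⟨h3, h4, h5, h6⟩ := hne a ha b hb hba
            have g1 : ¬ (b = a ∨ b = th a) := fun h => h.elim h3 h4
            have g2 : ¬ (th b = a ∨ th b = th a) := fun h => h.elim h5 h6
            unfold MM1_q MM1_u
            simp only [if_neg g1, if_neg g2]
            exact ⟨trivial, trivial⟩
          · have h3 : MM1_q th (fun s => if s = a ∨ s = th a then !(σ s) else σ s) a =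
                - MM1_q th σ a := by
              show sp (if a = a ∨ a = th a then !(σ a) else σ a) -
                sp (if th a = a ∨ th a = th a then !(σ (th a)) else σ (th a)) =
                  -(sp (σ a) - sp (σ (th a)))
              rw [if_pos hpa, if_pos hpt, MM1_sp_not, MM1_sp_not]
              ring
            have h4 : MM1_u th (fun s => if s = a ∨ s = th a then !(σ s) else σ s) a =
                - MM1_u th σ a := by
              show sp (if a = a ∨ a = th a then !(σ a) else σ a) +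
                sp (if th a = a ∨ th a = th a then !(σ (th a)) else σ (th a)) =
                  -(sp (σ a) + sp (σ (th a)))
              rw [if_pos hpa, if_pos hpt, MM1_sp_not, MM1_sp_not]
              ring
            rw [h3, h4, hodd.neg_pow, hmev.neg_pow, mul_neg]
        have h2 : w0 (fun s => if s = a ∨ s = th a then !(σ s) else σ s) = w0 σ := by
          apply hinv
          intro s
          have hiff : (th s = a ∨ th s = th a) ↔ (s = a ∨ s = th a) := by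
            constructor
            · rintro (h | h)
              · exact Or.inr (by rw [← h, hth])
              · exact Or.inl (by rw [← hth s, h, hth])
            · rintro (h | h)
              · exact Or.inr (by rw [h])
              · exact Or.inl (by rw [h, hth])
          by_cases hs : s = a ∨ s = th a
          · simp only [if_pos hs, if_pos (hiff.2 hs), MM1_sp_not]
            ring
          · simp only [if_neg hs, if_neg (fun h => hs (hiff.1 h))]
        show MM1_mono th B m n (fun s => if s = a ∨ s = th a then !(σ s) else σ s) *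
          (1 * w0 (fun s => if s = a ∨ s = th a then !(σ s) else σ s)) =
            -(MM1_mono th B m n σ * (1 * w0 σ))
        rw [h1, h2]
        ring
    · refine Finset.sum_nonneg fun σ _ => mul_nonneg ?_ (mul_nonneg zero_le_one (hw σ))
      unfold MM1_mono
      refine Finset.prod_nonneg fun a ha => mul_nonneg ?_ ?_
      · exact (Nat.not_odd_iff_even.1 fun h => hm ⟨a, ha, h⟩).pow_nonneg _
      · exact (Nat.not_odd_iff_even.1 fun h => hn ⟨a, ha, h⟩).pow_nonneg _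

omit [Fintype V] in
theorem MM1_mono_q (th : V → V) (B : Finset V) (m n : V → ℕ) {a : V} (ha : a ∈ B)
    (σ : V → Bool) :
    MM1_mono th B (fun b => m b + if b = a then 1 else 0) n σ =
      MM1_mono th B m n σ * MM1_q th σ a := by
  unfold MM1_mono
  have h1 : ∀ b ∈ B, MM1_q th σ b ^ (m b + if b = a then 1 else 0) * MM1_u th σ b ^ n b =
      (MM1_q th σ b ^ m b * MM1_u th σ b ^ n b) * (if b = a then MM1_q th σ b else 1) := by
    intro b _
    by_cases h : b = a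
    · rw [if_pos h, if_pos h, pow_succ]
      ring
    · rw [if_neg h, if_neg h, add_zero, mul_one]
  rw [Finset.prod_congr rfl h1, Finset.prod_mul_distrib, Finset.prod_ite_eq' B a, if_pos ha]

omit [Fintype V] in
theorem MM1_mono_u (th : V → V) (B : Finset V) (m n : V → ℕ) {a : V} (ha : a ∈ B)
    (σ : V → Bool) :
    MM1_mono th B m (fun b => n b + if b = a then 1 else 0) σ =
      MM1_mono th B m n σ * MM1_u th σ a := by
  unfold MM1_mono
  have h1 : ∀ b ∈ B, MM1_q th σ b ^ m b * MM1_u th σ b ^ (n b + if b = a then 1 else 0) =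
      (MM1_q th σ b ^ m b * MM1_u th σ b ^ n b) * (if b = a then MM1_u th σ b else 1) := by
    intro b _
    by_cases h : b = a
    · rw [if_pos h, if_pos h, pow_succ]
      ring
    · rw [if_neg h, if_neg h, add_zero, mul_one]
  rw [Finset.prod_congr rfl h1, Finset.prod_mul_distrib, Finset.prod_ite_eq' B a, if_pos ha]

variable {th : V → V} {B : Finset V} {w0 : (V → Bool) → ℝ}

theorem MM1_Good_q {F : (V → Bool) → ℝ} (hF : MM1_Good th B w0 F) {a : V} (ha : a ∈ B) :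
    MM1_Good th B w0 (fun σ => MM1_q th σ a * F σ) := by
  intro m n
  have h := hF (fun b => m b + if b = a then 1 else 0) n
  refine le_trans h (le_of_eq (Finset.sum_congr rfl fun σ _ => ?_))
  rw [MM1_mono_q th B m n ha]
  ring

theorem MM1_Good_u {F : (V → Bool) → ℝ} (hF : MM1_Good th B w0 F) {a : V} (ha : a ∈ B) :
    MM1_Good th B w0 (fun σ => MM1_u th σ a * F σ) := by
  intro m n
  have h := hF m (fun b => n b + if b = a then 1 else 0)
  refine le_trans h (le_of_eq (Finset.sum_congr rfl fun σ _ => ?_))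
  rw [MM1_mono_u th B m n ha]
  ring

theorem MM1_Good_add {F G : (V → Bool) → ℝ} (hF : MM1_Good th B w0 F)
    (hG : MM1_Good th B w0 G) : MM1_Good th B w0 (fun σ => F σ + G σ) := by
  intro m n
  have h := add_nonneg (hF m n) (hG m n)
  rw [← Finset.sum_add_distrib] at h
  refine le_trans h (le_of_eq (Finset.sum_congr rfl fun σ _ => ?_))
  ring

theorem MM1_Good_smul {F : (V → Bool) → ℝ} {c : ℝ} (hc : 0 ≤ c) (hF : MM1_Good th B w0 F) :
    MM1_Good th B w0 (fun σ => c * F σ) := by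
  intro m n
  have h := mul_nonneg hc (hF m n)
  rw [Finset.mul_sum] at h
  refine le_trans h (le_of_eq (Finset.sum_congr rfl fun σ _ => ?_))
  ring

theorem MM1_Good_exp {X : (V → Bool) → ℝ}
    (hX : ∀ F, MM1_Good th B w0 F → MM1_Good th B w0 (fun σ => X σ * F σ))
    {F : (V → Bool) → ℝ} (hF : MM1_Good th B w0 F) :
    MM1_Good th B w0 (fun σ => Real.exp (X σ) * F σ) := by
  have h1 : ∀ (k : ℕ) (c : ℝ), 0 ≤ c →
      MM1_Good th B w0 (fun σ => (1 + c * X σ) ^ k * F σ) := by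
    intro k c hc
    induction k with
    | zero =>
      have : (fun σ => (1 + c * X σ) ^ 0 * F σ) = F := by
        funext σ
        rw [pow_zero, one_mul]
      rw [this]
      exact hF
    | succ k ih =>
      have h2 := MM1_Good_add ih (MM1_Good_smul hc (hX _ ih))
      have : (fun σ => (1 + c * X σ) ^ (k + 1) * F σ) =
          fun σ => (1 + c * X σ) ^ k * F σ + c * (X σ * ((1 + c * X σ) ^ k * F σ)) := by
        funext σ
        rw [pow_succ]
        ring
      rw [this]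
      exact h2
  intro m n
  have h2 : Filter.Tendsto (fun k : ℕ => ∑ σ, MM1_mono th B m n σ *
      ((1 + X σ / (k : ℝ)) ^ k * F σ * w0 σ)) Filter.atTop
      (nhds (∑ σ, MM1_mono th B m n σ * (Real.exp (X σ) * F σ * w0 σ))) := by
    refine tendsto_finsetSum _ fun σ _ => ?_
    exact (((Real.tendsto_one_add_div_pow_exp (X σ)).mul_const (F σ)).mul_const (w0 σ)).const_mul _
  refine ge_of_tendsto' h2 fun k => ?_
  have h3 := h1 k ((k : ℝ)⁻¹) (by positivity) m n
  refine le_trans h3 (le_of_eq (Finset.sum_congr rfl fun σ _ => ?_))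
  rw [div_eq_inv_mul]

theorem MM1_Good_prod {ι : Type*} (S : Finset ι) (X : ι → (V → Bool) → ℝ)
    (hX : ∀ i ∈ S, ∀ F, MM1_Good th B w0 F → MM1_Good th B w0 (fun σ => X i σ * F σ))
    (h1 : MM1_Good th B w0 (fun _ => 1)) :
    MM1_Good th B w0 (fun σ => ∏ i ∈ S, Real.exp (X i σ)) := by
  classical
  induction S using Finset.induction_on with
  | empty => simpa using h1
  | insert i S hi ih =>
    have h2 := ih (fun j hj => hX j (Finset.mem_insert_of_mem hj))
    have h3 := MM1_Good_exp (hX i (Finset.mem_insert_self i S)) h2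
    have : (fun σ => ∏ j ∈ insert i S, Real.exp (X j σ)) =
        fun σ => Real.exp (X i σ) * ∏ j ∈ S, Real.exp (X j σ) := by
      funext σ
      rw [Finset.prod_insert hi]
    rw [this]
    exact h3

end MM1

variable {V E : Type*} [Fintype V] [DecidableEq V] [Fintype E] [DecidableEq E]

omit [Fintype V] [DecidableEq V] [DecidableEq E] in
theorem MM1_wS_sum (Γ : Gr V E) (β : ℝ) (σ : V → Bool) :
    Γ.wS β σ = Real.exp (-(β / 2) * ∑ e, (sp (σ (Γ.s e)) - sp (σ (Γ.r e))) ^ 2) := by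
  unfold Gr.wS
  rw [Finset.mul_sum, Real.exp_sum]

omit [Fintype V] [DecidableEq V] [DecidableEq E] in
theorem MM1_sum_th (Γ : Gr V E) (th : V → V) (ta : E → E) (h2 : ∀ e, ta (ta e) = e)
    (h3 : ∀ e, (Γ.s (ta e) = th (Γ.s e) ∧ Γ.r (ta e) = th (Γ.r e)) ∨
      (Γ.s (ta e) = th (Γ.r e) ∧ Γ.r (ta e) = th (Γ.s e))) (σ : V → Bool) :
    ∑ e, (sp (σ (th (Γ.s e))) - sp (σ (th (Γ.r e)))) ^ 2 =
      ∑ e, (sp (σ (Γ.s e)) - sp (σ (Γ.r e))) ^ 2 := by
  have hinv : Function.Involutive ta := h2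
  rw [← Equiv.sum_comp hinv.toPerm (fun e => (sp (σ (Γ.s e)) - sp (σ (Γ.r e))) ^ 2)]
  refine Finset.sum_congr rfl fun e _ => ?_
  show _ = (sp (σ (Γ.s (ta e))) - sp (σ (Γ.r (ta e)))) ^ 2
  rcases h3 e with ⟨h4, h5⟩ | ⟨h4, h5⟩
  · rw [h4, h5]
  · rw [h4, h5]
    ring

omit [Fintype V] [DecidableEq V] [DecidableEq E] in
theorem MM1_wS_th (Γ : Gr V E) (β : ℝ) (th : V → V) (ta : E → E) (h2 : ∀ e, ta (ta e) = e)
    (h3 : ∀ e, (Γ.s (ta e) = th (Γ.s e) ∧ Γ.r (ta e) = th (Γ.r e)) ∨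
      (Γ.s (ta e) = th (Γ.r e) ∧ Γ.r (ta e) = th (Γ.s e))) (σ : V → Bool) :
    Γ.wS β (fun x => σ (th x)) = Γ.wS β σ := by
  rw [MM1_wS_sum, MM1_wS_sum, ← MM1_sum_th Γ th ta h2 h3 σ]

omit [Fintype V] [DecidableEq V] [DecidableEq E] in
theorem MM1_wS_rep (Γ : Gr V E) (β : ℝ) (th : V → V) (ta : E → E) (h2 : ∀ e, ta (ta e) = e)
    (h3 : ∀ e, (Γ.s (ta e) = th (Γ.s e) ∧ Γ.r (ta e) = th (Γ.r e)) ∨
      (Γ.s (ta e) = th (Γ.r e) ∧ Γ.r (ta e) = th (Γ.s e))) (σ : V → Bool) :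
    Γ.wS β σ = Real.exp (-(β * Fintype.card E)) *
      ∏ e, Real.exp (β / 4 * (MM1_q th σ (Γ.s e) * MM1_q th σ (Γ.r e) +
        MM1_u th σ (Γ.s e) * MM1_u th σ (Γ.r e))) := by
  rw [MM1_wS_sum, ← Real.exp_sum, ← Real.exp_add]
  congr 1
  have h4 : ∑ e, (sp (σ (Γ.s e)) - sp (σ (Γ.r e))) ^ 2 =
      (1 / 2) * ∑ e, ((sp (σ (Γ.s e)) - sp (σ (Γ.r e))) ^ 2 +
        (sp (σ (th (Γ.s e))) - sp (σ (th (Γ.r e)))) ^ 2) := by
    rw [Finset.sum_add_distrib, MM1_sum_th Γ th ta h2 h3 σ]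
    ring
  have h5 : ∀ e, (sp (σ (Γ.s e)) - sp (σ (Γ.r e))) ^ 2 +
        (sp (σ (th (Γ.s e))) - sp (σ (th (Γ.r e)))) ^ 2 =
      4 - (MM1_q th σ (Γ.s e) * MM1_q th σ (Γ.r e) +
        MM1_u th σ (Γ.s e) * MM1_u th σ (Γ.r e)) := by
    intro e
    have a1 := SPN_sp_sq (σ (Γ.s e))
    have a2 := SPN_sp_sq (σ (Γ.r e))
    have a3 := SPN_sp_sq (σ (th (Γ.s e)))
    have a4 := SPN_sp_sq (σ (th (Γ.r e)))
    unfold MM1_q MM1_u
    linear_combination a1 + a2 + a3 + a4
  rw [h4, Finset.sum_congr rfl fun e _ => h5 e, Finset.sum_sub_distrib, Finset.sum_const,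
    Finset.card_univ, nsmul_eq_mul, ← Finset.mul_sum]
  ring

theorem mms_abstract (Γ : Gr V E) {β : ℝ} (hβ : 0 ≤ β) (th : V → V) (ta : E → E) (L : Set V)
    (h1 : ∀ x, th (th x) = x) (h2 : ∀ e, ta (ta e) = e)
    (h3 : ∀ e, (Γ.s (ta e) = th (Γ.s e) ∧ Γ.r (ta e) = th (Γ.r e)) ∨
      (Γ.s (ta e) = th (Γ.r e) ∧ Γ.r (ta e) = th (Γ.s e)))
    (h4 : ∀ x, x ∈ L → th x ∉ L) (h5 : ∀ x, x ∈ L ∨ th x ∈ L ∨ th x = x)
    (h6 : ∀ e, (Γ.s e ∈ L ∧ th (Γ.r e) ∈ L) ∨ (Γ.r e ∈ L ∧ th (Γ.s e) ∈ L) →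
      Γ.r e = th (Γ.s e))
    {x y : V} (hx : x ∈ L ∨ th x = x) (hy : y ∈ L ∨ th y = y) :
    Γ.IsE β (fun σ => sp (σ x) * sp (σ (th y))) ≤ Γ.IsE β (fun σ => sp (σ x) * sp (σ y)) := by
  classical
  obtain ⟨B, hBdef⟩ : ∃ B : Finset V, ∀ a, a ∈ B ↔ (a ∈ L ∨ th a = a) :=
    ⟨Finset.univ.filter (fun a => a ∈ L ∨ th a = a), fun a => by simp⟩
  obtain ⟨C, hC⟩ : ∃ C : Finset E, ∀ e, e ∈ C ↔
      ((Γ.s e ∈ L ∧ th (Γ.r e) ∈ L) ∨ (Γ.r e ∈ L ∧ th (Γ.s e) ∈ L)) :=
    ⟨Finset.univ.filter (fun e => (Γ.s e ∈ L ∧ th (Γ.r e) ∈ L) ∨ (Γ.r e ∈ L ∧ th (Γ.s e) ∈ L)),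
      fun e => by simp⟩
  let X : E → (V → Bool) → ℝ := fun e σ =>
    β / 4 * (MM1_q th σ (Γ.s e) * MM1_q th σ (Γ.r e) + MM1_u th σ (Γ.s e) * MM1_u th σ (Γ.r e))
  let w0 : (V → Bool) → ℝ := fun σ => ∏ e ∈ C, Real.exp (X e σ)
  have hB : ∀ a ∈ B, ∀ b ∈ B, b ≠ a → b ≠ th a := by
    intro a ha b hb hab hbt
    rcases (hBdef a).1 ha with haL | haF
    · rcases (hBdef b).1 hb with hbL | hbF
      · rw [hbt] at hbL
        exact h4 a haL hbL
      · apply hab
        rw [hbt, h1] at hbF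
        rw [hbt]
        exact hbF.symm
    · exact hab (by rw [hbt, haF])
  have hw0 : ∀ σ, 0 ≤ w0 σ := fun σ => Finset.prod_nonneg fun e _ => (Real.exp_pos _).le
  have hinv : ∀ σ σ', MM1_inv th σ σ' → w0 σ = w0 σ' := by
    intro σ σ' h
    refine Finset.prod_congr rfl fun e he => ?_
    have hr := h6 e ((hC e).1 he)
    have hs := h (Γ.s e)
    show Real.exp (β / 4 * (MM1_q th σ (Γ.s e) * MM1_q th σ (Γ.r e) +
        MM1_u th σ (Γ.s e) * MM1_u th σ (Γ.r e))) = Real.exp (β / 4 *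
        (MM1_q th σ' (Γ.s e) * MM1_q th σ' (Γ.r e) + MM1_u th σ' (Γ.s e) * MM1_u th σ' (Γ.r e)))
    rw [hr]
    unfold MM1_q MM1_u
    rw [h1]
    congr 2
    linear_combination 4 * hs
  have hbase := MM1_base th B w0 h1 hB hw0 hinv
  have hX : ∀ e ∈ Cᶜ, ∀ F, MM1_Good th B w0 F → MM1_Good th B w0 (fun σ => X e σ * F σ) := by
    intro e he F hF
    have heC : ¬ ((Γ.s e ∈ L ∧ th (Γ.r e) ∈ L) ∨ (Γ.r e ∈ L ∧ th (Γ.s e) ∈ L)) :=
      fun h => (Finset.mem_compl.1 he) ((hC e).2 h)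
    have key : ∃ a ∈ B, ∃ b ∈ B, ∀ σ,
        MM1_q th σ (Γ.s e) * MM1_q th σ (Γ.r e) = MM1_q th σ a * MM1_q th σ b ∧
        MM1_u th σ (Γ.s e) * MM1_u th σ (Γ.r e) = MM1_u th σ a * MM1_u th σ b := by
      have hqn : ∀ (σ : V → Bool) a, MM1_q th σ (th a) = - MM1_q th σ a := by
        intro σ a
        unfold MM1_q
        rw [h1]
        ring
      have hun : ∀ (σ : V → Bool) a, MM1_u th σ (th a) = MM1_u th σ a := by
        intro σ a
        unfold MM1_u
        rw [h1]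
        ring
      have hq0 : ∀ (σ : V → Bool) a, th a = a → MM1_q th σ a = 0 := by
        intro σ a ha
        unfold MM1_q
        rw [ha, sub_self]
      by_cases hs : Γ.s e ∈ B
      · by_cases hr : Γ.r e ∈ B
        · exact ⟨_, hs, _, hr, fun σ => ⟨rfl, rfl⟩⟩
        · have hrL : th (Γ.r e) ∈ L := by
            rcases h5 (Γ.r e) with h | h | h
            · exact absurd ((hBdef _).2 (Or.inl h)) hr
            · exact h
            · exact absurd ((hBdef _).2 (Or.inr h)) hr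
          have hsF : th (Γ.s e) = Γ.s e := by
            rcases (hBdef _).1 hs with h | h
            · exact absurd (Or.inl ⟨h, hrL⟩) heC
            · exact h
          refine ⟨Γ.s e, hs, th (Γ.r e), (hBdef _).2 (Or.inl hrL), fun σ => ⟨?_, ?_⟩⟩
          · rw [hq0 σ _ hsF]
            ring
          · rw [hun]
      · have hsL : th (Γ.s e) ∈ L := by
          rcases h5 (Γ.s e) with h | h | h
          · exact absurd ((hBdef _).2 (Or.inl h)) hs
          · exact h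
          · exact absurd ((hBdef _).2 (Or.inr h)) hs
        by_cases hr : Γ.r e ∈ B
        · have hrF : th (Γ.r e) = Γ.r e := by
            rcases (hBdef _).1 hr with h | h
            · exact absurd (Or.inr ⟨h, hsL⟩) heC
            · exact h
          refine ⟨th (Γ.s e), (hBdef _).2 (Or.inl hsL), Γ.r e, hr, fun σ => ⟨?_, ?_⟩⟩
          · rw [hq0 σ _ hrF]
            ring
          · rw [hun]
        · have hrL : th (Γ.r e) ∈ L := by
            rcases h5 (Γ.r e) with h | h | h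
            · exact absurd ((hBdef _).2 (Or.inl h)) hr
            · exact h
            · exact absurd ((hBdef _).2 (Or.inr h)) hr
          refine ⟨th (Γ.s e), (hBdef _).2 (Or.inl hsL), th (Γ.r e), (hBdef _).2 (Or.inl hrL),
            fun σ => ⟨?_, ?_⟩⟩
          · rw [hqn, hqn]
            ring
          · rw [hun, hun]
    obtain ⟨a, ha, b, hb, hab⟩ := key
    have g1 := MM1_Good_q (MM1_Good_q hF hb) ha
    have g2 := MM1_Good_u (MM1_Good_u hF hb) ha
    have g3 := MM1_Good_smul (c := β / 4) (by positivity) (MM1_Good_add g1 g2)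
    have : (fun σ => X e σ * F σ) = fun σ => β / 4 * (MM1_q th σ a * (MM1_q th σ b * F σ) +
        MM1_u th σ a * (MM1_u th σ b * F σ)) := by
      funext σ
      show β / 4 * (MM1_q th σ (Γ.s e) * MM1_q th σ (Γ.r e) +
        MM1_u th σ (Γ.s e) * MM1_u th σ (Γ.r e)) * F σ = _
      rw [(hab σ).1, (hab σ).2]
      ring
    rw [this]
    exact g3
  have hprod := MM1_Good_prod Cᶜ X hX hbase
  have hfin := MM1_Good_q (MM1_Good_q hprod ((hBdef y).2 hy)) ((hBdef x).2 hx)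
    (fun _ => 0) (fun _ => 0)
  have hmono : ∀ σ, MM1_mono th B (fun _ => 0) (fun _ => 0) σ = 1 := by
    intro σ
    unfold MM1_mono
    simp
  have hpos : 0 ≤ ∑ σ, MM1_q th σ x * MM1_q th σ y * Γ.wS β σ := by
    have h7 := mul_nonneg (Real.exp_pos (-(β * Fintype.card E))).le hfin
    rw [Finset.mul_sum] at h7
    refine le_trans h7 (le_of_eq (Finset.sum_congr rfl fun σ _ => ?_))
    rw [hmono, MM1_wS_rep Γ β th ta h2 h3 σ]
    have h8 : ∏ e, Real.exp (β / 4 * (MM1_q th σ (Γ.s e) * MM1_q th σ (Γ.r e) +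
        MM1_u th σ (Γ.s e) * MM1_u th σ (Γ.r e))) =
        (∏ e ∈ Cᶜ, Real.exp (X e σ)) * w0 σ := by
      rw [mul_comm]
      exact (Finset.prod_mul_prod_compl C (fun e => Real.exp (X e σ))).symm
    rw [h8]
    ring
  have hinvth : Function.Involutive th := h1
  have hT : Function.Involutive (fun (σ : V → Bool) (s : V) => σ (th s)) := by
    intro σ
    funext s
    show σ (th (th s)) = σ s
    rw [h1]
  have hsym : ∀ a b : V, ∑ σ, sp (σ (th a)) * sp (σ (th b)) * Γ.wS β σ =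
      ∑ σ, sp (σ a) * sp (σ b) * Γ.wS β σ := by
    intro a b
    rw [← Equiv.sum_comp hT.toPerm (fun σ => sp (σ a) * sp (σ b) * Γ.wS β σ)]
    refine Finset.sum_congr rfl fun σ _ => ?_
    show _ = sp (σ (th a)) * sp (σ (th b)) * Γ.wS β (fun s => σ (th s))
    rw [MM1_wS_th Γ β th ta h2 h3 σ]
  have e1 := hsym x y
  have e2 := hsym x (th y)
  rw [h1 y] at e2
  have hexp : ∑ σ, MM1_q th σ x * MM1_q th σ y * Γ.wS β σ =
      ∑ σ, sp (σ x) * sp (σ y) * Γ.wS β σ - ∑ σ, sp (σ x) * sp (σ (th y)) * Γ.wS β σ -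
      ∑ σ, sp (σ (th x)) * sp (σ y) * Γ.wS β σ +
      ∑ σ, sp (σ (th x)) * sp (σ (th y)) * Γ.wS β σ := by
    rw [← Finset.sum_sub_distrib, ← Finset.sum_sub_distrib, ← Finset.sum_add_distrib]
    refine Finset.sum_congr rfl fun σ _ => ?_
    unfold MM1_q
    ring
  rw [hexp, e1, e2] at hpos
  unfold Gr.IsE
  apply div_le_div_of_nonneg_right _ (SPN_D_pos Γ β).le
  linarith

end H82.IC

end S_H82_IC_MM1

section S_H82_IC_MM2

/-!
# MM2: MMS for the infinite volume free measure and a lattice reflection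

`g : LAut d` an involution (on vertices and edges), `L` one side.  `Λ = bE n ∪ (bE n).image gE`, `W = bx n ∪ (bx n).image gV`: both invariant under `g`, `Λ ⊆ bE (n+k)`.  The graph `Γ` with vertices `↥W`, edges `↥Λ` and the
restrictions of `gV`, `gE` satisfies the hypotheses of `mms_abstract`; `x, y ∈ bx n`.  `isE_tp`: `IsE (σ x σ y) = tp (τ) x y` on `Γ`, and this is `phiG β W Λ false (cn x y)`: `phiG_free` (`N = n + k`) and `tp_iso` / `fkE_conn`
(`j` : `↥Λ → ↥(bE (n+k))` the inclusion, `η = ∅`, the ends of edges of `Λ` are in `W`; paths correspond).  So `phiG β W Λ false (cn x (gV y)) ≤ phiG β W Λ false (cn x y)`.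
By `phiG_free_mono` (`bE n ⊆ Λ ⊆ bE (n+k)`, `cn` increasing) `phiB β n false (cn x z) ≤ phiG β W Λ false (cn x z) ≤ phiB β (n+k) false (cn x z)`, and both bounds tend to `μ (cn x z)` (`free_tendsto` with `S = ∅`,
`up ∅ = univ`).  Let `n → ∞`.
-/

set_option autoImplicit false

open Finset MeasureTheory Filter Topology

namespace H82.IC

variable {d : ℕ}

/-- the finite graph with vertices `W` and edges `Λ`. -/
def MM2_G (W : Finset (Vx d)) (Λ : Finset (Ed d))
    (hW : ∀ e ∈ Λ, (Zl d).s e ∈ W ∧ (Zl d).r e ∈ W) : Gr ↥W ↥Λ where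
  s e := ⟨(Zl d).s e.1, (hW e.1 e.2).1⟩
  r e := ⟨(Zl d).r e.1, (hW e.1 e.2).2⟩

theorem MM2_conn (W : Finset (Vx d)) (Λ : Finset (Ed d))
    (hW : ∀ e ∈ Λ, (Zl d).s e ∈ W ∧ (Zl d).r e ∈ W) (S : Set ↥Λ) (u v : ↥W) :
    (MM2_G W Λ hW).Conn S u v ↔ (Zl d).Conn (Subtype.val '' S) u.1 v.1 := by
  constructor
  · intro h
    induction h with
    | refl => exact conn_refl _ _ _
    | tail _ hab ih =>
      refine ih.tail ?_
      obtain ⟨e, he, hx⟩ := hab
      refine ⟨e.1, ⟨e, he, rfl⟩, ?_⟩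
      rcases hx with ⟨h3, h4⟩ | ⟨h3, h4⟩
      · exact Or.inl ⟨congrArg Subtype.val h3, congrArg Subtype.val h4⟩
      · exact Or.inr ⟨congrArg Subtype.val h3, congrArg Subtype.val h4⟩
  · intro h
    have key : ∀ w, (Zl d).Conn (Subtype.val '' S) u.1 w →
        ∃ hw : w ∈ W, (MM2_G W Λ hW).Conn S u ⟨w, hw⟩ := by
      intro w hw
      induction hw with
      | refl => exact ⟨u.2, conn_refl _ _ _⟩
      | tail _ hab ih =>
        obtain ⟨ha, ihc⟩ := ih
        obtain ⟨_, ⟨e, he, rfl⟩, hx⟩ := hab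
        rcases hx with ⟨h3, h4⟩ | ⟨h3, h4⟩
        · have hb := (hW e.1 e.2).2
          rw [h4] at hb
          exact ⟨hb, ihc.tail ⟨e, he, Or.inl ⟨Subtype.ext h3, Subtype.ext h4⟩⟩⟩
        · have hb := (hW e.1 e.2).1
          rw [h3] at hb
          exact ⟨hb, ihc.tail ⟨e, he, Or.inr ⟨Subtype.ext h3, Subtype.ext h4⟩⟩⟩
    exact (key v.1 h).2

theorem MM2_mem_pul {E Λ : Type*} [Fintype Λ] (j : Λ → E) (ω : Finset E) (a : Λ) :
    a ∈ pul j ω ↔ j a ∈ ω := by
  unfold pul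
  simp only [Finset.mem_filter, Finset.mem_univ, true_and]

theorem MM2_tp {β : ℝ} (hβ : 0 ≤ β) (W : Finset (Vx d)) (Λ : Finset (Ed d))
    (hW : ∀ e ∈ Λ, (Zl d).s e ∈ W ∧ (Zl d).r e ∈ W) (u v : ↥W) :
    (MM2_G W Λ hW).tp (fun _ => Real.tanh β) u v =
      phiG β W Λ (fun _ => false) (cn u.1 v.1) := by
  classical
  obtain ⟨N, hN⟩ := exists_bE Λ
  rw [phiG_free hβ W Λ N hW hN, ← fkE_conn]
  obtain ⟨j', hj'⟩ : ∃ j' : ↥Λ → ↥(bE d N), ∀ a, (j' a).1 = a.1 :=
    ⟨fun a => ⟨a.1, hN a.2⟩, fun _ => rfl⟩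
  have hinj : Function.Injective j' := by
    intro a b hab
    apply Subtype.ext
    rw [← hj' a, ← hj' b, hab]
  have himg : ∀ ω : Set ↥Λ, (Subtype.val '' (j' '' ω) : Set (Ed d)) = Subtype.val '' ω := by
    intro ω
    rw [Set.image_image]
    exact Set.image_congr fun a _ => hj' a
  have hcrs : ∀ (T : Set ↥(bE d N)) (x y : Vx d), (GN d N).Conn T x y ↔
      (Zl d).Conn (Subtype.val '' T) x y := by
    intro T x y
    have hfin : T.Finite := Set.toFinite T
    have h1 := conn_rs (Zl d) (bE d N) hfin.toFinset x y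
    have h2 : ((hfin.toFinset : Finset ↥(bE d N)) : Set ↥(bE d N)) = T := hfin.coe_toFinset
    have h3 : ((vl hfin.toFinset : Finset (Ed d)) : Set (Ed d)) = Subtype.val '' T := by
      unfold vl
      rw [Finset.coe_map, h2]
      rfl
    rw [h2, h3] at h1
    exact h1
  have h := fk_iso (MM2_G W Λ hW) (GN d N) (id : ↥Λ → ↥Λ) j' Function.injective_id hinj ∅ ∅
    (fun _ => Finset.notMem_empty _) (fun _ => Finset.notMem_empty _)
    (fun ω a _ => by
      rw [Finset.coe_empty, Finset.coe_empty, Set.union_empty, Set.union_empty, Set.image_id,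
        MM2_conn, hcrs, himg]
      have e1 : (GN d N).s (j' a) = (Zl d).s a.1 := by
        show (Zl d).s (j' a).1 = _
        rw [hj']
      have e2 : (GN d N).r (j' a) = (Zl d).r a.1 := by
        show (Zl d).r (j' a).1 = _
        rw [hj']
      rw [e1, e2]
      exact Iff.rfl)
    (fun _ => Real.tanh β) (T01_tanh β hβ) (fun ω => ind ((MM2_G W Λ hW).Conn (ω : Set ↥Λ) u v))
  have h1 : ttf (id : ↥Λ → ↥Λ) ∅ (fun _ => Real.tanh β) = fun _ => Real.tanh β := by
    funext e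
    unfold ttf
    rw [if_neg (Finset.notMem_empty _), dif_pos ⟨e, rfl⟩]
  have h2 : ttf j' ∅ (fun _ => Real.tanh β) =
      setT (sb (bE d N) (bE d N \ Λ)) ∅ (fun _ => Real.tanh β) := by
    funext e
    unfold ttf setT
    rw [if_neg (Finset.notMem_empty _), if_neg (Finset.notMem_empty _)]
    by_cases he : e.1 ∈ Λ
    · rw [dif_pos ⟨⟨e.1, he⟩, Subtype.ext (hj' _)⟩, if_neg]
      rw [BR2_mem_sb, Finset.mem_sdiff]
      exact fun h => h.2 he
    · rw [dif_neg, if_pos]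
      · rw [BR2_mem_sb, Finset.mem_sdiff]
        exact ⟨e.2, he⟩
      · rintro ⟨a, ha⟩
        apply he
        rw [← ha, hj']
        exact a.2
  have h3 : ∀ ω : Finset ↥Λ, pul (id : ↥Λ → ↥Λ) ω = ω := by
    intro ω
    ext a
    rw [MM2_mem_pul]
    rfl
  have h4 : ∀ ω' : Finset ↥(bE d N), ind ((MM2_G W Λ hW).Conn ((pul j' ω' : Finset ↥Λ) : Set ↥Λ) u v) =
      ind (glue Λ (fun _ => false) (vl ω') ∈ cn u.1 v.1) := by
    intro ω'
    congr 1
    rw [MM2_conn]
    show _ = (Zl d).Conn (opn (glue Λ (fun _ => false) (vl ω'))) u.1 v.1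
    have h5 : (Subtype.val '' ((pul j' ω' : Finset ↥Λ) : Set ↥Λ) : Set (Ed d)) =
        opn (glue Λ (fun _ => false) (vl ω')) := by
      ext e
      constructor
      · rintro ⟨a, ha, rfl⟩
        have ha' : j' a ∈ ω' := by
          exact (MM2_mem_pul j' ω' a).1 (Finset.mem_coe.1 ha)
        show glue Λ (fun _ => false) (vl ω') a.1 = true
        unfold glue
        rw [if_pos a.2, decide_eq_true_eq, BR2_mem_vl]
        refine ⟨hN a.2, ?_⟩
        have : (⟨a.1, hN a.2⟩ : ↥(bE d N)) = j' a := Subtype.ext (hj' a).symm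
        rw [this]
        exact ha'
      · intro he
        have he' : glue Λ (fun _ => false) (vl ω') e = true := he
        unfold glue at he'
        by_cases heΛ : e ∈ Λ
        · rw [if_pos heΛ, decide_eq_true_eq, BR2_mem_vl] at he'
          obtain ⟨h6, h7⟩ := he'
          refine ⟨⟨e, heΛ⟩, ?_, rfl⟩
          rw [Finset.mem_coe, MM2_mem_pul]
          have : j' ⟨e, heΛ⟩ = ⟨e, h6⟩ := Subtype.ext (hj' _)
          rw [this]
          exact h7
        · rw [if_neg heΛ] at he'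
          exact absurd he' (by simp)
    rw [h5]
  rw [h1, h2] at h
  simp only [h3] at h
  rw [h]
  congr 1
  funext ω'
  exact h4 ω'

theorem mms_lattice (hd : 2 ≤ d) {β : ℝ} (hβ : 0 ≤ β) {μ : Measure (Cf d)} (hμ : IsLim β false μ)
    (g : LAut d) (k : ℕ) (hk : ∀ x, nm (g.gV x) ≤ nm x + k) (h1 : ∀ x, g.gV (g.gV x) = x)
    (h2 : ∀ e, g.gE (g.gE e) = e) (L : Set (Vx d))
    (h4 : ∀ x, x ∈ L → g.gV x ∉ L) (h5 : ∀ x, x ∈ L ∨ g.gV x ∈ L ∨ g.gV x = x)
    (h6 : ∀ e, ((Zl d).s e ∈ L ∧ g.gV ((Zl d).r e) ∈ L) ∨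
      ((Zl d).r e ∈ L ∧ g.gV ((Zl d).s e) ∈ L) → (Zl d).r e = g.gV ((Zl d).s e))
    {x y : Vx d} (hx : x ∈ L ∨ g.gV x = x) (hy : y ∈ L ∨ g.gV y = y) :
    μ.real (cn x (g.gV y)) ≤ μ.real (cn x y) := by
  classical
  have hup : (up (∅ : Finset (Ed d)) : Set (Cf d)) = Set.univ := by
    ext ω
    simp [up]
  have hlim : ∀ z : Vx d, Tendsto (fun m => phiB β m false (cn x z)) atTop (𝓝 (μ.real (cn x z))) := by
    intro z
    have h := free_tendsto hd hβ hμ ∅ x z
    simp only [hup, Set.inter_univ] at h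
    exact h
  have hmain : ∀ n : ℕ, nm x ≤ n → nm y ≤ n →
      phiB β n false (cn x (g.gV y)) ≤ phiB β (n + k) false (cn x y) := by
    intro n hxn hyn
    obtain ⟨Λ, hΛ⟩ : ∃ Λ : Finset (Ed d), Λ = bE d n ∪ (bE d n).image g.gE := ⟨_, rfl⟩
    obtain ⟨W, hWd⟩ : ∃ W : Finset (Vx d), W = bx d n ∪ (bx d n).image g.gV := ⟨_, rfl⟩
    have hWm : ∀ z, z ∈ W ↔ nm z ≤ n ∨ nm (g.gV z) ≤ n := by
      intro z
      rw [hWd, Finset.mem_union, mem_bx, Finset.mem_image]
      constructor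
      · rintro (h | ⟨w, hw, rfl⟩)
        · exact Or.inl h
        · right
          rw [h1]
          exact mem_bx.1 hw
      · rintro (h | h)
        · exact Or.inl h
        · exact Or.inr ⟨g.gV z, mem_bx.2 h, h1 z⟩
    have hΛm : ∀ e, e ∈ Λ ↔ e ∈ bE d n ∨ g.gE e ∈ bE d n := by
      intro e
      rw [hΛ, Finset.mem_union, Finset.mem_image]
      constructor
      · rintro (h | ⟨w, hw, rfl⟩)
        · exact Or.inl h
        · right
          rw [h2]
          exact hw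
      · rintro (h | h)
        · exact Or.inl h
        · exact Or.inr ⟨g.gE e, h, h2 e⟩
    have hW : ∀ e ∈ Λ, (Zl d).s e ∈ W ∧ (Zl d).r e ∈ W := by
      intro e he
      rw [hWm, hWm]
      rcases (hΛm e).1 he with h | h
      · rw [mem_bE] at h
        exact ⟨Or.inl h.1, Or.inl h.2⟩
      · rw [mem_bE] at h
        rcases g.ok e with ⟨h3, h3'⟩ | ⟨h3, h3'⟩
        · rw [h3, h3'] at h
          exact ⟨Or.inr h.1, Or.inr h.2⟩
        · rw [h3, h3'] at h
          exact ⟨Or.inr h.2, Or.inr h.1⟩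
    have hthW : ∀ z ∈ W, g.gV z ∈ W := by
      intro z hz
      rw [hWm] at hz ⊢
      rw [h1]
      exact hz.symm
    have htaΛ : ∀ e ∈ Λ, g.gE e ∈ Λ := by
      intro e he
      rw [hΛm] at he ⊢
      rw [h2]
      exact he.symm
    have hxW : x ∈ W := (hWm x).2 (Or.inl hxn)
    have hyW : y ∈ W := (hWm y).2 (Or.inl hyn)
    have hmms := mms_abstract (MM2_G W Λ hW) hβ (fun z => ⟨g.gV z.1, hthW z.1 z.2⟩)
      (fun e => ⟨g.gE e.1, htaΛ e.1 e.2⟩) {z : ↥W | z.1 ∈ L}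
      (fun z => Subtype.ext (h1 z.1)) (fun e => Subtype.ext (h2 e.1))
      (fun e => by
        rcases g.ok e.1 with ⟨h3, h3'⟩ | ⟨h3, h3'⟩
        · exact Or.inl ⟨Subtype.ext h3, Subtype.ext h3'⟩
        · exact Or.inr ⟨Subtype.ext h3, Subtype.ext h3'⟩)
      (fun z hz => h4 z.1 hz)
      (fun z => by
        rcases h5 z.1 with h | h | h
        · exact Or.inl h
        · exact Or.inr (Or.inl h)
        · exact Or.inr (Or.inr (Subtype.ext h)))
      (fun e he => Subtype.ext (h6 e.1 he))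
      (x := ⟨x, hxW⟩) (y := ⟨y, hyW⟩)
      (hx.imp id fun h => Subtype.ext h) (hy.imp id fun h => Subtype.ext h)
    rw [isE_tp, isE_tp, MM2_tp hβ, MM2_tp hβ] at hmms
    have hsub1 : bE d n ⊆ Λ := fun e he => (hΛm e).2 (Or.inl he)
    have hsub2 : Λ ⊆ bE d (n + k) := by
      intro e he
      rcases (hΛm e).1 he with h | h
      · exact bE_mono (by omega) h
      · have h3 := aut_bE_le g k hk n h
        rwa [h2] at h3
    have l1 : phiB β n false (cn x (g.gV y)) ≤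
        phiG β W Λ (fun _ => false) (cn x (g.gV y)) :=
      phiG_free_mono hβ (bx d n) W (bE d n) Λ (BR2_hW n) hW hsub1 (inc_cn _ _)
    have l2 : phiG β W Λ (fun _ => false) (cn x y) ≤ phiB β (n + k) false (cn x y) :=
      phiG_free_mono hβ W (bx d (n + k)) Λ (bE d (n + k)) hW (BR2_hW (n + k)) hsub2 (inc_cn _ _)
    exact l1.trans (le_trans hmms l2)
  have hlim2 : Tendsto (fun m => phiB β (m + k) false (cn x y)) atTop (𝓝 (μ.real (cn x y))) :=
    (hlim y).comp (tendsto_add_atTop_nat k)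
  refine le_of_tendsto_of_tendsto (hlim (g.gV y)) hlim2 ?_
  filter_upwards [eventually_ge_atTop (max (nm x) (nm y))] with n hn
  exact hmain n (le_trans (le_max_left _ _) hn) (le_trans (le_max_right _ _) hn)

end H82.IC

end S_H82_IC_MM2

section S_H82_IC_MM3

/-!
# MM3: monotonicity and transfers for `G x = μ (cn 0 x)`

* `axis reflection`, `i`, `K : ℤ`: `gV x = Function.update x i (K - x i)`, `gE (x, i) = (update x i (K - x i - 1), i)` (reversed), `gE (x, j) = (gV x, j)` for `j ≠ i`; `nm (gV x) ≤ nm x + |K|`;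
  `L = {x | 2 x i < K}`; fixed points `2 x i = K`; an edge joining `2 x i < K` and `K < 2 (x i + 1)` has `2 x i + 1 = K`, so `gV x = x + e_i`.  For `0 ≤ K`, `2 y i ≤ K`: `G (gV y) ≤ G y` (`mms_lattice` with `x = 0`).
  `G_mono`: `|b| ≤ |z i|` implies `G z ≤ G (update z i b)`: if `z i ≥ 0` take `K = z i + b ≥ 0`, `y = update z i b` (`2b ≤ K`, `gV y = z`).  If `z i < 0` use the invariance under the reflection `K = 0`
  (`lim_aut`, or the case `K = 0` of the above for `y` with `y i ≤ 0`: `G (update y i (-y i)) ≤ G y`), so `G z = G (update z i (-z i))`.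
* `diagonal reflection`, `i ≠ j`, `K : ℤ`: `gV x` exchanges: new `i`-coordinate `x j + K`, new `j`-coordinate `x i - K`; edges: direction `i` ↔ direction `j` (orientation preserved: `gE (x, i) = (gV x, j)`,
  `gE (x, j) = (gV x, i)`), other directions kept; `nm (gV x) ≤ nm x + |K|`; `L = {x | x i - x j < K}`; fixed points `x i - x j = K`; `gV` maps `x i - x j` to `2K - (x i - x j)`; no edge joins the two sides strictly
  (the difference changes by at most one).  For `0 ≤ K`, `y i - y j ≤ K`: `G (gV y) ≤ G y`.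
  `G_transfer`: `0 ≤ k ≤ z i - z j`: `G z ≤ G z'` with `z' = update (update z i (z i - k)) j (z j + k)`: let `y` have `y i = z j + k`, `y j = z i - k` (other coordinates as `z`), `K = k`:
  `y i - y j = z j - z i + 2k ≤ k`, `gV y = z`; so `G z ≤ G y`, and `G y = G z'` by the transposition of the coordinates `i, j` (`exists_pmA`, `lim_aut`, `nm_perm`).
* `G_perm`: invariance under permutations of the coordinates.
-/

set_option autoImplicit false

open Finset MeasureTheory Filter Topology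

namespace H82.IC

variable {d : ℕ}

/-- the properties of the two point function used in the sequel. -/
structure Mms {d : ℕ} (G : Vx d → ℝ) : Prop where
  nonneg : ∀ x, 0 ≤ G x
  le_one : ∀ x, G x ≤ 1
  mono : ∀ (z : Vx d) (i : Fin d) (b : ℤ), |b| ≤ |z i| → G z ≤ G (Function.update z i b)
  transfer : ∀ (z : Vx d) (i j : Fin d) (k : ℤ), i ≠ j → 0 ≤ k → k ≤ z i - z j →
    G z ≤ G (Function.update (Function.update z i (z i - k)) j (z j + k))
  perm : ∀ (π : Equiv.Perm (Fin d)) (x y : Vx d), (∀ i, y (π i) = x i) → G y = G x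
  neg : ∀ x, G (-x) = G x

/-- axis reflection -/
def MM3_av (i : Fin d) (K : ℤ) (x : Vx d) : Vx d := Function.update x i (K - x i)

theorem MM3_av_same (i : Fin d) (K : ℤ) (x : Vx d) : MM3_av i K x i = K - x i := by
  unfold MM3_av
  rw [Function.update_self]

theorem MM3_av_ne (i : Fin d) (K : ℤ) (x : Vx d) {l : Fin d} (h : l ≠ i) :
    MM3_av i K x l = x l := by
  unfold MM3_av
  rw [Function.update_of_ne h]

/-- axis reflection of the edges -/
def MM3_ae (i : Fin d) (K : ℤ) (e : Ed d) : Ed d :=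
  if e.2 = i then (MM3_av i (K - 1) e.1, e.2) else (MM3_av i K e.1, e.2)

theorem MM3_av_inv (i : Fin d) (K : ℤ) : Function.Involutive (MM3_av (d := d) i K) := by
  intro x
  funext l
  by_cases h : l = i
  · subst h
    rw [MM3_av_same, MM3_av_same]; ring
  · rw [MM3_av_ne i K _ h, MM3_av_ne i K _ h]

theorem MM3_ae_inv (i : Fin d) (K : ℤ) : Function.Involutive (MM3_ae (d := d) i K) := by
  intro e
  by_cases h : e.2 = i
  · have h1 : MM3_ae i K e = (MM3_av i (K - 1) e.1, e.2) := if_pos h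
    rw [h1]
    have h2 : MM3_ae i K (MM3_av i (K - 1) e.1, e.2)
        = (MM3_av i (K - 1) (MM3_av i (K - 1) e.1), e.2) := if_pos h
    rw [h2, MM3_av_inv]
  · have h1 : MM3_ae i K e = (MM3_av i K e.1, e.2) := if_neg h
    rw [h1]
    have h2 : MM3_ae i K (MM3_av i K e.1, e.2)
        = (MM3_av i K (MM3_av i K e.1), e.2) := if_neg h
    rw [h2, MM3_av_inv]

theorem MM3_axis (i : Fin d) (K : ℤ) : ∃ g : LAut d, (∀ x, g.gV x = MM3_av i K x) ∧
    (∀ e, g.gE (g.gE e) = e) := by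
  refine ⟨⟨(MM3_av_inv i K).toPerm, (MM3_ae_inv i K).toPerm, ?_⟩, fun x => rfl,
    fun e => MM3_ae_inv i K e⟩
  intro e
  show ((Zl d).s (MM3_ae i K e) = MM3_av i K ((Zl d).s e) ∧
    (Zl d).r (MM3_ae i K e) = MM3_av i K ((Zl d).r e)) ∨
    ((Zl d).s (MM3_ae i K e) = MM3_av i K ((Zl d).r e) ∧
      (Zl d).r (MM3_ae i K e) = MM3_av i K ((Zl d).s e))
  by_cases h : e.2 = i
  · right
    have h1 : MM3_ae i K e = (MM3_av i (K - 1) e.1, e.2) := if_pos h
    rw [h1]
    constructor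
    · show MM3_av i (K - 1) e.1 = MM3_av i K (e.1 + Pi.single e.2 1)
      rw [h]
      funext l
      by_cases hl : l = i
      · subst hl
        rw [MM3_av_same, MM3_av_same, Pi.add_apply, Pi.single_eq_same]; ring
      · rw [MM3_av_ne i _ _ hl, MM3_av_ne i _ _ hl, Pi.add_apply, Pi.single_eq_of_ne hl, add_zero]
    · show MM3_av i (K - 1) e.1 + Pi.single e.2 1 = MM3_av i K e.1
      rw [h]
      funext l
      by_cases hl : l = i
      · subst hl
        rw [Pi.add_apply, MM3_av_same, MM3_av_same, Pi.single_eq_same]; ring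
      · rw [Pi.add_apply, MM3_av_ne i _ _ hl, MM3_av_ne i _ _ hl, Pi.single_eq_of_ne hl, add_zero]
  · left
    have h1 : MM3_ae i K e = (MM3_av i K e.1, e.2) := if_neg h
    rw [h1]
    constructor
    · rfl
    · show MM3_av i K e.1 + Pi.single e.2 1 = MM3_av i K (e.1 + Pi.single e.2 1)
      funext l
      by_cases hl : l = i
      · subst hl
        have h2 : l ≠ e.2 := fun h3 => h h3.symm
        rw [Pi.add_apply, MM3_av_same, MM3_av_same, Pi.add_apply, Pi.single_eq_of_ne h2,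
          add_zero, add_zero]
      · rw [Pi.add_apply, MM3_av_ne i _ _ hl, MM3_av_ne i _ _ hl, Pi.add_apply]

theorem MM3_av_nm (i : Fin d) (K : ℤ) (x : Vx d) : nm (MM3_av i K x) ≤ nm x + K.natAbs := by
  rw [G1_nm_le]
  intro l
  by_cases h : l = i
  · subst h
    rw [MM3_av_same]
    have h1 := G1_le_nm x l
    omega
  · rw [MM3_av_ne i K x h]
    have h1 := G1_le_nm x l
    omega

theorem MM3_axisref (hd : 2 ≤ d) {β : ℝ} (hβ : 0 ≤ β) {μ : Measure (Cf d)}
    (hμ : IsLim β false μ) (i : Fin d) (K : ℤ) (hK : 0 ≤ K) (y : Vx d) (hy : 2 * y i ≤ K) :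
    μ.real (cn 0 (MM3_av i K y)) ≤ μ.real (cn 0 y) := by
  obtain ⟨g, hg, hE⟩ := MM3_axis (d := d) i K
  have key := mms_lattice hd hβ hμ g K.natAbs (fun x => by rw [hg]; exact MM3_av_nm i K x)
    (fun x => by rw [hg, hg]; exact MM3_av_inv i K x) hE {x | 2 * x i < K} ?_ ?_ ?_
    (x := 0) (y := y) ?_ ?_
  · rwa [hg] at key
  · intro x hx hx'
    rw [hg] at hx'
    simp only [Set.mem_ofPred_eq] at hx hx'
    rw [MM3_av_same] at hx'
    omega
  · intro x
    rw [hg]
    simp only [Set.mem_ofPred_eq]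
    rw [MM3_av_same]
    rcases lt_trichotomy (2 * x i) K with h | h | h
    · left; exact h
    · right; right
      unfold MM3_av
      have h2 : K - x i = x i := by omega
      rw [h2, Function.update_eq_self]
    · right; left; omega
  · rintro ⟨x, l⟩ hor
    have hs : (Zl d).s (x, l) = x := rfl
    have hr : (Zl d).r (x, l) = x + Pi.single l 1 := rfl
    rw [hs, hr] at hor ⊢
    rw [hg, hg] at hor
    rw [hg]
    simp only [Set.mem_ofPred_eq] at hor
    rw [MM3_av_same, MM3_av_same, Pi.add_apply] at hor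
    by_cases hl : l = i
    · subst hl
      rw [Pi.single_eq_same] at hor
      have hK2 : K = 2 * x l + 1 := by omega
      funext m
      by_cases hm : m = l
      · subst hm
        rw [MM3_av_same, Pi.add_apply, Pi.single_eq_same]
        omega
      · rw [MM3_av_ne l _ _ hm, Pi.add_apply, Pi.single_eq_of_ne hm, add_zero]
    · rw [Pi.single_eq_of_ne (Ne.symm hl)] at hor
      exfalso
      omega
  · rcases hK.lt_or_eq with h | h
    · left
      simp only [Set.mem_ofPred_eq, Pi.zero_apply]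
      omega
    · right
      rw [hg]
      funext l
      by_cases hl : l = i
      · subst hl
        rw [MM3_av_same, Pi.zero_apply]
        omega
      · rw [MM3_av_ne i _ _ hl]
  · rcases hy.lt_or_eq with h | h
    · left; exact h
    · right
      rw [hg]
      unfold MM3_av
      have h2 : K - y i = y i := by omega
      rw [h2, Function.update_eq_self]

theorem MM3_aut {β : ℝ} (hβ : 0 ≤ β) {μ : Measure (Cf d)} (hμ : IsLim β false μ) (g : LAut d)
    (hg : ∀ x, nm (g.gV x) = nm x) (h0 : g.gV 0 = 0) (x : Vx d) :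
    μ.real (cn 0 (g.gV x)) = μ.real (cn 0 x) := by
  have h := lim_aut hβ hμ g hg (cn 0 x) (meas_cn _ _)
  have e : {ω : Cf d | act g ω ∈ cn 0 x} = cn 0 (g.gV x) := by
    ext ω
    have h2 := act_cn g ω 0 x
    rw [h0] at h2
    exact h2
  rw [e] at h
  exact h

theorem MM3_refl {β : ℝ} (hβ : 0 ≤ β) {μ : Measure (Cf d)} (hμ : IsLim β false μ) (i : Fin d)
    (z : Vx d) : μ.real (cn 0 (MM3_av i 0 z)) = μ.real (cn 0 z) := by
  obtain ⟨g, hg, hE⟩ := MM3_axis (d := d) i 0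
  have h1 := MM3_aut hβ hμ g ?_ ?_ z
  · rwa [hg] at h1
  · intro x
    rw [hg]
    apply le_antisymm
    · have := MM3_av_nm i 0 x
      simpa using this
    · have := MM3_av_nm i 0 (MM3_av i 0 x)
      rw [MM3_av_inv] at this
      simpa using this
  · rw [hg]
    funext l
    by_cases hl : l = i
    · subst hl
      rw [MM3_av_same, Pi.zero_apply, sub_zero]
    · rw [MM3_av_ne i _ _ hl]

theorem MM3_mono0 (hd : 2 ≤ d) {β : ℝ} (hβ : 0 ≤ β) {μ : Measure (Cf d)}
    (hμ : IsLim β false μ) (z : Vx d) (i : Fin d) (b : ℤ) (hz : 0 ≤ z i) (hb : |b| ≤ z i) :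
    μ.real (cn 0 z) ≤ μ.real (cn 0 (Function.update z i b)) := by
  rw [abs_le] at hb
  have h := MM3_axisref hd hβ hμ i (z i + b) (by omega) (Function.update z i b) (by
    rw [Function.update_self]; omega)
  have e : MM3_av i (z i + b) (Function.update z i b) = z := by
    unfold MM3_av
    rw [Function.update_self, Function.update_idem]
    have h2 : z i + b - b = z i := by ring
    rw [h2, Function.update_eq_self]
  rwa [e] at h

theorem MM3_mono (hd : 2 ≤ d) {β : ℝ} (hβ : 0 ≤ β) {μ : Measure (Cf d)}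
    (hμ : IsLim β false μ) (z : Vx d) (i : Fin d) (b : ℤ) (hb : |b| ≤ |z i|) :
    μ.real (cn 0 z) ≤ μ.real (cn 0 (Function.update z i b)) := by
  rcases le_or_gt 0 (z i) with h | h
  · rw [abs_of_nonneg h] at hb
    exact MM3_mono0 hd hβ hμ z i b h hb
  · rw [abs_of_neg h] at hb
    have h1 := MM3_mono0 hd hβ hμ (MM3_av i 0 z) i b (by rw [MM3_av_same]; omega)
      (by rw [MM3_av_same]; omega)
    rw [MM3_refl hβ hμ i z] at h1
    have e : Function.update (MM3_av i 0 z) i b = Function.update z i b := by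
      unfold MM3_av
      rw [Function.update_idem]
    rwa [e] at h1

/-- diagonal reflection -/
def MM3_dv (i j : Fin d) (K : ℤ) (x : Vx d) : Vx d :=
  Function.update (Function.update x i (x j + K)) j (x i - K)

theorem MM3_dv_j (i j : Fin d) (K : ℤ) (x : Vx d) : MM3_dv i j K x j = x i - K := by
  unfold MM3_dv
  rw [Function.update_self]

theorem MM3_dv_i (i j : Fin d) (hij : i ≠ j) (K : ℤ) (x : Vx d) :
    MM3_dv i j K x i = x j + K := by
  unfold MM3_dv
  rw [Function.update_of_ne hij, Function.update_self]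

theorem MM3_dv_ne (i j : Fin d) (K : ℤ) (x : Vx d) {l : Fin d} (h1 : l ≠ i) (h2 : l ≠ j) :
    MM3_dv i j K x l = x l := by
  unfold MM3_dv
  rw [Function.update_of_ne h2, Function.update_of_ne h1]

theorem MM3_dv_inv (i j : Fin d) (hij : i ≠ j) (K : ℤ) :
    Function.Involutive (MM3_dv (d := d) i j K) := by
  intro x
  funext l
  by_cases h1 : l = i
  · subst h1
    rw [MM3_dv_i l j hij, MM3_dv_j]; ring
  · by_cases h2 : l = j
    · subst h2
      rw [MM3_dv_j, MM3_dv_i i l hij]; ring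
    · rw [MM3_dv_ne i j K _ h1 h2, MM3_dv_ne i j K _ h1 h2]

/-- diagonal reflection of the edges -/
def MM3_de (i j : Fin d) (K : ℤ) (e : Ed d) : Ed d := (MM3_dv i j K e.1, Equiv.swap i j e.2)

theorem MM3_de_inv (i j : Fin d) (hij : i ≠ j) (K : ℤ) :
    Function.Involutive (MM3_de (d := d) i j K) := by
  intro e
  show (MM3_dv i j K (MM3_dv i j K e.1), Equiv.swap i j (Equiv.swap i j e.2)) = e
  rw [MM3_dv_inv i j hij, Equiv.swap_apply_self]

theorem MM3_diag (i j : Fin d) (hij : i ≠ j) (K : ℤ) :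
    ∃ g : LAut d, (∀ x, g.gV x = MM3_dv i j K x) ∧ (∀ e, g.gE (g.gE e) = e) := by
  refine ⟨⟨(MM3_dv_inv i j hij K).toPerm, (MM3_de_inv i j hij K).toPerm, ?_⟩, fun x => rfl,
    fun e => MM3_de_inv i j hij K e⟩
  intro e
  left
  refine ⟨rfl, ?_⟩
  show MM3_dv i j K e.1 + Pi.single (Equiv.swap i j e.2) 1
    = MM3_dv i j K (e.1 + Pi.single e.2 1)
  funext l
  rw [Pi.add_apply]
  by_cases h1 : l = i
  · subst h1
    rw [MM3_dv_i l j hij, MM3_dv_i l j hij, Pi.add_apply]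
    by_cases h3 : e.2 = j
    · rw [h3, Equiv.swap_apply_right, Pi.single_eq_same, Pi.single_eq_same]; ring
    · have h4 : l ≠ Equiv.swap l j e.2 := by
        intro h5
        have h6 := congrArg (Equiv.swap l j) h5
        rw [Equiv.swap_apply_self, Equiv.swap_apply_left] at h6
        exact h3 h6.symm
      rw [Pi.single_eq_of_ne h4, Pi.single_eq_of_ne (Ne.symm h3)]; ring
  · by_cases h2 : l = j
    · subst h2
      rw [MM3_dv_j, MM3_dv_j, Pi.add_apply]
      by_cases h3 : e.2 = i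
      · rw [h3, Equiv.swap_apply_left, Pi.single_eq_same, Pi.single_eq_same]; ring
      · have h4 : l ≠ Equiv.swap i l e.2 := by
          intro h5
          have h6 := congrArg (Equiv.swap i l) h5
          rw [Equiv.swap_apply_self, Equiv.swap_apply_right] at h6
          exact h3 h6.symm
        rw [Pi.single_eq_of_ne h4, Pi.single_eq_of_ne (Ne.symm h3)]; ring
    · rw [MM3_dv_ne i j K _ h1 h2, MM3_dv_ne i j K _ h1 h2, Pi.add_apply]
      congr 1
      by_cases h3 : l = e.2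
      · have h4 : Equiv.swap i j e.2 = e.2 := Equiv.swap_apply_of_ne_of_ne
          (by rw [← h3]; exact h1) (by rw [← h3]; exact h2)
        rw [h4]
      · have h4 : l ≠ Equiv.swap i j e.2 := by
          intro h5
          have h6 := congrArg (Equiv.swap i j) h5
          rw [Equiv.swap_apply_self, Equiv.swap_apply_of_ne_of_ne h1 h2] at h6
          exact h3 h6
        rw [Pi.single_eq_of_ne h4, Pi.single_eq_of_ne h3]

theorem MM3_dv_nm (i j : Fin d) (hij : i ≠ j) (K : ℤ) (x : Vx d) :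
    nm (MM3_dv i j K x) ≤ nm x + K.natAbs := by
  rw [G1_nm_le]
  intro l
  have hi := G1_le_nm x i
  have hj := G1_le_nm x j
  have hl := G1_le_nm x l
  by_cases h1 : l = i
  · subst h1
    rw [MM3_dv_i l j hij]
    omega
  · by_cases h2 : l = j
    · subst h2
      rw [MM3_dv_j]
      omega
    · rw [MM3_dv_ne i j K _ h1 h2]
      omega

theorem MM3_dv_fix (i j : Fin d) (hij : i ≠ j) (K : ℤ) (x : Vx d) (h : x i - x j = K) :
    MM3_dv i j K x = x := by
  funext l
  by_cases h1 : l = i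
  · subst h1
    rw [MM3_dv_i l j hij]
    omega
  · by_cases h2 : l = j
    · subst h2
      rw [MM3_dv_j]
      omega
    · rw [MM3_dv_ne i j K _ h1 h2]

theorem MM3_single_diff (i j l : Fin d) (hij : i ≠ j) :
    -1 ≤ (Pi.single l 1 : Vx d) i - (Pi.single l 1 : Vx d) j ∧
      (Pi.single l 1 : Vx d) i - (Pi.single l 1 : Vx d) j ≤ 1 := by
  rw [Pi.single_apply, Pi.single_apply]
  split_ifs <;> constructor <;> norm_num

theorem MM3_diagref (hd : 2 ≤ d) {β : ℝ} (hβ : 0 ≤ β) {μ : Measure (Cf d)}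
    (hμ : IsLim β false μ) (i j : Fin d) (hij : i ≠ j) (K : ℤ) (hK : 0 ≤ K) (y : Vx d)
    (hy : y i - y j ≤ K) :
    μ.real (cn 0 (MM3_dv i j K y)) ≤ μ.real (cn 0 y) := by
  obtain ⟨g, hg, hE⟩ := MM3_diag (d := d) i j hij K
  have key := mms_lattice hd hβ hμ g K.natAbs
    (fun x => by rw [hg]; exact MM3_dv_nm i j hij K x)
    (fun x => by rw [hg, hg]; exact MM3_dv_inv i j hij K x) hE {x | x i - x j < K} ?_ ?_ ?_
    (x := 0) (y := y) ?_ ?_
  · rwa [hg] at key
  · intro x hx hx'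
    rw [hg] at hx'
    simp only [Set.mem_ofPred_eq] at hx hx'
    rw [MM3_dv_i i j hij, MM3_dv_j] at hx'
    omega
  · intro x
    rw [hg]
    simp only [Set.mem_ofPred_eq]
    rw [MM3_dv_i i j hij, MM3_dv_j]
    rcases lt_trichotomy (x i - x j) K with h | h | h
    · left; exact h
    · right; right
      exact MM3_dv_fix i j hij K x h
    · right; left; omega
  · rintro ⟨x, l⟩ hor
    exfalso
    have hs : (Zl d).s (x, l) = x := rfl
    have hr : (Zl d).r (x, l) = x + Pi.single l 1 := rfl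
    rw [hs, hr, hg, hg] at hor
    simp only [Set.mem_ofPred_eq] at hor
    rw [MM3_dv_i i j hij, MM3_dv_j, MM3_dv_i i j hij, MM3_dv_j, Pi.add_apply, Pi.add_apply] at hor
    have h1 := MM3_single_diff i j l hij
    omega
  · rcases hK.lt_or_eq with h | h
    · left
      simp only [Set.mem_ofPred_eq, Pi.zero_apply]
      omega
    · right
      rw [hg]
      exact MM3_dv_fix i j hij K 0 (by rw [Pi.zero_apply, Pi.zero_apply]; omega)
  · rcases hy.lt_or_eq with h | h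
    · left; exact h
    · right
      rw [hg]
      exact MM3_dv_fix i j hij K y h

theorem MM3_perm {β : ℝ} (hβ : 0 ≤ β) {μ : Measure (Cf d)} (hμ : IsLim β false μ)
    (π : Equiv.Perm (Fin d)) (x y : Vx d) (h : ∀ i, y (π i) = x i) :
    μ.real (cn 0 y) = μ.real (cn 0 x) := by
  obtain ⟨g, hg⟩ := exists_pmA π
  have e1 : ∀ x y : Vx d, (∀ i, y (π i) = x i) → g.gV x = y := by
    intro x y hxy
    funext l
    obtain ⟨i, rfl⟩ := π.surjective l
    rw [hg, hxy]
  have h1 := MM3_aut hβ hμ g (fun x => nm_perm π x _ (fun i => hg x i))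
    (e1 0 0 (fun i => rfl)) x
  rwa [e1 x y h] at h1

theorem mms_G (hd : 2 ≤ d) {β : ℝ} (hβ : 0 ≤ β) {μ : Measure (Cf d)} (hμ : IsLim β false μ) :
    Mms (fun x : Vx d => μ.real (cn 0 x)) := by
  have := hμ.1
  refine ⟨fun x => measureReal_nonneg, fun x => measureReal_le_one, ?_, ?_, ?_, ?_⟩
  · intro z i b hb
    exact MM3_mono hd hβ hμ z i b hb
  · intro z i j k hij hk hk2
    show μ.real (cn 0 z) ≤ μ.real (cn 0 _)
    set y : Vx d := Function.update (Function.update z i (z j + k)) j (z i - k) with hy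
    have hyj : y j = z i - k := by rw [hy, Function.update_self]
    have hyi : y i = z j + k := by rw [hy, Function.update_of_ne hij, Function.update_self]
    have h1 := MM3_diagref hd hβ hμ i j hij k hk y (by rw [hyi, hyj]; omega)
    have e1 : MM3_dv i j k y = z := by
      funext l
      by_cases h1 : l = i
      · subst h1
        rw [MM3_dv_i l j hij, hyj]
        ring
      · by_cases h2 : l = j
        · subst h2
          rw [MM3_dv_j, hyi]
          ring
        · rw [MM3_dv_ne i j k _ h1 h2, hy, Function.update_of_ne h2, Function.update_of_ne h1]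
    rw [e1] at h1
    refine h1.trans (le_of_eq ?_)
    symm
    refine MM3_perm hβ hμ (Equiv.swap i j) y _ fun l => ?_
    by_cases h1 : l = i
    · subst h1
      rw [Equiv.swap_apply_left, Function.update_self, hyi]
    · by_cases h2 : l = j
      · subst h2
        rw [Equiv.swap_apply_right, Function.update_of_ne hij, Function.update_self, hyj]
      · rw [Equiv.swap_apply_of_ne_of_ne h1 h2, Function.update_of_ne h2,
          Function.update_of_ne h1, hy, Function.update_of_ne h2, Function.update_of_ne h1]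
  · intro π x y h
    exact MM3_perm hβ hμ π x y h
  · intro x
    obtain ⟨g, hg⟩ := exists_ngA (d := d)
    have h1 := MM3_aut hβ hμ g (fun x => by rw [hg]; exact nm_neg x) (by rw [hg, neg_zero]) x
    rw [hg] at h1
    exact h1

end H82.IC

end S_H82_IC_MM3
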