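import Mathlib
import Pool.Agent.H82.ICM.G05
import Pool.Agent.H82.ICM.G06
import Pool.Agent.H82.ICM.G07

/-! MP_c4c051_pr: this file joins several modules to save build time. -/

section S_H82_IC_MIXA

/-!
# MIXA: the mixing statement, part A (only `mix_limit` in this file)

Notation: `G x = μ (cn 0 x)`, `0 ≤ G ≤ 1`, `G x ≤ μ (arm (nm x) 0) → 0` (`cn_sub_arm`, `tendsto_arm`, `hp`), `μ (cn u v) = G (v - u)` (`G_shift`), `c` with `μ (dw F ∩ cn 0 x) / G x → c`, `G x > 0` (`G_pos`).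

Part A (`mix_limit`): the bracket at the limit.  Let `c1 = 1 + |c|`.  Given `κ > 0`, `K ≥ 0`: choose `ρ > 1`, `δ ∈ (0, 1/2)`, `T ≥ 1` with
   `2 ρ ((1/2)(1+5δ) + 2*4^(d+1)/T) - 2 + 1 ≤ (κ/(8 c1))²`   (the left side tends to `0` as `ρ → 1, δ → 0, T → ∞`),
 then `l0` so large that for `nm x ≥ l0`: `|μ (dw F ∩ cn 0 x) - c G x| ≤ (κ/8) G x`, and `2 ρ K |enF F| G y ≤ κ/8` for all `y` with `nm y + r ≥ l0` (`r` = max of `nm` on `enF F`), then the scales by
 `scales` (`Sca`).  With `be = beS G l L S`, `Bs = BsS d l L S`, `|S| = T` (`S ⊆ range (2T)`):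
   `√(2ρ ∑∑ be u be v G(v-u) G u - 2 ∑ be u G u + 1) ≤ κ/(8 c1)` (`beS_double`, `beS_sum`),
   `2ρK ∑ be u G u ∑_{z ∈ enF F} G(z-u) ≤ κ/8`, `∑ be u |μ (dw F ∩ cn 0 u) - c G u| ≤ κ/8`.
Part B (`mixing`): for each of the finitely many `S ⊆ range (2T)` the bracket of `DDd_main` with `δ u := |μ (dw F ∩ cn 0 u) - c G u| + (1 + |c|) ε'` converges, as `m → ∞`, to the bracket at the limit
 (+ `(1+|c|) ε' ∑ be u`): finite sums, `wired_tendsto`, `free_tendsto` (with `up ∅ = univ`), continuity of the square root; `hδ` of `DDd_main` for `m ≥ m0`, all `N ≥ m + 1`, `η`: by `uni` for `F` and for `∅`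
 (`dw ∅ = univ`, `fkE_conn`): `|fkE - μ (dw F ∩ cn 0 u)| ≤ ε'`, `|tp - G u| ≤ ε'`.  So for `m ≥ m0` the bracket is `≤ κ`.
-/

set_option autoImplicit false

open Finset MeasureTheory Filter Topology

namespace H82.IC

variable {d : ℕ}

theorem MIXA_cof {P : Vx d → Prop} (h : ∀ᶠ x in cofinite, P x) :
    ∃ l1 : ℕ, ∀ x, l1 ≤ nm x → P x := by
  have hf : {x | ¬ P x}.Finite := h
  refine ⟨hf.toFinset.sup nm + 1, fun x hx => ?_⟩
  by_contra hP
  have h1 : nm x ≤ hf.toFinset.sup nm := Finset.le_sup (f := nm) (hf.mem_toFinset.2 hP)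
  omega

theorem MIXA_G0 (hd : 2 ≤ d) {β : ℝ} {μ : Measure (Cf d)} (hμ : IsLim β false μ)
    (hp : μ.real (perc d) = 0) : Tendsto (fun x : Vx d => μ.real (cn 0 x)) cofinite (𝓝 0) := by
  have hprob := hμ.1
  have h1 := tendsto_arm (d := d) (by omega) (μ := μ)
  rw [hp] at h1
  have h2 : Tendsto (nm : Vx d → ℕ) cofinite atTop := by
    rw [tendsto_atTop]
    intro b
    rw [eventually_cofinite]
    refine (bx d b).finite_toSet.subset ?_
    intro x hx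
    have : ¬ b ≤ nm x := hx
    rw [Finset.mem_coe, mem_bx]
    omega
  refine squeeze_zero (fun x => measureReal_nonneg) (fun x => ?_) (h1.comp h2)
  exact measureReal_mono (cn_sub_arm (by omega) (by rw [nm_zero]; omega) le_rfl)

theorem MIXA_num {e W δ ρ A : ℝ} (he : 0 < e) (he1 : e ≤ 1) (hρ : ρ = 1 + e / 4) (hδ : δ = e / 40)
    (hW : W ≤ e / 32) (hA : A ≤ (1 / 2) * (1 + 5 * δ) + 2 * W) :
    2 * ρ * A - 2 * 1 + 1 ≤ e := by
  have h1 : A ≤ 1 / 2 + e / 8 := by rw [hδ] at hA; linarith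
  have h2 : 0 ≤ 2 * ρ := by rw [hρ]; linarith
  have h3 : 2 * ρ * A ≤ 2 * ρ * (1 / 2 + e / 8) := mul_le_mul_of_nonneg_left h1 h2
  have h4 : 2 * ρ * (1 / 2 + e / 8) = 1 + e / 2 + e * e / 16 := by rw [hρ]; ring
  have h5 : e * e ≤ e := mul_le_of_le_one_right he.le he1
  linarith

/-- Part A. -/
theorem mix_limit (hd : 2 ≤ d) {β : ℝ} (hβ : 0 < β) {μ : Measure (Cf d)}
    (hμ : IsLim β false μ) (hμ' : IsLim β true μ) (hp : μ.real (perc d) = 0)
    (hχ : ¬ Summable (fun x : Vx d => μ.real (cn 0 x))) (F : Finset (Ed d)) (c : ℝ)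
    (hc : Tendsto (fun x : Vx d => μ.real (dw F ∩ cn 0 x) / μ.real (cn 0 x)) cofinite (𝓝 c))
    (κ K : ℝ) (hκ : 0 < κ) (hK : 0 ≤ K) :
    ∃ ρ : ℝ, 1 < ρ ∧ ∃ T : ℕ, 1 ≤ T ∧ ∀ J l0 : ℕ, ∃ l L : ℕ → ℕ, ∃ δ : ℝ, 0 < δ ∧ δ ≤ 1 / 2 ∧
      (∀ t, l0 ≤ l t) ∧ (∀ t, J * L t ≤ l (t + 1)) ∧
      Sca (fun x : Vx d => μ.real (cn 0 x)) δ l L ∧
      ∀ S ⊆ Finset.range (2 * T), S.card = T →
        (1 + |c|) * Real.sqrt (2 * ρ * (∑ u ∈ BsS d l L S, ∑ v ∈ BsS d l L S,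
            beS (fun x : Vx d => μ.real (cn 0 x)) l L S u *
              beS (fun x : Vx d => μ.real (cn 0 x)) l L S v *
            (μ.real (cn u v) * μ.real (cn (0 : Vx d) u))) -
          2 * (∑ u ∈ BsS d l L S, beS (fun x : Vx d => μ.real (cn 0 x)) l L S u *
            μ.real (cn (0 : Vx d) u)) + 1) +
        2 * ρ * K * (∑ u ∈ BsS d l L S, beS (fun x : Vx d => μ.real (cn 0 x)) l L S u *
          (μ.real (cn (0 : Vx d) u) * ∑ z ∈ enF F, μ.real (cn u z))) +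
        ∑ u ∈ BsS d l L S, beS (fun x : Vx d => μ.real (cn 0 x)) l L S u *
          |μ.real (dw F ∩ cn 0 u) - c * μ.real (cn (0 : Vx d) u)| ≤ κ / 2 := by
  have hprob := hμ.1
  have hG0 := MIXA_G0 hd hμ hp
  have hnn : ∀ x : Vx d, 0 ≤ (fun x : Vx d => μ.real (cn 0 x)) x := fun x => measureReal_nonneg
  have hle1 : ∀ x : Vx d, (fun x : Vx d => μ.real (cn 0 x)) x ≤ 1 := fun x => measureReal_le_one
  have hc1 : 0 < 1 + |c| := by positivity
  obtain ⟨e0, he0⟩ : ∃ e0 : ℝ, e0 = (κ / (8 * (1 + |c|))) ^ 2 := ⟨_, rfl⟩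
  have he0pos : 0 < e0 := by rw [he0]; positivity
  obtain ⟨e, he⟩ : ∃ e : ℝ, e = min e0 1 := ⟨_, rfl⟩
  have hepos : 0 < e := by rw [he]; exact lt_min he0pos one_pos
  have hee0 : e ≤ e0 := by rw [he]; exact min_le_left _ _
  have he1 : e ≤ 1 := by rw [he]; exact min_le_right _ _
  obtain ⟨ρ, hρ⟩ : ∃ ρ : ℝ, ρ = 1 + e / 4 := ⟨_, rfl⟩
  obtain ⟨δ, hδ⟩ : ∃ δ : ℝ, δ = e / 40 := ⟨_, rfl⟩
  have hδ0 : 0 < δ := by rw [hδ]; positivity
  have hδ1 : δ ≤ 1 / 2 := by rw [hδ]; linarith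
  have hρ1 : 1 < ρ := by rw [hρ]; linarith
  obtain ⟨T, hT⟩ : ∃ T : ℕ, T = ⌈32 * 4 ^ (d + 1) / e⌉₊ + 1 := ⟨_, rfl⟩
  have hT1 : 1 ≤ T := by rw [hT]; omega
  have hTpos : (0 : ℝ) < T := by exact_mod_cast hT1
  have hTle : 32 * 4 ^ (d + 1) / e ≤ (T : ℝ) := by
    rw [hT]
    push_cast
    linarith [Nat.le_ceil (32 * 4 ^ (d + 1) / e : ℝ)]
  have hW : (4 : ℝ) ^ (d + 1) / T ≤ e / 32 := by
    rw [div_le_iff₀ hepos] at hTle
    rw [div_le_iff₀ hTpos]
    linarith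
  refine ⟨ρ, hρ1, T, hT1, fun J l0 => ?_⟩
  -- the eventual bounds
  obtain ⟨ε, hε⟩ : ∃ ε : ℝ, ε = κ / 8 / (2 * ρ * K * (enF F).card + 1) := ⟨_, rfl⟩
  have hM : 0 ≤ 2 * ρ * K * ((enF F).card : ℝ) := by positivity
  have hεpos : 0 < ε := by rw [hε]; positivity
  have hMε : 2 * ρ * K * ((enF F).card : ℝ) * ε ≤ κ / 8 := by
    rw [hε, ← mul_div_assoc, div_le_iff₀ (by linarith)]
    have : 0 ≤ κ / 8 := by linarith
    nlinarith
  obtain ⟨l1, hl1⟩ := MIXA_cof (hG0.eventually_le_const hεpos)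
  obtain ⟨l2, hl2⟩ := MIXA_cof (Metric.tendsto_nhds.1 hc (κ / 8) (by linarith))
  obtain ⟨r, hr⟩ : ∃ r : ℕ, r = (enF F).sup nm := ⟨_, rfl⟩
  obtain ⟨l, L, a1, a2, a3, a4, a5, a6, a7, a8, a9⟩ := scales (fun x : Vx d => μ.real (cn 0 x))
    hnn hle1 hG0 hχ δ hδ0 (by linarith) J (l0 + (l1 + l2 + r))
  have hSca : Sca (fun x : Vx d => μ.real (cn 0 x)) δ l L := ⟨a2, a4, a5, a6, a7, a8, a9⟩
  refine ⟨l, L, δ, hδ0, hδ1, fun t => le_trans (by omega) (a1 t), a3, hSca, ?_⟩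
  intro S hS hST
  have hS1 : 1 ≤ S.card := by omega
  have hb0 := beS_nonneg (fun x : Vx d => μ.real (cn 0 x)) hnn hδ0 hδ1 hSca S
  have hsum : ∑ u ∈ BsS d l L S, beS (fun x : Vx d => μ.real (cn 0 x)) l L S u *
      μ.real (cn (0 : Vx d) u) = 1 :=
    beS_sum (fun x : Vx d => μ.real (cn 0 x)) hnn hδ0 hδ1 hSca S hS1
  have hdbl : ∑ u ∈ BsS d l L S, ∑ v ∈ BsS d l L S,
      beS (fun x : Vx d => μ.real (cn 0 x)) l L S u *
        beS (fun x : Vx d => μ.real (cn 0 x)) l L S v *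
      (μ.real (cn u v) * μ.real (cn (0 : Vx d) u)) ≤
      (1 / 2) * (1 + 5 * δ) + 2 * (4 ^ (d + 1) / (T : ℝ)) := by
    have h1 := beS_double (fun x : Vx d => μ.real (cn 0 x)) hnn hδ0 hδ1 hSca S hS1
    rw [hST, mul_div_assoc] at h1
    refine le_trans (le_of_eq ?_) h1
    refine sum_congr rfl fun u _ => sum_congr rfl fun v _ => ?_
    rw [G_shift hβ.le hμ u v]
  have hfar : ∀ u ∈ BsS d l L S, l0 + (l1 + l2 + r) ≤ nm u := by
    intro u hu
    obtain ⟨t, -, ht, -⟩ := (mem_BsS l L S u).1 hu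
    exact (a1 t).trans ht.le
  have hterm1 : (1 + |c|) * Real.sqrt (2 * ρ * (∑ u ∈ BsS d l L S, ∑ v ∈ BsS d l L S,
            beS (fun x : Vx d => μ.real (cn 0 x)) l L S u *
              beS (fun x : Vx d => μ.real (cn 0 x)) l L S v *
            (μ.real (cn u v) * μ.real (cn (0 : Vx d) u))) -
          2 * (∑ u ∈ BsS d l L S, beS (fun x : Vx d => μ.real (cn 0 x)) l L S u *
            μ.real (cn (0 : Vx d) u)) + 1) ≤ κ / 8 := by
    rw [hsum]
    have h2 : (1 + |c|) * (κ / (8 * (1 + |c|))) = κ / 8 := by field_simp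
    rw [← h2]
    refine mul_le_mul_of_nonneg_left ?_ hc1.le
    rw [Real.sqrt_le_iff]
    refine ⟨by positivity, ?_⟩
    rw [← he0]
    exact (MIXA_num hepos he1 hρ hδ hW hdbl).trans hee0
  have hterm2 : 2 * ρ * K * (∑ u ∈ BsS d l L S, beS (fun x : Vx d => μ.real (cn 0 x)) l L S u *
          (μ.real (cn (0 : Vx d) u) * ∑ z ∈ enF F, μ.real (cn u z))) ≤ κ / 8 := by
    have h2 : ∑ u ∈ BsS d l L S, beS (fun x : Vx d => μ.real (cn 0 x)) l L S u *
          (μ.real (cn (0 : Vx d) u) * ∑ z ∈ enF F, μ.real (cn u z)) ≤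
        ((enF F).card : ℝ) * ε := by
      have h3 : ∀ u ∈ BsS d l L S, beS (fun x : Vx d => μ.real (cn 0 x)) l L S u *
          (μ.real (cn (0 : Vx d) u) * ∑ z ∈ enF F, μ.real (cn u z)) ≤
          beS (fun x : Vx d => μ.real (cn 0 x)) l L S u * μ.real (cn (0 : Vx d) u) *
            (((enF F).card : ℝ) * ε) := by
        intro u hu
        rw [mul_assoc]
        refine mul_le_mul_of_nonneg_left ?_ (hb0 u)
        refine mul_le_mul_of_nonneg_left ?_ measureReal_nonneg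
        rw [← nsmul_eq_mul]
        refine Finset.sum_le_card_nsmul _ _ _ fun z hz => ?_
        rw [G_shift hβ.le hμ u z]
        apply hl1
        have h4 := hfar u hu
        have h5 : nm z ≤ r := by rw [hr]; exact Finset.le_sup (f := nm) hz
        have h6 : nm u ≤ nm z + nm (z - u) := by
          have h7 := nm_sub z (z - u)
          rwa [sub_sub_cancel] at h7
        omega
      refine (Finset.sum_le_sum h3).trans ?_
      rw [← Finset.sum_mul, hsum, one_mul]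
    have h3 : 0 ≤ 2 * ρ * K := by positivity
    calc _ ≤ 2 * ρ * K * (((enF F).card : ℝ) * ε) := mul_le_mul_of_nonneg_left h2 h3
      _ = 2 * ρ * K * ((enF F).card : ℝ) * ε := by ring
      _ ≤ κ / 8 := hMε
  have hterm3 : ∑ u ∈ BsS d l L S, beS (fun x : Vx d => μ.real (cn 0 x)) l L S u *
          |μ.real (dw F ∩ cn 0 u) - c * μ.real (cn (0 : Vx d) u)| ≤ κ / 8 := by
    have h3 : ∀ u ∈ BsS d l L S, beS (fun x : Vx d => μ.real (cn 0 x)) l L S u *
          |μ.real (dw F ∩ cn 0 u) - c * μ.real (cn (0 : Vx d) u)| ≤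
          beS (fun x : Vx d => μ.real (cn 0 x)) l L S u * μ.real (cn (0 : Vx d) u) * (κ / 8) := by
      intro u hu
      rw [mul_assoc]
      refine mul_le_mul_of_nonneg_left ?_ (hb0 u)
      have h4 := hl2 u (by have := hfar u hu; omega)
      have h5 : 0 < μ.real (cn (0 : Vx d) u) := G_pos hβ hμ 0 u
      rw [Real.dist_eq] at h4
      have h6 : μ.real (dw F ∩ cn 0 u) - c * μ.real (cn (0 : Vx d) u) =
          μ.real (cn (0 : Vx d) u) * (μ.real (dw F ∩ cn 0 u) / μ.real (cn (0 : Vx d) u) - c) := by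
        field_simp
      rw [h6, abs_mul, abs_of_pos h5]
      exact mul_le_mul_of_nonneg_left h4.le h5.le
    refine (Finset.sum_le_sum h3).trans ?_
    rw [← Finset.sum_mul, hsum, one_mul]
  linarith

end H82.IC

end S_H82_IC_MIXA

section S_H82_IC_MIX

/-!
# MIX: the mixing statement, part B (only `mixing` in this file; `mix_limit` is in MIXA)

Notation: `G x = μ (cn 0 x)`, `0 ≤ G ≤ 1`, `G x ≤ μ (arm (nm x) 0) → 0` (`cn_sub_arm`, `tendsto_arm`, `hp`), `μ (cn u v) = G (v - u)` (`G_shift`), `c` with `μ (dw F ∩ cn 0 x) / G x → c`, `G x > 0` (`G_pos`).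

Part A (`mix_limit`): the bracket at the limit.  Let `c1 = 1 + |c|`.  Given `κ > 0`, `K ≥ 0`: choose `ρ > 1`, `δ ∈ (0, 1/2)`, `T ≥ 1` with
   `2 ρ ((1/2)(1+5δ) + 2*4^(d+1)/T) - 2 + 1 ≤ (κ/(8 c1))²`   (the left side tends to `0` as `ρ → 1, δ → 0, T → ∞`),
 then `l0` so large that for `nm x ≥ l0`: `|μ (dw F ∩ cn 0 x) - c G x| ≤ (κ/8) G x`, and `2 ρ K |enF F| G y ≤ κ/8` for all `y` with `nm y + r ≥ l0` (`r` = max of `nm` on `enF F`), then the scales by
 `scales` (`Sca`).  With `be = beS G l L S`, `Bs = BsS d l L S`, `|S| = T` (`S ⊆ range (2T)`):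
   `√(2ρ ∑∑ be u be v G(v-u) G u - 2 ∑ be u G u + 1) ≤ κ/(8 c1)` (`beS_double`, `beS_sum`),
   `2ρK ∑ be u G u ∑_{z ∈ enF F} G(z-u) ≤ κ/8`, `∑ be u |μ (dw F ∩ cn 0 u) - c G u| ≤ κ/8`.
Part B (`mixing`): for each of the finitely many `S ⊆ range (2T)` the bracket of `DDd_main` with `δ u := |μ (dw F ∩ cn 0 u) - c G u| + (1 + |c|) ε'` converges, as `m → ∞`, to the bracket at the limit
 (+ `(1+|c|) ε' ∑ be u`): finite sums, `wired_tendsto`, `free_tendsto` (with `up ∅ = univ`), continuity of the square root; `hδ` of `DDd_main` for `m ≥ m0`, all `N ≥ m + 1`, `η`: by `uni` for `F` and for `∅`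
 (`dw ∅ = univ`, `fkE_conn`): `|fkE - μ (dw F ∩ cn 0 u)| ≤ ε'`, `|tp - G u| ≤ ε'`.  So for `m ≥ m0` the bracket is `≤ κ`.
-/

set_option autoImplicit false

open Finset MeasureTheory Filter Topology

namespace H82.IC

variable {d : ℕ}

theorem MIX_tprod {μ : Measure (Cf d)} {β : ℝ}
    (hw : ∀ x y : Vx d, Tendsto (fun m => phiB β m true (cn x y)) atTop (𝓝 (μ.real (cn x y))))
    (hf : ∀ x y : Vx d, Tendsto (fun m => phiB β m false (cn x y)) atTop (𝓝 (μ.real (cn x y))))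
    (c1 ρ K : ℝ) (B E : Finset (Vx d)) (be : Vx d → ℝ) :
    Tendsto (fun m => c1 * Real.sqrt (2 * ρ * (∑ u ∈ B, ∑ v ∈ B, be u * be v *
            (phiB β m true (cn u v) * phiB β m true (cn (0 : Vx d) u))) -
          2 * (∑ u ∈ B, be u * phiB β m false (cn (0 : Vx d) u)) + 1) +
        2 * ρ * K * (∑ u ∈ B, be u * (phiB β m true (cn (0 : Vx d) u) *
          ∑ z ∈ E, phiB β m true (cn u z)))) atTop
      (𝓝 (c1 * Real.sqrt (2 * ρ * (∑ u ∈ B, ∑ v ∈ B, be u * be v *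
            (μ.real (cn u v) * μ.real (cn (0 : Vx d) u))) -
          2 * (∑ u ∈ B, be u * μ.real (cn (0 : Vx d) u)) + 1) +
        2 * ρ * K * (∑ u ∈ B, be u * (μ.real (cn (0 : Vx d) u) *
          ∑ z ∈ E, μ.real (cn u z))))) := by
  have h1 : Tendsto (fun m => ∑ u ∈ B, ∑ v ∈ B, be u * be v *
            (phiB β m true (cn u v) * phiB β m true (cn (0 : Vx d) u))) atTop
      (𝓝 (∑ u ∈ B, ∑ v ∈ B, be u * be v *
            (μ.real (cn u v) * μ.real (cn (0 : Vx d) u)))) :=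
    tendsto_finsetSum _ fun u _ => tendsto_finsetSum _ fun v _ =>
      ((hw u v).mul (hw 0 u)).const_mul _
  have h2 : Tendsto (fun m => ∑ u ∈ B, be u * phiB β m false (cn (0 : Vx d) u)) atTop
      (𝓝 (∑ u ∈ B, be u * μ.real (cn (0 : Vx d) u))) :=
    tendsto_finsetSum _ fun u _ => (hf 0 u).const_mul _
  have h3 : Tendsto (fun m => ∑ u ∈ B, be u * (phiB β m true (cn (0 : Vx d) u) *
          ∑ z ∈ E, phiB β m true (cn u z))) atTop
      (𝓝 (∑ u ∈ B, be u * (μ.real (cn (0 : Vx d) u) * ∑ z ∈ E, μ.real (cn u z)))) :=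
    tendsto_finsetSum _ fun u _ =>
      ((hw 0 u).mul (tendsto_finsetSum _ fun z _ => hw u z)).const_mul _
  refine Tendsto.add ?_ (h3.const_mul _)
  refine Tendsto.const_mul _ ?_
  refine (Real.continuous_sqrt.tendsto _).comp ?_
  exact ((h1.const_mul _).sub (h2.const_mul _)).add tendsto_const_nhds

theorem MIX_Lmono {l L : ℕ → ℕ} (h1 : ∀ t, l t < L t) (h2 : ∀ t, L t ≤ l (t + 1)) {s t : ℕ}
    (h : s ≤ t) : L s ≤ L t := by
  have : Monotone L := monotone_nat_of_le_succ fun n => ((h2 n).trans (h1 (n + 1)).le)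
  exact this h

theorem MIX_sub (F : Finset (Ed d)) : ∃ m0, ∀ m, m0 ≤ m → F ⊆ bE d m := by
  obtain ⟨n, hn⟩ := exists_bE F
  exact ⟨n, fun m hm => hn.trans (bE_mono hm)⟩

/-- Part B. -/
theorem mixing (hd : 2 ≤ d) {β : ℝ} (hβ : 0 < β) {μ : Measure (Cf d)}
    (hμ : IsLim β false μ) (hμ' : IsLim β true μ) (hp : μ.real (perc d) = 0)
    (hχ : ¬ Summable (fun x : Vx d => μ.real (cn 0 x))) (F : Finset (Ed d)) (c : ℝ)
    (hc : Tendsto (fun x : Vx d => μ.real (dw F ∩ cn 0 x) / μ.real (cn 0 x)) cofinite (𝓝 c))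
    (κ K : ℝ) (hκ : 0 < κ) (hK : 0 ≤ K) :
    ∃ ρ : ℝ, 1 < ρ ∧ ∃ T : ℕ, 1 ≤ T ∧ ∀ J : ℕ, ∃ l L : ℕ → ℕ,
      (∀ t, l t < L t) ∧ (∀ t, L t ≤ l (t + 1)) ∧ (∀ t, J * L t ≤ l (t + 1)) ∧
      ∃ m0 : ℕ, ∀ m, m0 ≤ m → F ⊆ bE d m ∧ L (2 * T) ≤ m ∧ ∀ N, m + 1 ≤ N → ∀ n : ℕ,
        ∀ S ⊆ Finset.range (2 * T), S.card = T →
        (∀ t ∈ S, ∀ u : Vx d, l t < nm u → nm u ≤ L t → MMd d β m n N 0 ≤ ρ * MMd d β m n N u) →
        (∀ z ∈ enF F, MMd d β m n N z ≤ K * MMd d β m n N 0) →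
        DDd d β m n N F c ≤ κ * MMd d β m n N 0 := by
  classical
  obtain ⟨ρ, hρ, T, hT, hmix⟩ := mix_limit hd hβ hμ hμ' hp hχ F c hc κ K hκ hK
  refine ⟨ρ, hρ, T, hT, fun J => ?_⟩
  obtain ⟨l, L, δ, hδ, hδ1, -, hJ, hS, hbr⟩ := hmix J 0
  refine ⟨l, L, hS.lt, hS.le, hJ, ?_⟩
  have hw : ∀ x y : Vx d, Tendsto (fun m => phiB β m true (cn x y)) atTop (𝓝 (μ.real (cn x y))) := by
    intro x y
    have h := wired_tendsto hd hβ.le hμ hμ' hp ∅ x y
    have hu : (up (∅ : Finset (Ed d)) : Set (Cf d)) = Set.univ := by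
      ext ω; simp [up]
    simpa only [hu, Set.inter_univ] using h
  have hf : ∀ x y : Vx d, Tendsto (fun m => phiB β m false (cn x y)) atTop (𝓝 (μ.real (cn x y))) := by
    intro x y
    have h := free_tendsto hd hβ.le hμ ∅ x y
    have hu : (up (∅ : Finset (Ed d)) : Set (Cf d)) = Set.univ := by
      ext ω; simp [up]
    simpa only [hu, Set.inter_univ] using h
  have hG0 : ∀ x : Vx d, 0 ≤ μ.real (cn 0 x) := fun x => measureReal_nonneg
  have hbe0 : ∀ S u, 0 ≤ beS (fun x : Vx d => μ.real (cn 0 x)) l L S u := fun S u =>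
    beS_nonneg _ hG0 hδ hδ1 hS S u
  set be := beS (fun x : Vx d => μ.real (cn 0 x)) l L with hbe
  have hc1 : 0 < 1 + |c| := by positivity
  -- the family of sets
  set P := Finset.powersetCard T (Finset.range (2 * T)) with hP
  have hPm : ∀ S, S ∈ P ↔ S ⊆ Finset.range (2 * T) ∧ S.card = T := fun S =>
    Finset.mem_powersetCard
  set BB : ℝ := ∑ S ∈ P, ∑ u ∈ BsS d l L S, be S u with hBB
  have hBB0 : 0 ≤ BB := Finset.sum_nonneg fun S _ => Finset.sum_nonneg fun u _ => hbe0 S u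
  have hBS : ∀ S ∈ P, ∑ u ∈ BsS d l L S, be S u ≤ BB := fun S h =>
    Finset.single_le_sum (f := fun S => ∑ u ∈ BsS d l L S, be S u)
      (fun S _ => Finset.sum_nonneg fun u _ => hbe0 S u) h
  set ε : ℝ := κ / (4 * (1 + |c|) * (BB + 1)) with hε
  have hε0 : 0 < ε := by positivity
  have hεB : (1 + |c|) * ε * (BB + 1) = κ / 4 := by
    rw [hε]; field_simp
  -- finite union of the annuli
  set U := P.biUnion (BsS d l L) with hU
  have e1 : ∀ u ∈ U, ∃ m0, ∀ m, m0 ≤ m → ∀ N, m + 1 ≤ N → ∀ η : Finset ↥(bE d N),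
      η ⊆ E1 d m N →
      |(GN d N).fkE (setT (E1 d m N) η (fun _ => Real.tanh β))
        (fun ω => ind (Disjoint ω (sb (bE d N) F)) * ind ((GN d N).Conn (ω : Set ↥(bE d N)) 0 u)) -
        c * (GN d N).tp (setT (E1 d m N) η (fun _ => Real.tanh β)) 0 u| ≤
        |μ.real (dw F ∩ cn 0 u) - c * μ.real (cn (0 : Vx d) u)| + (1 + |c|) * ε := by
    intro u _
    obtain ⟨m1, h1⟩ := uni hd hβ.le hμ hμ' hp F 0 u ε hε0
    obtain ⟨m2, h2⟩ := uni hd hβ.le hμ hμ' hp ∅ 0 u ε hε0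
    refine ⟨max m1 m2, fun m hm N hN η hη => ?_⟩
    have a1 := h1 m ((le_max_left _ _).trans hm) N hN η hη
    have a2 := h2 m ((le_max_right _ _).trans hm) N hN η hη
    have hd0 : (dw (∅ : Finset (Ed d)) : Set (Cf d)) = Set.univ := by
      ext ω; simp [dw]
    have hs0 : sb (bE d N) (∅ : Finset (Ed d)) = ∅ := by
      unfold sb; simp
    rw [hd0, Set.univ_inter, hs0] at a2
    have hfk : (GN d N).fkE (setT (E1 d m N) η (fun _ => Real.tanh β))
        (fun ω => ind (Disjoint ω ∅) * ind ((GN d N).Conn (ω : Set ↥(bE d N)) 0 u)) =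
        (GN d N).tp (setT (E1 d m N) η (fun _ => Real.tanh β)) 0 u := by
      rw [← fkE_conn]
      congr 1
      funext ω
      simp [ind]
    rw [hfk] at a2
    set A := (GN d N).fkE (setT (E1 d m N) η (fun _ => Real.tanh β))
        (fun ω => ind (Disjoint ω (sb (bE d N) F)) * ind ((GN d N).Conn (ω : Set ↥(bE d N)) 0 u))
    set Q := (GN d N).tp (setT (E1 d m N) η (fun _ => Real.tanh β)) 0 u
    have a3 : A - c * Q = (A - μ.real (dw F ∩ cn 0 u)) +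
        (μ.real (dw F ∩ cn 0 u) - c * μ.real (cn (0 : Vx d) u)) +
        (-c) * (Q - μ.real (cn (0 : Vx d) u)) := by ring
    rw [a3]
    refine (abs_add_three _ _ _).trans ?_
    rw [abs_mul, abs_neg]
    have a4 : |c| * |Q - μ.real (cn (0 : Vx d) u)| ≤ |c| * ε :=
      mul_le_mul_of_nonneg_left a2 (abs_nonneg _)
    linarith
  have e1' : ∃ m0, ∀ m, m0 ≤ m → ∀ u ∈ U, ∀ N, m + 1 ≤ N → ∀ η : Finset ↥(bE d N),
      η ⊆ E1 d m N →
      |(GN d N).fkE (setT (E1 d m N) η (fun _ => Real.tanh β))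
        (fun ω => ind (Disjoint ω (sb (bE d N) F)) * ind ((GN d N).Conn (ω : Set ↥(bE d N)) 0 u)) -
        c * (GN d N).tp (setT (E1 d m N) η (fun _ => Real.tanh β)) 0 u| ≤
        |μ.real (dw F ∩ cn 0 u) - c * μ.real (cn (0 : Vx d) u)| + (1 + |c|) * ε := by
    choose! g hg using e1
    exact ⟨U.sup g, fun m hm u hu N hN η hη => hg u hu m ((Finset.le_sup hu).trans hm) N hN η hη⟩
  have e2 : ∀ S ∈ P, ∃ m0, ∀ m, m0 ≤ m →
      (1 + |c|) * Real.sqrt (2 * ρ * (∑ u ∈ BsS d l L S, ∑ v ∈ BsS d l L S, be S u * be S v *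
            (phiB β m true (cn u v) * phiB β m true (cn (0 : Vx d) u))) -
          2 * (∑ u ∈ BsS d l L S, be S u * phiB β m false (cn (0 : Vx d) u)) + 1) +
        2 * ρ * K * (∑ u ∈ BsS d l L S, be S u * (phiB β m true (cn (0 : Vx d) u) *
          ∑ z ∈ enF F, phiB β m true (cn u z))) ≤
      (1 + |c|) * Real.sqrt (2 * ρ * (∑ u ∈ BsS d l L S, ∑ v ∈ BsS d l L S, be S u * be S v *
            (μ.real (cn u v) * μ.real (cn (0 : Vx d) u))) -
          2 * (∑ u ∈ BsS d l L S, be S u * μ.real (cn (0 : Vx d) u)) + 1) +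
        2 * ρ * K * (∑ u ∈ BsS d l L S, be S u * (μ.real (cn (0 : Vx d) u) *
          ∑ z ∈ enF F, μ.real (cn u z))) + κ / 4 := by
    intro S _
    have h := MIX_tprod hw hf (1 + |c|) ρ K (BsS d l L S) (enF F) (be S)
    have h4 : (0 : ℝ) < κ / 4 := by positivity
    have h' := h.eventually (eventually_le_nhds (lt_add_of_pos_right _ h4))
    obtain ⟨m0, hm0⟩ := eventually_atTop.1 h'
    exact ⟨m0, fun m hm => hm0 m hm⟩
  choose! g2 hg2 using e2
  obtain ⟨m1, hm1⟩ := e1'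
  obtain ⟨m3, hm3⟩ := MIX_sub F
  refine ⟨max (max m1 (P.sup g2)) (max m3 (L (2 * T))), fun m hm => ?_⟩
  have hmm1 : m1 ≤ m := ((le_max_left _ _).trans (le_max_left _ _)).trans hm
  have hmm2 : P.sup g2 ≤ m := ((le_max_right _ _).trans (le_max_left _ _)).trans hm
  have hmm3 : m3 ≤ m := ((le_max_left _ _).trans (le_max_right _ _)).trans hm
  have hmm4 : L (2 * T) ≤ m := ((le_max_right _ _).trans (le_max_right _ _)).trans hm
  refine ⟨hm3 m hmm3, hmm4, fun N hN n S hSs hSc hM hKK => ?_⟩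
  have hSP : S ∈ P := (hPm S).2 ⟨hSs, hSc⟩
  have hBs : BsS d l L S ⊆ bx d m := by
    intro u hu
    obtain ⟨t, ht, -, h2⟩ := (mem_BsS l L S u).1 hu
    have h3 : t < 2 * T := Finset.mem_range.1 (hSs ht)
    exact mem_bx.2 (h2.trans ((MIX_Lmono hS.lt hS.le h3.le).trans hmm4))
  have hM0 : 0 ≤ MMd d β m n N 0 := by
    have h0 : nm (0 : Vx d) ≤ m := by simp [nm]
    exact (MMd_bounds hβ.le (n := n) (by omega : m ≤ N) h0).1
  have hmain := DDd_main hd hβ.le (n := n) hN (hm3 m hmm3) c (BsS d l L S) hBs (be S) (hbe0 S)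
    (fun u => |μ.real (dw F ∩ cn 0 u) - c * μ.real (cn (0 : Vx d) u)| + (1 + |c|) * ε)
    (fun η hη u hu => hm1 m hmm1 u (Finset.mem_biUnion.2 ⟨S, hSP, hu⟩) N hN η hη)
    ρ K (by linarith) hK
    (fun u hu => by
      obtain ⟨t, ht, h1, h2⟩ := (mem_BsS l L S u).1 hu
      exact hM t ht u h1 h2) hKK
  refine hmain.trans ?_
  rw [mul_comm κ]
  refine mul_le_mul_of_nonneg_left ?_ hM0
  have b1 := hg2 S hSP m ((Finset.le_sup hSP).trans hmm2)
  have b2 := hbr S hSs hSc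
  have b3 : ∑ u ∈ BsS d l L S, be S u *
      (|μ.real (dw F ∩ cn 0 u) - c * μ.real (cn (0 : Vx d) u)| + (1 + |c|) * ε) =
      ∑ u ∈ BsS d l L S, be S u * |μ.real (dw F ∩ cn 0 u) - c * μ.real (cn (0 : Vx d) u)| +
      (1 + |c|) * ε * ∑ u ∈ BsS d l L S, be S u := by
    rw [Finset.mul_sum, ← Finset.sum_add_distrib]
    exact Finset.sum_congr rfl fun u _ => by ring
  have b4 : (1 + |c|) * ε * ∑ u ∈ BsS d l L S, be S u ≤ κ / 4 := by
    rw [← hεB]
    exact mul_le_mul_of_nonneg_left ((hBS S hSP).trans (by linarith)) (by positivity)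
  rw [b3]
  linarith

end H82.IC

end S_H82_IC_MIX

section S_H82_IC_SYM

/-!
# SYM: the symmetry bound

`ar n = μ (arm n 0)`.  For `k = nm u ≤ n`:  `μ (arm n u) ≥ (1/2) (ar n + ar (n+k)) + (1/(2d)) (ar (n-k) - ar n)`.

Translate: with `g` the translation by `u`, `arm n u = {ω | act g ω ∈ Y}`, `Y = {ω | ∃ y, nm (y + u) ≥ n ∧ 0 ↔ y}` (`act_cn`; a point `b = y + u` of norm `≥ n` connected to `u` gives `arm n u` by
`exit_box`; conversely `nm b = n` for `b ∈ bdry n`).  So `μ (arm n u) = μ Y` (`lim_shift`; `Y` is a countable union of measurable sets).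
Three disjoint measurable subsets of `Y`:
(i) `H = arm (n+k) 0`: `0 ↔ y`, `nm y = n + k`, `nm (y+u) ≥ n`.
(ii) `A \ H`, `A = {∃ i y, 0 ↔ y ∧ |y i| = n ∧ 0 ≤ y i * u i} ∩ arm n 0`: `|y i + u i| ≥ n`.  With `A' = {∃ i y, 0 ↔ y ∧ |y i| = n ∧ y i * u i ≤ 0} ∩ arm n 0`:
  `A ∪ A' = arm n 0`  (`exit`: some `y` with `nm y = n`, `|y i| = n`), and `x ↦ -x` (`exists_ngA`, `lim_aut`) exchanges `A \ H` and `A' \ H` (`H`, `arm n 0` are invariant: `arm n 0` is
  `{∃ y, nm y ≥ n ∧ 0 ↔ y}`), so `μ (A \ H) = μ (A' \ H) ≥ (1/2) μ (arm n 0 \ H) = (1/2)(ar n - ar (n+k))`.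
(iii) `D \ arm n 0`: choose `i0` with `|u i0| = k`, sign `s0 = ±1` with `s0 * u i0 = k`; `D i s = {∃ y, 0 ↔ y ∧ s * y i ≥ n - k}`, `D = D i0 s0`: `s0 (y i0 + u i0) ≥ n`, so `D ⊆ Y`.
  `arm (n-k) 0 = ⋃ over i, s of D i s` (nonneg integer `n - k`: `nm y ≥ n-k` iff some `s * y i ≥ n - k`), and by `ngA` and the transposition of coordinates `pmA (swap i i0)` all `2d` numbers
  `μ (D i s \ arm n 0)` are equal, so `μ (D \ arm n 0) ≥ (1/(2d)) μ (arm (n-k) 0 \ arm n 0)`.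
Sum: `ar (n+k) + (1/2)(ar n - ar (n+k)) + (1/(2d))(ar (n-k) - ar n)`.
* `arm_ge`: (i) alone.
-/

set_option autoImplicit false

open Finset MeasureTheory Filter Topology

namespace H82.IC

variable {d : ℕ}

/-- the event that `0` is connected to a vertex with the property `p`. -/
def SYM_E (p : Vx d → Prop) : Set (Cf d) := {ω | ∃ y, p y ∧ ω ∈ (cn 0 y : Set (Cf d))}

theorem SYM_E_meas (p : Vx d → Prop) : MeasurableSet (SYM_E p) := by
  have h : SYM_E p = ⋃ y : {y : Vx d // p y}, (cn 0 y.1 : Set (Cf d)) := by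
    ext ω
    simp [SYM_E]
  rw [h]
  exact MeasurableSet.iUnion (fun y => meas_cn 0 y.1)

theorem SYM_E_mono {p q : Vx d → Prop} (h : ∀ y, p y → q y) : SYM_E p ⊆ SYM_E q := by
  rintro ω ⟨y, hy, hc⟩
  exact ⟨y, h y hy, hc⟩

theorem SYM_E_act (g : LAut d) (hg0 : g.gV 0 = 0) (p q : Vx d → Prop)
    (h : ∀ y, p y ↔ q (g.gV y)) (ω : Cf d) : act g ω ∈ SYM_E p ↔ ω ∈ SYM_E q := by
  constructor
  · rintro ⟨y, hy, hc⟩
    refine ⟨g.gV y, (h y).mp hy, ?_⟩
    have := (act_cn g ω 0 y).mp hc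
    rwa [hg0] at this
  · rintro ⟨y, hy, hc⟩
    refine ⟨g.gV.symm y, (h _).mpr (by rwa [Equiv.apply_symm_apply]), ?_⟩
    apply (act_cn g ω 0 _).mpr
    rwa [hg0, Equiv.apply_symm_apply]

theorem SYM_arm (hd : 1 ≤ d) {m : ℕ} {u : Vx d} (hu : nm u ≤ m) (ω : Cf d) :
    ω ∈ (arm m u : Set (Cf d)) ↔ ∃ y, m ≤ nm y ∧ ω ∈ (cn u y : Set (Cf d)) := by
  constructor
  · rintro ⟨y, hy, hc⟩
    exact ⟨y, ((mem_bdry hd).mp hy).ge, hc⟩
  · rintro ⟨y, hy, hc⟩
    obtain ⟨b, hb, hcb⟩ := exit_box hd hu hy hc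
    exact ⟨b, hb, conn_mono _ Set.inter_subset_left hcb⟩

theorem SYM_arm0 (hd : 1 ≤ d) (m : ℕ) :
    (arm m (0 : Vx d) : Set (Cf d)) = SYM_E (fun y => m ≤ nm y) := by
  ext ω
  exact SYM_arm hd (by rw [nm_zero]; exact Nat.zero_le _) ω

theorem SYM_le_nm (y : Vx d) (i : Fin d) : |y i| ≤ (nm y : ℤ) := by
  have h := Finset.le_sup (f := fun i => (y i).natAbs) (Finset.mem_univ i)
  have h' : (y i).natAbs ≤ nm y := h
  rw [Int.abs_eq_natAbs]
  exact_mod_cast h'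

theorem SYM_exists_nm (hd : 1 ≤ d) (y : Vx d) : ∃ i, |y i| = (nm y : ℤ) := by
  have hne : (Finset.univ : Finset (Fin d)).Nonempty := ⟨⟨0, hd⟩, Finset.mem_univ _⟩
  obtain ⟨i, _, hi⟩ := Finset.exists_mem_eq_sup Finset.univ hne (fun i => (y i).natAbs)
  refine ⟨i, ?_⟩
  have h' : nm y = (y i).natAbs := hi
  rw [Int.abs_eq_natAbs, h']

theorem SYM_shift (hd : 1 ≤ d) {β : ℝ} (hβ : 0 ≤ β) {μ : Measure (Cf d)} (hμ : IsLim β false μ)
    (n : ℕ) (u : Vx d) (hu : nm u ≤ n) :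
    μ.real (arm n u) = μ.real (SYM_E (fun y => n ≤ nm (y + u))) := by
  obtain ⟨g, hg, _⟩ := exists_trA u
  rw [← lim_shift hβ hμ g u hg _ (SYM_E_meas _)]
  congr 1
  ext ω
  rw [SYM_arm hd hu]
  constructor
  · rintro ⟨y, hy, hc⟩
    refine ⟨y - u, ?_, ?_⟩
    · change n ≤ nm (y - u + u)
      rwa [sub_add_cancel]
    apply (act_cn g ω 0 _).mpr
    rwa [hg, hg, zero_add, sub_add_cancel]
  · rintro ⟨y, hy, hc⟩
    refine ⟨y + u, hy, ?_⟩
    have := (act_cn g ω 0 _).mp hc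
    rwa [hg, hg, zero_add] at this

theorem SYM_H_sub (n : ℕ) (u : Vx d) :
    SYM_E (fun y => n + nm u ≤ nm y) ⊆ SYM_E (fun y => n ≤ nm (y + u)) := by
  apply SYM_E_mono
  intro y hy
  have h := nm_sub (y + u) u
  rw [add_sub_cancel_right] at h
  omega

theorem SYM_neg_half (hd : 1 ≤ d) {β : ℝ} (hβ : 0 ≤ β) {μ : Measure (Cf d)} (hμ : IsLim β false μ)
    (n k : ℕ) (u : Vx d) :
    (1 / 2) * μ.real (SYM_E (fun y => n ≤ nm y) \ SYM_E (fun y => k ≤ nm y)) ≤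
      μ.real (SYM_E (fun y => ∃ i, (n : ℤ) ≤ |y i| ∧ 0 ≤ y i * u i) \
        SYM_E (fun y => k ≤ nm y)) := by
  haveI : IsProbabilityMeasure μ := hμ.1
  obtain ⟨g, hg⟩ := exists_ngA (d := d)
  have hg0 : g.gV 0 = 0 := by rw [hg, neg_zero]
  have hgn : ∀ x, nm (g.gV x) = nm x := fun x => by rw [hg, nm_neg]
  have heq : μ.real (SYM_E (fun y => ∃ i, (n : ℤ) ≤ |y i| ∧ y i * u i ≤ 0) \
        SYM_E (fun y => k ≤ nm y)) = μ.real (SYM_E (fun y => ∃ i, (n : ℤ) ≤ |y i| ∧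
          0 ≤ y i * u i) \ SYM_E (fun y => k ≤ nm y)) := by
    rw [← lim_aut hβ hμ g hgn _ ((SYM_E_meas (fun y => ∃ i, (n : ℤ) ≤ |y i| ∧
      0 ≤ y i * u i)).diff (SYM_E_meas (fun y => k ≤ nm y)))]
    congr 1
    ext ω
    have h1 := SYM_E_act g hg0 (fun y => ∃ i, (n : ℤ) ≤ |y i| ∧ 0 ≤ y i * u i)
      (fun y => ∃ i, (n : ℤ) ≤ |y i| ∧ y i * u i ≤ 0) (by
        intro y
        simp only [hg, Pi.neg_apply, abs_neg]
        constructor
        · rintro ⟨i, h1, h2⟩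
          exact ⟨i, h1, by nlinarith⟩
        · rintro ⟨i, h1, h2⟩
          exact ⟨i, h1, by nlinarith⟩) ω
    have h2 := SYM_E_act g hg0 (fun y => k ≤ nm y) (fun y => k ≤ nm y) (by
        intro y
        rw [hgn]) ω
    rw [Set.mem_sdiff]
    change _ ↔ act g ω ∈ _ ∧ act g ω ∉ _
    rw [h1, h2]
  have hsub : SYM_E (fun y : Vx d => n ≤ nm y) \ SYM_E (fun y => k ≤ nm y) ⊆
      (SYM_E (fun y => ∃ i, (n : ℤ) ≤ |y i| ∧ 0 ≤ y i * u i) \ SYM_E (fun y => k ≤ nm y)) ∪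
      (SYM_E (fun y => ∃ i, (n : ℤ) ≤ |y i| ∧ y i * u i ≤ 0) \ SYM_E (fun y => k ≤ nm y)) := by
    rintro ω ⟨⟨y, hy, hc⟩, h2⟩
    obtain ⟨i, hi⟩ := SYM_exists_nm hd y
    rcases le_total 0 (y i * u i) with h | h
    · left
      exact ⟨⟨y, ⟨i, by rw [hi]; exact_mod_cast hy, h⟩, hc⟩, h2⟩
    · right
      exact ⟨⟨y, ⟨i, by rw [hi]; exact_mod_cast hy, h⟩, hc⟩, h2⟩
  have h3 : μ.real (SYM_E (fun y : Vx d => n ≤ nm y) \ SYM_E (fun y => k ≤ nm y)) ≤ _ :=
    (measureReal_mono hsub (measure_ne_top μ _)).trans (measureReal_union_le _ _)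
  rw [heq] at h3
  linarith

/-- the event that `0` is connected to a point `y` with `s * y i ≥ m`. -/
def SYM_D (m : ℤ) (i : Fin d) (s : ℤ) : Set (Cf d) := SYM_E (fun y => m ≤ s * y i)

theorem SYM_D_neg {β : ℝ} (hβ : 0 ≤ β) {μ : Measure (Cf d)} (hμ : IsLim β false μ)
    (m : ℤ) (k : ℕ) (i : Fin d) (s : ℤ) :
    μ.real (SYM_D m i (-s) \ SYM_E (fun y => k ≤ nm y)) =
      μ.real (SYM_D m i s \ SYM_E (fun y => k ≤ nm y)) := by
  obtain ⟨g, hg⟩ := exists_ngA (d := d)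
  have hg0 : g.gV 0 = 0 := by rw [hg, neg_zero]
  have hgn : ∀ x, nm (g.gV x) = nm x := fun x => by rw [hg, nm_neg]
  have hM : MeasurableSet (SYM_D m i s \ SYM_E (fun y => k ≤ nm y)) :=
    (SYM_E_meas (fun y => m ≤ s * y i)).diff (SYM_E_meas (fun y => k ≤ nm y))
  rw [← lim_aut hβ hμ g hgn _ hM]
  congr 1
  ext ω
  have h1 : act g ω ∈ SYM_D m i s ↔ ω ∈ SYM_D m i (-s) :=
    SYM_E_act g hg0 (fun y => m ≤ s * y i) (fun y => m ≤ (-s) * y i) (by
      intro y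
      simp only [hg, Pi.neg_apply]
      rw [neg_mul_neg]) ω
  have h2 := SYM_E_act g hg0 (fun y => k ≤ nm y) (fun y => k ≤ nm y) (by
      intro y
      rw [hgn]) ω
  rw [Set.mem_sdiff]
  change _ ↔ act g ω ∈ _ ∧ act g ω ∉ _
  rw [h1, h2]

theorem SYM_D_swap {β : ℝ} (hβ : 0 ≤ β) {μ : Measure (Cf d)} (hμ : IsLim β false μ)
    (m : ℤ) (k : ℕ) (i j : Fin d) (s : ℤ) :
    μ.real (SYM_D m j s \ SYM_E (fun y => k ≤ nm y)) =
      μ.real (SYM_D m i s \ SYM_E (fun y => k ≤ nm y)) := by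
  obtain ⟨g, hg⟩ := exists_pmA (Equiv.swap i j)
  have hg0 : g.gV 0 = 0 := by
    ext l
    have := hg 0 (Equiv.swap i j l)
    rw [Equiv.swap_apply_self] at this
    rw [this]
    rfl
  have hgn : ∀ x, nm (g.gV x) = nm x := fun x => nm_perm (Equiv.swap i j) _ _ (hg x)
  have hM : MeasurableSet (SYM_D m i s \ SYM_E (fun y => k ≤ nm y)) :=
    (SYM_E_meas (fun y => m ≤ s * y i)).diff (SYM_E_meas (fun y => k ≤ nm y))
  rw [← lim_aut hβ hμ g hgn _ hM]
  congr 1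
  ext ω
  have h1 : act g ω ∈ SYM_D m i s ↔ ω ∈ SYM_D m j s :=
    SYM_E_act g hg0 (fun y => m ≤ s * y i) (fun y => m ≤ s * y j) (by
      intro y
      have := hg y i
      rw [Equiv.swap_apply_left] at this
      rw [this]) ω
  have h2 := SYM_E_act g hg0 (fun y => k ≤ nm y) (fun y => k ≤ nm y) (by
      intro y
      rw [hgn]) ω
  rw [Set.mem_sdiff]
  change _ ↔ act g ω ∈ _ ∧ act g ω ∉ _
  rw [h1, h2]

theorem SYM_D_sum (hd : 1 ≤ d) {β : ℝ} (hβ : 0 ≤ β) {μ : Measure (Cf d)} (hμ : IsLim β false μ)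
    (m k : ℕ) (i : Fin d) (s : ℤ) (hs : s = 1 ∨ s = -1) :
    (1 / (2 * (d : ℝ))) * μ.real (SYM_E (fun y => m ≤ nm y) \ SYM_E (fun y => k ≤ nm y)) ≤
      μ.real (SYM_D m i s \ SYM_E (fun y => k ≤ nm y)) := by
  haveI : IsProbabilityMeasure μ := hμ.1
  have hall : ∀ j : Fin d, ∀ t : ℤ, (t = 1 ∨ t = -1) →
      μ.real (SYM_D m j t \ SYM_E (fun y => k ≤ nm y)) =
        μ.real (SYM_D m i s \ SYM_E (fun y => k ≤ nm y)) := by
    intro j t ht
    rw [SYM_D_swap hβ hμ m k i j t]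
    rcases hs with hs | hs <;> rcases ht with ht | ht
    · rw [hs, ht]
    · rw [hs, ht, SYM_D_neg hβ hμ]
    · rw [hs, ht, SYM_D_neg hβ hμ]
    · rw [hs, ht]
  have hsub : SYM_E (fun y : Vx d => m ≤ nm y) \ SYM_E (fun y => k ≤ nm y) ⊆
      ⋃ j ∈ (Finset.univ : Finset (Fin d)), ((SYM_D m j 1 \ SYM_E (fun y => k ≤ nm y)) ∪
        (SYM_D m j (-1) \ SYM_E (fun y => k ≤ nm y))) := by
    rintro ω ⟨⟨y, hy, hc⟩, h2⟩
    obtain ⟨j, hj⟩ := SYM_exists_nm hd y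
    have hm : (m : ℤ) ≤ |y j| := by rw [hj]; exact_mod_cast hy
    simp only [Set.mem_iUnion]
    refine ⟨j, Finset.mem_univ _, ?_⟩
    rcases le_total 0 (y j) with h | h
    · left
      refine ⟨⟨y, ?_, hc⟩, h2⟩
      change (m : ℤ) ≤ 1 * y j
      rw [abs_of_nonneg h] at hm
      linarith
    · right
      refine ⟨⟨y, ?_, hc⟩, h2⟩
      change (m : ℤ) ≤ (-1) * y j
      rw [abs_of_nonpos h] at hm
      linarith
  have h3 : μ.real (SYM_E (fun y : Vx d => m ≤ nm y) \ SYM_E (fun y => k ≤ nm y)) ≤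
      ∑ j : Fin d, μ.real ((SYM_D m j 1 \ SYM_E (fun y => k ≤ nm y)) ∪
        (SYM_D m j (-1) \ SYM_E (fun y => k ≤ nm y))) :=
    (measureReal_mono hsub (measure_ne_top μ _)).trans (measureReal_biUnion_finset_le _ _)
  have h4 : ∑ j : Fin d, μ.real ((SYM_D m j 1 \ SYM_E (fun y => k ≤ nm y)) ∪
        (SYM_D m j (-1) \ SYM_E (fun y => k ≤ nm y))) ≤
      ∑ j : Fin d, 2 * μ.real (SYM_D m i s \ SYM_E (fun y => k ≤ nm y)) := by
    apply Finset.sum_le_sum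
    intro j _
    have h5 := measureReal_union_le (μ := μ) (SYM_D (m : ℤ) j 1 \ SYM_E (fun y => k ≤ nm y))
      (SYM_D (m : ℤ) j (-1) \ SYM_E (fun y => k ≤ nm y))
    rw [hall j 1 (Or.inl rfl), hall j (-1) (Or.inr rfl)] at h5
    linarith
  rw [Finset.sum_const, Finset.card_univ, Fintype.card_fin, nsmul_eq_mul] at h4
  have hd' : (0 : ℝ) < 2 * (d : ℝ) := by
    have : (1 : ℝ) ≤ d := by exact_mod_cast hd
    linarith
  rw [one_div, inv_mul_le_iff₀ hd']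
  linarith

theorem sym_bound (hd : 1 ≤ d) {β : ℝ} (hβ : 0 ≤ β) {μ : Measure (Cf d)} (hμ : IsLim β false μ)
    (n : ℕ) (u : Vx d) (hu : nm u ≤ n) :
    (1 / 2) * (μ.real (arm n (0 : Vx d)) + μ.real (arm (n + nm u) (0 : Vx d))) +
      (1 / (2 * (d : ℝ))) * (μ.real (arm (n - nm u) (0 : Vx d)) - μ.real (arm n (0 : Vx d))) ≤
      μ.real (arm n u) := by
  haveI : IsProbabilityMeasure μ := hμ.1
  rw [SYM_shift hd hβ hμ n u hu, SYM_arm0 hd, SYM_arm0 hd, SYM_arm0 hd]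
  obtain ⟨i0, hi0⟩ := SYM_exists_nm hd u
  obtain ⟨s0, hs0, hsu⟩ : ∃ s0 : ℤ, (s0 = 1 ∨ s0 = -1) ∧ s0 * u i0 = (nm u : ℤ) := by
    rcases le_total 0 (u i0) with h | h
    · exact ⟨1, Or.inl rfl, by rw [one_mul, ← hi0, abs_of_nonneg h]⟩
    · exact ⟨-1, Or.inr rfl, by rw [← hi0, abs_of_nonpos h]; ring⟩
  obtain ⟨H, hH⟩ : ∃ H : Set (Cf d), H = SYM_E (fun y => n + nm u ≤ nm y) := ⟨_, rfl⟩
  obtain ⟨A, hA⟩ : ∃ A : Set (Cf d), A = SYM_E (fun y => ∃ i, (n : ℤ) ≤ |y i| ∧ 0 ≤ y i * u i) :=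
    ⟨_, rfl⟩
  obtain ⟨N, hN⟩ : ∃ N : Set (Cf d), N = SYM_E (fun y => n ≤ nm y) := ⟨_, rfl⟩
  obtain ⟨K, hK⟩ : ∃ K : Set (Cf d), K = SYM_E (fun y => n - nm u ≤ nm y) := ⟨_, rfl⟩
  obtain ⟨D, hD⟩ : ∃ D : Set (Cf d), D = SYM_D (n - nm u : ℕ) i0 s0 := ⟨_, rfl⟩
  obtain ⟨Y, hY⟩ : ∃ Y : Set (Cf d), Y = SYM_E (fun y => n ≤ nm (y + u)) := ⟨_, rfl⟩
  have mH : MeasurableSet H := by rw [hH]; exact SYM_E_meas _
  have mA : MeasurableSet A := by rw [hA]; exact SYM_E_meas _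
  have mN : MeasurableSet N := by rw [hN]; exact SYM_E_meas _
  have mK : MeasurableSet K := by rw [hK]; exact SYM_E_meas _
  have mD : MeasurableSet D := by rw [hD]; exact SYM_E_meas _
  have b1 := SYM_neg_half hd hβ hμ n (n + nm u) u
  have b2 := SYM_D_sum hd hβ hμ (n - nm u) n i0 s0 hs0
  rw [← hH, ← hA, ← hN] at b1
  rw [← hN, ← hK, ← hD] at b2
  have hHN : H ⊆ N := by
    rw [hH, hN]
    exact SYM_E_mono (fun y hy => le_trans (Nat.le_add_right _ _) hy)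
  have hNK : N ⊆ K := by
    rw [hN, hK]
    exact SYM_E_mono (fun y hy => le_trans (Nat.sub_le _ _) hy)
  have hAN : A ⊆ N := by
    rw [hA, hN]
    apply SYM_E_mono
    rintro y ⟨i, hi, _⟩
    have := SYM_le_nm y i
    exact_mod_cast hi.trans this
  have hHY : H ⊆ Y := by
    rw [hH, hY]
    exact SYM_H_sub n u
  have hAY : A ⊆ Y := by
    rw [hA, hY]
    apply SYM_E_mono
    rintro y ⟨i, hi, h2⟩
    have h3 := SYM_le_nm (y + u) i
    have h4 : |y i| ≤ |(y + u) i| := by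
      rw [Pi.add_apply]
      exact sq_le_sq.mp (by nlinarith [sq_nonneg (u i)])
    exact_mod_cast (hi.trans h4).trans h3
  have hDY : D ⊆ Y := by
    rw [hD, hY]
    apply SYM_E_mono
    intro y hy
    have h3 := SYM_le_nm (y + u) i0
    have hy' : ((n - nm u : ℕ) : ℤ) ≤ s0 * y i0 := hy
    rw [Nat.cast_sub hu] at hy'
    have h5 : (n : ℤ) ≤ s0 * (y + u) i0 := by
      rw [Pi.add_apply, mul_add, hsu]
      linarith
    have h6 : s0 * (y + u) i0 ≤ |(y + u) i0| := by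
      rcases hs0 with h | h
      · rw [h, one_mul]; exact le_abs_self _
      · rw [h, neg_one_mul]; exact neg_le_abs _
    exact_mod_cast (h5.trans h6).trans h3
  have c1 : μ.real (N \ H) = μ.real N - μ.real H := measureReal_sdiff hHN mH
  have c2 : μ.real (K \ N) = μ.real K - μ.real N := measureReal_sdiff hNK mN
  have d1 : Disjoint H (A \ H) := Set.disjoint_sdiff_right
  have d2 : Disjoint (H ∪ (A \ H)) (D \ N) := by
    rw [Set.disjoint_left]
    rintro ω (h | h) ⟨_, h'⟩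
    · exact h' (hHN h)
    · exact h' (hAN h.1)
  have e1 : μ.real (H ∪ (A \ H)) = μ.real H + μ.real (A \ H) :=
    measureReal_union d1 (mA.diff mH)
  have e2 : μ.real ((H ∪ (A \ H)) ∪ (D \ N)) = μ.real (H ∪ (A \ H)) + μ.real (D \ N) :=
    measureReal_union d2 (mD.diff mN)
  have e3 : μ.real ((H ∪ (A \ H)) ∪ (D \ N)) ≤ μ.real Y := by
    apply measureReal_mono _ (measure_ne_top μ _)
    rintro ω ((h | h) | h)
    · exact hHY h
    · exact hAY h.1
    · exact hDY h.1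
  rw [← hH, ← hN, ← hK, ← hY]
  rw [c1] at b1
  rw [c2] at b2
  linarith

theorem arm_ge (hd : 1 ≤ d) {β : ℝ} (hβ : 0 ≤ β) {μ : Measure (Cf d)} (hμ : IsLim β false μ)
    (n : ℕ) (u : Vx d) (hu : nm u ≤ n) : μ.real (arm (n + nm u) (0 : Vx d)) ≤ μ.real (arm n u) := by
  haveI : IsProbabilityMeasure μ := hμ.1
  rw [SYM_shift hd hβ hμ n u hu, SYM_arm0 hd]
  exact measureReal_mono (SYM_H_sub n u) (measure_ne_top μ _)

end H82.IC

end S_H82_IC_SYM

section S_H82_IC_DICH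

/-!
# DICH: the dichotomy (pure real analysis)

`a : ℕ → ℝ` positive, antitone; `l t < L t ≤ l (t+1)`, `2 J L t ≤ l (t+1)`, `(1-ε)^J (d+1) ≤ 1`, `n ≥ l (2T)`.
A scale `t` is good at `n` if `(1-ε) a n ≤ (1/2)(a n + a (n + L t)) + (1/(2d)) (a (n - l t) - a n)`.
If at least `T` of the indices `0..2T-1` are good, take a subset of `T` of them (`Finset.exists_subset_card_eq`).
Otherwise more than `T` are bad, so some bad `t ≥ T`.  Bad at `t`: `(1/(2d)) (a (n - l t) - a n) < (1-ε) a n - (1/2) a n - (1/2) a (n + L t) < (1/2) a n`, so `a (n - l t) < (d+1) a n`.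
Let `La = L (T-1)`; `2 J La ≤ l T ≤ l t ≤ n`.  If for all `j < J`, with `p j = n - l t + (2j+1) La`: `a (p j + La) < (1-ε) a (p j - La)`, then inductively
`a (n - l t + 2 j La) ≤ (1-ε)^j a (n - l t)`, with strict inequality for `j = J ≥ 1`, so `a n ≤ a (n - l t + 2 J La) < (1-ε)^J (d+1) a n ≤ a n`, contradiction (for `J = 0`: `d + 1 ≤ 1` contradicts `d ≥ 1`).
So for some `j`, `n' = p j` satisfies `a (n' + La) ≥ (1-ε) a (n' - La) ≥ (1-ε) a n'`, `n - l t ≤ n' ≤ n` (`(2j+1) La ≤ 2 J La ≤ l t`), `a n' ≤ a (n - l t) ≤ (d+1) a n`, and `n - l (2T) ≤ n'` since `l` is increasing.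
-/

set_option autoImplicit false

namespace H82.IC

theorem dich (d : ℕ) (hd : 1 ≤ d) (a : ℕ → ℝ) (ha : Antitone a) (hpos : ∀ n, 0 < a n) (ε : ℝ)
    (hε : 0 < ε) (hε1 : ε < 1 / 2) (T J : ℕ) (hT : 1 ≤ T) (hJ : (1 - ε) ^ J * ((d : ℝ) + 1) ≤ 1)
    (l L : ℕ → ℕ) (h1 : ∀ t, l t < L t) (h2 : ∀ t, L t ≤ l (t + 1))
    (h3 : ∀ t, 2 * J * L t ≤ l (t + 1)) (n : ℕ) (hn : l (2 * T) ≤ n) :
    (∃ S ⊆ Finset.range (2 * T), S.card = T ∧ ∀ t ∈ S,
      (1 - ε) * a n ≤ (1 / 2) * (a n + a (n + L t)) +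
        (1 / (2 * (d : ℝ))) * (a (n - l t) - a n)) ∨
    ∃ n', n - l (2 * T) ≤ n' ∧ n' ≤ n ∧ a n' ≤ ((d : ℝ) + 1) * a n ∧
      (1 - ε) * a n' ≤ a (n' + L (T - 1)) := by
  classical
  have hlm : StrictMono l := strictMono_nat_of_lt_succ fun t => (h1 t).trans_le (h2 t)
  have hd0 : (0 : ℝ) < d := by exact_mod_cast hd
  set P : ℕ → Prop := fun t => (1 - ε) * a n ≤ (1 / 2) * (a n + a (n + L t)) +
        (1 / (2 * (d : ℝ))) * (a (n - l t) - a n) with hP
  by_cases hg : T ≤ ((Finset.range (2 * T)).filter P).card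
  · left
    obtain ⟨S, hS, hc⟩ := Finset.exists_subset_card_eq hg
    exact ⟨S, hS.trans (Finset.filter_subset _ _), hc, fun t ht =>
      (Finset.mem_filter.1 (hS ht)).2⟩
  · right
    -- a bad index `t ≥ T`
    obtain ⟨t, htT, ht2, hbad⟩ : ∃ t, T ≤ t ∧ t < 2 * T ∧ ¬ P t := by
      by_contra hno
      push Not at hno
      apply hg
      have h4 : Finset.Ico T (2 * T) ⊆ (Finset.range (2 * T)).filter P := by
        intro t ht
        rw [Finset.mem_Ico] at ht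
        rw [Finset.mem_filter, Finset.mem_range]
        exact ⟨ht.2, hno t ht.1 ht.2⟩
      have h5 := Finset.card_le_card h4
      rw [Nat.card_Ico] at h5
      omega
    rw [hP] at hbad
    simp only [not_le] at hbad
    have han := hpos n
    have haL := hpos (n + L t)
    have hm : a (n - l t) < ((d : ℝ) + 1) * a n := by
      have h4 : (1 / (2 * (d : ℝ))) * (a (n - l t) - a n) < 1 / 2 * a n := by
        nlinarith [mul_pos hε han]
      have h5 : (1 / (2 * (d : ℝ))) * (a (n - l t) - a n) * (2 * d) = a (n - l t) - a n := by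
        field_simp
      have h6 := mul_lt_mul_of_pos_right h4 (by positivity : (0 : ℝ) < 2 * d)
      rw [h5] at h6
      nlinarith
    set m := n - l t with hmdef
    have hlt : l t ≤ l (2 * T) := hlm.monotone ht2.le
    have hlT : l T ≤ l t := hlm.monotone htT
    have h2J : 2 * J * L (T - 1) ≤ l T := by
      have h4 := h3 (T - 1)
      rwa [Nat.sub_add_cancel hT] at h4
    have hq : (0 : ℝ) < 1 - ε := by linarith
    obtain ⟨j, hj, hja⟩ : ∃ j, j < J ∧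
        (1 - ε) * a (m + 2 * j * L (T - 1)) ≤ a (m + 2 * (j + 1) * L (T - 1)) := by
      by_contra hno
      push Not at hno
      have hind : ∀ j, j ≤ J → a (m + 2 * j * L (T - 1)) ≤ (1 - ε) ^ j * a m := by
        intro j
        induction j with
        | zero => intro _; simp
        | succ j ih =>
          intro hj
          have h4 := ih (by omega)
          have h5 := hno j (by omega)
          calc a (m + 2 * (j + 1) * L (T - 1)) ≤ (1 - ε) * a (m + 2 * j * L (T - 1)) := h5.le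
            _ ≤ (1 - ε) * ((1 - ε) ^ j * a m) := mul_le_mul_of_nonneg_left h4 hq.le
            _ = (1 - ε) ^ (j + 1) * a m := by ring
      have h4 := hind J le_rfl
      have h5 : a n ≤ a (m + 2 * J * L (T - 1)) := ha (by omega)
      have h6 : (1 - ε) ^ J * a m < (1 - ε) ^ J * (((d : ℝ) + 1) * a n) :=
        mul_lt_mul_of_pos_left hm (pow_pos hq J)
      have h7 : (1 - ε) ^ J * (((d : ℝ) + 1) * a n) ≤ a n := by
        rw [← mul_assoc]
        calc (1 - ε) ^ J * ((d : ℝ) + 1) * a n ≤ 1 * a n :=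
              mul_le_mul_of_nonneg_right hJ han.le
          _ = a n := one_mul _
      linarith
    have h4 : 2 * (j + 1) * L (T - 1) ≤ 2 * J * L (T - 1) :=
      Nat.mul_le_mul_right _ (by omega)
    have h5 : 2 * (j + 1) * L (T - 1) = 2 * j * L (T - 1) + L (T - 1) + L (T - 1) := by ring
    refine ⟨m + (2 * j * L (T - 1) + L (T - 1)), by omega, by omega, ?_, ?_⟩
    · exact (ha (by omega)).trans hm.le
    · rw [h5] at hja
      have h6 : m + (2 * j * L (T - 1) + L (T - 1)) + L (T - 1) =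
          m + (2 * j * L (T - 1) + L (T - 1) + L (T - 1)) := by ring
      rw [h6]
      refine le_trans (mul_le_mul_of_nonneg_left (ha ?_) hq.le) hja
      omega

end H82.IC

end S_H82_IC_DICH

section S_H82_IC_BKC

/-!
# BKC: no trifurcation boxes

`shf a ω e = ω (e.1 + a, e.2)`, `opE e ω = Function.update ω e true`.
`TI ν`: `ν` is invariant under all `shf a`; `INS ν C`: `ν {opE e ω ∈ X} ≤ C ν X` for all `e` and measurable `X`.
* measurability of `{ω | Tri (opn ω) r x}`: finite union over `v1 v2 v3`; `ω ↦ opn ω \ K` is the configuration obtained by closing the edges of `K` (a measurable map `Cf d → Cf d`);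
  `{cluster of v infinite}` = `⋂_n {∃ b, nm (b - v) = n, v ↔ b}` (countable), `meas_cn`.
* suppose `p0 = ν {Tri (opn ω) r 0} > 0`.  The edges of `ins (til r 0) = bE r` are finitely many `e_1..e_k`; `Tri` does not depend on them.  With `X_j = {Tri} ∩ {e_1..e_j open}`:
  `X_{j-1} ⊆ {opE e_j ω ∈ X_j}`, so `ν X_{j-1} ≤ C ν X_j`; hence `p = ν (X_k) > 0` (`C > 0`).
* for `K : ℕ`, `n = (2r+1) K + r + 1`, grid `{(2r+1) k : nm k ≤ K}`: tiles are disjoint (`nm` of the difference of two centres is a positive multiple of `2r+1`), `nm x + r + 1 ≤ n`.  For every `ω` the number of grid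
  points `x` with `Tri (opn ω) r x` and all edges of `ins (til r x)` open is `≤ |bdry d n|` (`bk_box`).  Integrate: by `TI` each grid point has probability `p`, so
  `(2K+1)^d p ≤ |bdry d n| = (2n+1)^d - (2n-1)^d ≤ 2d (2n+1)^(d-1)` for `n ≥ 1` and `2n + 1 ≤ (4r+4)(2K+1)`-type bounds: contradiction as `K → ∞`.
-/

set_option autoImplicit false

open Finset MeasureTheory Filter Topology

namespace H82.IC

variable {d : ℕ}

/-- shift of a configuration. -/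
def shf {d : ℕ} (a : Vx d) (ω : Cf d) : Cf d := fun e => ω (e.1 + a, e.2)

/-- open the edge `e`. -/
noncomputable def opE {d : ℕ} (e : Ed d) (ω : Cf d) : Cf d := Function.update ω e true

def TI {d : ℕ} (ν : Measure (Cf d)) : Prop :=
  ∀ (a : Vx d) (X : Set (Cf d)), MeasurableSet X → ν.real {ω | shf a ω ∈ X} = ν.real X

def INS {d : ℕ} (ν : Measure (Cf d)) (C : ℝ) : Prop :=
  ∀ (e : Ed d) (X : Set (Cf d)), MeasurableSet X → ν.real {ω | opE e ω ∈ X} ≤ C * ν.real X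

theorem BKC_inf {S : Set (Ed d)} {v : Vx d} :
    ((Zl d).cl S v).Infinite ↔ ∀ n : ℕ, ∃ b : Vx d, n ≤ nm b ∧ (Zl d).Conn S v b := by
  constructor
  · intro h n
    obtain ⟨b, hb, hbn⟩ := h.exists_notMem_finset (bx d n)
    rw [mem_bx, not_le] at hbn
    exact ⟨b, hbn.le, hb⟩
  · intro h hfin
    obtain ⟨b, hb, hc⟩ := h (hfin.toFinset.sup nm + 1)
    have h2 : nm b ≤ hfin.toFinset.sup nm :=
      Finset.le_sup (f := nm) (hfin.mem_toFinset.mpr hc)
    omega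

/-- close the edges of `K`. -/
noncomputable def BKC_cls {d : ℕ} (K : Set (Ed d)) (ω : Cf d) : Cf d :=
  open Classical in fun e => if e ∈ K then false else ω e

theorem BKC_cls_meas (K : Set (Ed d)) : Measurable (BKC_cls K) := by
  classical
  refine measurable_pi_lambda _ fun e => ?_
  by_cases h : e ∈ K
  · have h1 : (fun ω : Cf d => BKC_cls K ω e) = fun _ => false := by
      funext ω
      unfold BKC_cls
      rw [if_pos h]
    rw [h1]
    exact measurable_const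
  · have h1 : (fun ω : Cf d => BKC_cls K ω e) = fun ω => ω e := by
      funext ω
      unfold BKC_cls
      rw [if_neg h]
    rw [h1]
    exact measurable_pi_apply e

theorem BKC_opn (K : Set (Ed d)) (ω : Cf d) : opn (BKC_cls K ω) = opn ω \ K := by
  classical
  ext e
  show (if e ∈ K then false else ω e) = true ↔ ω e = true ∧ e ∉ K
  by_cases h : e ∈ K
  · rw [if_pos h]
    exact ⟨fun h1 => absurd h1 (by decide), fun h1 => absurd h h1.2⟩
  · rw [if_neg h]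
    exact ⟨fun h1 => ⟨h1, h⟩, fun h1 => h1.1⟩

theorem BKC_meas_conn (K : Set (Ed d)) (v w : Vx d) :
    MeasurableSet {ω : Cf d | (Zl d).Conn (opn ω \ K) v w} := by
  have e : {ω : Cf d | (Zl d).Conn (opn ω \ K) v w} = BKC_cls K ⁻¹' cn v w := by
    ext ω
    show (Zl d).Conn (opn ω \ K) v w ↔ (Zl d).Conn (opn (BKC_cls K ω)) v w
    rw [BKC_opn]
  rw [e]
  exact BKC_cls_meas K (meas_cn v w)

theorem BKC_meas_inf (K : Set (Ed d)) (v : Vx d) :
    MeasurableSet {ω : Cf d | ((Zl d).cl (opn ω \ K) v).Infinite} := by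
  have e : {ω : Cf d | ((Zl d).cl (opn ω \ K) v).Infinite} =
      ⋂ n : ℕ, ⋃ b : Vx d, ({ω : Cf d | n ≤ nm b} ∩ {ω | (Zl d).Conn (opn ω \ K) v b}) := by
    ext ω
    rw [Set.mem_iInter]
    show ((Zl d).cl (opn ω \ K) v).Infinite ↔ _
    rw [BKC_inf]
    refine forall_congr' fun n => ?_
    rw [Set.mem_iUnion]
    exact Iff.rfl
  rw [e]
  exact MeasurableSet.iInter fun n => MeasurableSet.iUnion fun b =>
    (MeasurableSet.const _).inter (BKC_meas_conn K v b)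

theorem meas_Tri (r : ℕ) (x : Vx d) : MeasurableSet {ω : Cf d | Tri (opn ω) r x} := by
  set K := (Zl d).ins (til r x) with hK
  have e : {ω : Cf d | Tri (opn ω) r x} = ⋃ v1 : Vx d, ⋃ v2 : Vx d, ⋃ v3 : Vx d,
      ({ω : Cf d | v1 ∈ til r x ∧ v2 ∈ til r x ∧ v3 ∈ til r x} ∩
        ({ω | ((Zl d).cl (opn ω \ K) v1).Infinite} ∩ ({ω | ((Zl d).cl (opn ω \ K) v2).Infinite} ∩
        ({ω | ((Zl d).cl (opn ω \ K) v3).Infinite} ∩ ({ω | (Zl d).Conn (opn ω \ K) v1 v2}ᶜ ∩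
        ({ω | (Zl d).Conn (opn ω \ K) v1 v3}ᶜ ∩ {ω | (Zl d).Conn (opn ω \ K) v2 v3}ᶜ)))))) := by
    ext ω
    simp only [Set.mem_iUnion]
    constructor
    · rintro ⟨v1, h1, v2, h2, v3, h3, a1, a2, a3, b1, b2, b3⟩
      exact ⟨v1, v2, v3, ⟨h1, h2, h3⟩, a1, a2, a3, b1, b2, b3⟩
    · rintro ⟨v1, v2, v3, ⟨h1, h2, h3⟩, a1, a2, a3, b1, b2, b3⟩
      exact ⟨v1, h1, v2, h2, v3, h3, a1, a2, a3, b1, b2, b3⟩
  rw [e]
  exact MeasurableSet.iUnion fun v1 => MeasurableSet.iUnion fun v2 => MeasurableSet.iUnion fun v3 =>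
    (MeasurableSet.const _).inter ((BKC_meas_inf K v1).inter ((BKC_meas_inf K v2).inter
      ((BKC_meas_inf K v3).inter ((BKC_meas_conn K v1 v2).compl.inter
        ((BKC_meas_conn K v1 v3).compl.inter (BKC_meas_conn K v2 v3).compl)))))

/-! ### opening the edges of a tile -/

theorem BKC_Tri_congr {S S' : Set (Ed d)} {r : ℕ} {x : Vx d}
    (h : S \ (Zl d).ins (til r x) = S' \ (Zl d).ins (til r x)) (hT : Tri S r x) : Tri S' r x := by
  unfold Tri at hT ⊢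
  rwa [h] at hT

theorem BKC_bE {r : ℕ} {x : Vx d} {e : Ed d} :
    e ∈ (Zl d).ins (til r x) ↔ ((e.1 - x, e.2) : Ed d) ∈ bE d r := by
  rw [mem_bE]
  show (nm (e.1 - x) ≤ r ∧ nm (e.1 + Pi.single e.2 1 - x) ≤ r) ↔
    (nm (e.1 - x) ≤ r ∧ nm (e.1 - x + Pi.single e.2 1) ≤ r)
  have h : e.1 + Pi.single e.2 1 - x = e.1 - x + Pi.single e.2 1 := by abel
  rw [h]

theorem BKC_bE0 {r : ℕ} {e : Ed d} : e ∈ (Zl d).ins (til r (0 : Vx d)) ↔ e ∈ bE d r := by
  rw [BKC_bE]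
  have h : ((e.1 - 0, e.2) : Ed d) = e := by rw [sub_zero]
  rw [h]

theorem BKC_pos (ν : Measure (Cf d)) [IsProbabilityMeasure ν] (C : ℝ) (hC : 0 < C)
    (hI : INS ν C) (r : ℕ) (h0 : 0 < ν.real {ω : Cf d | Tri (opn ω) r 0}) (F : Finset (Ed d)) :
    F ⊆ bE d r → 0 < ν.real ({ω : Cf d | Tri (opn ω) r 0} ∩ up F) := by
  classical
  induction F using Finset.induction_on with
  | empty =>
    intro _
    have h : ({ω : Cf d | Tri (opn ω) r 0} ∩ up ∅) = {ω : Cf d | Tri (opn ω) r 0} := by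
      ext ω
      refine ⟨fun h => h.1, fun h => ⟨h, fun e he => absurd he (Finset.notMem_empty e)⟩⟩
    rw [h]
    exact h0
  | insert e F _ ih =>
    intro hF
    have h1 := ih ((Finset.subset_insert e F).trans hF)
    have he : e ∈ (Zl d).ins (til r (0 : Vx d)) := BKC_bE0.2 (hF (Finset.mem_insert_self e F))
    have hsub : ({ω : Cf d | Tri (opn ω) r 0} ∩ up F) ⊆
        {ω | opE e ω ∈ ({ω : Cf d | Tri (opn ω) r 0} ∩ up (insert e F))} := by
      rintro ω ⟨h2, h3⟩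
      constructor
      · refine BKC_Tri_congr (S := opn ω) ?_ h2
        ext e'
        constructor
        · rintro ⟨h4, h5⟩
          refine ⟨?_, h5⟩
          show opE e ω e' = true
          unfold opE
          rw [Function.update_of_ne (fun h => h5 (by rw [h]; exact he))]
          exact h4
        · rintro ⟨h4, h5⟩
          refine ⟨?_, h5⟩
          have h6 : opE e ω e' = true := h4
          unfold opE at h6
          rwa [Function.update_of_ne (fun h => h5 (by rw [h]; exact he))] at h6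
      · intro e' he'
        unfold opE
        by_cases h : e' = e
        · rw [h, Function.update_self]
        · rw [Function.update_of_ne h]
          rcases Finset.mem_insert.1 he' with h5 | h5
          · exact absurd h5 h
          · exact h3 e' h5
    have hm : MeasurableSet ({ω : Cf d | Tri (opn ω) r 0} ∩ up (insert e F)) :=
      (meas_Tri r 0).inter (lcl_measurable (lcl_up _))
    have h4 := hI e _ hm
    have h5 : ν.real ({ω : Cf d | Tri (opn ω) r 0} ∩ up F) ≤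
        ν.real {ω | opE e ω ∈ ({ω : Cf d | Tri (opn ω) r 0} ∩ up (insert e F))} :=
      measureReal_mono hsub
    have h6 : 0 < C * ν.real ({ω : Cf d | Tri (opn ω) r 0} ∩ up (insert e F)) := by linarith
    exact (pos_iff_pos_of_mul_pos h6).1 hC

/-! ### translations -/

theorem BKC_conn (a : Vx d) (S : Set (Ed d)) {u v : Vx d}
    (h : (Zl d).Conn {e | ((e.1 + a, e.2) : Ed d) ∈ S} u v) : (Zl d).Conn S (u + a) (v + a) := by
  induction h with
  | refl => exact conn_refl _ _ _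
  | tail _ h2 ih =>
    refine Relation.ReflTransGen.tail ih ?_
    obtain ⟨e, he, h3⟩ := h2
    refine ⟨(e.1 + a, e.2), he, ?_⟩
    have e1 : (Zl d).s ((e.1 + a, e.2) : Ed d) = (Zl d).s e + a := rfl
    have e2 : (Zl d).r ((e.1 + a, e.2) : Ed d) = (Zl d).r e + a := by
      show e.1 + a + Pi.single e.2 1 = e.1 + Pi.single e.2 1 + a
      abel
    rw [e1, e2]
    rcases h3 with ⟨h3, h4⟩ | ⟨h3, h4⟩
    · exact Or.inl ⟨by rw [h3], by rw [h4]⟩
    · exact Or.inr ⟨by rw [h3], by rw [h4]⟩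

theorem BKC_conn_iff (a : Vx d) (S : Set (Ed d)) (u v : Vx d) :
    (Zl d).Conn {e | ((e.1 + a, e.2) : Ed d) ∈ S} u v ↔ (Zl d).Conn S (u + a) (v + a) := by
  refine ⟨BKC_conn a S, fun h => ?_⟩
  have e : S = {e | ((e.1 + -a, e.2) : Ed d) ∈ {e | ((e.1 + a, e.2) : Ed d) ∈ S}} := by
    ext e
    show e ∈ S ↔ ((e.1 + -a + a, e.2) : Ed d) ∈ S
    have h1 : ((e.1 + -a + a, e.2) : Ed d) = e := by rw [neg_add_cancel_right]
    rw [h1]
  rw [e] at h
  have h2 := BKC_conn (-a) _ h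
  rw [add_neg_cancel_right, add_neg_cancel_right] at h2
  exact h2

/-- the event at `x` -/
def BKC_A {d : ℕ} (r : ℕ) (x : Vx d) : Set (Cf d) :=
  {ω | Tri (opn ω) r x} ∩ ⋂ e : Ed d, {ω | e ∈ (Zl d).ins (til r x) → ω e = true}

theorem BKC_A_meas (r : ℕ) (x : Vx d) : MeasurableSet (BKC_A r x) := by
  refine (meas_Tri r x).inter (MeasurableSet.iInter fun e => ?_)
  by_cases h : e ∈ (Zl d).ins (til r x)
  · have h1 : {ω : Cf d | e ∈ (Zl d).ins (til r x) → ω e = true} = (fun ω => ω e) ⁻¹' {true} := by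
      ext ω
      exact ⟨fun h2 => h2 h, fun h2 _ => h2⟩
    rw [h1]
    exact measurable_pi_apply e (MeasurableSet.singleton _)
  · have h1 : {ω : Cf d | e ∈ (Zl d).ins (til r x) → ω e = true} = Set.univ := by
      ext ω
      exact ⟨fun _ => trivial, fun _ h2 => absurd h2 h⟩
    rw [h1]
    exact MeasurableSet.univ

theorem BKC_shift (r : ℕ) (x : Vx d) :
    {ω : Cf d | shf x ω ∈ ({ω : Cf d | Tri (opn ω) r 0} ∩ up (bE d r))} ⊆ BKC_A r x := by
  rintro ω ⟨h1, h2⟩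
  have hset : {e : Ed d | ((e.1 + x, e.2) : Ed d) ∈ opn ω \ (Zl d).ins (til r x)} =
      opn (shf x ω) \ (Zl d).ins (til r 0) := by
    ext e
    show (ω (e.1 + x, e.2) = true ∧ ((e.1 + x, e.2) : Ed d) ∉ (Zl d).ins (til r x)) ↔
      (ω (e.1 + x, e.2) = true ∧ e ∉ (Zl d).ins (til r 0))
    rw [BKC_bE, BKC_bE0]
    have h3 : (((e.1 + x, e.2) : Ed d).1 - x, ((e.1 + x, e.2) : Ed d).2) = e := by
      show (e.1 + x - x, e.2) = e
      rw [add_sub_cancel_right]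
    rw [h3]
  have hc : ∀ u v, (Zl d).Conn (opn (shf x ω) \ (Zl d).ins (til r 0)) u v ↔
      (Zl d).Conn (opn ω \ (Zl d).ins (til r x)) (u + x) (v + x) := by
    intro u v
    rw [← hset]
    exact BKC_conn_iff x _ u v
  have hi : ∀ v, ((Zl d).cl (opn (shf x ω) \ (Zl d).ins (til r 0)) v).Infinite →
      ((Zl d).cl (opn ω \ (Zl d).ins (til r x)) (v + x)).Infinite := by
    intro v hv
    refine (hv.image (add_left_injective x).injOn).mono ?_
    rintro _ ⟨w, hw, rfl⟩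
    exact (hc v w).1 hw
  have ht : ∀ v, v ∈ til r (0 : Vx d) → v + x ∈ til r x := by
    intro v hv
    have h3 : nm (v - 0) ≤ r := hv
    show nm (v + x - x) ≤ r
    rwa [add_sub_cancel_right, ← sub_zero v]
  refine ⟨?_, ?_⟩
  · obtain ⟨v1, m1, v2, m2, v3, m3, a1, a2, a3, b1, b2, b3⟩ := h1
    exact ⟨v1 + x, ht _ m1, v2 + x, ht _ m2, v3 + x, ht _ m3, hi _ a1, hi _ a2, hi _ a3,
      fun h => b1 ((hc _ _).2 h), fun h => b2 ((hc _ _).2 h), fun h => b3 ((hc _ _).2 h)⟩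
  · rw [Set.mem_iInter]
    intro e he
    have h3 := h2 _ (BKC_bE.1 he)
    have h4 : ω ((e.1 - x) + x, e.2) = true := h3
    rwa [sub_add_cancel] at h4

/-! ### counting -/

/-- grid -/
def BKC_g {d : ℕ} (r : ℕ) (k : Vx d) : Vx d := fun i => (2 * (r : ℤ) + 1) * k i

theorem BKC_g_inj (r : ℕ) : Function.Injective (BKC_g r : Vx d → Vx d) := by
  intro k k' h
  funext i
  have h1 := congrFun h i
  have h2 : (2 * (r : ℤ) + 1) ≠ 0 := by positivity
  exact mul_left_cancel₀ h2 h1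

theorem BKC_g_nm {r K : ℕ} {k : Vx d} (hk : nm k ≤ K) : nm (BKC_g r k) ≤ (2 * r + 1) * K := by
  rw [G1_nm_le]
  intro i
  have h1 := G1_nm_le.1 hk i
  show ((2 * (r : ℤ) + 1) * k i).natAbs ≤ _
  rw [Int.natAbs_mul]
  have h2 : (2 * (r : ℤ) + 1).natAbs = 2 * r + 1 := by omega
  rw [h2]
  exact Nat.mul_le_mul_left _ h1

theorem BKC_g_disj {r : ℕ} {k k' : Vx d} (h : k ≠ k') :
    Disjoint (til r (BKC_g r k)) (til r (BKC_g r k')) := by
  rw [Set.disjoint_left]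
  intro z hz hz'
  apply h
  funext i
  have h1 := G1_nm_le.1 hz i
  have h2 := G1_nm_le.1 hz' i
  rw [Pi.sub_apply] at h1 h2
  have e1 : BKC_g r k i = (2 * (r : ℤ) + 1) * k i := rfl
  have e2 : BKC_g r k' i = (2 * (r : ℤ) + 1) * k' i := rfl
  rw [e1] at h1
  rw [e2] at h2
  have h3 : |(2 * (r : ℤ) + 1) * (k i - k' i)| ≤ 2 * r := by
    rw [abs_le]
    have h4 : (2 * (r : ℤ) + 1) * (k i - k' i) =
        (z i - (2 * (r : ℤ) + 1) * k' i) - (z i - (2 * (r : ℤ) + 1) * k i) := by ring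
    omega
  by_contra hne
  have h5 : 1 ≤ |k i - k' i| := Int.one_le_abs (sub_ne_zero.2 hne)
  rw [abs_mul, abs_of_pos (by positivity)] at h3
  nlinarith

theorem BKC_count (hd : 1 ≤ d) (r K : ℕ) (ω : Cf d) :
    ∑ k ∈ bx d K, (BKC_A r (BKC_g r k)).indicator (fun _ => (1 : ℝ)) ω ≤
      ((bdry d ((2 * r + 1) * K + r + 1)).card : ℝ) := by
  classical
  set X : Finset (Vx d) := ((bx d K).filter (fun k => ω ∈ BKC_A r (BKC_g r k))).image (BKC_g r)
    with hX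
  have h1 : ∑ k ∈ bx d K, (BKC_A r (BKC_g r k)).indicator (fun _ => (1 : ℝ)) ω = (X.card : ℝ) := by
    rw [hX, Finset.card_image_of_injective _ (BKC_g_inj r), Finset.card_filter, Nat.cast_sum]
    refine Finset.sum_congr rfl fun k _ => ?_
    by_cases h : ω ∈ BKC_A r (BKC_g r k)
    · rw [Set.indicator_of_mem h, if_pos h, Nat.cast_one]
    · rw [Set.indicator_of_notMem h, if_neg h, Nat.cast_zero]
  rw [h1]
  have hmem : ∀ x ∈ X, ∃ k, nm k ≤ K ∧ ω ∈ BKC_A r (BKC_g r k) ∧ BKC_g r k = x := by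
    intro x hx
    obtain ⟨k, hk, hkx⟩ := Finset.mem_image.1 hx
    obtain ⟨h2, h3⟩ := Finset.mem_filter.1 hk
    exact ⟨k, mem_bx.1 h2, h3, hkx⟩
  have h2 := bk_box hd (opn ω) r ((2 * r + 1) * K + r + 1) X ?_ ?_ ?_ ?_
  · exact_mod_cast h2
  · intro x hx
    obtain ⟨k, hk, -, rfl⟩ := hmem x hx
    have := BKC_g_nm (r := r) hk
    omega
  · intro x hx y hy hxy
    obtain ⟨k, -, -, rfl⟩ := hmem x hx
    obtain ⟨k', -, -, rfl⟩ := hmem y hy
    exact BKC_g_disj (fun h => hxy (by rw [h]))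
  · intro x hx e he
    obtain ⟨k, -, h3, rfl⟩ := hmem x hx
    exact Set.mem_iInter.1 h3.2 e he
  · intro x hx
    obtain ⟨k, -, h3, rfl⟩ := hmem x hx
    exact h3.1

theorem BKC_int (hd : 1 ≤ d) (ν : Measure (Cf d)) [IsProbabilityMeasure ν] (r K : ℕ) :
    ∑ k ∈ bx d K, ν.real (BKC_A r (BKC_g r k)) ≤
      ((bdry d ((2 * r + 1) * K + r + 1)).card : ℝ) := by
  have hi : ∀ k ∈ bx d K, Integrable
      (fun ω => (BKC_A r (BKC_g r k)).indicator (fun _ => (1 : ℝ)) ω) ν := by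
    intro k _
    exact (integrable_const (1 : ℝ)).indicator (BKC_A_meas r _)
  have h1 : ∑ k ∈ bx d K, ν.real (BKC_A r (BKC_g r k)) =
      ∫ ω, ∑ k ∈ bx d K, (BKC_A r (BKC_g r k)).indicator (fun _ => (1 : ℝ)) ω ∂ν := by
    rw [integral_finsetSum _ hi]
    refine Finset.sum_congr rfl fun k _ => ?_
    rw [integral_indicator_const _ (BKC_A_meas r _), smul_eq_mul, mul_one]
  rw [h1]
  have h2 : ∫ ω, ∑ k ∈ bx d K, (BKC_A r (BKC_g r k)).indicator (fun _ => (1 : ℝ)) ω ∂ν ≤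
      ∫ _ω, ((bdry d ((2 * r + 1) * K + r + 1)).card : ℝ) ∂ν :=
    integral_mono (integrable_finsetSum _ hi) (integrable_const _)
      (fun ω => BKC_count hd r K ω)
  rwa [integral_const, probReal_univ, one_smul] at h2

theorem BKC_bdry (hd : 1 ≤ d) {n : ℕ} (hn : 1 ≤ n) :
    ((bdry d n).card : ℝ) ≤ 2 * d * (2 * n + 1) ^ (d - 1) := by
  have h1 : (bdry d n).card + (bx d (n - 1)).card = (bx d n).card := by
    have h2 : bx d n = bdry d n ∪ bx d (n - 1) := by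
      ext x
      rw [Finset.mem_union, mem_bx, mem_bx, mem_bdry hd]
      omega
    rw [h2, Finset.card_union_of_disjoint]
    rw [Finset.disjoint_left]
    intro x hx hx'
    rw [mem_bdry hd] at hx
    rw [mem_bx] at hx'
    omega
  rw [card_bx, card_bx] at h1
  have h3 : ((bdry d n).card : ℝ) = (2 * n + 1) ^ d - (2 * n - 1) ^ d := by
    have h4 : (((bdry d n).card + (2 * (n - 1) + 1) ^ d : ℕ) : ℝ) = (((2 * n + 1) ^ d : ℕ) : ℝ) := by
      exact_mod_cast h1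
    push_cast [Nat.cast_sub hn] at h4
    have h5 : (2 * ((n : ℝ) - 1) + 1) = 2 * n - 1 := by ring
    rw [h5] at h4
    linarith
  rw [h3]
  have hn' : (1 : ℝ) ≤ n := by exact_mod_cast hn
  have hpos : (0 : ℝ) < 2 * n + 1 := by positivity
  have hb := one_add_mul_le_pow (a := -(2 / (2 * (n : ℝ) + 1))) (by
    rw [neg_le_neg_iff, div_le_iff₀ hpos]
    linarith) d
  have h6 : 1 + -(2 / (2 * (n : ℝ) + 1)) = (2 * n - 1) / (2 * n + 1) := by
    field_simp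
    ring
  rw [h6, div_pow, le_div_iff₀ (by positivity)] at hb
  have h7 : (2 * (n : ℝ) + 1) ^ d = (2 * n + 1) ^ (d - 1) * (2 * n + 1) := by
    rw [← pow_succ]
    congr 1
    omega
  have h8 : (1 + (d : ℝ) * -(2 / (2 * (n : ℝ) + 1))) * (2 * n + 1) ^ d =
      (2 * n + 1) ^ d - 2 * d * (2 * n + 1) ^ (d - 1) := by
    rw [h7]
    field_simp
    ring
  rw [h8] at hb
  linarith

theorem no_tri (hd : 1 ≤ d) (ν : Measure (Cf d)) [IsProbabilityMeasure ν] (hT : TI ν) (C : ℝ)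
    (hC : 0 < C) (hI : INS ν C) (r : ℕ) : ν.real {ω : Cf d | Tri (opn ω) r 0} = 0 := by
  by_contra hne
  have h0 : 0 < ν.real {ω : Cf d | Tri (opn ω) r 0} := lt_of_le_of_ne measureReal_nonneg (Ne.symm hne)
  have hp := BKC_pos ν C hC hI r h0 (bE d r) (Finset.Subset.refl _)
  set p := ν.real ({ω : Cf d | Tri (opn ω) r 0} ∩ up (bE d r)) with hpd
  have hA : ∀ x, p ≤ ν.real (BKC_A r x) := by
    intro x
    rw [hpd, ← hT x _ ((meas_Tri r 0).inter (lcl_measurable (lcl_up _)))]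
    exact measureReal_mono (BKC_shift r x)
  have key : ∀ K : ℕ, (2 * (K : ℝ) + 1) * p ≤ 2 * d * (2 * r + 3) ^ (d - 1) := by
    intro K
    have h1 := BKC_int hd ν r K
    have h2 : ((2 * (K : ℝ) + 1) ^ d) * p ≤ ∑ k ∈ bx d K, ν.real (BKC_A r (BKC_g r k)) := by
      have h3 : ∑ _k ∈ bx d K, p ≤ ∑ k ∈ bx d K, ν.real (BKC_A r (BKC_g r k)) :=
        Finset.sum_le_sum fun k _ => hA _
      rw [Finset.sum_const, card_bx, nsmul_eq_mul] at h3
      push_cast at h3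
      exact h3
    have h4 := BKC_bdry hd (n := (2 * r + 1) * K + r + 1) (by omega)
    have h5 : (2 * (((2 * r + 1) * K + r + 1 : ℕ) : ℝ) + 1) ≤ (2 * r + 3) * (2 * K + 1) := by
      push_cast
      have : (0 : ℝ) ≤ K := Nat.cast_nonneg K
      nlinarith
    have h6 : (2 * (((2 * r + 1) * K + r + 1 : ℕ) : ℝ) + 1) ^ (d - 1) ≤
        ((2 * (r : ℝ) + 3) * (2 * K + 1)) ^ (d - 1) :=
      pow_le_pow_left₀ (by positivity) h5 _
    have h7 : ((2 * (K : ℝ) + 1) ^ d) * p ≤ 2 * d * ((2 * (r : ℝ) + 3) * (2 * K + 1)) ^ (d - 1) :=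
      (h2.trans h1).trans (h4.trans (mul_le_mul_of_nonneg_left h6 (by positivity)))
    have h8 : (2 * (K : ℝ) + 1) ^ d = (2 * K + 1) ^ (d - 1) * (2 * K + 1) := by
      rw [← pow_succ]
      congr 1
      omega
    rw [h8, mul_pow] at h7
    have h9 : (0 : ℝ) < (2 * K + 1) ^ (d - 1) := by positivity
    refine le_of_mul_le_mul_left ?_ h9
    linarith
  obtain ⟨K, hK⟩ := exists_nat_gt (2 * d * (2 * (r : ℝ) + 3) ^ (d - 1) / p)
  rw [div_lt_iff₀ hp] at hK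
  have h1 := key K
  have : (0 : ℝ) ≤ K := Nat.cast_nonneg K
  nlinarith

end H82.IC

end S_H82_IC_BKC
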