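import Mathlib
import Pool.Agent.H82.ICM.G05
import Pool.Agent.H82.ICM.G06
import Pool.Agent.H82.ICM.G07
import Pool.Agent.H82.ICM.G08

/-! MP_c4c051_pr: this file joins several modules to save build time. -/

section S_H82_IC_PM1

/-!
# PM1: limits of measures along an ultrafilter

`Cf d = Ed d → Bool` is a compact (Tychonoff), metrizable, second countable space with its Borel σ-algebra (`Pi.borelSpace`, `Ed d` countable, `Bool` discrete), so `ProbabilityMeasure (Cf d)` is compact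
(`Mathlib/MeasureTheory/Measure/Prokhorov.lean`, instance), hence the ultrafilter `(hyperfilter ℕ).map (fun n => ν n)` converges to some `μ`
(`Ultrafilter.le_nhds_lim` / `isCompact_univ.ultrafilter_le_nhds`).  A cylinder event `X` is clopen (it depends on finitely many discrete coordinates): its frontier is empty, and
`ProbabilityMeasure.tendsto_measure_of_null_frontier_of_tendsto` (any filter) gives the convergence of `ν n X`; or integrate the continuous indicator function.
-/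

set_option autoImplicit false

open Finset MeasureTheory Filter Topology

namespace H82.IC

variable {d : ℕ}

theorem PM1_clopen {X : Set (Cf d)} (h : Lcl X) : IsClopen X := by
  obtain ⟨F, hF⟩ := h
  have hm : Continuous (fun (ω : Cf d) (e : F) => ω e) :=
    continuous_pi fun e => continuous_apply _
  have hX : X = (fun (ω : Cf d) (e : F) => ω e) ⁻¹' ((fun (ω : Cf d) (e : F) => ω e) '' X) := by
    ext ω
    constructor
    · intro hω
      exact ⟨ω, hω, rfl⟩
    · rintro ⟨ω', hω', h1⟩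
      refine (hF ω' ω fun e he => ?_).mp hω'
      exact congrFun h1 ⟨e, he⟩
  rw [hX]
  exact (isClopen_discrete _).preimage hm

theorem exists_ultra_limit (ν : ℕ → Measure (Cf d)) (hν : ∀ n, IsProbabilityMeasure (ν n)) :
    ∃ μ : Measure (Cf d), IsProbabilityMeasure μ ∧
      ∀ X : Set (Cf d), Lcl X → Tendsto (fun n => (ν n).real X) (hyperfilter ℕ) (𝓝 (μ.real X)) := by
  let P : ℕ → ProbabilityMeasure (Cf d) := fun n => ⟨ν n, hν n⟩
  obtain ⟨μ, -, hμ⟩ := isCompact_univ.ultrafilter_le_nhds ((hyperfilter ℕ).map P) (by simp)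
  have hlim : Tendsto P (hyperfilter ℕ) (𝓝 μ) := hμ
  refine ⟨μ, μ.2, fun X hX => ?_⟩
  have h1 := ProbabilityMeasure.tendsto_measure_of_isClopen_of_tendsto hlim (PM1_clopen hX)
  have h2 := (NNReal.tendsto_coe.2 h1)
  exact h2

/-- a sequence that converges along `atTop` converges to the same limit along the ultrafilter, so limits on
all cylinder events identify the measure. -/
theorem exists_limit (ν : ℕ → Measure (Cf d)) (hν : ∀ n, IsProbabilityMeasure (ν n))
    (h : ∀ X : Set (Cf d), Lcl X → ∃ a : ℝ, Tendsto (fun n => (ν n).real X) atTop (𝓝 a)) :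
    ∃ μ : Measure (Cf d), IsProbabilityMeasure μ ∧
      ∀ X : Set (Cf d), Lcl X → Tendsto (fun n => (ν n).real X) atTop (𝓝 (μ.real X)) := by
  obtain ⟨μ, hμ, hlim⟩ := exists_ultra_limit ν hν
  refine ⟨μ, hμ, fun X hX => ?_⟩
  obtain ⟨a, ha⟩ := h X hX
  have h1 : Tendsto (fun n => (ν n).real X) (hyperfilter ℕ) (𝓝 a) := by
    refine ha.mono_left ?_
    rw [← Nat.cofinite_eq_atTop]
    exact hyperfilter_le_cofinite
  rw [tendsto_nhds_unique (hlim X hX) h1]
  exact ha

end H82.IC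

end S_H82_IC_PM1

section S_H82_IC_FINA

/-!
# FINA: the main estimate for one `n`

`a n = μ (arm n 0)`.  Let `K1` be from `harnack_N` for some `m1` with `F ⊆ bE m1` (so the points of `enF F` have `nm ≤ m1`), `K = 2 K1`; `mixing` with `κ, K` gives `ρ > 1`, `T`; choose `ε ∈ (0, 1/8)` with
`1 ≤ ρ (1 - 4ε)`, `J` with `(1-ε)^J (d+1) ≤ 1`, apply the rest of `mixing` with `2J`: `l, L, m0`; `m = max m0 m1`; `rare` for `m` and `ε' = min ε (κ/(1+|c|))`: `n0`.
CLAIM (`good_at`): for `n ≥ n0` (and `n ≥ m`), `S ⊆ range (2T)`, `|S| = T`, if `(1-ε) a n ≤ μ (arm n u)` for all `u` in the annuli of `S`, then for all `N` large enough `DDd d β m n N F c ≤ κ a n`.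
Proof: `phiB β N false (arm n u) → μ (arm n u)` for the finitely many `u ∈ bx m` (local events, `lcl_arm`, `m ≤ n`) so for `N ≥ N0`: `phiB N (arm n u) ≥ (1-2ε) a n` for these `u`, and `≥ (1-ε) a n` for `u = 0`; and
`phiB N (arm n 0) ≤ a n` (`free_le`).  `MMd_bounds`: `MMd u ≥ (1-2ε) a n - ε' a n ≥ (1-3ε) a n`, `MMd 0 ≤ a n ≤ ρ MMd u`;
`MMd z ≤ phiB N (arm n z) ≤ K1 phiB N (arm n 0) ≤ K1 (MMd 0 + ε' a n) ≤ 2 K1 MMd 0` as `MMd 0 ≥ (1-ε-ε') a n ≥ ε' a n`.  `mixing` gives `DDd ≤ κ MMd 0 ≤ κ a n`.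
The constants `(m, T, l, L, ε, J, n0)` are packaged in the statement.
-/

set_option autoImplicit false

open Finset MeasureTheory Filter Topology

namespace H82.IC

variable {d : ℕ}

private theorem FINA_mono {l L : ℕ → ℕ} (h1 : ∀ t, l t < L t) (h2 : ∀ t, L t ≤ l (t + 1))
    {s t : ℕ} (h : s ≤ t) : L s ≤ L t :=
  monotone_nat_of_le_succ (fun n => (h2 n).trans (h1 (n + 1)).le) h

private theorem FINA_enF {F : Finset (Ed d)} {m1 : ℕ} (hF : F ⊆ bE d m1) {z : Vx d}
    (hz : z ∈ enF F) : nm z ≤ m1 := by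
  unfold enF at hz
  rw [Finset.mem_union, Finset.mem_image, Finset.mem_image] at hz
  rcases hz with ⟨e, he, rfl⟩ | ⟨e, he, rfl⟩
  · exact (mem_bE.1 (hF he)).1
  · exact (mem_bE.1 (hF he)).2

theorem good_at (hd : 2 ≤ d) {β : ℝ} (hβ : 0 < β) {μ : Measure (Cf d)}
    (hμ : IsLim β false μ) (hμ' : IsLim β true μ) (hp : μ.real (perc d) = 0)
    (hχ : ¬ Summable (fun x : Vx d => μ.real (cn 0 x))) (F : Finset (Ed d)) (c : ℝ)
    (hc : Tendsto (fun x : Vx d => μ.real (dw F ∩ cn 0 x) / μ.real (cn 0 x)) cofinite (𝓝 c))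
    (κ : ℝ) (hκ : 0 < κ) :
    ∃ (m T J n0 : ℕ) (ε : ℝ) (l L : ℕ → ℕ), 1 ≤ T ∧ 0 < ε ∧ ε < 1 / 2 ∧
      (1 - ε) ^ J * ((d : ℝ) + 1) ≤ 1 ∧ F ⊆ bE d m ∧ L (2 * T) ≤ m ∧
      (∀ t, l t < L t) ∧ (∀ t, L t ≤ l (t + 1)) ∧ (∀ t, 2 * J * L t ≤ l (t + 1)) ∧
      (∀ n, n0 ≤ n → ∀ N, m ≤ N →
        (1 + |c|) * rrd d β m n N ≤ κ * μ.real (arm n (0 : Vx d))) ∧
      ∀ n, n0 ≤ n → ∀ S ⊆ Finset.range (2 * T), S.card = T →
        (∀ t ∈ S, ∀ u : Vx d, l t < nm u → nm u ≤ L t →
          (1 - ε) * μ.real (arm n (0 : Vx d)) ≤ μ.real (arm n u)) →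
        ∃ N0, ∀ N, N0 ≤ N → DDd d β m n N F c ≤ κ * μ.real (arm n (0 : Vx d)) := by
  have hd1 : 1 ≤ d := by omega
  have hβ0 : 0 ≤ β := hβ.le
  obtain ⟨m1, hm1⟩ := exists_bE F
  obtain ⟨K1, hK1, hK1'⟩ := harnack_N hd1 hβ m1
  obtain ⟨ρ, hρ, T, hT, hmix⟩ := mixing hd hβ hμ hμ' hp hχ F c hc κ (2 * K1) hκ (by positivity)
  have hρ0 : 0 < ρ := by linarith
  set ε : ℝ := min (1 / 16) ((ρ - 1) / (4 * ρ)) with hε
  have hε0 : 0 < ε := by
    rw [hε]
    refine lt_min (by norm_num) (div_pos (by linarith) (by linarith))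
  have hε1 : ε ≤ 1 / 16 := min_le_left _ _
  have hε2 : 1 ≤ ρ * (1 - 4 * ε) := by
    have h1 : ε ≤ (ρ - 1) / (4 * ρ) := min_le_right _ _
    rw [le_div_iff₀ (by linarith)] at h1
    nlinarith
  obtain ⟨J, hJ⟩ := exists_pow_lt_of_lt_one (show (0 : ℝ) < 1 / ((d : ℝ) + 1) by positivity)
    (show 1 - ε < 1 by linarith)
  have hJ' : (1 - ε) ^ J * ((d : ℝ) + 1) ≤ 1 := by
    rw [lt_div_iff₀ (by positivity)] at hJ
    exact hJ.le
  obtain ⟨l, L, hlL, hLl, hJL, m0, hm0⟩ := hmix (2 * J)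
  set m : ℕ := max m0 m1 with hm
  have hmm0 : m0 ≤ m := le_max_left _ _
  have hmm1 : m1 ≤ m := le_max_right _ _
  obtain ⟨hFm, hLm, hmain⟩ := hm0 m hmm0
  have hc1 : 0 < 1 + |c| := by positivity
  set ε' : ℝ := min ε (κ / (1 + |c|)) with hε'
  have hε'0 : 0 < ε' := lt_min hε0 (by positivity)
  have hε'1 : ε' ≤ ε := min_le_left _ _
  have hε'2 : ε' * (1 + |c|) ≤ κ := by
    rw [← le_div_iff₀ hc1]
    exact min_le_right _ _
  obtain ⟨n1, hn1⟩ := rare hd1 hβ hμ hp m ε' hε'0
  refine ⟨m, T, J, max n1 m, ε, l, L, hT, hε0, by linarith, hJ', hFm, hLm, hlL, hLl, hJL, ?_, ?_⟩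
  · intro n hn N hN
    have h1 := hn1 n ((le_max_left _ _).trans hn) N hN
    have h2 := (arm_pos hd1 hβ hμ n (0 : Vx d)).le
    calc (1 + |c|) * rrd d β m n N ≤ (1 + |c|) * (ε' * μ.real (arm n (0 : Vx d))) := by gcongr
      _ = (ε' * (1 + |c|)) * μ.real (arm n (0 : Vx d)) := by ring
      _ ≤ κ * μ.real (arm n (0 : Vx d)) := by gcongr
  · intro n hn S hS hST hgood
    have hnn1 : n1 ≤ n := (le_max_left _ _).trans hn
    have hnm : m ≤ n := (le_max_right _ _).trans hn
    set a : ℝ := μ.real (arm n (0 : Vx d)) with ha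
    have ha0 : 0 < a := arm_pos hd1 hβ hμ n (0 : Vx d)
    have hev : ∀ᶠ N in atTop, ∀ u ∈ bx d m, (1 - ε) * a ≤ μ.real (arm n u) →
        (1 - 2 * ε) * a ≤ phiB β N false (arm n u) := by
      rw [Filter.eventually_all_finset]
      intro u hu
      have hu' : nm u ≤ n := (mem_bx.1 hu).trans hnm
      by_cases h : (1 - ε) * a ≤ μ.real (arm n u)
      · have h1 : (1 - 2 * ε) * a < μ.real (arm n u) := by nlinarith
        filter_upwards [(hμ.2 _ (lcl_arm hd1 hu')).eventually (lt_mem_nhds h1)] with N hN _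
        exact hN.le
      · exact Filter.Eventually.of_forall fun N hN => absurd hN h
    obtain ⟨N1, hN1⟩ := Filter.eventually_atTop.1 hev
    refine ⟨max N1 (m + 1), fun N hN => ?_⟩
    have hNN1 : N1 ≤ N := (le_max_left _ _).trans hN
    have hNm : m + 1 ≤ N := (le_max_right _ _).trans hN
    have hNm' : m ≤ N := by omega
    have hph := hN1 N hNN1
    have h0m : nm (0 : Vx d) ≤ m := by rw [nm_zero]; exact Nat.zero_le _
    have hrr := hn1 n hnn1 N hNm'
    have hrr0 : rrd d β m n N ≤ ε * a := hrr.trans (by gcongr)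
    have hlow : ∀ u : Vx d, nm u ≤ m → (1 - ε) * a ≤ μ.real (arm n u) →
        (1 - 3 * ε) * a ≤ MMd d β m n N u := by
      intro u hu hga
      have h1 := hph u (mem_bx.2 hu) hga
      have h2 := (MMd_bounds hβ0 (n := n) hNm' hu).2.2
      linarith
    have hM0 : (1 - 3 * ε) * a ≤ MMd d β m n N 0 := hlow 0 h0m (by nlinarith)
    have hM0a : MMd d β m n N 0 ≤ a :=
      (MMd_bounds hβ0 (n := n) hNm' h0m).2.1.trans
        (free_le hβ0 hμ N (inc_arm n 0) (lcl_arm hd1 (h0m.trans hnm)))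
    have hkey := hmain N hNm n S hS hST ?_ ?_
    · exact hkey.trans (by gcongr)
    · intro t ht u h1 h2
      have ht' : t < 2 * T := Finset.mem_range.1 (hS ht)
      have hum : nm u ≤ m := h2.trans ((FINA_mono hlL hLl ht'.le).trans hLm)
      have h3 := hlow u hum (hgood t ht u h1 h2)
      calc MMd d β m n N 0 ≤ 1 * a := by linarith
        _ ≤ (ρ * (1 - 4 * ε)) * a := by gcongr
        _ = ρ * ((1 - 4 * ε) * a) := by ring
        _ ≤ ρ * MMd d β m n N u := by
          refine mul_le_mul_of_nonneg_left ?_ hρ0.le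
          nlinarith
    · intro z hz
      have hzm1 := FINA_enF hm1 hz
      have h1 := (MMd_bounds hβ0 (n := n) hNm' (hzm1.trans hmm1)).2.1
      have h2 := hK1' N (hmm1.trans hNm') n z hzm1
      have h3 := (MMd_bounds hβ0 (n := n) hNm' h0m).2.2
      have h4 : phiB β N false (arm n (0 : Vx d)) ≤ 2 * MMd d β m n N 0 := by nlinarith
      calc MMd d β m n N z ≤ K1 * phiB β N false (arm n (0 : Vx d)) := h1.trans h2
        _ ≤ K1 * (2 * MMd d β m n N 0) := by gcongr
        _ = 2 * K1 * MMd d β m n N 0 := by ring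

end H82.IC

end S_H82_IC_FINA

section S_H82_IC_FINB

/-!
# FINB: the one arm limit for the events `dw F` (stage 1)

Let `a n = μ (arm n 0)`, positive (`arm_pos`), antitone (`arm_anti`).  Given `κ' > 0` let `κ = κ' / (4 (d+1))` and take the constants of `good_at`.  For `n ≥ n0 + l (2T) + m + 1` apply `dich`:
Case 1: `S` good at `n`: for `u` in the annulus `t ∈ S`: `sym_bound` (`nm u ≤ L t ≤ m ≤ n`) with `a (n + nm u) ≥ a (n + L t)`, `a (n - nm u) ≥ a (n - l t)` gives `(1-ε) a n ≤ μ (arm n u)`.  So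
  `DDd m n N ≤ κ a n` for `N` large.
Case 2: `n'` with `n0 ≤ n' ≤ n`, `m ≤ n'`: `S = range T`, for `u` in the annulus `t < T`: `nm u ≤ L t ≤ L (T-1)`, `μ (arm n' u) ≥ a (n' + nm u) ≥ a (n' + L (T-1)) ≥ (1-ε) a n'` (`arm_ge`).  So
  `DDd m n' N ≤ κ a n' ≤ κ (d+1) a n` for `N` large, and `DDd_transfer`: `DDd m n N ≤ DDd m n' N + (1+|c|) rrd m n' N ≤ 2 κ (d+1) a n`.
In both cases for `N` large `|phiB N (dw F ∩ arm n 0) - c phiB N (arm n 0)| ≤ DDd m n N + (1+|c|) rrd m n N ≤ 3 κ (d+1) a n ≤ κ' a n` (`DDd_final`).  `N → ∞` (local events):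
 `|μ (dw F ∩ arm n 0) - c a n| ≤ κ' a n`, i.e. `|μ (dw F ∩ arm n 0)/a n - c| ≤ κ'` for all large `n`.
-/

set_option autoImplicit false

open Finset MeasureTheory Filter Topology

namespace H82.IC

variable {d : ℕ}

theorem one_arm_dw (hd : 2 ≤ d) {β : ℝ} (hβ : 0 < β) {μ : Measure (Cf d)}
    (hμ : IsLim β false μ) (hμ' : IsLim β true μ) (hp : μ.real (perc d) = 0)
    (hχ : ¬ Summable (fun x : Vx d => μ.real (cn 0 x))) (F : Finset (Ed d)) (c : ℝ)
    (hc : Tendsto (fun x : Vx d => μ.real (dw F ∩ cn 0 x) / μ.real (cn 0 x)) cofinite (𝓝 c)) :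
    Tendsto (fun n : ℕ => μ.real (dw F ∩ arm n (0 : Vx d)) / μ.real (arm n (0 : Vx d))) atTop
      (𝓝 c) := by
  have hd1 : 1 ≤ d := by omega
  have : IsProbabilityMeasure μ := hμ.1
  obtain ⟨a, ha_def⟩ : ∃ a : ℕ → ℝ, a = fun n => μ.real (arm n (0 : Vx d)) := ⟨_, rfl⟩
  have hae : ∀ n, μ.real (arm n (0 : Vx d)) = a n := fun n => by rw [ha_def]
  have h00 : ∀ n : ℕ, nm (0 : Vx d) ≤ n := fun n => by rw [nm_zero]; exact Nat.zero_le n
  have ha : Antitone a := by
    intro m n hmn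
    rw [← hae, ← hae]
    exact measureReal_mono (arm_anti hd1 hmn (h00 m))
  have hpos : ∀ n, 0 < a n := by
    intro n
    rw [← hae]
    exact arm_pos hd1 hβ hμ n 0
  have hdpos : (0 : ℝ) < (d : ℝ) + 1 := by positivity
  have hd0 : (0 : ℝ) < (d : ℝ) := by exact_mod_cast hd1
  rw [Metric.tendsto_atTop]
  intro κ' hκ'
  obtain ⟨κ, hκdef⟩ : ∃ κ : ℝ, κ = κ' / (4 * ((d : ℝ) + 1)) := ⟨_, rfl⟩
  have hκ : 0 < κ := by rw [hκdef]; positivity
  obtain ⟨m, T, J, n0, ε, l, L, hT, hε, hε2, hJ, hF, hLm, h1, h2, h3, hr, hD⟩ :=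
    good_at hd hβ hμ hμ' hp hχ F c hc κ hκ
  simp only [hae] at hr hD ⊢
  have hLmono : Monotone L := monotone_nat_of_le_succ fun t => (h2 t).trans (h1 (t + 1)).le
  refine ⟨n0 + l (2 * T) + m + 1, fun n hn => ?_⟩
  have hn0 : n0 ≤ n := by omega
  have hmn : m ≤ n := by omega
  -- the bound for `DDd`
  have key : ∃ N0, ∀ N, N0 ≤ N → m ≤ N →
      DDd d β m n N F c ≤ 2 * κ * ((d : ℝ) + 1) * a n := by
    rcases dich d hd1 a ha hpos ε hε hε2 T J hT hJ l L h1 h2 h3 n (by omega) with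
      ⟨S, hS, hSc, hSg⟩ | ⟨n', hn1, hn2, hn3, hn4⟩
    · obtain ⟨N0, hN0⟩ := hD n hn0 S hS hSc (by
        intro t ht u hu1 hu2
        have ht2 : t < 2 * T := Finset.mem_range.1 (hS ht)
        have hLt : L t ≤ n := ((hLmono ht2.le).trans hLm).trans hmn
        have hb := sym_bound hd1 hβ.le hμ n u (hu2.trans hLt)
        simp only [hae] at hb
        have hg := hSg t ht
        have m1 : a (n + L t) ≤ a (n + nm u) := ha (by omega)
        have m2 : a (n - l t) ≤ a (n - nm u) := ha (by omega)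
        have m3 : (1 / (2 * (d : ℝ))) * (a (n - l t) - a n) ≤
            (1 / (2 * (d : ℝ))) * (a (n - nm u) - a n) :=
          mul_le_mul_of_nonneg_left (by linarith) (by positivity)
        linarith)
      refine ⟨N0, fun N hN _ => (hN0 N hN).trans ?_⟩
      have e1 : κ * a n ≤ 2 * κ * ((d : ℝ) + 1) * a n := by
        refine mul_le_mul_of_nonneg_right ?_ (hpos n).le
        nlinarith
      exact e1
    · have hmn' : m ≤ n' := by omega
      have hn0' : n0 ≤ n' := by omega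
      obtain ⟨N0, hN0⟩ := hD n' hn0' (Finset.range T)
        (Finset.range_subset_range.2 (by omega)) (Finset.card_range T) (by
        intro t ht u hu1 hu2
        have ht2 : t < T := Finset.mem_range.1 ht
        have hLt : L t ≤ L (T - 1) := hLmono (by omega)
        have hLT : L (T - 1) ≤ m := (hLmono (by omega)).trans hLm
        have hb := arm_ge hd1 hβ.le hμ n' u (by omega)
        simp only [hae] at hb
        have m1 : a (n' + L (T - 1)) ≤ a (n' + nm u) := ha (by omega)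
        linarith)
      refine ⟨N0, fun N hN hmN => ?_⟩
      have t1 := DDd_transfer hd1 hβ.le hmN hmn' hn2 hF c
      have t2 := hN0 N hN
      have t3 := hr n' hn0' N hmN
      have t4 : κ * a n' ≤ κ * (((d : ℝ) + 1) * a n) := mul_le_mul_of_nonneg_left hn3 hκ.le
      linarith
  obtain ⟨N0, hN0⟩ := key
  have hlim1 := hμ.2 (dw F ∩ arm n (0 : Vx d)) (lcl_inter (lcl_dw F) (lcl_arm hd1 (h00 n)))
  have hlim2 := hμ.2 (arm n (0 : Vx d)) (lcl_arm hd1 (h00 n))
  rw [hae] at hlim2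
  have hlim := (hlim1.sub (hlim2.const_mul c)).abs
  have hfin : |μ.real (dw F ∩ arm n (0 : Vx d)) - c * a n| ≤ 3 * κ * ((d : ℝ) + 1) * a n := by
    refine le_of_tendsto hlim ?_
    filter_upwards [eventually_ge_atTop (max N0 m)] with N hN
    have hN1 : N0 ≤ N := (le_max_left _ _).trans hN
    have hN2 : m ≤ N := (le_max_right _ _).trans hN
    have t1 := DDd_final (n := n) hβ.le hN2 hF c
    have t2 := hN0 N hN1 hN2
    have t3 := hr n hn0 N hN2
    have t4 : κ * a n ≤ κ * ((d : ℝ) + 1) * a n := by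
      refine mul_le_mul_of_nonneg_right ?_ (hpos n).le
      nlinarith
    linarith
  rw [Real.dist_eq]
  have hane := (hpos n).ne'
  have e : μ.real (dw F ∩ arm n (0 : Vx d)) / a n - c =
      (μ.real (dw F ∩ arm n (0 : Vx d)) - c * a n) / a n := by
    rw [sub_div, mul_div_assoc, div_self hane, mul_one]
  rw [e, abs_div, abs_of_pos (hpos n), div_lt_iff₀ (hpos n)]
  refine hfin.trans_lt ?_
  refine mul_lt_mul_of_pos_right ?_ (hpos n)
  rw [hκdef]
  have : 3 * (κ' / (4 * ((d : ℝ) + 1))) * ((d : ℝ) + 1) = 3 / 4 * κ' := by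
    field_simp
  rw [this]
  linarith

end H82.IC

end S_H82_IC_FINB

section S_H82_IC_GE

/-!
# GE: from `dw F` to all cylinder events; stage 1 theorem

* `lcl_decomp`: `X` depends on the finite set `F0`: `1_X(ω) = ∑_{η ⊆ F0} 1[η ∈ X'] ∏_{e ∈ η} (1 - 1[ω e = false]) ∏_{e ∈ F0 \ η} 1[ω e = false]`; expand the products
  (`Finset.prod_one_sub_ordered` / `Finset.prod_add`): a linear combination of the indicators of `dw S`, `S ⊆ F0`.  Integrate over `Y`.
* `stage_one`: if all the limits `c_S` for `dw S` along `x → ∞` exist, then by linearity the `x`-limit for `X` is `∑ a_S c_S` (so `= L` by uniqueness of limits; the filter `cofinite` on `ℤ^d`, `d ≥ 1`, is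
  nontrivial), and by `one_arm_dw` the one arm limit is the same.
-/

set_option autoImplicit false

open Finset MeasureTheory Filter Topology

namespace H82.IC

variable {d : ℕ}

/-- Moebius inversion on the finite subsets, recursively. -/
noncomputable def GE_a {α : Type*} [DecidableEq α] (g : Finset α → ℝ) (S : Finset α) : ℝ :=
  g S - ∑ T : {T // T ∈ S.ssubsets}, GE_a g T.1
termination_by S.card
decreasing_by exact Finset.card_lt_card (Finset.mem_ssubsets.mp T.2)

theorem GE_sum {α : Type*} [DecidableEq α] (g : Finset α → ℝ) (D : Finset α) :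
    g D = ∑ S ∈ D.powerset, GE_a g S := by
  have h1 : ∑ S ∈ D.powerset, GE_a g S = GE_a g D + ∑ S ∈ D.ssubsets, GE_a g S :=
    (Finset.add_sum_erase _ _ (Finset.mem_powerset_self D)).symm
  rw [h1, ← Finset.sum_coe_sort D.ssubsets]
  have h2 : GE_a g D = g D - ∑ T : {T // T ∈ D.ssubsets}, GE_a g T.1 := by
    rw [GE_a]
  rw [h2]
  ring

theorem GE_dw_lcl (S : Finset (Ed d)) : Lcl (dw S : Set (Cf d)) :=
  ⟨S, fun ω ω' h => by
    constructor
    · intro hω e he
      rw [← h e he]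
      exact hω e he
    · intro hω e he
      rw [h e he]
      exact hω e he⟩

theorem GE_pt {X : Set (Cf d)} (F0 : Finset (Ed d))
    (hX : ∀ ω ω' : Cf d, (∀ e ∈ F0, ω e = ω' e) → (ω ∈ X ↔ ω' ∈ X)) :
    ∃ a : Finset (Ed d) → ℝ, ∀ ω : Cf d,
      X.indicator (fun _ => (1 : ℝ)) ω = ∑ S ∈ F0.powerset, a S * (dw S).indicator (fun _ => 1) ω := by
  classical
  obtain ⟨g, hg⟩ : ∃ g : Finset (Ed d) → ℝ, g = fun D =>
    X.indicator (fun _ => (1 : ℝ)) (fun e => if e ∈ D then false else true) := ⟨_, rfl⟩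
  refine ⟨GE_a g, fun ω => ?_⟩
  obtain ⟨D, hD⟩ : ∃ D : Finset (Ed d), D = F0.filter (fun e => ω e = false) := ⟨_, rfl⟩
  have h1 : X.indicator (fun _ => (1 : ℝ)) ω = g D := by
    rw [hg]
    show X.indicator (fun _ => (1 : ℝ)) ω =
      X.indicator (fun _ => (1 : ℝ)) (fun e => if e ∈ D then false else true)
    have h2 : ω ∈ X ↔ (fun e => if e ∈ D then false else true) ∈ X := by
      refine hX _ _ fun e he => ?_
      show ω e = if e ∈ D then false else true
      have hmem : e ∈ D ↔ ω e = false := by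
        rw [hD, Finset.mem_filter]
        exact ⟨fun h => h.2, fun h => ⟨he, h⟩⟩
      by_cases h3 : ω e = false
      · rw [if_pos (hmem.mpr h3), h3]
      · rw [if_neg (fun h4 => h3 (hmem.mp h4))]
        exact Bool.eq_true_of_not_eq_false h3
    by_cases h4 : ω ∈ X
    · rw [Set.indicator_of_mem h4, Set.indicator_of_mem (h2.mp h4)]
    · rw [Set.indicator_of_notMem h4, Set.indicator_of_notMem (fun h5 => h4 (h2.mpr h5))]
  rw [h1, GE_sum g D]
  have hsub : D.powerset ⊆ F0.powerset := by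
    rw [hD]
    exact Finset.powerset_mono.mpr (Finset.filter_subset _ _)
  rw [← Finset.sum_subset hsub]
  · refine Finset.sum_congr rfl fun S hS => ?_
    have h5 : ω ∈ dw S := by
      intro e he
      have h6 := Finset.mem_powerset.mp hS he
      rw [hD] at h6
      exact (Finset.mem_filter.mp h6).2
    rw [Set.indicator_of_mem h5, mul_one]
  · intro S hS hS'
    have h5 : ω ∉ dw S := by
      intro h6
      refine hS' (Finset.mem_powerset.mpr fun e he => ?_)
      rw [hD]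
      exact Finset.mem_filter.mpr ⟨Finset.mem_powerset.mp hS he, h6 e he⟩
    rw [Set.indicator_of_notMem h5, mul_zero]

theorem GE_int (μ : Measure (Cf d)) [IsProbabilityMeasure μ] {X Y : Set (Cf d)}
    (hX : MeasurableSet X) :
    μ.real (X ∩ Y) = ∫ ω in Y, X.indicator (fun _ => (1 : ℝ)) ω ∂μ := by
  rw [integral_indicator hX, Measure.restrict_restrict hX, setIntegral_const, smul_eq_mul, mul_one]

theorem lcl_decomp {X : Set (Cf d)} (hX : Lcl X) :
    ∃ (F0 : Finset (Ed d)) (a : Finset (Ed d) → ℝ), ∀ (μ : Measure (Cf d)) [IsProbabilityMeasure μ]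
      (Y : Set (Cf d)), MeasurableSet Y →
      μ.real (X ∩ Y) = ∑ S ∈ F0.powerset, a S * μ.real (dw S ∩ Y) := by
  obtain ⟨F0, hF0⟩ := hX
  obtain ⟨a, ha⟩ := GE_pt F0 hF0
  refine ⟨F0, a, fun μ hμ Y hY => ?_⟩
  have hXm : MeasurableSet X := lcl_measurable ⟨F0, hF0⟩
  rw [GE_int μ hXm]
  simp only [ha]
  have hi : ∀ S : Finset (Ed d), Integrable (fun ω => (dw S).indicator (fun _ => (1 : ℝ)) ω)
      (μ.restrict Y) := fun S =>
    (integrable_const (1 : ℝ)).indicator (lcl_measurable (GE_dw_lcl S))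
  rw [integral_finsetSum _ fun S _ => (hi S).const_mul (a S)]
  refine Finset.sum_congr rfl fun S _ => ?_
  rw [integral_const_mul, GE_int μ (lcl_measurable (GE_dw_lcl S))]

theorem stage_one (hd : 2 ≤ d) {β : ℝ} (hβ : 0 < β) {μ : Measure (Cf d)}
    (hμ : IsLim β false μ) (hμ' : IsLim β true μ) (hp : μ.real (perc d) = 0)
    (hχ : ¬ Summable (fun x : Vx d => μ.real (cn 0 x)))
    (hlim : ∀ F : Finset (Ed d), ∃ c : ℝ,
      Tendsto (fun x : Vx d => μ.real (dw F ∩ cn 0 x) / μ.real (cn 0 x)) cofinite (𝓝 c))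
    (X : Set (Cf d)) (hX : Lcl X) :
    ∃ L : ℝ, Tendsto (fun x : Vx d => μ.real (X ∩ cn 0 x) / μ.real (cn 0 x)) cofinite (𝓝 L) ∧
      Tendsto (fun n : ℕ => μ.real (X ∩ arm n (0 : Vx d)) / μ.real (arm n (0 : Vx d))) atTop
        (𝓝 L) := by
  have hprob := hμ.1
  obtain ⟨F0, a, ha⟩ := lcl_decomp hX
  choose c hc using hlim
  refine ⟨∑ S ∈ F0.powerset, a S * c S, ?_, ?_⟩
  · have h1 : ∀ x : Vx d, μ.real (X ∩ cn 0 x) / μ.real (cn 0 x) =
        ∑ S ∈ F0.powerset, a S * (μ.real (dw S ∩ cn 0 x) / μ.real (cn 0 x)) := by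
      intro x
      rw [ha μ _ (meas_cn 0 x), Finset.sum_div]
      exact Finset.sum_congr rfl fun S _ => mul_div_assoc _ _ _
    simp only [h1]
    exact tendsto_finsetSum _ fun S _ => (hc S).const_mul (a S)
  · have h1 : ∀ n : ℕ, μ.real (X ∩ arm n (0 : Vx d)) / μ.real (arm n (0 : Vx d)) =
        ∑ S ∈ F0.powerset, a S * (μ.real (dw S ∩ arm n (0 : Vx d)) /
          μ.real (arm n (0 : Vx d))) := by
      intro n
      rw [ha μ _ (meas_arm n 0), Finset.sum_div]
      exact Finset.sum_congr rfl fun S _ => mul_div_assoc _ _ _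
    simp only [h1]
    exact tendsto_finsetSum _ fun S _ =>
      (one_arm_dw hd hβ hμ hμ' hp hχ S (c S) (hc S)).const_mul (a S)

end H82.IC

end S_H82_IC_GE

section S_H82_IC_PM2

/-!
# PM2: existence and uniqueness of the free and wired infinite volume measures

* `exists_phiM`: the finite sum of Dirac masses `∑_{ω ⊆ bE n} (fkw/Z) δ_{glue (bE n) b ω}` (all weights `≥ 0`, `Z > 0`).
* `exists_IsLim`: with `ν n` from `exists_phiM` apply `exists_limit`.  Convergence of `phiB β n b X` for cylinder `X`: by `lcl_decomp` (with `Y = univ`) `(ν n).real X = ∑ a_S (ν n).real (dw S)`; and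
  `(ν n).real (dw S) = 1 - (ν n).real (dw S)ᶜ`, `(dw S)ᶜ` increasing and local, so `phiB β n b (dw S)ᶜ` is monotone in `n` (`phiB_free_mono`, `phiB_wired_anti`) and bounded, hence converges
  (`tendsto_atTop_ciSup`, ...).
* `isLim_unique`: both have the same value on `up S` (limits of the same sequence), `measure_ext_up`.
* `lim_le`: limit of `phiB_free_le_wired` (`phiB β n false X ≤ phiB β n true X`).
-/

set_option autoImplicit false

open Finset MeasureTheory Filter Topology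

namespace H82.IC

variable {d : ℕ}

theorem PM2_dw_inc (S : Finset (Ed d)) : Inc ((dw S)ᶜ : Set (Cf d)) := by
  intro ω ω' h hω hω'
  apply hω
  intro e he
  have h1 := hω' e he
  cases h2 : ω e with
  | false => rfl
  | true => rw [h e h2] at h1; exact absurd h1 (by decide)

theorem PM2_conv (hd : 2 ≤ d) {β : ℝ} (hβ : 0 ≤ β) (b : Bool) {X : Set (Cf d)} (hX : Inc X) :
    ∃ a : ℝ, Tendsto (fun n => phiB β n b X) atTop (𝓝 a) := by
  cases b with
  | false =>
    have hm : Monotone (fun n => phiB β n false X) := fun m n h => phiB_free_mono hβ h hX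
    exact ⟨_, tendsto_atTop_ciSup hm ⟨1, by
      rintro _ ⟨n, rfl⟩
      exact phiB_le_one hβ n false X⟩⟩
  | true =>
    have hm : Antitone (fun n => phiB β n true X) := fun m n h => phiB_wired_anti hd hβ h hX
    exact ⟨_, tendsto_atTop_ciInf hm ⟨0, by
      rintro _ ⟨n, rfl⟩
      exact phiB_nonneg hβ n true X⟩⟩

theorem exists_phiM {β : ℝ} (hβ : 0 ≤ β) (n : ℕ) (b : Bool) :
    ∃ ν : Measure (Cf d), IsProbabilityMeasure ν ∧
      ∀ X : Set (Cf d), MeasurableSet X → ν.real X = phiB β n b X := by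
  classical
  set Z := ∑ ω ∈ (bE d n).powerset, fkw β (bx d n) (bE d n) (fun _ => b) ω with hZ
  have hZp : 0 < Z := BR2_den_pos hβ _ _ _
  let w : Finset (Ed d) → ℝ := fun ω => fkw β (bx d n) (bE d n) (fun _ => b) ω / Z
  have hw : ∀ ω, 0 ≤ w ω := fun ω => div_nonneg (BR2_fkw_nonneg hβ _ _ _ _) hZp.le
  let ν : Measure (Cf d) := ∑ ω ∈ (bE d n).powerset,
    ENNReal.ofReal (w ω) • Measure.dirac (glue (bE d n) (fun _ => b) ω)
  have hν : ∀ X : Set (Cf d), MeasurableSet X → ν X =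
      ENNReal.ofReal (∑ ω ∈ (bE d n).powerset, w ω * ind (glue (bE d n) (fun _ => b) ω ∈ X)) := by
    intro X hX
    have h1 : ν X = ∑ ω ∈ (bE d n).powerset,
        ENNReal.ofReal (w ω) * (Measure.dirac (glue (bE d n) (fun _ => b) ω)) X := by
      simp only [ν, Measure.finsetSum_apply, Measure.smul_apply, smul_eq_mul]
    rw [h1, ENNReal.ofReal_sum_of_nonneg fun ω _ => mul_nonneg (hw ω) (BR2_ind_nonneg _)]
    refine Finset.sum_congr rfl fun ω _ => ?_
    rw [ENNReal.ofReal_mul (hw ω), Measure.dirac_apply' _ hX]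
    congr 1
    unfold ind
    by_cases h2 : glue (bE d n) (fun _ => b) ω ∈ X
    · rw [if_pos h2, Set.indicator_of_mem h2]
      simp
    · rw [if_neg h2, Set.indicator_of_notMem h2]
      simp
  have hsum : ∀ X : Set (Cf d),
      ∑ ω ∈ (bE d n).powerset, w ω * ind (glue (bE d n) (fun _ => b) ω ∈ X) = phiB β n b X := by
    intro X
    unfold phiB phiG
    rw [← hZ, Finset.sum_div]
    exact Finset.sum_congr rfl fun ω _ => by simp only [w]; ring
  have hreal : ∀ X : Set (Cf d), MeasurableSet X → ν.real X = phiB β n b X := by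
    intro X hX
    rw [measureReal_def, hν X hX, hsum, ENNReal.toReal_ofReal (phiB_nonneg hβ n b X)]
  refine ⟨ν, ⟨?_⟩, hreal⟩
  rw [hν _ MeasurableSet.univ, hsum]
  have h3 : phiB β n b (Set.univ : Set (Cf d)) = 1 := by
    unfold phiB phiG
    rw [← hZ]
    have h4 : ∑ ω ∈ (bE d n).powerset, fkw β (bx d n) (bE d n) (fun _ => b) ω *
        ind (glue (bE d n) (fun _ => b) ω ∈ (Set.univ : Set (Cf d))) = Z := by
      rw [hZ]
      refine Finset.sum_congr rfl fun ω _ => ?_
      unfold ind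
      rw [if_pos (Set.mem_univ _), mul_one]
    rw [h4, div_self hZp.ne']
  rw [h3, ENNReal.ofReal_one]

theorem exists_IsLim (hd : 2 ≤ d) {β : ℝ} (hβ : 0 ≤ β) (b : Bool) :
    ∃ μ : Measure (Cf d), IsLim β b μ := by
  choose ν hνp hν using fun n => exists_phiM (d := d) hβ n b
  obtain ⟨μ, hμ, hlim⟩ := exists_limit ν hνp fun X hX => by
    obtain ⟨F0, a, ha⟩ := lcl_decomp hX
    have h1 : ∀ S : Finset (Ed d), ∃ c : ℝ, Tendsto (fun n => (ν n).real (dw S)) atTop (𝓝 c) := by
      intro S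
      obtain ⟨c, hc⟩ := PM2_conv hd hβ b (PM2_dw_inc (d := d) S)
      refine ⟨1 - c, (tendsto_const_nhds.sub hc).congr fun n => ?_⟩
      have hp := hνp n
      have hm : MeasurableSet (dw S : Set (Cf d)) := lcl_measurable (lcl_dw S)
      rw [← hν n _ hm.compl, probReal_compl_eq_one_sub hm]
      ring
    choose c hc using h1
    refine ⟨∑ S ∈ F0.powerset, a S * c S, ?_⟩
    have h2 : ∀ n, (ν n).real X = ∑ S ∈ F0.powerset, a S * (ν n).real (dw S) := by
      intro n
      have hp := hνp n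
      have h3 := ha (ν n) Set.univ MeasurableSet.univ
      simpa only [Set.inter_univ] using h3
    simp only [h2]
    exact tendsto_finsetSum _ fun S _ => (hc S).const_mul (a S)
  exact ⟨μ, hμ, fun X hX => (hlim X hX).congr fun n => hν n X (lcl_measurable hX)⟩

theorem isLim_unique {β : ℝ} {b : Bool} {μ ν : Measure (Cf d)} (hμ : IsLim β b μ)
    (hν : IsLim β b ν) : μ = ν := by
  have h1 := hμ.1
  have h2 := hν.1
  exact measure_ext_up μ ν fun S => tendsto_nhds_unique (hμ.2 _ (lcl_up S)) (hν.2 _ (lcl_up S))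

theorem lim_le (hd : 2 ≤ d) {β : ℝ} (hβ : 0 ≤ β) {μ0 μ1 : Measure (Cf d)}
    (h0 : IsLim β false μ0) (h1 : IsLim β true μ1) {X : Set (Cf d)} (hX : Inc X) (hl : Lcl X) :
    μ0.real X ≤ μ1.real X := by
  exact le_of_tendsto_of_tendsto' (h0.2 X hl) (h1.2 X hl) fun n => phiB_free_le_wired hd hβ n n hX

/-- the wired limit is below every wired box. -/
theorem wired_ge (hd : 2 ≤ d) {β : ℝ} (hβ : 0 ≤ β) {μ1 : Measure (Cf d)}
    (h1 : IsLim β true μ1) (n : ℕ) {X : Set (Cf d)} (hX : Inc X) (hl : Lcl X) :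
    μ1.real X ≤ phiB β n true X := by
  refine le_of_tendsto (h1.2 X hl) ?_
  filter_upwards [eventually_ge_atTop n] with m hm
  exact phiB_wired_anti hd hβ hm hX

end H82.IC

end S_H82_IC_PM2

section S_H82_IC_WSH

/-!
# WSH: translation invariance of the wired limit

* `conn_wired_core`: for `x, y` with `nm ≤ m`, `S` any set of edges: `x ↔ y` in `S ∪ (bE m)ᶜ` iff `x ↔ y` in `S ∪ (bE (m+1) \ bE m)`, for `S ⊆ bE m` (this is inside the proof of `phiB_wired` in BR2: a path leaves and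
  re-enters `Λ_m` through points of norm `m`, which are connected in `bE (m+1) \ bE m` by `shell_conn`).
* `phiG_wired_shift`: `g` = translation by `a`, `nm a ≤ k`, `X` increasing: `phiB β (n+k) true {ω | act g ω ∈ X} ≤ phiB β n true X`.  By `phiG_aut` the right side is
  `phiG β W Λ true {ω | act g ω ∈ X}` with `W = (bx n).map gV`, `Λ = (bE n).map gE ⊆ bE (n+k)`.  Put `N = n + k + 1`.  `bridge` for `Λ` with `ξ = true`, `η = bE N \ Λ`: the hypothesis `hc`: connection of the ends of an edge of `Λ`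
  in `ω ∪ Λᶜ` versus `ω ∪ (bE N \ Λ)`: (←) clear; (→) translate back by `conn_aut` to `bE n`, use `conn_wired_core` (`m = n`), translate: connection in `ω ∪ (gE '' (bE (n+1) \ bE n))`, which is contained in
  `ω ∪ (bE N \ Λ)` (`gE '' bE (n+1) ⊆ bE (n+1+k)`).  So `phiG β W Λ true Y = fkE (GN N) (1 off Λ, τ on Λ) ..`, and `phiB β (n+k) true Y = fkE (GN N) (1 off bE (n+k), τ on bE (n+k)) ..` (`phiB_wired`); since
  `Λ ⊆ bE (n+k)` the first parameters are larger, and the glued configurations are ordered (`glue Λ true ω ≥ glue (bE (n+k)) true ω`): `fkE_holley` for increasing `Y = {act g ω ∈ X}`.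
* `wired_shift`: for `μ` the wired limit and `S` a finset: apply it to `X = up S` (`act_up`), limits `n → ∞`: `μ (up (S.map gE)) ≤ μ (up S)`; the same with the inverse translation: equality.
-/

set_option autoImplicit false

open Finset MeasureTheory Filter Topology

namespace H82.IC

variable {d : ℕ}

theorem WSH_conn (hd : 2 ≤ d) (g : LAut d) (k : ℕ) (hk : ∀ x, nm (g.gV x) ≤ nm x + k) (n : ℕ)
    (ω : Finset (Ed d)) (hω : ω ⊆ (bE d n).map g.gE.toEmbedding) {x y : Vx d} (hx : nm x ≤ n)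
    (hy : nm y ≤ n)
    (h : (Zl d).Conn ((ω : Set (Ed d)) ∪ (opn (fun _ => true) \
      (((bE d n).map g.gE.toEmbedding : Finset (Ed d)) : Set (Ed d)))) (g.gV x) (g.gV y)) :
    (Zl d).Conn ((ω : Set (Ed d)) ∪ ((bE d (n + k + 1) \ (bE d n).map g.gE.toEmbedding :
      Finset (Ed d)) : Set (Ed d))) (g.gV x) (g.gV y) := by
  classical
  set Λ := (bE d n).map g.gE.toEmbedding with hΛ
  have hmem : ∀ e, g.gE e ∈ Λ ↔ e ∈ bE d n := fun e => Finset.mem_map' g.gE.toEmbedding
  set ω0 := (bE d n).filter (fun e => g.gE e ∈ ω) with hω0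
  have h1 := (conn_aut g _ x y).2 h
  have h2 : (Zl d).Conn ((ω0 : Set (Ed d)) ∪ (opn (fun _ => true) \ (bE d n : Set (Ed d)))) x y := by
    refine conn_mono _ ?_ h1
    rintro e (he | he)
    · left
      rw [Finset.mem_coe, hω0, Finset.mem_filter]
      exact ⟨(hmem e).1 (hω he), he⟩
    · right
      refine ⟨rfl, fun h' => he.2 ?_⟩
      exact Finset.mem_coe.2 ((hmem e).2 (Finset.mem_coe.1 h'))
  have h3 := (BR2_shell hd (le_refl (n + 1)) ω0 (Finset.filter_subset _ _) hx h2).1 hy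
  refine (conn_aut g _ x y).1 (conn_mono _ ?_ h3)
  rintro e (he | he)
  · left
    rw [Finset.mem_coe, hω0, Finset.mem_filter] at he
    exact he.2
  · right
    rw [Finset.mem_coe, Finset.mem_sdiff] at he
    rw [Finset.mem_coe, Finset.mem_sdiff]
    refine ⟨?_, fun h' => he.2 ((hmem e).1 h')⟩
    have h4 := aut_bE_le g k hk (n + 1) he.1
    have h5 : n + 1 + k = n + k + 1 := by omega
    rwa [h5] at h4

theorem phiG_wired_shift (hd : 2 ≤ d) {β : ℝ} (hβ : 0 ≤ β) (g : LAut d) (a : Vx d)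
    (hg : ∀ x, g.gV x = x + a) (k : ℕ) (hk : nm a ≤ k) (n : ℕ) {X : Set (Cf d)} (hX : Inc X) :
    phiB β (n + k) true {ω | act g ω ∈ X} ≤ phiB β n true X := by
  have hk' : ∀ x, nm (g.gV x) ≤ nm x + k := by
    intro x
    rw [hg]
    exact (nm_add x a).trans (Nat.add_le_add_left hk _)
  have h5 := phiG_aut g β (bx d n) (bE d n) (fun _ => true) X
  set W := (bx d n).map g.gV.toEmbedding with hWd
  set Λ := (bE d n).map g.gE.toEmbedding with hΛd
  have h6 : phiB β n true X = phiG β W Λ (fun _ => true) {ω | act g ω ∈ X} := h5.symm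
  rw [h6]
  have hΛk : Λ ⊆ bE d (n + k) := by
    intro e he
    obtain ⟨e0, he0, rfl⟩ := Finset.mem_map.1 he
    exact aut_bE_le g k hk' n he0
  have hW : ∀ e ∈ Λ, (Zl d).s e ∈ W ∧ (Zl d).r e ∈ W := by
    intro e he
    obtain ⟨e0, he0, rfl⟩ := Finset.mem_map.1 he
    have h7 := mem_bE.1 he0
    have h8 : ∀ x : Vx d, nm x ≤ n → g.gV x ∈ W := fun x hx =>
      Finset.mem_map.2 ⟨x, mem_bx.2 hx, rfl⟩
    change (Zl d).s (g.gE e0) ∈ _ ∧ (Zl d).r (g.gE e0) ∈ _
    rcases g.ok e0 with ⟨h9, h10⟩ | ⟨h9, h10⟩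
    · rw [h9, h10]
      exact ⟨h8 _ h7.1, h8 _ h7.2⟩
    · rw [h9, h10]
      exact ⟨h8 _ h7.2, h8 _ h7.1⟩
  have hY : Inc {ω : Cf d | act g ω ∈ X} := by
    intro ω ω' h hω
    exact hX _ _ (fun e he => h (g.gE e) he) hω
  have hb := bridge hβ W Λ (n + k + 1) hW (hΛk.trans (bE_mono (Nat.le_succ _))) (fun _ => true)
    (bE d (n + k + 1) \ Λ) (Finset.Subset.refl _) (by
      intro ω hω e he
      obtain ⟨e0, he0, rfl⟩ := Finset.mem_map.1 he
      have h7 := mem_bE.1 he0
      change (Zl d).Conn _ ((Zl d).s (g.gE e0)) ((Zl d).r (g.gE e0)) ↔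
        (Zl d).Conn _ ((Zl d).s (g.gE e0)) ((Zl d).r (g.gE e0))
      constructor
      · intro hc
        rcases g.ok e0 with ⟨h9, h10⟩ | ⟨h9, h10⟩
        · rw [h9, h10] at hc ⊢
          exact WSH_conn hd g k hk' n ω hω h7.1 h7.2 hc
        · rw [h9, h10] at hc ⊢
          exact WSH_conn hd g k hk' n ω hω h7.2 h7.1 hc
      · intro hc
        refine conn_mono _ ?_ hc
        apply Set.union_subset_union_right
        intro x hx
        rw [Finset.coe_sdiff] at hx
        exact ⟨rfl, hx.2⟩) {ω | act g ω ∈ X}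
  rw [hb, phiB_wired hd hβ (le_refl (n + k + 1)) {ω : Cf d | act g ω ∈ X}]
  have ht : T01 (fun _ : ↥(bE d (n + k + 1)) => Real.tanh β) := T01_tanh β hβ
  refine le_trans (fkE_holley (GN d (n + k + 1))
    (t' := setT (sb (bE d (n + k + 1)) (bE d (n + k + 1) \ Λ))
      (sb (bE d (n + k + 1)) (bE d (n + k + 1) \ Λ)) (fun _ => Real.tanh β))
    (T01_setT ht _ _) (T01_setT ht _ _) ?_
    (BR2_f_mono (bE d (n + k)) true (n + k + 1) hY)) (fkE_le (GN d (n + k + 1)) (T01_setT ht _ _) ?_)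
  · refine BR2_setT_le ht (fun e he => ?_) (fun e he => Or.inr he)
    rw [BR2_mem_E1] at he
    rw [BR2_mem_sb, Finset.mem_sdiff]
    exact ⟨e.2, fun h' => he (hΛk h')⟩
  · intro ω
    apply BR2_ind_mono
    apply hY
    exact BR2_glue_mono (Finset.Subset.refl _) (fun e => ⟨fun _ _ _ => rfl,
      fun a _ c => absurd (hΛk c) a, fun _ _ _ => rfl⟩)

theorem WSH_le (hd : 2 ≤ d) {β : ℝ} (hβ : 0 ≤ β) {μ : Measure (Cf d)} (hμ : IsLim β true μ)
    (e : Ed d) (a : Vx d) : μ.real (up {(e.1 + a, e.2)}) ≤ μ.real (up {e}) := by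
  obtain ⟨g, hg, hgE⟩ := exists_trA a
  have h1 := hμ.2 _ (lcl_up {e})
  have h2 := (hμ.2 _ (lcl_up (({e} : Finset (Ed d)).map g.gE.toEmbedding))).comp
    (tendsto_add_atTop_nat (nm a))
  have h0 : ({e} : Finset (Ed d)).map g.gE.toEmbedding = {(e.1 + a, e.2)} := by
    rw [Finset.map_singleton]
    congr 1
    exact hgE e
  rw [← h0]
  refine le_of_tendsto_of_tendsto' h2 h1 fun n => ?_
  have h3 := phiG_wired_shift hd hβ g a hg (nm a) le_rfl n (inc_up {e})
  rw [IV2_up] at h3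
  exact h3

theorem wired_shift (hd : 2 ≤ d) {β : ℝ} (hβ : 0 ≤ β) {μ : Measure (Cf d)} (hμ : IsLim β true μ)
    (e : Ed d) (a : Vx d) : μ.real (up {(e.1 + a, e.2)}) = μ.real (up {e}) := by
  refine le_antisymm (WSH_le hd hβ hμ e a) ?_
  have h := WSH_le hd hβ hμ ((e.1 + a, e.2) : Ed d) (-a)
  have h1 : ((((e.1 + a, e.2) : Ed d).1 + -a, ((e.1 + a, e.2) : Ed d).2) : Ed d) = e := by
    show ((e.1 + a + -a, e.2) : Ed d) = e
    rw [add_neg_cancel_right]
  rw [h1] at h
  exact h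

end H82.IC

end S_H82_IC_WSH

section S_H82_IC_INL

/-!
# INL: from cylinder events to measurable events

* `ti_of_lcl`: `ν.map (shf a)` and `ν` are probability measures which agree on `up S` (`{shf a ω ∈ up S}` and `up S` are cylinder), so equal by `measure_ext_up`; `shf a` is measurable.
* `ins_of_lcl`: the class of `X` which can be approximated in the measure `ν' + ν` by cylinder events contains all measurable sets (`MeasureDense.of_generateFrom_isSetAlgebra_finite`), and the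
  inequality passes to the limit.
-/

set_option autoImplicit false

open Finset MeasureTheory Filter Topology

namespace H82.IC

variable {d : ℕ}

theorem shf_measurable (a : Vx d) : Measurable (shf a : Cf d → Cf d) :=
  measurable_pi_lambda _ fun e => measurable_pi_apply ((e.1 + a, e.2) : Ed d)

theorem opE_measurable (e : Ed d) : Measurable (opE e : Cf d → Cf d) := by
  classical
  refine measurable_pi_lambda _ fun f => ?_
  by_cases h : f = e
  · subst h
    have h1 : (fun ω : Cf d => opE f ω f) = fun _ => true := by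
      funext ω
      unfold opE
      rw [Function.update_self]
    rw [h1]
    exact measurable_const
  · have h1 : (fun ω : Cf d => opE e ω f) = fun ω => ω f := by
      funext ω
      unfold opE
      rw [Function.update_of_ne h]
    rw [h1]
    exact measurable_pi_apply f

theorem ti_of_lcl (ν : Measure (Cf d)) [IsProbabilityMeasure ν]
    (h : ∀ (a : Vx d) (X : Set (Cf d)), Lcl X → ν.real {ω | shf a ω ∈ X} = ν.real X) : TI ν := by
  intro a X hX
  haveI : IsProbabilityMeasure (ν.map (shf a)) :=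
    Measure.isProbabilityMeasure_map (shf_measurable a).aemeasurable
  have h1 : ν.map (shf a) = ν := by
    refine measure_ext_up _ _ fun S => ?_
    rw [map_measureReal_apply (shf_measurable a) (lcl_measurable (lcl_up S))]
    exact h a (up S) (lcl_up S)
  have h2 : (ν.map (shf a)).real X = ν.real {ω | shf a ω ∈ X} :=
    map_measureReal_apply (shf_measurable a) hX
  rw [← h2, h1]

theorem INL_alg : IsSetAlgebra {X : Set (Cf d) | Lcl X} where
  empty_mem := ⟨∅, fun _ _ _ => Iff.rfl⟩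
  compl_mem := fun _ h => lcl_compl h
  union_mem := fun _ _ h h' => lcl_union h h'

theorem INL_gen : (MeasurableSpace.pi : MeasurableSpace (Cf d)) =
    MeasurableSpace.generateFrom {X : Set (Cf d) | Lcl X} := by
  apply le_antisymm
  · refine iSup_le fun e => ?_
    have hme : @Measurable (Cf d) Bool (MeasurableSpace.generateFrom {X : Set (Cf d) | Lcl X}) ⊤
        (fun ω => ω e) := by
      refine @measurable_to_bool (Cf d) (MeasurableSpace.generateFrom {X : Set (Cf d) | Lcl X}) _ ?_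
      apply MeasurableSpace.measurableSet_generateFrom
      refine ⟨{e}, fun ω ω' h => ?_⟩
      show ω e = true ↔ ω' e = true
      rw [h e (Finset.mem_singleton_self e)]
    exact hme.comap_le
  · refine MeasurableSpace.generateFrom_le ?_
    intro X hX
    exact lcl_measurable hX

theorem ins_of_lcl (ν : Measure (Cf d)) [IsProbabilityMeasure ν] (C : ℝ) (hC : 0 ≤ C)
    (h : ∀ (e : Ed d) (X : Set (Cf d)), Lcl X → ν.real {ω | opE e ω ∈ X} ≤ C * ν.real X) :
    INS ν C := by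
  intro e X hX
  set ν' : Measure (Cf d) := ν.map (opE e) with hν'
  haveI : IsProbabilityMeasure ν' :=
    Measure.isProbabilityMeasure_map (opE_measurable e).aemeasurable
  have hap : ∀ Y : Set (Cf d), MeasurableSet Y → ν'.real Y = ν.real {ω | opE e ω ∈ Y} :=
    fun Y hY => map_measureReal_apply (opE_measurable e) hY
  have hD := Measure.MeasureDense.of_generateFrom_isSetAlgebra_finite (μ := ν' + ν)
    (𝒜 := {X : Set (Cf d) | Lcl X}) INL_alg INL_gen
  rw [← hap X hX]
  refine le_of_forall_pos_le_add fun ε hε => ?_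
  obtain ⟨t, ht, hlt⟩ := hD.approx X hX (measure_ne_top _ _) (ε / (C + 1)) (by positivity)
  have ht' : Lcl t := ht
  have htm : MeasurableSet t := lcl_measurable ht'
  have hreal : (ν' + ν).real (symmDiff X t) < ε / (C + 1) := by
    rw [measureReal_def]
    exact (ENNReal.lt_ofReal_iff_toReal_lt (measure_ne_top _ _)).mp hlt
  have hsum : (ν' + ν).real (symmDiff X t) = ν'.real (symmDiff X t) + ν.real (symmDiff X t) := by
    simp only [measureReal_def, Measure.add_apply]
    exact ENNReal.toReal_add (measure_ne_top _ _) (measure_ne_top _ _)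
  rw [hsum] at hreal
  have a1 : ν'.real X ≤ ν'.real t + ν'.real (symmDiff X t) := by
    refine (measureReal_mono (s₂ := t ∪ symmDiff X t) ?_).trans (measureReal_union_le _ _)
    intro ω hω
    by_cases h1 : ω ∈ t
    · exact Or.inl h1
    · exact Or.inr (Or.inl ⟨hω, h1⟩)
  have a2 : ν.real t ≤ ν.real X + ν.real (symmDiff X t) := by
    refine (measureReal_mono (s₂ := X ∪ symmDiff X t) ?_).trans (measureReal_union_le _ _)
    intro ω hω
    by_cases h1 : ω ∈ X
    · exact Or.inl h1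
    · exact Or.inr (Or.inr ⟨hω, h1⟩)
  have a3 : ν'.real t ≤ C * ν.real t := by
    rw [hap t htm]
    exact h e t ht'
  have b1 : 0 ≤ ν'.real (symmDiff X t) := measureReal_nonneg
  have b2 : 0 ≤ ν.real (symmDiff X t) := measureReal_nonneg
  have hC1 : 0 < C + 1 := by linarith
  have hreal2 : (ν'.real (symmDiff X t) + ν.real (symmDiff X t)) * (C + 1) < ε := by
    rwa [lt_div_iff₀ hC1] at hreal
  have a4 : C * ν.real t ≤ C * (ν.real X + ν.real (symmDiff X t)) :=
    mul_le_mul_of_nonneg_left a2 hC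
  nlinarith [mul_nonneg hC b1, mul_nonneg hC b2]

end H82.IC

end S_H82_IC_INL

section S_H82_IC_BKD

/-!
# BKD: no percolation if the two point function has vanishing box averages

* `two_clusters`: if `¬ Tri S r 0` for all `r`, then among any three vertices with infinite clusters in `S` two are connected in `S`: take `r` with the three vertices `v_i` in `bx r`.  For each `i` the cluster of
  `v_i` in `S` is the union of the clusters in `S \ bE r` (`ins (til r 0) = bE r`) of those points of `bx r` that are connected to `v_i` in `S` (a cluster of `S \ bE r` contained in the cluster of `v_i` and not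
  meeting `bx r` would be closed under `S`): finite union, so some `w_i ∈ bx r`, `w_i ↔ v_i` in `S`, has an infinite cluster in `S \ bE r`.  If no two `v_i` are connected in `S`, the `w_i` are pairwise not connected
  in `S \ bE r`: `Tri S r 0`.
* `bk_main`: `ρ = ν (perc d)`.  For a finset `Q`, `I ω` = number of `x ∈ Q` with infinite cluster.  Almost surely (`no_tri` for all `r`) the infinite clusters split the `I` points into at most two classes `a + b = I`,
  so `∑_{x,y ∈ Q} 1[x ↔ y] ≥ a² + b² ≥ I²/2`.  Integrate: `∑_{x,y} ν (cn x y) ≥ E[I²]/2 ≥ (E I)²/2 = ρ² |Q|²/2` (Jensen / Cauchy-Schwarz; `TI`: `ν {x infinite} = ρ`; `shf a ω ∈ cn x y ↔ ω ∈ cn (x+a) (y+a)`).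
  With the hypothesis: `ρ²/2 ≤ ε` for all `ε > 0`, so `ρ = 0`.
-/

set_option autoImplicit false

open Finset MeasureTheory Filter Topology

namespace H82.IC

variable {d : ℕ}

theorem shf_cn (a x y : Vx d) (ω : Cf d) : shf a ω ∈ cn x y ↔ ω ∈ cn (x + a) (y + a) := by
  obtain ⟨g, hg, hgE⟩ := exists_trA a
  have h : act g ω = shf a ω := by
    funext e
    change ω (g.gE e) = ω (e.1 + a, e.2)
    rw [hgE]
  have h2 := act_cn g ω x y
  rw [h, hg, hg] at h2
  exact h2

/-- a vertex of the box, connected to `v`, with infinite cluster outside the box. -/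
theorem BKD_branch (S : Set (Ed d)) (r : ℕ) (v : Vx d) (hv : nm v ≤ r)
    (h : ((Zl d).cl S v).Infinite) :
    ∃ w ∈ til r (0 : Vx d), (Zl d).Conn S v w ∧
      ((Zl d).cl (S \ (Zl d).ins (til r (0 : Vx d))) w).Infinite := by
  by_contra hcon
  push Not at hcon
  apply h
  have hsub : (Zl d).cl S v ⊆ ⋃ w ∈ {w : Vx d | w ∈ til r (0 : Vx d) ∧ (Zl d).Conn S v w},
      (Zl d).cl (S \ (Zl d).ins (til r (0 : Vx d))) w := by
    intro z hz
    have hz' : (Zl d).Conn S v z := hz
    simp only [Set.mem_iUnion]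
    induction hz' with
    | refl =>
      refine ⟨v, ⟨?_, conn_refl _ _ _⟩, mem_cl_self _ _ _⟩
      change nm (v - 0) ≤ r
      rwa [sub_zero]
    | @tail b c hb h2 ih =>
      obtain ⟨w, ⟨hw1, hw2⟩, hw3⟩ := ih hb
      obtain ⟨e, he, h1⟩ := h2
      by_cases hK : e ∈ (Zl d).ins (til r (0 : Vx d))
      · have hc : c ∈ til r (0 : Vx d) := by
          rcases h1 with ⟨_, rfl⟩ | ⟨rfl, _⟩
          · exact hK.2
          · exact hK.1
        refine ⟨c, ⟨hc, ?_⟩, mem_cl_self _ _ _⟩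
        exact Relation.ReflTransGen.tail hb ⟨e, he, h1⟩
      · refine ⟨w, ⟨hw1, hw2⟩, ?_⟩
        exact Relation.ReflTransGen.tail hw3 ⟨e, ⟨he, hK⟩, h1⟩
  apply Set.Finite.subset _ hsub
  have hfin : {w : Vx d | w ∈ til r (0 : Vx d) ∧ (Zl d).Conn S v w}.Finite := by
    apply (bx d r).finite_toSet.subset
    rintro w ⟨hw, _⟩
    have hw' : nm (w - 0) ≤ r := hw
    rw [sub_zero] at hw'
    exact Finset.mem_coe.mpr (mem_bx.mpr hw')
  apply hfin.biUnion
  rintro w ⟨hw1, hw2⟩
  exact hcon w hw1 hw2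

theorem two_clusters (hd : 1 ≤ d) (S : Set (Ed d)) (h : ∀ r, ¬ Tri S r 0) (v1 v2 v3 : Vx d)
    (h1 : ((Zl d).cl S v1).Infinite) (h2 : ((Zl d).cl S v2).Infinite)
    (h3 : ((Zl d).cl S v3).Infinite) :
    (Zl d).Conn S v1 v2 ∨ (Zl d).Conn S v1 v3 ∨ (Zl d).Conn S v2 v3 := by
  by_contra hcon
  push Not at hcon
  obtain ⟨n12, n13, n23⟩ := hcon
  obtain ⟨r, hr⟩ : ∃ r : ℕ, r = nm v1 + nm v2 + nm v3 := ⟨_, rfl⟩
  obtain ⟨w1, m1, c1, i1⟩ := BKD_branch S r v1 (by omega) h1
  obtain ⟨w2, m2, c2, i2⟩ := BKD_branch S r v2 (by omega) h2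
  obtain ⟨w3, m3, c3, i3⟩ := BKD_branch S r v3 (by omega) h3
  apply h r
  refine ⟨w1, m1, w2, m2, w3, m3, i1, i2, i3, ?_, ?_, ?_⟩
  · intro hc
    exact n12 (conn_trans _ c1 (conn_trans _ (conn_mono _ Set.sdiff_subset hc) (conn_symm _ c2)))
  · intro hc
    exact n13 (conn_trans _ c1 (conn_trans _ (conn_mono _ Set.sdiff_subset hc) (conn_symm _ c3)))
  · intro hc
    exact n23 (conn_trans _ c2 (conn_trans _ (conn_mono _ Set.sdiff_subset hc) (conn_symm _ c3)))

theorem BKD_meas_shf (a : Vx d) : Measurable (shf a : Cf d → Cf d) := by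
  rw [measurable_pi_iff]
  intro e
  exact measurable_pi_apply (e.1 + a, e.2)

theorem BKD_inf (a : Vx d) (ω : Cf d) :
    shf a ω ∈ perc d ↔ ((Zl d).cl (opn ω) a).Infinite := by
  have h : (fun y => y + a) '' ((Zl d).cl (opn (shf a ω)) 0) = (Zl d).cl (opn ω) a := by
    ext z
    constructor
    · rintro ⟨y, hy, rfl⟩
      have := (shf_cn a 0 y ω).mp hy
      rwa [zero_add] at this
    · intro hz
      refine ⟨z - a, ?_, sub_add_cancel z a⟩
      apply (shf_cn a 0 (z - a) ω).mpr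
      rwa [zero_add, sub_add_cancel]
  rw [← h]
  exact (Set.infinite_image_iff ((add_left_injective a).injOn)).symm

/-- two classes: finite counting. -/
theorem BKD_count (S : Set (Ed d)) (h3 : ∀ v1 v2 v3 : Vx d, ((Zl d).cl S v1).Infinite →
    ((Zl d).cl S v2).Infinite → ((Zl d).cl S v3).Infinite →
    (Zl d).Conn S v1 v2 ∨ (Zl d).Conn S v1 v3 ∨ (Zl d).Conn S v2 v3) (Q : Finset (Vx d)) :
    (∑ x ∈ Q, ind ((Zl d).cl S x).Infinite) ^ 2 ≤
      2 * ∑ x ∈ Q, ∑ y ∈ Q, ind ((Zl d).Conn S x y) := by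
  classical
  have hA : ∑ x ∈ Q, ind ((Zl d).cl S x).Infinite
      = ((Q.filter (fun x => ((Zl d).cl S x).Infinite)).card : ℝ) := by
    rw [Finset.card_filter]
    push_cast
    apply Finset.sum_congr rfl
    intro x _
    unfold ind
    split_ifs <;> rfl
  have hB : ∑ x ∈ Q, ∑ y ∈ Q, ind ((Zl d).Conn S x y)
      = (((Q ×ˢ Q).filter (fun p => (Zl d).Conn S p.1 p.2)).card : ℝ) := by
    rw [Finset.card_filter, Finset.sum_product]
    push_cast
    apply Finset.sum_congr rfl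
    intro x _
    apply Finset.sum_congr rfl
    intro y _
    unfold ind
    split_ifs <;> rfl
  rw [hA, hB]
  obtain ⟨A, hAd⟩ : ∃ A : Finset (Vx d), A = Q.filter (fun x => ((Zl d).cl S x).Infinite) :=
    ⟨_, rfl⟩
  rw [← hAd]
  rcases A.eq_empty_or_nonempty with h0 | ⟨x0, hx0⟩
  · rw [h0]
    simp
  obtain ⟨A1, hA1⟩ : ∃ A1 : Finset (Vx d), A1 = A.filter (fun x => (Zl d).Conn S x0 x) :=
    ⟨_, rfl⟩
  obtain ⟨A2, hA2⟩ : ∃ A2 : Finset (Vx d), A2 = A.filter (fun x => ¬ (Zl d).Conn S x0 x) :=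
    ⟨_, rfl⟩
  have hcard : A.card = A1.card + A2.card := by
    rw [hA1, hA2, Finset.card_filter_add_card_filter_not]
  have hAmem : ∀ x ∈ A, x ∈ Q ∧ ((Zl d).cl S x).Infinite := by
    intro x hx
    rw [hAd, Finset.mem_filter] at hx
    exact hx
  have hm1 : ∀ x ∈ A1, x ∈ A ∧ (Zl d).Conn S x0 x := by
    intro x hx
    rw [hA1, Finset.mem_filter] at hx
    exact hx
  have hm2 : ∀ x ∈ A2, x ∈ A ∧ ¬ (Zl d).Conn S x0 x := by
    intro x hx
    rw [hA2, Finset.mem_filter] at hx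
    exact hx
  have hsub : (A1 ×ˢ A1) ∪ (A2 ×ˢ A2) ⊆ (Q ×ˢ Q).filter (fun p => (Zl d).Conn S p.1 p.2) := by
    rintro ⟨x, y⟩ hxy
    rw [Finset.mem_filter, Finset.mem_product]
    rw [Finset.mem_union, Finset.mem_product, Finset.mem_product] at hxy
    rcases hxy with ⟨hx, hy⟩ | ⟨hx, hy⟩
    · obtain ⟨a1, a2⟩ := hm1 x hx
      obtain ⟨b1, b2⟩ := hm1 y hy
      exact ⟨⟨(hAmem x a1).1, (hAmem y b1).1⟩, conn_trans _ (conn_symm _ a2) b2⟩
    · obtain ⟨a1, a2⟩ := hm2 x hx
      obtain ⟨b1, b2⟩ := hm2 y hy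
      refine ⟨⟨(hAmem x a1).1, (hAmem y b1).1⟩, ?_⟩
      rcases h3 x0 x y (hAmem x0 hx0).2 (hAmem x a1).2 (hAmem y b1).2 with h | h | h
      · exact absurd h a2
      · exact absurd h b2
      · exact h
  have hdisj : Disjoint (A1 ×ˢ A1) (A2 ×ˢ A2) := by
    rw [Finset.disjoint_left]
    rintro ⟨x, y⟩ hx hx'
    rw [Finset.mem_product] at hx hx'
    exact (hm2 x hx'.1).2 (hm1 x hx.1).2
  have hle := Finset.card_le_card hsub
  rw [Finset.card_union_of_disjoint hdisj, Finset.card_product, Finset.card_product] at hle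
  have hle' : (A1.card : ℝ) * A1.card + (A2.card : ℝ) * A2.card ≤
      (((Q ×ˢ Q).filter (fun p => (Zl d).Conn S p.1 p.2)).card : ℝ) := by exact_mod_cast hle
  rw [hcard]
  push_cast
  nlinarith [sq_nonneg ((A1.card : ℝ) - A2.card)]

theorem BKD_ind_int {ν : Measure (Cf d)} [IsProbabilityMeasure ν] {X : Set (Cf d)}
    (hX : MeasurableSet X) : Integrable (fun ω => ind (ω ∈ X)) ν ∧
      ∫ ω, ind (ω ∈ X) ∂ν = ν.real X := by
  classical
  have h : (fun ω => ind (ω ∈ X)) = X.indicator (1 : Cf d → ℝ) := by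
    funext ω
    unfold ind
    by_cases h : ω ∈ X
    · rw [if_pos h, Set.indicator_of_mem h]
      rfl
    · rw [if_neg h, Set.indicator_of_notMem h]
  rw [h]
  refine ⟨?_, integral_indicator_one hX⟩
  exact (integrable_const (1 : ℝ)).indicator hX

theorem bk_main (hd : 1 ≤ d) (ν : Measure (Cf d)) [IsProbabilityMeasure ν] (hT : TI ν) (C : ℝ)
    (hC : 0 < C) (hI : INS ν C)
    (hA : ∀ ε : ℝ, 0 < ε → ∃ Q : Finset (Vx d), Q.Nonempty ∧
      ∑ x ∈ Q, ∑ y ∈ Q, ν.real (cn x y) ≤ ε * (Q.card : ℝ) ^ 2) :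
    ν.real (perc d) = 0 := by
  obtain ⟨ρ, hρ⟩ : ∃ ρ : ℝ, ρ = ν.real (perc d) := ⟨_, rfl⟩
  have hρ0 : 0 ≤ ρ := by rw [hρ]; exact measureReal_nonneg
  have hInf : ∀ x : Vx d, ν.real {ω : Cf d | shf x ω ∈ perc d} = ρ := by
    intro x
    rw [hT x _ (meas_perc hd), hρ]
  have hmInf : ∀ x : Vx d, MeasurableSet {ω : Cf d | shf x ω ∈ perc d} := fun x =>
    BKD_meas_shf x (meas_perc hd)
  have hnull : ∀ᵐ ω ∂ν, ∀ r, ¬ Tri (opn ω) r (0 : Vx d) := by
    rw [ae_all_iff]
    intro r
    have h0 := no_tri hd ν hT C hC hI r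
    rw [measureReal_eq_zero_iff] at h0
    have h1 : ν {ω | ¬ ¬ Tri (opn ω) r (0 : Vx d)} = 0 := by
      simpa only [not_not] using h0
    exact h1
  have key : ∀ Q : Finset (Vx d), (ρ * Q.card) ^ 2 ≤
      2 * ∑ x ∈ Q, ∑ y ∈ Q, ν.real (cn x y) := by
    intro Q
    obtain ⟨t, ht⟩ : ∃ t : ℝ, t = ρ * Q.card := ⟨_, rfl⟩
    have hf_int : Integrable (fun ω : Cf d =>
        2 * t * (∑ x ∈ Q, ind (ω ∈ {ω : Cf d | shf x ω ∈ perc d})) - t ^ 2) ν := by
      apply Integrable.sub _ (integrable_const _)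
      apply Integrable.const_mul
      exact integrable_finsetSum _ (fun x _ => (BKD_ind_int (hmInf x)).1)
    have hg_int : Integrable (fun ω : Cf d =>
        2 * (∑ x ∈ Q, ∑ y ∈ Q, ind (ω ∈ (cn x y : Set (Cf d))))) ν := by
      apply Integrable.const_mul
      exact integrable_finsetSum _ (fun x _ => integrable_finsetSum _
        (fun y _ => (BKD_ind_int (meas_cn x y)).1))
    have hmono : ∫ ω : Cf d,
        (2 * t * (∑ x ∈ Q, ind (ω ∈ {ω : Cf d | shf x ω ∈ perc d})) - t ^ 2) ∂ν ≤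
        ∫ ω : Cf d, (2 * (∑ x ∈ Q, ∑ y ∈ Q, ind (ω ∈ (cn x y : Set (Cf d))))) ∂ν := by
      apply integral_mono_ae hf_int hg_int
      filter_upwards [hnull] with ω hω
      have hc := BKD_count (opn ω) (two_clusters hd (opn ω) hω) Q
      have he : ∑ x ∈ Q, ind (shf x ω ∈ perc d)
          = ∑ x ∈ Q, ind ((Zl d).cl (opn ω) x).Infinite := by
        apply Finset.sum_congr rfl
        intro x _
        rw [propext (BKD_inf x ω)]
      rw [he]
      have hsq := sq_nonneg ((∑ x ∈ Q, ind ((Zl d).cl (opn ω) x).Infinite) - t)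
      have hc' : (∑ x ∈ Q, ind ((Zl d).cl (opn ω) x).Infinite) ^ 2 ≤
        2 * ∑ x ∈ Q, ∑ y ∈ Q, ind (ω ∈ (cn x y : Set (Cf d))) := hc
      linarith
    rw [integral_sub _ (integrable_const _), integral_const_mul, integral_const_mul,
      integral_finsetSum _ (fun x _ => (BKD_ind_int (hmInf x)).1),
      integral_finsetSum _ (fun x _ => integrable_finsetSum _
        (fun y _ => (BKD_ind_int (meas_cn x y)).1))] at hmono
    · have e1 : ∑ x ∈ Q, ∫ ω : Cf d, ind (ω ∈ {ω : Cf d | shf x ω ∈ perc d}) ∂ν = t := by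
        rw [Finset.sum_congr rfl (fun x _ => (BKD_ind_int (ν := ν) (hmInf x)).2),
          Finset.sum_congr rfl (fun x _ => hInf x), Finset.sum_const, nsmul_eq_mul, ht, mul_comm]
      have e2 : ∑ x ∈ Q, ∫ ω : Cf d, ∑ y ∈ Q, ind (ω ∈ (cn x y : Set (Cf d))) ∂ν
          = ∑ x ∈ Q, ∑ y ∈ Q, ν.real (cn x y) := by
        apply Finset.sum_congr rfl
        intro x _
        rw [integral_finsetSum _ (fun y _ => (BKD_ind_int (meas_cn x y)).1)]
        apply Finset.sum_congr rfl
        intro y _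
        exact (BKD_ind_int (meas_cn x y)).2
      rw [e1, e2] at hmono
      simp only [integral_const, probReal_univ, one_smul] at hmono
      rw [← ht]
      nlinarith
    · apply Integrable.const_mul
      exact integrable_finsetSum _ (fun x _ => (BKD_ind_int (hmInf x)).1)
  have hsmall : ∀ ε : ℝ, 0 < ε → ρ ^ 2 ≤ 2 * ε := by
    intro ε hε
    obtain ⟨Q, hQ, hQe⟩ := hA ε hε
    have h1 := key Q
    have hq : (0 : ℝ) < Q.card := by exact_mod_cast hQ.card_pos
    have h2 : ρ ^ 2 * (Q.card : ℝ) ^ 2 ≤ 2 * ε * (Q.card : ℝ) ^ 2 := by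
      rw [mul_pow] at h1
      linarith
    exact le_of_mul_le_mul_right h2 (by positivity)
  have hρ2 : ρ ^ 2 ≤ 0 := by
    by_contra hcon
    push Not at hcon
    have := hsmall (ρ ^ 2 / 4) (by linarith)
    linarith
  rw [← hρ]
  nlinarith [sq_nonneg ρ]

end H82.IC

end S_H82_IC_BKD
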