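import Mathlib
import Pool.Agent.H82.ICM.G05

/-! MP_c4c051_pr: this file joins several modules to save build time. -/

section S_H82_IC_TZC

/-!
# TZC: the one arm event of the torus is dominated by the wired box

For `2(r+1) + 2 < n`, the torus expectation (parameter `τ = tanh β` everywhere) of the event `AR` = `pt 0` connected to `pt b` for some `b ∈ bdry r` by open edges of `pe '' bE r`, is
`≤ phiB β r true (arm r 0)`: raise the parameter to `1` on all edges of the torus not in `pe '' (bE r)` (`fkE_holley`; the event is increasing): parameters `ttf j η τ` with `j = pe ∘ val : ↥(bE r) → Te`,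
`η` = the complement of `pe '' bE r`.  Compare (`fk_iso`) with `Γ' = GN d (r+1)`, `j' : ↥(bE r) → ↥(bE (r+1))` the inclusion, `η' = E1 d r (r+1)`.  `hc`: in both graphs all points of the (image of) the
boundary `∂Λ_r` are connected by `η`, `η'` (`shell_conn` in `bE (r+1) \ bE r`; its image under `pe` avoids `pe '' bE r` since `pe` is injective on `bE (r+1)`, `pe_inj`).  In both graphs two points `x, y` of
the box are connected in `ω ∪ η` iff they are connected in `ω` or both are connected to `∂Λ_r` in `ω`: (an edge not in `bE r` (resp. not in `pe '' bE r`) with one end in the box `bx r` (resp. `pt '' bx r`) has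
this end in the boundary; induction on the path as in `phiB_wired`).  For the torus: an edge of the torus not in `pe '' bE r` with an end `pt x`, `x ∈ bx r`: the lattice edge at `x` in the same direction lies
over it, and it is not in `bE r`, so `nm x = r`.
The event `AR` depends only on the configuration on `j '' Λ` and corresponds to `arm r 0` (`arm_eq`-type: `∃ b ∈ bdry r, 0 ↔ b` in `bE r`; `exit_box`), `phiB_wired`.
-/

set_option autoImplicit false

open Finset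

namespace H82.IC

variable {d : ℕ}

/-- the free edges in the torus -/
noncomputable def TZC_j (n r : ℕ) (a : ↥(bE d r)) : Te d n := pe n a.1

/-- the free edges in the bigger box -/
noncomputable def TZC_j' (r : ℕ) (a : ↥(bE d r)) : ↥(bE d (r + 1)) :=
  ⟨a.1, bE_mono (Nat.le_succ r) a.2⟩

/-- a configuration in the box as a set of lattice edges -/
def TZC_w {r : ℕ} (ω : Finset ↥(bE d r)) : Set (Ed d) := Subtype.val '' (ω : Set ↥(bE d r))

theorem TZC_w_mem {r : ℕ} {ω : Finset ↥(bE d r)} {e : Ed d} (h : e ∈ TZC_w ω) : e ∈ bE d r := by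
  obtain ⟨a, _, rfl⟩ := h
  exact a.2

/-- connected to the boundary of the box -/
def TZC_bd {r : ℕ} (ω : Finset ↥(bE d r)) (x : Vx d) : Prop :=
  ∃ b ∈ bdry d r, (Zl d).Conn (TZC_w ω) x b

/-- wired connection -/
def TZC_A {r : ℕ} (ω : Finset ↥(bE d r)) (x y : Vx d) : Prop :=
  (Zl d).Conn (TZC_w ω) x y ∨ (TZC_bd ω x ∧ TZC_bd ω y)

theorem TZC_pt_add (n : ℕ) (x y : Vx d) : pt n (x + y) = pt n x + pt n y := by
  funext i
  simp [pt]

theorem TZC_pt_single (n : ℕ) (i : Fin d) : pt n (Pi.single i 1 : Vx d) = Pi.single i 1 := by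
  funext k
  by_cases h : k = i
  · subst h
    simp [pt]
  · simp [pt, Pi.single_eq_of_ne h]

theorem TZC_over {n : ℕ} {f : Te d n} {v v' : Tv d n}
    (h : ((Tg d n).s f = v ∧ (Tg d n).r f = v') ∨ ((Tg d n).s f = v' ∧ (Tg d n).r f = v))
    {y : Vx d} (hv : v = pt n y) :
    ∃ (e : Ed d) (y1 : Vx d), f = pe n e ∧ v' = pt n y1 ∧
      (((Zl d).s e = y ∧ (Zl d).r e = y1) ∨ ((Zl d).s e = y1 ∧ (Zl d).r e = y)) := by
  rcases h with ⟨h1, h2⟩ | ⟨h1, h2⟩
  · refine ⟨(y, f.2), y + Pi.single f.2 1, ?_, ?_, Or.inl ⟨rfl, rfl⟩⟩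
    · refine Prod.ext ?_ rfl
      show f.1 = pt n y
      rw [← hv]
      exact h1
    · rw [TZC_pt_add, TZC_pt_single, ← h2, ← hv, ← h1]
      rfl
  · have e1 : f.1 = pt n (y - Pi.single f.2 1) := by
      have e2 : pt n y = pt n (y - Pi.single f.2 1) + pt n (Pi.single f.2 1) := by
        rw [← TZC_pt_add, sub_add_cancel]
      have e3 : f.1 + Pi.single f.2 1 = pt n y := by
        rw [← hv]
        exact h2
      rw [e2, TZC_pt_single] at e3
      exact add_right_cancel e3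
    refine ⟨(y - Pi.single f.2 1, f.2), y - Pi.single f.2 1, ?_, ?_, Or.inr ⟨rfl, ?_⟩⟩
    · exact Prod.ext e1 rfl
    · rw [← e1]
      exact h1.symm
    · show y - Pi.single f.2 1 + Pi.single f.2 1 = y
      rw [sub_add_cancel]

theorem TZC_edge {n r : ℕ} (hr : 2 * (r + 1) < n) {f : Te d n}
    (hf : f ∉ pe n '' (bE d r : Set (Ed d))) {v v' : Tv d n}
    (h : ((Tg d n).s f = v ∧ (Tg d n).r f = v') ∨ ((Tg d n).s f = v' ∧ (Tg d n).r f = v))
    {y : Vx d} (hy : nm y ≤ r) (hv : v = pt n y) :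
    nm y = r ∧ ∀ y' : Vx d, nm y' ≤ r → v' ≠ pt n y' := by
  obtain ⟨e, y1, hfe, hv', hends⟩ := TZC_over h hv
  have he : e ∉ bE d r := fun hc => hf ⟨e, hc, hfe.symm⟩
  rw [mem_bE] at he
  have hy1 : r < nm y1 := by
    by_contra hcon
    apply he
    rcases hends with ⟨h1, h2⟩ | ⟨h1, h2⟩
    · rw [h1, h2]; exact ⟨hy, by omega⟩
    · rw [h1, h2]; exact ⟨by omega, hy⟩
  have hst : nm y1 ≤ nm y + 1 := nm_step (ω := Set.univ) ⟨e, Set.mem_univ _, hends⟩
  refine ⟨by omega, fun y' hy' hc => ?_⟩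
  rw [hv'] at hc
  have := pt_inj hr (by omega : nm y1 ≤ r + 1) (by omega : nm y' ≤ r + 1) hc
  rw [this] at hy1
  omega

theorem TZC_map {n : ℕ} {ω : Set (Ed d)} {ω' : Set (Te d n)} (h : ∀ e ∈ ω, pe n e ∈ ω')
    {x y : Vx d} (hc : (Zl d).Conn ω x y) : (Tg d n).Conn ω' (pt n x) (pt n y) := by
  induction hc with
  | refl => exact conn_refl _ _ _
  | @tail a b _ hab ih =>
    obtain ⟨e, he, h1⟩ := hab
    refine Relation.ReflTransGen.tail ih ⟨pe n e, h e he, ?_⟩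
    rw [pe_s, pe_r]
    rcases h1 with ⟨h2, h3⟩ | ⟨h2, h3⟩
    · exact Or.inl ⟨by rw [h2], by rw [h3]⟩
    · exact Or.inr ⟨by rw [h2], by rw [h3]⟩

theorem TZC_lift {n r : ℕ} (hr : 2 * r < n) (ω : Finset ↥(bE d r)) {x : Vx d} (hx : nm x ≤ r)
    {v : Tv d n} (hc : (Tg d n).Conn (TZC_j n r '' (ω : Set ↥(bE d r))) (pt n x) v) :
    ∃ y, nm y ≤ r ∧ v = pt n y ∧ (Zl d).Conn (TZC_w ω) x y := by
  induction hc with
  | refl => exact ⟨x, hx, rfl, conn_refl _ _ _⟩
  | @tail a b _ hab ih =>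
    obtain ⟨y, hy, hay, hxy⟩ := ih
    obtain ⟨f, ⟨e, he, hfe⟩, h1⟩ := hab
    have heb := mem_bE.1 e.2
    have hs : (Tg d n).s f = pt n ((Zl d).s e.1) := by rw [← hfe]; exact pe_s n e.1
    have hr' : (Tg d n).r f = pt n ((Zl d).r e.1) := by rw [← hfe]; exact pe_r n e.1
    have hew : e.1 ∈ TZC_w ω := ⟨e, he, rfl⟩
    rcases h1 with ⟨h2, h3⟩ | ⟨h2, h3⟩
    · have e1 : (Zl d).s e.1 = y := pt_inj hr heb.1 hy (by rw [← hs, h2, hay])
      refine ⟨(Zl d).r e.1, heb.2, by rw [← h3, hr'], ?_⟩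
      exact Relation.ReflTransGen.tail hxy ⟨e.1, hew, Or.inl ⟨e1, rfl⟩⟩
    · have e1 : (Zl d).r e.1 = y := pt_inj hr heb.2 hy (by rw [← hr', h3, hay])
      refine ⟨(Zl d).s e.1, heb.1, by rw [← h2, hs], ?_⟩
      exact Relation.ReflTransGen.tail hxy ⟨e.1, hew, Or.inr ⟨rfl, e1⟩⟩

theorem TZC_bd_step {r : ℕ} {ω : Finset ↥(bE d r)} {e : Ed d} (he : e ∈ TZC_w ω) {y y' : Vx d}
    (h : ((Zl d).s e = y ∧ (Zl d).r e = y') ∨ ((Zl d).s e = y' ∧ (Zl d).r e = y))
    (hy : TZC_bd ω y) : TZC_bd ω y' := by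
  obtain ⟨b, hb, hc⟩ := hy
  refine ⟨b, hb, conn_trans _ (Relation.ReflTransGen.single ⟨e, he, ?_⟩) hc⟩
  exact h.symm

theorem TZC_T1 (hd : 1 ≤ d) {n r : ℕ} (hr : 2 * (r + 1) < n) (ω : Finset ↥(bE d r))
    (η : Set (Te d n)) (hη : ∀ f ∈ η, f ∉ pe n '' (bE d r : Set (Ed d))) {x : Vx d} (hx : nm x ≤ r)
    {v : Tv d n} (hc : (Tg d n).Conn (TZC_j n r '' (ω : Set ↥(bE d r)) ∪ η) (pt n x) v) :
    (∀ y, nm y ≤ r → v = pt n y → TZC_A ω x y) ∧
      ((∀ y : Vx d, nm y ≤ r → v ≠ pt n y) → TZC_bd ω x) := by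
  have hr2 : 2 * r < n := by omega
  induction hc with
  | refl =>
    refine ⟨fun y hy h => ?_, fun h => absurd rfl (h x hx)⟩
    rw [pt_inj hr2 hx hy h]
    exact Or.inl (conn_refl _ _ _)
  | @tail a b _ hab ih =>
    obtain ⟨f, hf, h1⟩ := hab
    rcases hf with ⟨e, he, hfe⟩ | hf
    · have heb := mem_bE.1 e.2
      have hs : (Tg d n).s f = pt n ((Zl d).s e.1) := by rw [← hfe]; exact pe_s n e.1
      have hr' : (Tg d n).r f = pt n ((Zl d).r e.1) := by rw [← hfe]; exact pe_r n e.1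
      have hew : e.1 ∈ TZC_w ω := ⟨e, he, rfl⟩
      obtain ⟨z, z', hz, hz', haz, hbz', hends⟩ : ∃ z z' : Vx d, nm z ≤ r ∧ nm z' ≤ r ∧
          a = pt n z ∧ b = pt n z' ∧
          (((Zl d).s e.1 = z ∧ (Zl d).r e.1 = z') ∨ ((Zl d).s e.1 = z' ∧ (Zl d).r e.1 = z)) := by
        rcases h1 with ⟨h2, h3⟩ | ⟨h2, h3⟩
        · exact ⟨_, _, heb.1, heb.2, by rw [← h2, hs], by rw [← h3, hr'], Or.inl ⟨rfl, rfl⟩⟩
        · exact ⟨_, _, heb.2, heb.1, by rw [← h3, hr'], by rw [← h2, hs], Or.inr ⟨rfl, rfl⟩⟩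
      refine ⟨fun y hy h => ?_, fun h => absurd hbz' (h z' hz')⟩
      have hy' : z' = y := pt_inj hr2 hz' hy (by rw [← hbz', h])
      rw [← hy']
      rcases ih.1 z hz haz with h4 | ⟨h4, h5⟩
      · exact Or.inl (Relation.ReflTransGen.tail h4 ⟨e.1, hew, hends⟩)
      · exact Or.inr ⟨h4, TZC_bd_step hew hends h5⟩
    · have hfn := hη f hf
      by_cases ha : ∃ y : Vx d, nm y ≤ r ∧ a = pt n y
      · obtain ⟨y, hy, hay⟩ := ha
        obtain ⟨h2, h3⟩ := TZC_edge hr hfn h1 hy hay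
        have hbx : TZC_bd ω x := by
          rcases ih.1 y hy hay with h4 | ⟨h4, _⟩
          · exact ⟨y, (mem_bdry hd).2 h2, h4⟩
          · exact h4
        exact ⟨fun y' hy' h => absurd h (h3 y' hy'), fun _ => hbx⟩
      · push Not at ha
        have hbx : TZC_bd ω x := ih.2 ha
        refine ⟨fun y' hy' h => ?_, fun _ => hbx⟩
        obtain ⟨h2, _⟩ := TZC_edge hr hfn h1.symm hy' h
        exact Or.inr ⟨hbx, ⟨y', (mem_bdry hd).2 h2, conn_refl _ _ _⟩⟩

theorem TZC_T (hd : 2 ≤ d) {n r : ℕ} (hr : 2 * (r + 1) < n) (ω : Finset ↥(bE d r))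
    (η : Set (Te d n)) (hη : ∀ f, f ∈ η ↔ f ∉ pe n '' (bE d r : Set (Ed d))) {x y : Vx d}
    (hx : nm x ≤ r) (hy : nm y ≤ r) :
    (Tg d n).Conn (TZC_j n r '' (ω : Set ↥(bE d r)) ∪ η) (pt n x) (pt n y) ↔ TZC_A ω x y := by
  constructor
  · intro h
    exact (TZC_T1 (by omega) hr ω η (fun f hf => (hη f).1 hf) hx h).1 y hy rfl
  · have hm : ∀ {z z' : Vx d}, (Zl d).Conn (TZC_w ω) z z' →
        (Tg d n).Conn (TZC_j n r '' (ω : Set ↥(bE d r)) ∪ η) (pt n z) (pt n z') := by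
      intro z z' hc
      refine TZC_map (fun e he => ?_) hc
      obtain ⟨a, ha, rfl⟩ := he
      exact Or.inl ⟨a, ha, rfl⟩
    rintro (h | ⟨⟨b, hb, h1⟩, ⟨b', hb', h2⟩⟩)
    · exact hm h
    · have hbb : (Tg d n).Conn (TZC_j n r '' (ω : Set ↥(bE d r)) ∪ η) (pt n b) (pt n b') := by
        refine TZC_map (fun e he => ?_)
          (shell_conn hd ((mem_bdry (by omega)).1 hb) ((mem_bdry (by omega)).1 hb'))
        right
        rw [hη]
        rintro ⟨e', he', hee⟩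
        have h3 := pe_inj hr (bE_mono (Nat.le_succ r) he') he.1 hee
        rw [h3] at he'
        exact he.2 he'
      exact conn_trans _ (hm h1) (conn_trans _ hbb (conn_symm _ (hm h2)))

theorem TZC_G1 (hd : 1 ≤ d) {r : ℕ} (ω : Finset ↥(bE d r)) {x : Vx d} (hx : nm x ≤ r)
    {y : Vx d} (hc : (Zl d).Conn (TZC_w ω ∪ ((bE d (r + 1) : Set (Ed d)) \ bE d r)) x y) :
    (nm y ≤ r → TZC_A ω x y) ∧ (r < nm y → TZC_bd ω x) := by
  induction hc with
  | refl => exact ⟨fun _ => Or.inl (conn_refl _ _ _), fun h => absurd hx (by omega)⟩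
  | @tail a b _ hab ih =>
    obtain ⟨e, he, h1⟩ := hab
    rcases he with he | he
    · have heb := mem_bE.1 (TZC_w_mem he)
      have hab' : nm a ≤ r ∧ nm b ≤ r := by
        rcases h1 with ⟨h2, h3⟩ | ⟨h2, h3⟩
        · rw [← h2, ← h3]; exact heb
        · rw [← h2, ← h3]; exact ⟨heb.2, heb.1⟩
      refine ⟨fun _ => ?_, fun h => absurd hab'.2 (by omega)⟩
      rcases ih.1 hab'.1 with h4 | ⟨h4, h5⟩
      · exact Or.inl (Relation.ReflTransGen.tail h4 ⟨e, he, h1⟩)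
      · exact Or.inr ⟨h4, TZC_bd_step he h1 h5⟩
    · have hnot : ¬ (nm a ≤ r ∧ nm b ≤ r) := by
        intro hcon
        apply he.2
        rw [Finset.mem_coe, mem_bE]
        rcases h1 with ⟨h2, h3⟩ | ⟨h2, h3⟩
        · rw [h2, h3]; exact hcon
        · rw [h2, h3]; exact ⟨hcon.2, hcon.1⟩
      have hst : nm b ≤ nm a + 1 := nm_step (ω := Set.univ) ⟨e, Set.mem_univ _, h1⟩
      have hst' : nm a ≤ nm b + 1 := nm_step (ω := Set.univ) ⟨e, Set.mem_univ _, h1.symm⟩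
      by_cases ha : nm a ≤ r
      · have hb : r < nm b := by
          by_contra hcon
          exact hnot ⟨ha, by omega⟩
        have hbx : TZC_bd ω x := by
          rcases ih.1 ha with h4 | ⟨h4, _⟩
          · exact ⟨a, (mem_bdry hd).2 (by omega), h4⟩
          · exact h4
        exact ⟨fun h => absurd h (by omega), fun _ => hbx⟩
      · have hbx : TZC_bd ω x := ih.2 (by omega)
        refine ⟨fun h => ?_, fun _ => hbx⟩
        exact Or.inr ⟨hbx, ⟨b, (mem_bdry hd).2 (by omega), conn_refl _ _ _⟩⟩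

theorem TZC_rs {r : ℕ} (ω : Set ↥(bE d (r + 1))) (x y : Vx d) :
    (GN d (r + 1)).Conn ω x y ↔ (Zl d).Conn (Subtype.val '' ω) x y := by
  constructor
  · intro h
    induction h with
    | refl => exact conn_refl _ _ _
    | @tail a b _ hab ih =>
      obtain ⟨e, he, h1⟩ := hab
      exact Relation.ReflTransGen.tail ih ⟨e.1, ⟨e, he, rfl⟩, h1⟩
  · intro h
    induction h with
    | refl => exact conn_refl _ _ _
    | @tail a b _ hab ih =>
      obtain ⟨_, ⟨e, he, rfl⟩, h1⟩ := hab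
      exact Relation.ReflTransGen.tail ih ⟨e, he, h1⟩

theorem TZC_G (hd : 2 ≤ d) {r : ℕ} (ω : Finset ↥(bE d r)) {x y : Vx d}
    (hx : nm x ≤ r) (hy : nm y ≤ r) :
    (GN d (r + 1)).Conn (TZC_j' r '' (ω : Set ↥(bE d r)) ∪
      (E1 d r (r + 1) : Set ↥(bE d (r + 1)))) x y ↔ TZC_A ω x y := by
  have hset : Subtype.val '' (TZC_j' r '' (ω : Set ↥(bE d r)) ∪
      (E1 d r (r + 1) : Set ↥(bE d (r + 1)))) = TZC_w ω ∪ ((bE d (r + 1) : Set (Ed d)) \ bE d r) := by
    rw [Set.image_union]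
    congr 1
    · ext e
      constructor
      · rintro ⟨_, ⟨a, ha, rfl⟩, rfl⟩
        exact ⟨a, ha, rfl⟩
      · rintro ⟨a, ha, rfl⟩
        exact ⟨_, ⟨a, ha, rfl⟩, rfl⟩
    · ext e
      constructor
      · rintro ⟨a, ha, rfl⟩
        exact ⟨a.2, fun h => BR2_mem_E1.1 (Finset.mem_coe.1 ha) h⟩
      · rintro ⟨h1, h2⟩
        exact ⟨⟨e, h1⟩, Finset.mem_coe.2 (BR2_mem_E1.2 h2), rfl⟩
  rw [TZC_rs, hset]
  constructor
  · intro h
    exact (TZC_G1 (by omega) ω hx h).1 hy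
  · rintro (h | ⟨⟨b, hb, h1⟩, ⟨b', hb', h2⟩⟩)
    · exact conn_mono _ Set.subset_union_left h
    · have hbb := shell_conn hd ((mem_bdry (by omega)).1 hb) ((mem_bdry (by omega)).1 hb')
      exact conn_trans _ (conn_mono _ Set.subset_union_left h1)
        (conn_trans _ (conn_mono _ Set.subset_union_right hbb)
          (conn_symm _ (conn_mono _ Set.subset_union_left h2)))

theorem torus_arm (hd : 2 ≤ d) {β : ℝ} (hβ : 0 ≤ β) (n r : ℕ) [NeZero n]
    (hr : 2 * (r + 1) + 2 < n) :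
    (Tg d n).fkE (fun _ => Real.tanh β) (fun ω => ind (∃ b ∈ bdry d r,
        (Tg d n).Conn ((ω : Set (Te d n)) ∩ pe n '' (bE d r : Set (Ed d))) (pt n 0) (pt n b))) ≤
      phiB β r true (arm r (0 : Vx d)) := by
  classical
  have hr1 : 2 * (r + 1) < n := by omega
  have hr0 : 2 * r < n := by omega
  have h01 : T01 (fun _ : ↥(bE d r) => Real.tanh β) := T01_tanh β hβ
  have h01T : T01 (fun _ : Te d n => Real.tanh β) := T01_tanh β hβ
  have hth := tanh_mem β hβ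
  set j : ↥(bE d r) → Te d n := TZC_j n r with hj
  set j' : ↥(bE d r) → ↥(bE d (r + 1)) := TZC_j' r with hj'
  have hinj : Function.Injective j := by
    intro a b hab
    exact Subtype.ext (pe_inj hr0 a.2 b.2 hab)
  have hinj' : Function.Injective j' := by
    intro a b hab
    have h1 : (j' a).1 = (j' b).1 := by rw [hab]
    exact Subtype.ext h1
  set η : Finset (Te d n) := (univ.image j)ᶜ with hη
  have hηm : ∀ f, f ∈ (η : Set (Te d n)) ↔ f ∉ pe n '' (bE d r : Set (Ed d)) := by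
    intro f
    rw [Finset.mem_coe, hη, Finset.mem_compl, not_iff_not, Finset.mem_image]
    constructor
    · rintro ⟨a, _, rfl⟩
      exact ⟨a.1, a.2, rfl⟩
    · rintro ⟨e, he, rfl⟩
      exact ⟨⟨e, he⟩, Finset.mem_univ _, rfl⟩
  have hη1 : ∀ a, j a ∉ η := fun a h =>
    (hηm (j a)).1 (Finset.mem_coe.2 h) ⟨a.1, a.2, rfl⟩
  have hη2 : ∀ a, j' a ∉ E1 d r (r + 1) := fun a h => BR2_mem_E1.1 h a.2
  have hc : ∀ (ω : Finset ↥(bE d r)) (a : ↥(bE d r)), a ∉ ω →
      ((Tg d n).Conn (j '' (ω : Set ↥(bE d r)) ∪ (η : Set (Te d n))) ((Tg d n).s (j a))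
          ((Tg d n).r (j a)) ↔
        (GN d (r + 1)).Conn (j' '' (ω : Set ↥(bE d r)) ∪ (E1 d r (r + 1) : Set ↥(bE d (r + 1))))
          ((GN d (r + 1)).s (j' a)) ((GN d (r + 1)).r (j' a))) := by
    intro ω a _
    have hab := mem_bE.1 a.2
    have e1 : (Tg d n).s (j a) = pt n ((Zl d).s a.1) := pe_s n a.1
    have e2 : (Tg d n).r (j a) = pt n ((Zl d).r a.1) := pe_r n a.1
    rw [e1, e2]
    have hT := TZC_T hd hr1 ω (η : Set (Te d n)) hηm hab.1 hab.2
    have hG := TZC_G hd ω hab.1 hab.2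
    exact hT.trans hG.symm
  -- the observable
  set f : Finset ↥(bE d r) → ℝ := fun ω => ind (TZC_bd ω (0 : Vx d)) with hf
  have hn0 : nm (0 : Vx d) ≤ r := by rw [nm_zero]; exact Nat.zero_le _
  have hmem_pul : ∀ (ω : Finset (Te d n)) (a : ↥(bE d r)), a ∈ pul j ω ↔ j a ∈ ω := by
    intro ω a
    unfold pul
    simp
  have hmem_pul' : ∀ (ω : Finset ↥(bE d (r + 1))) (a : ↥(bE d r)), a ∈ pul j' ω ↔ j' a ∈ ω := by
    intro ω a
    unfold pul
    simp
  -- comparison of the parameters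
  have htt : ∀ e, Real.tanh β ≤ ttf j η (fun _ => Real.tanh β) e := by
    intro e
    unfold ttf
    by_cases h1 : e ∈ η
    · rw [if_pos h1]; exact hth.2.le
    · have h2 : ∃ a, j a = e := by
        rw [hη, Finset.mem_compl, not_not, Finset.mem_image] at h1
        obtain ⟨a, _, ha⟩ := h1
        exact ⟨a, ha⟩
      rw [if_neg h1, dif_pos h2]
  have htt1 : T01 (ttf j η (fun _ => Real.tanh β)) := by
    intro e
    refine ⟨hth.1.trans (htt e), ?_⟩
    unfold ttf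
    split_ifs
    · exact le_rfl
    · exact hth.2.le
    · exact zero_le_one
  have hpar : ttf j' (E1 d r (r + 1)) (fun _ => Real.tanh β) =
      setT (E1 d r (r + 1)) (E1 d r (r + 1)) (fun _ => Real.tanh β) := by
    funext e
    unfold ttf setT
    by_cases h1 : e ∈ E1 d r (r + 1)
    · rw [if_pos h1, if_pos h1]
    · have h2 : ∃ a, j' a = e := by
        rw [BR2_mem_E1, not_not] at h1
        exact ⟨⟨e.1, h1⟩, rfl⟩
      rw [if_neg h1, if_neg h1, if_neg h1, dif_pos h2]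
  have s1 : (Tg d n).fkE (fun _ => Real.tanh β) (fun ω => ind (∃ b ∈ bdry d r,
        (Tg d n).Conn ((ω : Set (Te d n)) ∩ pe n '' (bE d r : Set (Ed d))) (pt n 0) (pt n b))) ≤
      (Tg d n).fkE (ttf j η (fun _ => Real.tanh β)) (fun ω => ind (∃ b ∈ bdry d r,
        (Tg d n).Conn ((ω : Set (Te d n)) ∩ pe n '' (bE d r : Set (Ed d))) (pt n 0) (pt n b))) := by
    apply fkE_holley (Tg d n) h01T htt1 htt
    intro ω ω' hle
    apply ind_mono
    rintro ⟨b, hb, hcn⟩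
    refine ⟨b, hb, conn_mono _ ?_ hcn⟩
    exact Set.inter_subset_inter_left _ (Finset.coe_subset.2 hle)
  have s2 : (Tg d n).fkE (ttf j η (fun _ => Real.tanh β)) (fun ω => ind (∃ b ∈ bdry d r,
        (Tg d n).Conn ((ω : Set (Te d n)) ∩ pe n '' (bE d r : Set (Ed d))) (pt n 0) (pt n b))) ≤
      (Tg d n).fkE (ttf j η (fun _ => Real.tanh β)) (fun ω => f (pul j ω)) := by
    apply fkE_le (Tg d n) htt1
    intro ω
    apply ind_mono
    rintro ⟨b, hb, hcn⟩
    have hset : (ω : Set (Te d n)) ∩ pe n '' (bE d r : Set (Ed d)) ⊆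
        TZC_j n r '' ((pul j ω : Finset ↥(bE d r)) : Set ↥(bE d r)) := by
      rintro g ⟨hg, ⟨e, he, rfl⟩⟩
      exact ⟨⟨e, he⟩, Finset.mem_coe.2 ((hmem_pul ω ⟨e, he⟩).2 (Finset.mem_coe.1 hg)), rfl⟩
    obtain ⟨y, hy, hyb, hconn⟩ := TZC_lift hr0 (pul j ω) hn0 (conn_mono _ hset hcn)
    have hbr : nm b ≤ r := ((mem_bdry (by omega)).1 hb).le
    have : y = b := pt_inj hr0 hy hbr hyb.symm
    rw [this] at hconn
    exact ⟨b, hb, hconn⟩
  have s3 := fk_iso (Tg d n) (GN d (r + 1)) j j' hinj hinj' η (E1 d r (r + 1)) hη1 hη2 hc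
    (fun _ => Real.tanh β) h01 f
  have s4 : (GN d (r + 1)).fkE (ttf j' (E1 d r (r + 1)) (fun _ => Real.tanh β))
      (fun ω => f (pul j' ω)) ≤
      (GN d (r + 1)).fkE (setT (E1 d r (r + 1)) (E1 d r (r + 1)) (fun _ => Real.tanh β))
        (fun ω => ind (ext true r (r + 1) ω ∈ arm r (0 : Vx d))) := by
    rw [hpar]
    apply fkE_le (GN d (r + 1)) (T01_setT (T01_tanh β hβ) _ _)
    intro ω
    apply ind_mono
    rintro ⟨b, hb, hcn⟩
    refine ⟨b, hb, conn_mono _ ?_ hcn⟩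
    rintro _ ⟨a, ha, rfl⟩
    have h1 : j' a ∈ ω := (hmem_pul' ω a).1 (Finset.mem_coe.1 ha)
    show ext true r (r + 1) ω a.1 = true
    unfold ext glue
    rw [if_pos a.2, decide_eq_true_eq, BR2_mem_vl]
    exact ⟨(j' a).2, h1⟩
  rw [phiB_wired hd hβ (le_refl (r + 1)) (arm r (0 : Vx d))]
  calc _ ≤ _ := s1
    _ ≤ _ := s2
    _ = _ := s3
    _ ≤ _ := s4

end H82.IC

end S_H82_IC_TZC
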