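import Mathlib
import Pool.Agent.H82.ICM.G05
import Pool.Agent.H82.ICM.G06
import Pool.Agent.H82.ICM.G07
import Pool.Agent.H82.ICM.G10

/-! MP_c4c051_pr: this file joins several modules to save build time. -/

section S_H82_IC_TZB

/-!
# TZB: the zero mode

`IsE ((Sa (n,...,n))²) = n^{-2d} ∑_{x,y} tp x y` (`isE_tp`, expand the square; `tb (n,..,n) = univ`).  Translation: `tp x y = tp 0 (y - x)` for the torus with constant parameters (`tp_iso` with `Λ = Te d n`,
`j = id`, `j' e = (e.1 - x, e.2)`, `η = η' = ∅`; a translation maps paths to paths).  So `∑_y tp x y = ∑_y tp 0 y` and it suffices that `∑_y tp 0 y ≤ (2r+1)^d + n^d phiB β r true (arm r 0)`: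
`tp 0 y ≤ 1` for `y ∈ pt '' bx r` (at most `(2r+1)^d` points, `card_bx`), and for `y ∉ pt '' bx r`: `tp 0 y = fkE 1[0 ↔ y] ≤ fkE 1[AR] ≤ phiB β r true (arm r 0)` (`torus_arm`): a path from `pt 0` to `y`
leaves `pt '' bx r`; take the first edge used which is not in `pe '' bE r`: up to it the path lifts to `bx r` and its last vertex `pt b`, `b ∈ bx r`, is in the boundary (an edge of the torus not in `pe '' bE r`
with an end `pt b`, `b ∈ bx r`, has `nm b = r`); if all edges are in `pe '' bE r`, then `y ∈ pt '' bx r`, contradiction.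
-/

set_option autoImplicit false

open Finset

namespace H82.IC

variable {d : ℕ}

theorem TZB_conn {n : ℕ} (x : Tv d n) (ω : Set (Te d n)) (u v : Tv d n)
    (h : (Tg d n).Conn ω u v) :
    (Tg d n).Conn ((fun e : Te d n => (e.1 - x, e.2)) '' ω) (u - x) (v - x) := by
  refine Relation.ReflTransGen.lift (fun u => u - x) ?_ _ _ h
  rintro a b ⟨e, he, hab⟩
  refine ⟨(e.1 - x, e.2), ⟨e, he, rfl⟩, ?_⟩
  have h1 : (Tg d n).s (e.1 - x, e.2) = (Tg d n).s e - x := rfl
  have h2 : (Tg d n).r (e.1 - x, e.2) = (Tg d n).r e - x := by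
    show e.1 - x + Pi.single e.2 1 = e.1 + Pi.single e.2 1 - x
    abel
  rw [h1, h2]
  rcases hab with ⟨h3, h4⟩ | ⟨h3, h4⟩
  · left
    rw [h3, h4]
    exact ⟨rfl, rfl⟩
  · right
    rw [h3, h4]
    exact ⟨rfl, rfl⟩

theorem TZB_conn_iff {n : ℕ} (x : Tv d n) (ω : Set (Te d n)) (u v : Tv d n) :
    (Tg d n).Conn ω u v ↔
      (Tg d n).Conn ((fun e : Te d n => (e.1 - x, e.2)) '' ω) (u - x) (v - x) := by
  refine ⟨TZB_conn x ω u v, fun h => ?_⟩
  have h1 := TZB_conn (-x) _ _ _ h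
  rw [Set.image_image] at h1
  simpa using h1

theorem TZB_shift {β : ℝ} (hβ : 0 ≤ β) (n : ℕ) [NeZero n] (x y : Tv d n) :
    (Tg d n).tp (fun _ => Real.tanh β) x y = (Tg d n).tp (fun _ => Real.tanh β) 0 (y - x) := by
  have hinj : Function.Injective (fun e : Te d n => ((e.1 - x, e.2) : Te d n)) := by
    rintro ⟨a, i⟩ ⟨b, j⟩ h
    simp only [Prod.mk.injEq, sub_left_inj] at h
    exact Prod.ext h.1 h.2
  have hc : ∀ (ω : Finset (Te d n)) (u v : Tv d n),
      ((Tg d n).Conn (id '' (ω : Set (Te d n)) ∪ ((∅ : Finset (Te d n)) : Set (Te d n))) u v ↔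
        (Tg d n).Conn ((fun e : Te d n => ((e.1 - x, e.2) : Te d n)) '' (ω : Set (Te d n)) ∪
          ((∅ : Finset (Te d n)) : Set (Te d n))) (u - x) (v - x)) := by
    intro ω u v
    rw [Finset.coe_empty, Set.union_empty, Set.union_empty, Set.image_id]
    exact TZB_conn_iff x _ u v
  have h1 := tp_iso (Tg d n) (Tg d n) (id : Te d n → Te d n)
    (fun e : Te d n => ((e.1 - x, e.2) : Te d n)) Function.injective_id hinj ∅ ∅
    (fun _ => Finset.notMem_empty _) (fun _ => Finset.notMem_empty _)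
    (fun ω a _ => by
      have h2 := hc ω ((Tg d n).s a) ((Tg d n).r a)
      have h3 : (Tg d n).r (a.1 - x, a.2) = (Tg d n).r a - x := by
        show a.1 - x + Pi.single a.2 1 = a.1 + Pi.single a.2 1 - x
        abel
      rw [h3]
      exact h2)
    (fun _ => Real.tanh β) (T01_tanh β hβ) x y (x - x) (y - x) (fun ω => hc ω x y)
  have h2 : ttf (id : Te d n → Te d n) ∅ (fun _ => Real.tanh β) = fun _ => Real.tanh β := by
    funext e
    unfold ttf
    rw [if_neg (Finset.notMem_empty _), dif_pos ⟨e, rfl⟩]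
  have h3 : ttf (fun e : Te d n => ((e.1 - x, e.2) : Te d n)) ∅ (fun _ => Real.tanh β) =
      fun _ => Real.tanh β := by
    funext e
    unfold ttf
    rw [if_neg (Finset.notMem_empty _), dif_pos ⟨(e.1 + x, e.2), by simp⟩]
  rw [h2, h3, sub_self] at h1
  exact h1

/-- a path from the origin leaves the box or stays in it -/
theorem TZB_path (hd : 1 ≤ d) (n r : ℕ) (ω : Set (Te d n)) (y : Tv d n)
    (h : (Tg d n).Conn ω (pt n 0) y) :
    (∃ b ∈ bdry d r, (Tg d n).Conn (ω ∩ pe n '' (bE d r : Set (Ed d))) (pt n 0) (pt n b)) ∨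
      ∃ x : Vx d, nm x ≤ r ∧ y = pt n x ∧
        (Tg d n).Conn (ω ∩ pe n '' (bE d r : Set (Ed d))) (pt n 0) (pt n x) := by
  induction h with
  | refl =>
    right
    exact ⟨0, by rw [nm_zero]; omega, rfl, Relation.ReflTransGen.refl⟩
  | tail _ hyz ih =>
    rename_i y z
    rcases ih with ih | ⟨x, hx, hyx, hconn⟩
    · exact Or.inl ih
    obtain ⟨e, heω, he⟩ := hyz
    rcases he with ⟨h1, h2⟩ | ⟨h1, h2⟩
    · -- the lattice edge at `x`
      obtain ⟨f, hf⟩ : ∃ f : Ed d, f = (x, e.2) := ⟨_, rfl⟩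
      have hfs : (Zl d).s f = x := by rw [hf]; rfl
      have hpe : pe n f = e := by
        rw [hf]
        refine Prod.ext ?_ rfl
        show pt n x = e.1
        rw [← hyx, ← h1]
        rfl
      have hadj : (Zl d).Adj Set.univ x ((Zl d).r f) := ⟨f, trivial, Or.inl ⟨hfs, rfl⟩⟩
      have hnm := nm_step hadj
      by_cases hfE : f ∈ bE d r
      · right
        refine ⟨(Zl d).r f, (mem_bE.1 hfE).2, ?_, ?_⟩
        · rw [← h2, ← hpe, pe_r]
        · refine Relation.ReflTransGen.tail hconn ⟨e, ⟨heω, ⟨f, hfE, hpe⟩⟩, Or.inl ⟨?_, ?_⟩⟩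
          · rw [h1, hyx]
          · rw [← pe_r, hpe]
      · left
        have hr' : ¬ nm ((Zl d).r f) ≤ r := fun h3 => hfE (mem_bE.2 ⟨by rw [hfs]; exact hx, h3⟩)
        exact ⟨x, (mem_bdry hd).2 (by omega), hconn⟩
    · obtain ⟨f, hf⟩ : ∃ f : Ed d, f = (x - Pi.single e.2 1, e.2) := ⟨_, rfl⟩
      have hfr : (Zl d).r f = x := by
        rw [hf]
        show x - Pi.single e.2 1 + Pi.single e.2 1 = x
        abel
      have hpe : pe n f = e := by
        have h3 := pe_r n f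
        rw [hfr, ← hyx, ← h2] at h3
        have h4 : (pe n f).2 = e.2 := by rw [hf]; rfl
        have h5 : (pe n f).1 + Pi.single (pe n f).2 1 = e.1 + Pi.single e.2 1 := h3
        rw [h4] at h5
        exact Prod.ext (add_right_cancel h5) h4
      have hadj : (Zl d).Adj Set.univ x ((Zl d).s f) := ⟨f, trivial, Or.inr ⟨rfl, hfr⟩⟩
      have hnm := nm_step hadj
      by_cases hfE : f ∈ bE d r
      · right
        refine ⟨(Zl d).s f, (mem_bE.1 hfE).1, ?_, ?_⟩
        · rw [← h1, ← hpe, pe_s]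
        · refine Relation.ReflTransGen.tail hconn ⟨e, ⟨heω, ⟨f, hfE, hpe⟩⟩, Or.inr ⟨?_, ?_⟩⟩
          · rw [← pe_s, hpe]
          · rw [h2, hyx]
      · left
        have hr' : ¬ nm ((Zl d).s f) ≤ r := fun h3 => hfE (mem_bE.2 ⟨h3, by rw [hfr]; exact hx⟩)
        exact ⟨x, (mem_bdry hd).2 (by omega), hconn⟩

theorem zero_mode (hd : 2 ≤ d) {β : ℝ} (hβ : 0 ≤ β) (n r : ℕ) [NeZero n] (hr : 2 * (r + 1) + 2 < n) :
    (Tg d n).IsE β (fun σ => (Sa (fun _ => n) σ) ^ 2) ≤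
      ((2 * r + 1 : ℕ) : ℝ) ^ d / (n : ℝ) ^ d + phiB β r true (arm r (0 : Vx d)) := by
  classical
  have hT : T01 (fun _ : Te d n => Real.tanh β) := T01_tanh β hβ
  have harm := torus_arm hd hβ n r hr
  obtain ⟨P, hP⟩ : ∃ P : ℝ, P = phiB β r true (arm r (0 : Vx d)) := ⟨_, rfl⟩
  rw [← hP] at harm ⊢
  have hP0 : 0 ≤ P := (fkE_nonneg (Tg d n) hT (fun ω => ind_nonneg _)).trans harm
  have hn : (0 : ℝ) < n := by
    have := NeZero.ne n
    exact_mod_cast Nat.pos_of_ne_zero this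
  have hnd : (0 : ℝ) < (n : ℝ) ^ d := by positivity
  -- points outside the box
  have hout : ∀ z : Tv d n, z ∉ (bx d r).image (pt n) →
      (Tg d n).tp (fun _ => Real.tanh β) 0 z ≤ P := by
    intro z hz
    rw [← fkE_conn]
    refine le_trans (fkE_le (Tg d n) hT fun ω => ind_mono ?_) harm
    intro hconn
    have h0 : (0 : Tv d n) = pt n (0 : Vx d) := by
      funext i
      simp [pt]
    rw [h0] at hconn
    rcases TZB_path (by omega) n r _ z hconn with h1 | ⟨x, hx, hzx, -⟩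
    · exact h1
    · exact absurd (Finset.mem_image.2 ⟨x, mem_bx.2 hx, hzx.symm⟩) hz
  have hsum0 : ∑ z : Tv d n, (Tg d n).tp (fun _ => Real.tanh β) 0 z ≤
      ((2 * r + 1 : ℕ) : ℝ) ^ d + (n : ℝ) ^ d * P := by
    have h1 : ∀ z : Tv d n, (Tg d n).tp (fun _ => Real.tanh β) 0 z ≤
        (if z ∈ (bx d r).image (pt n) then 1 else 0) + P := by
      intro z
      by_cases hz : z ∈ (bx d r).image (pt n)
      · rw [if_pos hz]
        linarith [tp_le_one (Tg d n) hT (0 : Tv d n) z]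
      · rw [if_neg hz, zero_add]
        exact hout z hz
    refine (Finset.sum_le_sum fun z _ => h1 z).trans ?_
    rw [Finset.sum_add_distrib, Finset.sum_const, Finset.card_univ, Fintype.card_fun, ZMod.card,
      Fintype.card_fin, nsmul_eq_mul, Nat.cast_pow]
    have h2 : ∑ z : Tv d n, (if z ∈ (bx d r).image (pt n) then (1 : ℝ) else 0) =
        ((bx d r).image (pt n)).card := by
      rw [Finset.sum_ite_mem, Finset.univ_inter, Finset.sum_const, nsmul_eq_mul, mul_one]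
    rw [h2]
    have h3 : (((bx d r).image (pt n)).card : ℝ) ≤ ((2 * r + 1 : ℕ) : ℝ) ^ d := by
      rw [← Nat.cast_pow, ← card_bx]
      exact_mod_cast Finset.card_image_le
    linarith
  have hsumx : ∀ x : Tv d n, ∑ y : Tv d n, (Tg d n).tp (fun _ => Real.tanh β) x y ≤
      ((2 * r + 1 : ℕ) : ℝ) ^ d + (n : ℝ) ^ d * P := by
    intro x
    refine le_trans (le_of_eq ?_) hsum0
    rw [← Equiv.sum_comp (Equiv.subRight x) (fun z => (Tg d n).tp (fun _ => Real.tanh β) 0 z)]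
    exact Finset.sum_congr rfl fun y _ => TZB_shift hβ n x y
  have htb : (tb (fun _ : Fin d => n) : Finset (Tv d n)) = Finset.univ := by
    ext x
    simp [tb, ZMod.val_lt]
  have hE : (Tg d n).IsE β (fun σ => (Sa (fun _ => n) σ) ^ 2) =
      ((n : ℝ) ^ d)⁻¹ ^ 2 * ∑ x : Tv d n, ∑ y : Tv d n,
        (Tg d n).tp (fun _ => Real.tanh β) x y := by
    have h1 : (fun σ : Tv d n → Bool => (Sa (fun _ => n) σ) ^ 2) = fun σ =>
        ((n : ℝ) ^ d)⁻¹ ^ 2 * ∑ x : Tv d n, ∑ y : Tv d n, sp (σ x) * sp (σ y) := by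
      funext σ
      unfold Sa
      rw [htb, mul_pow, Finset.prod_const, Finset.card_univ, Fintype.card_fin, sq (∑ x, sp (σ x)),
        Finset.sum_mul_sum]
    rw [h1, isE_smul, isE_sum]
    congr 1
    refine Finset.sum_congr rfl fun x _ => ?_
    rw [isE_sum]
    exact Finset.sum_congr rfl fun y _ => isE_tp _ _ _ _
  rw [hE]
  have h4 : ∑ x : Tv d n, ∑ y : Tv d n, (Tg d n).tp (fun _ => Real.tanh β) x y ≤
      (n : ℝ) ^ d * (((2 * r + 1 : ℕ) : ℝ) ^ d + (n : ℝ) ^ d * P) := by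
    refine (Finset.sum_le_sum fun x _ => hsumx x).trans (le_of_eq ?_)
    rw [Finset.sum_const, Finset.card_univ, Fintype.card_fun, ZMod.card, Fintype.card_fin,
      nsmul_eq_mul, Nat.cast_pow]
  calc _ ≤ ((n : ℝ) ^ d)⁻¹ ^ 2 * ((n : ℝ) ^ d * (((2 * r + 1 : ℕ) : ℝ) ^ d + (n : ℝ) ^ d * P)) :=
        mul_le_mul_of_nonneg_left h4 (by positivity)
    _ = _ := by field_simp

end H82.IC

end S_H82_IC_TZB

section S_H82_IC_INF

/-!
# INF: the infrared bound for the free measures, `d ≥ 3`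

`thW d β = inf_n phiB β n true (arm n 0)`.
* `thW_tendsto`: `n ↦ phiB β n true (arm n 0)` is antitone (`arm_anti`, `phiB_wired_anti`, `phiB_mono_set`), bounded below by `0`.
* `cube j = {x : 0 ≤ x i < 2^j}` in `ℤ^d`.  `infrared_free`: if `thW d β = 0`, then for all `R`: `∑_{x,y ∈ cube j ∩ bx R} phiB β R false (cn x y) ≤ (3 d)² 2^{-j}/β * (2^{jd})²`.
  Proof: for `n = 2^M`, `2R + 2 < n`, `j ≤ M`: `pt n` maps `cube j` bijectively onto `tb (2^j)`, `IsE ((Sa 2^j)²) = 2^{-2jd} ∑_{x,y ∈ cube j} tp (pt x) (pt y)` (`isE_tp`), which is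
  `≥ 2^{-2jd} ∑_{x,y ∈ cube j ∩ bx R} phiB β R false (cn x y)` (`torus_ge_free`, the other terms are `≥ 0`).  By `torus_infrared` and `zero_mode`:
  `√(left) ≤ √((2r+1)^d/n^d + phiB β r true (arm r 0)) + 3d √(2^{-j}/β)`; let `M → ∞` (`r` fixed), then `r → ∞` (`thW = 0`).
* `theta_pos`: for `β > (3d)²`: if `thW d β = 0`, apply `infrared_free` with `j = 0`, `R = 0` (cube `{0}`, `phiB β 0 false (cn 0 0) = 1`): `1 ≤ (3d)²/β < 1`, contradiction.
-/

set_option autoImplicit false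

open Finset Filter Topology

namespace H82.IC

variable {d : ℕ}

/-- the wired one arm limit `θ(β)`. -/
noncomputable def thW (d : ℕ) (β : ℝ) : ℝ := ⨅ n : ℕ, phiB β n true (arm n (0 : Vx d))

/-- the cube `[0, 2^j)^d`. -/
noncomputable def cube (d j : ℕ) : Finset (Vx d) :=
  Fintype.piFinset (fun _ => Finset.Ico (0 : ℤ) (2 ^ j))

theorem thW_anti (hd : 2 ≤ d) {β : ℝ} (hβ : 0 ≤ β) :
    Antitone (fun n : ℕ => phiB β n true (arm n (0 : Vx d))) := by
  intro m n hmn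
  refine (phiB_mono_set hβ n true (arm_anti (by omega) hmn ?_)).trans
    (phiB_wired_anti hd hβ hmn (inc_arm m 0))
  rw [nm_zero]
  exact Nat.zero_le m

theorem thW_tendsto (hd : 2 ≤ d) {β : ℝ} (hβ : 0 ≤ β) :
    Tendsto (fun n : ℕ => phiB β n true (arm n (0 : Vx d))) atTop (𝓝 (thW d β)) := by
  refine tendsto_atTop_ciInf (thW_anti hd hβ) ⟨0, ?_⟩
  rintro _ ⟨n, rfl⟩
  exact phiB_nonneg hβ n true _

theorem thW_nonneg (d : ℕ) {β : ℝ} (hβ : 0 ≤ β) : 0 ≤ thW d β := by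
  exact Real.iInf_nonneg fun n => phiB_nonneg hβ n true _

theorem INF_sq (n : ℕ) [NeZero n] (β : ℝ) (a : Fin d → ℕ) :
    (Tg d n).IsE β (fun σ => (Sa a σ) ^ 2) = ((∏ i, (a i : ℝ))⁻¹) ^ 2 *
      ∑ x ∈ (tb a : Finset (Tv d n)), ∑ y ∈ (tb a : Finset (Tv d n)),
        (Tg d n).tp (fun _ => Real.tanh β) x y := by
  have h1 : (fun σ : Tv d n → Bool => (Sa a σ) ^ 2) = fun σ => ((∏ i, (a i : ℝ))⁻¹) ^ 2 *
      ∑ x ∈ (tb a : Finset (Tv d n)), ∑ y ∈ (tb a : Finset (Tv d n)), sp (σ x) * sp (σ y) := by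
    funext σ
    unfold Sa
    rw [mul_pow, sq (∑ x ∈ (tb a : Finset (Tv d n)), sp (σ x)), Finset.sum_mul_sum]
  rw [h1, isE_smul, isE_sum]
  congr 1
  refine Finset.sum_congr rfl fun x _ => ?_
  rw [isE_sum]
  exact Finset.sum_congr rfl fun y _ => isE_tp _ _ _ _

theorem INF_tb (n : ℕ) [NeZero n] (j : ℕ) (hj : 2 ^ j ≤ n) {x : Vx d} (hx : x ∈ cube d j) :
    pt n x ∈ (tb (fun _ => 2 ^ j) : Finset (Tv d n)) := by
  unfold tb
  rw [Finset.mem_filter]
  refine ⟨Finset.mem_univ _, fun i => ?_⟩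
  have h1 := Fintype.mem_piFinset.1 hx i
  rw [Finset.mem_Ico] at h1
  obtain ⟨k, hk⟩ := Int.eq_ofNat_of_zero_le h1.1
  have h2 : k < 2 ^ j := by
    have h3 := h1.2
    rw [hk] at h3
    exact_mod_cast h3
  show (((x i : ℤ) : ZMod n)).val < 2 ^ j
  rw [hk, Int.cast_natCast, ZMod.val_natCast_of_lt (by omega)]
  exact h2

theorem INF_ge (n : ℕ) [NeZero n] {β : ℝ} (hβ : 0 ≤ β) (j R : ℕ) (hj : 2 ^ j ≤ n)
    (hR : 2 * R + 2 < n) :
    ((((2 : ℝ) ^ j) ^ d)⁻¹) ^ 2 * ∑ x ∈ cube d j ∩ bx d R, ∑ y ∈ cube d j ∩ bx d R,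
      phiB β R false (cn x y) ≤ (Tg d n).IsE β (fun σ => (Sa (fun _ => 2 ^ j) σ) ^ 2) := by
  have ht : T01 (fun _ : Te d n => Real.tanh β) := T01_tanh β hβ
  rw [INF_sq]
  have h1 : (∏ _i : Fin d, (((2 ^ j : ℕ)) : ℝ)) = ((2 : ℝ) ^ j) ^ d := by
    rw [Finset.prod_const, Finset.card_univ, Fintype.card_fin]
    push_cast
    rfl
  rw [h1]
  refine mul_le_mul_of_nonneg_left ?_ (by positivity)
  have hinj : Set.InjOn (pt n) ((cube d j ∩ bx d R : Finset (Vx d)) : Set (Vx d)) := by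
    intro x hx y hy hxy
    rw [Finset.mem_coe, Finset.mem_inter, mem_bx] at hx hy
    exact pt_inj (by omega) hx.2 hy.2 hxy
  have hsub : (cube d j ∩ bx d R).image (pt n) ⊆ (tb (fun _ => 2 ^ j) : Finset (Tv d n)) := by
    intro z hz
    obtain ⟨x, hx, rfl⟩ := Finset.mem_image.1 hz
    exact INF_tb n j hj (Finset.mem_inter.1 hx).1
  calc ∑ x ∈ cube d j ∩ bx d R, ∑ y ∈ cube d j ∩ bx d R, phiB β R false (cn x y)
      ≤ ∑ x ∈ cube d j ∩ bx d R, ∑ y ∈ cube d j ∩ bx d R,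
          (Tg d n).tp (fun _ => Real.tanh β) (pt n x) (pt n y) := by
        refine Finset.sum_le_sum fun x hx => Finset.sum_le_sum fun y hy => ?_
        rw [Finset.mem_inter, mem_bx] at hx hy
        exact torus_ge_free hβ n R hR hx.2 hy.2
    _ = ∑ x ∈ (cube d j ∩ bx d R).image (pt n), ∑ y ∈ (cube d j ∩ bx d R).image (pt n),
          (Tg d n).tp (fun _ => Real.tanh β) x y := by
        rw [Finset.sum_image hinj]
        refine Finset.sum_congr rfl fun x _ => ?_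
        rw [Finset.sum_image hinj]
    _ ≤ ∑ x ∈ (tb (fun _ => 2 ^ j) : Finset (Tv d n)),
          ∑ y ∈ (cube d j ∩ bx d R).image (pt n), (Tg d n).tp (fun _ => Real.tanh β) x y :=
        Finset.sum_le_sum_of_subset_of_nonneg hsub fun x _ _ =>
          Finset.sum_nonneg fun y _ => tp_nonneg _ ht _ _
    _ ≤ _ := Finset.sum_le_sum fun x _ =>
        Finset.sum_le_sum_of_subset_of_nonneg hsub fun y _ _ => tp_nonneg _ ht _ _

theorem infrared_free (hd : 3 ≤ d) {β : ℝ} (hβ : 0 < β) (h0 : thW d β = 0) (j R : ℕ) :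
    ∑ x ∈ cube d j ∩ bx d R, ∑ y ∈ cube d j ∩ bx d R, phiB β R false (cn x y) ≤
      (3 * d) ^ 2 * ((2 ^ j : ℝ)⁻¹ / β) * ((2 ^ j : ℝ) ^ d) ^ 2 := by
  obtain ⟨Sg, hSg⟩ : ∃ Sg, Sg = ∑ x ∈ cube d j ∩ bx d R, ∑ y ∈ cube d j ∩ bx d R,
    phiB β R false (cn x y) := ⟨_, rfl⟩
  rw [← hSg]
  obtain ⟨b, hb⟩ : ∃ b, b = 3 * (d : ℝ) * Real.sqrt ((2 ^ j : ℝ)⁻¹ / β) := ⟨_, rfl⟩
  obtain ⟨a, ha⟩ : ∃ a, a = Real.sqrt (((((2 : ℝ) ^ j) ^ d)⁻¹) ^ 2 * Sg) := ⟨_, rfl⟩
  have hall : ∀ r M : ℕ, 2 * (r + 1) + 2 + (2 * R + 2) + j ≤ M →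
      a ≤ Real.sqrt (((2 * r + 1 : ℕ) : ℝ) ^ d / ((2 ^ M : ℕ) : ℝ) ^ d +
        phiB β r true (arm r (0 : Vx d))) + b := by
    intro r M hM
    have h1 : M < 2 ^ M := Nat.lt_pow_self (by norm_num)
    have h2 := torus_infrared hd hβ M j (by omega)
    have h3 := zero_mode (d := d) (by omega) hβ.le (2 ^ M) r (by omega)
    have h4 := INF_ge (d := d) (2 ^ M) hβ.le j R
      (Nat.pow_le_pow_right (by norm_num) (by omega)) (by omega)
    rw [← hSg] at h4
    rw [ha, hb]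
    calc Real.sqrt (((((2 : ℝ) ^ j) ^ d)⁻¹) ^ 2 * Sg) ≤ _ := Real.sqrt_le_sqrt h4
      _ ≤ _ := h2
      _ ≤ _ := by
        have h5 := Real.sqrt_le_sqrt h3
        linarith
  have hr : ∀ r : ℕ, a ≤ Real.sqrt (0 + phiB β r true (arm r (0 : Vx d))) + b := by
    intro r
    refine ge_of_tendsto (x := atTop) (f := fun M : ℕ =>
      Real.sqrt (((2 * r + 1 : ℕ) : ℝ) ^ d / ((2 ^ M : ℕ) : ℝ) ^ d +
        phiB β r true (arm r (0 : Vx d))) + b) ?_ ?_
    · refine Tendsto.add_const b ?_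
      refine (Real.continuous_sqrt.tendsto _).comp (Tendsto.add_const _ ?_)
      refine Tendsto.div_atTop tendsto_const_nhds ?_
      refine (tendsto_pow_atTop (by omega : d ≠ 0)).comp ?_
      exact tendsto_natCast_atTop_atTop.comp (tendsto_pow_atTop_atTop_of_one_lt one_lt_two)
    · filter_upwards [eventually_ge_atTop (2 * (r + 1) + 2 + (2 * R + 2) + j)] with M hM
      exact hall r M hM
  have hfin : a ≤ b := by
    have h1 : Tendsto (fun r : ℕ => Real.sqrt (0 + phiB β r true (arm r (0 : Vx d))) + b) atTop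
        (𝓝 (Real.sqrt (0 + 0) + b)) := by
      refine Tendsto.add_const b ?_
      refine (Real.continuous_sqrt.tendsto _).comp (Tendsto.const_add 0 ?_)
      have h2 := thW_tendsto (d := d) (by omega) hβ.le
      rwa [h0] at h2
    have h3 := ge_of_tendsto' h1 hr
    rwa [add_zero, Real.sqrt_zero, zero_add] at h3
  have hSg0 : 0 ≤ Sg := by
    rw [hSg]
    exact Finset.sum_nonneg fun x _ => Finset.sum_nonneg fun y _ => phiB_nonneg hβ.le _ _ _
  have ha0 : 0 ≤ a := by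
    rw [ha]
    exact Real.sqrt_nonneg _
  have hsq : a ^ 2 ≤ b ^ 2 := pow_le_pow_left₀ ha0 hfin 2
  have hD : (0 : ℝ) < ((2 : ℝ) ^ j) ^ d := by positivity
  rw [ha, hb, Real.sq_sqrt (by positivity), mul_pow, Real.sq_sqrt (by positivity), inv_pow,
    inv_mul_le_iff₀ (by positivity)] at hsq
  calc Sg ≤ _ := hsq
    _ = _ := by ring

theorem theta_pos (hd : 3 ≤ d) {β : ℝ} (hβ : ((3 : ℝ) * d) ^ 2 < β) : 0 < thW d β := by
  have hd3 : (3 : ℝ) ≤ d := by exact_mod_cast hd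
  have hβ0 : 0 < β := lt_of_le_of_lt (by positivity) hβ
  rcases (thW_nonneg d hβ0.le).lt_or_eq with h | h
  · exact h
  exfalso
  have h1 := infrared_free hd hβ0 h.symm 0 0
  have hc : cube d 0 ∩ bx d 0 = {0} := by
    ext x
    rw [Finset.mem_inter, mem_bx, Finset.mem_singleton, Nat.le_zero, nm_eq_zero]
    constructor
    · exact fun h => h.2
    · rintro rfl
      refine ⟨Fintype.mem_piFinset.2 fun i => ?_, rfl⟩
      simp
  rw [hc, Finset.sum_singleton, Finset.sum_singleton] at h1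
  have h2 : phiB β 0 false (cn (0 : Vx d) 0) = 1 := by
    have h3 : (cn (0 : Vx d) 0) = Set.univ := by
      ext ω
      simp only [Set.mem_univ, iff_true]
      exact Relation.ReflTransGen.refl
    rw [h3]
    unfold phiB phiG
    rw [div_eq_one_iff_eq (BR2_den_pos hβ0.le _ _ _).ne']
    refine Finset.sum_congr rfl fun ω _ => ?_
    unfold ind
    rw [if_pos (Set.mem_univ _), mul_one]
  rw [h2, pow_zero, one_pow, one_pow, inv_one, mul_one, mul_one_div, le_div_iff₀ hβ0, one_mul] at h1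
  exact absurd h1 (not_le.2 hβ)

end H82.IC

end S_H82_IC_INF

section S_H82_IC_CB1

/-!
# CB1: dependence on `β`, the critical point

* `phiB_beta_mono`: `phiB_free` / `phiB_wired` represent `phiB β n b X` as `fkE` with parameters `tanh β` (on the edges of `bE n`), `tanh` is monotone, `fkE_holley`.
* `phiB_continuous`: ratio of finite sums of continuous functions of `β` (`fkw`), denominator `> 0` for `β ≥ 0` (the term `ω = ∅` is positive, others `≥ 0`).
* `bcr d = inf {β ≥ 0 : thW d β > 0}`; `bcr_zero`: `thW d β = 0` for `0 ≤ β < bcr d` (`thW ≥ 0`; definition of the infimum, the set is bounded below by `0`); `bcr_pos_after`: the set is nonempty by `theta_pos`, so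
  for every `δ > 0` there is `β ∈ [bcr d, bcr d + δ)` in the set.
-/

set_option autoImplicit false

open Finset Filter Topology

namespace H82.IC

variable {d : ℕ}

/-- the critical point. -/
noncomputable def bcr (d : ℕ) : ℝ := sInf {β : ℝ | 0 ≤ β ∧ 0 < thW d β}

theorem CB1_tanh {a b : ℝ} (h : a ≤ b) : Real.tanh a ≤ Real.tanh b := by
  rw [Real.tanh_eq_sinh_div_cosh, Real.tanh_eq_sinh_div_cosh,
    div_le_div_iff₀ (Real.cosh_pos a) (Real.cosh_pos b)]
  have h1 : 0 ≤ Real.sinh (b - a) := Real.sinh_nonneg_iff.2 (sub_nonneg.2 h)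
  rw [Real.sinh_sub] at h1
  linarith

theorem CB1_setT {E : Type*} {t t' : E → ℝ} (h : ∀ e, t e ≤ t' e) (E1 η : Finset E) (e : E) :
    setT E1 η t e ≤ setT E1 η t' e := by
  unfold setT
  split_ifs
  · exact le_rfl
  · exact le_rfl
  · exact h e

theorem phiB_beta_mono (hd : 2 ≤ d) {β β' : ℝ} (hβ : 0 ≤ β) (h : β ≤ β') (n : ℕ) (b : Bool)
    {X : Set (Cf d)} (hX : Inc X) : phiB β n b X ≤ phiB β' n b X := by
  have hβ' : 0 ≤ β' := hβ.trans h
  cases b with
  | false =>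
    rw [phiB_free hβ (le_refl n) X, phiB_free hβ' (le_refl n) X]
    exact fkE_holley (GN d n) (T01_setT (T01_tanh β hβ) _ _) (T01_setT (T01_tanh β' hβ') _ _)
      (fun e => CB1_setT (fun _ => CB1_tanh h) _ _ e) (BR2_f_mono (bE d n) false n hX)
  | true =>
    rw [phiB_wired hd hβ (le_refl (n + 1)) X, phiB_wired hd hβ' (le_refl (n + 1)) X]
    exact fkE_holley (GN d (n + 1)) (T01_setT (T01_tanh β hβ) _ _)
      (T01_setT (T01_tanh β' hβ') _ _)
      (fun e => CB1_setT (fun _ => CB1_tanh h) _ _ e) (BR2_f_mono (bE d n) true (n + 1) hX)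

theorem CB1_fkw (W : Finset (Vx d)) (Λ : Finset (Ed d)) (ξ : Cf d) (ω : Finset (Ed d)) :
    Continuous (fun β : ℝ => fkw β W Λ ξ ω) := by
  unfold fkw
  exact continuous_const.mul (((Real.continuous_exp.comp (continuous_const.mul continuous_id)).sub
    continuous_const).pow _)

theorem phiB_continuous (n : ℕ) (b : Bool) (X : Set (Cf d)) :
    ContinuousOn (fun β : ℝ => phiB β n b X) (Set.Ici 0) := by
  unfold phiB phiG
  refine ContinuousOn.div ?_ ?_ ?_
  · exact (continuous_finsetSum _ fun ω _ =>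
      (CB1_fkw _ _ _ _).mul continuous_const).continuousOn
  · exact (continuous_finsetSum _ fun ω _ => CB1_fkw _ _ _ _).continuousOn
  · intro β hβ
    exact (BR2_den_pos hβ _ _ _).ne'

theorem thW_mono (hd : 2 ≤ d) {β β' : ℝ} (hβ : 0 ≤ β) (h : β ≤ β') : thW d β ≤ thW d β' := by
  unfold thW
  refine ciInf_mono ⟨0, ?_⟩ fun n => phiB_beta_mono hd hβ h n true (inc_arm n 0)
  rintro _ ⟨n, rfl⟩
  exact phiB_nonneg hβ n true _

theorem bcr_nonneg (d : ℕ) : 0 ≤ bcr d := by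
  unfold bcr
  exact Real.sInf_nonneg fun x hx => hx.1

theorem CB1_bdd (d : ℕ) : BddBelow {β : ℝ | 0 ≤ β ∧ 0 < thW d β} := ⟨0, fun _ hx => hx.1⟩

theorem bcr_zero {β : ℝ} (hβ : 0 ≤ β) (h : β < bcr d) : thW d β = 0 := by
  by_contra hne
  have hpos : 0 < thW d β := lt_of_le_of_ne (thW_nonneg d hβ) (Ne.symm hne)
  exact absurd (csInf_le (CB1_bdd d) ⟨hβ, hpos⟩) (not_le.2 h)

theorem bcr_after (hd : 3 ≤ d) (δ : ℝ) (hδ : 0 < δ) :
    ∃ β, bcr d ≤ β ∧ β < bcr d + δ ∧ 0 < thW d β := by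
  have hne : {β : ℝ | 0 ≤ β ∧ 0 < thW d β}.Nonempty :=
    ⟨((3 : ℝ) * d) ^ 2 + 1, by positivity, theta_pos hd (by linarith)⟩
  obtain ⟨β, hβ, h2⟩ := Real.lt_sInf_add_pos hne hδ
  exact ⟨β, csInf_le (CB1_bdd d) hβ, h2, hβ.2⟩

end H82.IC

end S_H82_IC_CB1

section S_H82_IC_LX1

/-!
# LX1: Lieb-Simon in the wired box and exponential decay

`GW N = GN d (N+1)` with parameters `tw N = setT (E1 d N (N+1)) (E1 d N (N+1)) τ` (`τ = tanh β` on `bE N`, `1` on the shell).
`rho d β l = ∑_{b ∈ bdry l} phiB β l false (cn 0 b)`.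
* `ls_wired`: `lieb_simon` with `D = {z | nm (z - x) ≤ l}`, `Dd = (bdry l).map (· + x)`, for `nm x + l ≤ N - 1`, `nm y = N`: `y ∉ D`.  A vertex `z ∈ D` with an edge of the graph to a vertex outside `D`
  has `nm (z - x) = l`.  `tp (off (ins D)ᶜ tw) x (x + b)`: the edges inside `D` are in `bE N`, so this parameter is `τ` on the translate `Λ` of `bE l` and `0` elsewhere; by `phiG_free` (with
  `W = ` translate of `bx l`, `N+1` for `N`, `X = cn x (x+b)`) it equals `phiG β W Λ false (cn x (x+b))` (`fkE_conn`; connection in `glue Λ false (vl ω)` is connection of `ω ∩ Λ`, and under these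
  parameters `ω ⊆ Λ` almost surely), and by `phiG_aut` for the translation by `x` it is `phiB β l false (cn 0 b)`.
* `decay_iter`: induction on `j`: if `rho ≤ ρ` (`0 ≤ ρ`), `nm x + j * l + 1 ≤ N`, `nm y = N` then `tp x y ≤ ρ^j`.
* `decay`: all points of `∂Λ_N` are connected by the (open) shell, so `phiB β N true (arm N 0) = tp (tw N) 0 y` for any `y` with `nm y = N` (`phiB_wired`, `shell_conn`, `fkE_setT_supp`), hence
  `phiB β N true (arm N 0) ≤ ρ^j` whenever `j l + 1 ≤ N`; if `ρ < 1` this tends to `0` as `N → ∞`: `thW d β = 0`.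
-/

set_option autoImplicit false

open Finset Filter Topology

namespace H82.IC

variable {d : ℕ}

/-- `∑_{b ∈ ∂Λ_l} ⟨0 b⟩_{Λ_l}`, free boundary condition. -/
noncomputable def rho (d : ℕ) (β : ℝ) (l : ℕ) : ℝ := ∑ b ∈ bdry d l, phiB β l false (cn (0 : Vx d) b)

/-- wired parameters. -/
noncomputable def tw (d : ℕ) (β : ℝ) (N : ℕ) : ↥(bE d (N + 1)) → ℝ :=
  setT (E1 d N (N + 1)) (E1 d N (N + 1)) (fun _ => Real.tanh β)

theorem LX1_T01 {β : ℝ} (hβ : 0 ≤ β) (N : ℕ) : T01 (tw d β N) :=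
  T01_setT (T01_tanh β hβ) _ _

theorem LX1_inner (_hd : 2 ≤ d) {β : ℝ} (hβ : 0 ≤ β) {l N : ℕ} {x : Vx d}
    (hx : nm x + l + 1 ≤ N) (b : Vx d) :
    (GN d (N + 1)).tp (off ((GN d (N + 1)).ins {z | nm (z - x) ≤ l})ᶜ (tw d β N)) x (x + b) =
      phiB β l false (cn (0 : Vx d) b) := by
  classical
  obtain ⟨g, hg1, hg2⟩ := exists_trA x
  have h1 := phiG_aut g β (bx d l) (bE d l) (fun _ => false) (cn (0 : Vx d) b)
  have h2 : phiB β l false (cn (0 : Vx d) b) = phiG β ((bx d l).map g.gV.toEmbedding)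
      ((bE d l).map g.gE.toEmbedding) (fun _ => false) {ω | act g ω ∈ cn (0 : Vx d) b} := h1.symm
  have h3 : {ω : Cf d | act g ω ∈ cn (0 : Vx d) b} = cn x (x + b) := by
    ext ω
    show act g ω ∈ cn (0 : Vx d) b ↔ _
    rw [act_cn, hg1, hg1, zero_add, add_comm b x]
  rw [h3] at h2
  obtain ⟨Λ, hΛdef⟩ : ∃ Λ : Finset (Ed d), Λ = (bE d l).map g.gE.toEmbedding := ⟨_, rfl⟩
  obtain ⟨W, hWdef⟩ : ∃ W : Finset (Vx d), W = (bx d l).map g.gV.toEmbedding := ⟨_, rfl⟩
  rw [← hΛdef, ← hWdef] at h2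
  have hmem : ∀ e : Ed d, e ∈ Λ ↔ nm ((Zl d).s e - x) ≤ l ∧ nm ((Zl d).r e - x) ≤ l := by
    intro e
    rw [hΛdef, Finset.mem_map]
    constructor
    · rintro ⟨e0, he0, rfl⟩
      rw [mem_bE] at he0
      have e1 : (Zl d).s (g.gE e0) - x = (Zl d).s e0 := by
        rw [hg2]
        show e0.1 + x - x = e0.1
        rw [add_sub_cancel_right]
      have e2 : (Zl d).r (g.gE e0) - x = (Zl d).r e0 := by
        rw [hg2]
        show e0.1 + x + Pi.single e0.2 1 - x = e0.1 + Pi.single e0.2 1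
        abel
      change nm ((Zl d).s (g.gE e0) - x) ≤ l ∧ nm ((Zl d).r (g.gE e0) - x) ≤ l
      rw [e1, e2]
      exact he0
    · rintro ⟨h4, h5⟩
      refine ⟨(e.1 - x, e.2), ?_, ?_⟩
      · rw [mem_bE]
        refine ⟨h4, ?_⟩
        have e2 : (Zl d).r ((e.1 - x, e.2) : Ed d) = (Zl d).r e - x := by
          show e.1 - x + Pi.single e.2 1 = e.1 + Pi.single e.2 1 - x
          abel
        rw [e2]
        exact h5
      · show g.gE (e.1 - x, e.2) = e
        rw [hg2]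
        show (e.1 - x + x, e.2) = e
        rw [sub_add_cancel]
  have hnm : ∀ z : Vx d, nm (z - x) ≤ l → nm z ≤ N := by
    intro z hz
    have h4 := nm_add (z - x) x
    rw [sub_add_cancel] at h4
    omega
  have hΛN : Λ ⊆ bE d N := by
    intro e he
    rw [hmem] at he
    rw [mem_bE]
    exact ⟨hnm _ he.1, hnm _ he.2⟩
  have hΛ : Λ ⊆ bE d (N + 1) := hΛN.trans (bE_mono (Nat.le_succ N))
  have hW : ∀ e ∈ Λ, (Zl d).s e ∈ W ∧ (Zl d).r e ∈ W := by
    intro e he
    rw [hmem] at he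
    rw [hWdef, Finset.mem_map, Finset.mem_map]
    refine ⟨⟨(Zl d).s e - x, mem_bx.2 he.1, ?_⟩, ⟨(Zl d).r e - x, mem_bx.2 he.2, ?_⟩⟩
    · show g.gV ((Zl d).s e - x) = (Zl d).s e
      rw [hg1, sub_add_cancel]
    · show g.gV ((Zl d).r e - x) = (Zl d).r e
      rw [hg1, sub_add_cancel]
  have h6 := phiG_free hβ W Λ (N + 1) hW hΛ (cn x (x + b))
  rw [h2, h6, ← fkE_conn]
  have h7 : off ((GN d (N + 1)).ins {z | nm (z - x) ≤ l})ᶜ (tw d β N) =
      setT (sb (bE d (N + 1)) (bE d (N + 1) \ Λ)) ∅ (fun _ => Real.tanh β) := by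
    funext e
    unfold off tw setT
    by_cases he : e.1 ∈ Λ
    · have a1 : e ∉ ((GN d (N + 1)).ins {z | nm (z - x) ≤ l})ᶜ := by
        intro h
        exact h ((hmem e.1).1 he)
      have a2 : e ∉ E1 d N (N + 1) := by
        rw [BR2_mem_E1]
        exact fun h => h (hΛN he)
      have a3 : e ∉ sb (bE d (N + 1)) (bE d (N + 1) \ Λ) := by
        rw [BR2_mem_sb, Finset.mem_sdiff]
        exact fun h => h.2 he
      rw [if_neg a1, if_neg a2, if_neg a2, if_neg (Finset.notMem_empty _), if_neg a3]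
    · have a1 : e ∈ ((GN d (N + 1)).ins {z | nm (z - x) ≤ l})ᶜ := by
        intro h
        exact he ((hmem e.1).2 h)
      have a3 : e ∈ sb (bE d (N + 1)) (bE d (N + 1) \ Λ) := by
        rw [BR2_mem_sb, Finset.mem_sdiff]
        exact ⟨e.2, he⟩
      rw [if_pos a1, if_neg (Finset.notMem_empty _), if_pos a3]
  rw [h7]
  apply fkE_setT_supp _ (T01_tanh β hβ) (Finset.empty_subset _)
  intro ω hω
  have h8 : vl ω ⊆ Λ := by
    intro e he
    rw [BR2_mem_vl] at he
    obtain ⟨h9, h10⟩ := he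
    by_contra hcon
    have h11 : (⟨e, h9⟩ : ↥(bE d (N + 1))) ∈ ω ∩ sb (bE d (N + 1)) (bE d (N + 1) \ Λ) := by
      rw [Finset.mem_inter, BR2_mem_sb, Finset.mem_sdiff]
      exact ⟨h10, h9, hcon⟩
    rw [hω] at h11
    exact Finset.notMem_empty _ h11
  have h9 : (glue Λ (fun _ => false) (vl ω) ∈ cn x (x + b)) =
      (GN d (N + 1)).Conn (ω : Set ↥(bE d (N + 1))) x (x + b) := by
    apply propext
    have e1 : opn (fun _ : Ed d => false) = ∅ := by
      ext e
      simp [opn]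
    show (Zl d).Conn (opn (glue Λ (fun _ => false) (vl ω))) x (x + b) ↔ _
    rw [BR1_opn Λ _ _ h8, e1, Set.empty_sdiff, Set.union_empty]
    exact (conn_rs (Zl d) (bE d (N + 1)) ω x (x + b)).symm
  rw [h9]

theorem ls_wired (hd : 2 ≤ d) {β : ℝ} (hβ : 0 ≤ β) {l N : ℕ} {x y : Vx d}
    (hx : nm x + l + 1 ≤ N) (hy : nm y = N) :
    (GN d (N + 1)).tp (tw d β N) x y ≤
      ∑ b ∈ bdry d l, phiB β l false (cn (0 : Vx d) b) * (GN d (N + 1)).tp (tw d β N) (x + b) y := by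
  have hd1 : 1 ≤ d := by omega
  have h1 := lieb_simon (GN d (N + 1)) (LX1_T01 (d := d) hβ N) {z | nm (z - x) ≤ l}
    ((bdry d l).map (Equiv.addLeft x).toEmbedding) (o := x) (y := y)
    (by
      show nm (x - x) ≤ l
      rw [sub_self, nm_zero]
      exact Nat.zero_le _)
    (by
      intro h
      have h2 : nm (y - x) ≤ l := h
      have h4 := nm_add (y - x) x
      rw [sub_add_cancel] at h4
      omega)
    (by
      intro z hz e he
      have hz' : nm (z - x) ≤ l := hz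
      have hadj : Zadj ((Zl d).s e.1) ((Zl d).r e.1) := ⟨e.1.2, Or.inl rfl⟩
      have hadj' : Zadj ((Zl d).r e.1) ((Zl d).s e.1) := ⟨e.1.2, Or.inr rfl⟩
      have hsh : ∀ a c : Vx d, Zadj a c → Zadj (a - x) (c - x) := by
        rintro a c ⟨i, h | h⟩
        · exact ⟨i, Or.inl (by rw [h]; abel)⟩
        · exact ⟨i, Or.inr (by rw [h]; abel)⟩
      have key : ∃ w : Vx d, Zadj z w ∧ ¬ nm (w - x) ≤ l := by
        rcases he with ⟨h2, h3⟩ | ⟨h2, h3⟩
        · refine ⟨(Zl d).r e.1, ?_, h3⟩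
          rw [← h2]
          exact hadj
        · refine ⟨(Zl d).s e.1, ?_, h3⟩
          rw [← h2]
          exact hadj'
      obtain ⟨w, hw1, hw2⟩ := key
      have h5 := G1_zadj (hsh _ _ hw1)
      rw [Finset.mem_map]
      refine ⟨z - x, (mem_bdry hd1).2 (by omega), ?_⟩
      show x + (z - x) = z
      abel)
  rw [Finset.sum_map] at h1
  refine h1.trans (le_of_eq (Finset.sum_congr rfl fun b _ => ?_))
  show (GN d (N + 1)).tp (off ((GN d (N + 1)).ins {z | nm (z - x) ≤ l})ᶜ (tw d β N)) x (x + b) *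
      (GN d (N + 1)).tp (tw d β N) (x + b) y = _
  rw [LX1_inner hd hβ hx b]

theorem LX1_rho_nonneg {β : ℝ} (hβ : 0 ≤ β) (l : ℕ) : 0 ≤ rho d β l :=
  Finset.sum_nonneg fun _ _ => phiB_nonneg hβ _ _ _

theorem decay_iter (hd : 2 ≤ d) {β : ℝ} (hβ : 0 ≤ β) {l N : ℕ} (j : ℕ) {x y : Vx d}
    (hx : nm x + j * l + 1 ≤ N) (hy : nm y = N) :
    (GN d (N + 1)).tp (tw d β N) x y ≤ (rho d β l) ^ j := by
  have hd1 : 1 ≤ d := by omega
  induction j generalizing x with
  | zero =>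
    rw [pow_zero]
    exact tp_le_one _ (LX1_T01 hβ N) _ _
  | succ j ih =>
    have e0 : (j + 1) * l = j * l + l := by ring
    rw [e0] at hx
    refine (ls_wired hd hβ (l := l) (by omega) hy).trans ?_
    rw [pow_succ', rho, Finset.sum_mul]
    refine Finset.sum_le_sum fun b hb => ?_
    have hb' := (mem_bdry hd1).1 hb
    have h1 := nm_add x b
    exact mul_le_mul_of_nonneg_left (ih (by omega)) (phiB_nonneg hβ _ _ _)

theorem LX1_arm (hd : 2 ≤ d) {β : ℝ} (hβ : 0 ≤ β) (N : ℕ) {y : Vx d} (hy : nm y = N) :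
    phiB β N true (arm N (0 : Vx d)) = (GN d (N + 1)).tp (tw d β N) 0 y := by
  have hd1 : 1 ≤ d := by omega
  rw [phiB_wired hd hβ (le_refl (N + 1)) (arm N (0 : Vx d)), ← fkE_conn]
  apply fkE_setT_supp _ (T01_tanh β hβ) (Finset.Subset.refl _)
  intro ω hω
  have hsub : ∀ e : Ed d, e ∈ bE d (N + 1) → e ∉ bE d N → e ∈ vl ω := by
    intro e he1 he2
    rw [BR2_mem_vl]
    refine ⟨he1, ?_⟩
    have h1 : (⟨e, he1⟩ : ↥(bE d (N + 1))) ∈ E1 d N (N + 1) := by
      rw [BR2_mem_E1]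
      exact he2
    rw [← hω] at h1
    exact (Finset.mem_inter.1 h1).1
  have h9 : (ext true N (N + 1) ω ∈ arm N (0 : Vx d)) =
      (GN d (N + 1)).Conn (ω : Set ↥(bE d (N + 1))) 0 y := by
    apply propext
    have h10 : (GN d (N + 1)).Conn (ω : Set ↥(bE d (N + 1))) 0 y ↔
        (Zl d).Conn (vl ω : Set (Ed d)) 0 y := conn_rs (Zl d) (bE d (N + 1)) ω 0 y
    rw [h10]
    constructor
    · rintro ⟨b, hb, hc⟩
      have hb' := (mem_bdry hd1).1 hb
      obtain ⟨b', hb1, hb2⟩ := exit_box hd1 (n := N) (by rw [nm_zero]; exact Nat.zero_le _)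
        (by omega) hc
      have hb1' := (mem_bdry hd1).1 hb1
      refine conn_trans _ (conn_mono _ ?_ hb2) (conn_mono _ ?_ (shell_conn hd hb1' hy))
      · rintro e ⟨he1, he2⟩
        have he3 : e ∈ bE d N := he2
        have he4 : glue (bE d N) (fun _ => true) (vl ω) e = true := he1
        unfold glue at he4
        rw [if_pos he3] at he4
        exact of_decide_eq_true he4
      · rintro e ⟨he1, he2⟩
        exact hsub e he1 he2
    · intro hc
      refine ⟨y, (mem_bdry hd1).2 hy, conn_mono _ ?_ hc⟩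
      intro e he
      show glue (bE d N) (fun _ => true) (vl ω) e = true
      unfold glue
      split_ifs
      · exact decide_eq_true he
      · rfl
  rw [h9]

theorem decay (hd : 2 ≤ d) {β : ℝ} (hβ : 0 ≤ β) (l : ℕ) (h : rho d β l < 1) : thW d β = 0 := by
  have hd1 : 1 ≤ d := by omega
  have h0 := LX1_rho_nonneg (d := d) hβ l
  have h1 : ∀ j : ℕ, thW d β ≤ rho d β l ^ j := by
    intro j
    have h2 : thW d β ≤ phiB β (j * l + 1) true (arm (j * l + 1) (0 : Vx d)) := by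
      refine ciInf_le ⟨0, ?_⟩ (j * l + 1)
      rintro _ ⟨n, rfl⟩
      exact phiB_nonneg hβ _ _ _
    obtain ⟨y, hy⟩ : ∃ y : Vx d, nm y = j * l + 1 := by
      refine ⟨fun _ => ((j * l + 1 : ℕ) : ℤ), ?_⟩
      have hne : (univ : Finset (Fin d)).Nonempty := ⟨⟨0, hd1⟩, mem_univ _⟩
      unfold nm
      rw [Finset.sup_const hne]
      exact Int.natAbs_natCast _
    rw [LX1_arm hd hβ _ hy] at h2
    refine h2.trans (decay_iter hd hβ j ?_ hy)
    rw [nm_zero]
    omega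
  have h3 : thW d β ≤ 0 :=
    ge_of_tendsto' (tendsto_pow_atTop_nhds_zero_of_lt_one h0 h) h1
  have h4 : 0 ≤ thW d β := Real.iInf_nonneg fun n => phiB_nonneg hβ _ _ _
  exact le_antisymm h3 h4

end H82.IC

end S_H82_IC_LX1
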