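import Mathlib
import Pool.Agent.H82.ICM.G07

/-! MP_c4c051_pr: this file joins several modules to save build time. -/

section S_H82_IC_SRG

/-!
# SRG: shift regularity (pure counting from the `Mms` properties)

`fG G L = ∑_{x ∈ bx L} G x`.
* `line`: for `i`, `L`: `∑_{v ∈ bx L} |G (v + e_i) - G v| ≤ 2 ∑_{v ∈ bx L, v i = 0} G v`: sum over lines in direction `i`: `k ↦ G (update v i k)` is even and nonincreasing in `|k|` (`mono`), so the sum over `k ∈ [-L, L]` of
  the absolute increments telescopes to at most `2 G (update v i 0)`.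
* `hyper`: for `J ≥ 1`: `∑_{v ∈ bx L, v i = 0} G v ≤ (d/J) fG L + fG (2J)`.  Points with `nm v ≤ 2J` are in `bx (2J)`.  For `v` with `v i = 0`, `nm v > 2J`, let `k` be a coordinate with `|v k| = nm v`, `k ≠ i`, `s = sign (v k)`.
  For `j = 1..J`: `w = update (update v k (v k - s j)) i j` has `G v ≤ G w` (if `s = 1`: `transfer` from `k` to `i` with amount `j ≤ v k - 0`; if `s = -1` use `mono` to flip the sign of coordinate `k` before and
  after), `w ∈ bx L`.  For fixed `k` and `s` the map `(v, j) ↦ w` is injective (`j = w i`).  The sum over `(v, j)`: `J ∑_{v} G v ≤ ∑_{k} ∑_w G w ≤ d fG L` (for given `k`, the signs `s = ±1` give disjoint images since `w k` has the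
  sign `s`: `|v k| > 2J ≥ j`).
* `shift_reg`: for `u : ℤ^d`, `δ > 0`, if `G` is not summable: for all large `L`: `∑_{v ∈ bx L} |G (v - u) - G v| ≤ δ fG L`: write `u` as a sum of `m = ∑ |u i|` unit steps (`± e_i`); each step costs
  `∑_{v ∈ bx L} |G(v - w - (±e_i)) - G (v - w)| ≤ ∑_{v' ∈ bx (L + m)} |G (v' ∓ e_i) - G v'| ≤ 2 max_i ∑_{v ∈ bx (L+m+1), v i = 0} G v =: 2 H`.  Bound: `H ≤ (d/J) fG (L + m + 1) + fG (2J)`; and `fG (L+m+1) ≤ 3^d fG L`-type bound:
  `fG (2L) ≤ C_d fG L` by monotonicity (`mono`: the map `v ↦ (round toward 0 of v i / 2)` raises `G` and is at most `3^d`-to-one from `bx (2L)` to `bx L`), valid as `L + m + 1 ≤ 2L`.  Choose `J` large, then `L` large (`fG L → ∞`).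
-/

set_option autoImplicit false

open Finset Filter Topology

namespace H82.IC

variable {d : ℕ}

theorem SRG_inj {α β : Type*} (s : Finset α) (t : Finset β) (f : α → β) (g : β → ℝ) (h : α → ℝ)
    (hm : ∀ a ∈ s, f a ∈ t) (hinj : ∀ a ∈ s, ∀ a' ∈ s, f a = f a' → a = a')
    (hg : ∀ b ∈ t, 0 ≤ g b) (hh : ∀ a ∈ s, h a ≤ g (f a)) :
    ∑ a ∈ s, h a ≤ ∑ b ∈ t, g b := by
  classical
  calc ∑ a ∈ s, h a ≤ ∑ a ∈ s, g (f a) := sum_le_sum hh
    _ = ∑ b ∈ s.image f, g b := (sum_image (fun a ha a' ha' e => hinj a ha a' ha' e)).symm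
    _ ≤ ∑ b ∈ t, g b :=
      sum_le_sum_of_subset_of_nonneg (image_subset_iff.2 hm) (fun b hb _ => hg b hb)

theorem SRG_one (g : ℤ → ℝ) (hg : ∀ a b : ℤ, |b| ≤ |a| → g a ≤ g b) (L : ℕ) :
    ∑ k ∈ Icc (-(L : ℤ)) L, |g (k + 1) - g k| = 2 * g 0 - g ((L : ℤ) + 1) - g L := by
  have hev : ∀ a, g (-a) = g a := fun a =>
    le_antisymm (hg _ _ (by simp)) (hg _ _ (by simp))
  have hdec : ∀ a : ℤ, 0 ≤ a → g (a + 1) ≤ g a := by
    intro a ha
    refine hg _ _ ?_
    rw [abs_of_nonneg ha, abs_of_nonneg (by omega)]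
    omega
  induction L with
  | zero =>
    have h0 := hdec 0 le_rfl
    rw [zero_add] at h0
    simp only [Nat.cast_zero, neg_zero, Icc_self, sum_singleton, zero_add]
    rw [abs_of_nonpos (by linarith)]
    ring
  | succ L ih =>
    have h1 : Icc (-((L + 1 : ℕ) : ℤ)) ((L + 1 : ℕ) : ℤ) =
        insert ((L : ℤ) + 1) (insert (-((L : ℤ) + 1)) (Icc (-(L : ℤ)) L)) := by
      ext k
      simp only [mem_insert, mem_Icc]
      push_cast
      omega
    have n1 : ((L : ℤ) + 1) ∉ insert (-((L : ℤ) + 1)) (Icc (-(L : ℤ)) L) := by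
      simp only [mem_insert, mem_Icc]
      omega
    have n2 : (-((L : ℤ) + 1)) ∉ Icc (-(L : ℤ)) L := by
      simp only [mem_Icc]
      omega
    rw [h1, sum_insert n1, sum_insert n2, ih]
    have e1 : |g ((L : ℤ) + 1 + 1) - g ((L : ℤ) + 1)| = g ((L : ℤ) + 1) - g ((L : ℤ) + 1 + 1) := by
      have := hdec ((L : ℤ) + 1) (by omega)
      rw [abs_of_nonpos (by linarith)]
      ring
    have e2 : |g (-((L : ℤ) + 1) + 1) - g (-((L : ℤ) + 1))| = g L - g ((L : ℤ) + 1) := by
      have e3 : -((L : ℤ) + 1) + 1 = -(L : ℤ) := by ring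
      have := hdec (L : ℤ) (by omega)
      rw [e3, hev, hev, abs_of_nonneg (by linarith)]
    rw [e1, e2]
    push_cast
    ring

theorem SRG_line (i : Fin d) (L : ℕ) (f : Vx d → ℝ) :
    ∑ v ∈ bx d L, f v = ∑ w ∈ (bx d L).filter (fun w => w i = 0),
      ∑ k ∈ Icc (-(L : ℤ)) L, f (Function.update w i k) := by
  rw [← sum_product']
  refine sum_nbij' (fun v => (Function.update v i 0, v i))
    (fun p => Function.update p.1 i p.2) ?_ ?_ ?_ ?_ ?_
  · intro v hv
    rw [mem_bx_abs] at hv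
    simp only [mem_product, mem_filter, mem_bx_abs, mem_Icc, Function.update_self, and_true]
    refine ⟨fun j => ?_, abs_le.1 (hv i)⟩
    by_cases hj : j = i
    · subst hj
      simp
    · rw [Function.update_of_ne hj]
      exact hv j
  · rintro ⟨w, k⟩ hp
    simp only [mem_product, mem_filter, mem_bx_abs, mem_Icc] at hp
    rw [mem_bx_abs]
    intro j
    by_cases hj : j = i
    · subst hj
      simp only [Function.update_self]
      exact abs_le.2 hp.2
    · simp only [Function.update_of_ne hj]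
      exact hp.1.1 j
  · intro v _
    simp
  · rintro ⟨w, k⟩ hp
    simp only [mem_product, mem_filter] at hp
    have : Function.update w i 0 = w := by
      rw [← hp.1.2]
      exact Function.update_eq_self i w
    simp [this]
  · intro v _
    simp

/-- sum over the hyperplane -/
noncomputable def SRG_H (G : Vx d → ℝ) (i : Fin d) (L : ℕ) : ℝ :=
  ∑ w ∈ (bx d L).filter (fun w => w i = 0), G w

theorem SRG_shift1 (G : Vx d → ℝ) (hG : Mms G) (i : Fin d) (L : ℕ) :
    ∑ v ∈ bx d L, |G (v + Pi.single i 1) - G v| ≤ 2 * SRG_H G i L := by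
  rw [SRG_line i L, SRG_H, mul_sum]
  refine sum_le_sum fun w hw => ?_
  rw [mem_filter] at hw
  have h0 : Function.update w i 0 = w := by
    rw [← hw.2]
    exact Function.update_eq_self i w
  have h1 : ∀ k : ℤ, Function.update w i k + Pi.single i 1 = Function.update w i (k + 1) := by
    intro k
    ext j
    by_cases hj : j = i
    · subst hj
      simp
    · simp [hj]
  simp_rw [h1]
  have h2 := SRG_one (fun k => G (Function.update w i k)) (by
    intro a b hab
    have := hG.mono (Function.update w i a) i b (by simpa using hab)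
    simpa using this) L
  rw [h2, h0]
  have h3 := hG.nonneg (Function.update w i ((L : ℤ) + 1))
  have h4 := hG.nonneg (Function.update w i (L : ℤ))
  linarith

theorem SRG_tr (G : Vx d → ℝ) (hG : Mms G) (i k : Fin d) (w : Vx d) (j : ℤ) (hki : k ≠ i)
    (hw : w i = 0) (hj : 0 ≤ j) (hk : j ≤ |w k|) :
    G w ≤ G (Function.update (Function.update w k (if 0 < w k then w k - j else w k + j)) i j) := by
  split_ifs with h
  · have h1 := hG.transfer w k i j hki hj (by rw [hw, sub_zero]; rwa [abs_of_pos h] at hk)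
    rwa [hw, zero_add] at h1
  · have h0 : w k ≤ 0 := not_lt.1 h
    rw [abs_of_nonpos h0] at hk
    have h1 : G w ≤ G (Function.update w k (-(w k))) := hG.mono w k _ (by rw [abs_neg])
    have h2 := hG.transfer (Function.update w k (-(w k))) k i j hki hj (by
      rw [Function.update_self, Function.update_of_ne hki.symm, hw, sub_zero]
      exact hk)
    rw [Function.update_self, Function.update_of_ne hki.symm, hw, zero_add,
      Function.update_idem] at h2
    have h3 := hG.mono (Function.update (Function.update w k (-(w k) - j)) i j) k (w k + j) (by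
      rw [Function.update_of_ne hki, Function.update_self]
      have : -(w k) - j = -(w k + j) := by ring
      rw [this, abs_neg])
    have h4 : Function.update (Function.update (Function.update w k (-(w k) - j)) i j) k
        (w k + j) = Function.update (Function.update w k (w k + j)) i j := by
      rw [Function.update_comm hki.symm, Function.update_idem]
    rw [h4] at h3
    exact (h1.trans h2).trans h3

theorem SRG_k (G : Vx d → ℝ) (hG : Mms G) (i k : Fin d) (L J : ℕ) :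
    (J : ℝ) * ∑ w ∈ (bx d L).filter (fun w => w i = 0 ∧ 2 * (J : ℤ) < |w k|), G w ≤ fG G L := by
  have h0 : (J : ℝ) * ∑ w ∈ (bx d L).filter (fun w => w i = 0 ∧ 2 * (J : ℤ) < |w k|), G w =
      ∑ p ∈ ((bx d L).filter (fun w => w i = 0 ∧ 2 * (J : ℤ) < |w k|)) ×ˢ Icc (1 : ℤ) J,
        G p.1 := by
    rw [sum_product, mul_sum]
    refine sum_congr rfl fun w _ => ?_
    show (J : ℝ) * G w = ∑ y ∈ Icc (1 : ℤ) J, G w
    rw [sum_const, Int.card_Icc, nsmul_eq_mul]
    congr 2
    omega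
  rw [h0]
  unfold fG
  refine SRG_inj _ _ (fun p => Function.update (Function.update p.1 k
    (if 0 < p.1 k then p.1 k - p.2 else p.1 k + p.2)) i p.2) G _ ?_ ?_ (fun b _ => hG.nonneg b) ?_
  · rintro ⟨w, j⟩ hp
    simp only [mem_product, mem_filter, mem_bx_abs, mem_Icc] at hp
    obtain ⟨⟨hw, hwi, hwk⟩, hj1, hj2⟩ := hp
    rw [mem_bx_abs]
    intro l
    have hk := hw k
    by_cases hl : l = i
    · subst hl
      simp only [Function.update_self]
      rw [abs_of_nonneg (by omega)]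
      omega
    · simp only [Function.update_of_ne hl]
      by_cases hlk : l = k
      · subst hlk
        simp only [Function.update_self]
        rw [abs_le] at hk ⊢
        rcases abs_cases (w l) with ⟨h, h'⟩ | ⟨h, h'⟩ <;> split_ifs <;> constructor <;> omega
      · simp only [Function.update_of_ne hlk]
        exact hw l
  · rintro ⟨w, j⟩ hp ⟨w', j'⟩ hp' he
    simp only [mem_product, mem_filter, mem_bx_abs, mem_Icc] at hp hp'
    obtain ⟨⟨hw, hwi, hwk⟩, hj1, hj2⟩ := hp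
    obtain ⟨⟨hw', hwi', hwk'⟩, hj1', hj2'⟩ := hp'
    simp only at he
    have hki : k ≠ i := by
      rintro rfl
      rw [hwi, abs_zero] at hwk
      omega
    have hjj : j = j' := by
      have := congrFun he i
      simpa using this
    subst hjj
    have hkk : w k = w' k := by
      have := congrFun he k
      rw [Function.update_of_ne hki, Function.update_of_ne hki, Function.update_self,
        Function.update_self] at this
      rcases abs_cases (w k) with ⟨h, h'⟩ | ⟨h, h'⟩ <;>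
        rcases abs_cases (w' k) with ⟨h1, h1'⟩ | ⟨h1, h1'⟩ <;> split_ifs at this <;> omega
    have hww : w = w' := by
      funext l
      by_cases hl : l = i
      · rw [hl, hwi, hwi']
      · by_cases hlk : l = k
        · rw [hlk, hkk]
        · have := congrFun he l
          rwa [Function.update_of_ne hl, Function.update_of_ne hl, Function.update_of_ne hlk,
            Function.update_of_ne hlk] at this
    rw [hww]
  · rintro ⟨w, j⟩ hp
    simp only [mem_product, mem_filter, mem_bx_abs, mem_Icc] at hp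
    obtain ⟨⟨hw, hwi, hwk⟩, hj1, hj2⟩ := hp
    have hki : k ≠ i := by
      rintro rfl
      rw [hwi, abs_zero] at hwk
      omega
    exact SRG_tr G hG i k w j hki hwi (by omega) (by omega)

theorem SRG_hyper (G : Vx d → ℝ) (hG : Mms G) (i : Fin d) (L J : ℕ) (hJ : 0 < J) :
    SRG_H G i L ≤ (d : ℝ) / J * fG G L + fG G (2 * J) := by
  have hJ' : (0 : ℝ) < J := by exact_mod_cast hJ
  have h1 : ∀ w ∈ (bx d L).filter (fun w => w i = 0), G w ≤
      (if w ∈ bx d (2 * J) then G w else 0) +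
        ∑ k : Fin d, (if 2 * (J : ℤ) < |w k| then G w else 0) := by
    intro w _
    by_cases hw : w ∈ bx d (2 * J)
    · rw [if_pos hw]
      have : 0 ≤ ∑ k : Fin d, (if 2 * (J : ℤ) < |w k| then G w else 0) :=
        sum_nonneg fun k _ => by split_ifs; exacts [hG.nonneg w, le_rfl]
      linarith
    · rw [if_neg hw, zero_add]
      rw [mem_bx_abs] at hw
      push Not at hw
      obtain ⟨k, hk⟩ := hw
      push_cast at hk
      have h2 : (if 2 * (J : ℤ) < |w k| then G w else 0) = G w := if_pos hk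
      have h3 := single_le_sum (f := fun k => if 2 * (J : ℤ) < |w k| then G w else 0)
        (fun k _ => by
          show 0 ≤ if 2 * (J : ℤ) < |w k| then G w else 0
          split_ifs
          exacts [hG.nonneg w, le_rfl]) (mem_univ k)
      exact h2.symm.le.trans h3
  unfold SRG_H
  refine (sum_le_sum h1).trans ?_
  rw [sum_add_distrib, sum_comm]
  have h2 : ∑ w ∈ (bx d L).filter (fun w => w i = 0), (if w ∈ bx d (2 * J) then G w else 0) ≤
      fG G (2 * J) := by
    rw [← sum_filter]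
    unfold fG
    refine sum_le_sum_of_subset_of_nonneg ?_ (fun v _ _ => hG.nonneg v)
    intro w hw
    exact (mem_filter.1 hw).2
  have h3 : ∑ k : Fin d, ∑ w ∈ (bx d L).filter (fun w => w i = 0),
      (if 2 * (J : ℤ) < |w k| then G w else 0) ≤ (d : ℝ) / J * fG G L := by
    have h4 : ∀ k ∈ (univ : Finset (Fin d)), ∑ w ∈ (bx d L).filter (fun w => w i = 0),
        (if 2 * (J : ℤ) < |w k| then G w else 0) ≤ fG G L / J := by
      intro k _
      rw [← sum_filter, filter_filter, le_div_iff₀' hJ']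
      exact SRG_k G hG i k L J
    refine (sum_le_sum h4).trans ?_
    rw [sum_const, card_univ, Fintype.card_fin, nsmul_eq_mul]
    apply le_of_eq
    ring
  linarith

theorem SRG_mono_all (G : Vx d → ℝ) (hG : Mms G) (z w : Vx d) (h : ∀ i, |w i| ≤ |z i|) :
    G z ≤ G w := by
  classical
  have key : ∀ s : Finset (Fin d), G z ≤ G (fun i => if i ∈ s then w i else z i) := by
    intro s
    induction s using Finset.induction_on with
    | empty => simp
    | insert a s ha ih =>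
      refine ih.trans ?_
      have h1 := hG.mono (fun i => if i ∈ s then w i else z i) a (w a) (by
        simp only [if_neg ha]
        exact h a)
      refine h1.trans_eq ?_
      congr 1
      funext j
      by_cases hj : j = a
      · subst hj
        simp
      · rw [Function.update_of_ne hj]
        simp [hj]
  have := key univ
  simpa using this

theorem SRG_clamp (G : Vx d → ℝ) (hG : Mms G) (L M : ℕ) :
    fG G (L + M) ≤ ((bx d M).card : ℝ) * fG G L := by
  have h0 : ((bx d M).card : ℝ) * fG G L = ∑ p ∈ (bx d L) ×ˢ (bx d M), G p.1 := by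
    rw [sum_product]
    simp only [sum_const, nsmul_eq_mul]
    rw [← mul_sum]
    rfl
  rw [h0]
  have hc : ∀ v ∈ bx d (L + M), ∀ i, |max (-(L : ℤ)) (min L (v i))| ≤ L ∧
      |v i - max (-(L : ℤ)) (min L (v i))| ≤ M ∧ |max (-(L : ℤ)) (min L (v i))| ≤ |v i| := by
    intro v hv i
    rw [mem_bx_abs] at hv
    have h1 := hv i
    push_cast at h1
    rw [abs_le] at h1
    refine ⟨?_, ?_, ?_⟩
    · rw [abs_le]; omega
    · rw [abs_le]; omega
    · rcases abs_cases (v i) with ⟨h, h'⟩ | ⟨h, h'⟩ <;> rw [h, abs_le] <;> omega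
  refine SRG_inj _ _ (fun v => (fun i => max (-(L : ℤ)) (min L (v i)),
    fun i => v i - max (-(L : ℤ)) (min L (v i)))) (fun p => G p.1) _ ?_ ?_
    (fun b _ => hG.nonneg b.1) ?_
  · intro v hv
    rw [mem_product, mem_bx_abs, mem_bx_abs]
    exact ⟨fun i => (hc v hv i).1, fun i => (hc v hv i).2.1⟩
  · intro v _ v' _ he
    have e1 := congrArg Prod.fst he
    have e2 := congrArg Prod.snd he
    funext i
    have e3 := congrFun e1 i
    have e4 := congrFun e2 i
    simp only at e3 e4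
    rw [e3] at e4
    linarith
  · intro v hv
    exact SRG_mono_all G hG v _ (fun i => (hc v hv i).2.2)

/-- shift regularity in direction `u` -/
def SRG_P (G : Vx d → ℝ) (u : Vx d) : Prop :=
  ∀ δ : ℝ, 0 < δ → ∃ L0 : ℕ, ∀ L, L0 ≤ L → ∑ v ∈ bx d L, |G (v - u) - G v| ≤ δ * fG G L

theorem SRG_move (F : Vx d → ℝ) (hF : ∀ v, 0 ≤ F v) (u : Vx d) (L : ℕ) :
    ∑ v ∈ bx d L, F (v - u) ≤ ∑ v ∈ bx d (L + nm u), F v := by
  refine SRG_inj _ _ (fun v => v - u) F _ ?_ ?_ (fun b _ => hF b) (fun a _ => le_rfl)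
  · intro v hv
    rw [mem_bx] at hv ⊢
    exact (nm_sub v u).trans (by omega)
  · intro v _ v' _ he
    exact sub_left_injective he

theorem SRG_card_pos (M : ℕ) : (0 : ℝ) < (bx d M).card := by
  rw [card_bx]
  positivity

theorem SRG_fG_nonneg {G : Vx d → ℝ} (hG : Mms G) (L : ℕ) : 0 ≤ fG G L :=
  sum_nonneg fun v _ => hG.nonneg v

theorem SRG_P_far {G : Vx d → ℝ} (hG : Mms G) {u : Vx d} (h : SRG_P G u) (M : ℕ) (δ : ℝ)
    (hδ : 0 < δ) : ∃ L0 : ℕ, ∀ L, L0 ≤ L →
      ∑ v ∈ bx d (L + M), |G (v - u) - G v| ≤ δ * fG G L := by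
  obtain ⟨L0, hL0⟩ := h (δ / (bx d M).card) (div_pos hδ (SRG_card_pos M))
  refine ⟨L0, fun L hL => ?_⟩
  have h1 := hL0 (L + M) (by omega)
  have h2 := SRG_clamp G hG L M
  have hc := SRG_card_pos (d := d) M
  refine h1.trans ?_
  calc δ / (bx d M).card * fG G (L + M) ≤ δ / (bx d M).card * ((bx d M).card * fG G L) :=
        mul_le_mul_of_nonneg_left h2 (by positivity)
    _ = δ * fG G L := by field_simp

theorem SRG_P_add {G : Vx d → ℝ} (hG : Mms G) {u u' : Vx d} (h : SRG_P G u) (h' : SRG_P G u') :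
    SRG_P G (u + u') := by
  intro δ hδ
  obtain ⟨L1, hL1⟩ := h (δ / 2) (by positivity)
  obtain ⟨L2, hL2⟩ := SRG_P_far hG h' (nm u) (δ / 2) (by positivity)
  refine ⟨max L1 L2, fun L hL => ?_⟩
  have h1 := hL1 L (by omega)
  have h2 := hL2 L (by omega)
  have h3 := SRG_move (fun v => |G (v - u') - G v|) (fun v => abs_nonneg _) u L
  have h4 : ∑ v ∈ bx d L, |G (v - (u + u')) - G v| ≤
      ∑ v ∈ bx d L, |G (v - u - u') - G (v - u)| + ∑ v ∈ bx d L, |G (v - u) - G v| := by
    rw [← sum_add_distrib]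
    refine sum_le_sum fun v _ => ?_
    rw [← sub_sub]
    exact abs_sub_le _ _ _
  linarith

theorem SRG_P_neg {G : Vx d → ℝ} (hG : Mms G) {u : Vx d} (h : SRG_P G u) : SRG_P G (-u) := by
  intro δ hδ
  obtain ⟨L0, hL0⟩ := SRG_P_far hG h (nm (-u)) δ hδ
  refine ⟨L0, fun L hL => ?_⟩
  refine le_trans ?_ (hL0 L hL)
  refine le_trans (le_of_eq ?_) (SRG_move (fun v => |G (v - u) - G v|) (fun v => abs_nonneg _)
    (-u) L)
  refine sum_congr rfl fun v _ => ?_
  rw [sub_neg_eq_add, add_sub_cancel_right, abs_sub_comm]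

theorem SRG_P_single {G : Vx d → ℝ} (hG : Mms G) (hs : ¬ Summable G) (i : Fin d) :
    SRG_P G (-(Pi.single i 1)) := by
  intro δ hδ
  obtain ⟨J, hJ⟩ := exists_nat_gt (4 * d / δ)
  have hJ0 : (0 : ℝ) < J + 1 := by positivity
  obtain ⟨n, hn⟩ := SC_unb hG.nonneg hs (4 * fG G (2 * (J + 1)) / δ)
  refine ⟨n, fun L hL => ?_⟩
  have h1 := SRG_shift1 G hG i L
  have h2 := SRG_hyper G hG i L (J + 1) (Nat.succ_pos J)
  have h3 : fG G n ≤ fG G L := SC_mono hG.nonneg hL
  have h4 : 4 * fG G (2 * (J + 1)) < δ * fG G L := by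
    rw [div_lt_iff₀ hδ] at hn
    nlinarith
  have h5 : (d : ℝ) / ((J + 1 : ℕ) : ℝ) ≤ δ / 4 := by
    push_cast
    rw [div_lt_iff₀ hδ] at hJ
    rw [div_le_iff₀ hJ0]
    nlinarith
  have h6 := mul_le_mul_of_nonneg_right h5 (SRG_fG_nonneg hG L)
  have h7 : ∑ v ∈ bx d L, |G (v - -(Pi.single i 1)) - G v| =
      ∑ v ∈ bx d L, |G (v + Pi.single i 1) - G v| := by
    refine sum_congr rfl fun v _ => ?_
    rw [sub_neg_eq_add]
  rw [h7]
  linarith

theorem shift_reg (hd : 2 ≤ d) (G : Vx d → ℝ) (hG : Mms G) (hs : ¬ Summable G) (u : Vx d) (δ : ℝ)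
    (hδ : 0 < δ) :
    ∃ L0 : ℕ, ∀ L, L0 ≤ L → ∑ v ∈ bx d L, |G (v - u) - G v| ≤ δ * fG G L := by
  have hzero : SRG_P G 0 := by
    intro δ hδ
    refine ⟨0, fun L _ => ?_⟩
    simp only [sub_zero, sub_self, abs_zero, sum_const_zero]
    exact mul_nonneg hδ.le (SRG_fG_nonneg hG L)
  obtain ⟨A, hA⟩ : ∃ A : AddSubgroup (Vx d), ∀ x, x ∈ A ↔ SRG_P G x :=
    ⟨{ carrier := {x | SRG_P G x}
       zero_mem' := hzero
       add_mem' := fun ha hb => SRG_P_add hG ha hb
       neg_mem' := fun ha => SRG_P_neg hG ha }, fun x => Iff.rfl⟩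
  have h1 : ∀ i : Fin d, (Pi.single i 1 : Vx d) ∈ A := by
    intro i
    have h := (hA _).2 (SRG_P_single hG hs i)
    have h' := A.neg_mem h
    rwa [neg_neg] at h'
  have h2 : u ∈ A := by
    rw [← univ_sum_single u]
    refine sum_mem fun i _ => ?_
    have h3 : (Pi.single i (u i) : Vx d) = u i • (Pi.single i 1 : Vx d) := by
      rw [← Pi.single_smul, smul_eq_mul, mul_one]
    rw [h3]
    exact A.zsmul_mem (h1 i) _
  exact (hA u).1 h2 δ hδ

end H82.IC

end S_H82_IC_SRG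

section S_H82_IC_SC2

/-!
# SC2: scales with shift regularity

Same construction as `scales` in SC.lean (copy its step lemma), with the additional requirement `P (L t) (L (t+1))` where `P L' L` is a property which for every `L'` holds for all large `L`
(in each step `L` can be chosen arbitrarily large: the candidates are `L ∈ [R, 2R]` with `R = 4^j` arbitrarily large).
`Sca2`: `Sca` together with `shr`: `∑_{v ∈ bx (L (t+1))} |G (v - u) - G v| ≤ δ fG (L (t+1))` for all `u ∈ bx (L t)`.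
`exists_sca2`: take `P L' L := ∀ u ∈ bx L', ∑_{v ∈ bx L} |G (v-u) - G v| ≤ δ fG L` (`shift_reg` for the finitely many `u ∈ bx L'`).
-/

set_option autoImplicit false

open Finset Filter Topology

namespace H82.IC

variable {d : ℕ}

structure Sca2 {d : ℕ} (G : Vx d → ℝ) (δ : ℝ) (l L : ℕ → ℕ) : Prop extends Sca G δ l L where
  shr : ∀ t, ∀ u ∈ bx d (L t), ∑ v ∈ bx d (L (t + 1)), |G (v - u) - G v| ≤ δ * fG G (L (t + 1))

theorem SC2_thr (hd : 2 ≤ d) (G : Vx d → ℝ) (hG : Mms G) (hs : ¬ Summable G) (δ : ℝ) (hδ : 0 < δ)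
    (L' : ℕ) :
    ∃ N : ℕ, ∀ L, N ≤ L → ∀ u ∈ bx d L', ∑ v ∈ bx d L, |G (v - u) - G v| ≤ δ * fG G L := by
  have h := fun u : Vx d => shift_reg hd G hG hs u δ hδ
  choose N hN using h
  refine ⟨(bx d L').sup N, fun L hL u hu => hN u L ?_⟩
  exact le_trans (Finset.le_sup (f := N) hu) hL

theorem exists_sca2 (hd : 2 ≤ d) (G : Vx d → ℝ) (hG : Mms G) (hlim : Tendsto G cofinite (𝓝 0))
    (hs : ¬ Summable G) (δ : ℝ) (hδ : 0 < δ) (hδ1 : δ < 1) (l0 : ℕ) :
    ∃ l L : ℕ → ℕ, (∀ t, l0 ≤ l t) ∧ Sca2 G δ l L := by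
  have h0 : ∀ x, 0 ≤ G x := hG.nonneg
  have h1 : ∀ x, G x ≤ 1 := hG.le_one
  have hit := SC_iter (α := ℕ × ℕ)
    (fun p => l0 ≤ p.1 ∧ p.1 < p.2 ∧ fG G (2 * p.2) ≤ 4 ^ (d + 1) * fG G p.2 ∧
      fG G p.1 ≤ δ * fG G p.2 ∧ 0 < fG G p.2)
    (fun p q => p.2 ≤ q.1 ∧ fG G (q.2 + p.2) ≤ (1 + δ) * fG G q.2 ∧
      (∀ x, q.1 ≤ nm x + p.2 →
        G x * ((bx d p.2).card : ℝ) ≤ δ * (fG G p.2 - fG G p.1)) ∧
      ∀ u ∈ bx d p.2, ∑ v ∈ bx d q.2, |G (v - u) - G v| ≤ δ * fG G q.2) ?_ ?_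
  · obtain ⟨s, hs⟩ := hit
    refine ⟨fun t => (s t).1, fun t => (s t).2, fun t => (hs t).1.1, ?_⟩
    exact
      { lt := fun t => (hs t).1.2.1
        le := fun t => (hs t).2.1
        dbl := fun t => (hs t).1.2.2.1
        small := fun t => (hs t).1.2.2.2.1
        pos := fun t => (hs t).1.2.2.2.2
        reg := fun t => (hs t).2.2.1
        far := fun t x hx => (hs t).2.2.2.1 x hx
        shr := fun t u hu => (hs t).2.2.2.2 u hu }
  · obtain ⟨L, a1, a2, a3, a4, -⟩ := SC_next h0 h1 hs hδ l0 0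
    exact ⟨(l0, L), le_rfl, a1, a2, a3, a4⟩
  · rintro ⟨l', L'⟩ ⟨b1, b2, b3, b4, b5⟩
    simp only at b1 b2 b3 b4 b5
    have hlt : 0 < fG G L' - fG G l' := by
      have : δ * fG G L' < fG G L' := by
        calc δ * fG G L' < 1 * fG G L' := mul_lt_mul_of_pos_right hδ1 b5
          _ = fG G L' := one_mul _
      linarith
    have hcard : (0 : ℝ) < ((bx d L').card : ℝ) := by
      rw [card_bx]
      positivity
    obtain ⟨n, hn⟩ := SC_far hlim (div_pos (mul_pos hδ hlt) hcard)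
    obtain ⟨N, hN⟩ := SC2_thr hd G hG hs δ hδ L'
    obtain ⟨L, a1, a2, a3, a4, a5⟩ := SC_next h0 h1 hs hδ (l0 + L' + n + N) L'
    refine ⟨(l0 + L' + n + N, L), ⟨by simp only; omega, a1, a2, a3, a4⟩,
      by simp only; omega, a5, ?_, ?_⟩
    · intro x hx
      simp only at hx ⊢
      have h3 := hn x (by omega)
      rwa [le_div_iff₀ hcard] at h3
    · intro u hu
      exact hN L (by omega) u hu

end H82.IC

end S_H82_IC_SC2

section S_H82_IC_CNE

/-!
# CNE: the cones

`sgn' b = 1` or `-1`.  `cone i ε = {u | (∀ j, 0 ≤ ε_j u_j) ∧ ∑_{j ≠ i} |u_j| ≤ |u_i|}`.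
* `cone_le`: if `0 ≤ ε_j x_j` for all `j`, `u ∈ cone i ε`, `∑_j |u_j| ≤ |x_i|` then `G x ≤ G (x - u)`.
  Proof.  By flipping signs (`mono` with `b = -z j`, both ways) assume all `ε_j = 1`, so `x_j ≥ 0`, `u_j ≥ 0`.  Let `y = x - u`.  Starting from `z = x` we go to `y` by moves which do not decrease `G` -- equivalently treat
  the coordinates `j ≠ i` one after the other (induction on a finset `D` of coordinates).  CLAIM: for every finset `D ∌ i`, with `S_D = ∑_{j ∈ D} max(0, u_j - 2 x_j)`: the point `p_D` with coordinates `x_j - u_j` for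
  `j ∈ D ∪ {…}`: define `p_D` by: coordinate `i`: `x_i - u_i + S_{D^c}` where `S_{D^c}` is the sum over the `j ∉ D`, `j ≠ i`; coordinates `j ∈ D`: `x_j - u_j`; coordinates `j ∉ D`, `j ≠ i`: `x_j`.  Then
  `G (p_D) ≤ G (p_{D ∪ {j}})`: going from `p_D` to `p_{D ∪ j}` coordinate `j` changes from `x_j` to `x_j - u_j` and coordinate `i` decreases by `e = max(0, u_j - 2x_j)`: if `e = 0`: `|x_j - u_j| ≤ x_j`, `mono`.  If `e > 0`:
  `transfer` from `i` to `j` with amount `e`: allowed as `e ≤ p_i - x_j` (`p_i ≥ x_i - u_i + e`, since `j ∉ D`, and `x_i - u_i ≥ u_j ≥ x_j`, because `∑|u| ≤ x_i`); it gives coordinate `j` equal to `x_j + e = u_j - x_j`, and `mono`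
  (sign flip) gives `x_j - u_j`.  At `D = ∅`: `p_∅ = update x i (x_i - u_i + S)`, `0 ≤ x_i - u_i + S ≤ x_i` as `S ≤ ∑_{j≠i} u_j ≤ u_i`: `G x ≤ G (p_∅)` by `mono`.  At `D` = all `j ≠ i`: `p_D = y`.
* `cone_mass`: `∑_{u ∈ bx L \ bx l} G u ≤ (d * 2^d * d^d) ∑_{u ∈ (bx L \ bx l) ∩ cone i ε} G u`.  Every `u` has a coordinate `i'` with `|u i'| = nm u` and a sign pattern: map `u` to `u'`: exchange the coordinates `i'` and `i`, apply signs so
  that `ε_j u'_j ≥ 0` (`G` unchanged: `perm`, sign flips), then replace `u'_j` (`j ≠ i`) by `ε_j ⌊|u'_j|/d⌋` (raises `G`, `mono`): the result is in `cone i ε` (`∑_{j≠i} ⌊|u'_j|/d⌋ ≤ ((d-1)/d) nm u ≤ |u'_i|`), has the same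
  `nm`, and each point of the cone has at most `d * 2^d * d^(d-1)` preimages.
-/

set_option autoImplicit false

open Finset Filter Topology

namespace H82.IC

variable {d : ℕ}

/-- sign. -/
def sgz (b : Bool) : ℤ := if b = true then 1 else -1

def cone {d : ℕ} (i : Fin d) (ε : Fin d → Bool) : Set (Vx d) :=
  {u | (∀ j, 0 ≤ sgz (ε j) * u j) ∧ ∑ j ∈ univ.erase i, |u j| ≤ |u i|}

/-- `G` increases if all coordinates decrease in absolute value. -/
theorem CNE_abs {G : Vx d → ℝ} (hG : Mms G) {z y : Vx d} (h : ∀ j, |y j| ≤ |z j|) : G z ≤ G y := by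
  classical
  have key : ∀ D : Finset (Fin d), G z ≤ G (fun j => if j ∈ D then y j else z j) := by
    intro D
    induction D using Finset.induction_on with
    | empty => simp
    | insert a D ha ih =>
      refine ih.trans ?_
      have h1 := hG.mono (fun j => if j ∈ D then y j else z j) a (y a) (by
        simp only [ha, if_false]
        exact h a)
      have h2 : Function.update (fun j => if j ∈ D then y j else z j) a (y a) =
          fun j => if j ∈ insert a D then y j else z j := by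
        funext j
        by_cases hj : j = a
        · subst hj
          simp
        · rw [Function.update_of_ne hj]
          simp [hj]
      rw [h2] at h1
      exact h1
  have h3 := key univ
  simpa using h3

/-- the case of nonnegative coordinates -/
theorem CNE_core {G : Vx d → ℝ} (hG : Mms G) (i : Fin d) (X U : Vx d) (hX : ∀ j, 0 ≤ X j)
    (hU : ∀ j, 0 ≤ U j) (h1 : ∑ j ∈ univ.erase i, U j ≤ U i) (h2 : ∑ j, U j ≤ X i) :
    G X ≤ G (X - U) := by
  classical
  let e : Fin d → ℤ := fun j => max 0 (U j - 2 * X j)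
  have he0 : ∀ j, 0 ≤ e j := fun j => le_max_left _ _
  have heU : ∀ j, e j ≤ U j := fun j => max_le (hU j) (by have := hX j; linarith)
  have hei : ∀ j, U j - 2 * X j ≤ e j := fun j => le_max_right _ _
  have hsum : ∑ j, U j = U i + ∑ j ∈ univ.erase i, U j :=
    (Finset.add_sum_erase univ U (Finset.mem_univ i)).symm
  have hUj : ∀ j, j ≠ i → U j ≤ ∑ j ∈ univ.erase i, U j := fun j hj =>
    Finset.single_le_sum (f := U) (fun k _ => hU k) (Finset.mem_erase.2 ⟨hj, Finset.mem_univ j⟩)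
  have hS0 : 0 ≤ ∑ j ∈ univ.erase i, U j := Finset.sum_nonneg fun k _ => hU k
  let p : Finset (Fin d) → Vx d := fun D l =>
    if l = i then X i - U i + ∑ j ∈ (univ.erase i) \ D, e j
    else if l ∈ D then X l + e l else X l
  have hpi : ∀ D, p D i = X i - U i + ∑ j ∈ (univ.erase i) \ D, e j := fun D => by
    simp only [p, if_true]
  have hpD : ∀ D l, l ≠ i → l ∈ D → p D l = X l + e l := fun D l hl hD => by
    simp only [p, if_neg hl, if_pos hD]
  have hpN : ∀ D l, l ≠ i → l ∉ D → p D l = X l := fun D l hl hD => by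
    simp only [p, if_neg hl, if_neg hD]
  have key : ∀ D : Finset (Fin d), i ∉ D → G X ≤ G (p D) := by
    intro D
    induction D using Finset.induction_on with
    | empty =>
      intro _
      refine CNE_abs hG fun l => ?_
      by_cases hl : l = i
      · subst hl
        rw [hpi, Finset.sdiff_empty, abs_of_nonneg (hX l)]
        have h3 : ∑ j ∈ univ.erase l, e j ≤ ∑ j ∈ univ.erase l, U j :=
          Finset.sum_le_sum fun j _ => heU j
        have h4 : 0 ≤ ∑ j ∈ univ.erase l, e j := Finset.sum_nonneg fun j _ => he0 j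
        rw [abs_of_nonneg (by linarith)]
        linarith
      · rw [hpN ∅ l hl (Finset.notMem_empty l)]
    | insert a D ha ih =>
      intro hi
      have hai : a ≠ i := fun h => hi (h ▸ Finset.mem_insert_self a D)
      have hiD : i ∉ D := fun h => hi (Finset.mem_insert_of_mem h)
      refine (ih hiD).trans ?_
      have hs : (univ.erase i) \ D = insert a ((univ.erase i) \ insert a D) := by
        ext j
        simp only [Finset.mem_sdiff, Finset.mem_erase, Finset.mem_univ, and_true,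
          Finset.mem_insert, not_or]
        constructor
        · rintro ⟨h3, h4⟩
          by_cases h5 : j = a
          · exact Or.inl h5
          · exact Or.inr ⟨h3, h5, h4⟩
        · rintro (h3 | ⟨h3, h4, h5⟩)
          · exact h3 ▸ ⟨hai, ha⟩
          · exact ⟨h3, h5⟩
      have hsp : ∑ j ∈ (univ.erase i) \ D, e j =
          e a + ∑ j ∈ (univ.erase i) \ insert a D, e j := by
        rw [hs, Finset.sum_insert]
        simp
      have hrest : 0 ≤ ∑ j ∈ (univ.erase i) \ insert a D, e j :=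
        Finset.sum_nonneg fun j _ => he0 j
      rcases (he0 a).eq_or_lt with h0 | h0
      · have h3 : p (insert a D) = p D := by
          funext l
          by_cases hl : l = i
          · subst hl
            rw [hpi, hpi, hsp, ← h0, zero_add]
          · by_cases hla : l = a
            · subst hla
              rw [hpD _ l hl (Finset.mem_insert_self l D), hpN D l hl ha, ← h0, add_zero]
            · by_cases hlD : l ∈ D
              · rw [hpD _ l hl (Finset.mem_insert_of_mem hlD), hpD D l hl hlD]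
              · rw [hpN D l hl hlD, hpN _ l hl]
                simp [hla, hlD]
        rw [h3]
      · have h4 : e a = U a - 2 * X a := by
          rcases max_choice 0 (U a - 2 * X a) with h5 | h5
          · exact absurd h5 (ne_of_gt h0)
          · exact h5
        have h5 := hX a
        have h6 := hUj a hai
        have h7 := hG.transfer (p D) i a (e a) (Ne.symm hai) (he0 a) (by
          rw [hpi, hpN D a hai ha, hsp]
          linarith)
        have h8 : Function.update (Function.update (p D) i (p D i - e a)) a (p D a + e a) =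
            p (insert a D) := by
          funext l
          by_cases hla : l = a
          · subst hla
            rw [Function.update_self, hpN D l hai ha,
              hpD _ l hai (Finset.mem_insert_self l D)]
          · rw [Function.update_of_ne hla]
            by_cases hl : l = i
            · subst hl
              rw [Function.update_self, hpi, hpi, hsp]
              ring
            · rw [Function.update_of_ne hl]
              by_cases hlD : l ∈ D
              · rw [hpD _ l hl (Finset.mem_insert_of_mem hlD), hpD D l hl hlD]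
              · rw [hpN D l hl hlD, hpN _ l hl]
                simp [hla, hlD]
        rw [h8] at h7
        exact h7
  refine (key (univ.erase i) (Finset.notMem_erase i univ)).trans (CNE_abs hG fun l => ?_)
  by_cases hl : l = i
  · subst hl
    rw [hpi, Finset.sdiff_self, Finset.sum_empty, add_zero]
    exact le_rfl
  · rw [hpD _ l hl (Finset.mem_erase.2 ⟨hl, Finset.mem_univ l⟩), Pi.sub_apply]
    have h3 := hX l
    have h4 := hU l
    have h5 := he0 l
    have h6 := hei l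
    rw [abs_of_nonneg (by linarith : 0 ≤ X l + e l), abs_le]
    constructor <;> linarith

theorem CNE_sgz (b : Bool) : |sgz b| = 1 := by
  cases b <;> simp [sgz]

theorem CNE_sgz2 (b : Bool) (t : ℤ) : sgz b * (sgz b * t) = t := by
  cases b <;> simp [sgz]

theorem cone_le (G : Vx d → ℝ) (hG : Mms G) (i : Fin d) (ε : Fin d → Bool) (x u : Vx d)
    (hx : ∀ j, 0 ≤ sgz (ε j) * x j) (hu : u ∈ cone i ε) (hxu : ∑ j, |u j| ≤ |x i|) :
    G x ≤ G (x - u) := by
  refine (CNE_abs hG (y := fun j => |x j|) fun j => ?_).trans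
    ((CNE_core hG i (fun j => |x j|) (fun j => |u j|) (fun j => abs_nonneg _)
      (fun j => abs_nonneg _) hu.2 hxu).trans (CNE_abs hG fun j => ?_))
  · rw [abs_abs]
  · rw [Pi.sub_apply, Pi.sub_apply]
    have h1 := hx j
    have h2 := hu.1 j
    cases hε : ε j with
    | false =>
      rw [hε] at h1 h2
      simp only [sgz, Bool.false_eq_true, if_false, neg_mul, one_mul] at h1 h2
      rw [abs_of_nonpos (by linarith : x j ≤ 0), abs_of_nonpos (by linarith : u j ≤ 0),
        ← abs_neg (x j - u j)]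
      apply le_of_eq
      congr 1
      ring
    | true =>
      rw [hε] at h1 h2
      simp only [sgz, if_true, one_mul] at h1 h2
      rw [abs_of_nonneg h1, abs_of_nonneg h2]

theorem cone_mass (hd : 2 ≤ d) (G : Vx d → ℝ) (hG : Mms G) (i : Fin d) (ε : Fin d → Bool)
    (l L : ℕ) :
    open Classical in
    ∑ u ∈ bx d L \ bx d l, G u ≤
      ((d : ℝ) * 2 ^ d * (d : ℝ) ^ d) *
        ∑ u ∈ (bx d L \ bx d l).filter (fun u => u ∈ cone i ε), G u := by
  classical
  have hd0 : 0 < d := by omega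
  have hdZ : (0 : ℤ) < d := by exact_mod_cast hd0
  have : Nonempty (Fin d) := ⟨⟨0, hd0⟩⟩
  have hmax : ∀ u : Vx d, ∃ k : Fin d, ∀ j, |u j| ≤ |u k| := fun u =>
    Finite.exists_max fun j => |u j|
  choose m hm using hmax
  let Φ : Vx d → Vx d := fun u j =>
    sgz (ε j) * (if j = i then |u (m u)| else |u (Equiv.swap i (m u) j)| / d)
  have hΦi : ∀ u, |Φ u i| = |u (m u)| := fun u => by
    simp only [Φ, if_true, abs_mul, CNE_sgz, one_mul, abs_abs]
  have hΦj : ∀ u j, j ≠ i → |Φ u j| = |u (Equiv.swap i (m u) j)| / d := fun u j hj => by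
    simp only [Φ, if_neg hj, abs_mul, CNE_sgz, one_mul]
    exact abs_of_nonneg (Int.ediv_nonneg (abs_nonneg _) hdZ.le)
  have hΦle : ∀ u j, |Φ u j| ≤ |u (m u)| := fun u j => by
    by_cases hj : j = i
    · subst hj
      rw [hΦi]
    · rw [hΦj u j hj]
      exact (Int.ediv_le_self _ (abs_nonneg _)).trans (hm u _)
  have hcone : ∀ u, Φ u ∈ cone i ε := fun u => by
    refine ⟨fun j => ?_, ?_⟩
    · simp only [Φ]
      rw [CNE_sgz2]
      split_ifs
      · exact abs_nonneg _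
      · exact Int.ediv_nonneg (abs_nonneg _) hdZ.le
    · rw [hΦi]
      have h1 : ∀ j ∈ univ.erase i, |Φ u j| ≤ |u (m u)| / d := fun j hj => by
        rw [hΦj u j (Finset.ne_of_mem_erase hj)]
        exact Int.ediv_le_ediv hdZ (hm u _)
      refine (Finset.sum_le_card_nsmul _ _ _ h1).trans ?_
      rw [Finset.card_erase_of_mem (Finset.mem_univ i), Finset.card_univ, Fintype.card_fin,
        nsmul_eq_mul]
      have h2 : (0 : ℤ) ≤ |u (m u)| / d := Int.ediv_nonneg (abs_nonneg _) hdZ.le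
      have h3 : ((d - 1 : ℕ) : ℤ) ≤ d := by exact_mod_cast Nat.sub_le d 1
      exact (mul_le_mul_of_nonneg_right h3 h2).trans (Int.mul_ediv_self_le hdZ.ne')
  have hbx : ∀ u n, Φ u ∈ bx d n ↔ u ∈ bx d n := fun u n => by
    rw [mem_bx_abs, mem_bx_abs]
    constructor
    · intro h j
      exact (hm u j).trans ((hΦi u).symm.le.trans (h i))
    · intro h j
      exact (hΦle u j).trans (h _)
  have hGΦ : ∀ u, G u ≤ G (Φ u) := fun u => by
    have h1 : G u = G (fun j => u (Equiv.swap i (m u) j)) :=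
      hG.perm (Equiv.swap i (m u)) _ _ fun j => rfl
    rw [h1]
    refine CNE_abs hG fun j => ?_
    by_cases hj : j = i
    · subst hj
      rw [hΦi, Equiv.swap_apply_left]
    · rw [hΦj u j hj]
      exact Int.ediv_le_self _ (abs_nonneg _)
  -- the number of preimages
  let T : Vx d → Fin d × (Fin d → Bool) × (Fin d → Fin d) := fun u =>
    (m u, fun j => decide (0 ≤ u j), fun j => ⟨(|u j| % d).toNat, by
      have h1 := Int.emod_nonneg |u j| hdZ.ne'
      have h2 := Int.emod_lt_of_pos |u j| hdZ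
      omega⟩)
  have hinj : ∀ u v, Φ u = Φ v → T u = T v → u = v := by
    intro u v h1 h2
    have h3 : m u = m v := congrArg Prod.fst h2
    have h4 : ∀ j, (0 ≤ u j ↔ 0 ≤ v j) := fun j => by
      have h5 : decide (0 ≤ u j) = decide (0 ≤ v j) := congrFun (congrArg (fun t => t.2.1) h2) j
      exact decide_eq_decide.1 h5
    have h5 : ∀ j, |u j| % d = |v j| % d := fun j => by
      have h6 : (⟨(|u j| % d).toNat, _⟩ : Fin d) = ⟨(|v j| % d).toNat, _⟩ :=
        congrFun (congrArg (fun t => t.2.2) h2) j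
      have h7 := congrArg Fin.val h6
      have h8 := Int.emod_nonneg |u j| hdZ.ne'
      have h9 := Int.emod_nonneg |v j| hdZ.ne'
      simp only at h7
      omega
    have h6 : ∀ j, |u j| = |v j| := by
      intro j
      by_cases hj : j = m u
      · have h7 : |Φ u i| = |Φ v i| := by rw [h1]
        rw [hΦi, hΦi, ← h3, ← hj] at h7
        exact h7
      · have h8 : Equiv.swap i (m u) j ≠ i := by
          intro h9
          apply hj
          have h10 := congrArg (Equiv.swap i (m u)) h9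
          rw [Equiv.swap_apply_self, Equiv.swap_apply_left] at h10
          exact h10
        have h7 : |Φ u (Equiv.swap i (m u) j)| = |Φ v (Equiv.swap i (m u) j)| := by rw [h1]
        rw [hΦj u _ h8, hΦj v _ h8, ← h3, Equiv.swap_apply_self] at h7
        have h9 := Int.emod_add_mul_ediv |u j| d
        have h10 := Int.emod_add_mul_ediv |v j| d
        rw [h5 j, h7] at h9
        exact h9.symm.trans h10
    funext j
    rcases abs_eq_abs.1 (h6 j) with h7 | h7
    · exact h7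
    · have h8 := h4 j
      by_cases h9 : 0 ≤ u j
      · have h10 := h8.1 h9
        linarith
      · have h10 : ¬ 0 ≤ v j := fun h => h9 (h8.2 h)
        push Not at h9 h10
        linarith
  set A := bx d L \ bx d l with hA
  set Bs := A.filter (fun u => u ∈ cone i ε) with hB
  have hmaps : ∀ u ∈ A, Φ u ∈ Bs := fun u hu => by
    rw [hA, Finset.mem_sdiff] at hu
    rw [hB, Finset.mem_filter, hA, Finset.mem_sdiff, hbx, hbx]
    exact ⟨hu, hcone u⟩
  have hcard : ∀ w, ((A.filter (fun u => Φ u = w)).card : ℝ) ≤ (d : ℝ) * 2 ^ d * (d : ℝ) ^ d := by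
    intro w
    have h1 : (A.filter (fun u => Φ u = w)).card ≤
        (univ : Finset (Fin d × (Fin d → Bool) × (Fin d → Fin d))).card := by
      refine Finset.card_le_card_of_injOn T (fun _ _ => Finset.mem_coe.2 (Finset.mem_univ _)) ?_
      intro u hu v hv huv
      have h2 := (Finset.mem_filter.1 (Finset.mem_coe.1 hu)).2
      have h3 := (Finset.mem_filter.1 (Finset.mem_coe.1 hv)).2
      exact hinj u v (h2.trans h3.symm) huv
    have h2 : (univ : Finset (Fin d × (Fin d → Bool) × (Fin d → Fin d))).card =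
        d * (2 ^ d * d ^ d) := by
      rw [Finset.card_univ]
      simp
    rw [h2] at h1
    have h3 : ((A.filter (fun u => Φ u = w)).card : ℝ) ≤ ((d * (2 ^ d * d ^ d) : ℕ) : ℝ) := by
      exact_mod_cast h1
    refine h3.trans (le_of_eq ?_)
    push_cast
    ring
  calc ∑ u ∈ A, G u ≤ ∑ u ∈ A, G (Φ u) := Finset.sum_le_sum fun u _ => hGΦ u
    _ = ∑ w ∈ Bs, ∑ u ∈ A.filter (fun u => Φ u = w), G (Φ u) :=
        (Finset.sum_fiberwise_of_maps_to hmaps _).symm
    _ = ∑ w ∈ Bs, ((A.filter (fun u => Φ u = w)).card : ℝ) * G w := by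
        refine Finset.sum_congr rfl fun w _ => ?_
        rw [Finset.sum_congr rfl (fun u hu => by rw [(Finset.mem_filter.1 hu).2] :
          ∀ u ∈ A.filter (fun u => Φ u = w), G (Φ u) = G w), Finset.sum_const, nsmul_eq_mul]
    _ ≤ ∑ w ∈ Bs, ((d : ℝ) * 2 ^ d * (d : ℝ) ^ d) * G w :=
        Finset.sum_le_sum fun w _ => mul_le_mul_of_nonneg_right (hcard w) (hG.nonneg w)
    _ = ((d : ℝ) * 2 ^ d * (d : ℝ) ^ d) * ∑ w ∈ Bs, G w := by rw [Finset.mul_sum]

end H82.IC

end S_H82_IC_CNE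

section S_H82_IC_VB2

/-!
# VB2: variance sums for the cone weights

`AnK t = (bx (L t) \ bx (l t)) ∩ cone i ε`, `chK t = ∑_{u ∈ AnK t} G u`; with `Cd = d 2^d d^d`: `ch t = fG (L t) - fG (l t) ≤ Cd chK t` (`cone_mass`), `fG (L t) ≤ 2 ch t ≤ 2 Cd chK t` (`δ ≤ 1/2`), `chK t > 0`.
`beK u = ∑_{t < T} 1[u ∈ AnK t]/(T chK t)`, `BK = ⋃_{t<T} AnK t` (disjoint annuli).
* `beK_sum`: `∑ beK u G u = 1`.
* `beK_double`: as `beS_double` in VB: for `s < t`, `u ∈ AnK s`: `∑_{v ∈ AnK t} G (v-u) ≤ chK t + ∑_{v ∈ bx (L t)} |G (v-u) - G v| ≤ chK t + δ fG (L t) ≤ (1 + 2 Cd δ) chK t`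
  (`u ∈ bx (L s) ⊆ bx (L (t-1))`, `shr`); for `s > t`: `G (v - u) |bx (L t)| ≤ δ ch t ≤ δ Cd chK t` (`far`); for `s = t`: `≤ fG (2 L t) ≤ 4^(d+1) fG (L t) ≤ 4^(d+1) 2 Cd chK t`.  Total
  `≤ (1/T²) (T(T-1)/2 (1 + 2 Cd δ + Cd δ) + T 2 Cd 4^(d+1)) ≤ (1/2)(1 + 3 Cd δ) + 2 Cd 4^(d+1)/T`.
-/

set_option autoImplicit false

open Finset Filter Topology

namespace H82.IC

variable {d : ℕ}

noncomputable def AnK (l L : ℕ → ℕ) (i : Fin d) (ε : Fin d → Bool) (t : ℕ) : Finset (Vx d) :=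
  open Classical in (bx d (L t) \ bx d (l t)).filter (fun u => u ∈ cone i ε)

noncomputable def BK (l L : ℕ → ℕ) (i : Fin d) (ε : Fin d → Bool) (T : ℕ) : Finset (Vx d) :=
  open Classical in (Finset.range T).biUnion (AnK l L i ε)

noncomputable def beK (G : Vx d → ℝ) (l L : ℕ → ℕ) (i : Fin d) (ε : Fin d → Bool) (T : ℕ)
    (u : Vx d) : ℝ :=
  open Classical in
  ∑ t ∈ Finset.range T, (if u ∈ AnK l L i ε t then 1 / ((T : ℝ) * ∑ v ∈ AnK l L i ε t, G v) else 0)

/-- `Cd = d 2^d d^d`. -/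
noncomputable def Cd (d : ℕ) : ℝ := (d : ℝ) * 2 ^ d * (d : ℝ) ^ d

theorem VB2_sub (l L : ℕ → ℕ) (i : Fin d) (ε : Fin d → Bool) (t : ℕ) :
    AnK l L i ε t ⊆ An d l L t := by
  classical
  intro u hu
  unfold AnK at hu
  exact (Finset.mem_filter.1 hu).1

theorem VB2_mem (l L : ℕ → ℕ) (i : Fin d) (ε : Fin d → Bool) (t : ℕ) (u : Vx d) :
    u ∈ AnK l L i ε t ↔ u ∈ cone i ε ∧ l t < nm u ∧ nm u ≤ L t := by
  classical
  unfold AnK
  rw [Finset.mem_filter, and_comm]
  exact and_congr_right fun _ => VB_mem l L t u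

theorem mem_BK (l L : ℕ → ℕ) (i : Fin d) (ε : Fin d → Bool) (T : ℕ) (u : Vx d) :
    u ∈ BK l L i ε T ↔ u ∈ cone i ε ∧ ∃ t, t < T ∧ l t < nm u ∧ nm u ≤ L t := by
  unfold BK
  rw [Finset.mem_biUnion]
  constructor
  · rintro ⟨t, ht, hu⟩
    obtain ⟨h1, h2⟩ := (VB2_mem l L i ε t u).1 hu
    exact ⟨h1, t, Finset.mem_range.1 ht, h2⟩
  · rintro ⟨h1, t, ht, h2⟩
    exact ⟨t, Finset.mem_range.2 ht, (VB2_mem l L i ε t u).2 ⟨h1, h2⟩⟩

theorem VB2_Cd0 (d : ℕ) : 0 ≤ Cd d := by
  unfold Cd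
  positivity

theorem VB2_ch (hd : 2 ≤ d) (G : Vx d → ℝ) (hG : Mms G) {δ : ℝ}
    {l L : ℕ → ℕ} (h : Sca2 G δ l L) (i : Fin d) (ε : Fin d → Bool) (t : ℕ) :
    fG G (L t) - fG G (l t) ≤ Cd d * ∑ v ∈ AnK l L i ε t, G v := by
  rw [← VB_An_sum h.toSca t]
  exact cone_mass hd G hG i ε (l t) (L t)

theorem VB2_pos (hd : 2 ≤ d) (G : Vx d → ℝ) (hG : Mms G) {δ : ℝ} (hδ1 : δ ≤ 1 / 2)
    {l L : ℕ → ℕ} (h : Sca2 G δ l L) (i : Fin d) (ε : Fin d → Bool) (t : ℕ) :
    0 < ∑ v ∈ AnK l L i ε t, G v := by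
  have h1 := VB2_ch hd G hG h i ε t
  have h2 := VB_chpos hδ1 h.toSca t
  have h3 : 0 ≤ ∑ v ∈ AnK l L i ε t, G v := Finset.sum_nonneg fun v _ => hG.nonneg v
  rcases h3.lt_or_eq with h4 | h4
  · exact h4
  · rw [← h4, mul_zero] at h1
    linarith

theorem VB2_f (hd : 2 ≤ d) (G : Vx d → ℝ) (hG : Mms G) {δ : ℝ} (hδ1 : δ ≤ 1 / 2)
    {l L : ℕ → ℕ} (h : Sca2 G δ l L) (i : Fin d) (ε : Fin d → Bool) (t : ℕ) :
    fG G (L t) ≤ 2 * (Cd d * ∑ v ∈ AnK l L i ε t, G v) := by
  have h1 := VB2_ch hd G hG h i ε t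
  have h2 := VB_ch h.toSca t
  have h3 := h.pos t
  have h4 : 1 / 2 * fG G (L t) ≤ (1 - δ) * fG G (L t) :=
    mul_le_mul_of_nonneg_right (by linarith) h3.le
  linarith

theorem beK_nonneg (hd : 2 ≤ d) (G : Vx d → ℝ) (hG : Mms G) {δ : ℝ} (hδ : 0 < δ) (hδ1 : δ ≤ 1 / 2)
    {l L : ℕ → ℕ} (h : Sca2 G δ l L) (i : Fin d) (ε : Fin d → Bool) (T : ℕ) (u : Vx d) :
    0 ≤ beK G l L i ε T u := by
  unfold beK
  refine Finset.sum_nonneg fun t _ => ?_
  split_ifs
  · have := VB2_pos hd G hG hδ1 h i ε t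
    positivity
  · exact le_rfl

theorem VB2_sum (A : ℕ → Finset (Vx d)) (T : ℕ) (c : ℕ → ℝ) (F : Vx d → ℝ) :
    ∑ u ∈ (Finset.range T).biUnion A, (∑ t ∈ Finset.range T, (if u ∈ A t then c t else 0)) * F u =
      ∑ t ∈ Finset.range T, c t * ∑ u ∈ A t, F u := by
  simp_rw [Finset.sum_mul]
  rw [Finset.sum_comm]
  refine Finset.sum_congr rfl fun t ht => ?_
  have hsub : A t ⊆ (Finset.range T).biUnion A := Finset.subset_biUnion_of_mem A ht
  have h1 : ∀ u, (if u ∈ A t then c t else 0) * F u =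
      if u ∈ A t then c t * F u else 0 := by
    intro u
    rw [ite_mul, zero_mul]
  rw [Finset.sum_congr rfl fun u _ => h1 u, ← Finset.sum_filter, Finset.mul_sum]
  refine Finset.sum_congr ?_ fun _ _ => rfl
  ext u
  rw [Finset.mem_filter]
  exact ⟨fun hu => hu.2, fun hu => ⟨hsub hu, hu⟩⟩

theorem VB2_sumK (l L : ℕ → ℕ) (i : Fin d) (ε : Fin d → Bool) (T : ℕ) (c : ℕ → ℝ)
    (F : Vx d → ℝ) :
    ∑ u ∈ BK l L i ε T, (∑ t ∈ Finset.range T, (if u ∈ AnK l L i ε t then c t else 0)) * F u =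
      ∑ t ∈ Finset.range T, c t * ∑ u ∈ AnK l L i ε t, F u :=
  VB2_sum (AnK l L i ε) T c F

theorem beK_sum (hd : 2 ≤ d) (G : Vx d → ℝ) (hG : Mms G) {δ : ℝ} (hδ : 0 < δ) (hδ1 : δ ≤ 1 / 2)
    {l L : ℕ → ℕ} (h : Sca2 G δ l L) (i : Fin d) (ε : Fin d → Bool) (T : ℕ) (hT : 1 ≤ T) :
    ∑ u ∈ BK l L i ε T, beK G l L i ε T u * G u = 1 := by
  have hT' : (0 : ℝ) < (T : ℝ) := by exact_mod_cast hT
  unfold beK
  rw [VB2_sumK]
  have h1 : ∀ t ∈ Finset.range T, 1 / ((T : ℝ) * ∑ v ∈ AnK l L i ε t, G v) *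
      ∑ u ∈ AnK l L i ε t, G u = 1 / (T : ℝ) := by
    intro t _
    have := (VB2_pos hd G hG hδ1 h i ε t).ne'
    field_simp
  rw [Finset.sum_congr rfl h1, Finset.sum_const, nsmul_eq_mul, Finset.card_range]
  field_simp

/-- the factor -/
noncomputable def VB2_k (d : ℕ) (δ : ℝ) (s t : ℕ) : ℝ :=
  if s < t then 1 + 2 * Cd d * δ else if t < s then Cd d * δ else 2 * 4 ^ (d + 1) * Cd d

theorem VB2_bound (hd : 2 ≤ d) (G : Vx d → ℝ) (hG : Mms G) {δ : ℝ} (hδ : 0 < δ) (hδ1 : δ ≤ 1 / 2)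
    {l L : ℕ → ℕ} (h : Sca2 G δ l L) (i : Fin d) (ε : Fin d → Bool) (s t : ℕ) {u : Vx d}
    (hu : u ∈ AnK l L i ε s) :
    ∑ v ∈ AnK l L i ε t, G (v - u) ≤ VB2_k d δ s t * ∑ v ∈ AnK l L i ε t, G v := by
  have hu0 : u ∈ An d l L s := VB2_sub l L i ε s hu
  have hsub : ∑ v ∈ AnK l L i ε t, G (v - u) ≤ ∑ v ∈ An d l L t, G (v - u) :=
    Finset.sum_le_sum_of_subset_of_nonneg (VB2_sub l L i ε t) fun x _ _ => hG.nonneg _
  have hb := VB_bound G hG.nonneg hδ hδ1 h.toSca s t hu0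
  have hch := VB2_ch hd G hG h i ε t
  unfold VB_k at hb
  unfold VB2_k
  rcases lt_trichotomy s t with hst | hst | hst
  · rw [if_pos hst]
    obtain ⟨r, rfl⟩ : ∃ r, t = r + 1 := ⟨t - 1, by omega⟩
    have hur : u ∈ bx d (L r) := by
      have h1 := ((VB_mem l L s u).1 hu0).2
      have h3 : L s ≤ L r := VB_LL h.toSca (by omega)
      exact mem_bx.2 (h1.trans h3)
    have h1 := h.shr r u hur
    have h2 : ∑ v ∈ AnK l L i ε (r + 1), G (v - u) ≤
        ∑ v ∈ AnK l L i ε (r + 1), G v + ∑ v ∈ AnK l L i ε (r + 1), |G (v - u) - G v| := by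
      rw [← Finset.sum_add_distrib]
      refine Finset.sum_le_sum fun v _ => ?_
      have := le_abs_self (G (v - u) - G v)
      linarith
    have h3 : ∑ v ∈ AnK l L i ε (r + 1), |G (v - u) - G v| ≤
        ∑ v ∈ bx d (L (r + 1)), |G (v - u) - G v| := by
      refine Finset.sum_le_sum_of_subset_of_nonneg ?_ fun x _ _ => abs_nonneg _
      exact (VB2_sub l L i ε (r + 1)).trans Finset.sdiff_subset
    have h4 := VB2_f hd G hG hδ1 h i ε (r + 1)
    have h5 := mul_le_mul_of_nonneg_left h4 hδ.le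
    linarith
  · subst hst
    rw [if_neg (lt_irrefl _), if_neg (lt_irrefl _)] at hb ⊢
    have h1 := mul_le_mul_of_nonneg_left hch (by positivity : (0 : ℝ) ≤ 2 * 4 ^ (d + 1))
    linarith
  · rw [if_neg (by omega), if_pos hst] at hb ⊢
    have h1 := mul_le_mul_of_nonneg_left hch hδ.le
    linarith

theorem VB2_ksum {δ : ℝ} (hδ : 0 < δ) (T : ℕ) :
    ∑ s ∈ Finset.range T, ∑ t ∈ Finset.range T, VB2_k d δ s t ≤
      (T : ℝ) ^ 2 * ((1 / 2) * (1 + 3 * Cd d * δ)) + (T : ℝ) * (2 * Cd d * 4 ^ (d + 1)) := by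
  have hC := VB2_Cd0 d
  have hCδ : 0 ≤ Cd d * δ := mul_nonneg hC hδ.le
  have h1 : ∑ s ∈ Finset.range T, ∑ t ∈ Finset.range T, VB2_k d δ s t =
      ∑ s ∈ Finset.range T, ∑ t ∈ Finset.range T, VB2_k d δ t s := Finset.sum_comm
  have h2 : ∑ s ∈ Finset.range T, ∑ t ∈ Finset.range T, VB2_k d δ s t =
      (1 / 2) * ∑ s ∈ Finset.range T, ∑ t ∈ Finset.range T, (VB2_k d δ s t + VB2_k d δ t s) := by
    simp only [Finset.sum_add_distrib]
    rw [← h1]
    ring
  have h3 : ∀ s t : ℕ, VB2_k d δ s t + VB2_k d δ t s ≤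
      (1 + 3 * Cd d * δ) + if s = t then 4 * Cd d * 4 ^ (d + 1) else 0 := by
    intro s t
    unfold VB2_k
    rcases lt_trichotomy s t with h | h | h
    · rw [if_pos h, if_neg (by omega), if_pos h, if_neg h.ne]
      linarith
    · subst h
      rw [if_neg (lt_irrefl _), if_neg (lt_irrefl _), if_pos rfl]
      linarith
    · rw [if_neg (by omega), if_pos h, if_pos h, if_neg h.ne']
      linarith
  rw [h2]
  have h4 : ∑ s ∈ Finset.range T, ∑ t ∈ Finset.range T, (VB2_k d δ s t + VB2_k d δ t s) ≤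
      ∑ s ∈ Finset.range T, ∑ t ∈ Finset.range T, ((1 + 3 * Cd d * δ) +
        if s = t then 4 * Cd d * 4 ^ (d + 1) else 0) :=
    Finset.sum_le_sum fun s _ => Finset.sum_le_sum fun t _ => h3 s t
  have h5 : ∑ s ∈ Finset.range T, ∑ t ∈ Finset.range T, ((1 + 3 * Cd d * δ) +
        if s = t then 4 * Cd d * 4 ^ (d + 1) else 0) =
      (T : ℝ) ^ 2 * (1 + 3 * Cd d * δ) + (T : ℝ) * (4 * Cd d * 4 ^ (d + 1)) := by
    simp only [Finset.sum_add_distrib, Finset.sum_const, nsmul_eq_mul, Finset.sum_ite_eq,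
      Finset.card_range]
    rw [Finset.sum_congr rfl fun s hs => if_pos hs, Finset.sum_const, nsmul_eq_mul,
      Finset.card_range]
    ring
  rw [h5] at h4
  linarith

theorem beK_double (hd : 2 ≤ d) (G : Vx d → ℝ) (hG : Mms G) {δ : ℝ} (hδ : 0 < δ) (hδ1 : δ ≤ 1 / 2)
    {l L : ℕ → ℕ} (h : Sca2 G δ l L) (i : Fin d) (ε : Fin d → Bool) (T : ℕ) (hT : 1 ≤ T) :
    ∑ u ∈ BK l L i ε T, ∑ v ∈ BK l L i ε T,
      beK G l L i ε T u * beK G l L i ε T v * (G (v - u) * G u) ≤
      (1 / 2) * (1 + 3 * Cd d * δ) + 2 * Cd d * 4 ^ (d + 1) / (T : ℝ) := by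
  have hT' : (0 : ℝ) < (T : ℝ) := by exact_mod_cast hT
  obtain ⟨c, hc⟩ : ∃ c : ℕ → ℝ, c = fun t => 1 / ((T : ℝ) * ∑ v ∈ AnK l L i ε t, G v) :=
    ⟨_, rfl⟩
  have hbe : ∀ u, beK G l L i ε T u =
      ∑ t ∈ Finset.range T, (if u ∈ AnK l L i ε t then c t else 0) := by
    intro u
    rw [hc]
    rfl
  have hc0 : ∀ t, 0 ≤ c t := by
    intro t
    rw [hc]
    have := VB2_pos hd G hG hδ1 h i ε t
    positivity
  have hcc : ∀ t, c t * (∑ v ∈ AnK l L i ε t, G v) = 1 / (T : ℝ) := by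
    intro t
    rw [hc]
    have := (VB2_pos hd G hG hδ1 h i ε t).ne'
    field_simp
  have h1 : ∑ u ∈ BK l L i ε T, ∑ v ∈ BK l L i ε T,
      beK G l L i ε T u * beK G l L i ε T v * (G (v - u) * G u) =
      ∑ s ∈ Finset.range T, c s * ∑ u ∈ AnK l L i ε s,
        (G u * ∑ t ∈ Finset.range T, c t * ∑ v ∈ AnK l L i ε t, G (v - u)) := by
    rw [← VB2_sumK]
    refine Finset.sum_congr rfl fun u _ => ?_
    rw [← VB2_sumK, ← hbe u, Finset.mul_sum, Finset.mul_sum]
    refine Finset.sum_congr rfl fun v _ => ?_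
    rw [← hbe v]
    ring
  rw [h1]
  have h2 : ∀ s ∈ Finset.range T, c s * ∑ u ∈ AnK l L i ε s,
      (G u * ∑ t ∈ Finset.range T, c t * ∑ v ∈ AnK l L i ε t, G (v - u)) ≤
      ∑ t ∈ Finset.range T, 1 / (T : ℝ) * (1 / (T : ℝ)) * VB2_k d δ s t := by
    intro s _
    have h3 : ∀ u ∈ AnK l L i ε s,
        G u * ∑ t ∈ Finset.range T, c t * ∑ v ∈ AnK l L i ε t, G (v - u) ≤
        G u * ∑ t ∈ Finset.range T, 1 / (T : ℝ) * VB2_k d δ s t := by
      intro u hu
      refine mul_le_mul_of_nonneg_left (Finset.sum_le_sum fun t _ => ?_) (hG.nonneg u)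
      refine (mul_le_mul_of_nonneg_left (VB2_bound hd G hG hδ hδ1 h i ε s t hu) (hc0 t)).trans
        (le_of_eq ?_)
      rw [← hcc t]
      ring
    refine (mul_le_mul_of_nonneg_left (Finset.sum_le_sum h3) (hc0 s)).trans (le_of_eq ?_)
    rw [← Finset.sum_mul, ← mul_assoc, hcc, Finset.mul_sum]
    refine Finset.sum_congr rfl fun t _ => by ring
  refine (Finset.sum_le_sum h2).trans ?_
  simp only [← Finset.mul_sum]
  have h5 := VB2_ksum (d := d) (δ := δ) hδ T
  have h6 : 0 ≤ 1 / (T : ℝ) * (1 / (T : ℝ)) := by positivity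
  refine (mul_le_mul_of_nonneg_left h5 h6).trans (le_of_eq ?_)
  field_simp

end H82.IC

end S_H82_IC_VB2

section S_H82_IC_XL

/-!
# XL: existence of the two point limit `lim_{x → ∞} μ[dw F | 0 ↔ x]`

`G x = μ (cn 0 x) > 0` (`G_pos`), `Mms G` (`mms_G`), `μ (cn u v) = G (v - u)` (`G_shift`), `Tendsto G cofinite 0`, not summable.  `ra x = μ (dw F ∩ cn 0 x)/G x ∈ [0,1]`.
* `sector_est`: for `κ > 0`, `i`, `ε` there are `c ∈ ℝ` and `R` with `|ra x - c| ≤ κ` for all `x` with `nm x ≥ R`, `0 ≤ sgz (ε j) * x j` for all `j`, `|x i| = nm x`.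
  Proof.  Choose `δ`, `T` with `(1 + 3 Cd δ) + 4 Cd 4^(d+1)/T - 1 ≤ (κ/2)²`, `δ ≤ 1/2` (so that `2 * (beK_double bound) - 2 + 1 ≤ (κ/2)²`), let `K1` with `G (x - z) ≤ K1 G x` for all `x` and `z ∈ enF F` (FKG: `G z G (x - z) ≤ G x`:
  limit of `phiB_fkg` for the increasing events `cn 0 z`, `cn z x`; `K1 = max 1/G z`), `l0` with `2 K1 |enF F| G y ≤ κ/2` for all `y` with `nm y + r ≥ l0` (`r` = max `nm` on `enF F`), scales `exists_sca2` with this `l0`,
  `B = BK l L i ε T`, `R = d * L T + 1`, `c = ∑_{u ∈ B} beK u μ (dw F ∩ cn 0 u)`.  For `x` in the sector with `nm x ≥ R` and `u ∈ B`: `∑ |u_j| ≤ d L T ≤ |x i|`, so `G x ≤ G (x - u)` (`cone_le`); put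
  `α u = beK u * G x / G (x - u) ≤ beK u`.  `inf_key`: left side `|μ (dw F ∩ cn 0 x) - c G x|`.  Right side: `∑∑ α u α v G(v-u)(G u G(x-v) + G v G(x-u)) = G x ∑∑ (α u beK v G(v-u) G u + beK u α v G(v-u) G v) ≤ 2 G x ∑∑ beK u beK v G(v-u) G u`
  (symmetry `G(-y) = G y`), `∑ α u G u G (x-u) = G x ∑ beK u G u = G x`, so the square root is `≤ G x √(2 (beK_double) - 2 + 1) ≤ (κ/2) G x`; second term:
  `2 ∑ α u G u ∑_z G(z-u) G(x-z) ≤ 2 K1 G x ∑ beK u G u ∑_z G (z-u) ≤ (κ/2) G x`.  Divide by `G x`.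
* `x_limit`: let `κ > 0`, take the constants `c(i,ε)` and a common `R`.  Sectors `(i,ε)`, `(j,ε)` share the points `x = n (sgz ε_k)_k`; sectors `(i,ε)`, `(i,ε')` with `ε_i = ε'_i` share `x = n sgz(ε_i) e_i`.  So
  `|c(i,ε) - c(j,ε)| ≤ 2κ`, `|c(i,ε) - c(i,ε')| ≤ 2κ` if `ε_i = ε'_i`; going from `(i,ε)` to `(j,ε')` takes at most 4 such steps (`d ≥ 2`: change all signs except the one of `i`, pass to an index `k ≠ i`, change the sign of
  coordinate `i`, pass to `j`).  Every `x` belongs to a sector.  So `|ra x - ra y| ≤ 10 κ` for all `x, y` with `nm ≥ R`: `ra` is Cauchy along `cofinite` (`{x | nm x < R}` is finite), hence converges.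
-/

set_option autoImplicit false

open Finset MeasureTheory Filter Topology

namespace H82.IC

variable {d : ℕ}

theorem XL_up_empty : (up (∅ : Finset (Ed d)) : Set (Cf d)) = Set.univ := by
  ext ω
  constructor
  · intro _
    trivial
  · intro _ e he
    exact absurd he (Finset.notMem_empty e)

theorem XL_tend (hd : 2 ≤ d) {β : ℝ} (hβ : 0 ≤ β) {μ : Measure (Cf d)} (hμ : IsLim β false μ)
    (x y : Vx d) :
    Tendsto (fun m => phiB β m false (cn x y)) atTop (𝓝 (μ.real (cn x y))) := by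
  have h := free_tendsto hd hβ hμ ∅ x y
  rw [XL_up_empty, Set.inter_univ] at h
  exact h

theorem fkg_cn (hd : 2 ≤ d) {β : ℝ} (hβ : 0 ≤ β) {μ : Measure (Cf d)} (hμ : IsLim β false μ)
    (z x : Vx d) : μ.real (cn 0 z) * μ.real (cn z x) ≤ μ.real (cn 0 x) := by
  refine le_of_tendsto_of_tendsto' ((XL_tend hd hβ hμ 0 z).mul (XL_tend hd hβ hμ z x))
    (XL_tend hd hβ hμ 0 x) fun m => ?_
  refine (phiB_fkg hβ m (inc_cn 0 z) (inc_cn z x)).trans (phiB_mono_set hβ m false ?_)
  rintro ω ⟨h1, h2⟩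
  exact conn_trans (Zl d) h1 h2

/-- elementary facts on the sup norm. -/
theorem XL_le (x : Vx d) (j : Fin d) : |x j| ≤ (nm x : ℤ) := by
  have h := G1_le_nm x j
  rw [Int.abs_eq_natAbs]
  exact_mod_cast h

theorem XL_sum (x : Vx d) (n : ℕ) (h : nm x ≤ n) : ∑ j, |x j| ≤ ((d * n : ℕ) : ℤ) := by
  have h1 : ∑ j : Fin d, |x j| ≤ ∑ j : Fin d, (n : ℤ) := by
    refine Finset.sum_le_sum fun j _ => (XL_le x j).trans ?_
    exact_mod_cast h
  rw [Finset.sum_const, Finset.card_univ, Fintype.card_fin, nsmul_eq_mul] at h1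
  push_cast
  exact h1

theorem XL_main {G m be : Vx d → ℝ} (hG0 : ∀ x, 0 < G x) (hneg : ∀ x, G (-x) = G x)
    (B E : Finset (Vx d)) (hbe : ∀ u, 0 ≤ be u) (κ K1 ε' S : ℝ) (hκ : 0 < κ)
    (hε' : 0 ≤ ε')
    (hsum : ∑ u ∈ B, be u * G u = 1)
    (hdbl : ∑ u ∈ B, ∑ v ∈ B, be u * be v * (G (v - u) * G u) ≤ S)
    (hS : 2 * S - 1 ≤ (κ / 2) ^ 2)
    (hE : 2 * K1 * E.card * ε' ≤ κ / 2)
    (hfar : ∀ u ∈ B, ∀ z ∈ E, G (z - u) ≤ ε')
    (x : Vx d) (hxK : ∀ z ∈ E, G (x - z) ≤ K1 * G x)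
    (hxu : ∀ u ∈ B, G x ≤ G (x - u))
    (key : ∀ α : Vx d → ℝ, (∀ u, 0 ≤ α u) →
      |m x - ∑ u ∈ B, α u * (m u * G (x - u))| ≤
      Real.sqrt (G x * ((∑ u ∈ B, ∑ v ∈ B, α u * α v * (G (v - u) *
        (G u * G (x - v) + G v * G (x - u)))) -
      2 * (∑ u ∈ B, α u * (G u * G (x - u))) + G x)) +
      2 * (∑ u ∈ B, α u * (G u * ∑ z ∈ E, G (z - u) * G (x - z)))) :
    |m x / G x - ∑ u ∈ B, be u * m u| ≤ κ := by
  have hGx := hG0 x
  obtain ⟨α, hα⟩ : ∃ α : Vx d → ℝ, α = fun u => be u * G x / G (x - u) := ⟨_, rfl⟩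
  have hα0 : ∀ u, 0 ≤ α u := by
    intro u
    rw [hα]
    exact div_nonneg (mul_nonneg (hbe u) hGx.le) (hG0 _).le
  have hα1 : ∀ u, α u * G (x - u) = be u * G x := by
    intro u
    rw [hα]
    exact div_mul_cancel₀ _ (hG0 _).ne'
  have hα2 : ∀ u ∈ B, α u ≤ be u := by
    intro u hu
    rw [hα]
    refine (div_le_iff₀ (hG0 _)).2 (mul_le_mul_of_nonneg_left (hxu u hu) (hbe u))
  have h := key α hα0
  have e1 : ∑ u ∈ B, α u * (m u * G (x - u)) = G x * ∑ u ∈ B, be u * m u := by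
    rw [Finset.mul_sum]
    refine Finset.sum_congr rfl fun u _ => ?_
    have := hα1 u
    calc α u * (m u * G (x - u)) = (α u * G (x - u)) * m u := by ring
      _ = _ := by rw [this]; ring
  have e2 : ∑ u ∈ B, α u * (G u * G (x - u)) = G x := by
    calc ∑ u ∈ B, α u * (G u * G (x - u)) = ∑ u ∈ B, G x * (be u * G u) := by
          refine Finset.sum_congr rfl fun u _ => ?_
          have := hα1 u
          calc α u * (G u * G (x - u)) = (α u * G (x - u)) * G u := by ring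
            _ = _ := by rw [this]; ring
      _ = G x := by rw [← Finset.mul_sum, hsum, mul_one]
  have e3 : ∑ u ∈ B, ∑ v ∈ B, α u * α v * (G (v - u) * (G u * G (x - v) + G v * G (x - u))) ≤
      G x * (2 * S) := by
    have s1 : ∑ u ∈ B, ∑ v ∈ B, α u * α v *
        (G (v - u) * (G u * G (x - v) + G v * G (x - u))) ≤
        ∑ u ∈ B, ∑ v ∈ B, (G x * (be u * be v * (G (v - u) * G u)) +
          G x * (be v * be u * (G (u - v) * G v))) := by
      refine Finset.sum_le_sum fun u hu => Finset.sum_le_sum fun v hv => ?_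
      have a1 := hα1 u
      have a2 := hα1 v
      have a3 := hα2 u hu
      have a4 := hα2 v hv
      have a5 : G (u - v) = G (v - u) := by rw [← hneg (v - u), neg_sub]
      rw [a5]
      have b1 : α u * α v * (G (v - u) * (G u * G (x - v) + G v * G (x - u))) =
          α u * ((α v * G (x - v)) * (G (v - u) * G u)) +
          α v * ((α u * G (x - u)) * (G (v - u) * G v)) := by ring
      rw [b1, a1, a2]
      have b2 : α u * (be v * G x * (G (v - u) * G u)) ≤
          be u * (be v * G x * (G (v - u) * G u)) := by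
        refine mul_le_mul_of_nonneg_right a3 ?_
        exact mul_nonneg (mul_nonneg (hbe _) hGx.le) (mul_nonneg (hG0 _).le (hG0 _).le)
      have b3 : α v * (be u * G x * (G (v - u) * G v)) ≤
          be v * (be u * G x * (G (v - u) * G v)) := by
        refine mul_le_mul_of_nonneg_right a4 ?_
        exact mul_nonneg (mul_nonneg (hbe _) hGx.le) (mul_nonneg (hG0 _).le (hG0 _).le)
      linarith
    have s2 : ∑ u ∈ B, ∑ v ∈ B, (G x * (be u * be v * (G (v - u) * G u)) +
          G x * (be v * be u * (G (u - v) * G v))) =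
        G x * ∑ u ∈ B, ∑ v ∈ B, be u * be v * (G (v - u) * G u) +
        G x * ∑ u ∈ B, ∑ v ∈ B, be u * be v * (G (v - u) * G u) := by
      simp only [Finset.sum_add_distrib]
      congr 1
      · rw [Finset.mul_sum]
        exact Finset.sum_congr rfl fun u _ => by rw [Finset.mul_sum]
      · rw [Finset.sum_comm, Finset.mul_sum]
        exact Finset.sum_congr rfl fun u _ => by rw [Finset.mul_sum]
    rw [s2] at s1
    refine s1.trans ?_
    have := mul_le_mul_of_nonneg_left hdbl hGx.le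
    linarith
  have e4 : Real.sqrt (G x * ((∑ u ∈ B, ∑ v ∈ B, α u * α v * (G (v - u) *
        (G u * G (x - v) + G v * G (x - u)))) -
      2 * (∑ u ∈ B, α u * (G u * G (x - u))) + G x)) ≤ G x * (κ / 2) := by
    rw [e2]
    have h0 : 0 ≤ G x * (κ / 2) := mul_nonneg hGx.le (by linarith)
    rw [← Real.sqrt_sq h0]
    refine Real.sqrt_le_sqrt ?_
    have h1 : G x * ((∑ u ∈ B, ∑ v ∈ B, α u * α v * (G (v - u) *
        (G u * G (x - v) + G v * G (x - u)))) - 2 * G x + G x) ≤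
        G x * (G x * (2 * S - 1)) := by
      refine mul_le_mul_of_nonneg_left ?_ hGx.le
      have : G x * (2 * S - 1) = G x * (2 * S) - 2 * G x + G x := by ring
      rw [this]
      linarith
    refine h1.trans ?_
    have h2 : G x * (G x * (2 * S - 1)) ≤ G x * (G x * (κ / 2) ^ 2) :=
      mul_le_mul_of_nonneg_left (mul_le_mul_of_nonneg_left hS hGx.le) hGx.le
    refine h2.trans (le_of_eq (by ring))
  have e5 : 2 * (∑ u ∈ B, α u * (G u * ∑ z ∈ E, G (z - u) * G (x - z))) ≤ G x * (κ / 2) := by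
    have s1 : ∑ u ∈ B, α u * (G u * ∑ z ∈ E, G (z - u) * G (x - z)) ≤
        ∑ u ∈ B, (be u * G u) * ((E.card : ℝ) * (ε' * (K1 * G x))) := by
      refine Finset.sum_le_sum fun u hu => ?_
      have t1 : ∑ z ∈ E, G (z - u) * G (x - z) ≤ (E.card : ℝ) * (ε' * (K1 * G x)) := by
        have := Finset.sum_le_card_nsmul E (fun z => G (z - u) * G (x - z)) (ε' * (K1 * G x))
          (fun z hz => mul_le_mul (hfar u hu z hz) (hxK z hz) (hG0 _).le hε')
        rw [nsmul_eq_mul] at this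
        exact this
      have t0 : 0 ≤ ∑ z ∈ E, G (z - u) * G (x - z) :=
        Finset.sum_nonneg fun z _ => mul_nonneg (hG0 _).le (hG0 _).le
      calc α u * (G u * ∑ z ∈ E, G (z - u) * G (x - z))
          ≤ be u * (G u * ∑ z ∈ E, G (z - u) * G (x - z)) :=
            mul_le_mul_of_nonneg_right (hα2 u hu) (mul_nonneg (hG0 _).le t0)
        _ ≤ be u * (G u * ((E.card : ℝ) * (ε' * (K1 * G x)))) :=
            mul_le_mul_of_nonneg_left (mul_le_mul_of_nonneg_left t1 (hG0 _).le) (hbe u)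
        _ = _ := by ring
    rw [← Finset.sum_mul, hsum, one_mul] at s1
    have s2 : G x * (2 * K1 * E.card * ε') ≤ G x * (κ / 2) :=
      mul_le_mul_of_nonneg_left hE hGx.le
    have s3 : 2 * ((E.card : ℝ) * (ε' * (K1 * G x))) = G x * (2 * K1 * E.card * ε') := by ring
    linarith
  rw [e1] at h
  have h6 : |m x - G x * ∑ u ∈ B, be u * m u| ≤ κ * G x := by
    refine h.trans ?_
    have : κ * G x = G x * (κ / 2) + G x * (κ / 2) := by ring
    rw [this]
    exact add_le_add e4 e5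
  have e7 : m x / G x - ∑ u ∈ B, be u * m u = (m x - G x * ∑ u ∈ B, be u * m u) / G x := by
    field_simp
  rw [e7, abs_div, abs_of_pos hGx]
  exact (div_le_iff₀ hGx).2 h6

theorem XL_choose (d : ℕ) (κ : ℝ) (hκ : 0 < κ) :
    ∃ (δ : ℝ) (T : ℕ), 0 < δ ∧ δ ≤ 1 / 2 ∧ 1 ≤ T ∧
      2 * ((1 / 2) * (1 + 3 * Cd d * δ) + 2 * Cd d * 4 ^ (d + 1) / (T : ℝ)) - 1 ≤
        (κ / 2) ^ 2 := by
  have hC : 0 ≤ Cd d := by
    unfold Cd
    positivity
  obtain ⟨q, hq⟩ : ∃ q : ℝ, q = (κ / 2) ^ 2 / 2 := ⟨_, rfl⟩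
  have hq0 : 0 < q := by rw [hq]; positivity
  have hδ : 0 < min (1 / 2) (q / (3 * Cd d + 1)) := lt_min (by norm_num) (by positivity)
  obtain ⟨T, hT⟩ := exists_nat_ge (4 * Cd d * 4 ^ (d + 1) / q)
  refine ⟨min (1 / 2) (q / (3 * Cd d + 1)), T + 1, hδ, min_le_left _ _, by omega, ?_⟩
  have h1 : 3 * Cd d * min (1 / 2) (q / (3 * Cd d + 1)) ≤ q := by
    have : min (1 / 2) (q / (3 * Cd d + 1)) ≤ q / (3 * Cd d + 1) := min_le_right _ _
    calc 3 * Cd d * min (1 / 2) (q / (3 * Cd d + 1)) ≤ 3 * Cd d * (q / (3 * Cd d + 1)) :=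
          mul_le_mul_of_nonneg_left this (by positivity)
      _ = (3 * Cd d) / (3 * Cd d + 1) * q := by ring
      _ ≤ 1 * q := by
          refine mul_le_mul_of_nonneg_right ?_ hq0.le
          rw [div_le_one (by positivity)]
          linarith
      _ = q := one_mul q
  have h2 : 4 * Cd d * 4 ^ (d + 1) / ((T + 1 : ℕ) : ℝ) ≤ q := by
    rw [div_le_iff₀ hq0] at hT
    rw [div_le_iff₀ (by positivity)]
    push_cast
    linarith
  have h3 : 2 * (2 * Cd d * 4 ^ (d + 1) / ((T + 1 : ℕ) : ℝ)) =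
      4 * Cd d * 4 ^ (d + 1) / ((T + 1 : ℕ) : ℝ) := by ring
  have h4 : (κ / 2) ^ 2 = q + q := by rw [hq]; ring
  rw [h4]
  linarith

theorem sector_est (hd : 2 ≤ d) {β : ℝ} (hβ : 0 < β) {μ : Measure (Cf d)} (hμ : IsLim β false μ)
    (hlim : Tendsto (fun x : Vx d => μ.real (cn 0 x)) cofinite (𝓝 0))
    (hχ : ¬ Summable (fun x : Vx d => μ.real (cn 0 x))) (F : Finset (Ed d))
    (κ : ℝ) (hκ : 0 < κ) (i : Fin d) (ε : Fin d → Bool) :
    ∃ (c : ℝ) (R : ℕ), ∀ x : Vx d, R ≤ nm x → (∀ j, 0 ≤ sgz (ε j) * x j) → |x i| = (nm x : ℤ) →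
      |μ.real (dw F ∩ cn 0 x) / μ.real (cn 0 x) - c| ≤ κ := by
  have := hμ.1
  have hMms := mms_G hd hβ.le hμ
  obtain ⟨δ, T, hδ, hδ1, hT, hS⟩ := XL_choose d κ hκ
  obtain ⟨K1, hK1⟩ : ∃ K1 : ℝ, K1 = ∑ z ∈ enF F, 1 / μ.real (cn 0 z) := ⟨_, rfl⟩
  have hG0 : ∀ z : Vx d, 0 < μ.real (cn 0 z) := fun z => G_pos hβ hμ 0 z
  have hK10 : 0 ≤ K1 := by
    rw [hK1]
    exact Finset.sum_nonneg fun z _ => (div_pos one_pos (hG0 z)).le
  have hK1z : ∀ z ∈ enF F, ∀ x : Vx d, μ.real (cn 0 (x - z)) ≤ K1 * μ.real (cn 0 x) := by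
    intro z hz x
    have h1 := fkg_cn hd hβ.le hμ z x
    rw [G_shift hβ.le hμ z x] at h1
    have h2 : 1 / μ.real (cn 0 z) ≤ K1 := by
      rw [hK1]
      exact Finset.single_le_sum (f := fun z => 1 / μ.real (cn 0 z))
        (fun z _ => (div_pos one_pos (hG0 z)).le) hz
    have h3 : μ.real (cn 0 (x - z)) ≤ 1 / μ.real (cn 0 z) * μ.real (cn 0 x) := by
      rw [one_div, ← div_eq_inv_mul, le_div_iff₀ (hG0 z), mul_comm]
      exact h1
    exact h3.trans (mul_le_mul_of_nonneg_right h2 (hG0 x).le)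
  obtain ⟨ε', hε'⟩ : ∃ ε' : ℝ, ε' = κ / (4 * K1 * (enF F).card + 1) := ⟨_, rfl⟩
  have hden : 0 < 4 * K1 * ((enF F).card : ℝ) + 1 := by positivity
  have hε0 : 0 < ε' := by rw [hε']; exact div_pos hκ hden
  obtain ⟨n, hn⟩ := SC_far hlim hε0
  obtain ⟨r, hr⟩ : ∃ r, r = (enF F).sup nm := ⟨_, rfl⟩
  obtain ⟨l, L, hl0, hsca⟩ := exists_sca2 hd _ hMms hlim hχ δ hδ (by linarith) (n + r)
  refine ⟨∑ u ∈ BK l L i ε T, beK (fun x : Vx d => μ.real (cn 0 x)) l L i ε T u *
    μ.real (dw F ∩ cn 0 u), d * L T + 1, ?_⟩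
  intro x hx hxε hxi
  refine XL_main (G := fun x : Vx d => μ.real (cn 0 x)) (m := fun u => μ.real (dw F ∩ cn 0 u))
    (be := beK (fun x : Vx d => μ.real (cn 0 x)) l L i ε T) hG0 hMms.neg (BK l L i ε T) (enF F)
    (beK_nonneg hd _ hMms hδ hδ1 hsca i ε T) κ K1 ε' _ hκ hε0.le
    (beK_sum hd _ hMms hδ hδ1 hsca i ε T hT) (beK_double hd _ hMms hδ hδ1 hsca i ε T hT) hS
    ?_ ?_ x (fun z hz => hK1z z hz x) ?_ ?_
  · have h1 : 2 * K1 * ((enF F).card : ℝ) * ε' =
        (2 * K1 * ((enF F).card : ℝ)) / (4 * K1 * ((enF F).card : ℝ) + 1) * κ := by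
      rw [hε']
      ring
    rw [h1]
    have h2 : (2 * K1 * ((enF F).card : ℝ)) / (4 * K1 * ((enF F).card : ℝ) + 1) ≤ 1 / 2 := by
      rw [div_le_iff₀ hden]
      linarith
    have h3 := mul_le_mul_of_nonneg_right h2 hκ.le
    linarith
  · intro u hu z hz
    obtain ⟨-, t, -, h2, -⟩ := (mem_BK l L i ε T u).1 hu
    refine hn _ ?_
    have h3 := hl0 t
    have h4 : nm z ≤ r := by rw [hr]; exact Finset.le_sup (f := nm) hz
    have h5 : nm u ≤ nm (z - u) + nm z := by
      have : u = z - (z - u) := by abel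
      calc nm u = nm (z - (z - u)) := by rw [← this]
        _ ≤ nm z + nm (z - u) := nm_sub _ _
        _ = _ := add_comm _ _
    omega
  · intro u hu
    obtain ⟨h1, t, h2, -, h4⟩ := (mem_BK l L i ε T u).1 hu
    refine cone_le _ hMms i ε x u hxε h1 ?_
    have h5 : nm u ≤ L T := h4.trans (VB_LL hsca.toSca h2.le)
    refine (XL_sum u (L T) h5).trans ?_
    rw [hxi]
    have : d * L T ≤ nm x := by omega
    exact_mod_cast this
  · intro α hα
    have h := inf_key hd hβ.le hμ F x (BK l L i ε T) α hα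
    obtain ⟨G, hG⟩ : ∃ G : Vx d → ℝ, G = fun x => μ.real (cn 0 x) := ⟨_, rfl⟩
    have e' : ∀ u v : Vx d, μ.real (cn u v) = G (v - u) := fun u v => by
      rw [hG]
      exact G_shift hβ.le hμ u v
    simp only [e', sub_zero] at h
    rw [hG] at h
    exact h

theorem XL_sgz (b : Bool) : sgz b * sgz b = 1 := by
  unfold sgz
  cases b <;> simp

theorem XL_sgz_abs (b : Bool) : |sgz b| = 1 := by
  unfold sgz
  cases b <;> simp

theorem XL_nm (x : Vx d) (i : Fin d) (n : ℕ) (hi : |x i| = (n : ℤ)) (h : ∀ j, |x j| ≤ (n : ℤ)) :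
    nm x = n := by
  apply le_antisymm
  · rw [← mem_bx, mem_bx_abs]
    exact h
  · have := XL_le x i
    rw [hi] at this
    exact_mod_cast this

theorem XL_lim (hd : 2 ≤ d) (r : Vx d → ℝ)
    (hsec : ∀ κ : ℝ, 0 < κ → ∀ (i : Fin d) (ε : Fin d → Bool), ∃ (c : ℝ) (R : ℕ), ∀ x : Vx d,
      R ≤ nm x → (∀ j, 0 ≤ sgz (ε j) * x j) → |x i| = (nm x : ℤ) → |r x - c| ≤ κ) :
    ∃ c : ℝ, Tendsto r cofinite (𝓝 c) := by
  have hpos : 0 < d := by omega
  have hmain : ∀ κ : ℝ, 0 < κ → ∃ (c : ℝ) (R : ℕ), ∀ x : Vx d, R ≤ nm x → |r x - c| ≤ 9 * κ := by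
    intro κ hκ
    choose c R hcR using hsec κ hκ
    obtain ⟨N, hN⟩ : ∃ N : ℕ, ∀ i ε, R i ε ≤ N := by
      refine ⟨univ.sup (fun p : Fin d × (Fin d → Bool) => R p.1 p.2), fun i ε => ?_⟩
      exact Finset.le_sup (f := fun p : Fin d × (Fin d → Bool) => R p.1 p.2)
        (Finset.mem_univ (i, ε))
    have s1 : ∀ (i j : Fin d) (ε : Fin d → Bool), |c i ε - c j ε| ≤ 2 * κ := by
      intro i j ε
      obtain ⟨x, hx⟩ : ∃ x : Vx d, x = fun k => (N : ℤ) * sgz (ε k) := ⟨_, rfl⟩
      have hk : ∀ k, |x k| = (N : ℤ) := by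
        intro k
        rw [hx]
        show |(N : ℤ) * sgz (ε k)| = _
        rw [abs_mul, XL_sgz_abs, mul_one]
        exact abs_of_nonneg (Nat.cast_nonneg _)
      have hnm : nm x = N := XL_nm x i N (hk i) fun j => (hk j).le
      have hs : ∀ k, 0 ≤ sgz (ε k) * x k := by
        intro k
        rw [hx]
        show 0 ≤ sgz (ε k) * ((N : ℤ) * sgz (ε k))
        have : sgz (ε k) * ((N : ℤ) * sgz (ε k)) = N * (sgz (ε k) * sgz (ε k)) := by ring
        rw [this, XL_sgz, mul_one]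
        exact Nat.cast_nonneg _
      have a1 := hcR i ε x (by rw [hnm]; exact hN i ε) hs (by rw [hk, hnm])
      have a2 := hcR j ε x (by rw [hnm]; exact hN j ε) hs (by rw [hk, hnm])
      rw [abs_le] at a1 a2 ⊢
      constructor <;> linarith [a1.1, a1.2, a2.1, a2.2]
    have s2 : ∀ (i : Fin d) (ε ε' : Fin d → Bool), ε i = ε' i → |c i ε - c i ε'| ≤ 2 * κ := by
      intro i ε ε' h
      obtain ⟨x, hx⟩ : ∃ x : Vx d, x = Pi.single i ((N : ℤ) * sgz (ε i)) := ⟨_, rfl⟩
      have hi : |x i| = (N : ℤ) := by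
        rw [hx, Pi.single_eq_same, abs_mul, XL_sgz_abs, mul_one]
        exact abs_of_nonneg (Nat.cast_nonneg _)
      have hne : ∀ j, j ≠ i → x j = 0 := by
        intro j hj
        rw [hx, Pi.single_eq_of_ne hj]
      have hnm : nm x = N := XL_nm x i N hi fun j => by
        by_cases hj : j = i
        · rw [hj, hi]
        · rw [hne j hj, abs_zero]
          exact Nat.cast_nonneg _
      have hs : ∀ (η : Fin d → Bool), η i = ε i → ∀ k, 0 ≤ sgz (η k) * x k := by
        intro η hη k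
        by_cases hk : k = i
        · rw [hk, hη, hx, Pi.single_eq_same]
          have : sgz (ε i) * ((N : ℤ) * sgz (ε i)) = N * (sgz (ε i) * sgz (ε i)) := by ring
          rw [this, XL_sgz, mul_one]
          exact Nat.cast_nonneg _
        · rw [hne k hk, mul_zero]
      have a1 := hcR i ε x (by rw [hnm]; exact hN i ε) (hs ε rfl) (by rw [hi, hnm])
      have a2 := hcR i ε' x (by rw [hnm]; exact hN i ε') (hs ε' h.symm) (by rw [hi, hnm])
      rw [abs_le] at a1 a2 ⊢
      constructor <;> linarith [a1.1, a1.2, a2.1, a2.2]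
    have s3 : ∀ (i j : Fin d) (ε ε' : Fin d → Bool), |c i ε - c j ε'| ≤ 8 * κ := by
      intro i j ε ε'
      obtain ⟨k, hk⟩ : ∃ k : Fin d, k ≠ i := by
        have : Nontrivial (Fin d) := Fin.nontrivial_iff_two_le.2 hd
        exact exists_ne i
      obtain ⟨ε1, hε1⟩ : ∃ ε1 : Fin d → Bool, ε1 = Function.update ε' i (ε i) := ⟨_, rfl⟩
      have b1 := s2 i ε ε1 (by rw [hε1, Function.update_self])
      have b2 := s1 i k ε1
      have b3 := s2 k ε1 ε' (by rw [hε1, Function.update_of_ne hk])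
      have b4 := s1 k j ε'
      rw [abs_le] at b1 b2 b3 b4 ⊢
      constructor <;> linarith [b1.1, b1.2, b2.1, b2.2, b3.1, b3.2, b4.1, b4.2]
    refine ⟨c ⟨0, hpos⟩ (fun _ => true), N, fun x hx => ?_⟩
    obtain ⟨i, -, hi⟩ := Finset.exists_mem_eq_sup (univ : Finset (Fin d)) ⟨⟨0, hpos⟩, mem_univ _⟩
      (fun i => (x i).natAbs)
    have hi' : |x i| = (nm x : ℤ) := by
      rw [Int.abs_eq_natAbs]
      have : nm x = (x i).natAbs := hi
      rw [this]
    have h1 := hcR i (fun j => decide (0 ≤ x j)) x ((hN _ _).trans hx) (by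
      intro j
      unfold sgz
      by_cases hj : 0 ≤ x j
      · simp [hj]
      · simp [hj]
        omega) hi'
    have h2 := s3 i ⟨0, hpos⟩ (fun j => decide (0 ≤ x j)) (fun _ => true)
    rw [abs_le] at h1 h2 ⊢
    constructor <;> linarith [h1.1, h1.2, h2.1, h2.2]
  have : Nonempty (Fin d) := ⟨⟨0, hpos⟩⟩
  have : Infinite (Vx d) := by
    unfold Vx
    infer_instance
  have : (cofinite : Filter (Vx d)).NeBot := inferInstance
  have hC : Cauchy (map r cofinite) := by
    rw [Metric.cauchy_iff]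
    refine ⟨inferInstance, fun e he => ?_⟩
    obtain ⟨c, R, hR⟩ := hmain (e / 27) (by linarith)
    refine ⟨Metric.closedBall c (e / 3), ?_, ?_⟩
    · rw [Filter.mem_map]
      have hfin : (↑(bx d R) : Set (Vx d)).Finite := Finset.finite_toSet _
      refine mem_of_superset (mem_cofinite.2 (by rw [compl_compl]; exact hfin) :
        (↑(bx d R) : Set (Vx d))ᶜ ∈ cofinite) ?_
      intro x hx
      have hx1 : x ∉ bx d R := hx
      rw [mem_bx, not_le] at hx1
      have h2 := hR x hx1.le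
      show r x ∈ Metric.closedBall c (e / 3)
      rw [Metric.mem_closedBall, Real.dist_eq]
      linarith
    · intro a ha b hb
      rw [Metric.mem_closedBall, Real.dist_eq, abs_le] at ha hb
      rw [Real.dist_eq, abs_lt]
      constructor <;> linarith [ha.1, ha.2, hb.1, hb.2]
  obtain ⟨c, hc⟩ := CompleteSpace.complete hC
  exact ⟨c, hc⟩

theorem x_limit (hd : 2 ≤ d) {β : ℝ} (hβ : 0 < β) {μ : Measure (Cf d)} (hμ : IsLim β false μ)
    (hlim : Tendsto (fun x : Vx d => μ.real (cn 0 x)) cofinite (𝓝 0))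
    (hχ : ¬ Summable (fun x : Vx d => μ.real (cn 0 x))) (F : Finset (Ed d)) :
    ∃ c : ℝ, Tendsto (fun x : Vx d => μ.real (dw F ∩ cn 0 x) / μ.real (cn 0 x)) cofinite
      (𝓝 c) := by
  exact XL_lim hd _ fun κ hκ i ε => sector_est hd hβ hμ hlim hχ F κ hκ i ε

end H82.IC

end S_H82_IC_XL
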