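import Mathlib
import Pool.Agent.H82.ICM.G06
import Pool.Agent.H82.ICM.G08
import Pool.Agent.H82.ICM.G09
import Pool.Agent.H82.ICM.G11
import Pool.Agent.H82.ICM.G12

/-! MP_c4c051_pr: this file joins several modules to save build time. -/

section S_H82_IC_FWB

/-!
# FWB: the free/wired double trace in the box `Λ_N`

Graph `GN d (N+1)`, `K = sb (bE (N+1)) (bE N)`, `τ = tanh β` constant; `nuN β N X = PF K τ 0 0 (1[ext false N (N+1) ω ∈ X])`.
`tW K τ = tw d β N` (`setT (E1) (E1) τ`), `tF K τ = setT (E1 d N (N+1)) ∅ τ`.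
* `nuN_meas`: `nuN β N` is given by a probability measure: finite sum of Dirac masses (weights `≥ 0`, total `pf_one = 1`).
* `nuN_cn`: for all `x y`: `nuN (cn x y) ≤ phiB β N false (cn x y)`: connection in `ext false N (N+1) ω` is connection in `ω ∩ K` (`vl`, `conn_rs`); `pf_conn`, `tp (tW) ≤ 1`, and
  `tp (tF) x y = phiB β N false (cn x y)` (`phiB_free` with `m = N`, `N+1`; `fkE_conn`; the edges outside `Λ_N` are closed almost surely).
* `nuN_diff`: for `e ∈ bE N`: `τ² (phiB β N true (up {e}) - phiB β N false (up {e})) ≤ nuN {ω | ∃ b ∈ bdry N, s e ↔ b}`: `fk_density` for `tW` and `tF`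
  (`phiB β N true (up {e}) = fkE tW 1[e ∈ ω]`, `phiB β N false (up {e}) = fkE tF 1[e ∈ ω]` by `phiB_wired`, `phiB_free`):
  `phiB true (up e) - phiB false (up e) = (τ/(1+τ)) (tp tW (s e) (r e) - tp tF (s e) (r e)) ≤ tp tW - tp tF ≤ PF 0 (src ..) (...)` (`pf_diff`), then `pf_src`
  (the function is monotone in `ω`).  The event: an edge `f ∉ K` of `GN (N+1)` with an end `z` connected to `s e` in `ω ∩ K`: `nm z ≤ N` (if `z = s e` clear; otherwise an edge of `bE N` ends at `z`) and `f ∉ bE N` so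
  `nm z = N`: `z ∈ bdry N`.
* `nuN_ins`: for `e ∈ bE N`: `τ² nuN {ω | opE e ω ∈ X} ≤ nuN X`: `pf_ins` with `f ω = 1[ext false N (N+1) ω ∈ X]`, `ext (insert e ω) = opE e (ext ω)`.
-/

set_option autoImplicit false

open Finset MeasureTheory Filter Topology

namespace H82.IC

variable {d : ℕ}

/-- law of the inside configuration. -/
noncomputable def nuN {d : ℕ} (β : ℝ) (N : ℕ) (X : Set (Cf d)) : ℝ :=
  (GN d (N + 1)).PF (sb (bE d (N + 1)) (bE d N)) (fun _ => Real.tanh β) 0 0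
    (fun ω => ind (ext false N (N + 1) ω ∈ X))

theorem FWB_tW (β : ℝ) (N : ℕ) :
    tW (sb (bE d (N + 1)) (bE d N)) (fun _ => Real.tanh β) = tw d β N := by
  funext e
  unfold tW tw setT
  by_cases h : e.1 ∈ bE d N
  · have h1 : e ∈ sb (bE d (N + 1)) (bE d N) := BR2_mem_sb.2 h
    have h2 : e ∉ E1 d N (N + 1) := fun h3 => BR2_mem_E1.1 h3 h
    rw [if_pos h1, if_neg h2, if_neg h2]
  · have h1 : e ∉ sb (bE d (N + 1)) (bE d N) := fun h3 => h (BR2_mem_sb.1 h3)
    have h2 : e ∈ E1 d N (N + 1) := BR2_mem_E1.2 h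
    rw [if_neg h1, if_pos h2]

theorem FWB_tF (β : ℝ) (N : ℕ) :
    tF (sb (bE d (N + 1)) (bE d N)) (fun _ => Real.tanh β) =
      setT (E1 d N (N + 1)) ∅ (fun _ => Real.tanh β) := by
  funext e
  unfold tF setT
  by_cases h : e.1 ∈ bE d N
  · have h1 : e ∈ sb (bE d (N + 1)) (bE d N) := BR2_mem_sb.2 h
    have h2 : e ∉ E1 d N (N + 1) := fun h3 => BR2_mem_E1.1 h3 h
    rw [if_pos h1, if_neg (Finset.notMem_empty _), if_neg h2]
  · have h1 : e ∉ sb (bE d (N + 1)) (bE d N) := fun h3 => h (BR2_mem_sb.1 h3)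
    have h2 : e ∈ E1 d N (N + 1) := BR2_mem_E1.2 h
    rw [if_neg h1, if_neg (Finset.notMem_empty _), if_pos h2]

theorem FWB_opn (N : ℕ) (ω : Finset ↥(bE d (N + 1))) (e : Ed d) :
    e ∈ opn (ext false N (N + 1) ω) ↔ e ∈ bE d N ∧ e ∈ vl ω := by
  show glue (bE d N) (fun _ => false) (vl ω) e = true ↔ _
  unfold glue
  by_cases h : e ∈ bE d N
  · rw [if_pos h, decide_eq_true_iff]
    exact ⟨fun h1 => ⟨h, h1⟩, fun h1 => h1.2⟩
  · rw [if_neg h]
    exact ⟨fun h1 => absurd (show (false : Bool) = true from h1) (by decide),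
      fun h1 => absurd h1.1 h⟩

theorem FWB_conn (N : ℕ) (ω : Finset ↥(bE d (N + 1))) (x y : Vx d) :
    ext false N (N + 1) ω ∈ cn x y ↔
      (GN d (N + 1)).Conn ((ω : Set ↥(bE d (N + 1))) ∩ (sb (bE d (N + 1)) (bE d N) : Finset _)) x y := by
  classical
  rw [← Finset.coe_inter]
  have h1 : (GN d (N + 1)).Conn (((ω ∩ sb (bE d (N + 1)) (bE d N) : Finset _)) :
      Set ↥(bE d (N + 1))) x y ↔
      (Zl d).Conn (vl (ω ∩ sb (bE d (N + 1)) (bE d N)) : Set (Ed d)) x y :=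
    conn_rs (Zl d) (bE d (N + 1)) (ω ∩ sb (bE d (N + 1)) (bE d N)) x y
  have h2 : opn (ext false N (N + 1) ω) =
      (vl (ω ∩ sb (bE d (N + 1)) (bE d N)) : Set (Ed d)) := by
    ext e
    rw [FWB_opn, Finset.mem_coe, BR2_mem_vl, BR2_mem_vl]
    constructor
    · rintro ⟨h3, h4, h5⟩
      exact ⟨h4, Finset.mem_inter.2 ⟨h5, BR2_mem_sb.2 h3⟩⟩
    · rintro ⟨h4, h5⟩
      exact ⟨BR2_mem_sb.1 (Finset.mem_inter.1 h5).2, h4, (Finset.mem_inter.1 h5).1⟩
  rw [h1, ← h2]
  rfl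

/-- the weight of a configuration. -/
noncomputable def FWB_w (d : ℕ) (β : ℝ) (N : ℕ) (ω : Finset ↥(bE d (N + 1))) : ℝ :=
  (∑ η : ↥(bE d (N + 1)) → ZMod 2 × ZMod 2,
    ind ((GN d (N + 1)).bd η = pr 0 0) *
      ∏ e, wFW (sb (bE d (N + 1)) (bE d N)) (fun _ => Real.tanh β) e (η e) (decide (e ∈ ω))) /
    ((GN d (N + 1)).z (tF (sb (bE d (N + 1)) (bE d N)) (fun _ => Real.tanh β)) 0 *
      (GN d (N + 1)).z (tW (sb (bE d (N + 1)) (bE d N)) (fun _ => Real.tanh β)) 0)

theorem FWB_PF (β : ℝ) (N : ℕ) (f : Finset ↥(bE d (N + 1)) → ℝ) :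
    (GN d (N + 1)).PF (sb (bE d (N + 1)) (bE d N)) (fun _ => Real.tanh β) 0 0 f =
      ∑ ω, FWB_w d β N ω * f ω := by
  unfold Gr.PF Gr.trc FWB_w
  rw [Finset.sum_comm, Finset.sum_div]
  refine Finset.sum_congr rfl fun ω _ => ?_
  rw [div_mul_eq_mul_div, Finset.sum_mul]
  congr 1
  refine Finset.sum_congr rfl fun η _ => ?_
  ring

theorem FWB_T01F {β : ℝ} (hβ : 0 ≤ β) (N : ℕ) :
    T01 (tF (sb (bE d (N + 1)) (bE d N)) (fun _ => Real.tanh β)) := by
  rw [FWB_tF]
  exact T01_setT (T01_tanh β hβ) _ _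

theorem FWB_T01W {β : ℝ} (hβ : 0 ≤ β) (N : ℕ) :
    T01 (tW (sb (bE d (N + 1)) (bE d N)) (fun _ => Real.tanh β)) := by
  rw [FWB_tW]
  exact LX1_T01 hβ N

theorem FWB_w_nonneg {β : ℝ} (hβ : 0 ≤ β) (N : ℕ) (ω : Finset ↥(bE d (N + 1))) :
    0 ≤ FWB_w d β N ω := by
  unfold FWB_w
  refine div_nonneg (Finset.sum_nonneg fun η _ => mul_nonneg (ind_nonneg _)
    (Finset.prod_nonneg fun e _ => wFW_nonneg (T01_tanh β hβ) _ _ _ _)) ?_
  exact mul_nonneg (z_nonneg _ (FWB_T01F hβ N) _) (z_nonneg _ (FWB_T01W hβ N) _)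

theorem FWB_total {β : ℝ} (hβ : 0 ≤ β) (N : ℕ) : ∑ ω, FWB_w d β N ω = 1 := by
  have h1 := FWB_PF (d := d) β N (fun _ => 1)
  simp only [mul_one] at h1
  rw [← h1, pf_one _ (T01_tanh β hβ)]
  have e1 : (GN d (N + 1)).z (tF (sb (bE d (N + 1)) (bE d N)) (fun _ => Real.tanh β)) 0 ≠ 0 := by
    have := one_le_z (GN d (N + 1)) (FWB_T01F (d := d) hβ N)
    linarith
  have e2 : (GN d (N + 1)).z (tW (sb (bE d (N + 1)) (bE d N)) (fun _ => Real.tanh β)) 0 ≠ 0 := by
    have := one_le_z (GN d (N + 1)) (FWB_T01W (d := d) hβ N)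
    linarith
  rw [div_self e1, div_self e2, mul_one]

theorem nuN_meas {β : ℝ} (hβ : 0 ≤ β) (N : ℕ) :
    ∃ ν : Measure (Cf d), IsProbabilityMeasure ν ∧
      ∀ X : Set (Cf d), MeasurableSet X → ν.real X = nuN β N X := by
  classical
  let w : Finset ↥(bE d (N + 1)) → ℝ := FWB_w d β N
  have hw : ∀ ω, 0 ≤ w ω := FWB_w_nonneg hβ N
  let ν : Measure (Cf d) := ∑ ω : Finset ↥(bE d (N + 1)),
    ENNReal.ofReal (w ω) • Measure.dirac (ext false N (N + 1) ω)
  have hν : ∀ X : Set (Cf d), MeasurableSet X → ν X =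
      ENNReal.ofReal (∑ ω : Finset ↥(bE d (N + 1)), w ω * ind (ext false N (N + 1) ω ∈ X)) := by
    intro X hX
    have h1 : ν X = ∑ ω : Finset ↥(bE d (N + 1)),
        ENNReal.ofReal (w ω) * (Measure.dirac (ext false N (N + 1) ω)) X := by
      simp only [ν, Measure.finsetSum_apply, Measure.smul_apply, smul_eq_mul]
    rw [h1, ENNReal.ofReal_sum_of_nonneg fun ω _ => mul_nonneg (hw ω) (BR2_ind_nonneg _)]
    refine Finset.sum_congr rfl fun ω _ => ?_
    rw [ENNReal.ofReal_mul (hw ω), Measure.dirac_apply' _ hX]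
    congr 1
    unfold ind
    by_cases h2 : ext false N (N + 1) ω ∈ X
    · rw [if_pos h2, Set.indicator_of_mem h2]
      simp
    · rw [if_neg h2, Set.indicator_of_notMem h2]
      simp
  have hsum : ∀ X : Set (Cf d),
      ∑ ω : Finset ↥(bE d (N + 1)), w ω * ind (ext false N (N + 1) ω ∈ X) = nuN β N X := by
    intro X
    unfold nuN
    rw [FWB_PF]
  have hnn : ∀ X : Set (Cf d), 0 ≤ nuN β N X := by
    intro X
    rw [← hsum]
    exact Finset.sum_nonneg fun ω _ => mul_nonneg (hw ω) (ind_nonneg _)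
  have hreal : ∀ X : Set (Cf d), MeasurableSet X → ν.real X = nuN β N X := by
    intro X hX
    rw [measureReal_def, hν X hX, hsum, ENNReal.toReal_ofReal (hnn X)]
  refine ⟨ν, ⟨?_⟩, hreal⟩
  rw [hν _ MeasurableSet.univ]
  have h3 : ∑ ω : Finset ↥(bE d (N + 1)), w ω *
      ind (ext false N (N + 1) ω ∈ (Set.univ : Set (Cf d))) = 1 := by
    rw [← FWB_total (d := d) hβ N]
    refine Finset.sum_congr rfl fun ω _ => ?_
    rw [ind_true (Set.mem_univ _), mul_one]
  rw [h3, ENNReal.ofReal_one]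

theorem FWB_phiF {β : ℝ} (hβ : 0 ≤ β) (N : ℕ) (x y : Vx d) :
    (GN d (N + 1)).tp (tF (sb (bE d (N + 1)) (bE d N)) (fun _ => Real.tanh β)) x y =
      phiB β N false (cn x y) := by
  classical
  rw [phiB_free hβ (Nat.le_succ N) (cn x y), ← fkE_conn, FWB_tF]
  apply fkE_setT_supp _ (T01_tanh β hβ) (Finset.empty_subset _)
  intro ω hω
  have h1 : (ω : Set ↥(bE d (N + 1))) ∩ (sb (bE d (N + 1)) (bE d N) : Finset _) = ω := by
    ext e
    constructor
    · exact fun h => h.1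
    · intro h
      refine ⟨h, ?_⟩
      by_contra hcon
      have h2 : e ∈ ω ∩ E1 d N (N + 1) :=
        Finset.mem_inter.2 ⟨h, BR2_mem_E1.2 fun h3 => hcon (BR2_mem_sb.2 h3)⟩
      rw [hω] at h2
      exact Finset.notMem_empty _ h2
  have h2 : (ext false N (N + 1) ω ∈ cn x y) =
      (GN d (N + 1)).Conn (ω : Set ↥(bE d (N + 1))) x y := by
    apply propext
    rw [FWB_conn, h1]
  rw [h2]

theorem nuN_cn {β : ℝ} (hβ : 0 ≤ β) (N : ℕ) (x y : Vx d) :
    nuN β N (cn x y) ≤ phiB β N false (cn x y) := by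
  have h1 : nuN β N (cn x y) =
      (GN d (N + 1)).tp (tF (sb (bE d (N + 1)) (bE d N)) (fun _ => Real.tanh β)) x y *
        (GN d (N + 1)).tp (tW (sb (bE d (N + 1)) (bE d N)) (fun _ => Real.tanh β)) x y := by
    rw [← pf_conn _ (T01_tanh β hβ)]
    unfold nuN
    congr 1
    funext ω
    rw [propext (FWB_conn N ω x y)]
  rw [h1, ← FWB_phiF hβ N x y]
  exact mul_le_of_le_one_right (tp_nonneg _ (FWB_T01F hβ N) _ _) (tp_le_one _ (FWB_T01W hβ N) _ _)

theorem FWB_nm (N : ℕ) (ω : Finset ↥(bE d (N + 1))) {x z : Vx d} (hx : nm x ≤ N)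
    (h : ext false N (N + 1) ω ∈ cn x z) : nm z ≤ N := by
  have h' : (Zl d).Conn (opn (ext false N (N + 1) ω)) x z := h
  induction h' with
  | refl => exact hx
  | tail _ hyz ih =>
    obtain ⟨e, he, hor⟩ := hyz
    have h1 := mem_bE.1 ((FWB_opn N ω e).1 he).1
    rcases hor with ⟨_, h3⟩ | ⟨h3, _⟩
    · rw [← h3]; exact h1.2
    · rw [← h3]; exact h1.1

theorem nuN_diff (hd : 2 ≤ d) {β : ℝ} (hβ : 0 ≤ β) (N : ℕ) {e : Ed d} (he : e ∈ bE d N) :
    Real.tanh β ^ 2 * (phiB β N true (up {e}) - phiB β N false (up {e})) ≤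
      nuN β N {ω : Cf d | ∃ b ∈ bdry d N, ω ∈ cn ((Zl d).s e) b} := by
  classical
  have hd1 : 1 ≤ d := by omega
  obtain ⟨e', he'⟩ : ∃ e' : ↥(bE d (N + 1)), e'.1 = e := ⟨⟨e, bE_mono (Nat.le_succ N) he⟩, rfl⟩
  have heK : e' ∈ sb (bE d (N + 1)) (bE d N) := BR2_mem_sb.2 (by rw [he']; exact he)
  have hmem : ∀ (b : Bool) (ω : Finset ↥(bE d (N + 1))),
      (ext b N (N + 1) ω ∈ up {e}) = (e' ∈ ω) := by
    intro b ω
    apply propext
    have h1 : ext b N (N + 1) ω e = decide (e ∈ vl ω) := by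
      unfold ext glue
      rw [if_pos he]
    constructor
    · intro h
      have h2 : ext b N (N + 1) ω e = true := h e (Finset.mem_singleton_self e)
      rw [h1, decide_eq_true_iff, BR2_mem_vl] at h2
      obtain ⟨h3, h4⟩ := h2
      have h5 : e' = ⟨e, h3⟩ := Subtype.ext he'
      rw [h5]
      exact h4
    · intro h f hf
      rw [Finset.mem_singleton] at hf
      rw [hf, h1, decide_eq_true_iff, BR2_mem_vl]
      exact ⟨bE_mono (Nat.le_succ N) he, by
        have h5 : e' = ⟨e, bE_mono (Nat.le_succ N) he⟩ := Subtype.ext he'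
        rw [← h5]
        exact h⟩
  have hτ := tanh_mem β hβ
  have hT : phiB β N true (up {e}) = (GN d (N + 1)).fkE
      (tW (sb (bE d (N + 1)) (bE d N)) (fun _ => Real.tanh β)) (fun ω => ind (e' ∈ ω)) := by
    rw [phiB_wired hd hβ (le_refl (N + 1)) (up {e}), FWB_tW]
    simp only [hmem]
    rfl
  have hF : phiB β N false (up {e}) = (GN d (N + 1)).fkE
      (tF (sb (bE d (N + 1)) (bE d N)) (fun _ => Real.tanh β)) (fun ω => ind (e' ∈ ω)) := by
    rw [phiB_free hβ (Nat.le_succ N) (up {e}), FWB_tF]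
    simp only [hmem]
  have h1 := fk_density (GN d (N + 1)) (FWB_T01W (d := d) hβ N) e'
  have h2 := fk_density (GN d (N + 1)) (FWB_T01F (d := d) hβ N) e'
  have eW : tW (sb (bE d (N + 1)) (bE d N)) (fun _ => Real.tanh β) e' = Real.tanh β := by
    unfold tW
    rw [if_pos heK]
  have eF : tF (sb (bE d (N + 1)) (bE d N)) (fun _ => Real.tanh β) e' = Real.tanh β := by
    unfold tF
    rw [if_pos heK]
  rw [fkE_conn, eW, ← hT] at h1
  rw [fkE_conn, eF, ← hF] at h2
  have h3 : (GN d (N + 1)).tp (tF (sb (bE d (N + 1)) (bE d N)) (fun _ => Real.tanh β))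
        ((GN d (N + 1)).s e') ((GN d (N + 1)).r e') ≤
      (GN d (N + 1)).tp (tW (sb (bE d (N + 1)) (bE d N)) (fun _ => Real.tanh β))
        ((GN d (N + 1)).s e') ((GN d (N + 1)).r e') := by
    apply tp_mono _ (FWB_T01F hβ N) (FWB_T01W hβ N)
    intro f
    unfold tF tW
    split_ifs
    · exact le_rfl
    · exact zero_le_one
  have h4 : phiB β N true (up {e}) - phiB β N false (up {e}) ≤
      (GN d (N + 1)).tp (tW (sb (bE d (N + 1)) (bE d N)) (fun _ => Real.tanh β))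
        ((GN d (N + 1)).s e') ((GN d (N + 1)).r e') -
      (GN d (N + 1)).tp (tF (sb (bE d (N + 1)) (bE d N)) (fun _ => Real.tanh β))
        ((GN d (N + 1)).s e') ((GN d (N + 1)).r e') := by
    have hpos : 0 < 1 + Real.tanh β := by linarith [hτ.1]
    refine le_of_mul_le_mul_left ?_ hpos
    nlinarith
  have h5 := pf_diff (GN d (N + 1)) (T01_tanh β hβ) (sb (bE d (N + 1)) (bE d N))
    ((GN d (N + 1)).s e') ((GN d (N + 1)).r e')
  have h6 := pf_src (GN d (N + 1)) (T01_tanh β hβ) (sb (bE d (N + 1)) (bE d N)) heK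
    (f := fun ω => ind (∃ f, f ∉ sb (bE d (N + 1)) (bE d N) ∧
        ((GN d (N + 1)).Conn ((ω : Set ↥(bE d (N + 1))) ∩ (sb (bE d (N + 1)) (bE d N) : Finset _))
            ((GN d (N + 1)).s e') ((GN d (N + 1)).s f) ∨
          (GN d (N + 1)).Conn ((ω : Set ↥(bE d (N + 1))) ∩ (sb (bE d (N + 1)) (bE d N) : Finset _))
            ((GN d (N + 1)).s e') ((GN d (N + 1)).r f))))
    (fun ω => ind_nonneg _)
    (by
      intro ω ω' hω
      apply ind_mono
      rintro ⟨f, hf, hc⟩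
      have hsub : (ω : Set ↥(bE d (N + 1))) ∩ (sb (bE d (N + 1)) (bE d N) : Finset _) ⊆
          (ω' : Set ↥(bE d (N + 1))) ∩ (sb (bE d (N + 1)) (bE d N) : Finset _) :=
        Set.inter_subset_inter_left _ (Finset.coe_subset.2 hω)
      rcases hc with hc | hc
      · exact ⟨f, hf, Or.inl (conn_mono _ hsub hc)⟩
      · exact ⟨f, hf, Or.inr (conn_mono _ hsub hc)⟩)
  have h7 : (GN d (N + 1)).PF (sb (bE d (N + 1)) (bE d N)) (fun _ => Real.tanh β) 0 0
      (fun ω => ind (∃ f, f ∉ sb (bE d (N + 1)) (bE d N) ∧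
        ((GN d (N + 1)).Conn ((ω : Set ↥(bE d (N + 1))) ∩ (sb (bE d (N + 1)) (bE d N) : Finset _))
            ((GN d (N + 1)).s e') ((GN d (N + 1)).s f) ∨
          (GN d (N + 1)).Conn ((ω : Set ↥(bE d (N + 1))) ∩ (sb (bE d (N + 1)) (bE d N) : Finset _))
            ((GN d (N + 1)).s e') ((GN d (N + 1)).r f)))) ≤
      nuN β N {ω : Cf d | ∃ b ∈ bdry d N, ω ∈ cn ((Zl d).s e) b} := by
    unfold nuN
    apply pf_mono _ (T01_tanh β hβ)
    intro ω
    apply ind_mono
    rintro ⟨f, hf, hc⟩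
    have hs : (GN d (N + 1)).s e' = (Zl d).s e := by
      show (Zl d).s e'.1 = (Zl d).s e
      rw [he']
    have hfN : ¬ (nm ((Zl d).s f.1) ≤ N ∧ nm ((Zl d).r f.1) ≤ N) := by
      intro h
      exact hf (BR2_mem_sb.2 (mem_bE.2 h))
    have hn0 : nm ((Zl d).s e) ≤ N := (mem_bE.1 he).1
    have hadj : Zadj ((Zl d).s f.1) ((Zl d).r f.1) := ⟨f.1.2, Or.inl rfl⟩
    have hadj' : Zadj ((Zl d).r f.1) ((Zl d).s f.1) := ⟨f.1.2, Or.inr rfl⟩
    rcases hc with hc | hc
    · rw [hs, ← FWB_conn] at hc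
      have h8 : nm ((Zl d).s f.1) ≤ N := FWB_nm N ω hn0 hc
      have h9 := G1_zadj hadj
      have h10 : N < nm ((Zl d).r f.1) := by
        by_contra hcon
        exact hfN ⟨h8, not_lt.1 hcon⟩
      exact ⟨(Zl d).s f.1, (mem_bdry hd1).2 (by omega), hc⟩
    · rw [hs, ← FWB_conn] at hc
      have h8 : nm ((Zl d).r f.1) ≤ N := FWB_nm N ω hn0 hc
      have h9 := G1_zadj hadj'
      have h10 : N < nm ((Zl d).s f.1) := by
        by_contra hcon
        exact hfN ⟨not_lt.1 hcon, h8⟩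
      exact ⟨(Zl d).r f.1, (mem_bdry hd1).2 (by omega), hc⟩
  refine le_trans ?_ (h6.trans h7)
  exact mul_le_mul_of_nonneg_left (h4.trans h5) (sq_nonneg _)

theorem nuN_ins {β : ℝ} (hβ : 0 ≤ β) (N : ℕ) {e : Ed d} (he : e ∈ bE d N) (X : Set (Cf d)) :
    Real.tanh β ^ 2 * nuN β N {ω | opE e ω ∈ X} ≤ nuN β N X := by
  classical
  obtain ⟨e', he'⟩ : ∃ e' : ↥(bE d (N + 1)), e'.1 = e := ⟨⟨e, bE_mono (Nat.le_succ N) he⟩, rfl⟩
  have heK : e' ∈ sb (bE d (N + 1)) (bE d N) := BR2_mem_sb.2 (by rw [he']; exact he)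
  have h1 := pf_ins (GN d (N + 1)) (T01_tanh β hβ) (sb (bE d (N + 1)) (bE d N)) heK
    (f := fun ω => ind (ext false N (N + 1) ω ∈ X)) (fun ω => ind_nonneg _)
  refine le_trans (le_of_eq ?_) h1
  unfold nuN
  congr 2
  funext ω
  have h2 : ext false N (N + 1) (insert e' ω) = opE e (ext false N (N + 1) ω) := by
    funext f
    unfold ext glue opE
    by_cases hfe : f = e
    · rw [hfe, Function.update_self, if_pos he, decide_eq_true_iff, BR2_mem_vl]
      exact ⟨bE_mono (Nat.le_succ N) he, by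
        have h5 : e' = ⟨e, bE_mono (Nat.le_succ N) he⟩ := Subtype.ext he'
        rw [← h5]
        exact Finset.mem_insert_self _ _⟩
    · rw [Function.update_of_ne hfe]
      by_cases hf : f ∈ bE d N
      · rw [if_pos hf, if_pos hf]
        apply decide_eq_decide.2
        rw [BR2_mem_vl, BR2_mem_vl]
        constructor
        · rintro ⟨h3, h4⟩
          refine ⟨h3, (Finset.mem_insert.1 h4).resolve_left ?_⟩
          intro h5
          apply hfe
          rw [← he', ← h5]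
        · rintro ⟨h3, h4⟩
          exact ⟨h3, Finset.mem_insert_of_mem h4⟩
      · rw [if_neg hf, if_neg hf]
  show ind (opE e (ext false N (N + 1) ω) ∈ X) = ind (ext false N (N + 1) (insert e' ω) ∈ X)
  rw [h2]

end H82.IC

end S_H82_IC_FWB

section S_H82_IC_FWC

/-!
# FWC: averaged double trace, infinite volume limit

For `k : ℕ` let `av k X = (1/|bx k|) ∑_{a ∈ bx k} nuN β (2k) {ω | shf a ω ∈ X}`: given by a probability measure (average of images of `nuN_meas`).  `exists_ultra_limit`: `ν` with `av k X → ν X` along the ultrafilter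
for all cylinder `X`.  (`hyperfilter ℕ ≤ cofinite`, `= atTop`: everything true for all large `k` may be used.)
* `TI ν`: for cylinder `X`, `b`: `|av k {shf b ω ∈ X} - av k X| ≤ |bx k Δ (bx k + b)|/|bx k| → 0` (`shf b (shf a ω) = shf (a+b) ω`), so `ν {shf b ω ∈ X} = ν X` for cylinder `X`, hence for all measurable `X`
  (`ti_of_lcl` in INL).
* `INS ν (1/τ²)`: for cylinder `X` and `k` so large that `e + a ∈ bE (2k)` for all `a ∈ bx k`: `opE e (shf a ω) = shf a (opE (e+a) ω)`, `nuN_ins`; limit.  Extension to measurable `X`: `ins_of_lcl` in INL (ignore the rest of this item): the two finite measures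
  `ν.map (opE e)` and `(1/τ²) ν`; for closed `X`: decreasing intersection of the cylinder events `{ω | ∃ ω' ∈ X, ω = ω' on bE n}` (compactness), then inner regularity by closed sets.  (Or: approximate `X` in measure for
  the sum of the two measures by cylinder events.)
* `cn`: for cylinder `cnB r x y`: `nuN β (2k) {shf a ω ∈ cnB r x y} ≤ nuN β (2k) (cn (x+a) (y+a)) ≤ phiB β (2k) false (cn (x+a) (y+a)) ≤ μ0 (cn (x+a) (y+a)) = μ0 (cn x y)` (`free_le_cn` with `S = ∅`, `G_shift`), so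
  `ν (cnB r x y) ≤ μ0 (cn x y)`, and `r → ∞` (`tendsto_cnB` with `S = ∅`).
* `diff`: for an edge `e`, `l ≥ 1`: for `a ∈ bx k`, `k` large: `nuN_diff` for the edge `e + a` in `Λ_{2k}`: `{∃ b ∈ bdry (2k), s e + a ↔ b} ⊆ {shf a ω ∈ arm l (s e)}`-type event: from `s e + a` to norm `2k` the path leaves the box
  of radius `l` around `a` (`l ≥ nm (s e)`, `k ≥ l + ..`), so `shf a ω ∈ arm l (s e)` (`exit_box` for `shf a ω`).  And `phiB β (2k) true (up {e+a}) ≥ μ1 (up {e+a}) = μ1 (up {e})` (`wired_ge`, `wired_shift`), `phiB β (2k) false (up {e+a}) ≤ μ0 (up {e+a})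
  = μ0 (up {e})` (`free_le`, `lim_shift`).  Average over `a` and limit: `τ² (μ1 (up {e}) - μ0 (up {e})) ≤ ν (arm l (s e))` for all `l ≥ nm (s e)`.
-/

set_option autoImplicit false

open Finset MeasureTheory Filter Topology

namespace H82.IC

variable {d : ℕ}

theorem FWC_avg {α : Type} (B : Finset α) (hB : B.Nonempty) (m : α → Measure (Cf d))
    (hm : ∀ a, IsProbabilityMeasure (m a)) :
    ∃ ν : Measure (Cf d), IsProbabilityMeasure ν ∧
      ∀ X : Set (Cf d), ν.real X = (∑ a ∈ B, (m a).real X) / B.card := by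
  have hc : (0 : ℝ) < B.card := by exact_mod_cast hB.card_pos
  let ν : Measure (Cf d) := ∑ a ∈ B, ENNReal.ofReal (1 / (B.card : ℝ)) • m a
  have hν : ∀ X : Set (Cf d), ν X = ENNReal.ofReal ((∑ a ∈ B, (m a).real X) / B.card) := by
    intro X
    have h1 : ν X = ∑ a ∈ B, ENNReal.ofReal (1 / (B.card : ℝ)) * m a X := by
      simp only [ν, Measure.finsetSum_apply, Measure.smul_apply, smul_eq_mul]
    rw [h1, Finset.sum_div, ENNReal.ofReal_sum_of_nonneg fun a _ =>
      div_nonneg measureReal_nonneg hc.le]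
    refine Finset.sum_congr rfl fun a _ => ?_
    have := hm a
    rw [div_eq_mul_one_div ((m a).real X), mul_comm ((m a).real X),
      ENNReal.ofReal_mul (by positivity), ofReal_measureReal]
  have hn : ∀ X : Set (Cf d), 0 ≤ (∑ a ∈ B, (m a).real X) / B.card := fun X =>
    div_nonneg (Finset.sum_nonneg fun a _ => measureReal_nonneg) hc.le
  refine ⟨ν, ⟨?_⟩, fun X => ?_⟩
  · rw [hν]
    have h2 : ∑ a ∈ B, (m a).real Set.univ = B.card := by
      have h3 : ∀ a ∈ B, (m a).real Set.univ = 1 := fun a _ => by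
        have := hm a
        exact probReal_univ
      rw [Finset.sum_congr rfl h3, Finset.sum_const, nsmul_eq_mul, mul_one]
    rw [h2, div_self hc.ne', ENNReal.ofReal_one]
  · rw [measureReal_def, hν, ENNReal.toReal_ofReal (hn X)]

theorem FWC_ne (k : ℕ) : (bx d k).Nonempty := ⟨0, mem_bx.2 (by rw [nm_zero]; exact Nat.zero_le k)⟩

theorem FWC_ex {β : ℝ} (hβ : 0 ≤ β) : ∃ (M Av : ℕ → Measure (Cf d)),
    (∀ N, IsProbabilityMeasure (M N)) ∧
    (∀ N (X : Set (Cf d)), MeasurableSet X → (M N).real X = nuN β N X) ∧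
    (∀ k, IsProbabilityMeasure (Av k)) ∧
    ∀ k (X : Set (Cf d)), MeasurableSet X → (Av k).real X =
      (∑ a ∈ bx d k, (M (2 * k)).real {ω | shf a ω ∈ X}) / ((bx d k).card : ℝ) := by
  choose M hMp hM using fun N => nuN_meas (d := d) hβ N
  have h1 : ∀ k, ∃ ν : Measure (Cf d), IsProbabilityMeasure ν ∧
      ∀ X : Set (Cf d), ν.real X = (∑ a ∈ bx d k, ((M (2 * k)).map (shf a)).real X) /
        (bx d k).card := fun k => by
    have := hMp (2 * k)
    exact FWC_avg (bx d k) (FWC_ne k) (fun a => (M (2 * k)).map (shf a)) fun a =>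
      Measure.isProbabilityMeasure_map (shf_measurable a).aemeasurable
  choose Av hAvp hAv using h1
  refine ⟨M, Av, hMp, hM, hAvp, fun k X hX => ?_⟩
  rw [hAv]
  congr 1
  refine Finset.sum_congr rfl fun a _ => ?_
  exact map_measureReal_apply (shf_measurable a) hX

theorem FWC_shf (a b : Vx d) (ω : Cf d) : shf b (shf a ω) = shf (a + b) ω := by
  funext e
  show ω (e.1 + b + a, e.2) = ω (e.1 + (a + b), e.2)
  rw [add_assoc, add_comm b a]

theorem FWC_lcl_shf (a : Vx d) {X : Set (Cf d)} (hX : Lcl X) : Lcl {ω | shf a ω ∈ X} := by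
  classical
  obtain ⟨F, hF⟩ := hX
  refine ⟨F.image fun e => (e.1 + a, e.2), fun ω ω' h => hF _ _ fun e he => ?_⟩
  exact h _ (Finset.mem_image.2 ⟨e, he, rfl⟩)

theorem FWC_lcl_op (e : Ed d) {X : Set (Cf d)} (hX : Lcl X) : Lcl {ω | opE e ω ∈ X} := by
  obtain ⟨F, hF⟩ := hX
  refine ⟨F, fun ω ω' h => hF _ _ fun f hf => ?_⟩
  unfold opE
  by_cases h1 : f = e
  · rw [h1, Function.update_self, Function.update_self]
  · rw [Function.update_of_ne h1, Function.update_of_ne h1]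
    exact h f hf

theorem FWC_op (e : Ed d) (a : Vx d) (ω : Cf d) :
    opE e (shf a ω) = shf a (opE (e.1 + a, e.2) ω) := by
  funext f
  unfold opE shf
  by_cases h1 : f = e
  · rw [h1, Function.update_self, Function.update_self]
  · rw [Function.update_of_ne h1, Function.update_of_ne]
    intro h2
    apply h1
    have h3 := congrArg Prod.fst h2
    have h4 := congrArg Prod.snd h2
    exact Prod.ext (add_right_cancel h3) h4

theorem FWC_act (a : Vx d) : ∃ g : LAut d, (∀ x, g.gV x = x + a) ∧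
    (∀ e, g.gE e = (e.1 + a, e.2)) ∧ ∀ ω : Cf d, act g ω = shf a ω := by
  obtain ⟨g, h1, h2⟩ := exists_trA a
  refine ⟨g, h1, h2, fun ω => ?_⟩
  funext e
  show ω (g.gE e) = ω (e.1 + a, e.2)
  rw [h2]

theorem FWC_cn (a : Vx d) (ω : Cf d) (x y : Vx d) :
    shf a ω ∈ cn x y ↔ ω ∈ cn (x + a) (y + a) := by
  obtain ⟨g, h1, h2, h3⟩ := FWC_act a
  rw [← h3, act_cn, h1, h1]

/-! ### translation invariance -/

theorem FWC_sub (C D : Finset (Vx d)) (h : D ⊆ C) (f : Vx d → ℝ) (h1 : ∀ a, f a ≤ 1) :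
    ∑ a ∈ C, f a ≤ ∑ a ∈ D, f a + ((C.card : ℝ) - D.card) := by
  classical
  rw [← Finset.sum_sdiff h]
  have h2 : ∑ a ∈ C \ D, f a ≤ ((C \ D).card : ℝ) := by
    refine (Finset.sum_le_card_nsmul _ _ 1 fun a _ => h1 a).trans (le_of_eq ?_)
    rw [nsmul_eq_mul, mul_one]
  have h3 : ((C \ D).card : ℝ) = (C.card : ℝ) - D.card := by
    rw [Finset.card_sdiff_of_subset h, Nat.cast_sub (Finset.card_le_card h)]
  linarith

theorem FWC_sym (k : ℕ) (b : Vx d) (f : Vx d → ℝ) (h0 : ∀ a, 0 ≤ f a) (h1 : ∀ a, f a ≤ 1) :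
    |∑ a ∈ bx d k, f (a + b) - ∑ a ∈ bx d k, f a| ≤
      ((bx d (k + nm b)).card : ℝ) - (bx d k).card := by
  classical
  have e1 : ∑ a ∈ bx d k, f (a + b) = ∑ a ∈ (bx d k).map (addRightEmbedding b), f a := by
    rw [Finset.sum_map]
    rfl
  have s1 : bx d k ⊆ bx d (k + nm b) := bx_mono (Nat.le_add_right _ _)
  have s2 : (bx d k).map (addRightEmbedding b) ⊆ bx d (k + nm b) := by
    intro x hx
    obtain ⟨a, ha, rfl⟩ := Finset.mem_map.1 hx
    rw [mem_bx] at ha ⊢
    exact (nm_add a b).trans (Nat.add_le_add_right ha _)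
  have m1 := Finset.sum_le_sum_of_subset_of_nonneg s1 (f := f) fun a _ _ => h0 a
  have m2 := Finset.sum_le_sum_of_subset_of_nonneg s2 (f := f) fun a _ _ => h0 a
  have m3 := FWC_sub _ _ s1 f h1
  have m4 := FWC_sub _ _ s2 f h1
  rw [Finset.card_map] at m4
  rw [e1, abs_le]
  constructor <;> linarith

theorem FWC_lim (m : ℕ) : Tendsto (fun k : ℕ =>
    (((bx d (k + m)).card : ℝ) - (bx d k).card) / (bx d k).card) atTop (𝓝 0) := by
  have h1 : Tendsto (fun k : ℕ => 2 * (k : ℝ) + 1) atTop atTop :=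
    tendsto_atTop_add_const_right _ _
      (Tendsto.const_mul_atTop two_pos tendsto_natCast_atTop_atTop)
  have h2 : Tendsto (fun k : ℕ => (2 * (m : ℝ)) / (2 * (k : ℝ) + 1)) atTop (𝓝 0) :=
    tendsto_const_nhds.div_atTop h1
  have h3 : Tendsto (fun k : ℕ => (1 + (2 * (m : ℝ)) / (2 * (k : ℝ) + 1)) ^ d - 1) atTop
      (𝓝 ((1 + 0) ^ d - 1)) := ((tendsto_const_nhds.add h2).pow d).sub tendsto_const_nhds
  rw [add_zero, one_pow, sub_self] at h3
  refine h3.congr fun k => ?_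
  have h4 : (0 : ℝ) < 2 * (k : ℝ) + 1 := by positivity
  rw [card_bx, card_bx, sub_div]
  push_cast
  rw [div_self (pow_pos h4 d).ne', ← div_pow]
  congr 2
  field_simp
  ring

theorem FWC_hyp {p : ℕ → Prop} (h : ∀ᶠ k in atTop, p k) : ∀ᶠ k in (hyperfilter ℕ : Filter ℕ), p k := by
  rw [← Nat.cofinite_eq_atTop] at h
  exact hyperfilter_le_cofinite h

theorem FWC_TI {M Av : ℕ → Measure (Cf d)} (hMp : ∀ N, IsProbabilityMeasure (M N))
    (hAv : ∀ k (X : Set (Cf d)), MeasurableSet X → (Av k).real X =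
      (∑ a ∈ bx d k, (M (2 * k)).real {ω | shf a ω ∈ X}) / ((bx d k).card : ℝ))
    {ν : Measure (Cf d)}
    (hlim : ∀ X : Set (Cf d), Lcl X →
      Tendsto (fun n => (Av n).real X) (hyperfilter ℕ) (𝓝 (ν.real X)))
    (b : Vx d) (X : Set (Cf d)) (hX : Lcl X) : ν.real {ω | shf b ω ∈ X} = ν.real X := by
  have hX' := FWC_lcl_shf b hX
  have h1 := (hlim _ hX').sub (hlim _ hX)
  have h2 : Tendsto (fun k => (Av k).real {ω | shf b ω ∈ X} - (Av k).real X) atTop (𝓝 0) := by
    refine squeeze_zero_norm (fun k => ?_) (FWC_lim (d := d) (nm b))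
    rw [Real.norm_eq_abs, hAv k _ (lcl_measurable hX'), hAv k _ (lcl_measurable hX), ← sub_div,
      abs_div, Nat.abs_cast]
    refine div_le_div_of_nonneg_right ?_ (Nat.cast_nonneg _)
    have := hMp (2 * k)
    have h3 := FWC_sym k b (fun a => (M (2 * k)).real {ω | shf a ω ∈ X})
      (fun a => measureReal_nonneg) (fun a => measureReal_le_one)
    have h4 : ∀ a ∈ bx d k, (M (2 * k)).real {ω | shf a ω ∈ {ω | shf b ω ∈ X}} =
        (M (2 * k)).real {ω | shf (a + b) ω ∈ X} := by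
      intro a _
      congr 1
      ext ω
      show shf b (shf a ω) ∈ X ↔ shf (a + b) ω ∈ X
      rw [FWC_shf]
    rw [Finset.sum_congr rfl h4]
    exact h3
  have h3 : Tendsto (fun k => (Av k).real {ω | shf b ω ∈ X} - (Av k).real X)
      (hyperfilter ℕ) (𝓝 0) := by
    refine h2.mono_left ?_
    rw [← Nat.cofinite_eq_atTop]
    exact hyperfilter_le_cofinite
  exact sub_eq_zero.1 (tendsto_nhds_unique h1 h3)

theorem FWC_avg_le {B : Finset (Vx d)} (hB : B.Nonempty) (f : Vx d → ℝ) (c : ℝ)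
    (h : ∀ a ∈ B, f a ≤ c) : (∑ a ∈ B, f a) / (B.card : ℝ) ≤ c := by
  have hc : (0 : ℝ) < B.card := by exact_mod_cast hB.card_pos
  rw [div_le_iff₀ hc]
  refine (Finset.sum_le_card_nsmul _ _ c h).trans (le_of_eq ?_)
  rw [nsmul_eq_mul, mul_comm]

theorem FWC_avg_ge {B : Finset (Vx d)} (hB : B.Nonempty) (f : Vx d → ℝ) (c : ℝ)
    (h : ∀ a ∈ B, c ≤ f a) : c ≤ (∑ a ∈ B, f a) / (B.card : ℝ) := by
  have hc : (0 : ℝ) < B.card := by exact_mod_cast hB.card_pos
  rw [le_div_iff₀ hc]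
  refine le_trans (le_of_eq ?_) (Finset.card_nsmul_le_sum _ _ c h)
  rw [nsmul_eq_mul, mul_comm]

theorem FWC_bE (e : Ed d) : ∀ᶠ k : ℕ in atTop, ∀ a ∈ bx d k,
    ((e.1 + a, e.2) : Ed d) ∈ bE d (2 * k) := by
  filter_upwards [eventually_ge_atTop (max (nm ((Zl d).s e)) (nm ((Zl d).r e)))] with k hk a ha
  rw [mem_bx] at ha
  rw [mem_bE]
  have h1 := le_trans (le_max_left _ _) hk
  have h2 := le_trans (le_max_right _ _) hk
  refine ⟨?_, ?_⟩
  · have h3 := nm_add e.1 a
    have h4 : nm e.1 ≤ k := h1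
    change nm (e.1 + a) ≤ 2 * k
    omega
  · have h3 := nm_add (e.1 + Pi.single e.2 1) a
    have h4 : nm (e.1 + Pi.single e.2 1) ≤ k := h2
    change nm (e.1 + a + Pi.single e.2 1) ≤ 2 * k
    have h5 : e.1 + a + Pi.single e.2 1 = e.1 + Pi.single e.2 1 + a := by abel
    rw [h5]
    omega

theorem FWC_INS {β : ℝ} (hβ : 0 < β) {M Av : ℕ → Measure (Cf d)}
    (hM : ∀ N (X : Set (Cf d)), MeasurableSet X → (M N).real X = nuN β N X)
    (hAv : ∀ k (X : Set (Cf d)), MeasurableSet X → (Av k).real X =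
      (∑ a ∈ bx d k, (M (2 * k)).real {ω | shf a ω ∈ X}) / ((bx d k).card : ℝ))
    {ν : Measure (Cf d)}
    (hlim : ∀ X : Set (Cf d), Lcl X →
      Tendsto (fun n => (Av n).real X) (hyperfilter ℕ) (𝓝 (ν.real X)))
    (e : Ed d) (X : Set (Cf d)) (hX : Lcl X) :
    ν.real {ω | opE e ω ∈ X} ≤ 1 / Real.tanh β ^ 2 * ν.real X := by
  have hX' := FWC_lcl_op e hX
  have ht : 0 < Real.tanh β := by
    rw [Real.tanh_eq_sinh_div_cosh]
    exact div_pos (Real.sinh_pos_iff.2 hβ) (Real.cosh_pos β)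
  have ht2 : 0 < Real.tanh β ^ 2 := pow_pos ht 2
  refine le_of_tendsto_of_tendsto (hlim _ hX') ((hlim _ hX).const_mul _) (FWC_hyp ?_)
  filter_upwards [FWC_bE e] with k hk
  rw [hAv k _ (lcl_measurable hX'), hAv k _ (lcl_measurable hX), ← mul_div_assoc, Finset.mul_sum]
  refine div_le_div_of_nonneg_right (Finset.sum_le_sum fun a ha => ?_) (Nat.cast_nonneg _)
  have h1 : {ω : Cf d | shf a ω ∈ {ω | opE e ω ∈ X}} =
      {ω | opE (e.1 + a, e.2) ω ∈ {ω | shf a ω ∈ X}} := by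
    ext ω
    show opE e (shf a ω) ∈ X ↔ shf a (opE (e.1 + a, e.2) ω) ∈ X
    rw [FWC_op]
  have hm1 : MeasurableSet {ω : Cf d | shf a ω ∈ {ω | opE e ω ∈ X}} :=
    lcl_measurable (FWC_lcl_shf a hX')
  rw [hM _ _ hm1, hM _ _ (lcl_measurable (FWC_lcl_shf a hX)), h1]
  have h2 := nuN_ins hβ.le (2 * k) (hk a ha) {ω : Cf d | shf a ω ∈ X}
  rw [div_mul_eq_mul_div, one_mul, le_div_iff₀ ht2, mul_comm]
  exact h2

theorem FWC_up0 : (up (∅ : Finset (Ed d)) : Set (Cf d)) = Set.univ := by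
  ext ω
  refine ⟨fun _ => Set.mem_univ _, fun _ e he => absurd he (Finset.notMem_empty e)⟩

theorem FWC_cnb {β : ℝ} (hβ : 0 < β) {μ0 : Measure (Cf d)} (h0 : IsLim β false μ0)
    {M Av : ℕ → Measure (Cf d)} (hMp : ∀ N, IsProbabilityMeasure (M N))
    (hM : ∀ N (X : Set (Cf d)), MeasurableSet X → (M N).real X = nuN β N X)
    (hAv : ∀ k (X : Set (Cf d)), MeasurableSet X → (Av k).real X =
      (∑ a ∈ bx d k, (M (2 * k)).real {ω | shf a ω ∈ X}) / ((bx d k).card : ℝ))
    {ν : Measure (Cf d)} (hν : IsProbabilityMeasure ν)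
    (hlim : ∀ X : Set (Cf d), Lcl X →
      Tendsto (fun n => (Av n).real X) (hyperfilter ℕ) (𝓝 (ν.real X)))
    (x y : Vx d) : ν.real (cn x y) ≤ μ0.real (cn x y) := by
  have h1 := tendsto_cnB (μ := ν) ∅ x y
  rw [FWC_up0, Set.inter_univ] at h1
  refine le_of_tendsto' h1 fun r => ?_
  rw [Set.inter_univ]
  refine le_of_tendsto' (hlim _ (lcl_cnB r x y)) fun k => ?_
  rw [hAv k _ (lcl_measurable (lcl_cnB r x y))]
  refine FWC_avg_le (FWC_ne k) _ _ fun a _ => ?_
  have := hMp (2 * k)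
  have h2 : {ω : Cf d | shf a ω ∈ cnB r x y} ⊆ cn (x + a) (y + a) := by
    intro ω hω
    exact (FWC_cn a ω x y).1 (conn_mono _ Set.inter_subset_left hω)
  refine (measureReal_mono h2).trans ?_
  rw [hM _ _ (meas_cn _ _)]
  refine (nuN_cn hβ.le (2 * k) (x + a) (y + a)).trans ?_
  have h3 := free_le_cn hβ.le h0 (2 * k) ∅ (x + a) (y + a)
  rw [FWC_up0, Set.inter_univ] at h3
  refine h3.trans (le_of_eq ?_)
  rw [G_shift hβ.le h0 (x + a) (y + a), G_shift hβ.le h0 x y, add_sub_add_right_eq_sub]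

theorem FWC_up (hd : 2 ≤ d) {β : ℝ} (hβ : 0 < β) {μ0 : Measure (Cf d)} (h0 : IsLim β false μ0)
    (e : Ed d) (a : Vx d) : μ0.real (up {((e.1 + a, e.2) : Ed d)}) = μ0.real (up {e}) := by
  obtain ⟨g, h1, h2, h3⟩ := FWC_act a
  rw [← lim_shift hβ.le h0 g a h1 (up {e}) (lcl_measurable (lcl_up _))]
  congr 1
  ext ω
  show ω ∈ up {((e.1 + a, e.2) : Ed d)} ↔ act g ω ∈ up {e}
  rw [act_up, Finset.map_singleton]
  have h4 : g.gE.toEmbedding e = (e.1 + a, e.2) := h2 e
  rw [h4]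

theorem FWC_diff (hd : 2 ≤ d) {β : ℝ} (hβ : 0 < β) {μ0 μ1 : Measure (Cf d)}
    (h0 : IsLim β false μ0) (h1 : IsLim β true μ1)
    {M Av : ℕ → Measure (Cf d)} (hMp : ∀ N, IsProbabilityMeasure (M N))
    (hM : ∀ N (X : Set (Cf d)), MeasurableSet X → (M N).real X = nuN β N X)
    (hAv : ∀ k (X : Set (Cf d)), MeasurableSet X → (Av k).real X =
      (∑ a ∈ bx d k, (M (2 * k)).real {ω | shf a ω ∈ X}) / ((bx d k).card : ℝ))
    {ν : Measure (Cf d)}
    (hlim : ∀ X : Set (Cf d), Lcl X →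
      Tendsto (fun n => (Av n).real X) (hyperfilter ℕ) (𝓝 (ν.real X)))
    (e : Ed d) (l : ℕ) (hl : nm ((Zl d).s e) ≤ l) :
    Real.tanh β ^ 2 * (μ1.real (up {e}) - μ0.real (up {e})) ≤ ν.real (arm l ((Zl d).s e)) := by
  have hd1 : 1 ≤ d := by omega
  have hla : Lcl (arm l ((Zl d).s e) : Set (Cf d)) := lcl_arm hd1 hl
  refine ge_of_tendsto (hlim _ hla) (FWC_hyp ?_)
  filter_upwards [FWC_bE e, eventually_ge_atTop l] with k hk hkl
  rw [hAv k _ (lcl_measurable hla)]
  refine FWC_avg_ge (FWC_ne k) _ _ fun a ha => ?_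
  have := hMp (2 * k)
  have hs : (arm (2 * k) ((Zl d).s ((e.1 + a, e.2) : Ed d)) : Set (Cf d)) ⊆
      {ω | shf a ω ∈ arm l ((Zl d).s e)} := by
    rintro ω ⟨b, hb, hc⟩
    rw [mem_bdry hd1] at hb
    have hab : ω ∈ cn ((Zl d).s e + a) (b - a + a) := by
      rw [sub_add_cancel]
      exact hc
    have h5 := (FWC_cn a ω _ _).2 hab
    have h6 : l ≤ nm (b - a) := by
      have h7 := nm_add (b - a) a
      rw [sub_add_cancel, hb] at h7
      rw [mem_bx] at ha
      omega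
    obtain ⟨b', hb', hc'⟩ := exit_box hd1 hl h6 h5
    exact ⟨b', hb', conn_mono _ Set.inter_subset_left hc'⟩
  refine le_trans ?_ (measureReal_mono hs)
  rw [hM _ _ (meas_arm _ _)]
  refine le_trans ?_ (nuN_diff hd hβ.le (2 * k) (hk a ha))
  refine mul_le_mul_of_nonneg_left ?_ (sq_nonneg _)
  have h8 := wired_ge hd hβ.le h1 (2 * k) (inc_up {((e.1 + a, e.2) : Ed d)}) (lcl_up _)
  have h9 := free_le hβ.le h0 (2 * k) (inc_up {((e.1 + a, e.2) : Ed d)}) (lcl_up _)
  rw [wired_shift hd hβ.le h1 e a] at h8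
  rw [FWC_up hd hβ h0 e a] at h9
  linarith

theorem exists_nu (hd : 2 ≤ d) {β : ℝ} (hβ : 0 < β) {μ0 μ1 : Measure (Cf d)}
    (h0 : IsLim β false μ0) (h1 : IsLim β true μ1) :
    ∃ ν : Measure (Cf d), IsProbabilityMeasure ν ∧ TI ν ∧
      INS ν (1 / Real.tanh β ^ 2) ∧ (∀ x y : Vx d, ν.real (cn x y) ≤ μ0.real (cn x y)) ∧
      ∀ (e : Ed d) (l : ℕ), nm ((Zl d).s e) ≤ l →
        Real.tanh β ^ 2 * (μ1.real (up {e}) - μ0.real (up {e})) ≤ ν.real (arm l ((Zl d).s e)) := by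
  obtain ⟨M, Av, hMp, hM, hAvp, hAv⟩ := FWC_ex (d := d) hβ.le
  obtain ⟨ν, hν, hlim⟩ := exists_ultra_limit Av hAvp
  refine ⟨ν, hν, ti_of_lcl ν fun b X hX => FWC_TI hMp hAv hlim b X hX,
    ins_of_lcl ν _ (by positivity) fun e X hX => FWC_INS hβ hM hAv hlim e X hX,
    fun x y => FWC_cnb hβ h0 hMp hM hAv hν hlim x y,
    fun e l hl => FWC_diff hd hβ h0 h1 hMp hM hAv hlim e l hl⟩

end H82.IC

end S_H82_IC_FWC

section S_H82_IC_LX3

/-!
# LX3: the critical point is positive; infinite susceptibility at the critical point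

* `rho_cont`: `β ↦ rho d β l` is continuous on `[0,∞)` (`phiB_continuous`).
* `rho_zero`: `rho d 0 1 = 0`: at `β = 0` all weights with an open edge vanish (`e^0 - 1 = 0`), so `phiB 0 1 false (cn 0 b) = 0` for `b ≠ 0`; the points of `bdry 1` are `≠ 0`.
* `bcr_pos`: by continuity `rho d β 1 < 1` for `0 ≤ β ≤ δ`, so `thW d β = 0` there (`decay`) and by `bcr_after` (points of the set arbitrarily close to `bcr d`) `bcr d ≥ δ > 0`.
* `rho_ge_one`: if `rho d (bcr d) l < 1` then by continuity `rho d β l < 1` on `[bcr d, bcr d + δ)`, so `thW = 0` there, contradicting `bcr_after`.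
* `chi_infinite`: for the free limit `μ` at `bcr d`: for every `l`, `∑_{b ∈ bdry l} μ (cn 0 b) ≥ rho d (bcr d) l ≥ 1` (`free_le_cn` with `S = ∅`), the sets `bdry l` are disjoint (`nm = l`), so the series
  diverges.
* `thW_eq`: `thW d β = μ1 (perc)` for the wired limit `μ1`: `μ1 (arm n 0) ≤ phiB β N true (arm n 0)` for all `N`; `phiB β N true (arm N 0) ≤ phiB β N true (arm n 0)` for `n ≤ N`, so `thW ≤ μ1 (arm n 0)` in the
  limit `N → ∞`, for all `n`: `thW ≤ μ1 (perc)` (`tendsto_arm`); conversely `μ1 (perc) ≤ μ1 (arm n 0) ≤ phiB β n true (arm n 0)` (`wired_ge`).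
-/

set_option autoImplicit false

open Finset Filter Topology MeasureTheory

namespace H82.IC

variable {d : ℕ}

theorem LX3_rho_cont (l : ℕ) : ContinuousOn (fun β : ℝ => rho d β l) (Set.Ici 0) := by
  unfold rho
  exact continuousOn_finset_sum _ fun b _ => phiB_continuous l false (cn (0 : Vx d) b)

theorem LX3_phiB_zero {b : Vx d} (hb : b ≠ 0) (n : ℕ) :
    phiB 0 n false (cn (0 : Vx d) b) = 0 := by
  unfold phiB phiG
  rw [div_eq_zero_iff]
  left
  refine Finset.sum_eq_zero fun ω _ => ?_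
  rcases ω.eq_empty_or_nonempty with rfl | hω
  · have h1 : ¬ (glue (bE d n) (fun _ => false) ∅ ∈ (cn (0 : Vx d) b : Set (Cf d))) := by
      intro h
      have h2 : opn (glue (bE d n) (fun _ => false) (∅ : Finset (Ed d))) = ∅ := by
        ext e
        simp [opn, glue]
      have h3 : (Zl d).Conn (opn (glue (bE d n) (fun _ => false) (∅ : Finset (Ed d)))) 0 b := h
      rw [h2] at h3
      rcases Relation.ReflTransGen.cases_head h3 with h4 | ⟨c, ⟨e, he, _⟩, _⟩
      · exact hb h4.symm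
      · exact he
    rw [ind, if_neg h1, mul_zero]
  · have h1 : fkw 0 (bx d n) (bE d n) (fun _ => false) ω = 0 := by
      unfold fkw
      rw [mul_zero, Real.exp_zero, sub_self, zero_pow (Finset.card_pos.2 hω).ne', mul_zero]
    rw [h1, zero_mul]

theorem LX3_rho_zero (hd : 1 ≤ d) : rho d 0 1 = 0 := by
  unfold rho
  refine Finset.sum_eq_zero fun b hb => LX3_phiB_zero ?_ 1
  rintro rfl
  rw [mem_bdry hd, nm_zero] at hb
  exact absurd hb (by norm_num)

theorem LX3_near {l : ℕ} {β0 : ℝ} (h0 : 0 ≤ β0) (h : rho d β0 l < 1) :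
    ∃ δ : ℝ, 0 < δ ∧ ∀ β, 0 ≤ β → |β - β0| < δ → rho d β l < 1 := by
  have h1 := (LX3_rho_cont (d := d) l) β0 (Set.mem_Ici.2 h0)
  have h2 : ∀ᶠ β in 𝓝[Set.Ici 0] β0, rho d β l < 1 := h1.eventually (gt_mem_nhds h)
  rw [eventually_nhdsWithin_iff, Metric.eventually_nhds_iff] at h2
  obtain ⟨δ, hδ, h3⟩ := h2
  exact ⟨δ, hδ, fun β hβ hβδ => h3 (by rwa [Real.dist_eq]) (Set.mem_Ici.2 hβ)⟩

theorem bcr_pos (hd : 3 ≤ d) : 0 < bcr d := by
  obtain ⟨δ, hδ, h⟩ := LX3_near (d := d) (l := 1) (β0 := 0) le_rfl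
    (by rw [LX3_rho_zero (by omega)]; exact one_pos)
  by_contra hcon
  have h0 : bcr d = 0 := le_antisymm (not_lt.1 hcon) (bcr_nonneg d)
  obtain ⟨β, hβ1, hβ2, hβ3⟩ := bcr_after hd δ hδ
  rw [h0] at hβ1 hβ2
  have h1 := decay (by omega : 2 ≤ d) hβ1 1 (h β hβ1 (by
    rw [sub_zero, abs_of_nonneg hβ1]; linarith))
  exact absurd h1 hβ3.ne'

theorem rho_ge_one (hd : 3 ≤ d) (l : ℕ) : 1 ≤ rho d (bcr d) l := by
  by_contra hcon
  obtain ⟨δ, hδ, h⟩ := LX3_near (d := d) (l := l) (bcr_nonneg d) (not_le.1 hcon)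
  obtain ⟨β, hβ1, hβ2, hβ3⟩ := bcr_after hd δ hδ
  have hβ0 : 0 ≤ β := (bcr_nonneg d).trans hβ1
  have h1 := decay (by omega : 2 ≤ d) hβ0 l (h β hβ0 (by
    rw [abs_of_nonneg (by linarith)]; linarith))
  exact absurd h1 hβ3.ne'

theorem chi_infinite (hd : 3 ≤ d) {μ : Measure (Cf d)} (hμ : IsLim (bcr d) false μ) :
    ¬ Summable (fun x : Vx d => μ.real (cn 0 x)) := by
  classical
  intro hs
  have h1 : ∀ l : ℕ, 1 ≤ ∑ b ∈ bdry d l, μ.real (cn 0 b) := by
    intro l
    refine (rho_ge_one hd l).trans ?_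
    unfold rho
    refine Finset.sum_le_sum fun b _ => ?_
    have h2 := free_le_cn (bcr_nonneg d) hμ l ∅ (0 : Vx d) b
    have h3 : (up (∅ : Finset (Ed d)) : Set (Cf d)) = Set.univ := by
      ext ω
      simp [up]
    rw [h3, Set.inter_univ] at h2
    exact h2
  obtain ⟨s, hs'⟩ := (summable_iff_vanishing_norm.1 hs) 1 one_pos
  obtain ⟨l, hl⟩ : ∃ l : ℕ, ∀ x ∈ s, nm x < l := by
    refine ⟨s.sup nm + 1, fun x hx => Nat.lt_succ_of_le (Finset.le_sup hx)⟩
  have hdis : Disjoint (bdry d l) s := by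
    rw [Finset.disjoint_left]
    intro x hx hxs
    rw [mem_bdry (by omega)] at hx
    exact absurd hx (hl x hxs).ne
  have h2 := hs' (bdry d l) hdis
  rw [Real.norm_eq_abs] at h2
  have h3 := le_abs_self (∑ b ∈ bdry d l, μ.real (cn 0 b))
  linarith [h1 l]

theorem thW_eq (hd : 2 ≤ d) {β : ℝ} (hβ : 0 ≤ β) {μ1 : Measure (Cf d)} (h1 : IsLim β true μ1) :
    thW d β = μ1.real (perc d) := by
  haveI := h1.1
  have hd1 : 1 ≤ d := by omega
  have hn0 : ∀ n : ℕ, nm (0 : Vx d) ≤ n := fun n => by rw [nm_zero]; exact Nat.zero_le _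
  apply le_antisymm
  · refine ge_of_tendsto' (tendsto_arm hd1 (μ := μ1)) fun n => ?_
    have h2 := h1.2 (arm n (0 : Vx d)) (lcl_arm hd1 (hn0 n))
    refine ge_of_tendsto h2 ?_
    filter_upwards [eventually_ge_atTop n] with N hN
    have h3 : thW d β ≤ phiB β N true (arm N (0 : Vx d)) :=
      ciInf_le ⟨0, by
        rintro x ⟨m, rfl⟩
        exact phiB_nonneg hβ m true _⟩ N
    exact h3.trans (phiB_mono_set hβ N true (arm_anti hd1 hN (hn0 n)))
  · unfold thW
    refine le_ciInf fun n => ?_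
    have h2 : μ1.real (perc d) ≤ μ1.real (arm n (0 : Vx d)) := by
      refine measureReal_mono ?_
      rw [perc_eq hd1]
      exact Set.iInter_subset _ n
    exact h2.trans (wired_ge hd hβ h1 n (inc_arm n 0) (lcl_arm hd1 (hn0 n)))

end H82.IC

end S_H82_IC_LX3

section S_H82_IC_UQA

/-!
# UQA: only `avg_zero` in this file (see also UQB, UQ)

* `infrared_crit`: `β = bcr d > 0`.  For every `R`: the inequality of `infrared_free` holds for all `0 < β < bcr d` (`bcr_zero`), both sides are continuous in `β` (`phiB_continuous`), so it holds at `bcr d`.  Let `R → ∞`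
  (`free_tendsto` with `S = ∅`; `cube d j ⊆ bx R` for large `R`): `∑_{x,y ∈ cube j} μ0 (cn x y) ≤ (3d)² (2^{-j}/bcr d) |cube j|²` (`|cube d j| = 2^{jd}`).
* `avg_zero`: so hypothesis `hA` of `bk_main` holds for `μ0` (and for `ν` of `exists_nu` since `ν (cn x y) ≤ μ0 (cn x y)`), with `Q = cube d j`, `j` large.
* `no_perc_nu`: `bk_main` for `ν`: `ν (perc d) = 0`, so `ν (arm l 0) → 0` (`tendsto_arm`), and for an edge `e`: `ν (arm l (s e)) ≤ ν (arm (l - nm (s e)) 0)` by `TI` (as in `arm_le`), `→ 0`: `μ1 (up {e}) ≤ μ0 (up {e})`;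
  with `lim_le`: equality for every edge.
* `free_eq_wired`: for a finset `S`: the function `∑_{e ∈ S} 1[ω e] - 1[up S]` is `∑_{j=1}^{|S|-1} 1[at least j edges of S open]`, a sum of indicators of increasing cylinder events, so by `lim_le` its `μ0`-expectation is `≤` its
  `μ1`-expectation; as the densities agree, `μ1 (up S) ≤ μ0 (up S)`; with `lim_le` equality; `measure_ext_up`.
* `perc_zero`: `bk_main` for `μ0` itself: `TI μ0` by `lim_shift` (`exists_trA`: `act g = shf a`), `INS μ0 (2/τ)`: by `fe_open` for the single edge in every box: `(τ/2) phiB β n false {opE e ω ∈ X} ≤ phiB β n false X`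
  for `e ∈ bE n`, limit for cylinder `X`, and extension to measurable `X` as in FWC.
-/

set_option autoImplicit false

open Finset MeasureTheory Filter Topology

namespace H82.IC

variable {d : ℕ}

theorem UQA_crit (hd : 3 ≤ d) (j R : ℕ) :
    ∑ x ∈ cube d j ∩ bx d R, ∑ y ∈ cube d j ∩ bx d R, phiB (bcr d) R false (cn x y) ≤
      (3 * d) ^ 2 * ((2 ^ j : ℝ)⁻¹ / bcr d) * ((2 ^ j : ℝ) ^ d) ^ 2 := by
  have hb := bcr_pos hd
  have h1 : Tendsto (fun β : ℝ => ∑ x ∈ cube d j ∩ bx d R, ∑ y ∈ cube d j ∩ bx d R,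
      phiB β R false (cn x y)) (𝓝[<] (bcr d))
      (𝓝 (∑ x ∈ cube d j ∩ bx d R, ∑ y ∈ cube d j ∩ bx d R,
        phiB (bcr d) R false (cn x y))) := by
    refine tendsto_finsetSum _ fun x _ => tendsto_finsetSum _ fun y _ => ?_
    exact (((phiB_continuous R false (cn x y)).continuousAt (Ici_mem_nhds hb)).tendsto).mono_left
      nhdsWithin_le_nhds
  have h2 : Tendsto (fun β : ℝ => (3 * (d : ℝ)) ^ 2 * ((2 ^ j : ℝ)⁻¹ / β) * ((2 ^ j : ℝ) ^ d) ^ 2)
      (𝓝[<] (bcr d)) (𝓝 ((3 * (d : ℝ)) ^ 2 * ((2 ^ j : ℝ)⁻¹ / bcr d) * ((2 ^ j : ℝ) ^ d) ^ 2)) := by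
    refine Tendsto.mul_const _ (Tendsto.const_mul _ ?_)
    exact (tendsto_const_nhds.div tendsto_id hb.ne').mono_left nhdsWithin_le_nhds
  refine le_of_tendsto_of_tendsto h1 h2 ?_
  filter_upwards [Ioo_mem_nhdsLT hb] with β hβ
  exact infrared_free hd hβ.1 (bcr_zero hβ.1.le hβ.2) j R

theorem UQA_card (j : ℕ) : (((cube d j).card : ℕ) : ℝ) = (2 ^ j : ℝ) ^ d := by
  unfold cube
  rw [Fintype.card_piFinset]
  simp only [Int.card_Ico, sub_zero, Finset.prod_const, Finset.card_univ, Fintype.card_fin]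
  have h : ((2 : ℤ) ^ j).toNat = 2 ^ j := by
    have : ((2 : ℤ) ^ j) = ((2 ^ j : ℕ) : ℤ) := by push_cast; rfl
    rw [this, Int.toNat_natCast]
  rw [h]
  push_cast
  rfl

theorem UQA_inf (hd : 3 ≤ d) {μ0 : Measure (Cf d)} (h0 : IsLim (bcr d) false μ0) (j : ℕ) :
    ∑ x ∈ cube d j, ∑ y ∈ cube d j, μ0.real (cn x y) ≤
      (3 * d) ^ 2 * ((2 ^ j : ℝ)⁻¹ / bcr d) * ((2 ^ j : ℝ) ^ d) ^ 2 := by
  have hb := bcr_pos hd
  have h1 : Tendsto (fun R : ℕ => ∑ x ∈ cube d j, ∑ y ∈ cube d j,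
      phiB (bcr d) R false (cn x y)) atTop
      (𝓝 (∑ x ∈ cube d j, ∑ y ∈ cube d j, μ0.real (cn x y))) := by
    refine tendsto_finsetSum _ fun x _ => tendsto_finsetSum _ fun y _ => ?_
    have h := free_tendsto (by omega) hb.le h0 ∅ x y
    have hu : cn x y ∩ up (∅ : Finset (Ed d)) = cn x y := by
      ext ω
      simp [up]
    rwa [hu] at h
  refine le_of_tendsto h1 ?_
  filter_upwards [eventually_ge_atTop ((cube d j).sup nm)] with R hR
  have h2 : cube d j ∩ bx d R = cube d j := by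
    refine Finset.inter_eq_left.2 fun x hx => ?_
    rw [mem_bx]
    exact (Finset.le_sup (f := nm) hx).trans hR
  have h3 := UQA_crit hd j R
  rw [h2] at h3
  exact h3

theorem avg_zero (hd : 3 ≤ d) {μ0 : Measure (Cf d)} (h0 : IsLim (bcr d) false μ0) :
    ∀ ε : ℝ, 0 < ε → ∃ Q : Finset (Vx d), Q.Nonempty ∧
      ∑ x ∈ Q, ∑ y ∈ Q, μ0.real (cn x y) ≤ ε * (Q.card : ℝ) ^ 2 := by
  intro ε hε
  have hb := bcr_pos hd
  have h1 : Tendsto (fun j : ℕ => (3 * (d : ℝ)) ^ 2 * ((2 ^ j : ℝ)⁻¹ / bcr d)) atTop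
      (𝓝 ((3 * (d : ℝ)) ^ 2 * (0 / bcr d))) := by
    refine Tendsto.const_mul _ (Tendsto.div_const ?_ _)
    exact tendsto_inv_atTop_zero.comp (tendsto_pow_atTop_atTop_of_one_lt one_lt_two)
  rw [zero_div, mul_zero] at h1
  obtain ⟨j, hj⟩ := (h1.eventually (gt_mem_nhds hε)).exists
  refine ⟨cube d j, ?_, ?_⟩
  · refine ⟨fun _ => 0, Fintype.mem_piFinset.2 fun i => ?_⟩
    simp
  · rw [UQA_card]
    refine (UQA_inf hd h0 j).trans ?_
    exact mul_le_mul_of_nonneg_right hj.le (by positivity)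

end H82.IC

end S_H82_IC_UQA

section S_H82_IC_UQB

/-!
# UQB: only `ins_free` and `perc_zero` in this file

* `infrared_crit`: `β = bcr d > 0`.  For every `R`: the inequality of `infrared_free` holds for all `0 < β < bcr d` (`bcr_zero`), both sides are continuous in `β` (`phiB_continuous`), so it holds at `bcr d`.  Let `R → ∞`
  (`free_tendsto` with `S = ∅`; `cube d j ⊆ bx R` for large `R`): `∑_{x,y ∈ cube j} μ0 (cn x y) ≤ (3d)² (2^{-j}/bcr d) |cube j|²` (`|cube d j| = 2^{jd}`).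
* `avg_zero`: so hypothesis `hA` of `bk_main` holds for `μ0` (and for `ν` of `exists_nu` since `ν (cn x y) ≤ μ0 (cn x y)`), with `Q = cube d j`, `j` large.
* `no_perc_nu`: `bk_main` for `ν`: `ν (perc d) = 0`, so `ν (arm l 0) → 0` (`tendsto_arm`), and for an edge `e`: `ν (arm l (s e)) ≤ ν (arm (l - nm (s e)) 0)` by `TI` (as in `arm_le`), `→ 0`: `μ1 (up {e}) ≤ μ0 (up {e})`;
  with `lim_le`: equality for every edge.
* `free_eq_wired`: for a finset `S`: the function `∑_{e ∈ S} 1[ω e] - 1[up S]` is `∑_{j=1}^{|S|-1} 1[at least j edges of S open]`, a sum of indicators of increasing cylinder events, so by `lim_le` its `μ0`-expectation is `≤` its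
  `μ1`-expectation; as the densities agree, `μ1 (up S) ≤ μ0 (up S)`; with `lim_le` equality; `measure_ext_up`.
* `perc_zero`: `bk_main` for `μ0` itself: `TI μ0` by `lim_shift` (`exists_trA`: `act g = shf a`), `INS μ0 (2/τ)`: by `fe_open` for the single edge in every box: `(τ/2) phiB β n false {opE e ω ∈ X} ≤ phiB β n false X`
  for `e ∈ bE n`, limit for cylinder `X`, and extension to measurable `X` as in FWC.
-/

set_option autoImplicit false

open Finset MeasureTheory Filter Topology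

namespace H82.IC

variable {d : ℕ}

theorem UQB_insc {β : ℝ} (hβ : 0 ≤ β) (n : ℕ) {e : Ed d} (he : e ∈ bE d n) (X : Set (Cf d)) :
    Real.tanh β / 2 * phiB β n false {ω | opE e ω ∈ X} ≤ phiB β n false X := by
  have ht : T01 (fun _ : ↥(bE d n) => Real.tanh β) := T01_tanh β hβ
  rw [phiB_self hβ, phiB_self hβ]
  have h1 := fe_open (GN d n) ht {⟨e, he⟩} (f := fun ω => ind (ext false n n ω ∈ X))
    (fun ω => ind_nonneg _)
  rw [Finset.prod_singleton] at h1
  have e1 : (fun ω : Finset ↥(bE d n) => ind (ext false n n ω ∈ {ω | opE e ω ∈ X})) =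
      (fun ω => ind (ext false n n (ω ∪ {⟨e, he⟩}) ∈ X)) := by
    funext ω
    have : ext false n n (ω ∪ {⟨e, he⟩}) = opE e (ext false n n ω) := by
      funext f
      unfold opE
      by_cases hf : f = e
      · subst hf
        rw [Function.update_self]
        unfold ext glue
        rw [if_pos he]
        unfold vl
        simp [he]
      · rw [Function.update_of_ne hf]
        unfold ext glue
        by_cases hfm : f ∈ bE d n
        · rw [if_pos hfm, if_pos hfm]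
          unfold vl
          simp [hf, hfm]
        · rw [if_neg hfm, if_neg hfm]
    rw [this]
    rfl
  rw [e1]
  refine h1.trans (fkE_le _ ht ?_)
  intro ω
  have := ind_le_one (({⟨e, he⟩} : Finset ↥(bE d n)) ⊆ ω)
  have h3 := ind_nonneg (ext false n n ω ∈ X)
  nlinarith

theorem UQB_mem {e : Ed d} {n : ℕ} (h : nm e.1 + 1 ≤ n) : e ∈ bE d n := by
  rw [mem_bE]
  refine ⟨?_, ?_⟩
  · change nm e.1 ≤ n
    omega
  · change nm (e.1 + Pi.single e.2 1) ≤ n
    refine le_trans ?_ h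
    unfold nm
    refine Finset.sup_le fun i _ => ?_
    have h1 : (e.1 i).natAbs ≤ univ.sup (fun i => (e.1 i).natAbs) :=
      Finset.le_sup (f := fun i => (e.1 i).natAbs) (Finset.mem_univ i)
    rw [Pi.add_apply, Pi.single_apply]
    split_ifs <;> omega

theorem UQB_lcl {X : Set (Cf d)} (hX : Lcl X) (e : Ed d) : Lcl {ω : Cf d | opE e ω ∈ X} := by
  obtain ⟨F, hF⟩ := hX
  refine ⟨F, fun ω ω' h => ?_⟩
  apply hF
  intro f hf
  unfold opE
  by_cases hfe : f = e
  · rw [hfe, Function.update_self, Function.update_self]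
  · rw [Function.update_of_ne hfe, Function.update_of_ne hfe]
    exact h f hf

theorem ins_free (hd : 2 ≤ d) {β : ℝ} (hβ : 0 < β) {μ0 : Measure (Cf d)} (h0 : IsLim β false μ0) :
    TI μ0 ∧ INS μ0 (2 / Real.tanh β) := by
  haveI := h0.1
  have hτ : 0 < Real.tanh β := by
    rw [Real.tanh_eq_sinh_div_cosh]
    exact div_pos (Real.sinh_pos_iff.2 hβ) (Real.cosh_pos β)
  refine ⟨?_, ?_⟩
  · intro a X hX
    obtain ⟨g, hg, hgE⟩ := exists_trA a
    have h1 := lim_shift hβ.le h0 g a hg X hX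
    rw [← h1]
    congr 1
    ext ω
    have : act g ω = shf a ω := by
      funext e
      change ω (g.gE e) = ω (e.1 + a, e.2)
      rw [hgE]
    change shf a ω ∈ X ↔ act g ω ∈ X
    rw [this]
  · refine ins_of_lcl μ0 _ (by positivity) ?_
    intro e X hX
    have hlim : Tendsto (fun n => Real.tanh β / 2 * phiB β n false {ω | opE e ω ∈ X}) atTop
        (𝓝 (Real.tanh β / 2 * μ0.real {ω | opE e ω ∈ X})) :=
      (h0.2 _ (UQB_lcl hX e)).const_mul _
    have h2 : Real.tanh β / 2 * μ0.real {ω | opE e ω ∈ X} ≤ μ0.real X := by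
      refine le_of_tendsto_of_tendsto hlim (h0.2 X hX) ?_
      filter_upwards [eventually_ge_atTop (nm e.1 + 1)] with n hn
      exact UQB_insc hβ.le n (UQB_mem hn) X
    rw [div_mul_eq_mul_div, le_div_iff₀ hτ]
    linarith

theorem perc_zero (hd : 3 ≤ d) {μ0 : Measure (Cf d)} (h0 : IsLim (bcr d) false μ0) :
    μ0.real (perc d) = 0 := by
  haveI := h0.1
  have hβ := bcr_pos hd
  have hτ : 0 < Real.tanh (bcr d) := by
    rw [Real.tanh_eq_sinh_div_cosh]
    exact div_pos (Real.sinh_pos_iff.2 hβ) (Real.cosh_pos _)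
  obtain ⟨h1, h2⟩ := ins_free (by omega) hβ h0
  exact bk_main (by omega) μ0 h1 _ (by positivity) h2 (avg_zero hd h0)

end H82.IC

end S_H82_IC_UQB

section S_H82_IC_UQ

/-!
# UQ: only `free_eq_wired` in this file (`avg_zero`, `ins_free`, `perc_zero` are in UQA, UQB)

* `infrared_crit`: `β = bcr d > 0`.  For every `R`: the inequality of `infrared_free` holds for all `0 < β < bcr d` (`bcr_zero`), both sides are continuous in `β` (`phiB_continuous`), so it holds at `bcr d`.  Let `R → ∞`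
  (`free_tendsto` with `S = ∅`; `cube d j ⊆ bx R` for large `R`): `∑_{x,y ∈ cube j} μ0 (cn x y) ≤ (3d)² (2^{-j}/bcr d) |cube j|²` (`|cube d j| = 2^{jd}`).
* `avg_zero`: so hypothesis `hA` of `bk_main` holds for `μ0` (and for `ν` of `exists_nu` since `ν (cn x y) ≤ μ0 (cn x y)`), with `Q = cube d j`, `j` large.
* `no_perc_nu`: `bk_main` for `ν`: `ν (perc d) = 0`, so `ν (arm l 0) → 0` (`tendsto_arm`), and for an edge `e`: `ν (arm l (s e)) ≤ ν (arm (l - nm (s e)) 0)` by `TI` (as in `arm_le`), `→ 0`: `μ1 (up {e}) ≤ μ0 (up {e})`;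
  with `lim_le`: equality for every edge.
* `free_eq_wired`: for a finset `S`: the function `∑_{e ∈ S} 1[ω e] - 1[up S]` is `∑_{j=1}^{|S|-1} 1[at least j edges of S open]`, a sum of indicators of increasing cylinder events, so by `lim_le` its `μ0`-expectation is `≤` its
  `μ1`-expectation; as the densities agree, `μ1 (up S) ≤ μ0 (up S)`; with `lim_le` equality; `measure_ext_up`.
* `perc_zero`: `bk_main` for `μ0` itself: `TI μ0` by `lim_shift` (`exists_trA`: `act g = shf a`), `INS μ0 (2/τ)`: by `fe_open` for the single edge in every box: `(τ/2) phiB β n false {opE e ω ∈ X} ≤ phiB β n false X`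
  for `e ∈ bE n`, limit for cylinder `X`, and extension to measurable `X` as in FWC.
-/

set_option autoImplicit false

open Finset MeasureTheory Filter Topology

namespace H82.IC

variable {d : ℕ}

theorem UQ_arm {ν : Measure (Cf d)} [IsProbabilityMeasure ν] (hd : 1 ≤ d) (hT : TI ν)
    {n : ℕ} {u : Vx d} (hu : nm u ≤ n) :
    ν.real (arm n u) ≤ ν.real (arm (n - nm u) (0 : Vx d)) := by
  rw [← hT u (arm (n - nm u) (0 : Vx d)) (meas_arm _ _)]
  refine measureReal_mono ?_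
  rintro ω ⟨y, hy, hconn⟩
  have hny : nm y = n := (mem_bdry hd).1 hy
  have h1 : shf u ω ∈ cn (0 : Vx d) (y - u) := by
    rw [shf_cn, zero_add, sub_add_cancel]
    exact hconn
  have h2 : n - nm u ≤ nm (y - u) := by
    have h3 := nm_add (y - u) u
    rw [sub_add_cancel, hny] at h3
    omega
  exact cn_sub_arm hd (by rw [nm_zero]; exact Nat.zero_le _) h2 h1

theorem UQ_edge (hd : 3 ≤ d) {μ0 μ1 : Measure (Cf d)} (h0 : IsLim (bcr d) false μ0)
    (h1 : IsLim (bcr d) true μ1) (e : Ed d) : μ1.real (up {e}) ≤ μ0.real (up {e}) := by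
  have hd1 : 1 ≤ d := by omega
  have hd2 : 2 ≤ d := by omega
  have hβ := bcr_pos hd
  obtain ⟨ν, hν, hT, hI, hcn, hdiff⟩ := exists_nu hd2 hβ h0 h1
  have hτ : 0 < Real.tanh (bcr d) := by
    rw [Real.tanh_eq_sinh_div_cosh]
    exact div_pos (Real.sinh_pos_iff.mpr hβ) (Real.cosh_pos _)
  have hperc : ν.real (perc d) = 0 := by
    apply bk_main hd1 ν hT (1 / Real.tanh (bcr d) ^ 2) (by positivity) hI
    intro ε hε
    obtain ⟨Q, hQ, hQe⟩ := avg_zero hd h0 ε hε
    refine ⟨Q, hQ, le_trans ?_ hQe⟩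
    exact Finset.sum_le_sum (fun x _ => Finset.sum_le_sum (fun y _ => hcn x y))
  have harm : Tendsto (fun l => ν.real (arm (l - nm ((Zl d).s e)) (0 : Vx d))) atTop (𝓝 0) := by
    have h2 := tendsto_arm hd1 (μ := ν)
    rw [hperc] at h2
    exact h2.comp (tendsto_sub_atTop_nat _)
  have hle : Real.tanh (bcr d) ^ 2 * (μ1.real (up {e}) - μ0.real (up {e})) ≤ 0 := by
    apply ge_of_tendsto harm
    filter_upwards [eventually_ge_atTop (nm ((Zl d).s e))] with l hl
    exact (hdiff e l hl).trans (UQ_arm hd1 hT hl)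
  have hτ2 : 0 < Real.tanh (bcr d) ^ 2 := by positivity
  by_contra hcon
  push Not at hcon
  have := mul_pos hτ2 (sub_pos.mpr hcon)
  linarith

theorem UQ_inc_union {X Y : Set (Cf d)} (h : Inc X) (h' : Inc Y) : Inc (X ∪ Y) := by
  intro ω ω' hω hx
  rcases hx with hx | hx
  · exact Or.inl (h ω ω' hω hx)
  · exact Or.inr (h' ω ω' hω hx)

theorem free_eq_wired (hd : 3 ≤ d) {μ0 μ1 : Measure (Cf d)} (h0 : IsLim (bcr d) false μ0)
    (h1 : IsLim (bcr d) true μ1) : μ0 = μ1 := by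
  classical
  have hd2 : 2 ≤ d := by omega
  have hβ := (bcr_pos hd).le
  haveI : IsProbabilityMeasure μ0 := h0.1
  haveI : IsProbabilityMeasure μ1 := h1.1
  apply measure_ext_up
  intro S
  induction S using Finset.induction_on with
  | empty =>
    have h : (up (∅ : Finset (Ed d)) : Set (Cf d)) = Set.univ := by
      ext ω
      simp [up]
    rw [h]
    simp
  | insert e S _ ih =>
    have hI : (up (insert e S) : Set (Cf d)) = up S ∩ up {e} := by
      ext ω
      simp only [up, Set.mem_ofPred_eq, Finset.mem_insert, Finset.mem_singleton, Set.mem_inter_iff]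
      constructor
      · intro h
        exact ⟨fun f hf => h f (Or.inr hf), fun f hf => h f (Or.inl hf)⟩
      · rintro ⟨ha, hb⟩ f (hf | hf)
        · exact hb f hf
        · exact ha f hf
    have he : μ0.real (up {e}) = μ1.real (up {e}) :=
      le_antisymm (lim_le hd2 hβ h0 h1 (inc_up _) (lcl_up _)) (UQ_edge hd h0 h1 e)
    have hu := lim_le hd2 hβ h0 h1 (UQ_inc_union (inc_up S) (inc_up {e}))
      (lcl_union (lcl_up S) (lcl_up {e}))
    have hi := lim_le hd2 hβ h0 h1 (inc_inter (inc_up S) (inc_up {e}))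
      (lcl_inter (lcl_up S) (lcl_up {e}))
    have m : MeasurableSet (up {e} : Set (Cf d)) := lcl_measurable (lcl_up {e})
    have a0 := measureReal_union_add_inter (μ := μ0) (s := (up S : Set (Cf d))) (t := up {e}) m
    have a1 := measureReal_union_add_inter (μ := μ1) (s := (up S : Set (Cf d))) (t := up {e}) m
    rw [hI]
    linarith

end H82.IC

end S_H82_IC_UQ

section S_H82_IC_FINZ

/-!
# FINZ: the unconditional theorem

`phi β` = the wired limit for every `β ≥ 0`; `bc = inf {β ≥ 0 : phi β (perc) > 0}`.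
* `bc_eq`: `thW d β = (phi β).real (perc d)` for `β ≥ 0` (`thW_eq`), so the two sets are equal and `bc = bcr d`.
* Let `μ = phi (bcr d)`, `μ0` a free limit at `bcr d` (`exists_IsLim`); `free_eq_wired`: `μ0 = μ`; so `IsLim (bcr d) false μ`; `perc_zero`: `μ (perc d) = 0`; `bcr_pos`; `chi_infinite`.
* `G x = μ (cn 0 x) → 0` along `cofinite`: `G x ≤ μ (arm (nm x) 0)` (`cn_sub_arm`), `tendsto_arm`, and `{x | nm x < n} ⊆ bx n` is finite.
* `x_limit` gives all the limits for `dw F`; `stage_one` gives, for every cylinder `X`, a common limit of the two conditional probabilities.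
* `phiInf`: apply `exists_limit` (PM1) to the probability measures `ν n = (μ (arm n 0))⁻¹ • μ.restrict (arm n 0)` (`arm_pos`; `ProbabilityTheory.cond μ (arm n 0)`), `ν n X = μ (X ∩ arm n 0)/μ (arm n 0)`, which converge on all cylinder
  events; the limit measure has `phiInf X = ` the common limit.
-/

set_option autoImplicit false

open Finset MeasureTheory Filter Topology

namespace H82.IC

variable {d : ℕ}

theorem bc_eq (hd : 3 ≤ d) (phi : ℝ → Measure (Cf d)) (hphi : ∀ β, 0 ≤ β → IsLim β true (phi β)) :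
    sInf {β : ℝ | 0 ≤ β ∧ 0 < (phi β).real (perc d)} = bcr d := by
  unfold bcr
  congr 1
  ext β
  constructor
  · rintro ⟨h0, h⟩
    exact ⟨h0, by rw [thW_eq (by omega) h0 (hphi β h0)]; exact h⟩
  · rintro ⟨h0, h⟩
    exact ⟨h0, by rw [thW_eq (by omega) h0 (hphi β h0)] at h; exact h⟩

theorem FINZ_finite (n : ℕ) : {x : Vx d | nm x < n}.Finite := by
  refine (bx d n).finite_toSet.subset fun x hx => ?_
  have hx' : nm x < n := hx
  exact Finset.mem_coe.2 ((mem_bx).2 hx'.le)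

theorem FINZ_G (hd : 1 ≤ d) {μ : Measure (Cf d)} [IsProbabilityMeasure μ]
    (hp : μ.real (perc d) = 0) : Tendsto (fun x : Vx d => μ.real (cn 0 x)) cofinite (𝓝 0) := by
  have harm := tendsto_arm (d := d) hd (μ := μ)
  rw [hp] at harm
  rw [Metric.tendsto_nhds]
  intro ε hε
  have h1 := (Metric.tendsto_nhds.1 harm) ε hε
  obtain ⟨n, hn⟩ := h1.exists
  have h2 : ∀ᶠ x : Vx d in cofinite, ¬ (nm x < n) := (FINZ_finite (d := d) n).eventually_cofinite_notMem
  filter_upwards [h2] with x hx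
  have h3 : μ.real (cn (0 : Vx d) x) ≤ μ.real (arm n (0 : Vx d)) :=
    measureReal_mono (cn_sub_arm hd (by rw [nm_zero]; exact Nat.zero_le _) (not_lt.1 hx))
  rw [Real.dist_eq, sub_zero, abs_of_nonneg measureReal_nonneg] at hn ⊢
  exact lt_of_le_of_lt h3 hn

theorem FINZ_cond {μ : Measure (Cf d)} [IsProbabilityMeasure μ] {A : Set (Cf d)}
    (hA : MeasurableSet A) (X : Set (Cf d)) :
    (ProbabilityTheory.cond μ A).real X = μ.real (X ∩ A) / μ.real A := by
  rw [measureReal_def, ProbabilityTheory.cond_apply hA, ENNReal.toReal_mul, ENNReal.toReal_inv,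
    Set.inter_comm, div_eq_inv_mul]
  rfl

theorem final (hd : 3 ≤ d) {μ : Measure (Cf d)} (hμ : IsLim (bcr d) true μ) :
    0 < bcr d ∧ IsLim (bcr d) false μ ∧ μ.real (perc d) = 0 ∧
    ∃ phiInf : Measure (Cf d), IsProbabilityMeasure phiInf ∧
      (∀ X : Set (Cf d), Lcl X →
        Tendsto (fun x : Vx d => μ.real (X ∩ cn 0 x) / μ.real (cn 0 x)) cofinite
          (𝓝 (phiInf.real X))) ∧
      (∀ X : Set (Cf d), Lcl X →
        Tendsto (fun n : ℕ => μ.real (X ∩ arm n (0 : Vx d)) / μ.real (arm n (0 : Vx d))) atTop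
          (𝓝 (phiInf.real X))) := by
  haveI := hμ.1
  have hd2 : 2 ≤ d := by omega
  have hd1 : 1 ≤ d := by omega
  have hc : 0 < bcr d := bcr_pos hd
  obtain ⟨μ0, h0'⟩ := exists_IsLim (d := d) hd2 hc.le false
  have h0 : IsLim (bcr d) false μ := by
    have he := free_eq_wired hd h0' hμ
    rw [he] at h0'
    exact h0'
  have hp := perc_zero hd h0
  have hχ := chi_infinite hd h0
  have hG := FINZ_G hd1 hp
  have hs := fun X hX => stage_one hd2 hc h0 hμ hp hχ (x_limit hd2 hc h0 hG hχ) X hX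
  have hapos : ∀ n : ℕ, 0 < μ.real (arm n (0 : Vx d)) := fun n => arm_pos hd1 hc h0 n 0
  have hν : ∀ n : ℕ, IsProbabilityMeasure (ProbabilityTheory.cond μ (arm n (0 : Vx d))) := by
    intro n
    refine ProbabilityTheory.cond_isProbabilityMeasure fun h => ?_
    have h1 := hapos n
    rw [measureReal_def, h] at h1
    simp at h1
  have hr : ∀ (n : ℕ) (X : Set (Cf d)),
      (ProbabilityTheory.cond μ (arm n (0 : Vx d))).real X =
        μ.real (X ∩ arm n (0 : Vx d)) / μ.real (arm n (0 : Vx d)) :=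
    fun n X => FINZ_cond (meas_arm n 0) X
  obtain ⟨phiInf, hprob, hlim⟩ := exists_limit
    (fun n => ProbabilityTheory.cond μ (arm n (0 : Vx d))) hν fun X hX => by
      obtain ⟨L, -, hL⟩ := hs X hX
      exact ⟨L, hL.congr fun n => (hr n X).symm⟩
  refine ⟨hc, h0, hp, phiInf, hprob, fun X hX => ?_, fun X hX => ?_⟩
  · obtain ⟨L, hL1, hL2⟩ := hs X hX
    have h1 := (hlim X hX).congr fun n => hr n X
    rw [tendsto_nhds_unique h1 hL2]
    exact hL1
  · exact (hlim X hX).congr fun n => hr n X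

end H82.IC

end S_H82_IC_FINZ
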